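import Pool.Agent.Lib.MP_f52611_an.PPShift

open Filter Topology Asymptotics

namespace F526

/-- majorant: `mon ρ n - mon ρ (n+1) ≥ c mon (ρ-1) n` eventually for `ρ < 0` -/
lemma mon_diff_lower {ρ : ℝ} (hρ : ρ < 0) :
    ∀ᶠ n in atTop, (-ρ / 2) * mon (ρ - 1) n ≤ mon ρ n - mon ρ (n + 1) := by
  have h1 := (PP_mon_diff2 ρ).isBigO
  have h2 : (mon (ρ - 2)) =o[atTop] mon (ρ - 1) := by
    have h3 : mon (ρ - 2) = fun n => mon (-1) n * mon (ρ - 1) n := by
      ext n; rw [mon_mul_apply]; congr 1; ring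
    rw [h3]
    have := (mon_tendsto_zero (by norm_num : (-1 : ℝ) < 0))
    have h4 : (fun n => mon (-1) n) =o[atTop] (fun _ => (1 : ℝ)) := (isLittleO_one_iff ℝ).mpr this
    simpa using h4.mul_isBigO (isBigO_refl (mon (ρ - 1)) atTop)
  have h5 := h1.trans_isLittleO h2
  have h6 := h5.bound (by linarith : 0 < -ρ / 2)
  filter_upwards [h6] with n hn
  rw [Real.norm_of_nonneg (mon_pos _ _).le, Real.norm_eq_abs] at hn
  have := (abs_le.mp hn).2
  linarith

/-- comparison principle for tail sums -/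
lemma decay_bound {w e : ℕ → ℝ} {T : ℝ} (hT : 1 < T)
    (hw : ∀ᶠ n in atTop, |w n| ≤ |e n| + |w (n + 1)|)
    (hw0 : Tendsto w atTop (𝓝 0)) (he : e =O[atTop] mon (-T)) : w =O[atTop] mon (-T + 1) := by
  obtain ⟨C, hC0, hC⟩ := he.exists_pos
  have h1 := mon_diff_lower (by linarith : -T + 1 < 0)
  set K : ℝ := C / (-(-T + 1) / 2) with hK
  have hKpos : 0 < K := div_pos hC0 (by linarith)
  refine IsBigO.of_bound K ?_
  obtain ⟨N, hN⟩ := ((hw.and hC.bound).and h1).exists_forall_of_atTop
  filter_upwards [eventually_ge_atTop N] with n hn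
  rw [Real.norm_of_nonneg (mon_pos _ _).le, Real.norm_eq_abs]
  -- the sequence |w| - K mon is monotone from N on and tends to zero
  have hmono : ∀ m, N ≤ m → |w m| - K * mon (-T + 1) m ≤ |w (m + 1)| - K * mon (-T + 1) (m + 1) := by
    intro m hm
    obtain ⟨⟨a1, a2⟩, a3⟩ := hN m hm
    rw [Real.norm_of_nonneg (mon_pos _ _).le, Real.norm_eq_abs] at a2
    have h4 : K * ((-(-T + 1) / 2) * mon (-T + 1 - 1) m) = C * mon (-T) m := by
      rw [hK]
      have : -(-T + 1) / 2 ≠ 0 := by
        have : 0 < -(-T + 1) / 2 := by linarith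
        exact this.ne'
      have e1 : mon (-T + 1 - 1) m = mon (-T) m := by congr 1; ring
      rw [e1, ← mul_assoc, div_mul_cancel₀ _ this]
    have h5 := mul_le_mul_of_nonneg_left a3 hKpos.le
    rw [h4] at h5
    linarith
  have hmono' : ∀ j : ℕ, |w n| - K * mon (-T + 1) n ≤
      |w (n + j)| - K * mon (-T + 1) (n + j) := by
    intro j
    induction j with
    | zero => simp
    | succ j ih => exact ih.trans (hmono (n + j) (by omega))
  have hlim : Tendsto (fun j : ℕ => |w (n + j)| - K * mon (-T + 1) (n + j)) atTop (𝓝 0) := by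
    have e1 : Tendsto (fun j : ℕ => n + j) atTop atTop :=
      tendsto_atTop_mono (fun j => Nat.le_add_left j n) tendsto_id
    have e2 := (hw0.abs.comp e1)
    have e3 := ((mon_tendsto_zero (by linarith : -T + 1 < 0)).const_mul K).comp e1
    simpa using e2.sub e3
  have := ge_of_tendsto' hlim hmono'
  linarith

/-- algebraic alternating antiderivative -/
lemma PW_alt_aux (T : ℝ) : ∀ k : ℕ, ∀ G : ℝ, G ≤ -T + k → ∀ P ∈ PW G, ∃ q ∈ PW G,
    (fun n => P n - (q n + q (n + 1))) =O[atTop] mon (-T) := by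
  intro k
  induction k with
  | zero =>
    intro G hG P hP
    refine ⟨0, Submodule.zero_mem _, ?_⟩
    simpa using (PW_isBigO hP).trans (mon_isBigO (by simpa using hG))
  | succ k ih =>
    intro G hG P hP
    induction hP using Submodule.span_induction with
    | mem f hf =>
      obtain ⟨ρ, hρ, rfl⟩ := hf
      obtain ⟨P1, hP1, hO1⟩ := (PP_mon_diff ρ) T
      have hP1' : P1 ∈ PW (G - 1) := PW_mono (by linarith) hP1
      obtain ⟨q1, hq1, hO2⟩ := ih (G - 1) (by push_cast at hG; linarith) P1 hP1'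
      refine ⟨(1 / 2 : ℝ) • mon ρ - (1 / 2 : ℝ) • q1, ?_, ?_⟩
      · exact Submodule.sub_mem _ (Submodule.smul_mem _ _ (mon_mem hρ))
          (Submodule.smul_mem _ _ (PW_mono (by linarith) hq1))
      · refine (((hO1.add hO2).const_mul_left (-1 / 2)).congr_left fun n => ?_)
        simp only [Pi.sub_apply, Pi.smul_apply, smul_eq_mul]
        ring
    | zero => exact ⟨0, Submodule.zero_mem _, by simpa using isBigO_zero _ _⟩
    | add f g _ _ hf hg =>
      obtain ⟨q, hq, hO⟩ := hf
      obtain ⟨q', hq', hO'⟩ := hg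
      refine ⟨q + q', Submodule.add_mem _ hq hq', ?_⟩
      refine (hO.add hO').congr_left fun n => ?_
      simp only [Pi.add_apply]; ring
    | smul c f _ hf =>
      obtain ⟨q, hq, hO⟩ := hf
      refine ⟨c • q, Submodule.smul_mem _ _ hq, ?_⟩
      refine (hO.const_mul_left c).congr_left fun n => ?_
      simp only [Pi.smul_apply, smul_eq_mul]; ring

lemma PW_alt (T : ℝ) {G : ℝ} {P : ℕ → ℝ} (hP : P ∈ PW G) : ∃ q ∈ PW G,
    (fun n => P n - (q n + q (n + 1))) =O[atTop] mon (-T) := by
  obtain ⟨k, hk⟩ := exists_nat_ge (G + T)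
  exact PW_alt_aux T k G (by linarith) P hP

/-- a null sequence `g` with `g n + g (n+1) = f n` inherits the expansion of `f` -/
lemma PP.alt {G : ℝ} (hG : G < 0) {f g : ℕ → ℝ} (hf : PP G f) (hg0 : Tendsto g atTop (𝓝 0))
    (hfg : ∀ n, g n + g (n + 1) = f n) : PP G g := by
  intro T
  set T' := max T 1 + 1 with hT'
  obtain ⟨P, hP, hO⟩ := hf T'
  obtain ⟨q, hq, hO'⟩ := PW_alt T' hP
  refine ⟨q, hq, ?_⟩
  have hq0 : Tendsto q atTop (𝓝 0) := (PW_isBigO hq).trans_tendsto (mon_tendsto_zero hG)
  have h1 := decay_bound (w := fun n => g n - q n)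
    (e := fun n => (f n - P n) + (P n - (q n + q (n + 1))))
    (T := T') (by have := le_max_right T 1; linarith) ?_ (by simpa using hg0.sub hq0)
    (hO.add hO')
  · refine h1.trans (mon_isBigO ?_)
    have := le_max_left T 1
    linarith
  · refine Eventually.of_forall fun n => ?_
    have : g n - q n = ((f n - P n) + (P n - (q n + q (n + 1)))) - (g (n + 1) - q (n + 1)) := by
      rw [← hfg n]; ring
    calc |g n - q n| = |((f n - P n) + (P n - (q n + q (n + 1)))) - (g (n + 1) - q (n + 1))| := by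
          rw [← this]
      _ ≤ _ := abs_sub _ _

lemma summable_mon {ρ : ℝ} (h : ρ < -1) : Summable (mon ρ) := by
  have h1 : Summable (fun n : ℕ => (n : ℝ) ^ ρ) := Real.summable_nat_rpow.mpr h
  have h2 := (summable_nat_add_iff 1).mpr h1
  refine h2.congr fun n => ?_
  simp [mon, xb]

lemma summable_of_isBigO_mon {ρ : ℝ} (h : ρ < -1) {f : ℕ → ℝ} (hf : f =O[atTop] mon ρ) :
    Summable f := summable_of_isBigO_nat (summable_mon h) hf

lemma exists_alt {G : ℝ} (hG : G < 0) {f : ℕ → ℝ} (hf : PP G f) :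
    ∃ g, PP G g ∧ ∀ n, g n + g (n + 1) = f n := by
  set u : ℕ → ℝ := fun n => f n - f (n + 1) with hu
  have hus : Summable u := by
    refine summable_of_isBigO_mon (by linarith : G - 1 < -1) ?_
    have := hf.shift_sub.neg.isBigO
    refine this.congr_left fun n => ?_
    simp [hu]
  have hf0 := hf.tendsto_zero hG
  have hinj : ∀ n : ℕ, Function.Injective fun i : ℕ => n + 2 * i := by
    intro n a b hab
    simp only at hab
    omega
  have hun : ∀ n, Summable fun i => u (n + 2 * i) := fun n => hus.comp_injective (hinj n)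
  set g : ℕ → ℝ := fun n => ∑' i, u (n + 2 * i) with hg
  have hrec : ∀ n, g n + g (n + 1) = f n := by
    intro n
    have h1 : g n + g (n + 1) = ∑' i, (u (n + 2 * i) + u (n + 1 + 2 * i)) :=
      ((hun n).tsum_add (hun (n + 1))).symm
    rw [h1]
    have h2 : Summable fun i => u (n + 2 * i) + u (n + 1 + 2 * i) := (hun n).add (hun (n + 1))
    have h3 := h2.hasSum.tendsto_sum_nat
    have h4 : ∀ N : ℕ, ∑ i ∈ Finset.range N, (u (n + 2 * i) + u (n + 1 + 2 * i)) =
        f n - f (n + 2 * N) := by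
      intro N
      have : ∀ i, u (n + 2 * i) + u (n + 1 + 2 * i) =
          (fun j => f (n + 2 * j)) i - (fun j => f (n + 2 * j)) (i + 1) := by
        intro i
        simp only [hu]
        have e1 : n + 2 * (i + 1) = n + 1 + 2 * i + 1 := by ring
        have e2 : n + 2 * i + 1 = n + 1 + 2 * i := by ring
        rw [e1, e2]; ring
      simp only [this]
      rw [Finset.sum_range_sub']
      simp
    simp only [h4] at h3
    have h5 : Tendsto (fun N : ℕ => f n - f (n + 2 * N)) atTop (𝓝 (f n - 0)) := by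
      refine tendsto_const_nhds.sub (hf0.comp ?_)
      exact tendsto_atTop_mono (fun j => by show j ≤ n + 2 * j; omega) tendsto_id
    rw [sub_zero] at h5
    exact tendsto_nhds_unique h3 h5
  have hg0 : Tendsto g atTop (𝓝 0) := by
    have h1 := tendsto_sum_nat_add fun k => |u k|
    refine squeeze_zero_norm (fun n => ?_) h1
    have habs : Summable fun k => |u k| := hus.abs
    have e1 : ‖g n‖ ≤ ∑' i, |u (n + 2 * i)| := by
      have := norm_tsum_le_tsum_norm (f := fun i => u (n + 2 * i)) (hun n).norm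
      simpa using this
    refine e1.trans ?_
    have hs2 : Summable fun k => |u (k + n)| := (summable_nat_add_iff n).mpr habs
    have h3 := tsum_comp_le_tsum_of_inj hs2 (fun _ => abs_nonneg _)
      (i := fun i : ℕ => 2 * i) (fun a b hab => by simpa using hab)
    refine le_trans (le_of_eq ?_) h3
    refine tsum_congr fun i => ?_
    simp only [Function.comp_def]
    rw [add_comm]
  exact ⟨g, PP.alt hG hf hg0 hrec, hrec⟩

end F526
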