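import Mathlib

/-!
Asymptotics of `∑ n ^ p * exp (-τ n ^ (2/3))` as `τ → 0+`.
-/

open Filter Topology MeasureTheory Asymptotics Set

namespace F526

/-- The summand as a function of a real variable. -/
noncomputable def GG (q τ x : ℝ) : ℝ := x ^ q * Real.exp (-τ * x ^ (2 / 3 : ℝ))

lemma GG_nonneg {q τ x : ℝ} (hx : 0 ≤ x) : 0 ≤ GG q τ x := by unfold GG; positivity

lemma hasDerivAt_GG (q τ : ℝ) {x : ℝ} (hx : 0 < x) :
    HasDerivAt (GG q τ) (q * GG (q - 1) τ x - 2 / 3 * τ * GG (q - 1 / 3) τ x) x := by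
  unfold GG
  have h1 : HasDerivAt (fun x : ℝ => x ^ q) (q * x ^ (q - 1)) x :=
    Real.hasDerivAt_rpow_const (Or.inl hx.ne')
  have h2 : HasDerivAt (fun x : ℝ => x ^ (2 / 3 : ℝ)) (2 / 3 * x ^ ((2 / 3 : ℝ) - 1)) x :=
    Real.hasDerivAt_rpow_const (Or.inl hx.ne')
  have h3 := h1.mul ((h2.const_mul (-τ)).exp)
  refine h3.congr_deriv ?_
  have h4 : x ^ (q - 1 / 3) = x ^ q * x ^ ((2 / 3 : ℝ) - 1) := by
    rw [← Real.rpow_add hx]; congr 1; ring
  rw [h4]
  ring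

lemma continuousOn_GG (q τ : ℝ) : ContinuousOn (GG q τ) (Ioi 0) :=
  fun _ hx => (hasDerivAt_GG q τ hx).continuousAt.continuousWithinAt

lemma measurable_GG (q τ : ℝ) : Measurable (GG q τ) := by
  unfold GG
  fun_prop

/-- The second derivative of `GG`. -/
noncomputable def GG2 (q τ x : ℝ) : ℝ :=
  q * ((q - 1) * GG (q - 1 - 1) τ x - 2 / 3 * τ * GG (q - 1 - 1 / 3) τ x) -
    2 / 3 * τ * ((q - 1 / 3) * GG (q - 1 / 3 - 1) τ x - 2 / 3 * τ * GG (q - 1 / 3 - 1 / 3) τ x)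

lemma hasDerivAt_GG1 (q τ : ℝ) {x : ℝ} (hx : 0 < x) :
    HasDerivAt (fun x => q * GG (q - 1) τ x - 2 / 3 * τ * GG (q - 1 / 3) τ x) (GG2 q τ x) x :=
  ((hasDerivAt_GG (q - 1) τ hx).const_mul q).sub
    ((hasDerivAt_GG (q - 1 / 3) τ hx).const_mul (2 / 3 * τ))

lemma GG2_le (q : ℝ) {τ x : ℝ} (hτ : 0 < τ) (hx : 0 < x) :
    |GG2 q τ x| ≤ (|q| * |q - 1| + 2 * |q| + 2 * |q - 1 / 3| + 8) * GG (q - 2) (τ / 2) x := by
  set u := τ * x ^ (2 / 3 : ℝ) with hu
  have hu0 : 0 < u := by positivity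
  have e0 : Real.exp (-τ * x ^ (2 / 3 : ℝ)) = Real.exp (-(u / 2)) * Real.exp (-(u / 2)) := by
    rw [← Real.exp_add, hu]; congr 1; ring
  have e1 : Real.exp (-(τ / 2) * x ^ (2 / 3 : ℝ)) = Real.exp (-(u / 2)) := by
    rw [hu]; congr 1; ring
  have f1 : GG (q - 1 - 1) τ x = x ^ (q - 2) * (Real.exp (-(u / 2)) * Real.exp (-(u / 2))) := by
    unfold GG; rw [e0]; congr 2; ring
  have f2 : τ * GG (q - 1 - 1 / 3) τ x =
      x ^ (q - 2) * (u * (Real.exp (-(u / 2)) * Real.exp (-(u / 2)))) := by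
    unfold GG
    rw [e0, show q - 1 - 1 / 3 = (q - 2) + 2 / 3 by ring, Real.rpow_add hx, hu]
    ring
  have f3 : τ * GG (q - 1 / 3 - 1) τ x =
      x ^ (q - 2) * (u * (Real.exp (-(u / 2)) * Real.exp (-(u / 2)))) := by
    rw [← f2]; congr 2; ring
  have f4 : τ * (τ * GG (q - 1 / 3 - 1 / 3) τ x) =
      x ^ (q - 2) * (u ^ 2 * (Real.exp (-(u / 2)) * Real.exp (-(u / 2)))) := by
    unfold GG
    rw [e0, show q - 1 / 3 - 1 / 3 = (q - 2) + 2 / 3 + 2 / 3 by ring, Real.rpow_add hx,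
      Real.rpow_add hx, hu]
    ring
  have hE : 0 < Real.exp (-(u / 2)) := Real.exp_pos _
  have hE1 : Real.exp (-(u / 2)) ≤ 1 := Real.exp_le_one_iff.mpr (by linarith)
  have hv : Real.exp (u / 2) * Real.exp (-(u / 2)) = 1 := by
    rw [← Real.exp_add]; simp
  have g1 : u * Real.exp (-(u / 2)) ≤ 2 := by
    have h := Real.add_one_le_exp (u / 2)
    have h2 : u ≤ 2 * Real.exp (u / 2) := by linarith
    calc u * Real.exp (-(u / 2)) ≤ 2 * Real.exp (u / 2) * Real.exp (-(u / 2)) := by gcongr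
      _ = 2 := by rw [mul_assoc, hv]; ring
  have g2 : u ^ 2 * Real.exp (-(u / 2)) ≤ 8 := by
    have h := Real.quadratic_le_exp_of_nonneg (show 0 ≤ u / 2 by positivity)
    have h2 : u ^ 2 ≤ 8 * Real.exp (u / 2) := by nlinarith
    calc u ^ 2 * Real.exp (-(u / 2)) ≤ 8 * Real.exp (u / 2) * Real.exp (-(u / 2)) := by gcongr
      _ = 8 := by rw [mul_assoc, hv]; ring
  have hX : 0 < x ^ (q - 2) := by positivity
  have key : GG2 q τ x = x ^ (q - 2) * Real.exp (-(u / 2)) *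
      (q * (q - 1) * Real.exp (-(u / 2)) - 2 / 3 * q * (u * Real.exp (-(u / 2)))
        - 2 / 3 * (q - 1 / 3) * (u * Real.exp (-(u / 2)))
        + 4 / 9 * (u ^ 2 * Real.exp (-(u / 2)))) := by
    have : GG2 q τ x = q * (q - 1) * GG (q - 1 - 1) τ x - 2 / 3 * q * (τ * GG (q - 1 - 1 / 3) τ x)
      - 2 / 3 * (q - 1 / 3) * (τ * GG (q - 1 / 3 - 1) τ x)
      + 4 / 9 * (τ * (τ * GG (q - 1 / 3 - 1 / 3) τ x)) := by
      unfold GG2; ring
    rw [this, f1, f2, f3, f4]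
    ring
  have hG : GG (q - 2) (τ / 2) x = x ^ (q - 2) * Real.exp (-(u / 2)) := by
    unfold GG; rw [e1]
  rw [key, hG, abs_mul, abs_of_pos (mul_pos hX hE), mul_comm]
  apply mul_le_mul_of_nonneg_right _ (mul_pos hX hE).le
  have b1 : |q * (q - 1) * Real.exp (-(u / 2))| ≤ |q| * |q - 1| := by
    rw [abs_mul, abs_mul, abs_of_pos hE]
    exact mul_le_of_le_one_right (by positivity) hE1
  have b2 : |2 / 3 * q * (u * Real.exp (-(u / 2)))| ≤ 2 * |q| := by
    rw [abs_mul, abs_mul, abs_of_pos (mul_pos hu0 hE), abs_of_pos (show (0:ℝ) < 2 / 3 by norm_num)]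
    calc 2 / 3 * |q| * (u * Real.exp (-(u / 2))) ≤ 2 / 3 * |q| * 2 := by gcongr
      _ ≤ 2 * |q| := by have := abs_nonneg q; linarith
  have b3 : |2 / 3 * (q - 1 / 3) * (u * Real.exp (-(u / 2)))| ≤ 2 * |q - 1 / 3| := by
    rw [abs_mul, abs_mul, abs_of_pos (mul_pos hu0 hE), abs_of_pos (show (0:ℝ) < 2 / 3 by norm_num)]
    calc 2 / 3 * |q - 1 / 3| * (u * Real.exp (-(u / 2))) ≤ 2 / 3 * |q - 1 / 3| * 2 := by gcongr
      _ ≤ 2 * |q - 1 / 3| := by have := abs_nonneg (q - 1 / 3); linarith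
  have b4 : |4 / 9 * (u ^ 2 * Real.exp (-(u / 2)))| ≤ 8 := by
    rw [abs_of_pos (by positivity)]
    linarith
  calc _ ≤ |q * (q - 1) * Real.exp (-(u / 2)) - 2 / 3 * q * (u * Real.exp (-(u / 2)))
        - 2 / 3 * (q - 1 / 3) * (u * Real.exp (-(u / 2)))|
        + |4 / 9 * (u ^ 2 * Real.exp (-(u / 2)))| := abs_add_le _ _
    _ ≤ |q * (q - 1) * Real.exp (-(u / 2)) - 2 / 3 * q * (u * Real.exp (-(u / 2)))|
        + |2 / 3 * (q - 1 / 3) * (u * Real.exp (-(u / 2)))|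
        + |4 / 9 * (u ^ 2 * Real.exp (-(u / 2)))| := by gcongr; exact abs_sub _ _
    _ ≤ |q * (q - 1) * Real.exp (-(u / 2))| + |2 / 3 * q * (u * Real.exp (-(u / 2)))|
        + |2 / 3 * (q - 1 / 3) * (u * Real.exp (-(u / 2)))|
        + |4 / 9 * (u ^ 2 * Real.exp (-(u / 2)))| := by gcongr; exact abs_sub _ _
    _ ≤ _ := by gcongr

/-- The trapezoid rule on an interval of length one. -/
lemma trap {f f' f'' : ℝ → ℝ} {a M : ℝ} (h1 : ∀ x ∈ Icc a (a + 1), HasDerivAt f (f' x) x)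
    (h2 : ∀ x ∈ Icc a (a + 1), HasDerivAt f' (f'' x) x) (hM : ∀ x ∈ Icc a (a + 1), |f'' x| ≤ M) :
    |(f a + f (a + 1)) / 2 - ∫ x in a..(a + 1), f x| ≤ M := by
  have hle : a ≤ a + 1 := by linarith
  have hu : uIcc a (a + 1) = Icc a (a + 1) := uIcc_of_le hle
  have cf : ContinuousOn f (uIcc a (a + 1)) := by
    rw [hu]; exact fun x hx => (h1 x hx).continuousAt.continuousWithinAt
  have cf' : ContinuousOn f' (uIcc a (a + 1)) := by
    rw [hu]; exact fun x hx => (h2 x hx).continuousAt.continuousWithinAt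
  have if1 : IntervalIntegrable f volume a (a + 1) := cf.intervalIntegrable
  have if2 : IntervalIntegrable (fun x => (x - a - 1 / 2) * f' x) volume a (a + 1) := by
    apply ContinuousOn.intervalIntegrable
    exact (by fun_prop : Continuous fun x : ℝ => x - a - 1 / 2).continuousOn.mul cf'
  have if3 : IntervalIntegrable (fun x => (x - a - 1 / 2) * f' a) volume a (a + 1) :=
    (by fun_prop : Continuous fun x : ℝ => (x - a - 1 / 2) * f' a).intervalIntegrable _ _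
  have h3 : ∫ x in a..(a + 1), (f x + (x - a - 1 / 2) * f' x) =
      ((a + 1) - a - 1 / 2) * f (a + 1) - (a - a - 1 / 2) * f a := by
    apply intervalIntegral.integral_eq_sub_of_hasDerivAt (f := fun x => (x - a - 1 / 2) * f x)
    · intro x hx
      rw [hu] at hx
      have h4 : HasDerivAt (fun x : ℝ => x - a - 1 / 2) 1 x := by
        simpa using ((hasDerivAt_id x).sub_const a).sub_const (1 / 2)
      refine (h4.mul (h1 x hx)).congr_deriv ?_
      ring
    · exact if1.add if2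
  rw [intervalIntegral.integral_add if1 if2] at h3
  have h5 : ∫ x in a..(a + 1), (x - a - 1 / 2) * f' a = 0 := by
    rw [intervalIntegral.integral_mul_const]
    have : ∫ x in a..(a + 1), (x - a - 1 / 2) = 0 := by
      have h6 : ∀ x : ℝ, HasDerivAt (fun x : ℝ => (x - a - 1 / 2) ^ 2 / 2) (x - a - 1 / 2) x := by
        intro x
        have h4 : HasDerivAt (fun x : ℝ => x - a - 1 / 2) 1 x := by
          simpa using ((hasDerivAt_id x).sub_const a).sub_const (1 / 2)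
        refine ((h4.pow 2).div_const 2).congr_deriv ?_
        simp
      rw [intervalIntegral.integral_eq_sub_of_hasDerivAt (fun x _ => h6 x)
        ((by fun_prop : Continuous fun x : ℝ => x - a - 1 / 2).intervalIntegrable _ _)]
      ring
    rw [this, zero_mul]
  have h7 : (f a + f (a + 1)) / 2 - ∫ x in a..(a + 1), f x =
      ∫ x in a..(a + 1), ((x - a - 1 / 2) * f' x - (x - a - 1 / 2) * f' a) := by
    rw [intervalIntegral.integral_sub if2 if3, h5]
    linarith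
  rw [h7]
  have hM0 : 0 ≤ M := (abs_nonneg _).trans (hM a ⟨le_rfl, hle⟩)
  have h8 : ‖∫ x in a..(a + 1), ((x - a - 1 / 2) * f' x - (x - a - 1 / 2) * f' a)‖ ≤
      M * |a + 1 - a| := by
    apply intervalIntegral.norm_integral_le_of_norm_le_const
    intro x hx
    rw [uIoc_of_le hle] at hx
    have hx' : x ∈ Icc a (a + 1) := ⟨hx.1.le, hx.2⟩
    have h9 : ‖f' x - f' a‖ ≤ M * ‖x - a‖ :=
      Convex.norm_image_sub_le_of_norm_hasDerivWithin_le
        (fun y hy => (h2 y hy).hasDerivWithinAt) (fun y hy => hM y hy) (convex_Icc a (a + 1))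
        ⟨le_rfl, hle⟩ hx'
    have h10 : ‖x - a‖ ≤ 1 := by
      rw [Real.norm_eq_abs, abs_of_nonneg (by linarith [hx'.1])]; linarith [hx'.2]
    have h11 : ‖x - a - 1 / 2‖ ≤ 1 := by
      rw [Real.norm_eq_abs, abs_le]
      constructor <;> linarith [hx'.1, hx'.2]
    rw [← mul_sub, norm_mul]
    calc ‖x - a - 1 / 2‖ * ‖f' x - f' a‖ ≤ 1 * (M * 1) := by
          apply mul_le_mul h11 (h9.trans (by gcongr)) (norm_nonneg _) zero_le_one
      _ = M := by ring
  rw [add_sub_cancel_left, abs_one, mul_one] at h8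
  exact h8

/-- Comparison of powers on a unit interval. -/
lemma rpow_le_of_unit (q : ℝ) {n x y : ℝ} (hn : 1 ≤ n) (hx : x ∈ Icc n (n + 1))
    (hy : y ∈ Icc n (n + 1)) : x ^ q ≤ 2 ^ |q| * y ^ q := by
  have hx0 : 0 < x := by linarith [hx.1]
  have hy0 : 0 < y := by linarith [hy.1]
  have hxy : x ≤ 2 * y := by linarith [hx.2, hy.1]
  have hyx : y ≤ 2 * x := by linarith [hy.2, hx.1]
  rcases le_total 0 q with h | h
  · rw [abs_of_nonneg h, ← Real.mul_rpow (by norm_num) hy0.le]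
    exact Real.rpow_le_rpow hx0.le hxy h
  · rw [abs_of_nonpos h, Real.rpow_neg (by norm_num), inv_mul_eq_div, le_div_iff₀ (by positivity),
      mul_comm, ← Real.mul_rpow (by norm_num) hx0.le]
    exact Real.rpow_le_rpow_of_nonpos hy0 hyx h

lemma exp_le_of_unit {τ n x : ℝ} (hτ : 0 < τ) (hτ1 : τ ≤ 1) (hn : 1 ≤ n) (hx : x ∈ Icc n (n + 1)) :
    Real.exp (-τ * n ^ (2 / 3 : ℝ)) ≤ Real.exp 1 * Real.exp (-τ * x ^ (2 / 3 : ℝ)) := by
  rw [← Real.exp_add, Real.exp_le_exp]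
  have h1 : x ^ (2 / 3 : ℝ) ≤ n ^ (2 / 3 : ℝ) + 1 := by
    calc x ^ (2 / 3 : ℝ) ≤ (n + 1) ^ (2 / 3 : ℝ) :=
          Real.rpow_le_rpow (by linarith [hx.1]) hx.2 (by norm_num)
      _ ≤ n ^ (2 / 3 : ℝ) + 1 ^ (2 / 3 : ℝ) :=
          Real.rpow_add_le_add_rpow (by linarith) zero_le_one (by norm_num) (by norm_num)
      _ = n ^ (2 / 3 : ℝ) + 1 := by rw [Real.one_rpow]
  nlinarith

lemma integrableOn_GG_Ioi_zero {q τ : ℝ} (hq : -1 < q) (hτ : 0 < τ) :
    IntegrableOn (GG q τ) (Ioi 0) :=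
  integrableOn_rpow_mul_exp_neg_mul_rpow hq (by norm_num) hτ

lemma integrableOn_GG {τ : ℝ} (q : ℝ) (hτ : 0 < τ) : IntegrableOn (GG q τ) (Ioi 1) := by
  by_cases hq : -1 < q
  · exact (integrableOn_GG_Ioi_zero hq hτ).mono_set (Ioi_subset_Ioi zero_le_one)
  · have h0 : IntegrableOn (GG 0 τ) (Ioi 1) :=
      (integrableOn_GG_Ioi_zero (by norm_num) hτ).mono_set (Ioi_subset_Ioi zero_le_one)
    refine Integrable.mono' h0 (measurable_GG q τ).aestronglyMeasurable ?_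
    refine (ae_restrict_iff' measurableSet_Ioi).mpr (Eventually.of_forall fun x hx => ?_)
    have hx : 1 < x := hx
    rw [Real.norm_eq_abs, abs_of_nonneg (GG_nonneg (by linarith))]
    unfold GG
    gcongr
    · exact hx.le
    · linarith

/-- The comparison scale. -/
noncomputable def sc (s τ : ℝ) : ℝ := (1 + Real.log (1 / τ)) * τ ^ (-(3 / 2) * max s 0)

lemma one_le_log_part {τ : ℝ} (h0 : 0 < τ) (h1 : τ < 1) : 1 ≤ 1 + Real.log (1 / τ) := by
  have : 0 ≤ Real.log (1 / τ) := Real.log_nonneg (by rw [le_div_iff₀ h0]; linarith)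
  linarith

lemma one_le_pow_part (s : ℝ) {τ : ℝ} (h0 : 0 < τ) (h1 : τ < 1) :
    1 ≤ τ ^ (-(3 / 2) * max s 0) := by
  apply Real.one_le_rpow_of_pos_of_le_one_of_nonpos h0 h1.le
  have : 0 ≤ max s 0 := le_max_right _ _
  linarith

lemma one_le_sc (s : ℝ) {τ : ℝ} (h0 : 0 < τ) (h1 : τ < 1) : 1 ≤ sc s τ :=
  one_le_mul_of_one_le_of_one_le (one_le_log_part h0 h1) (one_le_pow_part s h0 h1)

lemma integral_GG_zero {q τ : ℝ} (hq : -1 < q) (hτ : 0 < τ) :
    ∫ x in Ioi (0 : ℝ), GG q τ x =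
      τ ^ (-(3 / 2) * (q + 1)) * ((1 / (2 / 3 : ℝ)) * Real.Gamma ((q + 1) / (2 / 3 : ℝ))) := by
  have h := integral_rpow_mul_exp_neg_mul_rpow (p := (2 / 3 : ℝ)) (q := q) (b := τ)
    (by norm_num) hq hτ
  unfold GG
  rw [h, mul_assoc]
  congr 2
  ring

lemma integral_bound (q : ℝ) : ∃ C : ℝ, 0 ≤ C ∧ ∀ τ : ℝ, 0 < τ → τ < 1 →
    ∫ x in Ioi (1 : ℝ), GG q τ x ≤ C * sc (q + 1) τ := by
  by_cases hq : -1 < q
  · refine ⟨(1 / (2 / 3 : ℝ)) * Real.Gamma ((q + 1) / (2 / 3 : ℝ)), ?_, ?_⟩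
    · have : 0 < Real.Gamma ((q + 1) / (2 / 3 : ℝ)) := Real.Gamma_pos_of_pos (by
        apply div_pos <;> linarith)
      positivity
    · intro τ h0 h1
      have hG : 0 < Real.Gamma ((q + 1) / (2 / 3 : ℝ)) := Real.Gamma_pos_of_pos (by
        apply div_pos <;> linarith)
      have h2 : ∫ x in Ioi (1 : ℝ), GG q τ x ≤ ∫ x in Ioi (0 : ℝ), GG q τ x := by
        apply setIntegral_mono_set (integrableOn_GG_Ioi_zero hq h0)
        · refine (ae_restrict_iff' measurableSet_Ioi).mpr (Eventually.of_forall fun x hx => ?_)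
          exact GG_nonneg (le_of_lt hx)
        · exact (Ioi_subset_Ioi zero_le_one).eventuallyLE
      refine h2.trans ?_
      rw [integral_GG_zero hq h0, mul_comm]
      unfold sc
      rw [max_eq_left (by linarith)]
      have h3 := one_le_log_part h0 h1
      have h4 : 0 < τ ^ (-(3 / 2) * (q + 1)) := by positivity
      apply mul_le_mul_of_nonneg_left _ (by positivity)
      exact le_mul_of_one_le_left h4.le h3
  · refine ⟨3 / 2 + (1 / (2 / 3 : ℝ)) * Real.Gamma ((0 + 1) / (2 / 3 : ℝ)), ?_, ?_⟩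
    · have : 0 < Real.Gamma ((0 + 1) / (2 / 3 : ℝ)) := Real.Gamma_pos_of_pos (by norm_num)
      positivity
    · intro τ h0 h1
      have hG : 0 < Real.Gamma ((0 + 1) / (2 / 3 : ℝ)) := Real.Gamma_pos_of_pos (by norm_num)
      set N := τ ^ (-(3 / 2) : ℝ) with hN
      have hN1 : 1 ≤ N := Real.one_le_rpow_of_pos_of_le_one_of_nonpos h0 h1.le (by norm_num)
      have hN0 : 0 < N := by linarith
      have hint1 : IntegrableOn (fun x : ℝ => (Ioc 1 N).indicator (fun x => x⁻¹) x) (Ioi 1) := by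
        have h2 : IntegrableOn (fun x : ℝ => x⁻¹) (Ioc 1 N) := by
          have : ContinuousOn (fun x : ℝ => x⁻¹) (Icc 1 N) := by
            apply continuousOn_id.inv₀
            intro x hx
            exact (by linarith [hx.1] : (0:ℝ) < x).ne'
          exact this.integrableOn_Icc.mono_set Ioc_subset_Icc_self
        exact ((integrable_indicator_iff measurableSet_Ioc).mpr h2).integrableOn
      have hint2 : IntegrableOn (fun x : ℝ => N⁻¹ * GG 0 τ x) (Ioi 1) :=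
        ((integrableOn_GG_Ioi_zero (by norm_num) h0).mono_set
          (Ioi_subset_Ioi zero_le_one)).const_mul _
      have h3 : ∫ x in Ioi (1 : ℝ), GG q τ x ≤
          ∫ x in Ioi (1 : ℝ), ((Ioc 1 N).indicator (fun x => x⁻¹) x + N⁻¹ * GG 0 τ x) := by
        apply setIntegral_mono_on (integrableOn_GG q h0) (hint1.add hint2) measurableSet_Ioi
        intro x hx
        have hx : 1 < x := hx
        have hx0 : 0 < x := by linarith
        show GG q τ x ≤ (Ioc 1 N).indicator (fun x => x⁻¹) x + N⁻¹ * GG 0 τ x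
        have hE : 0 < Real.exp (-τ * x ^ (2 / 3 : ℝ)) := Real.exp_pos _
        have hE1 : Real.exp (-τ * x ^ (2 / 3 : ℝ)) ≤ 1 :=
          Real.exp_le_one_iff.mpr (by
            have : 0 < x ^ (2 / 3 : ℝ) := by positivity
            nlinarith)
        have h4 : x ^ q ≤ x⁻¹ := by
          rw [← Real.rpow_neg_one]
          exact Real.rpow_le_rpow_of_exponent_le hx.le (by linarith)
        by_cases hxN : x ≤ N
        · rw [indicator_of_mem (show x ∈ Ioc 1 N from ⟨hx, hxN⟩)]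
          have h5 : 0 ≤ N⁻¹ * GG 0 τ x := mul_nonneg (by positivity) (GG_nonneg hx0.le)
          have h6 : GG q τ x ≤ x⁻¹ := by
            unfold GG
            calc x ^ q * Real.exp (-τ * x ^ (2 / 3 : ℝ)) ≤ x⁻¹ * 1 := by gcongr
              _ = x⁻¹ := mul_one _
          linarith
        · rw [indicator_of_notMem (fun h => hxN h.2), zero_add]
          push Not at hxN
          unfold GG
          rw [Real.rpow_zero, one_mul]
          apply mul_le_mul_of_nonneg_right _ hE.le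
          exact h4.trans (inv_anti₀ hN0 hxN.le)
      refine h3.trans ?_
      rw [integral_add hint1 hint2, integral_const_mul]
      have h7 : ∫ x in Ioi (1 : ℝ), (Ioc 1 N).indicator (fun x => x⁻¹) x = 3 / 2 * Real.log (1 / τ) := by
        rw [setIntegral_indicator measurableSet_Ioc]
        have : Ioi (1 : ℝ) ∩ Ioc 1 N = Ioc 1 N := by
          ext x; simp only [mem_inter_iff, mem_Ioc, mem_Ioi]; tauto
        rw [this, ← intervalIntegral.integral_of_le hN1, integral_inv_of_pos one_pos hN0, div_one, hN,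
          Real.log_rpow h0, one_div, Real.log_inv]
        ring
      have h8 : ∫ x in Ioi (1 : ℝ), GG 0 τ x ≤
          N * ((1 / (2 / 3 : ℝ)) * Real.Gamma ((0 + 1) / (2 / 3 : ℝ))) := by
        have h2 : ∫ x in Ioi (1 : ℝ), GG 0 τ x ≤ ∫ x in Ioi (0 : ℝ), GG 0 τ x := by
          apply setIntegral_mono_set (integrableOn_GG_Ioi_zero (by norm_num) h0)
          · refine (ae_restrict_iff' measurableSet_Ioi).mpr (Eventually.of_forall fun x hx => ?_)
            exact GG_nonneg (le_of_lt hx)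
          · exact (Ioi_subset_Ioi zero_le_one).eventuallyLE
        refine h2.trans (le_of_eq ?_)
        rw [integral_GG_zero (by norm_num) h0, hN]
        norm_num
      have h9 : N⁻¹ * ∫ x in Ioi (1 : ℝ), GG 0 τ x ≤
          (1 / (2 / 3 : ℝ)) * Real.Gamma ((0 + 1) / (2 / 3 : ℝ)) := by
        calc N⁻¹ * ∫ x in Ioi (1 : ℝ), GG 0 τ x ≤
            N⁻¹ * (N * ((1 / (2 / 3 : ℝ)) * Real.Gamma ((0 + 1) / (2 / 3 : ℝ)))) := by gcongr
          _ = _ := by field_simp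
      rw [h7]
      have h10 := one_le_pow_part (q + 1) h0 h1
      have h11 := one_le_log_part h0 h1
      set A := (1 / (2 / 3 : ℝ)) * Real.Gamma ((0 + 1) / (2 / 3 : ℝ)) with hA
      have hA0 : 0 < A := by positivity
      have h12 : 1 + Real.log (1 / τ) ≤ sc (q + 1) τ := by
        unfold sc
        exact le_mul_of_one_le_right (by linarith) h10
      calc 3 / 2 * Real.log (1 / τ) + N⁻¹ * ∫ x in Ioi (1 : ℝ), GG 0 τ x
          ≤ 3 / 2 * (1 + Real.log (1 / τ)) + A * (1 + Real.log (1 / τ)) := by nlinarith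
        _ = (3 / 2 + A) * (1 + Real.log (1 / τ)) := by ring
        _ ≤ (3 / 2 + A) * sc (q + 1) τ := by gcongr

/-- Partial sums are bounded by integrals. -/
lemma term_le (q : ℝ) {τ : ℝ} (hτ : 0 < τ) (hτ1 : τ < 1) (n : ℕ) :
    GG q τ ((n : ℝ) + 1) ≤ 2 ^ |q| * Real.exp 1 *
      ∫ x in ((n : ℝ) + 1)..(((n + 1 : ℕ) : ℝ) + 1), GG q τ x := by
  have hn : (1 : ℝ) ≤ (n : ℝ) + 1 := by have := n.cast_nonneg (α := ℝ); linarith
  have hle : (n : ℝ) + 1 ≤ (n : ℝ) + 1 + 1 := by linarith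
  have hcast : ((n + 1 : ℕ) : ℝ) + 1 = (n : ℝ) + 1 + 1 := by push_cast; ring
  rw [hcast, ← intervalIntegral.integral_const_mul]
  have hcont : ContinuousOn (GG q τ) (uIcc ((n : ℝ) + 1) ((n : ℝ) + 1 + 1)) := by
    rw [uIcc_of_le hle]
    exact (continuousOn_GG q τ).mono fun x hx => by
      have := hx.1
      show 0 < x
      linarith
  have h1 : ∫ x in ((n : ℝ) + 1)..((n : ℝ) + 1 + 1), GG q τ ((n : ℝ) + 1) ≤
      ∫ x in ((n : ℝ) + 1)..((n : ℝ) + 1 + 1), 2 ^ |q| * Real.exp 1 * GG q τ x := by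
    apply intervalIntegral.integral_mono_on hle
    · exact intervalIntegrable_const
    · exact (hcont.intervalIntegrable).const_mul _
    · intro x hx
      have h2 := rpow_le_of_unit q hn (x := (n : ℝ) + 1) (y := x) ⟨le_rfl, hle⟩ hx
      have h3 := exp_le_of_unit hτ hτ1.le hn hx
      have hx0 : 0 < x := by linarith [hx.1]
      unfold GG
      calc ((n : ℝ) + 1) ^ q * Real.exp (-τ * ((n : ℝ) + 1) ^ (2 / 3 : ℝ)) ≤
          (2 ^ |q| * x ^ q) * (Real.exp 1 * Real.exp (-τ * x ^ (2 / 3 : ℝ))) := by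
            apply mul_le_mul h2 h3 (Real.exp_pos _).le (by positivity)
        _ = _ := by ring
  simpa using h1

lemma sum_le (q : ℝ) {τ : ℝ} (hτ : 0 < τ) (hτ1 : τ < 1) (N : ℕ) :
    ∑ n ∈ Finset.range N, GG q τ ((n : ℝ) + 1) ≤
      2 ^ |q| * Real.exp 1 * ∫ x in Ioi (1 : ℝ), GG q τ x := by
  have hint : ∀ k < N, IntervalIntegrable (GG q τ) volume ((k : ℝ) + 1) (((k + 1 : ℕ) : ℝ) + 1) := by
    intro k _
    have hk : (0 : ℝ) ≤ k := k.cast_nonneg
    apply ContinuousOn.intervalIntegrable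
    rw [uIcc_of_le (by push_cast; linarith)]
    exact (continuousOn_GG q τ).mono fun x hx => by
      have := hx.1
      show 0 < x
      linarith
  calc ∑ n ∈ Finset.range N, GG q τ ((n : ℝ) + 1) ≤ ∑ n ∈ Finset.range N,
        2 ^ |q| * Real.exp 1 * ∫ x in ((n : ℝ) + 1)..(((n + 1 : ℕ) : ℝ) + 1), GG q τ x :=
        Finset.sum_le_sum fun n _ => term_le q hτ hτ1 n
    _ = 2 ^ |q| * Real.exp 1 * ∫ x in (((0 : ℕ) : ℝ) + 1)..((N : ℝ) + 1), GG q τ x := by
        rw [← Finset.mul_sum, intervalIntegral.sum_integral_adjacent_intervals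
          (a := fun k : ℕ => (k : ℝ) + 1) hint]
    _ ≤ 2 ^ |q| * Real.exp 1 * ∫ x in Ioi (1 : ℝ), GG q τ x := by
        apply mul_le_mul_of_nonneg_left _ (by positivity)
        rw [intervalIntegral.integral_of_le (by simp)]
        apply setIntegral_mono_set (integrableOn_GG q hτ)
        · refine (ae_restrict_iff' measurableSet_Ioi).mpr (Eventually.of_forall fun x hx => ?_)
          exact GG_nonneg (by have : (1:ℝ) < x := hx; linarith)
        · apply LE.le.eventuallyLE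
          intro x hx
          have := hx.1
          simpa using this

lemma crude (q : ℝ) : ∃ C : ℝ, 0 ≤ C ∧ ∀ τ : ℝ, 0 < τ → τ < 1 →
    Summable (fun n : ℕ => GG q τ ((n : ℝ) + 1)) ∧
    ∑' n : ℕ, GG q τ ((n : ℝ) + 1) ≤ C * sc (q + 1) τ := by
  obtain ⟨C, hC0, hC⟩ := integral_bound q
  refine ⟨2 ^ |q| * Real.exp 1 * C, by positivity, ?_⟩
  intro τ h0 h1
  have hnn : ∀ n : ℕ, 0 ≤ GG q τ ((n : ℝ) + 1) := fun n => GG_nonneg (by positivity)
  have hb : ∀ N : ℕ, ∑ n ∈ Finset.range N, GG q τ ((n : ℝ) + 1) ≤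
      2 ^ |q| * Real.exp 1 * C * sc (q + 1) τ := by
    intro N
    refine (sum_le q h0 h1 N).trans ?_
    rw [mul_assoc (2 ^ |q| * Real.exp 1)]
    exact mul_le_mul_of_nonneg_left (hC τ h0 h1) (by positivity)
  exact ⟨summable_of_sum_range_le hnn hb, Real.tsum_le_of_sum_range_le hnn hb⟩

/-- Trapezoid bound on one interval. -/
lemma trap_GG (p : ℝ) {τ : ℝ} (hτ : 0 < τ) (n : ℕ) :
    |(GG p τ ((n : ℝ) + 1) + GG p τ ((n : ℝ) + 1 + 1)) / 2 -
      ∫ x in ((n : ℝ) + 1)..((n : ℝ) + 1 + 1), GG p τ x| ≤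
    (|p| * |p - 1| + 2 * |p| + 2 * |p - 1 / 3| + 8) * 2 ^ |p - 2| *
      GG (p - 2) (τ / 2) ((n : ℝ) + 1) := by
  have hn : (1 : ℝ) ≤ (n : ℝ) + 1 := by have := n.cast_nonneg (α := ℝ); linarith
  apply trap (f' := fun x => p * GG (p - 1) τ x - 2 / 3 * τ * GG (p - 1 / 3) τ x)
    (f'' := GG2 p τ)
  · intro x hx
    exact hasDerivAt_GG p τ (by linarith [hx.1])
  · intro x hx
    exact hasDerivAt_GG1 p τ (by linarith [hx.1])
  · intro x hx
    have hx0 : 0 < x := by linarith [hx.1]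
    refine (GG2_le p hτ hx0).trans ?_
    rw [mul_assoc _ (2 ^ |p - 2|)]
    apply mul_le_mul_of_nonneg_left _ (by positivity)
    have h1 := rpow_le_of_unit (p - 2) hn (x := x) (y := (n : ℝ) + 1) hx ⟨le_rfl, by linarith⟩
    unfold GG
    have h2 : Real.exp (-(τ / 2) * x ^ (2 / 3 : ℝ)) ≤
        Real.exp (-(τ / 2) * ((n : ℝ) + 1) ^ (2 / 3 : ℝ)) := by
      rw [Real.exp_le_exp]
      have : ((n : ℝ) + 1) ^ (2 / 3 : ℝ) ≤ x ^ (2 / 3 : ℝ) :=
        Real.rpow_le_rpow (by linarith) hx.1 (by norm_num)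
      nlinarith
    calc x ^ (p - 2) * Real.exp (-(τ / 2) * x ^ (2 / 3 : ℝ)) ≤
        (2 ^ |p - 2| * ((n : ℝ) + 1) ^ (p - 2)) *
          Real.exp (-(τ / 2) * ((n : ℝ) + 1) ^ (2 / 3 : ℝ)) := by
          apply mul_le_mul h1 h2 (Real.exp_pos _).le (by positivity)
      _ = _ := by ring

lemma sc_half (s : ℝ) : ∃ C : ℝ, 0 ≤ C ∧ ∀ τ : ℝ, 0 < τ → τ < 1 → sc s (τ / 2) ≤ C * sc s τ := by
  refine ⟨2 * 2 ^ (3 / 2 * max s 0), by positivity, ?_⟩
  intro τ h0 h1
  unfold sc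
  have h2 : Real.log (1 / (τ / 2)) ≤ Real.log (1 / τ) + 1 := by
    rw [show 1 / (τ / 2) = 2 * (1 / τ) by field_simp, Real.log_mul (by norm_num) (by positivity)]
    have := Real.log_two_lt_d9
    linarith
  have h3 : (τ / 2) ^ (-(3 / 2) * max s 0) = 2 ^ (3 / 2 * max s 0) * τ ^ (-(3 / 2) * max s 0) := by
    rw [Real.div_rpow h0.le (by norm_num), show -(3 / 2) * max s 0 = -(3 / 2 * max s 0) by ring,
      Real.rpow_neg (x := 2) (by norm_num)]
    field_simp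
  have h4 := one_le_log_part h0 h1
  rw [h3]
  calc (1 + Real.log (1 / (τ / 2))) * (2 ^ (3 / 2 * max s 0) * τ ^ (-(3 / 2) * max s 0)) ≤
      (2 * (1 + Real.log (1 / τ))) * (2 ^ (3 / 2 * max s 0) * τ ^ (-(3 / 2) * max s 0)) := by
        apply mul_le_mul_of_nonneg_right _ (by positivity)
        linarith
    _ = _ := by ring

lemma main_bound (p : ℝ) : ∃ C : ℝ, 0 ≤ C ∧ ∀ τ : ℝ, 0 < τ → τ < 1 →
    |(∑' n : ℕ, GG p τ ((n : ℝ) + 1)) - ∫ x in Ioi (1 : ℝ), GG p τ x| ≤ C * sc (p - 1) τ := by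
  obtain ⟨C1, hC10, hC1⟩ := crude (p - 2)
  obtain ⟨C2, hC20, hC2⟩ := sc_half (p - 1)
  obtain ⟨C3, hC30, hC3⟩ := crude p
  set A := (|p| * |p - 1| + 2 * |p| + 2 * |p - 1 / 3| + 8) * 2 ^ |p - 2| with hA
  have hA0 : 0 ≤ A := by positivity
  refine ⟨1 + A * (C1 * C2), by positivity, ?_⟩
  intro τ h0 h1
  obtain ⟨hs, -⟩ := hC3 τ h0 h1
  obtain ⟨hs2, hb2⟩ := hC1 (τ / 2) (by linarith) (by linarith)
  -- partial sums
  have hpart : ∀ N : ℕ, |(∑ n ∈ Finset.range N, GG p τ ((n : ℝ) + 1)) -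
      (∫ x in (1 : ℝ)..((N : ℝ) + 1), GG p τ x) - GG p τ 1 / 2 + GG p τ ((N : ℝ) + 1) / 2| ≤
      A * ∑' n : ℕ, GG (p - 2) (τ / 2) ((n : ℝ) + 1) := by
    intro N
    have hid : (∑ n ∈ Finset.range N, GG p τ ((n : ℝ) + 1)) -
      (∫ x in (1 : ℝ)..((N : ℝ) + 1), GG p τ x) - GG p τ 1 / 2 + GG p τ ((N : ℝ) + 1) / 2 =
      ∑ n ∈ Finset.range N, ((GG p τ ((n : ℝ) + 1) + GG p τ ((n : ℝ) + 1 + 1)) / 2 -
        ∫ x in ((n : ℝ) + 1)..((n : ℝ) + 1 + 1), GG p τ x) := by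
      induction N with
      | zero => simp
      | succ N ih =>
        rw [Finset.sum_range_succ, Finset.sum_range_succ, ← ih]
        have hii : ∀ a b : ℝ, 0 < a → 0 < b → IntervalIntegrable (GG p τ) volume a b := by
          intro a b ha hb
          apply ContinuousOn.intervalIntegrable
          exact (continuousOn_GG p τ).mono fun x hx => by
            have := hx.1
            have h2 : 0 < min a b := lt_min ha hb
            show 0 < x
            exact lt_of_lt_of_le h2 this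
        have hN : (0 : ℝ) ≤ N := N.cast_nonneg
        have hadd := intervalIntegral.integral_add_adjacent_intervals
          (hii 1 ((N : ℝ) + 1) one_pos (by linarith))
          (hii ((N : ℝ) + 1) ((N : ℝ) + 1 + 1) (by linarith) (by linarith))
        push_cast
        rw [← hadd]
        ring
    rw [hid]
    calc _ ≤ ∑ n ∈ Finset.range N, |(GG p τ ((n : ℝ) + 1) + GG p τ ((n : ℝ) + 1 + 1)) / 2 -
        ∫ x in ((n : ℝ) + 1)..((n : ℝ) + 1 + 1), GG p τ x| := Finset.abs_sum_le_sum_abs _ _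
      _ ≤ ∑ n ∈ Finset.range N, A * GG (p - 2) (τ / 2) ((n : ℝ) + 1) :=
          Finset.sum_le_sum fun n _ => trap_GG p h0 n
      _ = A * ∑ n ∈ Finset.range N, GG (p - 2) (τ / 2) ((n : ℝ) + 1) := by rw [Finset.mul_sum]
      _ ≤ _ := by
          apply mul_le_mul_of_nonneg_left _ hA0
          exact hs2.sum_le_tsum _ fun n _ => GG_nonneg (by positivity)
  have ht1 : Tendsto (fun N : ℕ => ∑ n ∈ Finset.range N, GG p τ ((n : ℝ) + 1)) atTop
      (𝓝 (∑' n : ℕ, GG p τ ((n : ℝ) + 1))) := hs.hasSum.tendsto_sum_nat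
  have ht2 : Tendsto (fun N : ℕ => ∫ x in (1 : ℝ)..((N : ℝ) + 1), GG p τ x) atTop
      (𝓝 (∫ x in Ioi (1 : ℝ), GG p τ x)) := by
    apply intervalIntegral_tendsto_integral_Ioi 1 (integrableOn_GG p h0)
    exact tendsto_atTop_add_const_right _ _ tendsto_natCast_atTop_atTop
  have ht3 : Tendsto (fun N : ℕ => GG p τ ((N : ℝ) + 1)) atTop (𝓝 0) := hs.tendsto_atTop_zero
  have ht : Tendsto (fun N : ℕ => |(∑ n ∈ Finset.range N, GG p τ ((n : ℝ) + 1)) -
      (∫ x in (1 : ℝ)..((N : ℝ) + 1), GG p τ x) - GG p τ 1 / 2 + GG p τ ((N : ℝ) + 1) / 2|) atTop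
      (𝓝 |(∑' n : ℕ, GG p τ ((n : ℝ) + 1)) - (∫ x in Ioi (1 : ℝ), GG p τ x)
        - GG p τ 1 / 2 + 0 / 2|) :=
    (((ht1.sub ht2).sub_const _).add (ht3.div_const 2)).abs
  have hlim := le_of_tendsto' ht hpart
  have hG1 : |GG p τ 1 / 2| ≤ 1 := by
    unfold GG
    rw [Real.one_rpow, Real.one_rpow, one_mul, mul_one, abs_of_pos (by positivity)]
    have : Real.exp (-τ) ≤ 1 := Real.exp_le_one_iff.mpr (by linarith)
    have := Real.exp_pos (-τ)
    linarith
  have hsc := one_le_sc (p - 1) h0 h1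
  have hfin : A * ∑' n : ℕ, GG (p - 2) (τ / 2) ((n : ℝ) + 1) ≤ A * (C1 * C2) * sc (p - 1) τ := by
    calc A * ∑' n : ℕ, GG (p - 2) (τ / 2) ((n : ℝ) + 1) ≤ A * (C1 * sc (p - 2 + 1) (τ / 2)) := by
          gcongr
      _ = A * (C1 * sc (p - 1) (τ / 2)) := by
          rw [show p - 2 + 1 = p - 1 by ring]
      _ ≤ A * (C1 * (C2 * sc (p - 1) τ)) := by
          gcongr
          exact hC2 τ h0 h1
      _ = _ := by ring
  calc |(∑' n : ℕ, GG p τ ((n : ℝ) + 1)) - ∫ x in Ioi (1 : ℝ), GG p τ x|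
      = |((∑' n : ℕ, GG p τ ((n : ℝ) + 1)) - (∫ x in Ioi (1 : ℝ), GG p τ x)
        - GG p τ 1 / 2 + 0 / 2) + GG p τ 1 / 2| := by congr 1; ring
    _ ≤ |(∑' n : ℕ, GG p τ ((n : ℝ) + 1)) - (∫ x in Ioi (1 : ℝ), GG p τ x)
        - GG p τ 1 / 2 + 0 / 2| + |GG p τ 1 / 2| := abs_add_le _ _
    _ ≤ A * (C1 * C2) * sc (p - 1) τ + 1 := add_le_add (hlim.trans hfin) hG1
    _ ≤ A * (C1 * C2) * sc (p - 1) τ + 1 * sc (p - 1) τ := by linarith
    _ = (1 + A * (C1 * C2)) * sc (p - 1) τ := by ring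

/-- The integral over `(0,1)` is bounded. -/
lemma integral_zero_one {p τ : ℝ} (hp : -1 < p) (hτ : 0 < τ) :
    |(∫ x in Ioi (1 : ℝ), GG p τ x) - ∫ x in Ioi (0 : ℝ), GG p τ x| ≤ 1 / (p + 1) := by
  have hint := integrableOn_GG_Ioi_zero hp hτ
  have hsplit : ∫ x in Ioi (0 : ℝ), GG p τ x =
      (∫ x in Ioc (0 : ℝ) 1, GG p τ x) + ∫ x in Ioi (1 : ℝ), GG p τ x := by
    rw [← Ioc_union_Ioi_eq_Ioi zero_le_one]
    exact setIntegral_union (by
      rw [Set.disjoint_left]; intro x hx hx2; exact absurd hx.2 (not_le.mpr hx2))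
      measurableSet_Ioi (hint.mono_set Ioc_subset_Ioi_self) (integrableOn_GG p hτ)
  rw [hsplit]
  have h1 : 0 ≤ ∫ x in Ioc (0 : ℝ) 1, GG p τ x :=
    setIntegral_nonneg measurableSet_Ioc fun x hx => GG_nonneg hx.1.le
  have h2 : ∫ x in Ioc (0 : ℝ) 1, GG p τ x ≤ ∫ x in Ioc (0 : ℝ) 1, x ^ p := by
    apply setIntegral_mono_on (hint.mono_set Ioc_subset_Ioi_self)
    · have := (intervalIntegral.intervalIntegrable_rpow' hp (a := 0) (b := 1))
      rwa [intervalIntegrable_iff_integrableOn_Ioc_of_le zero_le_one] at this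
    · exact measurableSet_Ioc
    · intro x hx
      have hx0 : 0 < x := hx.1
      unfold GG
      apply mul_le_of_le_one_right (by positivity)
      apply Real.exp_le_one_iff.mpr
      have : 0 < x ^ (2 / 3 : ℝ) := by positivity
      nlinarith
  have h3 : ∫ x in Ioc (0 : ℝ) 1, x ^ p = 1 / (p + 1) := by
    rw [← intervalIntegral.integral_of_le zero_le_one, integral_rpow (Or.inl hp), Real.one_rpow,
      Real.zero_rpow (by linarith), sub_zero]
  rw [show (∫ x in Ioi (1 : ℝ), GG p τ x) - ((∫ x in Ioc (0 : ℝ) 1, GG p τ x) +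
    ∫ x in Ioi (1 : ℝ), GG p τ x) = -(∫ x in Ioc (0 : ℝ) 1, GG p τ x) by ring, abs_neg,
    abs_of_nonneg h1]
  linarith

theorem basic_sum (p : ℝ) : ∃ c : ℝ,
    (fun τ : ℝ => (∑' n : ℕ, ((n:ℝ) + 1) ^ p * Real.exp (-τ * ((n:ℝ) + 1) ^ (2 / 3 : ℝ)))
      - c * τ ^ (-(3 / 2) * (p + 1)))
    =O[𝓝[>] 0] (fun τ : ℝ => (1 + Real.log (1 / τ)) * τ ^ (-(3 / 2) * max (p - 1) 0)) := by
  have hev : ∀ᶠ t : ℝ in 𝓝[>] 0, t ∈ Ioo (0 : ℝ) 1 := Ioo_mem_nhdsGT one_pos
  by_cases hp : -1 < p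
  · refine ⟨(1 / (2 / 3 : ℝ)) * Real.Gamma ((p + 1) / (2 / 3 : ℝ)), ?_⟩
    obtain ⟨C, hC0, hC⟩ := main_bound p
    apply IsBigO.of_bound (C + 1 / (p + 1))
    filter_upwards [hev] with τ hτ
    obtain ⟨h0, h1⟩ := hτ
    have h2 := hC τ h0 h1
    have h3 := integral_zero_one hp h0
    rw [integral_GG_zero hp h0] at h3
    have hsc := one_le_sc (p - 1) h0 h1
    have hp1 : 0 < p + 1 := by linarith
    change ‖(∑' n : ℕ, GG p τ ((n : ℝ) + 1)) - _‖ ≤ _ * ‖sc (p - 1) τ‖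
    rw [Real.norm_eq_abs, Real.norm_eq_abs, abs_of_pos (show 0 < sc (p - 1) τ by linarith)]
    rw [mul_comm ((1 / (2 / 3 : ℝ)) * Real.Gamma ((p + 1) / (2 / 3 : ℝ)))]
    calc _ = |((∑' n : ℕ, GG p τ ((n : ℝ) + 1)) - ∫ x in Ioi (1 : ℝ), GG p τ x) +
          ((∫ x in Ioi (1 : ℝ), GG p τ x) - τ ^ (-(3 / 2) * (p + 1)) *
            ((1 / (2 / 3 : ℝ)) * Real.Gamma ((p + 1) / (2 / 3 : ℝ))))| := by congr 1; ring
      _ ≤ C * sc (p - 1) τ + 1 / (p + 1) := (abs_add_le _ _).trans (add_le_add h2 h3)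
      _ ≤ C * sc (p - 1) τ + 1 / (p + 1) * sc (p - 1) τ := by
          gcongr
          exact le_mul_of_one_le_right (by positivity) hsc
      _ = _ := by ring
  · refine ⟨0, ?_⟩
    obtain ⟨C, hC0, hC⟩ := crude p
    apply IsBigO.of_bound C
    filter_upwards [hev] with τ hτ
    obtain ⟨h0, h1⟩ := hτ
    obtain ⟨-, h2⟩ := hC τ h0 h1
    have hsc := one_le_sc (p - 1) h0 h1
    rw [zero_mul, sub_zero]
    change ‖(∑' n : ℕ, GG p τ ((n : ℝ) + 1))‖ ≤ _ * ‖sc (p - 1) τ‖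
    rw [Real.norm_eq_abs, Real.norm_eq_abs, abs_of_pos (show 0 < sc (p - 1) τ by linarith),
      abs_of_nonneg (tsum_nonneg fun n => GG_nonneg (by positivity))]
    have h3 : sc (p + 1) τ = sc (p - 1) τ := by
      unfold sc
      rw [max_eq_right (by linarith), max_eq_right (by linarith)]
    rwa [h3] at h2

end F526
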