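import Mathlib

open Filter Topology Asymptotics

namespace F526

/-- generators of the single-logarithm class: all real powers of `t`, and `t^n log(1/t)` -/
def genE : Set (ℝ → ℝ) :=
  {f | ∃ ρ : ℝ, f = fun t => t ^ ρ} ∪ {f | ∃ n : ℕ, f = fun t => t ^ n * Real.log (1 / t)}

/-- finite linear combinations of generators -/
def Elem : Submodule ℝ (ℝ → ℝ) := Submodule.span ℝ genE

/-- `f` has an expansion in the single-logarithm class up to `O(t^K (1 + log(1/t)))`
as `t → 0+` -/
def InE (K : ℕ) (f : ℝ → ℝ) : Prop :=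
  ∃ s ∈ Elem, (fun t => f t - s t) =O[𝓝[>] 0] (fun t : ℝ => t ^ K * (1 + Real.log (1 / t)))

end F526
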