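import Pool.Agent.Lib.MP_f52611_an.Sum
import Pool.Agent.Lib.MP_f52611_an.InE

open Filter Topology Asymptotics

namespace F526

/-- third order expansion class on the region `t^4 (k+1)^5 ≤ 1` -/
def Tay3 (γ : ℝ) (f : ℕ → ℝ → ℝ) : Prop :=
  ∃ (f0 f1 f2 : ℕ → ℝ) (C : ℝ), (∀ k, |f0 k| ≤ C * mon γ k) ∧ (∀ k, |f1 k| ≤ C * mon (γ + 1) k) ∧
    (∀ k, |f2 k| ≤ C * mon (γ + 2) k) ∧
    ∀ᶠ t in 𝓝[>] 0, ∀ k, t ^ 4 * xb k ^ 5 ≤ 1 →
      |f k t - (f0 k + t * f1 k + t ^ 2 * f2 k)| ≤ C * (t ^ 3 * mon (γ + 3) k)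

namespace Boot

/-- second order expansion class with a `log` and a `μ` term at second order -/
def Ex (μ : ℝ → ℝ) (γ : ℝ) (f : ℕ → ℝ → ℝ) : Prop :=
  ∃ (f0 f1 f2 fL fm : ℕ → ℝ) (C : ℝ), 0 ≤ C ∧ (∀ k, |f0 k| ≤ C * mon γ k) ∧
    (∀ k, |f1 k| ≤ C * mon (γ + 1) k) ∧ (∀ k, |f2 k| ≤ C * mon (γ + 2) k) ∧
    (∀ k, |fL k| ≤ C * mon (γ + 2) k) ∧ (∀ k, |fm k| ≤ C * mon (γ + 2) k) ∧
    ∀ᶠ t in 𝓝[>] 0, ∀ k, t ^ 4 * xb k ^ 5 ≤ 1 →
      |f k t - (f0 k + t * f1 k + t ^ 2 * (f2 k + fL k * Real.log (1 / t) + fm k * μ t))|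
        ≤ C * (t ^ 3 * (1 + Real.log (1 / t)) * mon (γ + 3) k)

lemma mon_at_zero (ρ : ℝ) : mon ρ 0 = 1 := by simp [mon, xb]

lemma const_nonneg {C γ : ℝ} {f : ℕ → ℝ} (h : ∀ k, |f k| ≤ C * mon γ k) : 0 ≤ C := by
  have := h 0
  rw [mon_at_zero, mul_one] at this
  exact (abs_nonneg _).trans this

lemma xb_mono {l k : ℕ} (h : l ≤ k) : xb l ≤ xb k := by
  unfold xb
  have : (l : ℝ) ≤ k := by exact_mod_cast h
  linarith

lemma natCast_le_xb (k : ℕ) : (k : ℝ) ≤ xb k := by unfold xb; linarith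

lemma mon_one (k : ℕ) : mon 1 k = xb k := by simp [mon]

lemma mon_nat (n k : ℕ) : mon n k = xb k ^ n := by simp [mon]

lemma mon_add_nat (γ : ℝ) (n k : ℕ) : mon (γ + n) k = mon γ k * xb k ^ n := by
  rw [← mon_mul_apply, mon_nat]

lemma mon_add_one (γ : ℝ) (k : ℕ) : mon (γ + 1) k = mon γ k * xb k := by
  have := mon_add_nat γ 1 k
  simpa using this

lemma mon_add_two (γ : ℝ) (k : ℕ) : mon (γ + 2) k = mon γ k * xb k ^ 2 := by
  have := mon_add_nat γ 2 k
  simpa using this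

lemma mon_add_three (γ : ℝ) (k : ℕ) : mon (γ + 3) k = mon γ k * xb k ^ 3 := by
  have := mon_add_nat γ 3 k
  simpa using this

lemma reg_mono {t : ℝ} (ht : 0 < t) {l k : ℕ} (h : l ≤ k) (hk : t ^ 4 * xb k ^ 5 ≤ 1) :
    t ^ 4 * xb l ^ 5 ≤ 1 := by
  refine le_trans ?_ hk
  have h1 := xb_mono h
  have h2 := (xb_pos l).le
  gcongr

lemma tendsto_id_nhdsGT : Tendsto (fun t : ℝ => t) (𝓝[>] 0) (𝓝 0) :=
  tendsto_nhdsWithin_of_tendsto_nhds tendsto_id

/-- `t (1 + log (1/t))^5 → 0` -/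
lemma tendsto_t_log5 : Tendsto (fun t : ℝ => t * (1 + Real.log (1 / t)) ^ 5) (𝓝[>] 0) (𝓝 0) := by
  have h1 : Tendsto (fun t : ℝ => 1 / t) (𝓝[>] 0) atTop := by
    simpa using tendsto_inv_nhdsGT_zero (𝕜 := ℝ)
  have h2 : Tendsto (fun y : ℝ => (1 + y) ^ 5 * Real.exp (-y)) atTop (𝓝 0) := by
    have h3 : Tendsto (fun y : ℝ => (y ^ 5 * Real.exp (-y)) * (1 + 1 / y) ^ 5) atTop (𝓝 (0 * 1)) := by
      refine (Real.tendsto_pow_mul_exp_neg_atTop_nhds_zero 5).mul ?_
      have h4 : Tendsto (fun y : ℝ => (1 + 1 / y) ^ 5) atTop (𝓝 ((1 + 0) ^ 5)) := by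
        have h5 : Tendsto (fun y : ℝ => 1 / y) atTop (𝓝 0) := by
          simp only [one_div]
          exact tendsto_inv_atTop_zero (𝕜 := ℝ)
        exact (tendsto_const_nhds.add h5).pow 5
      simpa using h4
    rw [zero_mul] at h3
    refine h3.congr' ?_
    filter_upwards [eventually_gt_atTop 0] with y hy
    have : (1 + y) ^ 5 = y ^ 5 * (1 + 1 / y) ^ 5 := by
      rw [← mul_pow]; congr 1; field_simp; ring
    rw [this]; ring
  have h3 : Tendsto (fun t : ℝ => Real.log (1 / t)) (𝓝[>] 0) atTop :=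
    Real.tendsto_log_atTop.comp h1
  have h4 := h2.comp h3
  refine h4.congr' ?_
  filter_upwards [self_mem_nhdsWithin] with t ht
  have ht' : (0 : ℝ) < t := ht
  simp only [Function.comp]
  rw [Real.exp_neg, Real.exp_log (by positivity)]
  field_simp

lemma small : ∀ᶠ t : ℝ in 𝓝[>] 0, 0 < t ∧ t < 1 ∧ t * (1 + Real.log (1 / t)) ^ 5 ≤ 1 := by
  have h1 : ∀ᶠ t : ℝ in 𝓝[>] 0, t * (1 + Real.log (1 / t)) ^ 5 < 1 :=
    tendsto_t_log5.eventually (gt_mem_nhds one_pos)
  have h2 : ∀ᶠ t : ℝ in 𝓝[>] 0, t < 1 := tendsto_id_nhdsGT.eventually (gt_mem_nhds one_pos)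
  filter_upwards [self_mem_nhdsWithin, h1, h2] with t ht h1 h2
  exact ⟨ht, h2, h1.le⟩

lemma log_inv_nonneg {t : ℝ} (h0 : 0 < t) (h1 : t < 1) : 0 ≤ Real.log (1 / t) :=
  Real.log_nonneg (by rw [le_div_iff₀ h0]; linarith)

lemma reg_small {t : ℝ} (h0 : 0 < t) (h1 : t < 1) (h2 : t * (1 + Real.log (1 / t)) ^ 5 ≤ 1)
    {k : ℕ} (hk : t ^ 4 * xb k ^ 5 ≤ 1) : t * xb k * (1 + Real.log (1 / t)) ≤ 1 := by
  have hL := log_inv_nonneg h0 h1
  have hx := xb_pos k
  have h3 : (t * xb k * (1 + Real.log (1 / t))) ^ 5 ≤ 1 := by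
    have : (t * xb k * (1 + Real.log (1 / t))) ^ 5
        = (t * (1 + Real.log (1 / t)) ^ 5) * (t ^ 4 * xb k ^ 5) := by ring
    rw [this]
    exact mul_le_one₀ h2 (by positivity) hk
  exact (pow_le_one_iff_of_nonneg (by positivity) (by norm_num)).mp h3

lemma prod_num {A B t x Λ C D f f0 f1 u g g0 g1 w : ℝ} (hA : 0 < A) (hB : 0 < B) (ht : 0 < t)
    (hx : 1 ≤ x) (hΛ : 1 ≤ Λ) (hs : t * x * Λ ≤ 1) (hC : 0 ≤ C) (hD : 0 ≤ D)
    (hf0 : |f0| ≤ C * A) (hf1 : |f1| ≤ C * (A * x)) (hu : |u| ≤ C * (Λ * (A * x ^ 2)))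
    (hf : |f - (f0 + t * f1 + t ^ 2 * u)| ≤ C * (t ^ 3 * Λ * (A * x ^ 3)))
    (hg0 : |g0| ≤ D * B) (hg1 : |g1| ≤ D * (B * x)) (hw : |w| ≤ D * (Λ * (B * x ^ 2)))
    (hg : |g - (g0 + t * g1 + t ^ 2 * w)| ≤ D * (t ^ 3 * Λ * (B * x ^ 3))) :
    |f * g - (f0 * g0 + t * (f0 * g1 + f1 * g0) + t ^ 2 * (f0 * w + f1 * g1 + u * g0))|
      ≤ 10 * (C * D) * (t ^ 3 * Λ * (A * B * x ^ 3)) := by
  set rf := f - (f0 + t * f1 + t ^ 2 * u) with hrf
  set rg := g - (g0 + t * g1 + t ^ 2 * w) with hrg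
  have hx0 : 0 < x := by linarith
  have hΛ0 : 0 < Λ := by linarith
  have htx : t * x ≤ 1 := by
    have : t * x * 1 ≤ t * x * Λ := mul_le_mul_of_nonneg_left hΛ (by positivity)
    linarith
  have htx2 : t ^ 2 * Λ * x ^ 2 ≤ 1 := by
    have : t ^ 2 * Λ * x ^ 2 = (t * x * Λ) * (t * x) := by ring
    rw [this]; exact mul_le_one₀ hs (by positivity) htx
  have htx3 : t ^ 3 * Λ * x ^ 3 ≤ 1 := by
    have : t ^ 3 * Λ * x ^ 3 = (t ^ 2 * Λ * x ^ 2) * (t * x) := by ring
    rw [this]; exact mul_le_one₀ htx2 (by positivity) htx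
  have hF : |f0 + t * f1 + t ^ 2 * u| ≤ 3 * (C * A) := by
    have e1 : |t * f1| ≤ C * A := by
      rw [abs_mul, abs_of_pos ht]
      calc t * |f1| ≤ t * (C * (A * x)) := mul_le_mul_of_nonneg_left hf1 ht.le
        _ = (C * A) * (t * x) := by ring
        _ ≤ (C * A) * 1 := mul_le_mul_of_nonneg_left htx (by positivity)
        _ = C * A := mul_one _
    have e2 : |t ^ 2 * u| ≤ C * A := by
      rw [abs_mul, abs_of_pos (by positivity : (0 : ℝ) < t ^ 2)]
      calc t ^ 2 * |u| ≤ t ^ 2 * (C * (Λ * (A * x ^ 2))) :=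
            mul_le_mul_of_nonneg_left hu (by positivity)
        _ = (C * A) * (t ^ 2 * Λ * x ^ 2) := by ring
        _ ≤ (C * A) * 1 := mul_le_mul_of_nonneg_left htx2 (by positivity)
        _ = C * A := mul_one _
    have e3 := abs_add_le (f0 + t * f1) (t ^ 2 * u)
    have e4 := abs_add_le f0 (t * f1)
    linarith
  have hG : |g| ≤ 4 * (D * B) := by
    have e1 : |t * g1| ≤ D * B := by
      rw [abs_mul, abs_of_pos ht]
      calc t * |g1| ≤ t * (D * (B * x)) := mul_le_mul_of_nonneg_left hg1 ht.le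
        _ = (D * B) * (t * x) := by ring
        _ ≤ (D * B) * 1 := mul_le_mul_of_nonneg_left htx (by positivity)
        _ = D * B := mul_one _
    have e2 : |t ^ 2 * w| ≤ D * B := by
      rw [abs_mul, abs_of_pos (by positivity : (0 : ℝ) < t ^ 2)]
      calc t ^ 2 * |w| ≤ t ^ 2 * (D * (Λ * (B * x ^ 2))) :=
            mul_le_mul_of_nonneg_left hw (by positivity)
        _ = (D * B) * (t ^ 2 * Λ * x ^ 2) := by ring
        _ ≤ (D * B) * 1 := mul_le_mul_of_nonneg_left htx2 (by positivity)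
        _ = D * B := mul_one _
    have e5 : |rg| ≤ D * B := by
      calc |rg| ≤ D * (t ^ 3 * Λ * (B * x ^ 3)) := hg
        _ = (D * B) * (t ^ 3 * Λ * x ^ 3) := by ring
        _ ≤ (D * B) * 1 := mul_le_mul_of_nonneg_left htx3 (by positivity)
        _ = D * B := mul_one _
    have e0 : g = ((g0 + t * g1) + t ^ 2 * w) + rg := by rw [hrg]; ring
    have e3 := abs_add_le ((g0 + t * g1) + t ^ 2 * w) rg
    have e3' := abs_add_le (g0 + t * g1) (t ^ 2 * w)
    have e4 := abs_add_le g0 (t * g1)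
    rw [← e0] at e3
    linarith
  set P := t ^ 3 * Λ * (A * B * x ^ 3) with hP
  have hP0 : 0 ≤ P := by positivity
  have key : f * g - (f0 * g0 + t * (f0 * g1 + f1 * g0) + t ^ 2 * (f0 * w + f1 * g1 + u * g0))
      = t ^ 3 * (f1 * w) + t ^ 3 * (u * g1) + t ^ 4 * (u * w) + rf * g
        + (f0 + t * f1 + t ^ 2 * u) * rg := by
    rw [hrf, hrg]; ring
  have b1 : |t ^ 3 * (f1 * w)| ≤ (C * D) * P := by
    rw [abs_mul, abs_mul, abs_of_pos (by positivity : (0 : ℝ) < t ^ 3)]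
    calc t ^ 3 * (|f1| * |w|) ≤ t ^ 3 * ((C * (A * x)) * (D * (Λ * (B * x ^ 2)))) := by
          gcongr
      _ = (C * D) * P := by rw [hP]; ring
  have b2 : |t ^ 3 * (u * g1)| ≤ (C * D) * P := by
    rw [abs_mul, abs_mul, abs_of_pos (by positivity : (0 : ℝ) < t ^ 3)]
    calc t ^ 3 * (|u| * |g1|) ≤ t ^ 3 * ((C * (Λ * (A * x ^ 2))) * (D * (B * x))) := by
          gcongr
      _ = (C * D) * P := by rw [hP]; ring
  have b3 : |t ^ 4 * (u * w)| ≤ (C * D) * P := by
    rw [abs_mul, abs_mul, abs_of_pos (by positivity : (0 : ℝ) < t ^ 4)]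
    calc t ^ 4 * (|u| * |w|) ≤ t ^ 4 * ((C * (Λ * (A * x ^ 2))) * (D * (Λ * (B * x ^ 2)))) := by
          gcongr
      _ = ((C * D) * P) * (t * x * Λ) := by rw [hP]; ring
      _ ≤ ((C * D) * P) * 1 := mul_le_mul_of_nonneg_left hs (by positivity)
      _ = (C * D) * P := mul_one _
  have b4 : |rf * g| ≤ 4 * ((C * D) * P) := by
    rw [abs_mul]
    calc |rf| * |g| ≤ (C * (t ^ 3 * Λ * (A * x ^ 3))) * (4 * (D * B)) := by
          gcongr
      _ = 4 * ((C * D) * P) := by rw [hP]; ring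
  have b5 : |(f0 + t * f1 + t ^ 2 * u) * rg| ≤ 3 * ((C * D) * P) := by
    rw [abs_mul]
    calc |f0 + t * f1 + t ^ 2 * u| * |rg| ≤ (3 * (C * A)) * (D * (t ^ 3 * Λ * (B * x ^ 3))) := by
          gcongr
      _ = 3 * ((C * D) * P) := by rw [hP]; ring
  rw [key]
  have a1 := abs_add_le (t ^ 3 * (f1 * w) + t ^ 3 * (u * g1) + t ^ 4 * (u * w) + rf * g)
    ((f0 + t * f1 + t ^ 2 * u) * rg)
  have a2 := abs_add_le (t ^ 3 * (f1 * w) + t ^ 3 * (u * g1) + t ^ 4 * (u * w)) (rf * g)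
  have a3 := abs_add_le (t ^ 3 * (f1 * w) + t ^ 3 * (u * g1)) (t ^ 4 * (u * w))
  have a4 := abs_add_le (t ^ 3 * (f1 * w)) (t ^ 3 * (u * g1))
  linarith

lemma u_bound {μt M L C Y a b c : ℝ} (hL : 0 ≤ L) (hμ : |μt| ≤ M) (hM : 0 ≤ M) (hC : 0 ≤ C)
    (hY : 0 ≤ Y) (ha : |a| ≤ C * Y) (hb : |b| ≤ C * Y) (hc : |c| ≤ C * Y) :
    |a + b * L + c * μt| ≤ (C * (1 + M)) * ((1 + L) * Y) := by
  have h1 := abs_add_le (a + b * L) (c * μt)
  have h2 := abs_add_le a (b * L)
  rw [abs_mul, abs_of_nonneg hL] at h2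
  rw [abs_mul c] at h1
  have h3 : |b| * L ≤ (C * Y) * L := mul_le_mul_of_nonneg_right hb hL
  have h4 : |c| * |μt| ≤ (C * Y) * M := mul_le_mul hc hμ (abs_nonneg _) (by positivity)
  have h5 : 0 ≤ (C * Y) * M * L := by positivity
  linarith

lemma Ex.mul {μ : ℝ → ℝ} {M : ℝ} (hμ : ∀ᶠ t in 𝓝[>] 0, |μ t| ≤ M) {γ δ : ℝ}
    {f g : ℕ → ℝ → ℝ} (hf : Ex μ γ f) (hg : Ex μ δ g) :
    Ex μ (γ + δ) (fun k t => f k t * g k t) := by
  obtain ⟨f0, f1, f2, fL, fm, C, hC, hf0, hf1, hf2, hfL, hfm, hf⟩ := hf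
  obtain ⟨g0, g1, g2, gL, gm, D, hD, hg0, hg1, hg2, hgL, hgm, hg⟩ := hg
  obtain ⟨t₁, ht₁⟩ := hμ.exists
  have hM : 0 ≤ M := (abs_nonneg _).trans ht₁
  have hCD : 0 ≤ C * D := mul_nonneg hC hD
  have e1 : ∀ k, mon (γ + δ + 1) k = mon γ k * mon δ k * xb k := fun k => by
    rw [mon_add_one, ← mon_mul_apply]
  have e2 : ∀ k, mon (γ + δ + 2) k = mon γ k * mon δ k * xb k ^ 2 := fun k => by
    rw [mon_add_two, ← mon_mul_apply]
  have e3 : ∀ k, mon (γ + δ + 3) k = mon γ k * mon δ k * xb k ^ 3 := fun k => by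
    rw [mon_add_three, ← mon_mul_apply]
  have key1 : ∀ {a b X Y : ℝ}, 0 ≤ X → |a| ≤ C * X → |b| ≤ D * Y → |a * b| ≤ (C * D) * (X * Y) := by
    intro a b X Y hX ha hb
    rw [abs_mul]
    calc |a| * |b| ≤ (C * X) * (D * Y) := mul_le_mul ha hb (abs_nonneg _) (by positivity)
      _ = _ := by ring
  have hCM : C * D ≤ (C * (1 + M)) * (D * (1 + M)) := by
    have : (C * (1 + M)) * (D * (1 + M)) = (C * D) * ((1 + M) * (1 + M)) := by ring
    rw [this]
    exact le_mul_of_one_le_right hCD (by linarith [mul_nonneg hM hM])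
  have hK : ∀ {n P : ℝ}, n ≤ 10 → 0 ≤ P →
      n * ((C * D) * P) ≤ 10 * ((C * (1 + M)) * (D * (1 + M))) * P := by
    intro n P hn hP
    calc n * ((C * D) * P) ≤ 10 * ((C * D) * P) :=
          mul_le_mul_of_nonneg_right hn (mul_nonneg hCD hP)
      _ = 10 * (C * D) * P := by ring
      _ ≤ _ := by gcongr
  refine ⟨fun k => f0 k * g0 k, fun k => f0 k * g1 k + f1 k * g0 k,
    fun k => f0 k * g2 k + f1 k * g1 k + f2 k * g0 k, fun k => f0 k * gL k + fL k * g0 k,
    fun k => f0 k * gm k + fm k * g0 k, 10 * ((C * (1 + M)) * (D * (1 + M))) , by positivity,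
    ?_, ?_, ?_, ?_, ?_, ?_⟩
  · intro k
    have hA := mon_pos γ k
    have hB := mon_pos δ k
    rw [← mon_mul_apply]
    refine (key1 hA.le (hf0 k) (hg0 k)).trans ?_
    have := hK (n := 1) (P := mon γ k * mon δ k) (by norm_num) (by positivity)
    linarith
  · intro k
    have hA := mon_pos γ k
    have hB := mon_pos δ k
    have hx := xb_pos k
    have q1 := hg1 k
    have q2 := hf1 k
    rw [mon_add_one] at q1 q2
    rw [e1]
    have h1 := key1 hA.le (hf0 k) q1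
    have h2 := key1 (by positivity) q2 (hg0 k)
    have h3 := abs_add_le (f0 k * g1 k) (f1 k * g0 k)
    have := hK (n := 2) (P := mon γ k * mon δ k * xb k) (by norm_num) (by positivity)
    have r1 : mon γ k * (mon δ k * xb k) = mon γ k * mon δ k * xb k := by ring
    have r2 : mon γ k * xb k * mon δ k = mon γ k * mon δ k * xb k := by ring
    rw [r1] at h1
    rw [r2] at h2
    linarith
  · intro k
    have hA := mon_pos γ k
    have hB := mon_pos δ k
    have hx := xb_pos k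
    have q1 := hg2 k
    have q2 := hf2 k
    have q3 := hf1 k
    have q4 := hg1 k
    rw [mon_add_two] at q1 q2
    rw [mon_add_one] at q3 q4
    rw [e2]
    have h1 := key1 hA.le (hf0 k) q1
    have h2 := key1 (by positivity) q2 (hg0 k)
    have h2' := key1 (by positivity) q3 q4
    have h3 := abs_add_le (f0 k * g2 k + f1 k * g1 k) (f2 k * g0 k)
    have h4 := abs_add_le (f0 k * g2 k) (f1 k * g1 k)
    have := hK (n := 3) (P := mon γ k * mon δ k * xb k ^ 2) (by norm_num) (by positivity)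
    have r1 : mon γ k * (mon δ k * xb k ^ 2) = mon γ k * mon δ k * xb k ^ 2 := by ring
    have r2 : mon γ k * xb k ^ 2 * mon δ k = mon γ k * mon δ k * xb k ^ 2 := by ring
    have r3 : mon γ k * xb k * (mon δ k * xb k) = mon γ k * mon δ k * xb k ^ 2 := by ring
    rw [r1] at h1
    rw [r2] at h2
    rw [r3] at h2'
    linarith
  · intro k
    have hA := mon_pos γ k
    have hB := mon_pos δ k
    have hx := xb_pos k
    have q1 := hgL k
    have q2 := hfL k
    rw [mon_add_two] at q1 q2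
    rw [e2]
    have h1 := key1 hA.le (hf0 k) q1
    have h2 := key1 (by positivity) q2 (hg0 k)
    have h3 := abs_add_le (f0 k * gL k) (fL k * g0 k)
    have := hK (n := 2) (P := mon γ k * mon δ k * xb k ^ 2) (by norm_num) (by positivity)
    have r1 : mon γ k * (mon δ k * xb k ^ 2) = mon γ k * mon δ k * xb k ^ 2 := by ring
    have r2 : mon γ k * xb k ^ 2 * mon δ k = mon γ k * mon δ k * xb k ^ 2 := by ring
    rw [r1] at h1
    rw [r2] at h2
    linarith
  · intro k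
    have hA := mon_pos γ k
    have hB := mon_pos δ k
    have hx := xb_pos k
    have q1 := hgm k
    have q2 := hfm k
    rw [mon_add_two] at q1 q2
    rw [e2]
    have h1 := key1 hA.le (hf0 k) q1
    have h2 := key1 (by positivity) q2 (hg0 k)
    have h3 := abs_add_le (f0 k * gm k) (fm k * g0 k)
    have := hK (n := 2) (P := mon γ k * mon δ k * xb k ^ 2) (by norm_num) (by positivity)
    have r1 : mon γ k * (mon δ k * xb k ^ 2) = mon γ k * mon δ k * xb k ^ 2 := by ring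
    have r2 : mon γ k * xb k ^ 2 * mon δ k = mon γ k * mon δ k * xb k ^ 2 := by ring
    rw [r1] at h1
    rw [r2] at h2
    linarith
  · filter_upwards [hf, hg, hμ, small] with t hf hg hμ hs k hk
    obtain ⟨t0, t1, t2⟩ := hs
    have hL := log_inv_nonneg t0 t1
    have hA := mon_pos γ k
    have hB := mon_pos δ k
    have hx := xb_pos k
    have hsm := reg_small t0 t1 t2 hk
    have q1 := hf1 k
    have q2 := hf2 k
    have q3 := hfL k
    have q4 := hfm k
    have q5 := hg1 k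
    have q6 := hg2 k
    have q7 := hgL k
    have q8 := hgm k
    have q9 := hf k hk
    have q10 := hg k hk
    rw [mon_add_one] at q1 q5
    rw [mon_add_two] at q2 q3 q4 q6 q7 q8
    rw [mon_add_three] at q9 q10
    have u1 := u_bound hL hμ hM hC (by positivity : 0 ≤ mon γ k * xb k ^ 2) q2 q3 q4
    have u2 := u_bound hL hμ hM hD (by positivity : 0 ≤ mon δ k * xb k ^ 2) q6 q7 q8
    have hC1 : C ≤ C * (1 + M) := le_mul_of_one_le_right hC (by linarith)
    have hD1 : D ≤ D * (1 + M) := le_mul_of_one_le_right hD (by linarith)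
    have main := prod_num (A := mon γ k) (B := mon δ k) (x := xb k)
      (Λ := 1 + Real.log (1 / t)) (C := C * (1 + M)) (D := D * (1 + M)) hA hB t0 (one_le_xb k)
      (by linarith) hsm (by positivity) (by positivity)
      ((hf0 k).trans (mul_le_mul_of_nonneg_right hC1 (by positivity)))
      (q1.trans (mul_le_mul_of_nonneg_right hC1 (by positivity))) u1
      (q9.trans (mul_le_mul_of_nonneg_right hC1 (by positivity)))
      ((hg0 k).trans (mul_le_mul_of_nonneg_right hD1 (by positivity)))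
      (q5.trans (mul_le_mul_of_nonneg_right hD1 (by positivity))) u2
      (q10.trans (mul_le_mul_of_nonneg_right hD1 (by positivity)))
    rw [e3]
    refine le_trans (le_of_eq ?_) main
    congr 1
    ring

lemma Ex.mono {μ : ℝ → ℝ} {γ δ : ℝ} (h : γ ≤ δ) {f : ℕ → ℝ → ℝ} (hf : Ex μ γ f) : Ex μ δ f := by
  obtain ⟨f0, f1, f2, fL, fm, C, hC, hf0, hf1, hf2, hfL, hfm, hf⟩ := hf
  refine ⟨f0, f1, f2, fL, fm, C, hC, fun k => (hf0 k).trans ?_, fun k => (hf1 k).trans ?_,
    fun k => (hf2 k).trans ?_, fun k => (hfL k).trans ?_, fun k => (hfm k).trans ?_, ?_⟩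
  any_goals exact mul_le_mul_of_nonneg_left (mon_le (by linarith) k) hC
  filter_upwards [hf, small] with t hf hs k hk
  obtain ⟨t0, t1, t2⟩ := hs
  have hL := log_inv_nonneg t0 t1
  refine (hf k hk).trans ?_
  have := mon_le (show γ + 3 ≤ δ + 3 by linarith) k
  gcongr

lemma Ex.sub {μ : ℝ → ℝ} {γ : ℝ} {f g : ℕ → ℝ → ℝ} (hf : Ex μ γ f) (hg : Ex μ γ g) :
    Ex μ γ (fun k t => f k t - g k t) := by
  obtain ⟨f0, f1, f2, fL, fm, C, hC, hf0, hf1, hf2, hfL, hfm, hf⟩ := hf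
  obtain ⟨g0, g1, g2, gL, gm, D, hD, hg0, hg1, hg2, hgL, hgm, hg⟩ := hg
  have key : ∀ {a b X : ℝ}, |a| ≤ C * X → |b| ≤ D * X → |a - b| ≤ (C + D) * X := by
    intro a b X ha hb
    have := abs_sub a b
    linarith
  refine ⟨fun k => f0 k - g0 k, fun k => f1 k - g1 k, fun k => f2 k - g2 k, fun k => fL k - gL k,
    fun k => fm k - gm k, C + D, by positivity, fun k => key (hf0 k) (hg0 k),
    fun k => key (hf1 k) (hg1 k), fun k => key (hf2 k) (hg2 k), fun k => key (hfL k) (hgL k),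
    fun k => key (hfm k) (hgm k), ?_⟩
  filter_upwards [hf, hg] with t hf hg k hk
  refine le_trans (le_of_eq ?_) (key (hf k hk) (hg k hk))
  congr 1
  ring

lemma _root_.F526.Tay3.toEx (μ : ℝ → ℝ) {γ : ℝ} {f : ℕ → ℝ → ℝ} (hf : Tay3 γ f) : Ex μ γ f := by
  obtain ⟨f0, f1, f2, C, hf0, hf1, hf2, hf⟩ := hf
  have hC := const_nonneg hf0
  refine ⟨f0, f1, f2, fun _ => 0, fun _ => 0, C, hC, hf0, hf1, hf2, fun k => ?_, fun k => ?_, ?_⟩
  · rw [abs_zero]; exact mul_nonneg hC (mon_pos _ _).le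
  · rw [abs_zero]; exact mul_nonneg hC (mon_pos _ _).le
  filter_upwards [hf, small] with t hf hs k hk
  obtain ⟨t0, t1, t2⟩ := hs
  have hL := log_inv_nonneg t0 t1
  have hm := mon_pos (γ + 3) k
  have h1 := hf k hk
  simp only [zero_mul, add_zero]
  refine h1.trans ?_
  have : t ^ 3 * mon (γ + 3) k ≤ t ^ 3 * (1 + Real.log (1 / t)) * mon (γ + 3) k := by
    have : t ^ 3 * 1 * mon (γ + 3) k ≤ t ^ 3 * (1 + Real.log (1 / t)) * mon (γ + 3) k := by
      gcongr
      linarith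
    simpa using this
  exact mul_le_mul_of_nonneg_left this hC

lemma exists_le_mon' {φ : ℕ → ℝ} {p : ℝ} (hφ : φ =O[atTop] mon p) :
    ∃ C, 0 ≤ C ∧ ∀ n, |φ n| ≤ C * mon p n := by
  have h1 := (isBigO_nat_atTop_iff (fun n h => absurd h (mon_pos p n).ne')).mp hφ
  obtain ⟨C, hC⟩ := h1
  refine ⟨|C|, abs_nonneg C, fun n => ?_⟩
  have h2 := hC n
  rw [Real.norm_eq_abs, Real.norm_of_nonneg (mon_pos p n).le] at h2
  exact h2.trans (mul_le_mul_of_nonneg_right (le_abs_self C) (mon_pos p n).le)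

lemma log_xb_le {δ : ℝ} (hδ : 0 < δ) (k : ℕ) : Real.log (xb k) ≤ δ⁻¹ * mon δ k := by
  have := Real.log_le_rpow_div (xb_pos k).le hδ
  unfold mon
  rw [div_eq_inv_mul] at this
  exact this

/-- partial sums of monomials -/
lemma sum_mon_le {γ : ℝ} (hγ : -1 < γ) :
    ∃ S, 0 ≤ S ∧ ∀ k, ∑ l ∈ Finset.range k, mon γ l ≤ S * mon (γ + 1) k := by
  obtain ⟨r, hr⟩ := PP.sum_range (PP.of_mon (le_refl γ))
  obtain ⟨C, hC, hb⟩ := exists_le_mon' hr.isBigO
  rw [max_eq_left (by linarith)] at hb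
  refine ⟨C + |r| * (γ + 1)⁻¹, by have : 0 < γ + 1 := by linarith
                                  positivity, fun k => ?_⟩
  have h1 := (le_abs_self _).trans (hb k)
  have h2 := log_xb_le (show 0 < γ + 1 by linarith) k
  have h3 : 0 ≤ Real.log (xb k) := Real.log_nonneg (one_le_xb k)
  have h4 : r * Real.log (xb k) ≤ |r| * ((γ + 1)⁻¹ * mon (γ + 1) k) :=
    (mul_le_mul_of_nonneg_right (le_abs_self r) h3).trans
      (mul_le_mul_of_nonneg_left h2 (abs_nonneg r))
  have h5 : (C + |r| * (γ + 1)⁻¹) * mon (γ + 1) k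
      = C * mon (γ + 1) k + |r| * ((γ + 1)⁻¹ * mon (γ + 1) k) := by ring
  linarith

lemma abs_sum_le {c : ℕ → ℝ} {C γ S : ℝ} (hC : 0 ≤ C) (hc : ∀ k, |c k| ≤ C * mon γ k)
    (hS : ∀ k, ∑ l ∈ Finset.range k, mon γ l ≤ S * mon (γ + 1) k) (k : ℕ) :
    |∑ l ∈ Finset.range k, c l| ≤ (C * S) * mon (γ + 1) k := by
  calc |∑ l ∈ Finset.range k, c l| ≤ ∑ l ∈ Finset.range k, |c l| := Finset.abs_sum_le_sum_abs _ _
    _ ≤ ∑ l ∈ Finset.range k, C * mon γ l := Finset.sum_le_sum fun l _ => hc l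
    _ = C * ∑ l ∈ Finset.range k, mon γ l := by rw [Finset.mul_sum]
    _ ≤ C * (S * mon (γ + 1) k) := mul_le_mul_of_nonneg_left (hS k) hC
    _ = _ := by ring

/-- a null sequence with differences `O(mon γ)`, `γ < -1`, is `O(mon (γ+1))` -/
lemma null_le {γ : ℝ} (hγ : γ < -1) {C : ℝ} (hC : 0 ≤ C) {c G : ℕ → ℝ} {g0 : ℝ}
    (hc : ∀ k, |c k| ≤ C * mon γ k) (hG : ∀ k, G k = g0 - ∑ l ∈ Finset.range k, c l)
    (h0 : Tendsto G atTop (𝓝 0)) : ∃ D, 0 ≤ D ∧ ∀ k, |G k| ≤ D * mon (γ + 1) k := by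
  obtain ⟨v, hv, hv0, hv1, hv2⟩ := exists_tail hγ (PP.of_mon (le_refl γ))
  obtain ⟨K, hK, hvK⟩ := exists_le_mon' hv.isBigO
  refine ⟨C * K, by positivity, fun k => ?_⟩
  have h1 : ∀ n, k ≤ n → |G k| ≤ |G n| + C * (v k - v n) := by
    intro n hn
    have h2 : G k - G n = ∑ l ∈ Finset.Ico k n, c l := by
      rw [hG, hG, Finset.sum_Ico_eq_sub _ hn]; ring
    have h3 : |G k - G n| ≤ C * (v k - v n) := by
      rw [h2]
      calc |∑ l ∈ Finset.Ico k n, c l| ≤ ∑ l ∈ Finset.Ico k n, |c l| :=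
            Finset.abs_sum_le_sum_abs _ _
        _ ≤ ∑ l ∈ Finset.Ico k n, C * mon γ l := Finset.sum_le_sum fun l _ => hc l
        _ = C * ∑ l ∈ Finset.Ico k n, mon γ l := by rw [Finset.mul_sum]
        _ = C * (v k - v n) := by
          rw [Finset.sum_Ico_eq_sub _ hn, hv2, hv2]; ring
    have h4 : |G k| ≤ |G n| + |G k - G n| := by
      have := abs_add_le (G n) (G k - G n)
      rwa [show G n + (G k - G n) = G k by ring] at this
    linarith
  have h5 : Tendsto (fun n => |G n| + C * (v k - v n)) atTop (𝓝 (|0| + C * (v k - 0))) :=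
    h0.abs.add ((tendsto_const_nhds.sub hv0).const_mul C)
  have h6 : |G k| ≤ |(0 : ℝ)| + C * (v k - 0) :=
    ge_of_tendsto h5 (by filter_upwards [eventually_ge_atTop k] with n hn using h1 n hn)
  rw [abs_zero, zero_add, sub_zero] at h6
  calc |G k| ≤ C * v k := h6
    _ ≤ C * |v k| := mul_le_mul_of_nonneg_left (le_abs_self _) hC
    _ ≤ C * (K * mon (γ + 1) k) := mul_le_mul_of_nonneg_left (hvK k) hC
    _ = _ := by ring

/-- the small parameter on the boundary of the region -/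
lemma tendsto_bdry : Tendsto (mon (-(5 / 4))) atTop (𝓝[>] 0) := by
  refine tendsto_nhdsWithin_iff.mpr ⟨mon_tendsto_zero (by norm_num), Eventually.of_forall fun n => ?_⟩
  exact mon_pos _ n

lemma bdry_eq (k : ℕ) : mon (-(5 / 4)) k ^ 4 * xb k ^ 5 = 1 := by
  unfold mon
  rw [← Real.rpow_natCast (xb k ^ (-(5 / 4) : ℝ)) 4, ← Real.rpow_mul (xb_pos k).le,
    ← Real.rpow_natCast (xb k) 5, ← Real.rpow_add (xb_pos k)]
  norm_num

lemma log_bdry (k : ℕ) : Real.log (1 / mon (-(5 / 4)) k) = 5 / 4 * Real.log (xb k) := by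
  unfold mon
  rw [Real.log_div one_ne_zero (Real.rpow_pos_of_pos (xb_pos k) _).ne', Real.log_one,
    Real.log_rpow (xb_pos k)]
  ring

/-- the recursion lemma -/
lemma Ex.of_rec {μ : ℝ → ℝ} {M : ℝ} (hμ : ∀ᶠ t in 𝓝[>] 0, |μ t| ≤ M) {f g : ℕ → ℝ → ℝ}
    (hf : Ex μ (-(7 / 3)) f) (hg : ∀ᶠ t in 𝓝[>] 0, ∀ k, g (k + 1) t = g k t - f k t)
    (hgb : ∃ C, ∀ᶠ t in 𝓝[>] 0, ∀ k, |g k t| ≤ C * mon (-(4 / 3)) k) {g0 g1 g2 gL gm : ℝ}
    (h0 : ∃ K, ∀ᶠ t in 𝓝[>] 0, |g 0 t - (g0 + t * g1 + t ^ 2 * (g2 + gL * Real.log (1 / t)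
      + gm * μ t))| ≤ K * (t ^ 3 * (1 + Real.log (1 / t)))) :
    Ex μ (-(4 / 3)) g := by
  obtain ⟨c0, c1, c2, cL, cm, C, hC, hc0, hc1, hc2, hcL, hcm, hf⟩ := hf
  obtain ⟨B, hgb⟩ := hgb
  obtain ⟨K, h0⟩ := h0
  obtain ⟨t₁, ht₁⟩ := hμ.exists
  have hM : 0 ≤ M := (abs_nonneg _).trans ht₁
  obtain ⟨t₂, ht₂⟩ := hgb.exists
  have hB : 0 ≤ B := const_nonneg ht₂
  have hK : 0 ≤ K := by
    obtain ⟨t₃, h3, h4⟩ := (h0.and small).exists
    by_contra hcon
    push Not at hcon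
    have := (abs_nonneg _).trans h3
    have h5 := log_inv_nonneg h4.1 h4.2.1
    have h6 : 0 < t₃ ^ 3 * (1 + Real.log (1 / t₃)) := by
      have := h4.1
      positivity
    linarith [mul_neg_of_neg_of_pos hcon h6]
  obtain ⟨S, hS, hSb⟩ := sum_mon_le (show (-1 : ℝ) < -(1 / 3) by norm_num)
  obtain ⟨S', hS', hSb'⟩ := sum_mon_le (show (-1 : ℝ) < 2 / 3 by norm_num)
  have en1 : (-(7 / 3) + 2 : ℝ) = -(1 / 3) := by norm_num
  have en2 : (-(1 / 3) + 1 : ℝ) = 2 / 3 := by norm_num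
  have en3 : (-(4 / 3) + 2 : ℝ) = 2 / 3 := by norm_num
  have en4 : (-(7 / 3) + 3 : ℝ) = 2 / 3 := by norm_num
  have en5 : (2 / 3 + 1 : ℝ) = 5 / 3 := by norm_num
  have en6 : (-(4 / 3) + 3 : ℝ) = 5 / 3 := by norm_num
  have en7 : (-(7 / 3) + 1 : ℝ) = -(4 / 3) := by norm_num
  have en8 : (-(4 / 3) + 1 : ℝ) = -(1 / 3) := by norm_num
  rw [en1] at hc2 hcL hcm
  rw [en7] at hc1
  simp only [en4] at hf
  rw [en2] at hSb
  rw [en5] at hSb'
  set G0 : ℕ → ℝ := fun k => g0 - ∑ l ∈ Finset.range k, c0 l with hG0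
  set G1 : ℕ → ℝ := fun k => g1 - ∑ l ∈ Finset.range k, c1 l with hG1
  set G2 : ℕ → ℝ := fun k => g2 - ∑ l ∈ Finset.range k, c2 l with hG2
  set Gl : ℕ → ℝ := fun k => gL - ∑ l ∈ Finset.range k, cL l with hGl
  set Gm : ℕ → ℝ := fun k => gm - ∑ l ∈ Finset.range k, cm l with hGm
  have hSb2 : ∀ k, ∑ l ∈ Finset.range k, mon (-(1 / 3)) l ≤ S * mon (-(1 / 3) + 1) k := by
    simpa only [en2] using hSb
  have big : ∀ (x : ℝ) (c : ℕ → ℝ), (∀ k, |c k| ≤ C * mon (-(1 / 3)) k) → ∀ k,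
      |x - ∑ l ∈ Finset.range k, c l| ≤ (|x| + C * S) * mon (2 / 3) k := by
    intro x c hc k
    have h1 := abs_sum_le hC hc hSb2 k
    rw [en2] at h1
    have h2 := abs_sub x (∑ l ∈ Finset.range k, c l)
    have h3 : 1 ≤ mon (2 / 3) k := Real.one_le_rpow (one_le_xb k) (by norm_num)
    have h4 : |x| * 1 ≤ |x| * mon (2 / 3) k := mul_le_mul_of_nonneg_left h3 (abs_nonneg x)
    have h5 : (|x| + C * S) * mon (2 / 3) k = |x| * mon (2 / 3) k + C * S * mon (2 / 3) k := by ring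
    linarith
  set E := |g2| + |gL| + |gm| + C * S with hE
  have hE0 : 0 ≤ E := by positivity
  have bG2 : ∀ k, |G2 k| ≤ E * mon (2 / 3) k := fun k => (big g2 c2 hc2 k).trans
    (mul_le_mul_of_nonneg_right (by rw [hE]; linarith [abs_nonneg gL, abs_nonneg gm]) (mon_pos _ _).le)
  have bGl : ∀ k, |Gl k| ≤ E * mon (2 / 3) k := fun k => (big gL cL hcL k).trans
    (mul_le_mul_of_nonneg_right (by rw [hE]; linarith [abs_nonneg g2, abs_nonneg gm]) (mon_pos _ _).le)
  have bGm : ∀ k, |Gm k| ≤ E * mon (2 / 3) k := fun k => (big gm cm hcm k).trans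
    (mul_le_mul_of_nonneg_right (by rw [hE]; linarith [abs_nonneg gL, abs_nonneg g2]) (mon_pos _ _).le)
  -- the expansion
  set D := K + C * S' with hD
  have hD0 : 0 ≤ D := by positivity
  have hexp : ∀ᶠ t in 𝓝[>] 0, ∀ k, t ^ 4 * xb k ^ 5 ≤ 1 →
      |g k t - (G0 k + t * G1 k + t ^ 2 * (G2 k + Gl k * Real.log (1 / t) + Gm k * μ t))|
        ≤ D * (t ^ 3 * (1 + Real.log (1 / t)) * mon (5 / 3) k) := by
    filter_upwards [hf, hg, h0, small] with t hf hg h0 hs k hk
    obtain ⟨t0, t1, t2⟩ := hs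
    have hL := log_inv_nonneg t0 t1
    have hgk : ∀ n, g n t = g 0 t - ∑ l ∈ Finset.range n, f l t := by
      intro n
      induction n with
      | zero => simp
      | succ n ih => rw [hg, ih, Finset.sum_range_succ]; ring
    have h1 : g k t - (G0 k + t * G1 k + t ^ 2 * (G2 k + Gl k * Real.log (1 / t) + Gm k * μ t))
        = (g 0 t - (g0 + t * g1 + t ^ 2 * (g2 + gL * Real.log (1 / t) + gm * μ t)))
          - ∑ l ∈ Finset.range k, (f l t - (c0 l + t * c1 l
            + t ^ 2 * (c2 l + cL l * Real.log (1 / t) + cm l * μ t))) := by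
      rw [hgk k, Finset.sum_sub_distrib, Finset.sum_add_distrib, Finset.sum_add_distrib,
        ← Finset.mul_sum, ← Finset.mul_sum, Finset.sum_add_distrib, Finset.sum_add_distrib,
        ← Finset.sum_mul, ← Finset.sum_mul]
      simp only [hG0, hG1, hG2, hGl, hGm]
      ring
    rw [h1]
    have h2 : |∑ l ∈ Finset.range k, (f l t - (c0 l + t * c1 l
            + t ^ 2 * (c2 l + cL l * Real.log (1 / t) + cm l * μ t)))|
        ≤ (C * S') * (t ^ 3 * (1 + Real.log (1 / t)) * mon (5 / 3) k) := by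
      calc |∑ l ∈ Finset.range k, (f l t - (c0 l + t * c1 l
            + t ^ 2 * (c2 l + cL l * Real.log (1 / t) + cm l * μ t)))|
          ≤ ∑ l ∈ Finset.range k, |f l t - (c0 l + t * c1 l
            + t ^ 2 * (c2 l + cL l * Real.log (1 / t) + cm l * μ t))| :=
            Finset.abs_sum_le_sum_abs _ _
        _ ≤ ∑ l ∈ Finset.range k, C * (t ^ 3 * (1 + Real.log (1 / t)) * mon (2 / 3) l) := by
            refine Finset.sum_le_sum fun l hl => hf l (reg_mono t0 ?_ hk)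
            exact (Finset.mem_range.mp hl).le
        _ = (C * (t ^ 3 * (1 + Real.log (1 / t)))) * ∑ l ∈ Finset.range k, mon (2 / 3) l := by
            rw [Finset.mul_sum]
            exact Finset.sum_congr rfl fun l _ => by ring
        _ ≤ (C * (t ^ 3 * (1 + Real.log (1 / t)))) * (S' * mon (5 / 3) k) :=
            mul_le_mul_of_nonneg_left (hSb' k) (by positivity)
        _ = _ := by ring
    have h3 := abs_sub (g 0 t - (g0 + t * g1 + t ^ 2 * (g2 + gL * Real.log (1 / t) + gm * μ t)))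
      (∑ l ∈ Finset.range k, (f l t - (c0 l + t * c1 l
            + t ^ 2 * (c2 l + cL l * Real.log (1 / t) + cm l * μ t))))
    have h4 : 1 ≤ mon (5 / 3) k := Real.one_le_rpow (one_le_xb k) (by norm_num)
    have h5 : K * (t ^ 3 * (1 + Real.log (1 / t)) * 1)
        ≤ K * (t ^ 3 * (1 + Real.log (1 / t)) * mon (5 / 3) k) := by
      gcongr
    have h6 : D * (t ^ 3 * (1 + Real.log (1 / t)) * mon (5 / 3) k)
        = K * (t ^ 3 * (1 + Real.log (1 / t)) * mon (5 / 3) k)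
          + (C * S') * (t ^ 3 * (1 + Real.log (1 / t)) * mon (5 / 3) k) := by
      rw [hD]; ring
    linarith
  -- bound for `G0`
  have bG0 : ∀ k, |G0 k| ≤ B * mon (-(4 / 3)) k := by
    intro k
    set Q := |G1 k| + (E * (1 + M)) * mon (2 / 3) k + D * mon (5 / 3) k with hQ
    have hlim : Tendsto (fun t : ℝ => B * mon (-(4 / 3)) k + t * Q) (𝓝[>] 0)
        (𝓝 (B * mon (-(4 / 3)) k + 0 * Q)) :=
      tendsto_const_nhds.add (tendsto_id_nhdsGT.mul_const Q)
    rw [zero_mul, add_zero] at hlim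
    refine ge_of_tendsto hlim ?_
    have hreg : ∀ᶠ t : ℝ in 𝓝[>] 0, t ^ 4 * xb k ^ 5 ≤ 1 := by
      have h1 : Tendsto (fun t : ℝ => t ^ 4 * xb k ^ 5) (𝓝[>] 0) (𝓝 (0 ^ 4 * xb k ^ 5)) :=
        (tendsto_id_nhdsGT.pow 4).mul_const _
      have h2 : (0 : ℝ) ^ 4 * xb k ^ 5 < 1 := by norm_num
      filter_upwards [h1.eventually (gt_mem_nhds h2)] with t ht using ht.le
    filter_upwards [hexp, hgb, hμ, small, hreg] with t hexp hgb hμ hs hreg
    obtain ⟨t0, t1, t2⟩ := hs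
    have hL := log_inv_nonneg t0 t1
    have hm1 := mon_pos (2 / 3) k
    have hm2 := mon_pos (5 / 3) k
    have hu := u_bound hL hμ hM hE0 hm1.le (bG2 k) (bGl k) (bGm k)
    have h1 := hexp k hreg
    have h2 := hgb k
    have ht5 : t * (1 + Real.log (1 / t)) ≤ 1 := by
      refine le_trans ?_ t2
      have : (1 + Real.log (1 / t)) ^ 1 ≤ (1 + Real.log (1 / t)) ^ 5 :=
        pow_le_pow_right₀ (by linarith) (by norm_num)
      rw [pow_one] at this
      exact mul_le_mul_of_nonneg_left this t0.le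
    have h3 : |t * G1 k| = t * |G1 k| := by rw [abs_mul, abs_of_pos t0]
    have h4 : |t ^ 2 * (G2 k + Gl k * Real.log (1 / t) + Gm k * μ t)|
        ≤ t * ((E * (1 + M)) * mon (2 / 3) k) := by
      rw [abs_mul, abs_of_pos (by positivity : (0 : ℝ) < t ^ 2)]
      calc t ^ 2 * |G2 k + Gl k * Real.log (1 / t) + Gm k * μ t|
          ≤ t ^ 2 * ((E * (1 + M)) * ((1 + Real.log (1 / t)) * mon (2 / 3) k)) :=
            mul_le_mul_of_nonneg_left hu (by positivity)
        _ = (t * ((E * (1 + M)) * mon (2 / 3) k)) * (t * (1 + Real.log (1 / t))) := by ring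
        _ ≤ (t * ((E * (1 + M)) * mon (2 / 3) k)) * 1 :=
            mul_le_mul_of_nonneg_left ht5 (by positivity)
        _ = _ := by ring
    have h5 : D * (t ^ 3 * (1 + Real.log (1 / t)) * mon (5 / 3) k) ≤ t * (D * mon (5 / 3) k) := by
      calc D * (t ^ 3 * (1 + Real.log (1 / t)) * mon (5 / 3) k)
          = (t * (D * mon (5 / 3) k)) * ((t * (1 + Real.log (1 / t))) * t) := by ring
        _ ≤ (t * (D * mon (5 / 3) k)) * 1 := by
            refine mul_le_mul_of_nonneg_left ?_ (by positivity)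
            exact mul_le_one₀ ht5 t0.le t1.le
        _ = _ := by ring
    have h6 : |G0 k| ≤ |g k t| + |t * G1 k| + |t ^ 2 * (G2 k + Gl k * Real.log (1 / t) + Gm k * μ t)|
        + |g k t - (G0 k + t * G1 k + t ^ 2 * (G2 k + Gl k * Real.log (1 / t) + Gm k * μ t))| := by
      have e : G0 k = g k t - t * G1 k - t ^ 2 * (G2 k + Gl k * Real.log (1 / t) + Gm k * μ t)
        - (g k t - (G0 k + t * G1 k + t ^ 2 * (G2 k + Gl k * Real.log (1 / t) + Gm k * μ t))) := by
        ring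
      have a1 := abs_sub (g k t - t * G1 k - t ^ 2 * (G2 k + Gl k * Real.log (1 / t) + Gm k * μ t))
        (g k t - (G0 k + t * G1 k + t ^ 2 * (G2 k + Gl k * Real.log (1 / t) + Gm k * μ t)))
      have a2 := abs_sub (g k t - t * G1 k) (t ^ 2 * (G2 k + Gl k * Real.log (1 / t) + Gm k * μ t))
      have a3 := abs_sub (g k t) (t * G1 k)
      rw [← e] at a1
      linarith
    rw [h3] at h6
    rw [hQ]
    linarith
  -- bound for `G1`
  have hG1lim : Tendsto G1 atTop (𝓝 0) := by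
    set Q := 2 * B + 16 * (E * (1 + M)) + 16 * D with hQ
    have hmain : ∀ᶠ k in atTop, |G1 k| ≤ Q * mon (-(1 / 12)) k := by
      filter_upwards [tendsto_bdry.eventually (hexp.and (hgb.and (hμ.and small)))] with k hk
      obtain ⟨hexp, hgb, hμ, t0, t1, t2⟩ := hk
      set t := mon (-(5 / 4)) k with ht
      have hL := log_inv_nonneg t0 t1
      have hm1 := mon_pos (2 / 3) k
      have hm2 := mon_pos (5 / 3) k
      have hu := u_bound hL hμ hM hE0 hm1.le (bG2 k) (bGl k) (bGm k)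
      have h1 := hexp k (bdry_eq k).le
      have h2 := hgb k
      have hΛ : 1 + Real.log (1 / t) ≤ 16 * mon (1 / 12) k := by
        rw [ht, log_bdry]
        have q1 := log_xb_le (show (0 : ℝ) < 1 / 12 by norm_num) k
        have q2 : 1 ≤ mon (1 / 12) k := Real.one_le_rpow (one_le_xb k) (by norm_num)
        norm_num at q1
        linarith
      have et2 : t ^ 2 = mon (-(5 / 2)) k := by
        rw [ht, pow_two, mon_mul_apply]; norm_num
      have et3 : t ^ 3 = mon (-(15 / 4)) k := by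
        rw [ht, pow_succ, pow_two, mon_mul_apply, mon_mul_apply]; norm_num
      have h4 : |t ^ 2 * (G2 k + Gl k * Real.log (1 / t) + Gm k * μ t)|
          ≤ 16 * (E * (1 + M)) * mon (-(4 / 3)) k := by
        rw [abs_mul, abs_of_pos (by positivity : (0 : ℝ) < t ^ 2)]
        calc t ^ 2 * |G2 k + Gl k * Real.log (1 / t) + Gm k * μ t|
            ≤ t ^ 2 * ((E * (1 + M)) * ((16 * mon (1 / 12) k) * mon (2 / 3) k)) := by
              refine mul_le_mul_of_nonneg_left (hu.trans ?_) (by positivity)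
              gcongr
          _ = 16 * (E * (1 + M)) * (mon (-(5 / 2)) k * mon (1 / 12) k * mon (2 / 3) k) := by
              rw [et2]; ring
          _ = 16 * (E * (1 + M)) * mon (-(7 / 4)) k := by
              rw [mon_mul_apply, mon_mul_apply]; norm_num
          _ ≤ _ := mul_le_mul_of_nonneg_left (mon_le (by norm_num) k) (by positivity)
      have h5 : D * (t ^ 3 * (1 + Real.log (1 / t)) * mon (5 / 3) k)
          ≤ 16 * D * mon (-(4 / 3)) k := by
        calc D * (t ^ 3 * (1 + Real.log (1 / t)) * mon (5 / 3) k)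
            ≤ D * (t ^ 3 * (16 * mon (1 / 12) k) * mon (5 / 3) k) := by
              gcongr
          _ = 16 * D * (mon (-(15 / 4)) k * mon (1 / 12) k * mon (5 / 3) k) := by
              rw [et3]; ring
          _ = 16 * D * mon (-2) k := by
              rw [mon_mul_apply, mon_mul_apply]; norm_num
          _ ≤ _ := mul_le_mul_of_nonneg_left (mon_le (by norm_num) k) (by positivity)
      have h6 : |t * G1 k| ≤ |g k t| + |G0 k| + |t ^ 2 * (G2 k + Gl k * Real.log (1 / t) + Gm k * μ t)|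
          + |g k t - (G0 k + t * G1 k + t ^ 2 * (G2 k + Gl k * Real.log (1 / t) + Gm k * μ t))| := by
        have e : t * G1 k = g k t - G0 k - t ^ 2 * (G2 k + Gl k * Real.log (1 / t) + Gm k * μ t)
          - (g k t - (G0 k + t * G1 k + t ^ 2 * (G2 k + Gl k * Real.log (1 / t) + Gm k * μ t))) := by
          ring
        have a1 := abs_sub (g k t - G0 k - t ^ 2 * (G2 k + Gl k * Real.log (1 / t) + Gm k * μ t))
          (g k t - (G0 k + t * G1 k + t ^ 2 * (G2 k + Gl k * Real.log (1 / t) + Gm k * μ t)))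
        have a2 := abs_sub (g k t - G0 k) (t ^ 2 * (G2 k + Gl k * Real.log (1 / t) + Gm k * μ t))
        have a3 := abs_sub (g k t) (G0 k)
        rw [← e] at a1
        linarith
      have h7 : t * |G1 k| ≤ Q * mon (-(4 / 3)) k := by
        rw [abs_mul, abs_of_pos t0] at h6
        have := bG0 k
        rw [hQ]
        linarith
      have h8 : |G1 k| = mon (5 / 4) k * (t * |G1 k|) := by
        rw [ht, ← mul_assoc, mon_mul_apply]; norm_num [mon_zero]
      rw [h8]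
      calc mon (5 / 4) k * (t * |G1 k|) ≤ mon (5 / 4) k * (Q * mon (-(4 / 3)) k) :=
            mul_le_mul_of_nonneg_left h7 (mon_pos _ _).le
        _ = Q * (mon (5 / 4) k * mon (-(4 / 3)) k) := by ring
        _ = Q * mon (-(1 / 12)) k := by rw [mon_mul_apply]; norm_num
    have h9 : Tendsto (fun k => Q * mon (-(1 / 12)) k) atTop (𝓝 (Q * 0)) :=
      (mon_tendsto_zero (by norm_num)).const_mul Q
    rw [mul_zero] at h9
    exact squeeze_zero_norm' (by simpa [Real.norm_eq_abs] using hmain) h9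
  obtain ⟨D1, hD1, bG1⟩ := null_le (by norm_num : (-(4 / 3) : ℝ) < -1) hC hc1
    (fun k => rfl : ∀ k, G1 k = g1 - ∑ l ∈ Finset.range k, c1 l) hG1lim
  rw [en8] at bG1
  refine ⟨G0, G1, G2, Gl, Gm, B + D1 + E + D, by positivity, fun k => (bG0 k).trans ?_,
    fun k => ?_, fun k => ?_, fun k => ?_, fun k => ?_, ?_⟩
  · exact mul_le_mul_of_nonneg_right (by linarith) (mon_pos _ _).le
  · rw [en8]
    exact (bG1 k).trans (mul_le_mul_of_nonneg_right (by linarith) (mon_pos _ _).le)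
  · rw [en3]
    exact (bG2 k).trans (mul_le_mul_of_nonneg_right (by linarith) (mon_pos _ _).le)
  · rw [en3]
    exact (bGl k).trans (mul_le_mul_of_nonneg_right (by linarith) (mon_pos _ _).le)
  · rw [en3]
    exact (bGm k).trans (mul_le_mul_of_nonneg_right (by linarith) (mon_pos _ _).le)
  · rw [en6]
    filter_upwards [hexp, small] with t hexp hs k hk
    obtain ⟨t0, t1, t2⟩ := hs
    have hL := log_inv_nonneg t0 t1
    have hm2 := mon_pos (5 / 3) k
    refine (hexp k hk).trans (mul_le_mul_of_nonneg_right (by linarith) (by positivity))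

/-- crude first order information -/
lemma crude_tay {f : ℕ → ℝ → ℝ} (hf : Tay3 (-(7 / 3)) f) :
    ∃ (f0 : ℕ → ℝ) (C : ℝ), 0 ≤ C ∧ (∀ k, |f0 k| ≤ C) ∧
      ∀ᶠ t in 𝓝[>] 0, ∀ k, t ^ 4 * xb k ^ 5 ≤ 1 → |f k t - f0 k| ≤ C * t := by
  obtain ⟨f0, f1, f2, C, hf0, hf1, hf2, hf⟩ := hf
  have hC := const_nonneg hf0
  have hle : ∀ {ρ : ℝ}, ρ ≤ 0 → ∀ k, mon ρ k ≤ 1 := fun h k =>
    Real.rpow_le_one_of_one_le_of_nonpos (one_le_xb k) h
  refine ⟨f0, 3 * C, by positivity, fun k => ?_, ?_⟩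
  · refine (hf0 k).trans ?_
    have := mul_le_mul_of_nonneg_left (hle (show (-(7 / 3) : ℝ) ≤ 0 by norm_num) k) hC
    linarith
  filter_upwards [hf, small] with t hf hs k hk
  obtain ⟨t0, t1, t2⟩ := hs
  have hL := log_inv_nonneg t0 t1
  have hx := xb_pos k
  have hsm := reg_small t0 t1 t2 hk
  have htx : t * xb k ≤ 1 := by
    have : t * xb k * 1 ≤ t * xb k * (1 + Real.log (1 / t)) :=
      mul_le_mul_of_nonneg_left (by linarith) (by positivity)
    linarith
  have h1 : |t * f1 k| ≤ C * t := by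
    rw [abs_mul, abs_of_pos t0]
    calc t * |f1 k| ≤ t * (C * mon (-(7 / 3) + 1) k) := mul_le_mul_of_nonneg_left (hf1 k) t0.le
      _ ≤ t * (C * 1) := by
          gcongr
          exact hle (by norm_num) k
      _ = _ := by ring
  have h2 : |t ^ 2 * f2 k| ≤ C * t := by
    rw [abs_mul, abs_of_pos (by positivity : (0 : ℝ) < t ^ 2)]
    calc t ^ 2 * |f2 k| ≤ t ^ 2 * (C * mon (-(7 / 3) + 2) k) :=
          mul_le_mul_of_nonneg_left (hf2 k) (by positivity)
      _ ≤ t ^ 2 * (C * 1) := by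
          gcongr
          exact hle (by norm_num) k
      _ = (C * t) * t := by ring
      _ ≤ (C * t) * 1 := mul_le_mul_of_nonneg_left t1.le (by positivity)
      _ = _ := by ring
  have h3 : C * (t ^ 3 * mon (-(7 / 3) + 3) k) ≤ C * t := by
    calc C * (t ^ 3 * mon (-(7 / 3) + 3) k) ≤ C * (t ^ 3 * mon 1 k) := by
          have := mon_le (show (-(7 / 3) + 3 : ℝ) ≤ 1 by norm_num) k
          gcongr
      _ = (C * t) * (t * (t * xb k)) := by rw [mon_one]; ring
      _ ≤ (C * t) * 1 := mul_le_mul_of_nonneg_left (mul_le_one₀ t1.le (by positivity) htx)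
          (by positivity)
      _ = _ := by ring
  have h4 := hf k hk
  have h5 : f k t - f0 k = (f k t - (f0 k + t * f1 k + t ^ 2 * f2 k)) + t * f1 k + t ^ 2 * f2 k := by
    ring
  rw [h5]
  have a1 := abs_add_le ((f k t - (f0 k + t * f1 k + t ^ 2 * f2 k)) + t * f1 k) (t ^ 2 * f2 k)
  have a2 := abs_add_le (f k t - (f0 k + t * f1 k + t ^ 2 * f2 k)) (t * f1 k)
  linarith

lemma abs_sum_le_card {c : ℕ → ℝ} {X : ℝ} (hX : 0 ≤ X) (k : ℕ) (hc : ∀ l, l < k → |c l| ≤ X) :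
    |∑ l ∈ Finset.range k, c l| ≤ X * xb k := by
  calc |∑ l ∈ Finset.range k, c l| ≤ ∑ l ∈ Finset.range k, |c l| := Finset.abs_sum_le_sum_abs _ _
    _ ≤ ∑ l ∈ Finset.range k, X := Finset.sum_le_sum fun l hl => hc l (Finset.mem_range.mp hl)
    _ = k * X := by simp
    _ ≤ xb k * X := mul_le_mul_of_nonneg_right (natCast_le_xb k) hX
    _ = _ := by ring

lemma I_ex {a b j I : ℕ → ℝ → ℝ} (μ : ℝ → ℝ)
    (ha : Tay3 (-(7 / 3)) a) (hb : Tay3 (-(7 / 3)) b)
    (hj : ∀ᶠ t in 𝓝[>] 0, ∀ k, j (k + 1) t = j k t - a k t * I k t)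
    (hI : ∀ᶠ t in 𝓝[>] 0, ∀ k, I (k + 1) t = I k t + t ^ 2 * (b k t * j k t))
    (hjb : ∃ C, ∀ᶠ t in 𝓝[>] 0, ∀ k, |j k t| ≤ C * mon (-(4 / 3)) k)
    (hIb : ∃ C, ∀ᶠ t in 𝓝[>] 0, ∀ k, |I k t| ≤ C)
    {j00 I00 I01 I02 : ℝ}
    (hj0 : ∃ C, ∀ᶠ t in 𝓝[>] 0, |j 0 t - j00| ≤ C * t)
    (hI0 : ∃ C, ∀ᶠ t in 𝓝[>] 0, |I 0 t - (I00 + I01 * t + I02 * t ^ 2)|
      ≤ C * (t ^ 3 * (1 + Real.log (1 / t)))) :
    Ex μ 0 I := by
  obtain ⟨a0, Ca, hCa, ha0, ha⟩ := crude_tay ha
  obtain ⟨b0, Cb, hCb, hb0, hb⟩ := crude_tay hb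
  obtain ⟨J, hjb⟩ := hjb
  obtain ⟨N, hIb⟩ := hIb
  obtain ⟨K, hj0⟩ := hj0
  obtain ⟨K', hI0⟩ := hI0
  have hle : ∀ {ρ : ℝ}, ρ ≤ 0 → ∀ k, mon ρ k ≤ 1 := fun h k =>
    Real.rpow_le_one_of_one_le_of_nonpos (one_le_xb k) h
  have hJ : 0 ≤ J := by
    obtain ⟨t, ht⟩ := hjb.exists
    exact const_nonneg ht
  have hN : 0 ≤ N := by
    obtain ⟨t, ht⟩ := hIb.exists
    exact (abs_nonneg _).trans (ht 0)
  have hK : 0 ≤ K := by
    obtain ⟨t, ht, hs⟩ := (hj0.and small).exists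
    by_contra hcon
    push Not at hcon
    have := (abs_nonneg _).trans ht
    linarith [mul_neg_of_neg_of_pos hcon hs.1]
  have hK' : 0 ≤ K' := by
    obtain ⟨t, ht, h4⟩ := (hI0.and small).exists
    by_contra hcon
    push Not at hcon
    have := (abs_nonneg _).trans ht
    have h5 := log_inv_nonneg h4.1 h4.2.1
    have h6 : 0 < t ^ 3 * (1 + Real.log (1 / t)) := by
      have := h4.1
      positivity
    linarith [mul_neg_of_neg_of_pos hcon h6]
  set J0 : ℕ → ℝ := fun k => j00 - ∑ l ∈ Finset.range k, a0 l * I00 with hJ0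
  set B0 : ℕ → ℝ := fun k => ∑ l ∈ Finset.range k, b0 l * J0 l with hB0
  -- constants
  set K1 := K' + |I01| + |I02| + 2 * Cb * J with hK1
  set K2 := Ca * N + Ca * K1 with hK2
  set K3 := K + K2 with hK3
  set K4 := Cb * J + Cb * K3 with hK4
  set K5 := |j00| + Ca * |I00| with hK5
  have hK10 : 0 ≤ K1 := by positivity
  have hK20 : 0 ≤ K2 := by positivity
  have hK30 : 0 ≤ K3 := by positivity
  have hK40 : 0 ≤ K4 := by positivity
  have hK50 : 0 ≤ K5 := by positivity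
  have bJ0 : ∀ k, |J0 k| ≤ K5 * xb k := by
    intro k
    have h1 : |∑ l ∈ Finset.range k, a0 l * I00| ≤ (Ca * |I00|) * xb k := by
      refine abs_sum_le_card (by positivity) k fun l _ => ?_
      rw [abs_mul]
      exact mul_le_mul_of_nonneg_right (ha0 l) (abs_nonneg _)
    have h2 := abs_sub j00 (∑ l ∈ Finset.range k, a0 l * I00)
    have h3 : |j00| * 1 ≤ |j00| * xb k := mul_le_mul_of_nonneg_left (one_le_xb k) (abs_nonneg _)
    rw [hK5]
    simp only [hJ0]
    linarith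
  have bB0 : ∀ k, |B0 k| ≤ (Cb * K5) * xb k ^ 2 := by
    intro k
    have hx := xb_pos k
    have h1 : |B0 k| ≤ (Cb * K5 * xb k) * xb k := by
      refine abs_sum_le_card (by positivity) k fun l hl => ?_
      rw [abs_mul]
      calc |b0 l| * |J0 l| ≤ Cb * (K5 * xb l) := mul_le_mul (hb0 l) (bJ0 l) (abs_nonneg _) hCb
        _ ≤ Cb * (K5 * xb k) := by
            have := xb_mono hl.le
            gcongr
        _ = _ := by ring
    calc |B0 k| ≤ (Cb * K5 * xb k) * xb k := h1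
      _ = _ := by ring
  refine ⟨fun _ => I00, fun _ => I01, fun k => I02 + B0 k, fun _ => 0, fun _ => 0,
    |I00| + |I01| + |I02| + Cb * K5 + K' + K4, by positivity, ?_, ?_, ?_, ?_, ?_, ?_⟩
  · intro k
    rw [mon_zero, Pi.one_apply]
    have : 0 ≤ |I01| + |I02| + Cb * K5 + K' + K4 := by positivity
    linarith
  · intro k
    rw [zero_add, mon_one]
    have h1 : 0 ≤ |I00| + |I02| + Cb * K5 + K' + K4 := by positivity
    have h2 := one_le_xb k
    have h3 := abs_nonneg I01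
    linarith [mul_le_mul_of_nonneg_left h2 h3, mul_nonneg h1 (xb_pos k).le]
  · intro k
    rw [zero_add, show (2 : ℝ) = ((2 : ℕ) : ℝ) by norm_num, mon_nat]
    have h1 := abs_add_le I02 (B0 k)
    have h2 := bB0 k
    have h3 : 1 ≤ xb k ^ 2 := one_le_pow₀ (one_le_xb k)
    have h4 : |I02| * 1 ≤ |I02| * xb k ^ 2 := mul_le_mul_of_nonneg_left h3 (abs_nonneg _)
    have h5 : 0 ≤ (|I00| + |I01| + K' + K4) * xb k ^ 2 := by positivity
    linarith
  · intro k
    rw [abs_zero]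
    have := mon_pos (0 + 2) k
    positivity
  · intro k
    rw [abs_zero]
    have := mon_pos (0 + 2) k
    positivity
  filter_upwards [ha, hb, hj, hI, hjb, hIb, hj0, hI0, small] with t ha hb hj hI hjb hIb hj0 hI0 hs k hk
  obtain ⟨t0, t1, t2⟩ := hs
  have hL := log_inv_nonneg t0 t1
  have hx := xb_pos k
  have hjn : ∀ n, |j n t| ≤ J := fun n => (hjb n).trans (by
    have := mul_le_mul_of_nonneg_left (hle (show (-(4 / 3) : ℝ) ≤ 0 by norm_num) n) hJ
    linarith)
  have htxl : ∀ l, l ≤ k → t * xb l ≤ 1 := by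
    intro l hl
    have hxl := xb_pos l
    have hsm := reg_small t0 t1 t2 (reg_mono t0 hl hk)
    have : t * xb l * 1 ≤ t * xb l * (1 + Real.log (1 / t)) :=
      mul_le_mul_of_nonneg_left (by linarith) (by positivity)
    linarith
  have hjsum : ∀ n, j n t = j 0 t - ∑ l ∈ Finset.range n, a l t * I l t := by
    intro n
    induction n with
    | zero => simp
    | succ n ih => rw [hj, ih, Finset.sum_range_succ]; ring
  have hIsum : ∀ n, I n t = I 0 t + t ^ 2 * ∑ l ∈ Finset.range n, b l t * j l t := by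
    intro n
    induction n with
    | zero => simp
    | succ n ih => rw [hI, ih, Finset.sum_range_succ]; ring
  have hΛt : t ^ 2 * (1 + Real.log (1 / t)) ≤ 1 := by
    have h1 : t * (1 + Real.log (1 / t)) ≤ 1 := by
      refine le_trans ?_ t2
      have : (1 + Real.log (1 / t)) ^ 1 ≤ (1 + Real.log (1 / t)) ^ 5 :=
        pow_le_pow_right₀ (by linarith) (by norm_num)
      rw [pow_one] at this
      exact mul_le_mul_of_nonneg_left this t0.le
    have : t ^ 2 * (1 + Real.log (1 / t)) = t * (t * (1 + Real.log (1 / t))) := by ring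
    rw [this]
    exact mul_le_one₀ t1.le (by positivity) h1
  -- step 1
  have s1 : ∀ l, l ≤ k → |I l t - I00| ≤ K1 * t := by
    intro l hl
    have hxl := xb_pos l
    have h1 : |∑ i ∈ Finset.range l, b i t * j i t| ≤ (2 * Cb * J) * xb l := by
      refine abs_sum_le_card (by positivity) l fun i hi => ?_
      rw [abs_mul]
      have hbi : |b i t| ≤ 2 * Cb := by
        have q1 := hb i (reg_mono t0 (hi.le.trans hl) hk)
        have q2 := hb0 i
        have q3 := abs_add_le (b i t - b0 i) (b0 i)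
        rw [sub_add_cancel] at q3
        have q4 : Cb * t ≤ Cb * 1 := mul_le_mul_of_nonneg_left t1.le hCb
        linarith
      exact mul_le_mul hbi (hjn i) (abs_nonneg _) (by positivity)
    have h2 : |t ^ 2 * ∑ i ∈ Finset.range l, b i t * j i t| ≤ (2 * Cb * J) * t := by
      rw [abs_mul, abs_of_pos (by positivity : (0 : ℝ) < t ^ 2)]
      calc t ^ 2 * |∑ i ∈ Finset.range l, b i t * j i t| ≤ t ^ 2 * ((2 * Cb * J) * xb l) :=
            mul_le_mul_of_nonneg_left h1 (by positivity)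
        _ = ((2 * Cb * J) * t) * (t * xb l) := by ring
        _ ≤ ((2 * Cb * J) * t) * 1 := mul_le_mul_of_nonneg_left (htxl l hl) (by positivity)
        _ = _ := by ring
    have h3 : |I 0 t - I00| ≤ (K' + |I01| + |I02|) * t := by
      have q1 : I 0 t - I00 = (I 0 t - (I00 + I01 * t + I02 * t ^ 2)) + I01 * t + I02 * t ^ 2 := by
        ring
      rw [q1]
      have q2 := abs_add_le ((I 0 t - (I00 + I01 * t + I02 * t ^ 2)) + I01 * t) (I02 * t ^ 2)
      have q3 := abs_add_le (I 0 t - (I00 + I01 * t + I02 * t ^ 2)) (I01 * t)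
      rw [abs_mul I01, abs_of_pos t0] at q3
      rw [abs_mul I02, abs_of_pos (by positivity : (0 : ℝ) < t ^ 2)] at q2
      have q4 : K' * (t ^ 3 * (1 + Real.log (1 / t))) ≤ K' * t := by
        calc K' * (t ^ 3 * (1 + Real.log (1 / t))) = (K' * t) * (t ^ 2 * (1 + Real.log (1 / t))) := by
              ring
          _ ≤ (K' * t) * 1 := mul_le_mul_of_nonneg_left hΛt (by positivity)
          _ = _ := by ring
      have q5 : |I02| * t ^ 2 ≤ |I02| * t := by
        have : t ^ 2 ≤ t := by linarith [mul_le_mul_of_nonneg_left t1.le t0.le]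
        exact mul_le_mul_of_nonneg_left this (abs_nonneg _)
      linarith
    rw [hIsum l]
    have q6 : I 0 t + t ^ 2 * ∑ i ∈ Finset.range l, b i t * j i t - I00
        = (I 0 t - I00) + t ^ 2 * ∑ i ∈ Finset.range l, b i t * j i t := by ring
    rw [q6]
    have q7 := abs_add_le (I 0 t - I00) (t ^ 2 * ∑ i ∈ Finset.range l, b i t * j i t)
    rw [hK1]
    linarith
  -- step 2
  have s2 : ∀ l, l ≤ k → |a l t * I l t - a0 l * I00| ≤ K2 * t := by
    intro l hl
    have q1 := ha l (reg_mono t0 hl hk)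
    have q2 := s1 l hl
    have q3 : a l t * I l t - a0 l * I00 = (a l t - a0 l) * I l t + a0 l * (I l t - I00) := by ring
    rw [q3]
    have q4 := abs_add_le ((a l t - a0 l) * I l t) (a0 l * (I l t - I00))
    rw [abs_mul, abs_mul] at q4
    have q5 : |a l t - a0 l| * |I l t| ≤ (Ca * t) * N :=
      mul_le_mul q1 (hIb l) (abs_nonneg _) (by positivity)
    have q6 : |a0 l| * |I l t - I00| ≤ Ca * (K1 * t) :=
      mul_le_mul (ha0 l) q2 (abs_nonneg _) hCa
    rw [hK2]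
    linarith
  -- step 3
  have s3 : ∀ l, l ≤ k → |j l t - J0 l| ≤ K3 * (t * xb l) := by
    intro l hl
    have hxl := xb_pos l
    have q1 : j l t - J0 l = (j 0 t - j00)
        - ∑ i ∈ Finset.range l, (a i t * I i t - a0 i * I00) := by
      rw [hjsum l, Finset.sum_sub_distrib]
      simp only [hJ0]
      ring
    have q2 : |∑ i ∈ Finset.range l, (a i t * I i t - a0 i * I00)| ≤ (K2 * t) * xb l :=
      abs_sum_le_card (by positivity) l fun i hi => s2 i (hi.le.trans hl)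
    rw [q1]
    have q3 := abs_sub (j 0 t - j00) (∑ i ∈ Finset.range l, (a i t * I i t - a0 i * I00))
    have q4 : (K * t) * 1 ≤ (K * t) * xb l :=
      mul_le_mul_of_nonneg_left (one_le_xb l) (by positivity)
    rw [hK3]
    linarith
  -- step 4
  have s4 : ∀ l, l ≤ k → |b l t * j l t - b0 l * J0 l| ≤ K4 * (t * xb k) := by
    intro l hl
    have hxl := xb_pos l
    have q1 := hb l (reg_mono t0 hl hk)
    have q2 := s3 l hl
    have q3 : b l t * j l t - b0 l * J0 l = (b l t - b0 l) * j l t + b0 l * (j l t - J0 l) := by ring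
    rw [q3]
    have q4 := abs_add_le ((b l t - b0 l) * j l t) (b0 l * (j l t - J0 l))
    rw [abs_mul, abs_mul] at q4
    have q5 : |b l t - b0 l| * |j l t| ≤ (Cb * t) * J :=
      mul_le_mul q1 (hjn l) (abs_nonneg _) (by positivity)
    have q6 : |b0 l| * |j l t - J0 l| ≤ Cb * (K3 * (t * xb l)) :=
      mul_le_mul (hb0 l) q2 (abs_nonneg _) hCb
    have q7 : Cb * (K3 * (t * xb l)) ≤ Cb * (K3 * (t * xb k)) := by
      have := xb_mono hl
      gcongr
    have q8 : (Cb * t) * J * 1 ≤ (Cb * t) * J * xb k :=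
      mul_le_mul_of_nonneg_left (one_le_xb k) (by positivity)
    have q9 : K4 * (t * xb k) = (Cb * t) * J * xb k + Cb * (K3 * (t * xb k)) := by
      rw [hK4]; ring
    linarith
  -- step 5
  have s5 : |∑ l ∈ Finset.range k, (b l t * j l t - b0 l * J0 l)| ≤ (K4 * (t * xb k)) * xb k :=
    abs_sum_le_card (by positivity) k fun l hl => s4 l hl.le
  have e1 : I k t - (I00 + t * I01 + t ^ 2 * (I02 + B0 k + 0 * Real.log (1 / t) + 0 * μ t))
      = (I 0 t - (I00 + I01 * t + I02 * t ^ 2))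
        + t ^ 2 * ∑ l ∈ Finset.range k, (b l t * j l t - b0 l * J0 l) := by
    rw [hIsum k, Finset.sum_sub_distrib]
    simp only [hB0]
    ring
  rw [e1, zero_add, show (3 : ℝ) = ((3 : ℕ) : ℝ) by norm_num, mon_nat]
  have a1 := abs_add_le (I 0 t - (I00 + I01 * t + I02 * t ^ 2))
    (t ^ 2 * ∑ l ∈ Finset.range k, (b l t * j l t - b0 l * J0 l))
  have a2 : |t ^ 2 * ∑ l ∈ Finset.range k, (b l t * j l t - b0 l * J0 l)|
      ≤ K4 * (t ^ 3 * (1 + Real.log (1 / t)) * xb k ^ 3) := by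
    rw [abs_mul, abs_of_pos (by positivity : (0 : ℝ) < t ^ 2)]
    calc t ^ 2 * |∑ l ∈ Finset.range k, (b l t * j l t - b0 l * J0 l)|
        ≤ t ^ 2 * ((K4 * (t * xb k)) * xb k) := mul_le_mul_of_nonneg_left s5 (by positivity)
      _ = K4 * (t ^ 3 * 1 * xb k ^ 2) := by ring
      _ ≤ K4 * (t ^ 3 * (1 + Real.log (1 / t)) * xb k ^ 3) := by
          have q1 : xb k ^ 2 ≤ xb k ^ 3 := pow_le_pow_right₀ (one_le_xb k) (by norm_num)
          gcongr
          linarith
  have a3 : K' * (t ^ 3 * (1 + Real.log (1 / t)) * 1)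
      ≤ K' * (t ^ 3 * (1 + Real.log (1 / t)) * xb k ^ 3) := by
    have q1 : 1 ≤ xb k ^ 3 := one_le_pow₀ (one_le_xb k)
    gcongr
  have a4 : 0 ≤ (|I00| + |I01| + |I02| + Cb * K5) * (t ^ 3 * (1 + Real.log (1 / t)) * xb k ^ 3) := by
    positivity
  linarith

lemma isBigO_bound {f g : ℝ → ℝ} (h : f =O[𝓝[>] 0] g) (hg : ∀ᶠ t in 𝓝[>] 0, 0 ≤ g t) :
    ∃ C, 0 ≤ C ∧ ∀ᶠ t in 𝓝[>] 0, |f t| ≤ C * g t := by
  obtain ⟨C, hC, hb⟩ := h.exists_nonneg
  refine ⟨C, hC, ?_⟩
  filter_upwards [hb.bound, hg] with t h1 h2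
  rwa [Real.norm_eq_abs, Real.norm_of_nonneg h2] at h1

lemma summable_mon {ρ : ℝ} (h : ρ < -1) : Summable (mon ρ) :=
  summable_of_isBigO_mon h (isBigO_refl _ _)

lemma summable_of_le {f : ℕ → ℝ} {C ρ : ℝ} (h : ρ < -1) (hf : ∀ k, |f k| ≤ C * mon ρ k) :
    Summable f :=
  Summable.of_norm_bounded ((summable_mon h).mul_left C) (by simpa [Real.norm_eq_abs] using hf)

/-- summation of a sequence in the class `-5` -/
lemma Ex.tsum {μ : ℝ → ℝ} {M : ℝ} (hμ : ∀ᶠ t in 𝓝[>] 0, |μ t| ≤ M) {F : ℕ → ℝ → ℝ}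
    (hF : Ex μ (-5) F) (hFb : ∃ B, ∀ᶠ t in 𝓝[>] 0, ∀ k, |F k t| ≤ B * mon (-5) k) :
    ∃ p0 p1 p2 pL pμ K : ℝ, ∀ᶠ t in 𝓝[>] 0, |(∑' k, F k t) - (p0 + p1 * t + t ^ 2 * (p2
      + pL * Real.log (1 / t) + pμ * μ t))| ≤ K * (t ^ 3 * (1 + Real.log (1 / t))) := by
  obtain ⟨F0, F1, F2, FL, Fm, C, hC, h0, h1, h2, hL, hm, hF⟩ := hF
  obtain ⟨B, hFb⟩ := hFb
  have hB : 0 ≤ B := by
    obtain ⟨t, ht⟩ := hFb.exists
    exact const_nonneg ht
  have hM : 0 ≤ M := by
    obtain ⟨t, ht⟩ := hμ.exists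
    exact (abs_nonneg _).trans ht
  have en1 : (-5 + 1 : ℝ) = -4 := by norm_num
  have en2 : (-5 + 2 : ℝ) = -3 := by norm_num
  have en3 : (-5 + 3 : ℝ) = -2 := by norm_num
  rw [en1] at h1
  rw [en2] at h2 hL hm
  simp only [en3] at hF
  have s0 := summable_of_le (by norm_num) h0
  have s1 := summable_of_le (by norm_num) h1
  have s2 := summable_of_le (by norm_num) h2
  have sL := summable_of_le (by norm_num) hL
  have sm := summable_of_le (by norm_num) hm
  set Q := B + 2 * C + C * (1 + M) with hQ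
  have hQ0 : 0 ≤ Q := by positivity
  refine ⟨∑' k, F0 k, ∑' k, F1 k, ∑' k, F2 k, ∑' k, FL k, ∑' k, Fm k,
    Q * ∑' k, mon (-(5 / 4)) k, ?_⟩
  filter_upwards [hF, hFb, hμ, small] with t hF hFb hμ hs
  obtain ⟨t0, t1, t2⟩ := hs
  have hLn := log_inv_nonneg t0 t1
  have sF : Summable (fun k => F k t) := summable_of_le (by norm_num) hFb
  have key : ∀ k, |F k t - (F0 k + F1 k * t + t ^ 2 * (F2 k + FL k * Real.log (1 / t)
      + Fm k * μ t))| ≤ (Q * (t ^ 3 * (1 + Real.log (1 / t)))) * mon (-(5 / 4)) k := by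
    intro k
    set W := mon (-(5 / 4)) k with hW
    have hW0 : 0 < W := mon_pos _ _
    have hW1 : W ≤ 1 := Real.rpow_le_one_of_one_le_of_nonpos (one_le_xb k) (by norm_num)
    by_cases hk : t ^ 4 * xb k ^ 5 ≤ 1
    · have q1 := hF k hk
      have q2 : mon (-2) k ≤ W := mon_le (by norm_num) k
      have q3 : C * (t ^ 3 * (1 + Real.log (1 / t)) * mon (-2) k)
          ≤ Q * (t ^ 3 * (1 + Real.log (1 / t))) * W := by
        calc C * (t ^ 3 * (1 + Real.log (1 / t)) * mon (-2) k)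
            ≤ C * (t ^ 3 * (1 + Real.log (1 / t)) * W) := by gcongr
          _ = C * (t ^ 3 * (1 + Real.log (1 / t))) * W := by ring
          _ ≤ Q * (t ^ 3 * (1 + Real.log (1 / t))) * W := by
              gcongr
              rw [hQ]
              have : 0 ≤ C * (1 + M) := by positivity
              linarith
      refine le_trans (le_of_eq ?_) (q1.trans q3)
      congr 1
      ring
    · push Not at hk
      have hWt : W < t := by
        have q1 : W ^ 4 * xb k ^ 5 = 1 := bdry_eq k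
        have hx := xb_pos k
        have q2 : W ^ 4 < t ^ 4 := by
          rw [← q1] at hk
          exact lt_of_mul_lt_mul_right hk (by positivity)
        exact lt_of_pow_lt_pow_left₀ 4 t0.le q2
      have m5 : mon (-5) k = W ^ 4 := by
        have : W ^ 4 = W * W * W * W := by ring
        rw [this, hW, mon_mul_apply, mon_mul_apply, mon_mul_apply]; norm_num
      have m4 : mon (-4) k ≤ W ^ 3 := by
        have : W ^ 3 = W * W * W := by ring
        rw [this, hW, mon_mul_apply, mon_mul_apply]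
        exact mon_le (by norm_num) k
      have m3 : mon (-3) k ≤ W ^ 2 := by
        have : W ^ 2 = W * W := by ring
        rw [this, hW, mon_mul_apply]
        exact mon_le (by norm_num) k
      have w3 : W ^ 3 ≤ t ^ 3 := by gcongr
      have w2 : W ^ 2 ≤ t ^ 2 := by gcongr
      have w1 : W ≤ t := hWt.le
      have b0 : |F k t| ≤ B * (t ^ 3 * W) := by
        calc |F k t| ≤ B * mon (-5) k := hFb k
          _ = B * (W ^ 3 * W) := by rw [m5]; ring
          _ ≤ _ := by gcongr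
      have b1 : |F0 k| ≤ C * (t ^ 3 * W) := by
        calc |F0 k| ≤ C * mon (-5) k := h0 k
          _ = C * (W ^ 3 * W) := by rw [m5]; ring
          _ ≤ _ := by gcongr
      have b2 : |F1 k * t| ≤ C * (t ^ 3 * W) := by
        rw [abs_mul, abs_of_pos t0]
        calc |F1 k| * t ≤ (C * W ^ 3) * t := by
              refine mul_le_mul_of_nonneg_right ((h1 k).trans ?_) t0.le
              exact mul_le_mul_of_nonneg_left m4 hC
          _ = C * ((W ^ 2 * t) * W) := by ring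
          _ ≤ C * ((t ^ 2 * t) * W) := by gcongr
          _ = _ := by ring
      have hu := u_bound hLn hμ hM hC (mon_pos (-3) k).le (h2 k) (hL k) (hm k)
      have b3 : |t ^ 2 * (F2 k + FL k * Real.log (1 / t) + Fm k * μ t)|
          ≤ (C * (1 + M)) * (t ^ 3 * (1 + Real.log (1 / t)) * W) := by
        rw [abs_mul, abs_of_pos (by positivity : (0 : ℝ) < t ^ 2)]
        calc t ^ 2 * |F2 k + FL k * Real.log (1 / t) + Fm k * μ t|
            ≤ t ^ 2 * ((C * (1 + M)) * ((1 + Real.log (1 / t)) * mon (-3) k)) :=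
              mul_le_mul_of_nonneg_left hu (by positivity)
          _ ≤ t ^ 2 * ((C * (1 + M)) * ((1 + Real.log (1 / t)) * W ^ 2)) := by gcongr
          _ = (C * (1 + M)) * (t ^ 2 * (1 + Real.log (1 / t)) * (W * W)) := by ring
          _ ≤ (C * (1 + M)) * (t ^ 2 * (1 + Real.log (1 / t)) * (t * W)) := by gcongr
          _ = _ := by ring
      have b4 : (B + 2 * C) * (t ^ 3 * W) ≤ (B + 2 * C) * (t ^ 3 * (1 + Real.log (1 / t)) * W) := by
        have : t ^ 3 * W = t ^ 3 * 1 * W := by ring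
        rw [this]
        gcongr
        linarith
      have a1 := abs_sub (F k t) (F0 k + F1 k * t + t ^ 2 * (F2 k + FL k * Real.log (1 / t)
        + Fm k * μ t))
      have a2 := abs_add_le (F0 k + F1 k * t) (t ^ 2 * (F2 k + FL k * Real.log (1 / t)
        + Fm k * μ t))
      have a3 := abs_add_le (F0 k) (F1 k * t)
      have e : Q * (t ^ 3 * (1 + Real.log (1 / t))) * W
          = (B + 2 * C) * (t ^ 3 * (1 + Real.log (1 / t)) * W)
            + (C * (1 + M)) * (t ^ 3 * (1 + Real.log (1 / t)) * W) := by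
        rw [hQ]; ring
      rw [e]
      linarith
  have hsum : (∑' k, F k t) - ((∑' k, F0 k) + (∑' k, F1 k) * t + t ^ 2 * ((∑' k, F2 k)
      + (∑' k, FL k) * Real.log (1 / t) + (∑' k, Fm k) * μ t))
      = ∑' k, (F k t - (F0 k + F1 k * t + t ^ 2 * (F2 k + FL k * Real.log (1 / t)
      + Fm k * μ t))) := by
    have H := (sF.hasSum.sub (((s0.hasSum.add (s1.hasSum.mul_right t)).add
      (((s2.hasSum.add (sL.hasSum.mul_right (Real.log (1 / t)))).add
        (sm.hasSum.mul_right (μ t))).mul_left (t ^ 2)))))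
    exact H.tsum_eq.symm
  rw [hsum]
  have hbsum : Summable (fun k => (Q * (t ^ 3 * (1 + Real.log (1 / t)))) * mon (-(5 / 4)) k) :=
    (summable_mon (by norm_num)).mul_left _
  have hfin := tsum_of_norm_bounded hbsum.hasSum
    (f := fun k => F k t - (F0 k + F1 k * t + t ^ 2 * (F2 k + FL k * Real.log (1 / t)
      + Fm k * μ t))) (fun k => by rw [Real.norm_eq_abs]; exact key k)
  rw [Real.norm_eq_abs, tsum_mul_left] at hfin
  refine hfin.trans (le_of_eq ?_)
  ring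

end Boot

open Boot in
theorem boot {a b j I α : ℕ → ℝ → ℝ} {μ : ℝ → ℝ}
    (ha : Tay3 (-(7 / 3)) a) (hb : Tay3 (-(7 / 3)) b)
    (hj : ∀ᶠ t in 𝓝[>] 0, ∀ k, j (k + 1) t = j k t - a k t * I k t)
    (hI : ∀ᶠ t in 𝓝[>] 0, ∀ k, I (k + 1) t = I k t + t ^ 2 * (b k t * j k t))
    (hα : ∀ᶠ t in 𝓝[>] 0, ∀ k, α (k + 1) t = α k t - a k t)
    (hjb : ∃ C, ∀ᶠ t in 𝓝[>] 0, ∀ k, |j k t| ≤ C * mon (-(4 / 3)) k)
    (hαb : ∃ C, ∀ᶠ t in 𝓝[>] 0, ∀ k, |α k t| ≤ C * mon (-(4 / 3)) k)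
    (hIb : ∃ C, ∀ᶠ t in 𝓝[>] 0, ∀ k, |I k t| ≤ C)
    (hbjα : ∃ C, ∀ᶠ t in 𝓝[>] 0, ∀ k, |b k t * j k t * α (k + 1) t| ≤ C * mon (-5) k)
    (hμ : ∀ᶠ t in 𝓝[>] 0, μ t = ∑' k, b k t * j k t * α (k + 1) t)
    (hj0 : ∀ᶠ t in 𝓝[>] 0, j 0 t = I 0 t * α 0 t + t ^ 2 * μ t)
    {j00 j01 j02 jL I00 I01 I02 : ℝ} (hI00 : I00 ≠ 0)
    (hjx : (fun t => j 0 t - (j00 + j01 * t + j02 * t ^ 2 + jL * (t ^ 2 * Real.log (1 / t))))
      =O[𝓝[>] 0] (fun t : ℝ => t ^ 3 * (1 + Real.log (1 / t))))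
    (hIx : (fun t => I 0 t - (I00 + I01 * t + I02 * t ^ 2))
      =O[𝓝[>] 0] (fun t : ℝ => t ^ 3 * (1 + Real.log (1 / t)))) :
    ∃ p0 p1 p2 pL pμ : ℝ, (fun t => μ t - (p0 + p1 * t + t ^ 2 * (p2 + pL * Real.log (1 / t)
      + pμ * μ t))) =O[𝓝[>] 0] (fun t : ℝ => t ^ 3 * (1 + Real.log (1 / t))) := by
  have hg0 : ∀ᶠ t : ℝ in 𝓝[>] 0, 0 ≤ t ^ 3 * (1 + Real.log (1 / t)) := by
    filter_upwards [small] with t hs
    have := log_inv_nonneg hs.1 hs.2.1
    have := hs.1
    positivity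
  obtain ⟨Kj, hKj, hjx⟩ := isBigO_bound hjx hg0
  obtain ⟨KI, hKI, hIx⟩ := isBigO_bound hIx hg0
  -- `μ` is bounded
  obtain ⟨B, hbjα⟩ := hbjα
  have hμb : ∀ᶠ t in 𝓝[>] 0, |μ t| ≤ B * ∑' k, mon (-5) k := by
    filter_upwards [hbjα, hμ] with t h1 h2
    have hbsum : Summable (fun k => B * mon (-5) k) := (summable_mon (by norm_num)).mul_left _
    have hfin := tsum_of_norm_bounded hbsum.hasSum
      (f := fun k => b k t * j k t * α (k + 1) t) (fun k => by rw [Real.norm_eq_abs]; exact h1 k)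
    rw [Real.norm_eq_abs, tsum_mul_left, ← h2] at hfin
    exact hfin
  set M := B * ∑' k, mon (-5) k with hMdef
  have hM : 0 ≤ M := by
    obtain ⟨t, ht⟩ := hμb.exists
    exact (abs_nonneg _).trans ht
  have htΛ : ∀ {t : ℝ}, 0 < t → t < 1 → t * (1 + Real.log (1 / t)) ^ 5 ≤ 1 →
      t * (1 + Real.log (1 / t)) ≤ 1 := by
    intro t t0 t1 t2
    have hL := log_inv_nonneg t0 t1
    refine le_trans ?_ t2
    have : (1 + Real.log (1 / t)) ^ 1 ≤ (1 + Real.log (1 / t)) ^ 5 :=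
      pow_le_pow_right₀ (by linarith) (by norm_num)
    rw [pow_one] at this
    exact mul_le_mul_of_nonneg_left this t0.le
  -- `I`
  have hIEx : Ex μ 0 I := by
    refine I_ex μ ha hb hj hI hjb hIb (j00 := j00) ⟨Kj + |j01| + |j02| + |jL|, ?_⟩ ⟨KI, hIx⟩
    filter_upwards [hjx, small] with t h1 hs
    obtain ⟨t0, t1, t2⟩ := hs
    have hL := log_inv_nonneg t0 t1
    have h3 := htΛ t0 t1 t2
    have e : j 0 t - j00 = (j 0 t - (j00 + j01 * t + j02 * t ^ 2 + jL * (t ^ 2 * Real.log (1 / t))))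
        + j01 * t + j02 * t ^ 2 + jL * (t ^ 2 * Real.log (1 / t)) := by ring
    rw [e]
    have a1 := abs_add_le ((j 0 t - (j00 + j01 * t + j02 * t ^ 2
      + jL * (t ^ 2 * Real.log (1 / t)))) + j01 * t + j02 * t ^ 2) (jL * (t ^ 2 * Real.log (1 / t)))
    have a2 := abs_add_le ((j 0 t - (j00 + j01 * t + j02 * t ^ 2
      + jL * (t ^ 2 * Real.log (1 / t)))) + j01 * t) (j02 * t ^ 2)
    have a3 := abs_add_le (j 0 t - (j00 + j01 * t + j02 * t ^ 2
      + jL * (t ^ 2 * Real.log (1 / t)))) (j01 * t)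
    have b1 : |j01 * t| = |j01| * t := by rw [abs_mul, abs_of_pos t0]
    have b2 : |j02 * t ^ 2| ≤ |j02| * t := by
      rw [abs_mul, abs_of_pos (by positivity : (0 : ℝ) < t ^ 2)]
      exact mul_le_mul_of_nonneg_left (by linarith [mul_le_mul_of_nonneg_left t1.le t0.le]) (abs_nonneg _)
    have b3 : |jL * (t ^ 2 * Real.log (1 / t))| ≤ |jL| * t := by
      rw [abs_mul, abs_of_nonneg (by positivity : (0 : ℝ) ≤ t ^ 2 * Real.log (1 / t))]
      refine mul_le_mul_of_nonneg_left ?_ (abs_nonneg _)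
      have : t ^ 2 * Real.log (1 / t) = t * (t * Real.log (1 / t)) := by ring
      rw [this]
      have h4 : t * Real.log (1 / t) ≤ 1 := by linarith
      linarith [mul_le_mul_of_nonneg_left h4 t0.le]
    have b4 : Kj * (t ^ 3 * (1 + Real.log (1 / t))) ≤ Kj * t := by
      refine mul_le_mul_of_nonneg_left ?_ hKj
      have : t ^ 3 * (1 + Real.log (1 / t)) = t * ((t * (1 + Real.log (1 / t))) * t) := by ring
      rw [this]
      have h4 : (t * (1 + Real.log (1 / t))) * t ≤ 1 := mul_le_one₀ h3 t0.le t1.le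
      linarith [mul_le_mul_of_nonneg_left h4 t0.le]
    linarith
  have haEx : Ex μ (-(7 / 3)) a := ha.toEx μ
  have hbEx : Ex μ (-(7 / 3)) b := hb.toEx μ
  have haI : Ex μ (-(7 / 3)) (fun k t => a k t * I k t) := by
    have := haEx.mul hμb hIEx
    simpa using this
  have hjEx : Ex μ (-(4 / 3)) j := by
    refine Ex.of_rec hμb haI hj hjb (g0 := j00) (g1 := j01) (g2 := j02) (gL := jL) (gm := 0)
      ⟨Kj, ?_⟩
    filter_upwards [hjx] with t h1
    refine le_trans (le_of_eq ?_) h1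
    congr 1
    ring
  have hαEx : Ex μ (-(4 / 3)) α := by
    set A0 := j00 / I00 with hA0
    set A1 := (j01 - A0 * I01) / I00 with hA1
    set A2 := (j02 - A1 * I01 - A0 * I02) / I00 with hA2
    set AL := jL / I00 with hAL
    set Am := -1 / I00 with hAm
    have r0 : I00 * A0 = j00 := by rw [hA0]; field_simp
    have r1 : I00 * A1 = j01 - A0 * I01 := by rw [hA1]; field_simp
    have r2 : I00 * A2 = j02 - A1 * I01 - A0 * I02 := by rw [hA2]; field_simp
    have r3 : I00 * AL = jL := by rw [hAL]; field_simp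
    have r4 : I00 * Am = -1 := by rw [hAm]; field_simp
    set U := (|A2| + |AL| + |Am|) * (1 + M) with hU
    have hU0 : 0 ≤ U := by positivity
    set KK := Kj + KI * (|A0| + |A1| + U) + (|I01| * U + |I02| * |A1|) + |I02| * U with hKK
    have hKK0 : 0 ≤ KK := by positivity
    refine Ex.of_rec hμb haEx hα hαb (g0 := A0) (g1 := A1) (g2 := A2) (gL := AL) (gm := Am)
      ⟨2 / |I00| * KK, ?_⟩
    have hI0lim : ∀ᶠ t in 𝓝[>] 0, |I00| / 2 ≤ |I 0 t| := by
      have hpos : 0 < |I00| := abs_pos.mpr hI00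
      have h1 : Tendsto (fun t : ℝ => (KI + |I01| + |I02|) * t) (𝓝[>] 0)
          (𝓝 ((KI + |I01| + |I02|) * 0)) := tendsto_id_nhdsGT.const_mul _
      rw [mul_zero] at h1
      filter_upwards [hIx, small, h1.eventually (gt_mem_nhds (half_pos hpos))] with t h1 hs h2
      obtain ⟨t0, t1, t2⟩ := hs
      have hL := log_inv_nonneg t0 t1
      have h3 := htΛ t0 t1 t2
      have e : I00 = I 0 t - (I 0 t - (I00 + I01 * t + I02 * t ^ 2)) - I01 * t - I02 * t ^ 2 := by
        ring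
      have a1 := abs_sub (I 0 t - (I 0 t - (I00 + I01 * t + I02 * t ^ 2)) - I01 * t) (I02 * t ^ 2)
      have a2 := abs_sub (I 0 t - (I 0 t - (I00 + I01 * t + I02 * t ^ 2))) (I01 * t)
      have a3 := abs_sub (I 0 t) (I 0 t - (I00 + I01 * t + I02 * t ^ 2))
      rw [← e] at a1
      have b1 : |I01 * t| = |I01| * t := by rw [abs_mul, abs_of_pos t0]
      have b2 : |I02 * t ^ 2| ≤ |I02| * t := by
        rw [abs_mul, abs_of_pos (by positivity : (0 : ℝ) < t ^ 2)]
        exact mul_le_mul_of_nonneg_left (by linarith [mul_le_mul_of_nonneg_left t1.le t0.le]) (abs_nonneg _)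
      have b4 : KI * (t ^ 3 * (1 + Real.log (1 / t))) ≤ KI * t := by
        refine mul_le_mul_of_nonneg_left ?_ hKI
        have : t ^ 3 * (1 + Real.log (1 / t)) = t * ((t * (1 + Real.log (1 / t))) * t) := by ring
        rw [this]
        have h4 : (t * (1 + Real.log (1 / t))) * t ≤ 1 := mul_le_one₀ h3 t0.le t1.le
        linarith [mul_le_mul_of_nonneg_left h4 t0.le]
      linarith
    filter_upwards [hjx, hIx, hj0, hμb, hI0lim, small] with t hjx hIx hj0 hμb hIl hs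
    obtain ⟨t0, t1, t2⟩ := hs
    have hL := log_inv_nonneg t0 t1
    have h3 := htΛ t0 t1 t2
    set L := Real.log (1 / t) with hLdef
    set u := A2 + AL * L + Am * μ t with hu
    set P := t ^ 3 * (1 + L) with hP
    have hP0 : 0 ≤ P := by positivity
    have hub : |u| ≤ U * (1 + L) := by
      have h := u_bound (Y := 1) (C := |A2| + |AL| + |Am|) (a := A2) (b := AL) (c := Am)
        hL hμb hM (by positivity) zero_le_one
        (by linarith [abs_nonneg AL, abs_nonneg Am]) (by linarith [abs_nonneg A2, abs_nonneg Am])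
        (by linarith [abs_nonneg A2, abs_nonneg AL])
      rw [mul_one] at h
      exact h
    set ej := j 0 t - (j00 + j01 * t + j02 * t ^ 2 + jL * (t ^ 2 * L)) with hej
    set eI := I 0 t - (I00 + I01 * t + I02 * t ^ 2) with heI
    have e1 : I 0 t * (α 0 t - (A0 + t * A1 + t ^ 2 * u))
        = ej - eI * (A0 + t * A1 + t ^ 2 * u) - t ^ 3 * (I01 * u + I02 * A1)
          - t ^ 4 * (I02 * u) := by
      have q1 : I 0 t * α 0 t = j 0 t - t ^ 2 * μ t := by linarith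
      have q2 : I00 * u = (j02 - A1 * I01 - A0 * I02) + jL * L - μ t := by
        rw [hu]; linear_combination r2 + L * r3 + (μ t) * r4
      rw [mul_sub, q1, hej, heI]
      linear_combination (-1 : ℝ) * r0 - t * r1 - t ^ 2 * q2
    have hAb : |A0 + t * A1 + t ^ 2 * u| ≤ |A0| + |A1| + U := by
      have a1 := abs_add_le (A0 + t * A1) (t ^ 2 * u)
      have a2 := abs_add_le A0 (t * A1)
      have b1 : |t * A1| ≤ |A1| := by
        rw [abs_mul, abs_of_pos t0]
        linarith [mul_le_mul_of_nonneg_right t1.le (abs_nonneg A1)]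
      have b2 : |t ^ 2 * u| ≤ U := by
        rw [abs_mul, abs_of_pos (by positivity : (0 : ℝ) < t ^ 2)]
        calc t ^ 2 * |u| ≤ t ^ 2 * (U * (1 + L)) := mul_le_mul_of_nonneg_left hub (by positivity)
          _ = U * ((t * (1 + L)) * t) := by ring
          _ ≤ U * 1 := mul_le_mul_of_nonneg_left (mul_le_one₀ h3 t0.le t1.le) hU0
          _ = U := mul_one _
      linarith
    have c1 : |eI * (A0 + t * A1 + t ^ 2 * u)| ≤ KI * (|A0| + |A1| + U) * P := by
      rw [abs_mul]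
      calc |eI| * |A0 + t * A1 + t ^ 2 * u| ≤ (KI * P) * (|A0| + |A1| + U) :=
            mul_le_mul hIx hAb (abs_nonneg _) (by positivity)
        _ = _ := by ring
    have c2 : |t ^ 3 * (I01 * u + I02 * A1)| ≤ (|I01| * U + |I02| * |A1|) * P := by
      rw [abs_mul, abs_of_pos (by positivity : (0 : ℝ) < t ^ 3)]
      have d1 := abs_add_le (I01 * u) (I02 * A1)
      rw [abs_mul, abs_mul] at d1
      have d2 : |I01| * |u| ≤ |I01| * (U * (1 + L)) := mul_le_mul_of_nonneg_left hub (abs_nonneg _)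
      have d3 : |I02| * |A1| * 1 ≤ |I02| * |A1| * (1 + L) :=
        mul_le_mul_of_nonneg_left (by linarith) (by positivity)
      calc t ^ 3 * |I01 * u + I02 * A1| ≤ t ^ 3 * ((|I01| * U + |I02| * |A1|) * (1 + L)) := by
            refine mul_le_mul_of_nonneg_left ?_ (by positivity)
            linarith
        _ = _ := by rw [hP]; ring
    have c3 : |t ^ 4 * (I02 * u)| ≤ |I02| * U * P := by
      rw [abs_mul, abs_of_pos (by positivity : (0 : ℝ) < t ^ 4), abs_mul]
      calc t ^ 4 * (|I02| * |u|) ≤ t ^ 4 * (|I02| * (U * (1 + L))) := by gcongr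
        _ = (|I02| * U * P) * t := by rw [hP]; ring
        _ ≤ (|I02| * U * P) * 1 := mul_le_mul_of_nonneg_left t1.le (by positivity)
        _ = _ := mul_one _
    have d1 := abs_sub (ej - eI * (A0 + t * A1 + t ^ 2 * u) - t ^ 3 * (I01 * u + I02 * A1))
      (t ^ 4 * (I02 * u))
    have d2 := abs_sub (ej - eI * (A0 + t * A1 + t ^ 2 * u)) (t ^ 3 * (I01 * u + I02 * A1))
    have d3 := abs_sub ej (eI * (A0 + t * A1 + t ^ 2 * u))
    rw [← e1, abs_mul] at d1
    have d4 : |I 0 t| * |α 0 t - (A0 + t * A1 + t ^ 2 * u)| ≤ KK * P := by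
      have : KK * P = Kj * P + KI * (|A0| + |A1| + U) * P + (|I01| * U + |I02| * |A1|) * P
          + |I02| * U * P := by rw [hKK]; ring
      linarith
    have hpos : 0 < |I00| := abs_pos.mpr hI00
    have d5 : |I00| / 2 * |α 0 t - (A0 + t * A1 + t ^ 2 * u)| ≤ KK * P :=
      (mul_le_mul_of_nonneg_right hIl (abs_nonneg _)).trans d4
    calc |α 0 t - (A0 + t * A1 + t ^ 2 * u)|
        = 2 / |I00| * (|I00| / 2 * |α 0 t - (A0 + t * A1 + t ^ 2 * u)|) := by
          field_simp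
      _ ≤ 2 / |I00| * (KK * P) := mul_le_mul_of_nonneg_left d5 (by positivity)
      _ = _ := by ring
  -- product
  have hprod : Ex μ (-5) (fun k t => b k t * j k t * (α k t - a k t)) := by
    have h1 := (hbEx.mul hμb hjEx).mul hμb (hαEx.sub (haEx.mono (by norm_num)))
    have e : (-(7 / 3) + -(4 / 3) + -(4 / 3) : ℝ) = -5 := by norm_num
    rw [e] at h1
    exact h1
  obtain ⟨p0, p1, p2, pL, pμ, K, hK⟩ := Ex.tsum hμb hprod ⟨B, by
    filter_upwards [hbjα, hα] with t h1 h2 k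
    rw [← h2 k]
    exact h1 k⟩
  refine ⟨p0, p1, p2, pL, pμ, IsBigO.of_bound K ?_⟩
  filter_upwards [hK, hμ, hα, hg0] with t h1 h2 h3 h4
  rw [Real.norm_eq_abs, Real.norm_of_nonneg h4]
  have e : (∑' k, b k t * j k t * (α k t - a k t)) = μ t := by
    rw [h2]
    exact tsum_congr fun k => by rw [h3 k]
  rw [e] at h1
  exact h1

end F526
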