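import Pool.Agent.Lib.MP_f52611_an.TC

open Filter Topology Asymptotics

namespace F526

/-! ### the pure approximants -/

/-- `X_k(t) = ∑_{j<7} t^j x_j(k)` -/
noncomputable def Xo (x : ℕ → ℕ → ℝ) (k : ℕ) (t : ℝ) : ℝ := ∑ j ∈ Finset.range 7, t ^ j * x j k

/-- `P_m(t) = ∏_{i<m} 1/X_i(t)` -/
noncomputable def Po (x : ℕ → ℕ → ℝ) (m : ℕ) (t : ℝ) : ℝ := ∏ i ∈ Finset.range m, (Xo x i t)⁻¹

/-- the defect of the Riccati equation -/
noncomputable def er (x : ℕ → ℕ → ℝ) (δ : ℕ → ℝ) (k : ℕ) (t : ℝ) : ℝ :=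
  Xo x k t - (Xo x (k + 1) t)⁻¹ - t * δ k

/-- `X_k(t) = 1 + t X1_k(t)` -/
noncomputable def X1 (x : ℕ → ℕ → ℝ) (k : ℕ) (t : ℝ) : ℝ :=
  ∑ j ∈ Finset.range 6, t ^ j * x (j + 1) k

noncomputable def th (x : ℕ → ℕ → ℝ) (k : ℕ) (t : ℝ) : ℝ := (Xo x k t + Xo x k (-t))⁻¹

/-- the data of the core argument -/
structure CD (x : ℕ → ℕ → ℝ) (δ ω : ℕ → ℝ) : Prop where
  x0 : ∀ k, x 0 k = 1
  xb : ∃ C, 0 < C ∧ ∀ j : ℕ, j ≤ 6 → ∀ k, |x j k| ≤ C * mon (-((j : ℝ) / 3)) k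
  rc : ∀ j : ℕ, 1 ≤ j → j ≤ 6 → ∀ k,
    ∑ i ∈ Finset.range (j + 1), x i k * x (j - i) (k + 1) = δ k * x (j - 1) (k + 1)
  x1 : ∃ c, 0 < c ∧ ∀ᶠ k in atTop, c * mon (-(1 / 3)) k ≤ x 1 k
  δb : ∃ C, 0 < C ∧ ∀ k, |δ k| ≤ C * mon (-(1 / 3)) k
  ωb : ∃ C, 0 < C ∧ ∀ k, |ω k| ≤ C * mon (-(7 / 3)) k

variable {x : ℕ → ℕ → ℝ} {δ ω : ℕ → ℝ}

lemma Xo_eq (h : CD x δ ω) (k : ℕ) (t : ℝ) : Xo x k t = 1 + t * X1 x k t := by
  unfold Xo X1
  rw [Finset.sum_range_succ', Finset.mul_sum]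
  rw [pow_zero, h.x0, one_mul, add_comm]
  congr 1
  refine Finset.sum_congr rfl fun j _ => ?_
  ring

lemma mon_succ_le {ρ : ℝ} (h : ρ ≤ 0) (k : ℕ) : mon ρ (k + 1) ≤ mon ρ k := by
  unfold mon
  refine Real.rpow_le_rpow_of_nonpos (xb_pos k) ?_ h
  unfold xb; push_cast; linarith

lemma T_X1 (h : CD x δ ω) (N : ℕ) : T 0 N (-(1 / 3)) (X1 x) := by
  obtain ⟨C, hC, hb⟩ := h.xb
  refine (T.sum (g := 0) (N := N) (γ := -(1 / 3)) (Finset.range 6)
    (F := fun j m t => t ^ j * x (j + 1) m) fun j hj => ?_).congr' fun m t => rfl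
  refine T.gen j (C := C) fun m => ?_
  have hj6 : j + 1 ≤ 6 := by have := Finset.mem_range.mp hj; omega
  refine (hb (j + 1) hj6 m).trans (mul_le_mul_of_nonneg_left (mon_le ?_ m) hC.le)
  push_cast
  have : (0 : ℝ) ≤ j := Nat.cast_nonneg j
  linarith

lemma T_X1_neg (h : CD x δ ω) (N : ℕ) : T 0 N (-(1 / 3)) (fun k t => X1 x k (-t)) := by
  obtain ⟨C, hC, hb⟩ := h.xb
  refine (T.sum (g := 0) (N := N) (γ := -(1 / 3)) (Finset.range 6)
    (F := fun j m t => t ^ j * ((-1) ^ j * x (j + 1) m)) fun j hj => ?_).congr' fun m t => ?_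
  · refine T.gen j (C := C) fun m => ?_
    have hj6 : j + 1 ≤ 6 := by have := Finset.mem_range.mp hj; omega
    rw [abs_mul, abs_pow, abs_neg, abs_one, one_pow, one_mul]
    refine (hb (j + 1) hj6 m).trans (mul_le_mul_of_nonneg_left (mon_le ?_ m) hC.le)
    push_cast
    have : (0 : ℝ) ≤ j := Nat.cast_nonneg j
    linarith
  · unfold X1
    refine Finset.sum_congr rfl fun j _ => ?_
    rw [neg_pow]; ring

/-- bounds valid for small `t`, uniformly in `k` -/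
lemma X1_bound (h : CD x δ ω) : ∃ C, 0 < C ∧ ∀ t, |t| ≤ 1 → ∀ k,
    |X1 x k t| ≤ C * mon (-(1 / 3)) k := by
  obtain ⟨C, hC, hb⟩ := h.xb
  refine ⟨6 * C, by positivity, fun t ht k => ?_⟩
  unfold X1
  refine (Finset.abs_sum_le_sum_abs _ _).trans ?_
  have : ∀ j ∈ Finset.range 6, |t ^ j * x (j + 1) k| ≤ C * mon (-(1 / 3)) k := by
    intro j hj
    have hj6 : j + 1 ≤ 6 := by have := Finset.mem_range.mp hj; omega
    rw [abs_mul, abs_pow]
    have h1 : |t| ^ j ≤ 1 := pow_le_one₀ (abs_nonneg t) ht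
    have h2 : |x (j + 1) k| ≤ C * mon (-(1 / 3)) k := by
      refine (hb (j + 1) hj6 k).trans (mul_le_mul_of_nonneg_left (mon_le ?_ k) hC.le)
      push_cast
      have : (0 : ℝ) ≤ j := Nat.cast_nonneg j
      linarith
    calc |t| ^ j * |x (j + 1) k| ≤ 1 * |x (j + 1) k| :=
          mul_le_mul_of_nonneg_right h1 (abs_nonneg _)
      _ ≤ _ := by rw [one_mul]; exact h2
  refine (Finset.sum_le_card_nsmul _ _ _ this).trans (le_of_eq ?_)
  simp
  ring

lemma mon_le_one {ρ : ℝ} (h : ρ ≤ 0) (k : ℕ) : mon ρ k ≤ 1 := by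
  have := mon_le h k
  rwa [mon_zero] at this

/-- for `|t| ≤ t0`, all `X_k(t)` lie in `[1/2, 3/2]` -/
lemma Xo_mem (h : CD x δ ω) : ∃ t0, 0 < t0 ∧ t0 ≤ 1 ∧ ∀ t, |t| ≤ t0 → ∀ k,
    1 / 2 ≤ Xo x k t ∧ Xo x k t ≤ 3 / 2 := by
  obtain ⟨C, hC, hb⟩ := X1_bound h
  refine ⟨min 1 (1 / (2 * C)), by positivity, min_le_left _ _, fun t ht k => ?_⟩
  have h1 := hb t (ht.trans (min_le_left _ _)) k
  have h2 : |t * X1 x k t| ≤ 1 / 2 := by
    rw [abs_mul]
    have h3 : |X1 x k t| ≤ C := h1.trans (by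
      have := mon_le_one (by norm_num : (-(1 / 3) : ℝ) ≤ 0) k
      nlinarith)
    calc |t| * |X1 x k t| ≤ (1 / (2 * C)) * C :=
          mul_le_mul (ht.trans (min_le_right _ _)) h3 (abs_nonneg _) (by positivity)
      _ = 1 / 2 := by field_simp
  rw [Xo_eq h]
  have := abs_le.mp h2
  constructor <;> linarith [this.1, this.2]

lemma er_num (h : CD x δ ω) (k : ℕ) (t : ℝ) :
    Xo x k t * Xo x (k + 1) t - 1 - t * δ k * Xo x (k + 1) t =
      (∑ i ∈ Finset.range 7, ∑ j ∈ Finset.range 7,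
        if 7 ≤ i + j then t ^ (i + j) * (x i k * x j (k + 1)) else 0)
      - t ^ 7 * (δ k * x 6 (k + 1)) := by
  have h1 := h.rc 1 (by norm_num) (by norm_num) k
  have h2 := h.rc 2 (by norm_num) (by norm_num) k
  have h3 := h.rc 3 (by norm_num) (by norm_num) k
  have h4 := h.rc 4 (by norm_num) (by norm_num) k
  have h5 := h.rc 5 (by norm_num) (by norm_num) k
  have h6 := h.rc 6 (by norm_num) (by norm_num) k
  have a0 := h.x0 k
  have b0 := h.x0 (k + 1)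
  simp only [Finset.sum_range_succ, Finset.sum_range_zero] at h1 h2 h3 h4 h5 h6
  norm_num at h1 h2 h3 h4 h5 h6
  unfold Xo
  simp only [Finset.sum_range_succ, Finset.sum_range_zero]
  norm_num
  rw [a0, b0] at *
  linear_combination t * h1 + t ^ 2 * h2 + t ^ 3 * h3 + t ^ 4 * h4 + t ^ 5 * h5 + t ^ 6 * h6

lemma er_bound (h : CD x δ ω) : ∃ C t0, 0 < C ∧ 0 < t0 ∧ t0 ≤ 1 ∧ ∀ t, |t| ≤ t0 → ∀ k,
    |er x δ k t| ≤ C * (|t| ^ 7 * mon (-(7 / 3)) k) := by
  obtain ⟨C, hC, hb⟩ := h.xb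
  obtain ⟨D, hD, hd⟩ := h.δb
  obtain ⟨t0, ht0, ht01, hX⟩ := Xo_mem h
  refine ⟨2 * (49 * C ^ 2 + D * C), t0, by positivity, ht0, ht01, fun t ht k => ?_⟩
  obtain ⟨hX1, hX2⟩ := hX t ht (k + 1)
  have ht1 : |t| ≤ 1 := ht.trans ht01
  have hXpos : 0 < Xo x (k + 1) t := by linarith
  have e1 : er x δ k t = (Xo x k t * Xo x (k + 1) t - 1 - t * δ k * Xo x (k + 1) t)
      * (Xo x (k + 1) t)⁻¹ := by
    unfold er
    field_simp
  have hsum : |∑ i ∈ Finset.range 7, ∑ j ∈ Finset.range 7,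
        (if 7 ≤ i + j then t ^ (i + j) * (x i k * x j (k + 1)) else 0)|
        ≤ 49 * C ^ 2 * (|t| ^ 7 * mon (-(7 / 3)) k) := by
    refine (Finset.abs_sum_le_sum_abs _ _).trans ?_
    have hterm : ∀ i ∈ Finset.range 7, |∑ j ∈ Finset.range 7,
        (if 7 ≤ i + j then t ^ (i + j) * (x i k * x j (k + 1)) else 0)|
        ≤ 7 * (C ^ 2 * (|t| ^ 7 * mon (-(7 / 3)) k)) := by
      intro i hi
      refine (Finset.abs_sum_le_sum_abs _ _).trans ?_
      have h2 : ∀ j ∈ Finset.range 7,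
          |(if 7 ≤ i + j then t ^ (i + j) * (x i k * x j (k + 1)) else 0)|
          ≤ C ^ 2 * (|t| ^ 7 * mon (-(7 / 3)) k) := by
        intro j hj
        split_ifs with hij
        · have hi6 : i ≤ 6 := by have := Finset.mem_range.mp hi; omega
          have hj6 : j ≤ 6 := by have := Finset.mem_range.mp hj; omega
          have a1 := hb i hi6 k
          have a2 : |x j (k + 1)| ≤ C * mon (-((j : ℝ) / 3)) k :=
            (hb j hj6 (k + 1)).trans (mul_le_mul_of_nonneg_left (mon_succ_le (by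
              have : (0 : ℝ) ≤ j := Nat.cast_nonneg j
              linarith) k) hC.le)
          rw [abs_mul, abs_mul, abs_pow]
          have a3 : |x i k| * |x j (k + 1)| ≤ C ^ 2 * mon (-(7 / 3)) k := by
            calc |x i k| * |x j (k + 1)| ≤ (C * mon (-((i : ℝ) / 3)) k) * (C * mon (-((j : ℝ) / 3)) k) :=
                  mul_le_mul a1 a2 (abs_nonneg _) ((abs_nonneg _).trans a1)
              _ = C ^ 2 * mon (-((i : ℝ) / 3) + -((j : ℝ) / 3)) k := by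
                  rw [← mon_mul_apply]; ring
              _ ≤ C ^ 2 * mon (-(7 / 3)) k := by
                  refine mul_le_mul_of_nonneg_left (mon_le ?_ k) (by positivity)
                  have : (7 : ℝ) ≤ (i : ℝ) + j := by exact_mod_cast hij
                  linarith
          have a4 : |t| ^ (i + j) ≤ |t| ^ 7 := pow_le_pow_of_le_one (abs_nonneg t) ht1 hij
          calc |t| ^ (i + j) * (|x i k| * |x j (k + 1)|) ≤ |t| ^ 7 * (C ^ 2 * mon (-(7 / 3)) k) :=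
                mul_le_mul a4 a3 (by positivity) (by positivity)
            _ = _ := by ring
        · rw [abs_zero]
          have := mon_pos (-(7 / 3)) k
          positivity
      refine (Finset.sum_le_card_nsmul _ _ _ h2).trans (le_of_eq ?_)
      simp
    refine (Finset.sum_le_card_nsmul _ _ _ hterm).trans (le_of_eq ?_)
    simp
    ring
  have hlast : |t ^ 7 * (δ k * x 6 (k + 1))| ≤ D * C * (|t| ^ 7 * mon (-(7 / 3)) k) := by
    have a1 := hd k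
    have a2 : |x 6 (k + 1)| ≤ C * mon (-2) k := by
      have := hb 6 le_rfl (k + 1)
      have e : (-(((6 : ℕ) : ℝ) / 3)) = -2 := by norm_num
      rw [e] at this
      exact this.trans (mul_le_mul_of_nonneg_left (mon_succ_le (by norm_num) k) hC.le)
    rw [abs_mul, abs_mul, abs_pow]
    have a3 : |δ k| * |x 6 (k + 1)| ≤ D * C * mon (-(7 / 3)) k := by
      calc |δ k| * |x 6 (k + 1)| ≤ (D * mon (-(1 / 3)) k) * (C * mon (-2) k) :=
            mul_le_mul a1 a2 (abs_nonneg _) ((abs_nonneg _).trans a1)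
        _ = D * C * mon (-(1 / 3) + -2) k := by
            rw [← mon_mul_apply]; ring
        _ = D * C * mon (-(7 / 3)) k := by norm_num
    calc |t| ^ 7 * (|δ k| * |x 6 (k + 1)|) ≤ |t| ^ 7 * (D * C * mon (-(7 / 3)) k) :=
          mul_le_mul_of_nonneg_left a3 (by positivity)
      _ = _ := by ring
  rw [e1, er_num h, abs_mul, abs_inv, abs_of_pos hXpos]
  have hinv : (Xo x (k + 1) t)⁻¹ ≤ 2 := by
    rw [inv_le_comm₀ hXpos (by norm_num)]
    linarith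
  have hnum := (abs_sub _ _).trans (add_le_add hsum hlast)
  calc _ ≤ ((49 * C ^ 2 * (|t| ^ 7 * mon (-(7 / 3)) k)) + D * C * (|t| ^ 7 * mon (-(7 / 3)) k)) * 2 :=
        mul_le_mul hnum hinv (inv_nonneg.mpr hXpos.le) ((abs_nonneg _).trans hnum)
    _ = _ := by ring

end F526
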