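import Pool.Agent.Lib.MP_f52611_an.Core1
import Mathlib.Analysis.Analytic.IsolatedZeros

open Filter Topology Asymptotics

namespace F526

/-! ### logarithms and products in the uniform class -/

lemma T.of_bound {g : ℝ} {N : ℕ} {γ : ℝ} {f : ℕ → ℝ → ℝ} {C : ℝ}
    (h : ∀ᶠ t in 𝓝[>] (0 : ℝ), ∀ m, t * mon g m ≤ 1 → |f m t| ≤ C * (t ^ N * mon (γ + g * N) m)) :
    T g N γ f := by
  refine ⟨0, Submodule.zero_mem _, C, ?_⟩
  filter_upwards [h] with t ht m hm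
  simpa using ht m hm

/-- freezing the index -/
lemma T.freeze {N : ℕ} {γ : ℝ} {f : ℕ → ℝ → ℝ} (hf : T 0 N γ f) (k : ℕ) :
    T 0 N 0 (fun _ t => f k t) := by
  obtain ⟨A, hA, C, hC0, hC⟩ := hf.exists_nonneg
  have hA' : (fun (_ : ℕ) (t : ℝ) => A k t) ∈ TA 0 0 := by
    clear hC
    induction hA using Submodule.span_induction with
    | mem F hF =>
      obtain ⟨i, c, ⟨D, hD⟩, rfl⟩ := hF
      refine TA_gen (c := fun _ => c k) (C := |c k|) i fun m => ?_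
      have e : (0 : ℝ) + 0 * i = 0 := by ring
      rw [e, mon_zero, Pi.one_apply, mul_one]
    | zero => exact Submodule.zero_mem (TA 0 0)
    | add F G _ _ hF hG => exact Submodule.add_mem _ hF hG
    | smul a F _ hF => exact Submodule.smul_mem _ a hF
  refine ⟨_, hA', C * mon γ k, ?_⟩
  filter_upwards [hC, eventually_lt' one_pos] with t ⟨ht, h1⟩ ht1 m hm
  have e : (0 : ℝ) + 0 * N = 0 := by ring
  have e' : γ + 0 * (N : ℝ) = γ := by ring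
  rw [e, mon_zero, Pi.one_apply, mul_one]
  have := h1 k (region_zero ht1 k)
  rw [e'] at this
  refine this.trans (le_of_eq (by ring))

/-- `log(1+y)/y` -/
noncomputable def lgf : ℝ → ℝ := dslope (fun y : ℝ => Real.log (1 + y)) 0

/-- `(exp y - 1)/y` -/
noncomputable def exf : ℝ → ℝ := dslope Real.exp 0

lemma analyticAt_dslope {F : ℝ → ℝ} (hF : AnalyticAt ℝ F 0) : AnalyticAt ℝ (dslope F 0) 0 := by
  obtain ⟨p, hp⟩ := hF
  exact ⟨_, hp.has_fpower_series_dslope_fslope⟩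

lemma analytic_lgf : AnalyticAt ℝ lgf 0 := analyticAt_dslope analytic_log_one_add

lemma analytic_exf : AnalyticAt ℝ exf 0 := analyticAt_dslope analyticAt_rexp

lemma lgf_mul (y : ℝ) : y * lgf y = Real.log (1 + y) := by
  have := sub_smul_dslope (fun y : ℝ => Real.log (1 + y)) 0 y
  simpa [lgf] using this

lemma exf_mul (y : ℝ) : y * exf y = Real.exp y - 1 := by
  have := sub_smul_dslope Real.exp 0 y
  simpa [exf] using this

/-- `log(1 + t d)/t` -/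
noncomputable def lg (d : ℕ → ℝ → ℝ) (k : ℕ) (t : ℝ) : ℝ := d k t * lgf (t * d k t)

lemma T_lg {N : ℕ} {γ : ℝ} (hγ : γ ≤ 0) {d : ℕ → ℝ → ℝ} (hd : T 0 N γ d) : T 0 N γ (lg d) :=
  hd.mul' (by linarith) (hd.comp_analytic hγ analytic_lgf)

/-- uniform bound in the class `T 0 N γ`, `γ ≤ 0` -/
lemma T.unif {N : ℕ} {γ : ℝ} {d : ℕ → ℝ → ℝ} (hd : T 0 N γ d) :
    ∃ C, 0 < C ∧ ∀ᶠ t in 𝓝[>] (0 : ℝ), ∀ m, |d m t| ≤ C * mon γ m := by
  obtain ⟨C, hC0, hC⟩ := hd.bound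
  refine ⟨C + 1, by linarith, ?_⟩
  filter_upwards [hC, eventually_lt' one_pos] with t h1 ht m
  refine (h1 m (region_zero ht m)).trans ?_
  have := (mon_pos γ m).le
  nlinarith

lemma small_of_T {N : ℕ} {γ : ℝ} (hγ : γ ≤ 0) {d : ℕ → ℝ → ℝ} (hd : T 0 N γ d) {a : ℝ}
    (ha : 0 < a) : ∀ᶠ t in 𝓝[>] (0 : ℝ), ∀ m, |t * d m t| ≤ a := by
  obtain ⟨C, hC0, hC⟩ := hd.unif
  filter_upwards [hC, eventually_pos', eventually_lt' (div_pos ha hC0)] with t h1 ht ht2 m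
  rw [abs_mul, abs_of_pos ht]
  have h2 := (h1 m).trans (mul_le_mul_of_nonneg_left (mon_le_one hγ m) hC0.le)
  rw [lt_div_iff₀ hC0] at ht2
  calc t * |d m t| ≤ t * (C * 1) := mul_le_mul_of_nonneg_left h2 ht.le
    _ ≤ a := by linarith

lemma exp_lg {N : ℕ} {γ : ℝ} (hγ : γ ≤ 0) {d : ℕ → ℝ → ℝ} (hd : T 0 N γ d) :
    ∀ᶠ t in 𝓝[>] (0 : ℝ), ∀ m, 1 + t * d m t = Real.exp (t * lg d m t) := by
  filter_upwards [small_of_T hγ hd (by norm_num : (0 : ℝ) < 1 / 2)] with t h m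
  have h1 := (abs_le.mp (h m)).1
  have h2 : t * lg d m t = Real.log (1 + t * d m t) := by
    rw [← lgf_mul]; unfold lg; ring
  rw [h2, Real.exp_log (by linarith)]

/-- `∏_{i<k} (1 + t d_i(t))` -/
noncomputable def pr (d : ℕ → ℝ → ℝ) (k : ℕ) (t : ℝ) : ℝ := ∏ i ∈ Finset.range k, (1 + t * d i t)

lemma pr_succ (d : ℕ → ℝ → ℝ) (k : ℕ) (t : ℝ) : pr d (k + 1) t = pr d k t * (1 + t * d k t) := by
  unfold pr; rw [Finset.prod_range_succ]

lemma pr_zero (d : ℕ → ℝ → ℝ) (t : ℝ) : pr d 0 t = 1 := by simp [pr]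

lemma pr_eq_exp {N : ℕ} {γ : ℝ} (hγ : γ ≤ 0) {d : ℕ → ℝ → ℝ} (hd : T 0 N γ d) :
    ∀ᶠ t in 𝓝[>] (0 : ℝ), ∀ k, pr d k t = Real.exp (t * ∑ i ∈ Finset.range k, lg d i t) := by
  filter_upwards [exp_lg hγ hd] with t h k
  unfold pr
  rw [Finset.mul_sum, Real.exp_sum]
  exact Finset.prod_congr rfl fun i _ => h i

/-- exponentials of partial sums at rate `2/3` -/
lemma T_exp_sum {N : ℕ} {ℓ : ℕ → ℝ → ℝ} (hℓ : T 0 N (-(1 / 3)) ℓ) :
    T (2 / 3) N 0 (fun m t => Real.exp (t * ∑ i ∈ Finset.range (m + 1), ℓ i t)) := by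
  have h1 : T 0 N (2 / 3) (fun m t => ∑ i ∈ Finset.range (m + 1), ℓ i t) := by
    have h2 := (hℓ.sum_range_of_gt (by norm_num)).mono (by norm_num : (-(1 / 3) : ℝ) + 1 ≤ 2 / 3)
    have h3 := hℓ.mono (by norm_num : (-(1 / 3) : ℝ) ≤ 2 / 3)
    refine (h2.add h3).congr' fun m t => ?_
    rw [Finset.sum_range_succ]
  have h2 : T (2 / 3) N 0 (fun m t => t * ∑ i ∈ Finset.range (m + 1), ℓ i t) := by
    have := ((h1.rate (by norm_num : (0 : ℝ) ≤ 2 / 3)).tmul).mono_N (Nat.le_succ N)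
    exact this.mono (by norm_num)
  obtain ⟨C, hC0, hC⟩ := h1.unif
  refine h2.exp (K := C) ?_
  filter_upwards [hC, eventually_pos'] with t h3 ht m hm
  rw [abs_mul, abs_of_pos ht]
  have := mul_le_mul_of_nonneg_left (h3 m) ht.le
  linarith

variable {x : ℕ → ℕ → ℝ} {δ ω : ℕ → ℝ}

/-- the reflected `X1` -/
noncomputable def X1m (x : ℕ → ℕ → ℝ) (k : ℕ) (t : ℝ) : ℝ := - X1 x k (-t)

lemma T_X1m (h : CD x δ ω) (N : ℕ) : T 0 N (-(1 / 3)) (X1m x) := (T_X1_neg h N).neg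

lemma Xo_neg_eq (h : CD x δ ω) (k : ℕ) (t : ℝ) : Xo x k (-t) = 1 + t * X1m x k t := by
  rw [Xo_eq h]; unfold X1m; ring

lemma Po_eq_exp (h : CD x δ ω) : ∀ᶠ t in 𝓝[>] (0 : ℝ), ∀ m,
    Po x m t = Real.exp (-(t * ∑ i ∈ Finset.range m, lg (X1 x) i t)) := by
  filter_upwards [exp_lg (by norm_num) (T_X1 h 1)] with t h1 m
  unfold Po
  rw [Finset.mul_sum, Real.exp_neg, Real.exp_sum, ← Finset.prod_inv_distrib]
  refine Finset.prod_congr rfl fun i _ => ?_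
  rw [Xo_eq h, h1 i]

lemma Po_neg_eq_exp (h : CD x δ ω) : ∀ᶠ t in 𝓝[>] (0 : ℝ), ∀ m,
    Po x m (-t) = Real.exp (-(t * ∑ i ∈ Finset.range m, lg (X1m x) i t)) := by
  filter_upwards [exp_lg (by norm_num) (T_X1m h 1)] with t h1 m
  unfold Po
  rw [Finset.mul_sum, Real.exp_neg, Real.exp_sum, ← Finset.prod_inv_distrib]
  refine Finset.prod_congr rfl fun i _ => ?_
  rw [Xo_neg_eq h, h1 i]

lemma T_P2 (h : CD x δ ω) (N : ℕ) : T (2 / 3) N 0 (fun m t => Po x (m + 1) t ^ 2) := by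
  have h1 := T_exp_sum (ℓ := fun k t => -2 * lg (X1 x) k t)
    ((T_lg (by norm_num) (T_X1 h N)).const_mul (-2))
  refine h1.congr ?_
  filter_upwards [Po_eq_exp h] with t h2 m _
  rw [h2, ← Real.exp_nat_mul]
  congr 1
  rw [← Finset.mul_sum]
  push_cast
  ring

lemma T_Q2 (h : CD x δ ω) (N : ℕ) : T (2 / 3) N 0 (fun m t => Po x (m + 1) (-t) ^ 2) := by
  have h1 := T_exp_sum (ℓ := fun k t => -2 * lg (X1m x) k t)
    ((T_lg (by norm_num) (T_X1m h N)).const_mul (-2))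
  refine h1.congr ?_
  filter_upwards [Po_neg_eq_exp h] with t h2 m _
  rw [h2, ← Real.exp_nat_mul]
  congr 1
  rw [← Finset.mul_sum]
  push_cast
  ring

lemma analytic_inv_one_add : AnalyticAt ℝ (fun y : ℝ => (1 + y)⁻¹) 0 := by
  have h1 : AnalyticAt ℝ (fun y : ℝ => 1 + y) 0 := analyticAt_const.add analyticAt_id
  exact h1.inv (by simp)

lemma T_th (h : CD x δ ω) (N : ℕ) : T 0 N 0 (th x) := by
  have h1 : T 0 N (-(1 / 3)) (fun k t => 1 / 2 * (X1 x k t + X1m x k t)) :=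
    ((T_X1 h N).add (T_X1m h N)).const_mul _
  have h2 := (h1.comp_analytic (by norm_num) analytic_inv_one_add).const_mul (1 / 2)
  refine h2.congr ?_
  filter_upwards [small_of_T (by norm_num) h1 (by norm_num : (0 : ℝ) < 1 / 2)] with t h3 m _
  have h4 := (abs_le.mp (h3 m)).1
  unfold th
  rw [Xo_eq h, Xo_neg_eq h]
  have : (1 : ℝ) + t * X1 x m t + (1 + t * X1m x m t)
      = 2 * (1 + t * (1 / 2 * (X1 x m t + X1m x m t))) := by ring
  rw [this, mul_inv]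
  norm_num

lemma T_er (h : CD x δ ω) : T 0 6 (-(7 / 3)) (fun k t => er x δ k t / t) := by
  obtain ⟨C, t0, hC, ht0, ht01, hb⟩ := er_bound h
  refine T.of_bound (C := C) ?_
  filter_upwards [eventually_pos', eventually_lt' ht0] with t ht htt m _
  have h1 := hb t (by rw [abs_of_pos ht]; exact htt.le) m
  rw [abs_of_pos ht] at h1
  rw [abs_div, abs_of_pos ht, div_le_iff₀ ht]
  have e : (-(7 / 3) : ℝ) + 0 * ((6 : ℕ) : ℝ) = -(7 / 3) := by norm_num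
  rw [e]
  refine h1.trans (le_of_eq (by ring))

lemma T_er_neg (h : CD x δ ω) : T 0 6 (-(7 / 3)) (fun k t => er x δ k (-t) / t) := by
  obtain ⟨C, t0, hC, ht0, ht01, hb⟩ := er_bound h
  refine T.of_bound (C := C) ?_
  filter_upwards [eventually_pos', eventually_lt' ht0] with t ht htt m _
  have h1 := hb (-t) (by rw [abs_neg, abs_of_pos ht]; exact htt.le) m
  rw [abs_neg, abs_of_pos ht] at h1
  rw [abs_div, abs_of_pos ht, div_le_iff₀ ht]
  have e : (-(7 / 3) : ℝ) + 0 * ((6 : ℕ) : ℝ) = -(7 / 3) := by norm_num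
  rw [e]
  refine h1.trans (le_of_eq (by ring))

lemma T_om (h : CD x δ ω) (g : ℝ) (N : ℕ) : T g N (-(7 / 3)) (fun k _ => ω k) := by
  obtain ⟨C, _, hC⟩ := h.ωb
  exact T.of_coeff hC

lemma T_om_alt (h : CD x δ ω) (g : ℝ) (N : ℕ) : T g N (-(7 / 3)) (fun k _ => (-1) ^ k * ω k) := by
  obtain ⟨C, _, hC⟩ := h.ωb
  refine T.of_coeff (C := C) fun k => ?_
  rw [abs_mul, abs_pow, abs_neg, abs_one, one_pow, one_mul]
  exact hC k

/-- diagonal corrections -/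
noncomputable def dJ (x : ℕ → ℕ → ℝ) (δ ω : ℕ → ℝ) (k : ℕ) (t : ℝ) : ℝ :=
  ((-1) ^ k * ω k - er x δ k t / t) * th x k t

noncomputable def dI (x : ℕ → ℕ → ℝ) (δ ω : ℕ → ℝ) (k : ℕ) (t : ℝ) : ℝ :=
  -(((-1) ^ k * ω k + er x δ k (-t) / t) * th x k t)

noncomputable def dW (x : ℕ → ℕ → ℝ) (δ : ℕ → ℝ) (k : ℕ) (t : ℝ) : ℝ :=
  -((er x δ k t / t + er x δ k (-t) / t) * th x k t)

lemma T_dJ (h : CD x δ ω) : T 0 6 (-(7 / 3)) (dJ x δ ω) :=
  ((T_om_alt h 0 6).sub (T_er h)).mul' (by norm_num) (T_th h 6)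

lemma T_dI (h : CD x δ ω) : T 0 6 (-(7 / 3)) (dI x δ ω) :=
  (((T_om_alt h 0 6).add (T_er_neg h)).mul' (by norm_num) (T_th h 6)).neg

lemma T_dW (h : CD x δ ω) : T 0 6 (-(7 / 3)) (dW x δ) :=
  (((T_er h).add (T_er_neg h)).mul' (by norm_num) (T_th h 6)).neg

/-- the Wronskian of the two approximants -/
noncomputable def Wr (x : ℕ → ℕ → ℝ) (k : ℕ) (t : ℝ) : ℝ :=
  Po x (k + 1) t * Po x k (-t) + Po x k t * Po x (k + 1) (-t)

lemma Po_succ (x : ℕ → ℕ → ℝ) (k : ℕ) (t : ℝ) : Po x (k + 1) t = Po x k t * (Xo x k t)⁻¹ := by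
  unfold Po; rw [Finset.prod_range_succ]

lemma Po_zero (x : ℕ → ℕ → ℝ) (t : ℝ) : Po x 0 t = 1 := by simp [Po]

end F526
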