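import Pool.Agent.Lib.MP_f52611_an.Core2

open Filter Topology Asymptotics

namespace F526

variable {x : ℕ → ℕ → ℝ} {δ ω : ℕ → ℝ} {Z : ℕ → ℝ → ℝ}

noncomputable def Jz (x : ℕ → ℕ → ℝ) (Z : ℕ → ℝ → ℝ) (k : ℕ) (t : ℝ) : ℝ :=
  (-1) ^ k * (Z k t * Po x (k + 1) t - Z (k + 1) t * Po x k t)

noncomputable def Iz (x : ℕ → ℕ → ℝ) (Z : ℕ → ℝ → ℝ) (k : ℕ) (t : ℝ) : ℝ :=
  Z (k + 1) t * Po x k (-t) + Z k t * Po x (k + 1) (-t)

noncomputable def rho (x : ℕ → ℕ → ℝ) (δ ω : ℕ → ℝ) (k : ℕ) (t : ℝ) : ℝ :=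
  pr (dI x δ ω) k t / (Wr x k t * pr (dJ x δ ω) (k + 1) t)

noncomputable def rhob (x : ℕ → ℕ → ℝ) (δ ω : ℕ → ℝ) (k : ℕ) (t : ℝ) : ℝ :=
  pr (dJ x δ ω) k t / (Wr x k t * pr (dI x δ ω) (k + 1) t)

noncomputable def at' (x : ℕ → ℕ → ℝ) (δ ω : ℕ → ℝ) (k : ℕ) (t : ℝ) : ℝ :=
  (ω k - (-1) ^ k * (er x δ k t / t)) * Po x (k + 1) t ^ 2 * rho x δ ω k t

noncomputable def bt' (x : ℕ → ℕ → ℝ) (δ ω : ℕ → ℝ) (k : ℕ) (t : ℝ) : ℝ :=
  (ω k + (-1) ^ k * (er x δ k (-t) / t)) * Po x (k + 1) (-t) ^ 2 * rhob x δ ω k t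

noncomputable def jj (x : ℕ → ℕ → ℝ) (δ ω : ℕ → ℝ) (Z : ℕ → ℝ → ℝ) (k : ℕ) (t : ℝ) : ℝ :=
  Jz x Z k t / (t * pr (dJ x δ ω) k t)

noncomputable def II (x : ℕ → ℕ → ℝ) (δ ω : ℕ → ℝ) (Z : ℕ → ℝ → ℝ) (k : ℕ) (t : ℝ) : ℝ :=
  Iz x Z k t / pr (dI x δ ω) k t

lemma neg_one_pow_sq (k : ℕ) : ((-1 : ℝ) ^ k) * (-1) ^ k = 1 := by
  rw [← pow_add, ← two_mul]; simp

lemma Po_eq (k : ℕ) {t : ℝ} (hX : Xo x k t ≠ 0) : Po x k t = Xo x k t * Po x (k + 1) t := by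
  rw [Po_succ]; field_simp

lemma Po_rec (k : ℕ) {t : ℝ} (hX : Xo x k t ≠ 0) :
    Po x (k + 2) t = Po x k t - (t * δ k + er x δ k t) * Po x (k + 1) t := by
  rw [Po_succ x (k + 1)]
  unfold er
  have := Po_eq (x := x) k hX
  rw [this]
  ring

lemma Jz_succ (k : ℕ) {t : ℝ} (hX : Xo x k t ≠ 0)
    (hZ : Z k t - Z (k + 2) t = t * (δ k + (-1) ^ k * ω k) * Z (k + 1) t) :
    Jz x Z (k + 1) t = Jz x Z k t
      - (t * ω k - (-1) ^ k * er x δ k t) * (Z (k + 1) t * Po x (k + 1) t) := by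
  unfold Jz
  have h1 := Po_rec (δ := δ) k hX
  have h2 : Z (k + 2) t = Z k t - t * (δ k + (-1) ^ k * ω k) * Z (k + 1) t := by linarith
  have e1 : k + 1 + 1 = k + 2 := rfl
  rw [e1, h1, h2, pow_succ]
  have h3 := neg_one_pow_sq k
  linear_combination (-(t * ω k * Z (k + 1) t * Po x (k + 1) t)) * h3

lemma Iz_succ (k : ℕ) {t : ℝ} (hX : Xo x k (-t) ≠ 0)
    (hZ : Z k t - Z (k + 2) t = t * (δ k + (-1) ^ k * ω k) * Z (k + 1) t) :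
    Iz x Z (k + 1) t = Iz x Z k t
      - ((-1) ^ k * (t * ω k) + er x δ k (-t)) * (Z (k + 1) t * Po x (k + 1) (-t)) := by
  unfold Iz
  have h1 := Po_rec (δ := δ) k hX
  have h2 : Z (k + 2) t = Z k t - t * (δ k + (-1) ^ k * ω k) * Z (k + 1) t := by linarith
  have e1 : k + 1 + 1 = k + 2 := rfl
  rw [e1, h1, h2]
  ring

lemma Wr_eq (k : ℕ) {t : ℝ} (hX : Xo x k t ≠ 0) (hX' : Xo x k (-t) ≠ 0) :
    Wr x k t = Po x (k + 1) t * Po x (k + 1) (-t) * (Xo x k t + Xo x k (-t)) := by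
  unfold Wr
  rw [Po_eq (x := x) k hX, Po_eq (x := x) k hX']
  ring

lemma PQ_eq (k : ℕ) {t : ℝ} (hX : Xo x k t ≠ 0) (hX' : Xo x k (-t) ≠ 0)
    (hs : Xo x k t + Xo x k (-t) ≠ 0) :
    Po x (k + 1) t * Po x (k + 1) (-t) = th x k t * Wr x k t := by
  rw [Wr_eq k hX hX']; unfold th; field_simp

lemma Wr_succ (k : ℕ) {t : ℝ} (ht : t ≠ 0) (hX : Xo x k t ≠ 0) (hX' : Xo x k (-t) ≠ 0)
    (hs : Xo x k t + Xo x k (-t) ≠ 0) :
    Wr x (k + 1) t = Wr x k t * (1 + t * dW x δ k t) := by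
  have h0 : Wr x (k + 1) t = Wr x k t
      - (er x δ k t + er x δ k (-t)) * (Po x (k + 1) t * Po x (k + 1) (-t)) := by
    unfold Wr
    have h1 := Po_rec (δ := δ) k hX
    have h2 := Po_rec (δ := δ) k hX'
    have e1 : k + 1 + 1 = k + 2 := rfl
    rw [e1, h1, h2]
    ring
  rw [h0, PQ_eq k hX hX' hs]
  unfold dW
  field_simp
  ring

lemma Z_Wr (k : ℕ) (t : ℝ) :
    Z (k + 1) t * Wr x k t = Iz x Z k t * Po x (k + 1) t
      - (-1) ^ k * Jz x Z k t * Po x (k + 1) (-t) := by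
  unfold Wr Iz Jz
  have h3 := neg_one_pow_sq k
  linear_combination (Po x (k + 1) (-t) * (Z k t * Po x (k + 1) t - Z (k + 1) t * Po x k t)) * h3

/-- nondegeneracy at a fixed `t` -/
structure ND (x : ℕ → ℕ → ℝ) (δ ω : ℕ → ℝ) (t : ℝ) : Prop where
  t0 : t ≠ 0
  X : ∀ k, Xo x k t ≠ 0
  X' : ∀ k, Xo x k (-t) ≠ 0
  s : ∀ k, Xo x k t + Xo x k (-t) ≠ 0
  W : ∀ k, Wr x k t ≠ 0
  pJ : ∀ k, pr (dJ x δ ω) k t ≠ 0
  pI : ∀ k, pr (dI x δ ω) k t ≠ 0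

lemma Jz_succ' (k : ℕ) {t : ℝ} (nd : ND x δ ω t)
    (hZ : Z k t - Z (k + 2) t = t * (δ k + (-1) ^ k * ω k) * Z (k + 1) t) :
    Jz x Z (k + 1) t = (1 + t * dJ x δ ω k t) * Jz x Z k t
      - (t * ω k - (-1) ^ k * er x δ k t) * Po x (k + 1) t ^ 2 / Wr x k t * Iz x Z k t := by
  rw [Jz_succ k (nd.X k) hZ]
  have hW := nd.W k
  have ht := nd.t0
  have h1 : Z (k + 1) t = (Iz x Z k t * Po x (k + 1) t
      - (-1) ^ k * Jz x Z k t * Po x (k + 1) (-t)) / Wr x k t := by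
    rw [eq_div_iff hW]; exact Z_Wr k t
  have h2 := PQ_eq k (nd.X k) (nd.X' k) (nd.s k)
  have h3 := neg_one_pow_sq k
  have e : t * dJ x δ ω k t = ((-1) ^ k * (t * ω k) - er x δ k t) * th x k t := by
    unfold dJ; field_simp
  have h4 : th x k t = Po x (k + 1) t * Po x (k + 1) (-t) / Wr x k t := by
    rw [eq_div_iff hW, h2]
  rw [e, h1, h4]
  field_simp
  linear_combination (-(er x δ k t * Jz x Z k t * Po x (k + 1) (-t) * Po x (k + 1) t)) * h3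

lemma Iz_succ' (k : ℕ) {t : ℝ} (nd : ND x δ ω t)
    (hZ : Z k t - Z (k + 2) t = t * (δ k + (-1) ^ k * ω k) * Z (k + 1) t) :
    Iz x Z (k + 1) t = (1 + t * dI x δ ω k t) * Iz x Z k t
      + (t * ω k + (-1) ^ k * er x δ k (-t)) * Po x (k + 1) (-t) ^ 2 / Wr x k t * Jz x Z k t := by
  rw [Iz_succ k (nd.X' k) hZ]
  have hW := nd.W k
  have ht := nd.t0
  have h1 : Z (k + 1) t = (Iz x Z k t * Po x (k + 1) t
      - (-1) ^ k * Jz x Z k t * Po x (k + 1) (-t)) / Wr x k t := by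
    rw [eq_div_iff hW]; exact Z_Wr k t
  have h2 := PQ_eq k (nd.X k) (nd.X' k) (nd.s k)
  have h3 := neg_one_pow_sq k
  have e : t * dI x δ ω k t = -(((-1) ^ k * (t * ω k) + er x δ k (-t)) * th x k t) := by
    unfold dI; field_simp
  have h4 : th x k t = Po x (k + 1) t * Po x (k + 1) (-t) / Wr x k t := by
    rw [eq_div_iff hW, h2]
  rw [e, h1, h4]
  field_simp
  linear_combination (t * ω k * Jz x Z k t * Po x (k + 1) (-t) ^ 2) * h3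

lemma jj_succ (k : ℕ) {t : ℝ} (nd : ND x δ ω t)
    (hZ : Z k t - Z (k + 2) t = t * (δ k + (-1) ^ k * ω k) * Z (k + 1) t) :
    jj x δ ω Z (k + 1) t = jj x δ ω Z k t - at' x δ ω k t * II x δ ω Z k t := by
  unfold jj at' II rho
  rw [Jz_succ' k nd hZ, pr_succ]
  have hW := nd.W k
  have ht := nd.t0
  have hJ := nd.pJ k
  have hJ1 := nd.pJ (k + 1)
  have hI := nd.pI k
  rw [pr_succ] at hJ1
  have hJ2 : 1 + t * dJ x δ ω k t ≠ 0 := right_ne_zero_of_mul hJ1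
  field_simp

lemma II_succ (k : ℕ) {t : ℝ} (nd : ND x δ ω t)
    (hZ : Z k t - Z (k + 2) t = t * (δ k + (-1) ^ k * ω k) * Z (k + 1) t) :
    II x δ ω Z (k + 1) t = II x δ ω Z k t + t ^ 2 * (bt' x δ ω k t * jj x δ ω Z k t) := by
  unfold jj bt' II rhob
  rw [Iz_succ' k nd hZ, pr_succ]
  have hW := nd.W k
  have ht := nd.t0
  have hJ := nd.pJ k
  have hI := nd.pI k
  have hI1 := nd.pI (k + 1)
  rw [pr_succ] at hI1
  have hI2 : 1 + t * dI x δ ω k t ≠ 0 := right_ne_zero_of_mul hI1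
  field_simp

end F526
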