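import Pool.Agent.Lib.MP_f52611_an.Core3

open Filter Topology Asymptotics

namespace F526

variable {x : ℕ → ℕ → ℝ} {δ ω : ℕ → ℝ} {Z : ℕ → ℝ → ℝ}

lemma lgf_zero : lgf 0 = 1 := by
  unfold lgf
  rw [dslope_same, deriv_log_one_add]

lemma lgf_lower : ∃ r, 0 < r ∧ ∀ y, |y| ≤ r → 1 / 2 ≤ lgf y := by
  have h1 : ContinuousAt lgf 0 := analytic_lgf.continuousAt
  have h2 : ∀ᶠ y in 𝓝 (0 : ℝ), 1 / 2 < lgf y :=
    h1.eventually (lt_mem_nhds (by rw [lgf_zero]; norm_num))
  rw [Metric.eventually_nhds_iff] at h2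
  obtain ⟨r, hr, h2⟩ := h2
  refine ⟨r / 2, by positivity, fun y hy => (h2 ?_).le⟩
  rw [dist_zero_right, Real.norm_eq_abs]; linarith

lemma X1_sub (h : CD x δ ω) : ∃ C, 0 < C ∧ ∀ t, |t| ≤ 1 → ∀ k,
    |X1 x k t - x 1 k| ≤ C * (|t| * mon (-(1 / 3)) k) := by
  obtain ⟨C, hC, hb⟩ := h.xb
  refine ⟨5 * C, by positivity, fun t ht k => ?_⟩
  unfold X1
  rw [Finset.sum_range_succ']
  simp only [pow_zero, one_mul, zero_add, add_sub_cancel_right]
  refine (Finset.abs_sum_le_sum_abs _ _).trans ?_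
  have : ∀ j ∈ Finset.range 5, |t ^ (j + 1) * x (j + 1 + 1) k| ≤ C * (|t| * mon (-(1 / 3)) k) := by
    intro j hj
    have hj6 : j + 1 + 1 ≤ 6 := by have := Finset.mem_range.mp hj; omega
    rw [abs_mul, abs_pow]
    have h1 : |t| ^ (j + 1) ≤ |t| := by
      have := pow_le_pow_of_le_one (abs_nonneg t) ht (show 1 ≤ j + 1 by omega)
      simpa using this
    have h2 : |x (j + 1 + 1) k| ≤ C * mon (-(1 / 3)) k := by
      refine (hb _ hj6 k).trans (mul_le_mul_of_nonneg_left (mon_le ?_ k) hC.le)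
      push_cast
      have : (0 : ℝ) ≤ j := Nat.cast_nonneg j
      linarith
    calc |t| ^ (j + 1) * |x (j + 1 + 1) k| ≤ |t| * (C * mon (-(1 / 3)) k) :=
          mul_le_mul h1 h2 (abs_nonneg _) (abs_nonneg _)
      _ = _ := by ring
  refine (Finset.sum_le_card_nsmul _ _ _ this).trans (le_of_eq ?_)
  simp
  ring

/-- lower bound for the logarithms -/
lemma lg_lower (h : CD x δ ω) : ∃ (c : ℝ) (i0 : ℕ) (C : ℝ), 0 < c ∧ 0 < C ∧
    ∀ᶠ t in 𝓝[>] (0 : ℝ), (∀ i, i0 ≤ i → c * mon (-(1 / 3)) i ≤ lg (X1 x) i t) ∧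
      ∀ i, |lg (X1 x) i t| ≤ C := by
  obtain ⟨c, hc, hx1⟩ := h.x1
  obtain ⟨i0, hi0⟩ := eventually_atTop.mp hx1
  obtain ⟨C, hC, hX⟩ := X1_sub h
  obtain ⟨r, hr, hl⟩ := lgf_lower
  obtain ⟨D, hD, hDb⟩ := (T_lg (by norm_num) (T_X1 h 1)).unif
  refine ⟨c / 4, i0, D, by positivity, hD, ?_⟩
  filter_upwards [eventually_pos', eventually_lt' one_pos, hDb,
    small_of_T (by norm_num) (T_X1 h 1) hr,
    eventually_lt' (show 0 < c / (2 * C) by positivity)] with t ht ht1 h1 h2 h3
  constructor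
  · intro i hi
    have a1 := hi0 i hi
    have a2 := hX t (by rw [abs_of_pos ht]; exact ht1.le) i
    rw [abs_of_pos ht] at a2
    have m0 := mon_pos (-(1 / 3)) i
    have a3 : C * t ≤ c / 2 := by
      rw [lt_div_iff₀ (by positivity)] at h3; linarith
    have a4 : c / 2 * mon (-(1 / 3)) i ≤ X1 x i t := by
      have := (abs_le.mp a2).1
      nlinarith
    have a5 := hl _ (h2 i)
    unfold lg
    have a6 : 0 ≤ X1 x i t := le_trans (by positivity) a4
    calc c / 4 * mon (-(1 / 3)) i = (c / 2 * mon (-(1 / 3)) i) * (1 / 2) := by ring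
      _ ≤ X1 x i t * lgf (t * X1 x i t) := mul_le_mul a4 a5 (by norm_num) a6
  · intro i
    refine (h1 i).trans ?_
    have := mon_le_one (by norm_num : (-(1 / 3) : ℝ) ≤ 0) i
    nlinarith

lemma exp_half_le : Real.exp (1 / 2) ≤ 2 := by
  have h1 : Real.exp (1 / 2) ^ 2 ≤ 4 := by
    rw [← Real.exp_nat_mul]
    norm_num
    have := Real.exp_one_lt_d9
    linarith
  have h2 := Real.exp_pos (1 / 2)
  nlinarith

/-- monotonicity up to a factor and decay of `P` -/
lemma Po_decay (h : CD x δ ω) : ∀ᶠ t in 𝓝[>] (0 : ℝ), (∀ m, 0 < Po x m t) ∧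
    (∀ k m, k ≤ m → Po x m t ≤ 2 * Po x k t) ∧ (∀ m, Po x m t ≤ 2) ∧
    Tendsto (fun m => Po x m t) atTop (𝓝 0) := by
  obtain ⟨c, i0, C, hc, hC, hev⟩ := lg_lower h
  filter_upwards [hev, Po_eq_exp h, eventually_pos',
    eventually_lt' (show 0 < 1 / (2 * C * (i0 + 1)) by positivity)] with t ⟨h1, h2⟩ h3 ht ht2
  have hpos : ∀ m, 0 < Po x m t := fun m => by rw [h3]; exact Real.exp_pos _
  -- lower bound of blocks
  have hblock : ∀ k m, k ≤ m → -(C * i0) ≤ ∑ i ∈ Finset.Ico k m, lg (X1 x) i t := by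
    intro k m hkm
    have e1 : ∑ i ∈ Finset.Ico k m, (if i < i0 then -C else 0) ≤ ∑ i ∈ Finset.Ico k m, lg (X1 x) i t := by
      refine Finset.sum_le_sum fun i _ => ?_
      split_ifs with hi
      · exact (abs_le.mp (h2 i)).1
      · push Not at hi
        exact le_trans (by have := mon_pos (-(1 / 3)) i; positivity) (h1 i hi)
    refine le_trans ?_ e1
    rw [← Finset.sum_filter, Finset.sum_const, nsmul_eq_mul]
    have e2 : ((Finset.Ico k m).filter (fun i => i < i0)).card ≤ i0 := by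
      calc ((Finset.Ico k m).filter (fun i => i < i0)).card ≤ (Finset.range i0).card := by
            refine Finset.card_le_card fun i hi => ?_
            rw [Finset.mem_filter] at hi
            exact Finset.mem_range.mpr hi.2
        _ = i0 := Finset.card_range _
    have e3 : (((Finset.Ico k m).filter (fun i => i < i0)).card : ℝ) ≤ i0 := by exact_mod_cast e2
    nlinarith
  have hmono : ∀ k m, k ≤ m → Po x m t ≤ 2 * Po x k t := by
    intro k m hkm
    have e1 := hblock k m hkm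
    rw [h3 m, h3 k]
    have e2 : ∑ i ∈ Finset.range m, lg (X1 x) i t = ∑ i ∈ Finset.range k, lg (X1 x) i t
        + ∑ i ∈ Finset.Ico k m, lg (X1 x) i t := (Finset.sum_range_add_sum_Ico _ hkm).symm
    rw [e2, mul_add, neg_add, Real.exp_add, mul_comm]
    refine mul_le_mul_of_nonneg_right ?_ (Real.exp_pos _).le
    refine le_trans (Real.exp_le_exp.mpr ?_) exp_half_le
    rw [lt_div_iff₀ (by positivity)] at ht2
    have : t * (C * i0) ≤ 1 / 2 := by nlinarith
    nlinarith
  have hP0 : ∀ m, Po x m t ≤ 2 := fun m => by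
    have := hmono 0 m (Nat.zero_le m)
    rwa [Po_zero, mul_one] at this
  refine ⟨hpos, hmono, hP0, ?_⟩
  -- decay
  have hdiv : Tendsto (fun m => ∑ i ∈ Finset.range m, mon (-(1 / 3)) i) atTop atTop := by
    have hns : ¬ Summable (mon (-(1 / 3))) := by
      intro hs
      have h5 : Summable (fun n : ℕ => (n : ℝ) ^ (-(1 / 3) : ℝ)) := by
        refine (summable_nat_add_iff 1).mp (hs.congr fun n => ?_)
        simp [mon, xb]
      have := Real.summable_nat_rpow.mp h5
      norm_num at this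
    exact (not_summable_iff_tendsto_nat_atTop_of_nonneg fun i => (mon_pos _ i).le).mp hns
  have hlow : ∀ m, c * ∑ i ∈ Finset.range m, mon (-(1 / 3)) i - (C + c) * i0
      ≤ ∑ i ∈ Finset.range m, lg (X1 x) i t := by
    intro m
    have e1 : ∑ i ∈ Finset.range m, (c * mon (-(1 / 3)) i - (if i < i0 then (C + c) else 0))
        ≤ ∑ i ∈ Finset.range m, lg (X1 x) i t := by
      refine Finset.sum_le_sum fun i _ => ?_
      split_ifs with hi
      · have a1 := (abs_le.mp (h2 i)).1
        have a2 := mon_le_one (by norm_num : (-(1 / 3) : ℝ) ≤ 0) i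
        nlinarith
      · push Not at hi
        rw [sub_zero]; exact h1 i hi
    refine le_trans ?_ e1
    rw [Finset.sum_sub_distrib, ← Finset.mul_sum]
    refine sub_le_sub_left ?_ _
    rw [← Finset.sum_filter, Finset.sum_const, nsmul_eq_mul]
    have e2 : ((Finset.range m).filter (fun i => i < i0)).card ≤ i0 := by
      calc ((Finset.range m).filter (fun i => i < i0)).card ≤ (Finset.range i0).card := by
            refine Finset.card_le_card fun i hi => ?_
            rw [Finset.mem_filter] at hi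
            exact Finset.mem_range.mpr hi.2
        _ = i0 := Finset.card_range _
    have e3 : (((Finset.range m).filter (fun i => i < i0)).card : ℝ) ≤ i0 := by exact_mod_cast e2
    nlinarith
  have hsum : Tendsto (fun m => ∑ i ∈ Finset.range m, lg (X1 x) i t) atTop atTop := by
    refine tendsto_atTop_mono hlow ?_
    exact tendsto_atTop_add_const_right _ _ (hdiv.const_mul_atTop hc)
  have h6 := Real.tendsto_exp_neg_atTop_nhds_zero.comp (hsum.const_mul_atTop ht)
  refine h6.congr fun m => ?_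
  simp only [Function.comp_def]
  rw [h3]

end F526
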