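import Pool.Agent.Lib.MP_f52611_an.Core4

open Filter Topology Asymptotics

namespace F526

variable {x : ℕ → ℕ → ℝ} {δ ω : ℕ → ℝ} {Z : ℕ → ℝ → ℝ}

/-- the positive solution -/
structure ZD (δ ω : ℕ → ℝ) (Z : ℕ → ℝ → ℝ) : Prop where
  ev : ∀ᶠ t in 𝓝[>] (0 : ℝ), Z 0 t = 1 ∧ (∀ k, 0 < Z k t) ∧
    ∀ k, Z k t - Z (k + 2) t = t * (δ k + (-1) ^ k * ω k) * Z (k + 1) t
  z1 : ∀ᶠ t in 𝓝[>] (0 : ℝ), Z 1 t ≤ 2

lemma exp_mem {y : ℝ} (hy : |y| ≤ 1 / 2) : 1 / 2 ≤ Real.exp y ∧ Real.exp y ≤ 2 := by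
  have h := abs_le.mp hy
  constructor
  · have := Real.add_one_le_exp y
    linarith
  · exact (Real.exp_le_exp.mpr h.2).trans exp_half_le

lemma pr_mem {N : ℕ} {γ : ℝ} (hγ : γ < -1) {d : ℕ → ℝ → ℝ} (hd : T 0 N γ d) :
    ∀ᶠ t in 𝓝[>] (0 : ℝ), ∀ k, 1 / 2 ≤ pr d k t ∧ pr d k t ≤ 2 := by
  have h1 := T_lg (by linarith) hd
  have h2 := h1.sum_range_of_lt hγ
  filter_upwards [pr_eq_exp (by linarith) hd, small_of_T le_rfl h2 (by norm_num : (0 : ℝ) < 1 / 2)]
    with t h3 h4 k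
  rw [h3 k]
  exact exp_mem (h4 k)

lemma ev_X (h : CD x δ ω) : ∀ᶠ t in 𝓝[>] (0 : ℝ), ∀ k,
    (1 / 2 ≤ Xo x k t ∧ Xo x k t ≤ 3 / 2) ∧ (1 / 2 ≤ Xo x k (-t) ∧ Xo x k (-t) ≤ 3 / 2) := by
  obtain ⟨t0, ht0, ht01, hX⟩ := Xo_mem h
  filter_upwards [eventually_pos', eventually_lt' ht0] with t ht htt k
  exact ⟨hX t (by rw [abs_of_pos ht]; exact htt.le) k,
    hX (-t) (by rw [abs_neg, abs_of_pos ht]; exact htt.le) k⟩

lemma Wr_eq_pr (h : CD x δ ω) : ∀ᶠ t in 𝓝[>] (0 : ℝ), ∀ k,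
    Wr x k t = Wr x 0 t * pr (dW x δ) k t := by
  filter_upwards [ev_X h, eventually_pos'] with t h1 ht k
  induction k with
  | zero => rw [pr_zero, mul_one]
  | succ k ih =>
    obtain ⟨⟨a1, a2⟩, a3, a4⟩ := h1 k
    rw [Wr_succ (δ := δ) k ht.ne' (by linarith : Xo x k t ≠ 0) (by linarith : Xo x k (-t) ≠ 0)
      (by linarith), ih, pr_succ]
    ring

lemma Wr_zero_eq (t : ℝ) : Wr x 0 t = (Xo x 0 t)⁻¹ + (Xo x 0 (-t))⁻¹ := by
  unfold Wr
  rw [Po_succ, Po_succ, Po_zero, Po_zero]; ring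

lemma Wr_mem (h : CD x δ ω) : ∀ᶠ t in 𝓝[>] (0 : ℝ), (1 ≤ Wr x 0 t ∧ Wr x 0 t ≤ 4) ∧
    ∀ k, 1 / 2 ≤ Wr x k t ∧ Wr x k t ≤ 8 := by
  filter_upwards [Wr_eq_pr h, ev_X h, pr_mem (by norm_num) (T_dW h)] with t h1 h2 h3
  have h0 : 1 ≤ Wr x 0 t ∧ Wr x 0 t ≤ 4 := by
    obtain ⟨⟨a1, a2⟩, a3, a4⟩ := h2 0
    rw [Wr_zero_eq]
    have b1 : (Xo x 0 t)⁻¹ ≤ 2 := by
      rw [inv_le_comm₀ (by linarith) (by norm_num)]; linarith
    have b2 : (Xo x 0 (-t))⁻¹ ≤ 2 := by
      rw [inv_le_comm₀ (by linarith) (by norm_num)]; linarith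
    have b3 : 1 / 2 ≤ (Xo x 0 t)⁻¹ := by
      rw [le_inv_comm₀ (by norm_num) (by linarith)]; linarith
    have b4 : 1 / 2 ≤ (Xo x 0 (-t))⁻¹ := by
      rw [le_inv_comm₀ (by norm_num) (by linarith)]; linarith
    constructor <;> linarith
  refine ⟨h0, fun k => ?_⟩
  obtain ⟨c1, c2⟩ := h3 k
  rw [h1 k]
  constructor <;> nlinarith [h0.1, h0.2]

lemma ev_ND (h : CD x δ ω) : ∀ᶠ t in 𝓝[>] (0 : ℝ), ND x δ ω t := by
  filter_upwards [ev_X h, Wr_mem h, pr_mem (by norm_num) (T_dJ h), pr_mem (by norm_num) (T_dI h),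
    eventually_pos'] with t h1 h2 h3 h4 ht
  exact
  { t0 := ht.ne'
    X := fun k => by have := (h1 k).1.1; linarith
    X' := fun k => by have := (h1 k).2.1; linarith
    s := fun k => by have := (h1 k).2.1; have := (h1 k).1.1; linarith
    W := fun k => by have := (h2.2 k).1; linarith
    pJ := fun k => by have := (h3 k).1; linarith
    pI := fun k => by have := (h4 k).1; linarith }

/-- uniform Gronwall estimate -/
lemma growth_le {u ε : ℕ → ℝ} (hu : ∀ k, 0 ≤ u k) (h : ∀ k, u (k + 1) - u k ≤ ε k * u k)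
    (hε : ∀ k, ∑ i ∈ Finset.range k, ε i ≤ 1 / 2) (k : ℕ) : u k ≤ 2 * u 0 := by
  have h1 : ∀ k, u k ≤ Real.exp (∑ i ∈ Finset.range k, ε i) * u 0 := by
    intro k
    induction k with
    | zero => simp
    | succ k ih =>
      rw [Finset.sum_range_succ, Real.exp_add]
      have h2 := Real.add_one_le_exp (ε k)
      have h3 : u (k + 1) ≤ (ε k + 1) * u k := by linarith [h k]
      calc u (k + 1) ≤ (ε k + 1) * u k := h3
        _ ≤ Real.exp (ε k) * u k := mul_le_mul_of_nonneg_right h2 (hu k)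
        _ ≤ Real.exp (ε k) * (Real.exp (∑ i ∈ Finset.range k, ε i) * u 0) :=
            mul_le_mul_of_nonneg_left ih (Real.exp_pos _).le
        _ = _ := by ring
  refine (h1 k).trans (mul_le_mul_of_nonneg_right ?_ (hu 0))
  exact (Real.exp_le_exp.mpr (hε k)).trans exp_half_le

/-- a null sequence is bounded by the tail of its increments -/
lemma le_tail {u b : ℕ → ℝ} (hu : Tendsto u atTop (𝓝 0)) (hb : Summable b)
    (hb0 : ∀ k, 0 ≤ b k) (h : ∀ k, |u (k + 1) - u k| ≤ b k) (k : ℕ) :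
    |u k| ≤ ∑' i, b (i + k) := by
  have hbk : Summable fun i => b (i + k) := (summable_nat_add_iff k).mpr hb
  have h1 : ∀ n, |u k| ≤ |u (n + k)| + ∑' i, b (i + k) := by
    intro n
    have h2 : |u k| ≤ |u (n + k)| + ∑ i ∈ Finset.range n, b (i + k) := by
      induction n with
      | zero => simp
      | succ n ih =>
        rw [Finset.sum_range_succ]
        have h3 := h (n + k)
        have h4 : |u (n + k)| ≤ |u (n + 1 + k)| + b (n + k) := by
          have e : n + 1 + k = n + k + 1 := by ring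
          rw [e]
          have := abs_sub_abs_le_abs_sub (u (n + k)) (u (n + k + 1))
          rw [abs_sub_comm] at this
          linarith
        linarith
    have h3 := hbk.sum_le_tsum (Finset.range n) fun i _ => hb0 (i + k)
    linarith
  have h2 : Tendsto (fun n => |u (n + k)| + ∑' i, b (i + k)) atTop (𝓝 (0 + ∑' i, b (i + k))) := by
    have h3 : Tendsto (fun n => |u (n + k)|) atTop (𝓝 0) := by
      have := (hu.comp (tendsto_add_atTop_nat k)).abs
      simpa using this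
    exact h3.add tendsto_const_nhds
  rw [zero_add] at h2
  exact ge_of_tendsto' h2 h1

/-- all a priori estimates on the solution -/
lemma apriori1 (h : CD x δ ω) (hZ : ZD δ ω Z) : ∃ C, 0 < C ∧ ∀ᶠ t in 𝓝[>] (0 : ℝ),
    (∀ k, 0 ≤ Iz x Z k t ∧ Iz x Z k t ≤ C) ∧ (∀ k, 0 < Po x k (-t)) ∧
    (∀ k, Po x (k + 1) t * Po x (k + 1) (-t) ≤ 8) ∧
    (∀ k, |Jz x Z k t| ≤ C * (t * (mon (-(4 / 3)) k * Po x (k + 1) t ^ 2))) := by
  obtain ⟨Cw, hCw, hw⟩ := h.ωb
  obtain ⟨Ce, t0, hCe, ht0, ht01, he⟩ := er_bound h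
  obtain ⟨S, hS, hSb⟩ := sum_mon_le_const (by norm_num : (-(7 / 3) : ℝ) < -1)
  obtain ⟨S', hS', hSt⟩ := tsum_tail_mon_le (by norm_num : (-(7 / 3) : ℝ) < -1)
  set D := Cw + Ce with hD
  have hDpos : 0 < D := by positivity
  refine ⟨8 + 4 * (D * 128) * S', by positivity, ?_⟩
  filter_upwards [hZ.ev, hZ.z1, ev_X h, Wr_mem h, Po_decay h, eventually_pos', eventually_lt' ht0,
    eventually_lt' (show 0 < 1 / (4 * D * S) by positivity)]
    with t ⟨z0, zpos, zrec⟩ z1 hX ⟨⟨hW01, hW02⟩, hW⟩ ⟨hP, hPm, hP2, hPt⟩ ht htt htS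
  have ht1 : t ≤ 1 := by linarith
  have hQ : ∀ k, 0 < Po x k (-t) := by
    intro k
    unfold Po
    refine Finset.prod_pos fun i _ => inv_pos.mpr ?_
    have := (hX i).2.1
    linarith
  have herr : ∀ k, |er x δ k t| ≤ t * (Ce * mon (-(7 / 3)) k) ∧
      |er x δ k (-t)| ≤ t * (Ce * mon (-(7 / 3)) k) := by
    intro k
    have h1 := he t (by rw [abs_of_pos ht]; exact htt.le) k
    have h2 := he (-t) (by rw [abs_neg, abs_of_pos ht]; exact htt.le) k
    rw [abs_of_pos ht] at h1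
    rw [abs_neg, abs_of_pos ht] at h2
    have h3 : t ^ 7 ≤ t := by
      have := pow_le_pow_of_le_one ht.le ht1 (show 1 ≤ 7 by norm_num)
      simpa using this
    have h4 : Ce * (t ^ 7 * mon (-(7 / 3)) k) ≤ t * (Ce * mon (-(7 / 3)) k) := by
      have := mul_le_mul_of_nonneg_right h3 (mul_pos hCe (mon_pos (-(7 / 3)) k)).le
      nlinarith
    exact ⟨h1.trans h4, h2.trans h4⟩
  have hcoef : ∀ k, |t * ω k - (-1) ^ k * er x δ k t| ≤ t * (D * mon (-(7 / 3)) k) ∧
      |(-1) ^ k * (t * ω k) + er x δ k (-t)| ≤ t * (D * mon (-(7 / 3)) k) := by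
    intro k
    have h1 : |t * ω k| ≤ t * (Cw * mon (-(7 / 3)) k) := by
      rw [abs_mul, abs_of_pos ht]
      exact mul_le_mul_of_nonneg_left (hw k) ht.le
    have h2 : |(-1 : ℝ) ^ k * er x δ k t| = |er x δ k t| := by
      rw [abs_mul, abs_pow, abs_neg, abs_one, one_pow, one_mul]
    have h3 : |(-1 : ℝ) ^ k * (t * ω k)| = |t * ω k| := by
      rw [abs_mul, abs_pow, abs_neg, abs_one, one_pow, one_mul]
    constructor
    · refine (abs_sub _ _).trans ?_
      rw [h2]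
      have := (herr k).1
      rw [hD]; linarith
    · refine (abs_add_le _ _).trans ?_
      rw [h3]
      have := (herr k).2
      rw [hD]; linarith
  have hI0 : ∀ k, 0 ≤ Iz x Z k t := by
    intro k
    unfold Iz
    have := zpos k
    have := zpos (k + 1)
    have := hQ k
    have := hQ (k + 1)
    positivity
  have hZQ : ∀ k, Z (k + 1) t * Po x (k + 1) (-t) ≤ 2 * Iz x Z k t := by
    intro k
    rw [Po_succ]
    have h1 : (Xo x k (-t))⁻¹ ≤ 2 := by
      have := (hX k).2.1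
      rw [inv_le_comm₀ (by linarith) (by norm_num)]; linarith
    have h2 : Z (k + 1) t * Po x k (-t) ≤ Iz x Z k t := by
      unfold Iz
      have := mul_pos (zpos k) (hQ (k + 1))
      linarith
    have h3 : 0 < Z (k + 1) t * Po x k (-t) := mul_pos (zpos _) (hQ k)
    calc Z (k + 1) t * (Po x k (-t) * (Xo x k (-t))⁻¹)
        = (Z (k + 1) t * Po x k (-t)) * (Xo x k (-t))⁻¹ := by ring
      _ ≤ (Z (k + 1) t * Po x k (-t)) * 2 := mul_le_mul_of_nonneg_left h1 h3.le
      _ ≤ 2 * Iz x Z k t := by linarith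
  have hI00 : Iz x Z 0 t ≤ 4 := by
    unfold Iz
    rw [z0, Po_zero, Po_succ, Po_zero]
    have h1 : (Xo x 0 (-t))⁻¹ ≤ 2 := by
      have := (hX 0).2.1
      rw [inv_le_comm₀ (by linarith) (by norm_num)]; linarith
    simp only [zero_add, mul_one, one_mul]
    linarith
  have hI8 : ∀ k, Iz x Z k t ≤ 8 := by
    intro k
    have := growth_le (u := fun k => Iz x Z k t) (ε := fun k => 2 * (t * (D * mon (-(7 / 3)) k)))
      hI0 ?_ ?_ k
    · linarith
    · intro k
      have h1 := Iz_succ (Z := Z) (x := x) (δ := δ) (ω := ω) k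
        (by have := (hX k).2.1; linarith) (zrec k)
      have h2 := (hcoef k).2
      have h3 : 0 < Z (k + 1) t * Po x (k + 1) (-t) := mul_pos (zpos _) (hQ _)
      rw [h1]
      have h4 : -(((-1) ^ k * (t * ω k) + er x δ k (-t)) * (Z (k + 1) t * Po x (k + 1) (-t)))
          ≤ (t * (D * mon (-(7 / 3)) k)) * (2 * Iz x Z k t) := by
        calc -(((-1) ^ k * (t * ω k) + er x δ k (-t)) * (Z (k + 1) t * Po x (k + 1) (-t)))
            ≤ |((-1) ^ k * (t * ω k) + er x δ k (-t)) * (Z (k + 1) t * Po x (k + 1) (-t))| :=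
              neg_le_abs _
          _ = |(-1) ^ k * (t * ω k) + er x δ k (-t)| * (Z (k + 1) t * Po x (k + 1) (-t)) := by
              rw [abs_mul, abs_of_pos h3]
          _ ≤ _ := mul_le_mul h2 (hZQ k) h3.le ((abs_nonneg _).trans h2)
      linarith
    · intro k
      rw [← Finset.mul_sum, ← Finset.mul_sum, ← Finset.mul_sum]
      have h1 := hSb k
      rw [lt_div_iff₀ (by positivity)] at htS
      have h2 : t * (D * ∑ i ∈ Finset.range k, mon (-(7 / 3)) i) ≤ t * (D * S) := by gcongr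
      nlinarith
  have hPQ : ∀ k, 1 / 8 ≤ Po x (k + 1) t * Po x (k + 1) (-t) ∧
      Po x (k + 1) t * Po x (k + 1) (-t) ≤ 8 := by
    intro k
    obtain ⟨⟨a1, a2⟩, a3, a4⟩ := hX k
    rw [PQ_eq k (by linarith : Xo x k t ≠ 0) (by linarith : Xo x k (-t) ≠ 0) (by linarith)]
    obtain ⟨w1, w2⟩ := hW k
    have t1 : 1 / 4 ≤ th x k t := by
      unfold th
      rw [le_inv_comm₀ (by norm_num) (by linarith)]; linarith
    have t2 : th x k t ≤ 1 := by
      unfold th
      rw [inv_le_comm₀ (by linarith) (by norm_num)]; linarith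
    constructor <;> nlinarith
  have hZP : ∀ k, Z (k + 1) t ≤ 128 * Po x (k + 1) t := by
    intro k
    have h1 := hZQ k
    have h2 := hI8 k
    obtain ⟨h3, _⟩ := hPQ k
    have h4 := hQ (k + 1)
    have h5 := hP (k + 1)
    have h6 : Z (k + 1) t * Po x (k + 1) (-t) ≤ 128 * Po x (k + 1) t * Po x (k + 1) (-t) := by
      linarith
    exact le_of_mul_le_mul_right h6 h4
  have hJt : Tendsto (fun k => Jz x Z k t) atTop (𝓝 0) := by
    have h1 : Tendsto (fun k => 256 * (Po x k t * Po x (k + 1) t)) atTop (𝓝 0) := by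
      have h2 := hPt.mul (hPt.comp (tendsto_add_atTop_nat 1))
      simpa using h2.const_mul 256
    refine squeeze_zero_norm' ?_ h1
    filter_upwards [eventually_ge_atTop 1] with k hk
    obtain ⟨m, rfl⟩ : ∃ m, k = m + 1 := ⟨k - 1, by omega⟩
    unfold Jz
    rw [Real.norm_eq_abs, abs_mul, abs_pow, abs_neg, abs_one, one_pow, one_mul]
    have h3 := hZP m
    have h4 := hZP (m + 1)
    have h5 := hP (m + 1)
    have h6 := hP (m + 1 + 1)
    have h7 := zpos (m + 1)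
    have h8 := zpos (m + 1 + 1)
    refine (abs_sub _ _).trans ?_
    rw [abs_of_pos (mul_pos h7 h6), abs_of_pos (mul_pos h8 h5)]
    have h9 : Z (m + 1) t * Po x (m + 1 + 1) t ≤ 128 * Po x (m + 1) t * Po x (m + 1 + 1) t :=
      mul_le_mul_of_nonneg_right h3 h6.le
    have h10 : Z (m + 1 + 1) t * Po x (m + 1) t ≤ 128 * Po x (m + 1 + 1) t * Po x (m + 1) t :=
      mul_le_mul_of_nonneg_right h4 h5.le
    linarith
  have hJinc : ∀ m, |Jz x Z (m + 1) t - Jz x Z m t|
      ≤ t * (D * mon (-(7 / 3)) m) * (128 * Po x (m + 1) t ^ 2) := by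
    intro m
    have h1 := Jz_succ (Z := Z) (x := x) (δ := δ) (ω := ω) m
      (by have := (hX m).1.1; linarith) (zrec m)
    rw [h1, sub_sub_cancel_left, abs_neg, abs_mul]
    have h3 : 0 < Z (m + 1) t * Po x (m + 1) t := mul_pos (zpos _) (hP _)
    rw [abs_of_pos h3]
    have h4 : Z (m + 1) t * Po x (m + 1) t ≤ 128 * Po x (m + 1) t ^ 2 := by
      have := mul_le_mul_of_nonneg_right (hZP m) (hP (m + 1)).le
      linarith
    exact mul_le_mul (hcoef m).1 h4 h3.le ((abs_nonneg _).trans (hcoef m).1)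
  have hs := summable_mon (by norm_num : (-(7 / 3) : ℝ) < -1)
  have hJb : ∀ k, |Jz x Z k t| ≤ 4 * (D * 128) * S' * (t * (mon (-(4 / 3)) k * Po x (k + 1) t ^ 2)) := by
    intro k
    have hA := le_tail (u := fun n => Jz x Z (n + k) t)
      (b := fun n => (t * D * 512 * Po x (k + 1) t ^ 2) * mon (-(7 / 3)) (n + k))
      ((hJt.comp (tendsto_add_atTop_nat k)).congr fun n => rfl)
      (((summable_nat_add_iff k).mpr hs).mul_left _) ?_ ?_ 0
    · simp only [zero_add, add_zero] at hA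
      refine hA.trans ?_
      rw [tsum_mul_left]
      have h2 := hSt k
      have e : (-(7 / 3) : ℝ) + 1 = -(4 / 3) := by norm_num
      rw [e] at h2
      have h3 : 0 ≤ t * D * 512 * Po x (k + 1) t ^ 2 := by positivity
      refine (mul_le_mul_of_nonneg_left h2 h3).trans (le_of_eq ?_)
      ring
    · intro n
      have := mon_pos (-(7 / 3)) (n + k)
      have := hP (k + 1)
      positivity
    · intro n
      have h1 := hJinc (n + k)
      have e : n + 1 + k = n + k + 1 := by ring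
      rw [e]
      refine h1.trans ?_
      have h2 := hPm (k + 1) (n + k + 1) (by omega)
      have h3 : Po x (n + k + 1) t ^ 2 ≤ 4 * Po x (k + 1) t ^ 2 := by
        have := pow_le_pow_left₀ (hP (n + k + 1)).le h2 2
        rw [mul_pow] at this
        norm_num at this
        exact this
      have h4 : 0 ≤ t * (D * mon (-(7 / 3)) (n + k)) := by
        have := mon_pos (-(7 / 3)) (n + k)
        positivity
      calc t * (D * mon (-(7 / 3)) (n + k)) * (128 * Po x (n + k + 1) t ^ 2)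
          ≤ t * (D * mon (-(7 / 3)) (n + k)) * (128 * (4 * Po x (k + 1) t ^ 2)) := by gcongr
        _ = _ := by ring
  refine ⟨fun k => ⟨hI0 k, (hI8 k).trans ?_⟩, hQ, fun k => (hPQ k).2, fun k => (hJb k).trans ?_⟩
  · have : 0 ≤ 4 * (D * 128) * S' := by positivity
    linarith
  · have h1 : 0 ≤ t * (mon (-(4 / 3)) k * Po x (k + 1) t ^ 2) := by
      have := mon_pos (-(4 / 3)) k
      have := hP (k + 1)
      positivity
    exact mul_le_mul_of_nonneg_right (by linarith) h1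

end F526
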