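import Pool.Agent.Lib.MP_f52611_an.Core5

open Filter Topology Asymptotics

namespace F526

variable {x : ℕ → ℕ → ℝ} {δ ω : ℕ → ℝ} {Z : ℕ → ℝ → ℝ}

/-! ### Taylor expansion of functions of `t` alone -/

lemma TA_taylor {g γ : ℝ} {A : ℕ → ℝ → ℝ} (hA : A ∈ TA g γ) (N k : ℕ) :
    ∃ a : ℕ → ℝ, (fun t => A k t - ∑ i ∈ Finset.range N, a i * t ^ i) =O[𝓝[>] (0 : ℝ)]
      (fun t : ℝ => t ^ N) := by
  induction hA using Submodule.span_induction with
  | mem F hF =>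
    obtain ⟨i, c, _, rfl⟩ := hF
    by_cases hi : i < N
    · refine ⟨fun j => if j = i then c k else 0, ?_⟩
      have : ∀ t : ℝ, t ^ i * c k - ∑ j ∈ Finset.range N, (if j = i then c k else 0) * t ^ j = 0 := by
        intro t
        simp only [ite_mul, zero_mul]
        rw [Finset.sum_ite_eq' (Finset.range N) i, if_pos (Finset.mem_range.mpr hi)]
        ring
      simp only [this]
      exact isBigO_zero _ _
    · push Not at hi
      refine ⟨0, ?_⟩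
      refine IsBigO.of_bound |c k| ?_
      filter_upwards [eventually_pos', eventually_lt' one_pos] with t ht ht1
      simp only [Pi.zero_apply, zero_mul, Finset.sum_const_zero, sub_zero]
      rw [Real.norm_eq_abs, Real.norm_eq_abs, abs_mul, abs_pow, abs_of_pos ht, abs_pow,
        abs_of_pos ht, mul_comm]
      exact mul_le_mul_of_nonneg_left (pow_le_pow_of_le_one ht.le ht1.le hi) (abs_nonneg _)
  | zero => exact ⟨0, by simpa using isBigO_zero _ _⟩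
  | add F G _ _ hF hG =>
    obtain ⟨a, ha⟩ := hF
    obtain ⟨b, hb⟩ := hG
    refine ⟨a + b, (ha.add hb).congr_left fun t => ?_⟩
    simp only [Pi.add_apply, add_mul, Finset.sum_add_distrib]; ring
  | smul c F _ hF =>
    obtain ⟨a, ha⟩ := hF
    refine ⟨c • a, (ha.const_mul_left c).congr_left fun t => ?_⟩
    simp only [Pi.smul_apply, smul_eq_mul, mul_sub, Finset.mul_sum]
    congr 1
    refine Finset.sum_congr rfl fun i _ => by ring

lemma T.taylor {N : ℕ} {γ : ℝ} {f : ℕ → ℝ → ℝ} (hf : T 0 N γ f) (k : ℕ) :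
    ∃ a : ℕ → ℝ, (fun t => f k t - ∑ i ∈ Finset.range N, a i * t ^ i) =O[𝓝[>] (0 : ℝ)]
      (fun t : ℝ => t ^ N) := by
  obtain ⟨A, hA, C, hC0, hC⟩ := hf.exists_nonneg
  obtain ⟨a, ha⟩ := TA_taylor hA N k
  refine ⟨a, ?_⟩
  have h1 : (fun t => f k t - A k t) =O[𝓝[>] (0 : ℝ)] (fun t : ℝ => t ^ N) := by
    refine IsBigO.of_bound (C * mon γ k) ?_
    filter_upwards [hC, eventually_lt' one_pos] with t ⟨ht, h1⟩ ht1
    have := h1 k (region_zero ht1 k)
    have e : γ + 0 * (N : ℝ) = γ := by ring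
    rw [e] at this
    rw [Real.norm_eq_abs, Real.norm_eq_abs, abs_pow, abs_of_pos ht]
    refine this.trans (le_of_eq (by ring))
  refine (h1.add ha).congr_left fun t => by ring

/-- the constant term is the limit -/
lemma taylor_zero {f : ℝ → ℝ} {a : ℕ → ℝ} {N : ℕ} (hN : 0 < N) {l : ℝ}
    (hf : (fun t => f t - ∑ i ∈ Finset.range N, a i * t ^ i) =O[𝓝[>] (0 : ℝ)]
      (fun t : ℝ => t ^ N)) (hl : Tendsto f (𝓝[>] 0) (𝓝 l)) : a 0 = l := by
  have h1 : Tendsto (fun t : ℝ => t ^ N) (𝓝[>] 0) (𝓝 0) := by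
    have : Tendsto (fun t : ℝ => t ^ N) (𝓝 0) (𝓝 (0 ^ N)) := (continuous_pow N).tendsto 0
    rw [zero_pow hN.ne'] at this
    exact this.mono_left nhdsWithin_le_nhds
  have h2 := hf.trans_tendsto h1
  have h3 : Tendsto (fun t : ℝ => ∑ i ∈ Finset.range N, a i * t ^ i) (𝓝[>] 0) (𝓝 (a 0)) := by
    have hc : Continuous fun t : ℝ => ∑ i ∈ Finset.range N, a i * t ^ i := by fun_prop
    have := hc.tendsto 0
    have e : ∑ i ∈ Finset.range N, a i * (0 : ℝ) ^ i = a 0 := by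
      rw [Finset.sum_eq_single 0]
      · simp
      · intro i _ hi; simp [hi]
      · intro h; exact absurd (Finset.mem_range.mpr hN) h
    rw [e] at this
    exact this.mono_left nhdsWithin_le_nhds
  have h4 := h2.add h3
  have h5 : Tendsto f (𝓝[>] 0) (𝓝 (0 + a 0)) := h4.congr fun t => by ring
  rw [zero_add] at h5
  exact (tendsto_nhds_unique h5 hl)

/-- third order expansion class on the region `t^4 (k+1)^5 ≤ 1` -/
def Tay3' (γ : ℝ) (f : ℕ → ℝ → ℝ) : Prop :=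
  ∃ (f0 f1 f2 : ℕ → ℝ) (C : ℝ), (∀ k, |f0 k| ≤ C * mon γ k) ∧ (∀ k, |f1 k| ≤ C * mon (γ + 1) k) ∧
    (∀ k, |f2 k| ≤ C * mon (γ + 2) k) ∧
    ∀ᶠ t in 𝓝[>] (0 : ℝ), ∀ k, t ^ 4 * xb k ^ 5 ≤ 1 →
      |f k t - (f0 k + t * f1 k + t ^ 2 * f2 k)| ≤ C * (t ^ 3 * mon (γ + 3) k)

lemma TA_tay3 {γ : ℝ} {A : ℕ → ℝ → ℝ} (hA : A ∈ TA (2 / 3) γ) :
    ∃ (f0 f1 f2 : ℕ → ℝ) (C : ℝ), 0 ≤ C ∧ (∀ k, |f0 k| ≤ C * mon γ k) ∧
    (∀ k, |f1 k| ≤ C * mon (γ + 1) k) ∧ (∀ k, |f2 k| ≤ C * mon (γ + 2) k) ∧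
    ∀ t, 0 < t → ∀ k, t * mon (2 / 3) k ≤ 1 →
      |A k t - (f0 k + t * f1 k + t ^ 2 * f2 k)| ≤ C * (t ^ 3 * mon (γ + 3) k) := by
  induction hA using Submodule.span_induction with
  | mem F hF =>
    obtain ⟨i, c, ⟨C, hC⟩, rfl⟩ := hF
    have hC' : ∀ m, |c m| ≤ |C| * mon (γ + 2 / 3 * i) m := fun m =>
      (hC m).trans (mul_le_mul_of_nonneg_right (le_abs_self C) (mon_pos _ _).le)
    have hz : ∀ ρ : ℝ, ∀ k : ℕ, |(0 : ℝ)| ≤ |C| * mon ρ k := fun ρ k => by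
      rw [abs_zero]; have := mon_pos ρ k; positivity
    rcases Nat.lt_or_ge i 3 with hi | hi
    · interval_cases i
      · refine ⟨c, fun _ => 0, fun _ => 0, |C|, abs_nonneg _, fun k => ?_, fun k => hz _ k,
          fun k => hz _ k, fun t ht k _ => ?_⟩
        · simpa using hC' k
        · have := mon_pos (γ + 3) k
          simp only [pow_zero, one_mul, mul_zero, add_zero, sub_self, abs_zero]
          positivity
      · refine ⟨fun _ => 0, c, fun _ => 0, |C|, abs_nonneg _, fun k => hz _ k, fun k => ?_,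
          fun k => hz _ k, fun t ht k _ => ?_⟩
        · refine (hC' k).trans (mul_le_mul_of_nonneg_left (mon_le ?_ k) (abs_nonneg _))
          norm_num
        · have := mon_pos (γ + 3) k
          simp only [pow_one, zero_add, mul_zero, add_zero, sub_self, abs_zero]
          positivity
      · refine ⟨fun _ => 0, fun _ => 0, c, |C|, abs_nonneg _, fun k => hz _ k, fun k => hz _ k,
          fun k => ?_, fun t ht k _ => ?_⟩
        · refine (hC' k).trans (mul_le_mul_of_nonneg_left (mon_le ?_ k) (abs_nonneg _))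
          norm_num
        · have := mon_pos (γ + 3) k
          simp only [zero_add, mul_zero, sub_self, abs_zero]
          positivity
    · refine ⟨fun _ => 0, fun _ => 0, fun _ => 0, |C|, abs_nonneg _, fun k => hz _ k,
        fun k => hz _ k, fun k => hz _ k, fun t ht k hk => ?_⟩
      simp only [mul_zero, add_zero, sub_zero]
      rw [abs_mul, abs_pow, abs_of_pos ht]
      have h1 := pow_mon_le (γ := γ) ht hk hi
      have h2 : mon (γ + 2 / 3 * ((3 : ℕ) : ℝ)) k ≤ mon (γ + 3) k := mon_le (by norm_num) k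
      calc t ^ i * |c k| ≤ t ^ i * (|C| * mon (γ + 2 / 3 * i) k) :=
            mul_le_mul_of_nonneg_left (hC' k) (pow_pos ht i).le
        _ = |C| * (t ^ i * mon (γ + 2 / 3 * i) k) := by ring
        _ ≤ |C| * (t ^ 3 * mon (γ + 2 / 3 * ((3 : ℕ) : ℝ)) k) :=
            mul_le_mul_of_nonneg_left h1 (abs_nonneg _)
        _ ≤ |C| * (t ^ 3 * mon (γ + 3) k) := by gcongr
  | zero =>
    refine ⟨0, 0, 0, 0, le_rfl, ?_, ?_, ?_, ?_⟩ <;> simp
  | add F G _ _ hF hG =>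
    obtain ⟨f0, f1, f2, C, hC0, h0, h1, h2, h3⟩ := hF
    obtain ⟨g0, g1, g2, D, hD0, k0, k1, k2, k3⟩ := hG
    refine ⟨f0 + g0, f1 + g1, f2 + g2, C + D, by linarith, fun k => ?_, fun k => ?_, fun k => ?_,
      fun t ht k hk => ?_⟩
    · have := (abs_add_le (f0 k) (g0 k)).trans (add_le_add (h0 k) (k0 k))
      simpa [add_mul] using this
    · have := (abs_add_le (f1 k) (g1 k)).trans (add_le_add (h1 k) (k1 k))
      simpa [add_mul] using this
    · have := (abs_add_le (f2 k) (g2 k)).trans (add_le_add (h2 k) (k2 k))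
      simpa [add_mul] using this
    · have := (abs_add_le _ _).trans (add_le_add (h3 t ht k hk) (k3 t ht k hk))
      have e : (F + G) k t - ((f0 + g0) k + t * (f1 + g1) k + t ^ 2 * (f2 + g2) k)
          = (F k t - (f0 k + t * f1 k + t ^ 2 * f2 k)) + (G k t - (g0 k + t * g1 k + t ^ 2 * g2 k)) := by
        simp only [Pi.add_apply]; ring
      rw [e]
      linarith
  | smul c F _ hF =>
    obtain ⟨f0, f1, f2, C, hC0, h0, h1, h2, h3⟩ := hF
    refine ⟨c • f0, c • f1, c • f2, |c| * C, by positivity, fun k => ?_, fun k => ?_, fun k => ?_,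
      fun t ht k hk => ?_⟩
    · simp only [Pi.smul_apply, smul_eq_mul, abs_mul, mul_assoc]
      exact mul_le_mul_of_nonneg_left (h0 k) (abs_nonneg c)
    · simp only [Pi.smul_apply, smul_eq_mul, abs_mul, mul_assoc]
      exact mul_le_mul_of_nonneg_left (h1 k) (abs_nonneg c)
    · simp only [Pi.smul_apply, smul_eq_mul, abs_mul, mul_assoc]
      exact mul_le_mul_of_nonneg_left (h2 k) (abs_nonneg c)
    · have e : (c • F) k t - ((c • f0) k + t * (c • f1) k + t ^ 2 * (c • f2) k)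
          = c * (F k t - (f0 k + t * f1 k + t ^ 2 * f2 k)) := by
        simp only [Pi.smul_apply, smul_eq_mul]; ring
      rw [e, abs_mul, mul_assoc]
      exact mul_le_mul_of_nonneg_left (h3 t ht k hk) (abs_nonneg c)

lemma region_of_region {t : ℝ} (ht : 0 < t) {k : ℕ} (h : t ^ 4 * xb k ^ 5 ≤ 1) :
    t * mon (2 / 3) k ≤ 1 := by
  have h1 : mon (2 / 3) k ^ 4 ≤ xb k ^ 5 := by
    rw [mon_pow]
    have h2 : mon (((4 : ℕ) : ℝ) * (2 / 3)) k ≤ mon 5 k := mon_le (by norm_num) k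
    refine h2.trans (le_of_eq ?_)
    unfold mon
    norm_cast
  have h3 : (t * mon (2 / 3) k) ^ 4 ≤ 1 := by
    rw [mul_pow]
    refine le_trans ?_ h
    exact mul_le_mul_of_nonneg_left h1 (by positivity)
  have h4 : 0 < t * mon (2 / 3) k := mul_pos ht (mon_pos _ _)
  by_contra hcon
  push Not at hcon
  have : 1 < (t * mon (2 / 3) k) ^ 4 := one_lt_pow₀ hcon (by norm_num)
  linarith

lemma T.tay3 {γ : ℝ} {f : ℕ → ℝ → ℝ} (hf : T (2 / 3) 3 γ f) : Tay3' γ f := by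
  obtain ⟨A, hA, C, hC0, hC⟩ := hf.exists_nonneg
  obtain ⟨f0, f1, f2, D, hD0, h0, h1, h2, h3⟩ := TA_tay3 hA
  have up : ∀ ρ : ℝ, ∀ k, ∀ y : ℝ, |y| ≤ D * mon ρ k → |y| ≤ (C + D) * mon ρ k := by
    intro ρ k y hy
    have := mul_nonneg hC0 (mon_pos ρ k).le
    linarith
  refine ⟨f0, f1, f2, C + D, fun k => up _ _ _ (h0 k), fun k => up _ _ _ (h1 k),
    fun k => up _ _ _ (h2 k), ?_⟩
  filter_upwards [hC] with t ⟨ht, h4⟩ k hk
  have hr := region_of_region ht hk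
  have a1 := h4 k hr
  have a2 := h3 t ht k hr
  have e : f k t - (f0 k + t * f1 k + t ^ 2 * f2 k)
      = (f k t - A k t) + (A k t - (f0 k + t * f1 k + t ^ 2 * f2 k)) := by ring
  rw [e]
  refine (abs_add_le _ _).trans ?_
  have a3 : mon (γ + 2 / 3 * ((3 : ℕ) : ℝ)) k ≤ mon (γ + 3) k := mon_le (by norm_num) k
  have a4 : C * (t ^ 3 * mon (γ + 2 / 3 * ((3 : ℕ) : ℝ)) k) ≤ C * (t ^ 3 * mon (γ + 3) k) := by
    gcongr
  linarith

/-! ### the amplitude functions -/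

lemma T_inv {N : ℕ} {γ : ℝ} (hγ : γ ≤ 0) {d : ℕ → ℝ → ℝ} (hd : T 0 N γ d) :
    T 0 N 0 (fun k t => (1 + t * d k t)⁻¹) := hd.comp_analytic hγ analytic_inv_one_add

lemma T_Wr0_inv (h : CD x δ ω) (N : ℕ) : T 0 N 0 (fun _ t => (Wr x 0 t)⁻¹) := by
  -- Wr 0 = 1/X_0(t) + 1/X_0(-t) = 2 + t H
  set H : ℕ → ℝ → ℝ := fun k t => -(1 / 2 * (X1 x k t * (1 + t * X1 x k t)⁻¹
    + X1m x k t * (1 + t * X1m x k t)⁻¹)) with hH
  have hHT : T 0 N 0 H := by
    refine ((T.add ?_ ?_).const_mul (1 / 2)).neg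
    · exact (T_X1 h N).mul' (by norm_num) (T_inv (by norm_num) (T_X1 h N))
    · exact (T_X1m h N).mul' (by norm_num) (T_inv (by norm_num) (T_X1m h N))
  have h1 := ((T_inv le_rfl hHT).const_mul (1 / 2)).freeze 0
  refine h1.congr ?_
  filter_upwards [ev_X h, small_of_T le_rfl hHT (by norm_num : (0 : ℝ) < 1 / 2)] with t h2 h3 m _
  rw [Wr_zero_eq, Xo_eq h, Xo_neg_eq h]
  obtain ⟨⟨a1, a2⟩, a3, a4⟩ := h2 0
  rw [Xo_eq h] at a1 a2
  rw [Xo_neg_eq h] at a3 a4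
  have b1 : 1 + t * X1 x 0 t ≠ 0 := by linarith
  have b2 : 1 + t * X1m x 0 t ≠ 0 := by linarith
  have e : (1 + t * X1 x 0 t)⁻¹ + (1 + t * X1m x 0 t)⁻¹ = 2 * (1 + t * H 0 t) := by
    simp only [hH]
    field_simp
    ring
  rw [e, mul_inv]
  norm_num

/-- the logarithmic increments of `rho` -/
noncomputable def lr (x : ℕ → ℕ → ℝ) (δ ω : ℕ → ℝ) (k : ℕ) (t : ℝ) : ℝ :=
  lg (dI x δ ω) k t - lg (dJ x δ ω) k t - lg (dW x δ) k t

lemma T_lr (h : CD x δ ω) : T 0 6 (-(7 / 3)) (lr x δ ω) :=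
  ((T_lg (by norm_num) (T_dI h)).sub (T_lg (by norm_num) (T_dJ h))).sub
    (T_lg (by norm_num) (T_dW h))

lemma rho_eq (h : CD x δ ω) : ∀ᶠ t in 𝓝[>] (0 : ℝ), ∀ k, rho x δ ω k t =
    (Wr x 0 t)⁻¹ * Real.exp (t * (∑ i ∈ Finset.range k, lr x δ ω i t - lg (dJ x δ ω) k t)) := by
  filter_upwards [Wr_eq_pr h, pr_eq_exp (by norm_num) (T_dI h), pr_eq_exp (by norm_num) (T_dJ h),
    pr_eq_exp (by norm_num) (T_dW h), Wr_mem h] with t h1 h2 h3 h4 h5 k
  unfold rho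
  rw [h1 k, h2 k, h3 (k + 1), h4 k, Finset.sum_range_succ]
  have e : ∑ i ∈ Finset.range k, lr x δ ω i t = ∑ i ∈ Finset.range k, lg (dI x δ ω) i t
      - ∑ i ∈ Finset.range k, lg (dJ x δ ω) i t - ∑ i ∈ Finset.range k, lg (dW x δ) i t := by
    unfold lr; rw [Finset.sum_sub_distrib, Finset.sum_sub_distrib]
  rw [e]
  have hW : Wr x 0 t ≠ 0 := by have := h5.1.1; linarith
  rw [mul_assoc, ← Real.exp_add, div_eq_mul_inv, mul_inv, ← Real.exp_neg]
  rw [show ∀ a b c : ℝ, a * (b * c) = b * (a * c) from fun a b c => by ring, ← Real.exp_add]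
  congr 2
  ring

lemma rhob_eq (h : CD x δ ω) : ∀ᶠ t in 𝓝[>] (0 : ℝ), ∀ k, rhob x δ ω k t =
    (Wr x 0 t)⁻¹ * Real.exp (t * (∑ i ∈ Finset.range k, (lg (dJ x δ ω) i t - lg (dI x δ ω) i t
      - lg (dW x δ) i t) - lg (dI x δ ω) k t)) := by
  filter_upwards [Wr_eq_pr h, pr_eq_exp (by norm_num) (T_dI h), pr_eq_exp (by norm_num) (T_dJ h),
    pr_eq_exp (by norm_num) (T_dW h), Wr_mem h] with t h1 h2 h3 h4 h5 k
  unfold rhob
  rw [h1 k, h3 k, h2 (k + 1), h4 k, Finset.sum_range_succ]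
  rw [Finset.sum_sub_distrib, Finset.sum_sub_distrib]
  have hW : Wr x 0 t ≠ 0 := by have := h5.1.1; linarith
  rw [mul_assoc, ← Real.exp_add, div_eq_mul_inv, mul_inv, ← Real.exp_neg]
  rw [show ∀ a b c : ℝ, a * (b * c) = b * (a * c) from fun a b c => by ring, ← Real.exp_add]
  congr 2
  ring

lemma T_rho (h : CD x δ ω) : T 0 6 0 (rho x δ ω) := by
  have h1 : T 0 6 0 (fun k t => ∑ i ∈ Finset.range k, lr x δ ω i t - lg (dJ x δ ω) k t) :=
    ((T_lr h).sum_range_of_lt (by norm_num)).sub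
      ((T_lg (by norm_num) (T_dJ h)).mono (by norm_num))
  have h2 := (T_Wr0_inv h 6).mul' (γ'' := 0) (by norm_num) (h1.comp_analytic le_rfl analyticAt_rexp)
  refine h2.congr ?_
  filter_upwards [rho_eq h] with t h3 k _
  rw [h3]

lemma T_rhob (h : CD x δ ω) : T 0 6 0 (rhob x δ ω) := by
  have h1 : T 0 6 0 (fun k t => ∑ i ∈ Finset.range k, (lg (dJ x δ ω) i t - lg (dI x δ ω) i t
      - lg (dW x δ) i t) - lg (dI x δ ω) k t) :=
    ((((T_lg (by norm_num) (T_dJ h)).sub (T_lg (by norm_num) (T_dI h))).sub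
      (T_lg (by norm_num) (T_dW h))).sum_range_of_lt (by norm_num)).sub
      ((T_lg (by norm_num) (T_dI h)).mono (by norm_num))
  have h2 := (T_Wr0_inv h 6).mul' (γ'' := 0) (by norm_num) (h1.comp_analytic le_rfl analyticAt_rexp)
  refine h2.congr ?_
  filter_upwards [rhob_eq h] with t h3 k _
  rw [h3]

/-- the limit amplitude -/
noncomputable def rhoI (x : ℕ → ℕ → ℝ) (δ ω : ℕ → ℝ) (t : ℝ) : ℝ :=
  (Wr x 0 t)⁻¹ * Real.exp (t * ∑' i, lr x δ ω i t)

noncomputable def eta (x : ℕ → ℕ → ℝ) (δ ω : ℕ → ℝ) (k : ℕ) (t : ℝ) : ℝ :=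
  -(∑' i, lr x δ ω (i + k) t + lg (dJ x δ ω) k t)

noncomputable def tau (x : ℕ → ℕ → ℝ) (δ ω : ℕ → ℝ) (k : ℕ) (t : ℝ) : ℝ :=
  rhoI x δ ω t * (eta x δ ω k t * exf (t * eta x δ ω k t))

lemma T_eta (h : CD x δ ω) : T 0 6 (-(4 / 3)) (eta x δ ω) := by
  have h1 := ((T_lr h).tail (by norm_num)).mono (by norm_num : (-(7 / 3) : ℝ) + 1 ≤ -(4 / 3))
  exact (h1.add ((T_lg (by norm_num) (T_dJ h)).mono (by norm_num))).neg

lemma T_rhoI (h : CD x δ ω) : T 0 6 0 (fun _ t => rhoI x δ ω t) := by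
  have h1 : T 0 6 0 (fun _ t => ∑' i, lr x δ ω i t) := by
    have := ((T_lr h).tail (by norm_num)).freeze 0
    simpa using this
  exact (T_Wr0_inv h 6).mul' (γ'' := 0) (by norm_num) (h1.comp_analytic le_rfl analyticAt_rexp)

lemma T_tau (h : CD x δ ω) : T 0 6 (-(4 / 3)) (tau x δ ω) :=
  (T_rhoI h).mul' (γ'' := -(4 / 3)) (by norm_num)
    ((T_eta h).mul' (γ'' := -(4 / 3)) (by norm_num) ((T_eta h).comp_analytic (by norm_num) analytic_exf))

lemma rho_split (h : CD x δ ω) : ∀ᶠ t in 𝓝[>] (0 : ℝ), ∀ k,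
    rho x δ ω k t = rhoI x δ ω t + t * tau x δ ω k t := by
  filter_upwards [rho_eq h, (T_lr h).summable (by norm_num)] with t h1 h2 k
  rw [h1]
  unfold rhoI tau
  have e1 : t * (rhoI x δ ω t * (eta x δ ω k t * exf (t * eta x δ ω k t)))
      = rhoI x δ ω t * (Real.exp (t * eta x δ ω k t) - 1) := by
    rw [← exf_mul]; ring
  rw [e1]
  unfold rhoI
  have e2 : ∑ i ∈ Finset.range k, lr x δ ω i t - lg (dJ x δ ω) k t
      = ∑' i, lr x δ ω i t + eta x δ ω k t := by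
    unfold eta
    rw [← h2.sum_add_tsum_nat_add k]
    ring
  rw [e2, mul_add, Real.exp_add]
  ring

lemma T_at (h : CD x δ ω) : T (2 / 3) 3 (-(7 / 3)) (at' x δ ω) := by
  have h1 : T 0 6 (-(7 / 3)) (fun k t => ω k - (-1) ^ k * (er x δ k t / t)) := by
    refine (T_om h 0 6).sub ?_
    have h2 : T 0 6 0 (fun (k : ℕ) (_ : ℝ) => (-1 : ℝ) ^ k) := by
      refine T.of_coeff (C := 1) fun k => ?_
      rw [abs_pow, abs_neg, abs_one, one_pow, mon_zero, Pi.one_apply]; norm_num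
    exact h2.mul' (by norm_num) (T_er h)
  have h3 := (h1.rate (by norm_num : (0 : ℝ) ≤ 2 / 3)).mono_N (show 3 ≤ 6 by norm_num)
  have h4 := ((T_rho h).rate (by norm_num : (0 : ℝ) ≤ 2 / 3)).mono_N (show 3 ≤ 6 by norm_num)
  exact (h3.mul' (γ'' := -(7 / 3)) (by norm_num) (T_P2 h 3)).mul' (by norm_num) h4

lemma T_bt (h : CD x δ ω) : T (2 / 3) 3 (-(7 / 3)) (bt' x δ ω) := by
  have h1 : T 0 6 (-(7 / 3)) (fun k t => ω k + (-1) ^ k * (er x δ k (-t) / t)) := by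
    refine (T_om h 0 6).add ?_
    have h2 : T 0 6 0 (fun (k : ℕ) (_ : ℝ) => (-1 : ℝ) ^ k) := by
      refine T.of_coeff (C := 1) fun k => ?_
      rw [abs_pow, abs_neg, abs_one, one_pow, mon_zero, Pi.one_apply]; norm_num
    exact h2.mul' (by norm_num) (T_er_neg h)
  have h3 := (h1.rate (by norm_num : (0 : ℝ) ≤ 2 / 3)).mono_N (show 3 ≤ 6 by norm_num)
  have h4 := ((T_rhob h).rate (by norm_num : (0 : ℝ) ≤ 2 / 3)).mono_N (show 3 ≤ 6 by norm_num)
  exact (h3.mul' (γ'' := -(7 / 3)) (by norm_num) (T_Q2 h 3)).mul' (by norm_num) h4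

end F526
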