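import Pool.Agent.Lib.MP_f52611_an.Core6

open Filter Topology Asymptotics

namespace F526

variable {x : ℕ → ℕ → ℝ} {δ ω : ℕ → ℝ} {Z : ℕ → ℝ → ℝ}

lemma T_alt_coeff {f : ℕ → ℝ → ℝ} {N : ℕ} {γ : ℝ} (hf : T 0 N γ f) :
    T 0 N γ (fun k t => (-1) ^ k * f k t) := by
  have h2 : T 0 N 0 (fun (k : ℕ) (_ : ℝ) => (-1 : ℝ) ^ k) := by
    refine T.of_coeff (C := 1) fun k => ?_
    rw [abs_pow, abs_neg, abs_one, one_pow, mon_zero, Pi.one_apply]; norm_num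
  exact h2.mul' (by linarith) hf

lemma at_bound (h : CD x δ ω) : ∃ C, 0 < C ∧ ∀ᶠ t in 𝓝[>] (0 : ℝ), ∀ k,
    |at' x δ ω k t| ≤ C * (mon (-(7 / 3)) k * Po x (k + 1) t ^ 2) := by
  have h1 : T 0 6 (-(7 / 3)) (fun k t => ω k - (-1) ^ k * (er x δ k t / t)) :=
    (T_om h 0 6).sub (T_alt_coeff (T_er h))
  have h2 : T 0 6 (-(7 / 3)) (fun k t => (ω k - (-1) ^ k * (er x δ k t / t)) * rho x δ ω k t) :=
    h1.mul' (by norm_num) (T_rho h)
  obtain ⟨C, hC, hb⟩ := h2.unif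
  refine ⟨C, hC, ?_⟩
  filter_upwards [hb] with t h3 k
  unfold at'
  have e : (ω k - (-1) ^ k * (er x δ k t / t)) * Po x (k + 1) t ^ 2 * rho x δ ω k t
      = ((ω k - (-1) ^ k * (er x δ k t / t)) * rho x δ ω k t) * Po x (k + 1) t ^ 2 := by ring
  rw [e, abs_mul, abs_of_nonneg (sq_nonneg (Po x (k + 1) t))]
  have := mul_le_mul_of_nonneg_right (h3 k) (sq_nonneg (Po x (k + 1) t))
  linarith

lemma bt_bound (h : CD x δ ω) : ∃ C, 0 < C ∧ ∀ᶠ t in 𝓝[>] (0 : ℝ), ∀ k,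
    |bt' x δ ω k t| ≤ C * (mon (-(7 / 3)) k * Po x (k + 1) (-t) ^ 2) := by
  have h1 : T 0 6 (-(7 / 3)) (fun k t => ω k + (-1) ^ k * (er x δ k (-t) / t)) :=
    (T_om h 0 6).add (T_alt_coeff (T_er_neg h))
  have h2 : T 0 6 (-(7 / 3)) (fun k t => (ω k + (-1) ^ k * (er x δ k (-t) / t)) * rhob x δ ω k t) :=
    h1.mul' (by norm_num) (T_rhob h)
  obtain ⟨C, hC, hb⟩ := h2.unif
  refine ⟨C, hC, ?_⟩
  filter_upwards [hb] with t h3 k
  unfold bt'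
  have e : (ω k + (-1) ^ k * (er x δ k (-t) / t)) * Po x (k + 1) (-t) ^ 2 * rhob x δ ω k t
      = ((ω k + (-1) ^ k * (er x δ k (-t) / t)) * rhob x δ ω k t) * Po x (k + 1) (-t) ^ 2 := by ring
  rw [e, abs_mul, abs_of_nonneg (sq_nonneg (Po x (k + 1) (-t)))]
  have := mul_le_mul_of_nonneg_right (h3 k) (sq_nonneg (Po x (k + 1) (-t)))
  linarith

/-- tail sums of the amplitudes -/
noncomputable def al (x : ℕ → ℕ → ℝ) (δ ω : ℕ → ℝ) (k : ℕ) (t : ℝ) : ℝ :=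
  ∑' i, at' x δ ω (i + k) t

noncomputable def mu (x : ℕ → ℕ → ℝ) (δ ω : ℕ → ℝ) (Z : ℕ → ℝ → ℝ) (t : ℝ) : ℝ :=
  ∑' k, bt' x δ ω k t * jj x δ ω Z k t * al x δ ω (k + 1) t

lemma at_summable (h : CD x δ ω) : ∀ᶠ t in 𝓝[>] (0 : ℝ), Summable fun k => at' x δ ω k t := by
  obtain ⟨C, hC, hb⟩ := at_bound h
  filter_upwards [hb, Po_decay h] with t h1 ⟨hP, _, hP2, _⟩
  refine Summable.of_norm_bounded ((summable_mon (by norm_num : (-(7 / 3) : ℝ) < -1)).mul_left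
    (C * 4)) fun k => ?_
  rw [Real.norm_eq_abs]
  refine (h1 k).trans ?_
  have h2 : Po x (k + 1) t ^ 2 ≤ 4 := by
    have := pow_le_pow_left₀ (hP (k + 1)).le (hP2 (k + 1)) 2
    linarith
  have h3 := mon_pos (-(7 / 3)) k
  calc C * (mon (-(7 / 3)) k * Po x (k + 1) t ^ 2) ≤ C * (mon (-(7 / 3)) k * 4) := by gcongr
    _ = _ := by ring

lemma al_succ (h : CD x δ ω) : ∀ᶠ t in 𝓝[>] (0 : ℝ), ∀ k,
    al x δ ω (k + 1) t = al x δ ω k t - at' x δ ω k t := by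
  filter_upwards [at_summable h] with t h1 k
  unfold al
  have h2 : Summable fun i => at' x δ ω (i + k) t := (summable_nat_add_iff k).mpr h1
  rw [h2.tsum_eq_zero_add]
  simp only [zero_add, add_sub_cancel_left]
  refine tsum_congr fun i => ?_
  congr 1
  ring

lemma al_bound (h : CD x δ ω) : ∃ C, 0 < C ∧ ∀ᶠ t in 𝓝[>] (0 : ℝ), ∀ k,
    |al x δ ω k t| ≤ C * (mon (-(4 / 3)) k * Po x (k + 1) t ^ 2) := by
  obtain ⟨C, hC, hb⟩ := at_bound h
  obtain ⟨S, hS, hSt⟩ := tsum_tail_mon_le (by norm_num : (-(7 / 3) : ℝ) < -1)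
  refine ⟨C * 4 * S, by positivity, ?_⟩
  filter_upwards [hb, Po_decay h, at_summable h] with t h1 ⟨hP, hPm, hP2, _⟩ hs k
  have hsk : Summable fun i => at' x δ ω (i + k) t := (summable_nat_add_iff k).mpr hs
  have hmk : Summable fun i => mon (-(7 / 3)) (i + k) :=
    (summable_nat_add_iff k).mpr (summable_mon (by norm_num : (-(7 / 3) : ℝ) < -1))
  unfold al
  have h2 : ∀ i, |at' x δ ω (i + k) t| ≤ (C * 4 * Po x (k + 1) t ^ 2) * mon (-(7 / 3)) (i + k) := by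
    intro i
    refine (h1 (i + k)).trans ?_
    have h3 := hPm (k + 1) (i + k + 1) (by omega)
    have h4 : Po x (i + k + 1) t ^ 2 ≤ 4 * Po x (k + 1) t ^ 2 := by
      have := pow_le_pow_left₀ (hP (i + k + 1)).le h3 2
      rw [mul_pow] at this
      norm_num at this
      exact this
    have h5 := mon_pos (-(7 / 3)) (i + k)
    calc C * (mon (-(7 / 3)) (i + k) * Po x (i + k + 1) t ^ 2)
        ≤ C * (mon (-(7 / 3)) (i + k) * (4 * Po x (k + 1) t ^ 2)) := by gcongr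
      _ = _ := by ring
  calc |∑' i, at' x δ ω (i + k) t| ≤ ∑' i, |at' x δ ω (i + k) t| :=
        norm_tsum_le_tsum_norm hsk.norm
    _ ≤ ∑' i, (C * 4 * Po x (k + 1) t ^ 2) * mon (-(7 / 3)) (i + k) :=
        Summable.tsum_le_tsum h2 hsk.norm (hmk.mul_left _)
    _ = (C * 4 * Po x (k + 1) t ^ 2) * ∑' i, mon (-(7 / 3)) (i + k) := tsum_mul_left
    _ ≤ (C * 4 * Po x (k + 1) t ^ 2) * (S * mon (-(7 / 3) + 1) k) :=
        mul_le_mul_of_nonneg_left (hSt k) (by positivity)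
    _ = C * 4 * S * (mon (-(4 / 3)) k * Po x (k + 1) t ^ 2) := by
        have e : (-(7 / 3) : ℝ) + 1 = -(4 / 3) := by norm_num
        rw [e]; ring

lemma jj_bound (h : CD x δ ω) (hZ : ZD δ ω Z) : ∃ C, 0 < C ∧ ∀ᶠ t in 𝓝[>] (0 : ℝ), ∀ k,
    |jj x δ ω Z k t| ≤ C * (mon (-(4 / 3)) k * Po x (k + 1) t ^ 2) := by
  obtain ⟨C, hC, hb⟩ := apriori1 h hZ
  refine ⟨2 * C, by positivity, ?_⟩
  filter_upwards [hb, pr_mem (by norm_num) (T_dJ h), eventually_pos'] with t ⟨_, _, _, h1⟩ h2 ht k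
  unfold jj
  obtain ⟨p1, p2⟩ := h2 k
  have hp : 0 < t * pr (dJ x δ ω) k t := mul_pos ht (by linarith)
  rw [abs_div, abs_of_pos hp, div_le_iff₀ hp]
  refine (h1 k).trans ?_
  have h3 : 0 ≤ mon (-(4 / 3)) k * Po x (k + 1) t ^ 2 := by
    have := mon_pos (-(4 / 3)) k; positivity
  have h4 : 0 ≤ C * (t * (mon (-(4 / 3)) k * Po x (k + 1) t ^ 2)) := by positivity
  calc C * (t * (mon (-(4 / 3)) k * Po x (k + 1) t ^ 2))
      = C * (t * (mon (-(4 / 3)) k * Po x (k + 1) t ^ 2)) * (2 * (1 / 2)) := by ring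
    _ ≤ C * (t * (mon (-(4 / 3)) k * Po x (k + 1) t ^ 2)) * (2 * pr (dJ x δ ω) k t) := by
        gcongr
    _ = _ := by ring

lemma II_bound (h : CD x δ ω) (hZ : ZD δ ω Z) : ∃ C, 0 < C ∧ ∀ᶠ t in 𝓝[>] (0 : ℝ), ∀ k,
    |II x δ ω Z k t| ≤ C := by
  obtain ⟨C, hC, hb⟩ := apriori1 h hZ
  refine ⟨2 * C, by positivity, ?_⟩
  filter_upwards [hb, pr_mem (by norm_num) (T_dI h)] with t ⟨h0, _, _, _⟩ h2 k
  unfold II
  obtain ⟨p1, p2⟩ := h2 k
  have hp : 0 < pr (dI x δ ω) k t := by linarith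
  rw [abs_div, abs_of_pos hp, div_le_iff₀ hp, abs_of_nonneg (h0 k).1]
  have := (h0 k).2
  nlinarith

/-- from weighted bounds to plain bounds -/
lemma plain_bound {f : ℕ → ℝ → ℝ} {γ : ℝ} (h : CD x δ ω)
    (hf : ∃ C, 0 < C ∧ ∀ᶠ t in 𝓝[>] (0 : ℝ), ∀ k, |f k t| ≤ C * (mon γ k * Po x (k + 1) t ^ 2)) :
    ∃ C, ∀ᶠ t in 𝓝[>] (0 : ℝ), ∀ k, |f k t| ≤ C * mon γ k := by
  obtain ⟨C, hC, hb⟩ := hf
  refine ⟨C * 4, ?_⟩
  filter_upwards [hb, Po_decay h] with t h1 ⟨hP, _, hP2, _⟩ k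
  refine (h1 k).trans ?_
  have h2 : Po x (k + 1) t ^ 2 ≤ 4 := by
    have := pow_le_pow_left₀ (hP (k + 1)).le (hP2 (k + 1)) 2
    linarith
  have h3 := mon_pos γ k
  calc C * (mon γ k * Po x (k + 1) t ^ 2) ≤ C * (mon γ k * 4) := by gcongr
    _ = _ := by ring

lemma bja_bound (h : CD x δ ω) (hZ : ZD δ ω Z) : ∃ C, ∀ᶠ t in 𝓝[>] (0 : ℝ), ∀ k,
    |bt' x δ ω k t * jj x δ ω Z k t * al x δ ω (k + 1) t| ≤ C * mon (-5) k := by
  obtain ⟨B, hB, hb⟩ := bt_bound h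
  obtain ⟨J, hJ, hj⟩ := jj_bound h hZ
  obtain ⟨A, hA⟩ := plain_bound h (al_bound h)
  obtain ⟨C, hC, hc⟩ := apriori1 h hZ
  refine ⟨B * J * |A| * 64, ?_⟩
  filter_upwards [hb, hj, hA, hc, Po_decay h] with t h1 h2 h3 ⟨_, hQ, hPQ, _⟩ ⟨hP, _⟩ k
  rw [abs_mul, abs_mul]
  have a1 := h1 k
  have a2 := h2 k
  have a3 : |al x δ ω (k + 1) t| ≤ |A| * mon (-(4 / 3)) k := by
    refine (h3 (k + 1)).trans ?_
    have b1 := mon_succ_le (by norm_num : (-(4 / 3) : ℝ) ≤ 0) k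
    have b2 := mon_pos (-(4 / 3)) (k + 1)
    calc A * mon (-(4 / 3)) (k + 1) ≤ |A| * mon (-(4 / 3)) (k + 1) :=
          mul_le_mul_of_nonneg_right (le_abs_self A) b2.le
      _ ≤ _ := mul_le_mul_of_nonneg_left b1 (abs_nonneg _)
  have m1 := mon_pos (-(7 / 3)) k
  have m2 := mon_pos (-(4 / 3)) k
  have a4 : |bt' x δ ω k t| * |jj x δ ω Z k t| ≤
      B * J * 64 * (mon (-(7 / 3)) k * mon (-(4 / 3)) k) := by
    have c1 := mul_le_mul a1 a2 (abs_nonneg _) ((abs_nonneg _).trans a1)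
    refine c1.trans ?_
    have hp := hP (k + 1)
    have hq := hQ (k + 1)
    have c2 : (Po x (k + 1) t * Po x (k + 1) (-t)) ^ 2 ≤ 64 := by
      have := pow_le_pow_left₀ (mul_pos hp hq).le (hPQ k) 2
      linarith
    calc B * (mon (-(7 / 3)) k * Po x (k + 1) (-t) ^ 2) * (J * (mon (-(4 / 3)) k * Po x (k + 1) t ^ 2))
        = B * J * (mon (-(7 / 3)) k * mon (-(4 / 3)) k) * (Po x (k + 1) t * Po x (k + 1) (-t)) ^ 2 := by
          ring
      _ ≤ B * J * (mon (-(7 / 3)) k * mon (-(4 / 3)) k) * 64 := by gcongr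
      _ = _ := by ring
  have e : mon (-(7 / 3)) k * mon (-(4 / 3)) k * mon (-(4 / 3)) k = mon (-5) k := by
    rw [mon_mul_apply, mon_mul_apply]; congr 1; norm_num
  calc |bt' x δ ω k t| * |jj x δ ω Z k t| * |al x δ ω (k + 1) t|
      ≤ (B * J * 64 * (mon (-(7 / 3)) k * mon (-(4 / 3)) k)) * (|A| * mon (-(4 / 3)) k) :=
        mul_le_mul a4 a3 (abs_nonneg _) (by positivity)
    _ = B * J * |A| * 64 * (mon (-(7 / 3)) k * mon (-(4 / 3)) k * mon (-(4 / 3)) k) := by ring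
    _ = _ := by rw [e]

lemma mu_bounded (h : CD x δ ω) (hZ : ZD δ ω Z) :
    (mu x δ ω Z) =O[𝓝[>] (0 : ℝ)] (fun _ => (1 : ℝ)) := by
  obtain ⟨C, hC⟩ := bja_bound h hZ
  have hs := summable_mon (by norm_num : (-5 : ℝ) < -1)
  refine IsBigO.of_bound (|C| * ∑' k, mon (-5) k) ?_
  filter_upwards [hC] with t h1
  have h2 : ∀ k, |bt' x δ ω k t * jj x δ ω Z k t * al x δ ω (k + 1) t| ≤ |C| * mon (-5) k :=
    fun k => (h1 k).trans (mul_le_mul_of_nonneg_right (le_abs_self C) (mon_pos _ _).le)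
  have h3 : Summable fun k => bt' x δ ω k t * jj x δ ω Z k t * al x δ ω (k + 1) t :=
    Summable.of_norm_bounded (hs.mul_left |C|) h2
  unfold mu
  rw [norm_one, mul_one]
  refine (norm_tsum_le_tsum_norm h3.norm).trans ?_
  rw [← tsum_mul_left]
  exact Summable.tsum_le_tsum h2 h3.norm (hs.mul_left _)

/-- the exact relation at index zero -/
lemma j0_rel (h : CD x δ ω) (hZ : ZD δ ω Z) : ∀ᶠ t in 𝓝[>] (0 : ℝ),
    jj x δ ω Z 0 t = II x δ ω Z 0 t * al x δ ω 0 t + t ^ 2 * mu x δ ω Z t := by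
  obtain ⟨C, hC⟩ := bja_bound h hZ
  obtain ⟨J, hJ⟩ := plain_bound h (jj_bound h hZ)
  obtain ⟨A, hA⟩ := plain_bound h (al_bound h)
  obtain ⟨B, hB, hIb⟩ := II_bound h hZ
  have hs := summable_mon (by norm_num : (-5 : ℝ) < -1)
  filter_upwards [hC, hJ, hA, hIb, ev_ND h, hZ.ev, al_succ h] with t h1 h2 h3 h4 nd ⟨_, _, zrec⟩ h5
  have h6 : Summable fun k => bt' x δ ω k t * jj x δ ω Z k t * al x δ ω (k + 1) t :=
    Summable.of_norm_bounded (hs.mul_left C) h1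
  set u : ℕ → ℝ := fun k => jj x δ ω Z k t - II x δ ω Z k t * al x δ ω k t with hu
  have hrec : ∀ k, u (k + 1) = u k
      - t ^ 2 * (bt' x δ ω k t * jj x δ ω Z k t * al x δ ω (k + 1) t) := by
    intro k
    simp only [hu]
    rw [jj_succ k nd (zrec k), II_succ k nd (zrec k), h5 k]
    ring
  have hsum : ∀ n, ∑ k ∈ Finset.range n,
      t ^ 2 * (bt' x δ ω k t * jj x δ ω Z k t * al x δ ω (k + 1) t) = u 0 - u n := by
    intro n
    have : ∀ k, t ^ 2 * (bt' x δ ω k t * jj x δ ω Z k t * al x δ ω (k + 1) t)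
        = u k - u (k + 1) := fun k => by rw [hrec k]; ring
    simp only [this]
    exact Finset.sum_range_sub' u n
  have hu0 : Tendsto u atTop (𝓝 0) := by
    have hm := mon_tendsto_zero (by norm_num : (-(4 / 3) : ℝ) < 0)
    have h7 : Tendsto (fun k => (J + B * A) * mon (-(4 / 3)) k) atTop (𝓝 0) := by
      simpa using hm.const_mul (J + B * A)
    refine squeeze_zero_norm (fun k => ?_) h7
    rw [Real.norm_eq_abs]
    refine (abs_sub _ _).trans ?_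
    rw [abs_mul]
    have h8 := mul_le_mul (h4 k) (h3 k) (abs_nonneg _) hB.le
    have := h2 k
    linarith
  have h9 := (h6.mul_left (t ^ 2)).hasSum.tendsto_sum_nat
  simp only [hsum] at h9
  have h10 : Tendsto (fun n => u 0 - u n) atTop (𝓝 (u 0 - 0)) := tendsto_const_nhds.sub hu0
  have h11 := tendsto_nhds_unique h9 h10
  rw [tsum_mul_left, sub_zero] at h11
  unfold mu
  rw [h11]
  simp only [hu]
  ring

end F526
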