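import Pool.Agent.Lib.MP_f52611_an.Core1

open Filter Topology Asymptotics Polynomial

namespace F526

/-! ### one-variable expansions `p + t² q L + c t⁵ L² + O(t⁵ (1 + L))` -/

namespace SF

/-- `f = p(t) + t² q(t) log(1/t) + c t⁵ log(1/t)² + O(t⁵ (1 + log(1/t)))` -/
def Fm (f : ℝ → ℝ) (p q : ℝ[X]) (c : ℝ) : Prop :=
  (fun t => f t - (p.eval t + t ^ 2 * q.eval t * Real.log (1 / t)
    + c * (t ^ 5 * Real.log (1 / t) ^ 2))) =O[𝓝[>] (0 : ℝ)]
    (fun t : ℝ => t ^ 5 * (1 + Real.log (1 / t)))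

lemma ev_small {ε : ℝ} (h : 0 < ε) : ∀ᶠ t in 𝓝[>] (0 : ℝ), 0 < t ∧ t < ε := by
  filter_upwards [Ioo_mem_nhdsGT h] with t ht using ht

lemma log_nonneg' {t : ℝ} (h0 : 0 < t) (h1 : t < 1) : 0 ≤ Real.log (1 / t) :=
  Real.log_nonneg (by rw [le_div_iff₀ h0]; linarith)

/-- `t^a L^b = O(t^c)` for `c < a` -/
lemma pow_log_isBigO {a b c : ℕ} (h : c < a) :
    (fun t : ℝ => t ^ a * Real.log (1 / t) ^ b) =O[𝓝[>] (0 : ℝ)] (fun t : ℝ => t ^ c) := by
  have h1 : (fun t : ℝ => Real.log (1 / t) ^ b) =o[𝓝[>] (0 : ℝ)] (fun t : ℝ => (1 / t) ^ (1 : ℝ)) := by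
    have h2 : (fun x : ℝ => Real.log x ^ b) =o[atTop] (fun x : ℝ => x ^ (1 : ℝ)) := by
      have := isLittleO_log_rpow_rpow_atTop (s := 1) (b : ℝ) one_pos
      simpa [Real.rpow_natCast] using this
    have h3 : Tendsto (fun t : ℝ => 1 / t) (𝓝[>] 0) atTop := by
      simpa [one_div] using tendsto_inv_nhdsGT_zero (𝕜 := ℝ)
    exact h2.comp_tendsto h3
  have h4 : (fun t : ℝ => t ^ a * Real.log (1 / t) ^ b) =O[𝓝[>] (0 : ℝ)]
      (fun t : ℝ => t ^ a * (1 / t) ^ (1 : ℝ)) := (isBigO_refl _ _).mul h1.isBigO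
  refine h4.trans ?_
  refine IsBigO.of_bound 1 ?_
  filter_upwards [ev_small one_pos] with t ht
  obtain ⟨h0, h1⟩ := ht
  obtain ⟨k, rfl⟩ : ∃ k, a = c + 1 + k := ⟨a - (c + 1), by omega⟩
  have e : t ^ (c + 1 + k) * (1 / t) ^ (1 : ℝ) = t ^ c * t ^ k := by
    rw [Real.rpow_one]; field_simp; ring
  rw [e, Real.norm_of_nonneg (by positivity), Real.norm_of_nonneg (by positivity)]
  have : t ^ k ≤ 1 := pow_le_one₀ h0.le h1.le
  nlinarith [pow_pos h0 c]

lemma one_isBigO_oneL : (fun _ : ℝ => (1 : ℝ)) =O[𝓝[>] (0 : ℝ)]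
    (fun t : ℝ => 1 + Real.log (1 / t)) := by
  refine IsBigO.of_bound 1 ?_
  filter_upwards [ev_small one_pos] with t ht
  have := log_nonneg' ht.1 ht.2
  rw [Real.norm_of_nonneg zero_le_one, Real.norm_of_nonneg (by linarith)]
  linarith

lemma log_isBigO_oneL : (fun t : ℝ => Real.log (1 / t)) =O[𝓝[>] (0 : ℝ)]
    (fun t : ℝ => 1 + Real.log (1 / t)) := by
  refine IsBigO.of_bound 1 ?_
  filter_upwards [ev_small one_pos] with t ht
  have := log_nonneg' ht.1 ht.2
  rw [Real.norm_of_nonneg this, Real.norm_of_nonneg (by linarith)]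
  linarith

lemma pow_isBigO_pow {a c : ℕ} (h : c ≤ a) :
    (fun t : ℝ => t ^ a) =O[𝓝[>] (0 : ℝ)] (fun t : ℝ => t ^ c) := by
  refine IsBigO.of_bound 1 ?_
  filter_upwards [ev_small one_pos] with t ht
  obtain ⟨h0, h1⟩ := ht
  rw [Real.norm_of_nonneg (by positivity), Real.norm_of_nonneg (by positivity), one_mul]
  exact pow_le_pow_of_le_one h0.le h1.le h

lemma pow_isBigO_powL {a c : ℕ} (h : c ≤ a) :
    (fun t : ℝ => t ^ a) =O[𝓝[>] (0 : ℝ)] (fun t : ℝ => t ^ c * (1 + Real.log (1 / t))) := by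
  have := (pow_isBigO_pow h).mul one_isBigO_oneL
  simpa using this

lemma eval_isBigO_one (p : ℝ[X]) : (fun t : ℝ => p.eval t) =O[𝓝[>] (0 : ℝ)]
    (fun _ => (1 : ℝ)) := by
  have : Tendsto (fun t : ℝ => p.eval t) (𝓝[>] 0) (𝓝 (p.eval 0)) :=
    (p.continuous.tendsto 0).mono_left nhdsWithin_le_nhds
  exact this.isBigO_one ℝ

lemma eval_sub_isBigO (p : ℝ[X]) : (fun t : ℝ => p.eval t - p.eval 0) =O[𝓝[>] (0 : ℝ)]
    (fun t => t) := by
  obtain ⟨q, hq⟩ : (X - C (0 : ℝ)) ∣ p - C (p.eval 0) :=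
    Polynomial.dvd_iff_isRoot.mpr (by simp)
  have e : ∀ t, p.eval t - p.eval 0 = t * q.eval t := by
    intro t
    have := congrArg (Polynomial.eval t) hq
    simpa using this
  simp_rw [e]
  simpa using (isBigO_refl (fun t : ℝ => t) (𝓝[>] (0 : ℝ))).mul (eval_isBigO_one q)

variable {f g : ℝ → ℝ} {p q p' q' : ℝ[X]} {c c' : ℝ}

lemma Fm.add (hf : Fm f p q c) (hg : Fm g p' q' c') :
    Fm (fun t => f t + g t) (p + p') (q + q') (c + c') := by
  refine (IsBigO.add hf hg).congr_left fun t => ?_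
  simp only [eval_add]; ring

lemma Fm.smul (a : ℝ) (hf : Fm f p q c) :
    Fm (fun t => a * f t) (C a * p) (C a * q) (a * c) := by
  refine (IsBigO.const_mul_left hf a).congr_left fun t => ?_
  simp only [eval_mul, eval_C]; ring

lemma Fm.neg (hf : Fm f p q c) : Fm (fun t => - f t) (-p) (-q) (-c) := by
  refine (IsBigO.neg_left hf).congr_left fun t => ?_
  simp only [eval_neg]; ring

lemma Fm.sub (hf : Fm f p q c) (hg : Fm g p' q' c') :
    Fm (fun t => f t - g t) (p - p') (q - q') (c - c') := by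
  refine (IsBigO.sub hf hg).congr_left fun t => ?_
  simp only [eval_sub]; ring

lemma Fm.congr' (hf : Fm f p q c) (h : f =ᶠ[𝓝[>] 0] g) : Fm g p q c := by
  refine IsBigO.congr' hf ?_ EventuallyEq.rfl
  filter_upwards [h] with t ht
  rw [ht]

lemma Fm.of_isBigO (h : (fun t => f t - g t) =O[𝓝[>] (0 : ℝ)] (fun t : ℝ => t ^ 5 * (1 + Real.log (1 / t))))
    (hg : Fm g p q c) : Fm f p q c := by
  refine (IsBigO.add h hg).congr_left fun t => ?_
  ring

lemma Fm.bdd (hf : Fm f p q c) : f =O[𝓝[>] (0 : ℝ)] (fun _ => (1 : ℝ)) := by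
  have h1 : (fun t : ℝ => t ^ 5 * (1 + Real.log (1 / t))) =O[𝓝[>] (0 : ℝ)] (fun _ => (1 : ℝ)) := by
    have a1 := pow_log_isBigO (a := 5) (b := 1) (c := 0) (by norm_num)
    have a2 := pow_isBigO_pow (a := 5) (c := 0) (by norm_num)
    refine ((a2.add a1).congr_left fun t => ?_).congr_right fun t => by simp
    ring
  have h2 : (fun t : ℝ => p.eval t + t ^ 2 * q.eval t * Real.log (1 / t)
    + c * (t ^ 5 * Real.log (1 / t) ^ 2)) =O[𝓝[>] (0 : ℝ)] (fun _ => (1 : ℝ)) := by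
    have a1 := pow_log_isBigO (a := 2) (b := 1) (c := 0) (by norm_num)
    have a2 := (pow_log_isBigO (a := 5) (b := 2) (c := 0) (by norm_num)).const_mul_left c
    have a3 := a1.mul (eval_isBigO_one q)
    have a4 := eval_isBigO_one p
    simp only [pow_zero, mul_one] at a2 a3
    refine ((a4.add a3).add a2).congr_left fun t => ?_
    ring
  refine ((IsBigO.trans hf h1).add h2).congr_left fun t => ?_
  ring

/-- multiplication by a function with a pure polynomial expansion -/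
lemma Fm.mul_poly (hf : Fm f p q c)
    (hg : (fun t => g t - p'.eval t) =O[𝓝[>] (0 : ℝ)] (fun t : ℝ => t ^ 5)) :
    Fm (fun t => f t * g t) (p * p') (q * p') (c * p'.eval 0) := by
  -- f g - ... = f (g - p') + (f - main) p' + c t^5 L^2 (p' - p'(0))
  have h1 : (fun t => f t * (g t - p'.eval t)) =O[𝓝[>] (0 : ℝ)]
      (fun t : ℝ => t ^ 5 * (1 + Real.log (1 / t))) := by
    have := hf.bdd.mul hg
    refine (this.congr_right fun t => by rw [one_mul]).trans (pow_isBigO_powL le_rfl)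
  have h2 := IsBigO.mul hf (eval_isBigO_one p')
  have h3 : (fun t : ℝ => c * (t ^ 5 * Real.log (1 / t) ^ 2) * (p'.eval t - p'.eval 0))
      =O[𝓝[>] (0 : ℝ)] (fun t : ℝ => t ^ 5 * (1 + Real.log (1 / t))) := by
    have a1 := (pow_log_isBigO (a := 6) (b := 2) (c := 5) (by norm_num)).const_mul_left c
    have a2 : (fun t : ℝ => c * (t ^ 5 * Real.log (1 / t) ^ 2) * (p'.eval t - p'.eval 0))
        =O[𝓝[>] (0 : ℝ)] (fun t : ℝ => c * (t ^ 5 * Real.log (1 / t) ^ 2) * t) :=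
      (isBigO_refl _ _).mul (eval_sub_isBigO p')
    refine (a2.trans ?_).trans (pow_isBigO_powL le_rfl)
    refine a1.congr_left fun t => ?_
    ring
  have h2' := h2.congr_right fun t => by rw [mul_one]
  refine ((h1.add h2').add h3).congr_left fun t => ?_
  simp only [eval_mul]
  ring

/-- multiplication by `t³ L` -/
lemma Fm.mul_t3L (hf : Fm f p q 0) :
    Fm (fun t => t ^ 3 * Real.log (1 / t) * f t) 0 (X * p) (q.eval 0) := by
  -- t³ L f - (t² (t p) L + q(0) t^5 L²) = t³ L (f - p - t² q L) + t^5 L² (q - q(0))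
  have h1 : (fun t : ℝ => t ^ 3 * Real.log (1 / t) * (f t - (p.eval t + t ^ 2 * q.eval t * Real.log (1 / t)
    + 0 * (t ^ 5 * Real.log (1 / t) ^ 2)))) =O[𝓝[>] (0 : ℝ)]
      (fun t : ℝ => t ^ 5 * (1 + Real.log (1 / t))) := by
    have a1 := pow_log_isBigO (a := 3) (b := 1) (c := 0) (by norm_num)
    have a2 := a1.mul hf
    simpa using a2
  have h3 : (fun t : ℝ => (t ^ 5 * Real.log (1 / t) ^ 2) * (q.eval t - q.eval 0))
      =O[𝓝[>] (0 : ℝ)] (fun t : ℝ => t ^ 5 * (1 + Real.log (1 / t))) := by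
    have a1 := (pow_log_isBigO (a := 6) (b := 2) (c := 5) (by norm_num))
    have a2 : (fun t : ℝ => (t ^ 5 * Real.log (1 / t) ^ 2) * (q.eval t - q.eval 0))
        =O[𝓝[>] (0 : ℝ)] (fun t : ℝ => (t ^ 5 * Real.log (1 / t) ^ 2) * t) :=
      (isBigO_refl _ _).mul (eval_sub_isBigO q)
    refine (a2.trans ?_).trans (pow_isBigO_powL le_rfl)
    refine a1.congr_left fun t => ?_
    ring
  refine (h1.add h3).congr_left fun t => ?_
  simp only [eval_mul, eval_X, eval_zero]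
  ring

/-- inverse of a pure polynomial expansion -/
lemma inv_poly {v : ℝ} (hv : v ≠ 0) (h0 : p.eval 0 = v)
    (hf : (fun t => f t - p.eval t) =O[𝓝[>] (0 : ℝ)] (fun t : ℝ => t ^ 5)) :
    ∃ a : ℝ[X], a.eval 0 = v⁻¹ ∧
      (fun t => (f t)⁻¹ - a.eval t) =O[𝓝[>] (0 : ℝ)] (fun t : ℝ => t ^ 5) := by
  -- a = v⁻¹ Σ_{i<5} (1 - p/v)^i
  set w : ℝ[X] := 1 - C v⁻¹ * p with hw
  have hw0 : w.eval 0 = 0 := by simp [hw, h0, hv]
  set a : ℝ[X] := C v⁻¹ * ∑ i ∈ Finset.range 5, w ^ i with ha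
  refine ⟨a, ?_, ?_⟩
  · have : ∀ i ∈ Finset.range 5, (w ^ i).eval 0 = if i = 0 then 1 else 0 := by
      intro i _
      rw [eval_pow, hw0]
      split_ifs with h
      · rw [h, pow_zero]
      · rw [zero_pow h]
    rw [ha, eval_mul, eval_C, eval_finsetSum, Finset.sum_congr rfl this]
    simp
  · -- p a = 1 - w^5
    have hpa : p * a = 1 - w ^ 5 := by
      have h1 : p = C v * (1 - w) := by
        rw [hw]
        have : (C v : ℝ[X]) * C v⁻¹ = 1 := by rw [← C_mul, mul_inv_cancel₀ hv, C_1]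
        calc p = (C v * C v⁻¹) * p := by rw [this, one_mul]
          _ = _ := by ring
      have h2 : (1 - w) * ∑ i ∈ Finset.range 5, w ^ i = 1 - w ^ 5 := by
        rw [mul_comm]; exact geom_sum_mul_neg w 5
      calc p * a = (C v * C v⁻¹) * ((1 - w) * ∑ i ∈ Finset.range 5, w ^ i) := by
            rw [ha]; nth_rewrite 1 [h1]; ring
        _ = 1 - w ^ 5 := by rw [h2, ← C_mul, mul_inv_cancel₀ hv, C_1, one_mul]
    have hw5 : (fun t : ℝ => (w.eval t) ^ 5) =O[𝓝[>] (0 : ℝ)] (fun t : ℝ => t ^ 5) := by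
      have := eval_sub_isBigO w
      rw [hw0] at this
      simpa using this.pow 5
    have hft : Tendsto f (𝓝[>] 0) (𝓝 v) := by
      have h1 : Tendsto (fun t => f t - p.eval t) (𝓝[>] 0) (𝓝 0) := by
        refine hf.trans_tendsto ?_
        have : Tendsto (fun t : ℝ => t ^ 5) (𝓝 0) (𝓝 (0 ^ 5)) := (continuous_pow 5).tendsto 0
        rw [zero_pow (by norm_num)] at this
        exact this.mono_left nhdsWithin_le_nhds
      have h2 : Tendsto (fun t : ℝ => p.eval t) (𝓝[>] 0) (𝓝 (p.eval 0)) :=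
        (p.continuous.tendsto 0).mono_left nhdsWithin_le_nhds
      have := h1.add h2
      simpa [h0] using this
    have hinv : (fun t => (f t)⁻¹) =O[𝓝[>] (0 : ℝ)] (fun _ => (1 : ℝ)) :=
      (hft.inv₀ hv).isBigO_one ℝ
    have hne : ∀ᶠ t in 𝓝[>] (0 : ℝ), f t ≠ 0 := hft.eventually_ne hv
    -- f⁻¹ - a = f⁻¹ (1 - f a) = f⁻¹ (w^5 - (f - p) a)
    have h3 : (fun t => (f t)⁻¹ * ((w.eval t) ^ 5 - (f t - p.eval t) * a.eval t))
        =O[𝓝[>] (0 : ℝ)] (fun t : ℝ => t ^ 5) := by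
      have h4 := (hf.mul (eval_isBigO_one a)).congr_right fun t => by rw [mul_one]
      have := hinv.mul (hw5.sub h4)
      exact this.congr_right fun t => by rw [one_mul]
    refine h3.congr' ?_ EventuallyEq.rfl
    filter_upwards [hne] with t ht
    have e1 : p.eval t * a.eval t = 1 - (w.eval t) ^ 5 := by
      have := congrArg (Polynomial.eval t) hpa
      simpa using this
    field_simp
    linear_combination e1

lemma Fm.of_poly (hf : (fun t => f t - p.eval t) =O[𝓝[>] (0 : ℝ)] (fun t : ℝ => t ^ 5)) :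
    Fm f p 0 0 := by
  refine (hf.trans (pow_isBigO_powL le_rfl)).congr_left fun t => ?_
  simp

end SF

open SF

/-- file SForm.lean -/
theorem S_form {U V μ α ρ G S e : ℝ → ℝ} {β : ℝ} {u v r g : ℕ → ℝ} (hu0 : u 0 = 0) (hv0 : v 0 = 2)
    (hr0 : r 0 = 1 / 2)
    (hU : (fun t => U t - ∑ i ∈ Finset.range 6, u i * t ^ i) =O[𝓝[>] (0 : ℝ)] (fun t : ℝ => t ^ 6))
    (hV : (fun t => V t - ∑ i ∈ Finset.range 6, v i * t ^ i) =O[𝓝[>] (0 : ℝ)] (fun t : ℝ => t ^ 6))
    (hρ : (fun t => ρ t - ∑ i ∈ Finset.range 6, r i * t ^ i) =O[𝓝[>] (0 : ℝ)] (fun t : ℝ => t ^ 6))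
    (hG : (fun t => G t - ∑ i ∈ Finset.range 4, g i * t ^ i) =O[𝓝[>] (0 : ℝ)]
      (fun t : ℝ => t ^ 4 * (1 + Real.log (1 / t))))
    (he : e =O[𝓝[>] (0 : ℝ)] (fun t : ℝ => t ^ 5))
    (hα : ∀ᶠ t in 𝓝[>] (0 : ℝ), (U t - β * (t ^ 3 * Real.log (1 / t))) / t
      = (V t + β * (t ^ 3 * Real.log (1 / t))) * α t + t ^ 2 * μ t)
    (hμb : μ =O[𝓝[>] (0 : ℝ)] (fun _ => (1 : ℝ)))
    (hμ : ∃ p0 p1 p2 pL pμ : ℝ, (fun t => μ t - (p0 + p1 * t + t ^ 2 * (p2 + pL * Real.log (1 / t)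
      + pμ * μ t))) =O[𝓝[>] (0 : ℝ)] (fun t : ℝ => t ^ 3 * (1 + Real.log (1 / t))))
    (hS : ∀ᶠ t in 𝓝[>] (0 : ℝ), α t = ρ t * S t + t * G t + e t) :
    (∃ c0 c1 : ℝ, (fun t => S t - (c0 + c1 * t - β * (t ^ 2 * Real.log (1 / t)))) =O[𝓝[>] (0 : ℝ)]
      (fun t : ℝ => t ^ 2)) ∧
    ∃ s ∈ Submodule.span ℝ ({f | ∃ ρ : ℝ, f = fun t => t ^ ρ} ∪
      {f | ∃ ρ : ℝ, f = fun t : ℝ => t ^ ρ * Real.log (1 / t)} : Set (ℝ → ℝ)),
      (fun t => S t - s t - β ^ 2 / 2 * (t ^ 5 * Real.log (1 / t) ^ 2)) =O[𝓝[>] (0 : ℝ)]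
      (fun t : ℝ => t ^ 5 * (1 + Real.log (1 / t))) := by
  obtain ⟨p0, p1, p2, pL, pμ, hμ⟩ := hμ
  -- polynomials
  set pU : ℝ[X] := ∑ i ∈ Finset.range 5, C (u (i + 1)) * X ^ i with hpU
  set pV : ℝ[X] := ∑ i ∈ Finset.range 6, C (v i) * X ^ i with hpV
  set pR : ℝ[X] := ∑ i ∈ Finset.range 6, C (r i) * X ^ i with hpR
  set pG : ℝ[X] := ∑ i ∈ Finset.range 4, C (g i) * X ^ (i + 1) with hpG
  -- U / t
  have hUt : (fun t => U t / t - pU.eval t) =O[𝓝[>] (0 : ℝ)] (fun t : ℝ => t ^ 5) := by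
    have h1 := hU.mul (isBigO_refl (fun t : ℝ => t⁻¹) (𝓝[>] (0 : ℝ)))
    refine h1.congr' ?_ ?_
    · filter_upwards [ev_small one_pos] with t ht
      have ht0 := ht.1.ne'
      rw [hpU, eval_finsetSum, Finset.sum_range_succ', hu0]
      simp only [eval_mul, eval_C, eval_pow, eval_X, Finset.sum_range_succ, Finset.sum_range_zero]
      field_simp
      ring
    · filter_upwards [ev_small one_pos] with t ht
      have ht0 := ht.1.ne'
      field_simp
  have hVt : (fun t => V t - pV.eval t) =O[𝓝[>] (0 : ℝ)] (fun t : ℝ => t ^ 5) := by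
    refine (hV.trans (pow_isBigO_pow (by norm_num))).congr_left fun t => ?_
    rw [hpV, eval_finsetSum]
    simp
  have hRt : (fun t => ρ t - pR.eval t) =O[𝓝[>] (0 : ℝ)] (fun t : ℝ => t ^ 5) := by
    refine (hρ.trans (pow_isBigO_pow (by norm_num))).congr_left fun t => ?_
    rw [hpR, eval_finsetSum]
    simp
  have hV0 : pV.eval 0 = 2 := by
    rw [hpV, eval_finsetSum]; simp [Finset.sum_range_succ, hv0]
  have hR0 : pR.eval 0 = 1 / 2 := by
    rw [hpR, eval_finsetSum]; simp [Finset.sum_range_succ, hr0]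
  obtain ⟨a, ha0, ha⟩ := inv_poly (by norm_num : (2 : ℝ) ≠ 0) hV0 hVt
  obtain ⟨d, hd0, hd⟩ := inv_poly (by norm_num : (1 / 2 : ℝ) ≠ 0) hR0 hRt
  -- t² μ
  have hM : Fm (fun t => t ^ 2 * μ t) (C p0 * X ^ 2 + C p1 * X ^ 3 + C (p2 + pμ * p0) * X ^ 4)
      (C pL * X ^ 2) 0 := by
    -- μ - p0 = O(t)
    have b1 : (fun t => μ t - p0) =O[𝓝[>] (0 : ℝ)] (fun t : ℝ => t) := by
      have c1 : (fun t : ℝ => t ^ 3 * (1 + Real.log (1 / t))) =O[𝓝[>] (0 : ℝ)] (fun t : ℝ => t) := by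
        have a1 := pow_log_isBigO (a := 3) (b := 1) (c := 1) (by norm_num)
        have a2 := pow_isBigO_pow (a := 3) (c := 1) (by norm_num)
        refine ((a2.add a1).congr_left fun t => ?_).congr_right fun t => by simp
        ring
      have c2 : (fun t : ℝ => p1 * t + t ^ 2 * (p2 + pL * Real.log (1 / t) + pμ * μ t))
          =O[𝓝[>] (0 : ℝ)] (fun t : ℝ => t) := by
        have d1 : (fun t : ℝ => p1 * t) =O[𝓝[>] (0 : ℝ)] (fun t : ℝ => t) :=
          (isBigO_refl _ _).const_mul_left p1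
        have d2 : (fun t : ℝ => p2 * t ^ 2) =O[𝓝[>] (0 : ℝ)] (fun t : ℝ => t) := by
          have := (pow_isBigO_pow (a := 2) (c := 1) (by norm_num)).const_mul_left p2
          simpa using this
        have d3 : (fun t : ℝ => pL * (t ^ 2 * Real.log (1 / t) ^ 1)) =O[𝓝[>] (0 : ℝ)]
            (fun t : ℝ => t) := by
          have := (pow_log_isBigO (a := 2) (b := 1) (c := 1) (by norm_num)).const_mul_left pL
          simpa using this
        have d4 : (fun t : ℝ => pμ * (t ^ 2 * μ t)) =O[𝓝[>] (0 : ℝ)] (fun t : ℝ => t) := by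
          have := ((pow_isBigO_pow (a := 2) (c := 1) (by norm_num)).mul hμb).const_mul_left pμ
          simpa using this
        refine (((d1.add d2).add d3).add d4).congr_left fun t => ?_
        ring
      refine ((hμ.trans c1).add c2).congr_left fun t => ?_
      ring
    have b2 : (fun t => pμ * (t ^ 4 * (μ t - p0))) =O[𝓝[>] (0 : ℝ)] (fun t : ℝ => t ^ 5 * (1 + Real.log (1 / t))) := by
      have := ((isBigO_refl (fun t : ℝ => t ^ 4) (𝓝[>] (0 : ℝ))).mul b1).const_mul_left pμ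
      refine (this.congr_right fun t => ?_).trans (pow_isBigO_powL le_rfl)
      ring
    have b3 := (isBigO_refl (fun t : ℝ => t ^ 2) (𝓝[>] (0 : ℝ))).mul hμ
    have b3' := b3.congr_right (g₂ := fun t : ℝ => t ^ 5 * (1 + Real.log (1 / t)))
      fun t => by ring
    refine (b3'.add b2).congr_left fun t => ?_
    simp only [eval_add, eval_mul, eval_C, eval_pow, eval_X]
    ring
  -- N = U/t - β t² L - t² μ
  have hL : Fm (fun t => β * (t ^ 2 * Real.log (1 / t))) 0 (C β) 0 := by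
    refine (isBigO_zero _ _).congr_left fun t => ?_
    simp
    ring
  have hN := ((Fm.of_poly hUt).sub hL).sub hM
  set pN := pU - 0 - (C p0 * X ^ 2 + C p1 * X ^ 3 + C (p2 + pμ * p0) * X ^ 4) with hpN
  set qN := 0 - C β - C pL * X ^ 2 with hqN
  set N : ℝ → ℝ := fun t => U t / t - β * (t ^ 2 * Real.log (1 / t)) - t ^ 2 * μ t with hNdef
  have hqN0 : qN.eval 0 = -β := by simp [hqN]
  have hN' : Fm N pN qN 0 := by simpa using hN
  -- x = β t³ L
  set x : ℝ → ℝ := fun t => β * (t ^ 3 * Real.log (1 / t)) with hx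
  have hNx : Fm (fun t => N t * x t) (C β * 0) (C β * (X * pN)) (β * -β) := by
    have := (hN'.mul_t3L).smul β
    rw [hqN0] at this
    refine this.congr' (Eventually.of_forall fun t => ?_)
    simp only [hx]; ring
  have ha0' : a.eval 0 = 1 / 2 := by rw [ha0]; norm_num
  have hd0' : d.eval 0 = 2 := by rw [hd0]; norm_num
  have h1 := hN'.mul_poly ha
  have h2 := (hNx.mul_poly ha).mul_poly ha
  have h3 := h1.sub h2
  -- V + x
  have hxO : x =O[𝓝[>] (0 : ℝ)] (fun t : ℝ => t ^ 2) := by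
    have := (pow_log_isBigO (a := 3) (b := 1) (c := 2) (by norm_num)).const_mul_left β
    refine this.congr_left fun t => ?_
    simp only [hx, pow_one]
  have hx2O : (fun t => x t ^ 2) =O[𝓝[>] (0 : ℝ)] (fun t : ℝ => t ^ 5) := by
    have := (pow_log_isBigO (a := 6) (b := 2) (c := 5) (by norm_num)).const_mul_left (β ^ 2)
    refine this.congr_left fun t => ?_
    simp only [hx]; ring
  have hpowt : ∀ k : ℕ, k ≠ 0 → Tendsto (fun t : ℝ => t ^ k) (𝓝[>] 0) (𝓝 0) := by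
    intro k hk
    have : Tendsto (fun t : ℝ => t ^ k) (𝓝 0) (𝓝 (0 ^ k)) := (continuous_pow k).tendsto 0
    rw [zero_pow hk] at this
    exact this.mono_left nhdsWithin_le_nhds
  have hVtend : Tendsto V (𝓝[>] 0) (𝓝 2) := by
    have h1 : Tendsto (fun t => V t - pV.eval t) (𝓝[>] 0) (𝓝 0) :=
      hVt.trans_tendsto (hpowt 5 (by norm_num))
    have h2 : Tendsto (fun t : ℝ => pV.eval t) (𝓝[>] 0) (𝓝 (pV.eval 0)) :=
      (pV.continuous.tendsto 0).mono_left nhdsWithin_le_nhds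
    have := h1.add h2
    simpa [hV0] using this
  have hxtend : Tendsto x (𝓝[>] 0) (𝓝 0) := hxO.trans_tendsto (hpowt 2 (by norm_num))
  have hVxtend : Tendsto (fun t => V t + x t) (𝓝[>] 0) (𝓝 2) := by
    simpa using hVtend.add hxtend
  have hρtend : Tendsto ρ (𝓝[>] 0) (𝓝 (1 / 2)) := by
    have h1 : Tendsto (fun t => ρ t - pR.eval t) (𝓝[>] 0) (𝓝 0) :=
      hRt.trans_tendsto (hpowt 5 (by norm_num))
    have h2 : Tendsto (fun t : ℝ => pR.eval t) (𝓝[>] 0) (𝓝 (pR.eval 0)) :=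
      (pR.continuous.tendsto 0).mono_left nhdsWithin_le_nhds
    have := h1.add h2
    simpa [hR0] using this
  have hrem : (fun t => N t * x t ^ 2 * ((V t)⁻¹ * (V t)⁻¹ * (V t + x t)⁻¹)) =O[𝓝[>] (0 : ℝ)]
      (fun t : ℝ => t ^ 5 * (1 + Real.log (1 / t))) := by
    have i1 : (fun t => (V t)⁻¹) =O[𝓝[>] (0 : ℝ)] (fun _ => (1 : ℝ)) :=
      (hVtend.inv₀ two_ne_zero).isBigO_one ℝ
    have i2 : (fun t => (V t + x t)⁻¹) =O[𝓝[>] (0 : ℝ)] (fun _ => (1 : ℝ)) :=
      (hVxtend.inv₀ two_ne_zero).isBigO_one ℝ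
    have := (hN'.bdd.mul hx2O).mul ((i1.mul i1).mul i2)
    refine (this.congr_right fun t => ?_).trans (pow_isBigO_powL le_rfl)
    ring
  have hαF : Fm α (pN * a - C β * 0 * a * a) (qN * a - C β * (X * pN) * a * a)
      (0 * a.eval 0 - β * -β * a.eval 0 * a.eval 0) := by
    refine Fm.of_isBigO ?_ h3
    refine hrem.congr' ?_ EventuallyEq.rfl
    filter_upwards [hα, hVtend.eventually_ne two_ne_zero, hVxtend.eventually_ne two_ne_zero,
      ev_small one_pos] with t h1 h2 h3 ht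
    have ht0 := ht.1.ne'
    have hα' : α t = N t * (V t + x t)⁻¹ := by
      rw [← div_eq_mul_inv, eq_div_iff h3]
      have : N t = (V t + x t) * α t := by
        simp only [hNdef, hx]
        have e1 : U t / t - β * (t ^ 2 * Real.log (1 / t)) = (U t - β * (t ^ 3 * Real.log (1 / t))) / t := by
          field_simp
        rw [e1, h1]; ring
      rw [this]; ring
    rw [hα']
    have h3' : V t + x t ≠ 0 := h3
    field_simp
    ring
  -- t G
  have hGF : Fm (fun t => t * G t) pG 0 0 := by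
    have := (isBigO_refl (fun t : ℝ => t) (𝓝[>] (0 : ℝ))).mul hG
    refine (this.congr_right fun t => ?_).congr_left fun t => ?_
    · ring
    · rw [hpG, eval_finsetSum]
      simp only [eval_mul, eval_C, eval_pow, eval_X, eval_zero, mul_zero, zero_mul, add_zero]
      rw [mul_sub, Finset.mul_sum]
      congr 1
      refine Finset.sum_congr rfl fun i _ => ?_
      ring
  have heF : Fm e 0 0 0 := by
    refine Fm.of_poly (p := 0) (he.congr_left fun t => ?_)
    simp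
  have hSF := ((hαF.sub hGF).sub heF).mul_poly hd
  have hSF' := hSF.congr' (g := S) (by
    filter_upwards [hS, hρtend.eventually_ne (by norm_num : (1 / 2 : ℝ) ≠ 0)] with t h1 h2
    rw [h1]
    field_simp
    ring)
  clear hSF hαF hGF heF
  set P := (pN * a - C β * 0 * a * a - pG - 0) * d with hP
  set Q := (qN * a - C β * (X * pN) * a * a - 0 - 0) * d with hQ
  have hQ0 : Q.eval 0 = -β := by
    rw [hQ]
    simp [ha0', hd0', hqN0]
  have hc : (0 * a.eval 0 - β * -β * a.eval 0 * a.eval 0 - 0 - 0) * d.eval 0 = β ^ 2 / 2 := by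
    rw [ha0', hd0']; ring
  rw [hc] at hSF'
  constructor
  · refine ⟨P.eval 0, P.coeff 1, ?_⟩
    -- P - P0 - P1 t = O(t²)
    have k1 : (fun t : ℝ => P.eval t - P.eval 0 - P.coeff 1 * t) =O[𝓝[>] (0 : ℝ)] (fun t : ℝ => t ^ 2) := by
      have e1 : ∀ t : ℝ, P.eval t - P.eval 0 - P.coeff 1 * t
          = t * (P.divX.eval t - P.divX.eval 0) := by
        intro t
        have h1 : P.eval t = P.divX.eval t * t + P.coeff 0 := by
          conv_lhs => rw [← Polynomial.divX_mul_X_add P]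
          simp
        have h2 : P.eval 0 = P.coeff 0 := (Polynomial.coeff_zero_eq_eval_zero P).symm
        have h3 : P.divX.eval 0 = P.coeff 1 := by
          rw [← Polynomial.coeff_zero_eq_eval_zero, Polynomial.coeff_divX]
        rw [h1, h2, h3]; ring
      simp_rw [e1]
      have := (isBigO_refl (fun t : ℝ => t) (𝓝[>] (0 : ℝ))).mul (eval_sub_isBigO P.divX)
      refine this.congr_right fun t => ?_
      ring
    have k2 : (fun t : ℝ => t ^ 2 * (Q.eval t - Q.eval 0) * Real.log (1 / t)) =O[𝓝[>] (0 : ℝ)]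
        (fun t : ℝ => t ^ 2) := by
      have a1 := (eval_sub_isBigO Q).mul (isBigO_refl (fun t : ℝ => t ^ 2 * Real.log (1 / t)) (𝓝[>] (0 : ℝ)))
      have a2 := pow_log_isBigO (a := 3) (b := 1) (c := 2) (by norm_num)
      refine (a1.congr_left fun t => ?_).trans (a2.congr_left fun t => ?_)
      · ring
      · ring
    have k3 : (fun t : ℝ => β ^ 2 / 2 * (t ^ 5 * Real.log (1 / t) ^ 2)) =O[𝓝[>] (0 : ℝ)]
        (fun t : ℝ => t ^ 2) :=
      (pow_log_isBigO (a := 5) (b := 2) (c := 2) (by norm_num)).const_mul_left _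
    have k4 : (fun t : ℝ => t ^ 5 * (1 + Real.log (1 / t))) =O[𝓝[>] (0 : ℝ)] (fun t : ℝ => t ^ 2) := by
      have a1 := pow_log_isBigO (a := 5) (b := 1) (c := 2) (by norm_num)
      have a2 := pow_isBigO_pow (a := 5) (c := 2) (by norm_num)
      refine (a2.add a1).congr_left fun t => ?_
      ring
    refine ((((IsBigO.trans hSF' k4).add k1).add k2).add k3).congr_left fun t => ?_
    rw [hQ0]
    ring
  · refine ⟨fun t => P.eval t + t ^ 2 * Q.eval t * Real.log (1 / t), ?_, ?_⟩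
    · have e1 : (fun t : ℝ => P.eval t + t ^ 2 * Q.eval t * Real.log (1 / t))
          = ∑ i ∈ P.support, P.coeff i • (fun t : ℝ => t ^ (i : ℝ))
          + ∑ i ∈ Q.support, Q.coeff i • (fun t : ℝ => t ^ ((2 + i : ℕ) : ℝ) * Real.log (1 / t)) := by
        funext t
        simp only [Pi.add_apply, Finset.sum_apply, Pi.smul_apply, smul_eq_mul, Real.rpow_natCast]
        rw [Polynomial.eval_eq_sum, Polynomial.eval_eq_sum, Polynomial.sum, Polynomial.sum]
        rw [Finset.mul_sum, Finset.sum_mul]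
        congr 1
        refine Finset.sum_congr rfl fun i _ => ?_
        ring
      rw [e1]
      refine Submodule.add_mem _ ?_ ?_
      · refine Submodule.sum_mem _ fun i _ => Submodule.smul_mem _ _ (Submodule.subset_span ?_)
        exact Or.inl ⟨i, rfl⟩
      · refine Submodule.sum_mem _ fun i _ => Submodule.smul_mem _ _ (Submodule.subset_span ?_)
        exact Or.inr ⟨((2 + i : ℕ) : ℝ), rfl⟩
    · refine IsBigO.congr_left hSF' fun t => ?_
      ring

end F526
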