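import Pool.Agent.Lib.MP_f52611_an.Core1

open Filter Topology Asymptotics

namespace F526

/-- the cut-off index of the region `t (m+1)^(2/3) ≤ 1` -/
noncomputable def cut (t : ℝ) : ℕ := ⌊t ^ (-(3 / 2) : ℝ)⌋₊

lemma rpow_aux {t : ℝ} (ht : 0 < t) : (t ^ (-(3 / 2) : ℝ)) ^ (2 / 3 : ℝ) = t⁻¹ := by
  rw [← Real.rpow_mul ht.le]
  norm_num
  exact Real.rpow_neg_one t

lemma lt_cut_iff {t : ℝ} (ht : 0 < t) (m : ℕ) : m < cut t ↔ t * mon (2 / 3) m ≤ 1 := by
  have hy : 0 < t ^ (-(3 / 2) : ℝ) := Real.rpow_pos_of_pos ht _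
  unfold cut
  rw [← Nat.succ_le_iff, Nat.le_floor_iff hy.le]
  have h1 : ((m.succ : ℕ) : ℝ) = xb m := by unfold xb; push_cast; ring
  rw [h1]
  have h2 : xb m ≤ t ^ (-(3 / 2) : ℝ) ↔ xb m ^ (2 / 3 : ℝ) ≤ (t ^ (-(3 / 2) : ℝ)) ^ (2 / 3 : ℝ) :=
    (Real.rpow_le_rpow_iff (xb_pos m).le hy.le (by norm_num)).symm
  rw [h2, rpow_aux ht]
  unfold mon
  rw [← one_div, le_div_iff₀ ht, mul_comm]

lemma one_lt_cut {t : ℝ} (ht : 0 < t) : 1 < t * mon (2 / 3) (cut t) := by
  by_contra h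
  push Not at h
  exact lt_irrefl _ ((lt_cut_iff ht _).mpr h)

/-- powers beyond the cut -/
lemma mon_cut_le {t : ℝ} (ht : 0 < t) (k : ℕ) :
    mon (-(2 / 3) * k) (cut t) ≤ t ^ k := by
  have h1 := one_lt_cut ht
  have hm := mon_pos (2 / 3) (cut t)
  have h2 : mon (-(2 / 3) * k) (cut t) = ((mon (2 / 3) (cut t)) ^ k)⁻¹ := by
    rw [mon_pow]
    unfold mon
    rw [← Real.rpow_neg (xb_pos _).le]
    congr 1; ring
  rw [h2, inv_le_comm₀ (pow_pos hm k) (pow_pos ht k), ← inv_pow]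
  refine pow_le_pow_left₀ (inv_nonneg.mpr ht.le) ?_ k
  rw [inv_le_iff_one_le_mul₀ ht, mul_comm]
  exact h1.le

lemma sum_mon_neg_one_le {t : ℝ} (ht : 0 < t) (ht1 : t < 1) :
    ∑ m ∈ Finset.range (cut t), mon (-1) m ≤ 2 * (1 + Real.log (1 / t)) := by
  have h1 : ∑ m ∈ Finset.range (cut t), mon (-1) m = ((harmonic (cut t) : ℚ) : ℝ) := by
    unfold harmonic
    push_cast
    refine Finset.sum_congr rfl fun m _ => ?_
    unfold mon xb
    rw [Real.rpow_neg_one]
  have hL : 0 ≤ Real.log (1 / t) := Real.log_nonneg (by rw [le_div_iff₀ ht]; linarith)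
  rw [h1]
  have h2 := harmonic_le_one_add_log (cut t)
  rcases Nat.eq_zero_or_pos (cut t) with h0 | h0
  · have h00 : ((harmonic 0 : ℚ) : ℝ) = 0 := by simp
    rw [h0, h00]; positivity
  have h3 : Real.log (cut t) ≤ (3 / 2) * Real.log (1 / t) := by
    have hy : 0 < t ^ (-(3 / 2) : ℝ) := Real.rpow_pos_of_pos ht _
    have h4 : (cut t : ℝ) ≤ t ^ (-(3 / 2) : ℝ) := Nat.floor_le hy.le
    have h5 := Real.log_le_log (by exact_mod_cast h0) h4
    rw [Real.log_rpow ht] at h5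
    rw [one_div, Real.log_inv]
    linarith
  linarith

lemma shift_tail {γ : ℝ} (hγ : γ < -1) : ∃ S, 0 < S ∧ ∀ (c : ℕ → ℝ) (C : ℝ), 0 ≤ C →
    ∀ k : ℕ, (∀ m, k ≤ m → |c m| ≤ C * mon γ m) → Summable (fun i => c (i + k)) ∧
      |∑' i, c (i + k)| ≤ C * (S * mon (γ + 1) k) := by
  obtain ⟨S, hS, h⟩ := tsum_tail_mon_le hγ
  refine ⟨S, hS, fun c C hC k hc => ?_⟩
  have hsh : Summable fun i => mon γ (i + k) := (summable_nat_add_iff k).mpr (summable_mon hγ)
  have hs : Summable (fun i => c (i + k)) :=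
    Summable.of_norm_bounded (hsh.mul_left C) fun m => hc _ (Nat.le_add_left _ _)
  refine ⟨hs, ?_⟩
  calc |∑' j, c (j + k)| ≤ ∑' j, |c (j + k)| := norm_tsum_le_tsum_norm hs.norm
    _ ≤ ∑' j, C * mon γ (j + k) :=
        Summable.tsum_le_tsum (fun j => hc _ (Nat.le_add_left _ _)) hs.norm (hsh.mul_left C)
    _ = C * ∑' j, mon γ (j + k) := tsum_mul_left
    _ ≤ _ := mul_le_mul_of_nonneg_left (h k) hC

lemma TA_head {A : ℕ → ℝ → ℝ} (hA : A ∈ TA (2 / 3) (-(11 / 3))) :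
    ∃ (a : ℕ → ℝ) (C : ℝ), ∀ t, 0 < t → t < 1 →
      |∑ m ∈ Finset.range (cut t), A m t - ∑ i ∈ Finset.range 4, a i * t ^ i|
        ≤ C * (t ^ 4 * (1 + Real.log (1 / t))) := by
  induction hA using Submodule.span_induction with
  | mem F hF =>
    obtain ⟨i, c, ⟨C0, hC0⟩, rfl⟩ := hF
    set C := |C0| with hCdef
    have hCn : 0 ≤ C := abs_nonneg _
    have hC : ∀ m, |c m| ≤ C * mon (-(11 / 3) + 2 / 3 * i) m := fun m =>
      (hC0 m).trans (mul_le_mul_of_nonneg_right (le_abs_self C0) (mon_pos _ _).le)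
    by_cases hi : i < 4
    · have hi3 : (i : ℝ) ≤ 3 := by exact_mod_cast Nat.lt_succ_iff.mp hi
      have hγ : -(11 / 3) + 2 / 3 * (i : ℝ) < -1 := by linarith
      obtain ⟨S, hS, hT⟩ := shift_tail hγ
      have hsum : Summable c := by
        have := (hT c C hCn 0 fun m _ => hC m).1
        simpa using this
      refine ⟨Pi.single i (∑' m, c m), C * S, fun t ht ht1 => ?_⟩
      have hL : 0 ≤ Real.log (1 / t) := Real.log_nonneg (by rw [le_div_iff₀ ht]; linarith)
      have e1 : ∑ j ∈ Finset.range 4, (Pi.single i (∑' m, c m) : ℕ → ℝ) j * t ^ j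
          = (∑' m, c m) * t ^ i := by
        rw [Finset.sum_eq_single i]
        · simp
        · intro b _ hb; simp [Pi.single_eq_of_ne hb]
        · intro h; exact absurd (Finset.mem_range.mpr hi) h
      rw [e1, ← Finset.mul_sum]
      have e2 := hsum.sum_add_tsum_nat_add (cut t)
      have e3 : t ^ i * ∑ m ∈ Finset.range (cut t), c m - (∑' m, c m) * t ^ i
          = -(t ^ i * ∑' m, c (m + cut t)) := by
        rw [← e2]; ring
      rw [e3, abs_neg, abs_mul, abs_of_pos (pow_pos ht i)]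
      have h4 := (hT c C hCn (cut t) fun m _ => hC m).2
      have h5 : mon (-(11 / 3) + 2 / 3 * (i : ℝ) + 1) (cut t) ≤ t ^ (4 - i) := by
        have h6 := mon_cut_le ht (4 - i)
        have e4 : -(2 / 3) * (((4 - i : ℕ) : ℝ)) = -(11 / 3) + 2 / 3 * (i : ℝ) + 1 := by
          rw [Nat.cast_sub hi.le]; push_cast; ring
        rwa [e4] at h6
      calc t ^ i * |∑' m, c (m + cut t)| ≤ t ^ i * (C * (S * t ^ (4 - i))) := by
            refine mul_le_mul_of_nonneg_left (h4.trans ?_) (pow_pos ht i).le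
            exact mul_le_mul_of_nonneg_left (mul_le_mul_of_nonneg_left h5 hS.le) hCn
        _ = C * S * (t ^ i * t ^ (4 - i)) := by ring
        _ = C * S * t ^ 4 := by rw [← pow_add, Nat.add_sub_cancel' hi.le]
        _ ≤ C * S * (t ^ 4 * (1 + Real.log (1 / t))) := by
            refine mul_le_mul_of_nonneg_left ?_ (by positivity)
            have := pow_pos ht 4
            nlinarith
    · push Not at hi
      refine ⟨0, C * 2, fun t ht ht1 => ?_⟩
      have e1 : ∑ j ∈ Finset.range 4, (0 : ℕ → ℝ) j * t ^ j = 0 := by simp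
      rw [e1, sub_zero]
      calc |∑ m ∈ Finset.range (cut t), t ^ i * c m|
          ≤ ∑ m ∈ Finset.range (cut t), |t ^ i * c m| := Finset.abs_sum_le_sum_abs _ _
        _ ≤ ∑ m ∈ Finset.range (cut t), C * (t ^ 4 * mon (-1) m) := by
            refine Finset.sum_le_sum fun m hm => ?_
            have hr := (lt_cut_iff ht m).mp (Finset.mem_range.mp hm)
            have h1 := pow_mon_le (γ := -(11 / 3)) ht hr hi
            have e2 : -(11 / 3) + 2 / 3 * ((4 : ℕ) : ℝ) = -1 := by norm_num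
            rw [e2] at h1
            rw [abs_mul, abs_of_pos (pow_pos ht i)]
            calc t ^ i * |c m| ≤ t ^ i * (C * mon (-(11 / 3) + 2 / 3 * i) m) :=
                  mul_le_mul_of_nonneg_left (hC m) (pow_pos ht i).le
              _ = C * (t ^ i * mon (-(11 / 3) + 2 / 3 * i) m) := by ring
              _ ≤ _ := mul_le_mul_of_nonneg_left h1 hCn
        _ = C * (t ^ 4 * ∑ m ∈ Finset.range (cut t), mon (-1) m) := by
            rw [Finset.mul_sum, Finset.mul_sum]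
        _ ≤ C * (t ^ 4 * (2 * (1 + Real.log (1 / t)))) := by
            have := sum_mon_neg_one_le ht ht1
            gcongr
        _ = _ := by ring
  | zero => exact ⟨0, 0, fun t _ _ => by simp⟩
  | add F G _ _ hF hG =>
    obtain ⟨a, C, hC⟩ := hF
    obtain ⟨b, D, hD⟩ := hG
    refine ⟨a + b, C + D, fun t ht ht1 => ?_⟩
    have h := (abs_add_le _ _).trans (add_le_add (hC t ht ht1) (hD t ht ht1))
    have e : ∑ m ∈ Finset.range (cut t), (F + G) m t - ∑ i ∈ Finset.range 4, (a + b) i * t ^ i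
        = (∑ m ∈ Finset.range (cut t), F m t - ∑ i ∈ Finset.range 4, a i * t ^ i)
          + (∑ m ∈ Finset.range (cut t), G m t - ∑ i ∈ Finset.range 4, b i * t ^ i) := by
      simp only [Pi.add_apply, Finset.sum_add_distrib, add_mul]; ring
    rw [e, add_mul]
    exact h
  | smul r F _ hF =>
    obtain ⟨a, C, hC⟩ := hF
    refine ⟨r • a, |r| * C, fun t ht ht1 => ?_⟩
    have e : ∑ m ∈ Finset.range (cut t), (r • F) m t - ∑ i ∈ Finset.range 4, (r • a) i * t ^ i
        = r * (∑ m ∈ Finset.range (cut t), F m t - ∑ i ∈ Finset.range 4, a i * t ^ i) := by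
      simp only [Pi.smul_apply, smul_eq_mul, mul_sub, Finset.mul_sum, mul_assoc]
    rw [e, abs_mul, mul_assoc]
    exact mul_le_mul_of_nonneg_left (hC t ht ht1) (abs_nonneg r)

theorem T_sum {F : ℕ → ℝ → ℝ} (hF : T (2 / 3) 4 (-(11 / 3)) F)
    (hb : ∃ C, ∀ᶠ t in 𝓝[>] (0 : ℝ), ∀ m, |F m t| ≤ C * mon (-(11 / 3)) m) :
    ∃ a : ℕ → ℝ, (fun t => ∑' m, F m t - ∑ i ∈ Finset.range 4, a i * t ^ i) =O[𝓝[>] (0 : ℝ)]
      (fun t : ℝ => t ^ 4 * (1 + Real.log (1 / t))) := by
  obtain ⟨A, hA, C, hC0, hC⟩ := hF.exists_nonneg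
  obtain ⟨D0, hD0⟩ := hb
  obtain ⟨a, E, hE⟩ := TA_head hA
  obtain ⟨S, hS, hT⟩ := shift_tail (γ := -(11 / 3)) (by norm_num)
  refine ⟨a, IsBigO.of_bound (E + C * 2 + |D0| * S) ?_⟩
  filter_upwards [hC, hD0, eventually_lt' one_pos] with t ⟨ht, h1⟩ h2 ht1
  have hL : 0 ≤ Real.log (1 / t) := Real.log_nonneg (by rw [le_div_iff₀ ht]; linarith)
  have ht4 := pow_pos ht 4
  have h2' : ∀ m, |F m t| ≤ |D0| * mon (-(11 / 3)) m := fun m =>
    (h2 m).trans (mul_le_mul_of_nonneg_right (le_abs_self D0) (mon_pos _ _).le)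
  obtain ⟨_, h3⟩ := hT (fun m => F m t) |D0| (abs_nonneg _) (cut t) fun m _ => h2' m
  have hs : Summable fun m => F m t := by
    have := (hT (fun m => F m t) |D0| (abs_nonneg _) 0 fun m _ => h2' m).1
    simpa using this
  have e1 := hs.sum_add_tsum_nat_add (cut t)
  have e2 : ∑' m, F m t - ∑ i ∈ Finset.range 4, a i * t ^ i
      = (∑ m ∈ Finset.range (cut t), A m t - ∑ i ∈ Finset.range 4, a i * t ^ i)
        + ∑ m ∈ Finset.range (cut t), (F m t - A m t) + ∑' m, F (m + cut t) t := by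
    rw [← e1, Finset.sum_sub_distrib]; ring
  rw [e2, Real.norm_eq_abs, Real.norm_of_nonneg (by positivity)]
  have b1 := hE t ht ht1
  have b2 : |∑ m ∈ Finset.range (cut t), (F m t - A m t)|
      ≤ C * 2 * (t ^ 4 * (1 + Real.log (1 / t))) := by
    calc |∑ m ∈ Finset.range (cut t), (F m t - A m t)|
        ≤ ∑ m ∈ Finset.range (cut t), |F m t - A m t| := Finset.abs_sum_le_sum_abs _ _
      _ ≤ ∑ m ∈ Finset.range (cut t), C * (t ^ 4 * mon (-1) m) := by
          refine Finset.sum_le_sum fun m hm => ?_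
          have hr := (lt_cut_iff ht m).mp (Finset.mem_range.mp hm)
          have h4 := h1 m hr
          have e3 : -(11 / 3) + 2 / 3 * ((4 : ℕ) : ℝ) = -1 := by norm_num
          rwa [e3] at h4
      _ = C * (t ^ 4 * ∑ m ∈ Finset.range (cut t), mon (-1) m) := by
          rw [Finset.mul_sum, Finset.mul_sum]
      _ ≤ C * (t ^ 4 * (2 * (1 + Real.log (1 / t)))) := by
          have := sum_mon_neg_one_le ht ht1
          gcongr
      _ = _ := by ring
  have b3 : |∑' m, F (m + cut t) t| ≤ |D0| * S * (t ^ 4 * (1 + Real.log (1 / t))) := by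
    have h5 := mon_cut_le ht 4
    have e4 : -(2 / 3) * (((4 : ℕ) : ℝ)) = -(11 / 3) + 1 := by norm_num
    rw [e4] at h5
    calc |∑' m, F (m + cut t) t| ≤ |D0| * (S * mon (-(11 / 3) + 1) (cut t)) := h3
      _ ≤ |D0| * (S * t ^ 4) := by gcongr
      _ = |D0| * S * t ^ 4 := by ring
      _ ≤ _ := by
          refine mul_le_mul_of_nonneg_left ?_ (by positivity)
          nlinarith
  refine (abs_add_le _ _).trans ?_
  have b4 := abs_add_le (∑ m ∈ Finset.range (cut t), A m t - ∑ i ∈ Finset.range 4, a i * t ^ i)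
    (∑ m ∈ Finset.range (cut t), (F m t - A m t))
  rw [add_mul, add_mul]
  linarith

end F526
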