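import Pool.Agent.Lib.MP_f52611_an.Core7
import Pool.Agent.Lib.MP_f52611_an.Boot
import Pool.Agent.Lib.MP_f52611_an.TSum
import Pool.Agent.Lib.MP_f52611_an.SForm

open Filter Topology Asymptotics

namespace F526

variable {x : ℕ → ℕ → ℝ} {δ ω : ℕ → ℝ} {Z : ℕ → ℝ → ℝ}

lemma tendsto_of_T_small {N : ℕ} {γ : ℝ} (hγ : γ ≤ 0) {d : ℕ → ℝ → ℝ} (hd : T 0 N γ d) (k : ℕ) :
    Tendsto (fun t => t * d k t) (𝓝[>] (0 : ℝ)) (𝓝 0) := by
  rw [Metric.tendsto_nhds]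
  intro ε hε
  filter_upwards [small_of_T hγ hd (half_pos hε)] with t ht
  rw [dist_zero_right, Real.norm_eq_abs]
  have := ht k
  linarith

lemma tendsto_Xo (h : CD x δ ω) (k : ℕ) : Tendsto (fun t => Xo x k t) (𝓝[>] (0 : ℝ)) (𝓝 1) := by
  have := (tendsto_of_T_small (by norm_num) (T_X1 h 1) k).const_add 1
  rw [add_zero] at this
  exact this.congr fun t => (Xo_eq h k t).symm

lemma tendsto_Xo_neg (h : CD x δ ω) (k : ℕ) :
    Tendsto (fun t => Xo x k (-t)) (𝓝[>] (0 : ℝ)) (𝓝 1) := by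
  have := (tendsto_of_T_small (by norm_num) (T_X1m h 1) k).const_add 1
  rw [add_zero] at this
  exact this.congr fun t => (Xo_neg_eq h k t).symm

lemma tendsto_rhoI (h : CD x δ ω) : Tendsto (rhoI x δ ω) (𝓝[>] (0 : ℝ)) (𝓝 (1 / 2)) := by
  have h1 : Tendsto (fun t => Wr x 0 t) (𝓝[>] (0 : ℝ)) (𝓝 2) := by
    have h2 := ((tendsto_Xo h 0).inv₀ one_ne_zero).add ((tendsto_Xo_neg h 0).inv₀ one_ne_zero)
    have e : (1 : ℝ)⁻¹ + (1 : ℝ)⁻¹ = 2 := by norm_num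
    rw [e] at h2
    exact h2.congr fun t => (Wr_zero_eq t).symm
  have h3 : T 0 6 0 (fun _ t => ∑' i, lr x δ ω i t) := by
    have := ((T_lr h).tail (by norm_num)).freeze 0
    simpa using this
  have h4 := tendsto_of_T_small le_rfl h3 0
  have h5 := (Real.continuous_exp.tendsto 0).comp h4
  have h6 := (h1.inv₀ (by norm_num)).mul h5
  have e : (2 : ℝ)⁻¹ * Real.exp 0 = 1 / 2 := by rw [Real.exp_zero]; norm_num
  rw [e] at h6
  exact h6

lemma inv_taylor (h : CD x δ ω) : ∃ a : ℕ → ℝ, a 0 = 1 ∧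
    (fun t => (Xo x 0 t)⁻¹ - ∑ i ∈ Finset.range 6, a i * t ^ i) =O[𝓝[>] (0 : ℝ)]
      (fun t : ℝ => t ^ 6) := by
  obtain ⟨a, ha⟩ := (T_inv (by norm_num) (T_X1 h 6)).taylor 0
  have h1 : (fun t => (1 + t * X1 x 0 t)⁻¹) = fun t => (Xo x 0 t)⁻¹ := by
    ext t; rw [Xo_eq h]
  have h2 : (fun t => (Xo x 0 t)⁻¹ - ∑ i ∈ Finset.range 6, a i * t ^ i) =O[𝓝[>] (0 : ℝ)]
      (fun t : ℝ => t ^ 6) := by
    refine ha.congr_left fun t => ?_
    rw [Xo_eq h]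
  refine ⟨a, ?_, h2⟩
  have h3 := (tendsto_Xo h 0).inv₀ one_ne_zero
  rw [inv_one] at h3
  exact taylor_zero (by norm_num) h2 h3

lemma inv_taylor_neg (h : CD x δ ω) : ∃ a : ℕ → ℝ, a 0 = 1 ∧
    (fun t => (Xo x 0 (-t))⁻¹ - ∑ i ∈ Finset.range 6, a i * t ^ i) =O[𝓝[>] (0 : ℝ)]
      (fun t : ℝ => t ^ 6) := by
  obtain ⟨a, ha⟩ := (T_inv (by norm_num) (T_X1m h 6)).taylor 0
  have h2 : (fun t => (Xo x 0 (-t))⁻¹ - ∑ i ∈ Finset.range 6, a i * t ^ i) =O[𝓝[>] (0 : ℝ)]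
      (fun t : ℝ => t ^ 6) := by
    refine ha.congr_left fun t => ?_
    rw [Xo_neg_eq h]
  refine ⟨a, ?_, h2⟩
  have h3 := (tendsto_Xo_neg h 0).inv₀ one_ne_zero
  rw [inv_one] at h3
  exact taylor_zero (by norm_num) h2 h3

/-- the weighted sum of squares -/
noncomputable def SSq (x : ℕ → ℕ → ℝ) (ω : ℕ → ℝ) (t : ℝ) : ℝ := ∑' m, ω m * Po x (m + 1) t ^ 2

noncomputable def GGq (x : ℕ → ℕ → ℝ) (δ ω : ℕ → ℝ) (t : ℝ) : ℝ :=
  ∑' m, ω m * Po x (m + 1) t ^ 2 * tau x δ ω m t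

noncomputable def EEq (x : ℕ → ℕ → ℝ) (δ ω : ℕ → ℝ) (t : ℝ) : ℝ :=
  -∑' m, (-1) ^ m * (er x δ m t / t) * rho x δ ω m t * Po x (m + 1) t ^ 2

lemma P2_le (h : CD x δ ω) : ∀ᶠ t in 𝓝[>] (0 : ℝ), ∀ k, 0 ≤ Po x (k + 1) t ^ 2 ∧
    Po x (k + 1) t ^ 2 ≤ 4 := by
  filter_upwards [Po_decay h] with t ⟨hP, _, hP2, _⟩ k
  refine ⟨sq_nonneg _, ?_⟩
  have := pow_le_pow_left₀ (hP (k + 1)).le (hP2 (k + 1)) 2
  linarith

lemma om_P2_bound (h : CD x δ ω) : ∃ C, 0 < C ∧ ∀ᶠ t in 𝓝[>] (0 : ℝ), ∀ m,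
    |ω m * Po x (m + 1) t ^ 2| ≤ C * mon (-(7 / 3)) m := by
  obtain ⟨C, hC, hb⟩ := h.ωb
  refine ⟨C * 4, by positivity, ?_⟩
  filter_upwards [P2_le h] with t h1 m
  rw [abs_mul, abs_of_nonneg (h1 m).1]
  have h2 := mul_le_mul (hb m) (h1 m).2 (h1 m).1 ((abs_nonneg _).trans (hb m))
  linarith

lemma F_bound (h : CD x δ ω) : ∃ C, ∀ᶠ t in 𝓝[>] (0 : ℝ), ∀ m,
    |ω m * Po x (m + 1) t ^ 2 * tau x δ ω m t| ≤ C * mon (-(11 / 3)) m := by
  obtain ⟨C, hC, hb⟩ := om_P2_bound h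
  obtain ⟨D, hD, hd⟩ := (T_tau h).unif
  refine ⟨C * D, ?_⟩
  filter_upwards [hb, hd] with t h1 h2 m
  rw [abs_mul]
  have h3 := mul_le_mul (h1 m) (h2 m) (abs_nonneg _) ((abs_nonneg _).trans (h1 m))
  refine h3.trans (le_of_eq ?_)
  have e : mon (-(7 / 3)) m * mon (-(4 / 3)) m = mon (-(11 / 3)) m := by
    rw [mon_mul_apply]; congr 1; norm_num
  rw [← e]; ring

lemma T_F (h : CD x δ ω) : T (2 / 3) 4 (-(11 / 3)) (fun m t => ω m * Po x (m + 1) t ^ 2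
    * tau x δ ω m t) := by
  have h1 := (T_om h (2 / 3) 4).mul' (γ'' := -(7 / 3)) (by norm_num) (T_P2 h 4)
  have h2 := ((T_tau h).rate (by norm_num : (0 : ℝ) ≤ 2 / 3)).mono_N (show 4 ≤ 6 by norm_num)
  exact h1.mul' (by norm_num) h2

lemma e_bound (h : CD x δ ω) : ∃ C, 0 < C ∧ ∀ᶠ t in 𝓝[>] (0 : ℝ), ∀ m,
    |(-1) ^ m * (er x δ m t / t) * rho x δ ω m t * Po x (m + 1) t ^ 2|
      ≤ C * (t ^ 6 * mon (-(7 / 3)) m) := by
  obtain ⟨C, t0, hC, ht0, ht01, hb⟩ := er_bound h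
  obtain ⟨D, hD, hd⟩ := (T_rho h).unif
  refine ⟨C * D * 4, by positivity, ?_⟩
  filter_upwards [hd, P2_le h, eventually_pos', eventually_lt' ht0] with t h1 h2 ht htt m
  have h3 := hb t (by rw [abs_of_pos ht]; exact htt.le) m
  rw [abs_of_pos ht] at h3
  have h4 : |er x δ m t / t| ≤ C * (t ^ 6 * mon (-(7 / 3)) m) := by
    rw [abs_div, abs_of_pos ht, div_le_iff₀ ht]
    refine h3.trans (le_of_eq (by ring))
  have h5 : |rho x δ ω m t| ≤ D := by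
    have := h1 m
    rwa [mon_zero, Pi.one_apply, mul_one] at this
  rw [abs_mul, abs_mul, abs_mul, abs_pow, abs_neg, abs_one, one_pow, one_mul,
    abs_of_nonneg (h2 m).1]
  have h6 := mul_le_mul h4 h5 (abs_nonneg _) ((abs_nonneg _).trans h4)
  have h7 := mul_le_mul h6 (h2 m).2 (h2 m).1 (le_trans (by positivity) h6)
  refine h7.trans (le_of_eq (by ring))

lemma EEq_isBigO (h : CD x δ ω) : (EEq x δ ω) =O[𝓝[>] (0 : ℝ)] (fun t : ℝ => t ^ 5) := by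
  obtain ⟨C, hC, hb⟩ := e_bound h
  have hs := summable_mon (by norm_num : (-(7 / 3) : ℝ) < -1)
  refine IsBigO.of_bound (C * ∑' m, mon (-(7 / 3)) m) ?_
  filter_upwards [hb, eventually_pos', eventually_lt' one_pos] with t h1 ht ht1
  have hsum : Summable fun m => (-1) ^ m * (er x δ m t / t) * rho x δ ω m t * Po x (m + 1) t ^ 2 :=
    Summable.of_norm_bounded ((hs.mul_left (t ^ 6)).mul_left C) h1
  unfold EEq
  rw [norm_neg, Real.norm_of_nonneg (pow_pos ht 5).le]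
  refine (norm_tsum_le_tsum_norm hsum.norm).trans ?_
  have h2 := Summable.tsum_le_tsum h1 hsum.norm ((hs.mul_left (t ^ 6)).mul_left C)
  refine h2.trans ?_
  rw [tsum_mul_left, tsum_mul_left]
  have h3 : 0 ≤ ∑' m, mon (-(7 / 3)) m := tsum_nonneg fun i => (mon_pos _ i).le
  have h4 : t ^ 6 ≤ t ^ 5 := pow_le_pow_of_le_one ht.le ht1.le (by norm_num)
  calc C * (t ^ 6 * ∑' m, mon (-(7 / 3)) m) ≤ C * (t ^ 5 * ∑' m, mon (-(7 / 3)) m) := by gcongr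
    _ = _ := by ring

lemma al_split (h : CD x δ ω) : ∀ᶠ t in 𝓝[>] (0 : ℝ),
    al x δ ω 0 t = rhoI x δ ω t * SSq x ω t + t * GGq x δ ω t + EEq x δ ω t := by
  obtain ⟨C1, hC1, hb1⟩ := om_P2_bound h
  obtain ⟨C2, hb2⟩ := F_bound h
  obtain ⟨C3, hC3, hb3⟩ := e_bound h
  have hs := summable_mon (by norm_num : (-(7 / 3) : ℝ) < -1)
  have hs' := summable_mon (by norm_num : (-(11 / 3) : ℝ) < -1)
  filter_upwards [hb1, hb2, hb3, rho_split h] with t h1 h2 h3 h4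
  have s1 : Summable fun m => ω m * Po x (m + 1) t ^ 2 :=
    Summable.of_norm_bounded (hs.mul_left C1) h1
  have s2 : Summable fun m => ω m * Po x (m + 1) t ^ 2 * tau x δ ω m t :=
    Summable.of_norm_bounded (hs'.mul_left C2) h2
  have s3 : Summable fun m => (-1) ^ m * (er x δ m t / t) * rho x δ ω m t * Po x (m + 1) t ^ 2 :=
    Summable.of_norm_bounded ((hs.mul_left (t ^ 6)).mul_left C3) h3
  unfold al SSq GGq EEq
  rw [← tsum_mul_left, ← tsum_mul_left, ← tsum_neg,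
    ← (s1.mul_left (rhoI x δ ω t)).tsum_add (s2.mul_left t),
    ← ((s1.mul_left (rhoI x δ ω t)).add (s2.mul_left t)).tsum_add s3.neg]
  refine tsum_congr fun m => ?_
  rw [add_zero]
  unfold at'
  rw [h4 m]
  ring

/-- the two facts about the weighted sum of squares -/
theorem mod_side (h : CD x δ ω) (hZ : ZD δ ω Z) {b : ℕ → ℝ} {β : ℝ} (hb0 : b 0 = 1)
    (htr : (fun t => Z 1 t - ((∑ i ∈ Finset.range 6, b i * t ^ i)
      + β * (t ^ 3 * Real.log (1 / t)))) =O[𝓝[>] (0 : ℝ)] (fun t : ℝ => t ^ 6)) :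
    (∃ c0 c1 : ℝ, (fun t => SSq x ω t - (c0 + c1 * t - β * (t ^ 2 * Real.log (1 / t))))
      =O[𝓝[>] (0 : ℝ)] (fun t : ℝ => t ^ 2)) ∧
    ∃ s ∈ Submodule.span ℝ ({f | ∃ ρ : ℝ, f = fun t => t ^ ρ} ∪
      {f | ∃ ρ : ℝ, f = fun t : ℝ => t ^ ρ * Real.log (1 / t)} : Set (ℝ → ℝ)),
      (fun t => SSq x ω t - s t - β ^ 2 / 2 * (t ^ 5 * Real.log (1 / t) ^ 2)) =O[𝓝[>] (0 : ℝ)]
      (fun t : ℝ => t ^ 5 * (1 + Real.log (1 / t))) := by
  obtain ⟨a, ha0, ha⟩ := inv_taylor h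
  obtain ⟨a', ha0', ha'⟩ := inv_taylor_neg h
  obtain ⟨r, hr⟩ := (T_rhoI h).taylor 0
  have hr0 : r 0 = 1 / 2 := taylor_zero (by norm_num) hr (tendsto_rhoI h)
  obtain ⟨g, hg⟩ := T_sum (T_F h) (F_bound h)
  -- U and V
  set U : ℝ → ℝ := fun t => (Xo x 0 t)⁻¹ - Z 1 t + β * (t ^ 3 * Real.log (1 / t)) with hU
  set V : ℝ → ℝ := fun t => Z 1 t + (Xo x 0 (-t))⁻¹ - β * (t ^ 3 * Real.log (1 / t)) with hV
  have hUt : (fun t => U t - ∑ i ∈ Finset.range 6, (a i - b i) * t ^ i) =O[𝓝[>] (0 : ℝ)]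
      (fun t : ℝ => t ^ 6) := by
    refine (ha.sub htr).congr_left fun t => ?_
    simp only [hU, sub_mul, Finset.sum_sub_distrib]
    ring
  have hVt : (fun t => V t - ∑ i ∈ Finset.range 6, (b i + a' i) * t ^ i) =O[𝓝[>] (0 : ℝ)]
      (fun t : ℝ => t ^ 6) := by
    refine (htr.add ha').congr_left fun t => ?_
    simp only [hV, add_mul, Finset.sum_add_distrib]
    ring
  -- values at index zero
  have hj0 : ∀ᶠ t in 𝓝[>] (0 : ℝ), jj x δ ω Z 0 t = (U t - β * (t ^ 3 * Real.log (1 / t))) / t := by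
    filter_upwards [hZ.ev, eventually_pos'] with t ⟨z0, _, _⟩ ht
    unfold jj Jz
    rw [pr_zero, Po_succ, Po_zero, z0]
    simp only [hU, zero_add, pow_zero, mul_one, one_mul]
    ring
  have hI0 : ∀ᶠ t in 𝓝[>] (0 : ℝ), II x δ ω Z 0 t = V t + β * (t ^ 3 * Real.log (1 / t)) := by
    filter_upwards [hZ.ev] with t ⟨z0, _, _⟩
    unfold II Iz
    rw [pr_zero, Po_succ, Po_zero, z0]
    simp only [hV, zero_add, mul_one, one_mul, div_one]
    ring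
  -- logarithm comparison facts
  have hlog : ∀ᶠ t in 𝓝[>] (0 : ℝ), 0 < t ∧ t < 1 ∧ 0 ≤ Real.log (1 / t) := by
    filter_upwards [eventually_pos', eventually_lt' one_pos] with t ht ht1
    refine ⟨ht, ht1, Real.log_nonneg ?_⟩
    rw [le_div_iff₀ ht]; linarith
  have hpow : ∀ n : ℕ, 3 ≤ n → (fun t : ℝ => t ^ n) =O[𝓝[>] (0 : ℝ)]
      (fun t : ℝ => t ^ 3 * (1 + Real.log (1 / t))) := by
    intro n hn
    refine IsBigO.of_bound 1 ?_
    filter_upwards [hlog] with t ⟨ht, ht1, hl⟩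
    rw [one_mul, Real.norm_of_nonneg (pow_pos ht n).le, Real.norm_of_nonneg (by positivity)]
    calc t ^ n ≤ t ^ 3 := pow_le_pow_of_le_one ht.le ht1.le hn
      _ = t ^ 3 * 1 := by ring
      _ ≤ _ := mul_le_mul_of_nonneg_left (by linarith) (by positivity)
  have hlogt : (fun t : ℝ => t ^ 3 * Real.log (1 / t)) =O[𝓝[>] (0 : ℝ)]
      (fun t : ℝ => t ^ 3 * (1 + Real.log (1 / t))) := by
    refine IsBigO.of_bound 1 ?_
    filter_upwards [hlog] with t ⟨ht, ht1, hl⟩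
    rw [one_mul, Real.norm_of_nonneg (by positivity), Real.norm_of_nonneg (by positivity)]
    exact mul_le_mul_of_nonneg_left (by linarith) (by positivity)
  have hboot := boot (a := at' x δ ω) (b := bt' x δ ω) (j := jj x δ ω Z) (I := II x δ ω Z)
    (α := al x δ ω) (μ := mu x δ ω Z) (T_at h).tay3 (T_bt h).tay3
    (by
      filter_upwards [ev_ND h, hZ.ev] with t nd ⟨_, _, zrec⟩ k
      exact jj_succ k nd (zrec k))
    (by
      filter_upwards [ev_ND h, hZ.ev] with t nd ⟨_, _, zrec⟩ k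
      exact II_succ k nd (zrec k))
    (al_succ h) (plain_bound h (jj_bound h hZ)) (plain_bound h (al_bound h))
    (by obtain ⟨C, _, hC⟩ := II_bound h hZ; exact ⟨C, hC⟩)
    (bja_bound h hZ) (Eventually.of_forall fun t => rfl) (j0_rel h hZ)
    (j00 := a 1 - b 1) (j01 := a 2 - b 2) (j02 := a 3 - b 3) (jL := -β)
    (I00 := b 0 + a' 0) (I01 := b 1 + a' 1) (I02 := b 2 + a' 2) (by rw [hb0, ha0']; norm_num)
    (by
      have h1 : (fun t => jj x δ ω Z 0 t - ((a 1 - b 1) + (a 2 - b 2) * t + (a 3 - b 3) * t ^ 2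
          + -β * (t ^ 2 * Real.log (1 / t)))) =ᶠ[𝓝[>] (0 : ℝ)]
          (fun t => t⁻¹ * (U t - ∑ i ∈ Finset.range 6, (a i - b i) * t ^ i)
            + ((a 4 - b 4) * t ^ 3 + (a 5 - b 5) * t ^ 4)) := by
        filter_upwards [hj0, eventually_pos'] with t h2 ht
        rw [h2]
        simp only [Finset.sum_range_succ, Finset.sum_range_zero, ha0, hb0]
        field_simp
        ring
      refine h1.trans_isBigO ?_
      refine IsBigO.add ?_ (((hpow 3 le_rfl).const_mul_left _).add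
        ((hpow 4 (by norm_num)).const_mul_left _))
      have h3 : (fun t : ℝ => t⁻¹ * (U t - ∑ i ∈ Finset.range 6, (a i - b i) * t ^ i))
          =O[𝓝[>] (0 : ℝ)] (fun t : ℝ => t⁻¹ * t ^ 6) := (isBigO_refl _ _).mul hUt
      have h4 : (fun t : ℝ => t⁻¹ * t ^ 6) =ᶠ[𝓝[>] (0 : ℝ)] fun t => t ^ 5 := by
        filter_upwards [eventually_pos'] with t ht
        field_simp
      exact (h3.congr' EventuallyEq.rfl h4).trans (hpow 5 (by norm_num)))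
    (by
      have h1 : (fun t => II x δ ω Z 0 t - ((b 0 + a' 0) + (b 1 + a' 1) * t
          + (b 2 + a' 2) * t ^ 2)) =ᶠ[𝓝[>] (0 : ℝ)]
          (fun t => (V t - ∑ i ∈ Finset.range 6, (b i + a' i) * t ^ i)
            + ((b 3 + a' 3) * t ^ 3 + (b 4 + a' 4) * t ^ 4 + (b 5 + a' 5) * t ^ 5
            + β * (t ^ 3 * Real.log (1 / t)))) := by
        filter_upwards [hI0] with t h2
        rw [h2]
        simp only [Finset.sum_range_succ, Finset.sum_range_zero]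
        ring
      refine h1.trans_isBigO ?_
      refine IsBigO.add (hVt.trans (hpow 6 (by norm_num))) ?_
      exact ((((hpow 3 le_rfl).const_mul_left _).add ((hpow 4 (by norm_num)).const_mul_left _)).add
        ((hpow 5 (by norm_num)).const_mul_left _)).add (hlogt.const_mul_left _))
  refine S_form (U := U) (V := V) (μ := mu x δ ω Z) (α := al x δ ω 0) (ρ := rhoI x δ ω)
    (G := GGq x δ ω) (S := SSq x ω) (e := EEq x δ ω) (β := β) (u := fun i => a i - b i)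
    (v := fun i => b i + a' i) (r := r) (g := g) (by simp [ha0, hb0]) ?_ hr0 hUt hVt hr hg
    (EEq_isBigO h) ?_ (mu_bounded h hZ) hboot (al_split h)
  · simp only [hb0, ha0']; norm_num
  · filter_upwards [hj0, hI0, j0_rel h hZ] with t h1 h2 h3
    rw [← h1, ← h2]; exact h3

end F526
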