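import Mathlib

set_option autoImplicit false

open Filter Topology

namespace F526

/-- the dynamical core of `h_zero` -/
private lemma h_zero_core {g : ℕ → ℝ} (hg : ∀ n, 0 < g n)
    (hratio : Tendsto (fun n => g (n + 1) / g n) atTop (𝓝 1)) (hg0 : Tendsto g atTop (𝓝 0))
    (hdiv : ¬ Summable g) {A B t1 : ℝ} (hAB : B < A) (hB : 0 < B) (ht1 : 0 < t1)
    {F : ℕ → ℝ → ℝ}
    (hF : ∀ t, 0 < t → t < t1 → ∀ k, 0 < F k t)
    (hrec : ∀ t, 0 < t → t < t1 → ∀ k, F k t - F (k + 2) t = t * g k * F (k + 1) t)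
    (hA : ∀ k, Tendsto (fun t => F (2 * k) t) (𝓝[>] 0) (𝓝 A))
    (hBl : ∀ k, Tendsto (fun t => F (2 * k + 1) t) (𝓝[>] 0) (𝓝 B)) : False := by
  set η : ℝ := (A - B) / (4 * B) with hη
  have hηpos : 0 < η := by
    have : 0 < A - B := by linarith
    positivity
  -- far out the sequence is small and has ratio close to one
  have h1 : ∀ᶠ n in atTop, g n < η := hg0.eventually_lt_const hηpos
  have h2 : ∀ᶠ n in atTop, 1 / (1 + η) < g (n + 1) / g n := by
    apply hratio.eventually_const_lt
    rw [div_lt_one (by linarith)]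
    linarith
  have h3 : ∀ᶠ n in atTop, g (n + 1) / g n < 2 := hratio.eventually_lt_const one_lt_two
  obtain ⟨N, hN⟩ := eventually_atTop.1 (h1.and (h2.and h3))
  have hk1 : ∀ n, N ≤ n → g n < η := fun n hn => (hN n hn).1
  have hk2 : ∀ n, N ≤ n → g n < (1 + η) * g (n + 1) := by
    intro n hn
    have := (hN n hn).2.1
    rw [div_lt_div_iff₀ (by linarith) (hg n)] at this
    linarith
  have hk3 : ∀ n, N ≤ n → g (n + 1) ≤ 2 * g n := by
    intro n hn
    have := (hN n hn).2.2
    rw [div_lt_iff₀ (hg n)] at this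
    exact this.le
  set k0 := 2 * N with hk0
  -- choose t
  have h4 : ∀ᶠ t in 𝓝[>] (0 : ℝ), 2 * η * F (2 * N + 1) t < F (2 * N) t - F (2 * N + 1) t := by
    have hl : Tendsto (fun t => 2 * η * F (2 * N + 1) t) (𝓝[>] 0) (𝓝 (2 * η * B)) :=
      (hBl N).const_mul _
    have hr : Tendsto (fun t => F (2 * N) t - F (2 * N + 1) t) (𝓝[>] 0) (𝓝 (A - B)) :=
      (hA N).sub (hBl N)
    apply hl.eventually_lt hr
    have : 2 * η * B = (A - B) / 2 := by
      rw [hη]; field_simp; ring
    rw [this]; linarith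
  have h5 : ∀ᶠ t in 𝓝[>] (0 : ℝ), t ∈ Set.Ioo 0 (min t1 1) := Ioo_mem_nhdsGT (by positivity)
  obtain ⟨t, ht, ht'⟩ := (h4.and h5).exists
  obtain ⟨ht0, htm⟩ := ht'
  have htt1 : t < t1 := htm.trans_le (min_le_left _ _)
  have ht1' : t < 1 := htm.trans_le (min_le_right _ _)
  -- sequences
  let x : ℕ → ℝ := fun j => F (k0 + 2 * j) t
  let y : ℕ → ℝ := fun j => F (k0 + 2 * j + 1) t
  have hxpos : ∀ j, 0 < x j := fun j => hF t ht0 htt1 _
  have hypos : ∀ j, 0 < y j := fun j => hF t ht0 htt1 _
  have hx : ∀ j, x (j + 1) = x j - t * g (k0 + 2 * j) * y j := by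
    intro j
    have := hrec t ht0 htt1 (k0 + 2 * j)
    simp only [x, y]
    rw [show k0 + 2 * (j + 1) = k0 + 2 * j + 2 by ring]
    linarith
  have hy : ∀ j, y (j + 1) = y j - t * g (k0 + 2 * j + 1) * x (j + 1) := by
    intro j
    have := hrec t ht0 htt1 (k0 + 2 * j + 1)
    simp only [x, y]
    rw [show k0 + 2 * (j + 1) + 1 = k0 + 2 * j + 1 + 2 by ring,
      show k0 + 2 * (j + 1) = k0 + 2 * j + 1 + 1 by ring]
    linarith
  set D := x 0 - y 0 with hD
  have hD1 : 2 * η * y 0 < D := by
    simpa [hD, x, y, hk0] using ht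
  have hDpos : 0 < D := lt_trans (by have := hypos 0; positivity) hD1
  have hind : ∀ j, D ≤ x j - y j ∧ y j ≤ y 0 := by
    intro j
    induction j with
    | zero => exact ⟨le_refl _, le_refl _⟩
    | succ j ih =>
      obtain ⟨ih1, ih2⟩ := ih
      have hgj := hg (k0 + 2 * j)
      have hgj1 := hg (k0 + 2 * j + 1)
      have hNj : N ≤ k0 + 2 * j := by omega
      have e1 := hk1 (k0 + 2 * j) hNj
      have e2 := hk2 (k0 + 2 * j) hNj
      have hyj := hypos j
      -- x (j+1) ≥ (1+η) y j
      have h6 : t * g (k0 + 2 * j) * y j ≤ η * y 0 := by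
        have : t * g (k0 + 2 * j) ≤ η := by nlinarith
        calc t * g (k0 + 2 * j) * y j ≤ η * y j := mul_le_mul_of_nonneg_right this hyj.le
          _ ≤ η * y 0 := mul_le_mul_of_nonneg_left ih2 hηpos.le
      have h7 : (1 + η) * y j ≤ x (j + 1) := by
        rw [hx j]
        have : η * y j ≤ η * y 0 := mul_le_mul_of_nonneg_left ih2 hηpos.le
        nlinarith
      have h8 : g (k0 + 2 * j) * y j ≤ g (k0 + 2 * j + 1) * x (j + 1) := by
        calc g (k0 + 2 * j) * y j ≤ ((1 + η) * g (k0 + 2 * j + 1)) * y j :=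
              mul_le_mul_of_nonneg_right e2.le hyj.le
          _ = g (k0 + 2 * j + 1) * ((1 + η) * y j) := by ring
          _ ≤ _ := mul_le_mul_of_nonneg_left h7 hgj1.le
      constructor
      · have h9 : x (j + 1) - y (j + 1) = (x j - y j) +
            t * (g (k0 + 2 * j + 1) * x (j + 1) - g (k0 + 2 * j) * y j) := by
          rw [hy j]
          have := hx j
          linear_combination this
        rw [h9]
        have : 0 ≤ t * (g (k0 + 2 * j + 1) * x (j + 1) - g (k0 + 2 * j) * y j) :=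
          mul_nonneg ht0.le (by linarith)
        linarith
      · rw [hy j]
        have : 0 ≤ t * g (k0 + 2 * j + 1) * x (j + 1) := by
          have := hxpos (j + 1)
          positivity
        linarith
  -- the odd subsums are bounded
  have hbound : ∀ n, ∑ j ∈ Finset.range n, g (k0 + 2 * j + 1) ≤ y 0 / (t * D) := by
    intro n
    have key : ∀ n, t * D * ∑ j ∈ Finset.range n, g (k0 + 2 * j + 1) ≤ y 0 - y n := by
      intro n
      induction n with
      | zero => simp
      | succ n ih =>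
        rw [Finset.sum_range_succ, mul_add, hy n]
        have h10 : D ≤ x (n + 1) := by
          have := (hind (n + 1)).1
          have := hypos (n + 1)
          linarith
        have h11 : t * D * g (k0 + 2 * n + 1) ≤ t * g (k0 + 2 * n + 1) * x (n + 1) := by
          have := mul_le_mul_of_nonneg_left h10 (mul_pos ht0 (hg (k0 + 2 * n + 1))).le
          linarith
        linarith
    rw [le_div_iff₀ (by positivity)]
    have := key n
    have := hypos n
    linarith
  have hsum1 : Summable (fun j => g (k0 + 2 * j + 1)) :=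
    summable_of_sum_range_le (fun j => (hg _).le) hbound
  have hsum2 : Summable (fun j => g (k0 + 2 * j + 2)) := by
    refine Summable.of_nonneg_of_le (fun j => (hg _).le) (fun j => ?_) (hsum1.mul_left 2)
    exact hk3 (k0 + 2 * j + 1) (by omega)
  have hsum3 : Summable (fun n => g (n + (k0 + 1))) := by
    have he : HasSum (fun j => g (2 * j + (k0 + 1))) (∑' j, g (k0 + 2 * j + 1)) := by
      have e : (fun j => g (2 * j + (k0 + 1))) = fun j => g (k0 + 2 * j + 1) := by
        funext j
        rw [show 2 * j + (k0 + 1) = k0 + 2 * j + 1 by ring]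
      rw [e]
      exact hsum1.hasSum
    have ho : HasSum (fun j => g (2 * j + 1 + (k0 + 1))) (∑' j, g (k0 + 2 * j + 2)) := by
      have e : (fun j => g (2 * j + 1 + (k0 + 1))) = fun j => g (k0 + 2 * j + 2) := by
        funext j
        rw [show 2 * j + 1 + (k0 + 1) = k0 + 2 * j + 2 by ring]
      rw [e]
      exact hsum2.hasSum
    exact (HasSum.even_add_odd (f := fun n => g (n + (k0 + 1))) he ho).summable
  exact hdiv ((summable_nat_add_iff (k0 + 1)).1 hsum3)

theorem h_zero {g : ℕ → ℝ} (hg : ∀ n, 0 < g n)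
    (hratio : Tendsto (fun n => g (n + 1) / g n) atTop (𝓝 1)) (hg0 : Tendsto g atTop (𝓝 0))
    (hdiv : ¬ Summable g) {H t1 : ℝ} (ht1 : 0 < t1) {Z : ℕ → ℝ → ℝ}
    (hZ : ∀ t, 0 < t → t < t1 → ∀ k, 0 < Z k t)
    (hrec : ∀ t, 0 < t → t < t1 → ∀ k,
      Z k t - Z (k + 2) t = t * (g k * Real.exp ((-1) ^ k * H)) * Z (k + 1) t)
    (hlim : ∀ k, Tendsto (fun t => Z k t) (𝓝[>] 0) (𝓝 1)) : H = 0 := by
  let F : ℕ → ℝ → ℝ := fun k t => Real.exp (-((-1) ^ k * H / 2)) * Z k t
  have hF : ∀ t, 0 < t → t < t1 → ∀ k, 0 < F k t := fun t h0 h1 k =>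
    mul_pos (Real.exp_pos _) (hZ t h0 h1 k)
  have hFrec : ∀ t, 0 < t → t < t1 → ∀ k, F k t - F (k + 2) t = t * g k * F (k + 1) t := by
    intro t h0 h1 k
    have h2 := hrec t h0 h1 k
    have h3 : Real.exp (-((-1) ^ k * H / 2)) * Real.exp ((-1) ^ k * H) =
        Real.exp (-((-1) ^ (k + 1) * H / 2)) := by
      rw [← Real.exp_add]; congr 1; rw [pow_succ]; ring
    have h4 : (-1 : ℝ) ^ (k + 2) = (-1) ^ k := by rw [pow_add]; norm_num
    simp only [F]
    rw [h4, ← mul_sub, h2, ← h3]
    ring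
  have hlimF : ∀ k, Tendsto (fun t => F k t) (𝓝[>] 0) (𝓝 (Real.exp (-((-1) ^ k * H / 2)))) := by
    intro k
    have := (hlim k).const_mul (Real.exp (-((-1) ^ k * H / 2)))
    rw [mul_one] at this
    exact this
  rcases lt_trichotomy H 0 with hH | hH | hH
  · exfalso
    refine h_zero_core hg hratio hg0 hdiv (A := Real.exp (-(H / 2))) (B := Real.exp (H / 2))
      (Real.exp_lt_exp.2 (by linarith)) (Real.exp_pos _) ht1 hF hFrec ?_ ?_
    · intro k
      have := hlimF (2 * k)
      simpa [pow_mul] using this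
    · intro k
      have := hlimF (2 * k + 1)
      rw [pow_succ, pow_mul] at this
      norm_num at this
      convert this using 2
      ring_nf
  · exact hH
  · exfalso
    refine h_zero_core (g := fun n => g (n + 1)) (F := fun k t => F (k + 1) t)
      (fun n => hg _) ?_ ?_ ?_ (A := Real.exp (H / 2)) (B := Real.exp (-(H / 2)))
      (Real.exp_lt_exp.2 (by linarith)) (Real.exp_pos _) ht1 (fun t h0 h1 k => hF t h0 h1 _)
      (fun t h0 h1 k => ?_) ?_ ?_
    · exact (tendsto_add_atTop_iff_nat 1).2 hratio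
    · exact (tendsto_add_atTop_iff_nat 1).2 hg0
    · intro hs
      exact hdiv ((summable_nat_add_iff 1).1 hs)
    · exact hFrec t h0 h1 (k + 1)
    · intro k
      have := hlimF (2 * k + 1)
      rw [pow_succ, pow_mul] at this
      norm_num at this
      convert this using 2
      ring_nf
    · intro k
      have := hlimF (2 * k + 1 + 1)
      rw [pow_succ, pow_succ, pow_mul] at this
      norm_num at this
      exact this

end F526
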