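import Pool.Agent.Lib.MP_f52611_an.Sum

set_option autoImplicit false

open Filter Topology Asymptotics

namespace F526

/-- Borel type realisation of an asymptotic series -/
lemma realize_series {B j : ℕ → ℝ} (hj : StrictMono j) :
    ∃ f : ℕ → ℝ, ∀ N : ℕ,
      (fun n => f n - ∑ k ∈ Finset.range N, B k * mon (-(j k)) n) =O[atTop] mon (-(j N)) := by
  classical
  have hth : ∀ k : ℕ, ∃ M : ℕ, ∀ n, M ≤ n →
      |B (k + 1)| * mon (-(j (k + 1))) n ≤ (1 / 2) ^ k * mon (-(j k)) n := by
    intro k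
    have h1 : (fun n => B (k + 1) * mon (-(j (k + 1))) n) =o[atTop] mon (-(j k)) :=
      (mon_isLittleO (by have := hj (Nat.lt_succ_self k); simpa using this)).const_mul_left _
    have h2 := h1.bound (show (0 : ℝ) < (1 / 2) ^ k by positivity)
    obtain ⟨M, hM⟩ := eventually_atTop.1 h2
    refine ⟨M, fun n hn => ?_⟩
    have := hM n hn
    rwa [norm_mul, Real.norm_eq_abs, Real.norm_of_nonneg (mon_pos _ _).le,
      Real.norm_of_nonneg (mon_pos _ _).le] at this
  choose M hM using hth
  obtain ⟨φ, hφm, hφM⟩ : ∃ φ : ℕ → ℕ, StrictMono φ ∧ ∀ k, M k ≤ φ (k + 1) := by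
    refine ⟨fun k => ∑ l ∈ Finset.range k, (M l + 1), ?_, fun k => ?_⟩
    · refine strictMono_nat_of_lt_succ fun k => ?_
      simp only [Finset.sum_range_succ]
      omega
    · simp only [Finset.sum_range_succ]
      omega
  let u : ℕ → ℕ → ℝ := fun k n => if φ k ≤ n then B k * mon (-(j k)) n else 0
  refine ⟨fun n => ∑ k ∈ Finset.range (n + 1), u k n, fun N => ?_⟩
  refine IsBigO.of_bound (|B N| + 4) ?_
  filter_upwards [eventually_ge_atTop (φ N)] with n hn
  have hNn : N ≤ n := (hφm.id_le N).trans hn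
  have e1 : ∑ k ∈ Finset.range (n + 1), u k n - ∑ k ∈ Finset.range N, B k * mon (-(j k)) n =
      ∑ k ∈ Finset.Ico N (n + 1), u k n := by
    rw [← Finset.sum_range_add_sum_Ico _ (show N ≤ n + 1 by omega)]
    have : ∑ k ∈ Finset.range N, u k n = ∑ k ∈ Finset.range N, B k * mon (-(j k)) n := by
      refine Finset.sum_congr rfl fun k hk => ?_
      have h1 : φ k ≤ n := (hφm.monotone (Finset.mem_range.1 hk).le).trans hn
      simp only [u, if_pos h1]
    rw [this]; ring
  rw [e1, Real.norm_of_nonneg (mon_pos _ _).le]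
  have hterm : ∀ k ∈ Finset.Ico N (n + 1),
      ‖u k n‖ ≤ (|B N| * (if k = N then 1 else 0) + 2 * (1 / 2) ^ k) * mon (-(j N)) n := by
    intro k hk
    have hk1 := (Finset.mem_Ico.1 hk).1
    have hmp := mon_pos (-(j N)) n
    by_cases hkN : k = N
    · subst hkN
      simp only [u, if_true]
      have h3 : ‖(if φ k ≤ n then B k * mon (-(j k)) n else 0)‖ ≤ |B k| * mon (-(j k)) n := by
        rw [if_pos hn, norm_mul, Real.norm_eq_abs, Real.norm_of_nonneg (mon_pos _ _).le]
      have h4 : (0 : ℝ) ≤ 2 * (1 / 2) ^ k * mon (-(j k)) n := by positivity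
      linarith
    · obtain ⟨l, rfl⟩ : ∃ l, k = l + 1 := ⟨k - 1, by omega⟩
      have hNl : N ≤ l := by omega
      simp only [u, if_neg hkN]
      split_ifs with h5
      · rw [norm_mul, Real.norm_eq_abs, Real.norm_of_nonneg (mon_pos _ _).le]
        refine (hM l n ((hφM l).trans h5)).trans ?_
        have h6 : mon (-(j l)) n ≤ mon (-(j N)) n := mon_le (by
          have := hj.monotone hNl; linarith) n
        have h7 : (|B N| * 0 + 2 * (1 / 2 : ℝ) ^ (l + 1)) = (1 / 2) ^ l := by
          rw [pow_succ]; ring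
        rw [h7]
        exact mul_le_mul_of_nonneg_left h6 (by positivity)
      · rw [norm_zero]; positivity
  calc ‖∑ k ∈ Finset.Ico N (n + 1), u k n‖ ≤ ∑ k ∈ Finset.Ico N (n + 1), ‖u k n‖ :=
        norm_sum_le _ _
    _ ≤ ∑ k ∈ Finset.Ico N (n + 1),
        (|B N| * (if k = N then 1 else 0) + 2 * (1 / 2) ^ k) * mon (-(j N)) n :=
        Finset.sum_le_sum hterm
    _ = (|B N| * (∑ k ∈ Finset.Ico N (n + 1), if k = N then (1 : ℝ) else 0) +
        2 * ∑ k ∈ Finset.Ico N (n + 1), (1 / 2 : ℝ) ^ k) * mon (-(j N)) n := by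
        rw [← Finset.sum_mul, Finset.sum_add_distrib, ← Finset.mul_sum, ← Finset.mul_sum]
    _ ≤ (|B N| + 4) * mon (-(j N)) n := by
        refine mul_le_mul_of_nonneg_right ?_ (mon_pos _ _).le
        have h8 : (∑ k ∈ Finset.Ico N (n + 1), if k = N then (1 : ℝ) else 0) ≤ 1 := by
          rw [Finset.sum_ite_eq']
          split_ifs <;> norm_num
        have h9 : ∑ k ∈ Finset.Ico N (n + 1), (1 / 2 : ℝ) ^ k ≤ 2 := by
          have h10 : ∑ k ∈ Finset.Ico N (n + 1), (1 / 2 : ℝ) ^ k ≤
              ∑' k : ℕ, (1 / 2 : ℝ) ^ k :=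
            summable_geometric_two.sum_le_tsum _ (fun k _ => by positivity)
          rwa [tsum_geometric_two] at h10
        have := mul_le_mul_of_nonneg_left h8 (abs_nonneg (B N))
        linarith

lemma PP_of_expansion {f c e e' : ℕ → ℝ} (he : StrictMono e) (he' : Tendsto e' atTop atTop)
    (h : ∀ N : ℕ,
      (fun n => f n - ∑ k ∈ Finset.range N, c k * mon (-(e k)) n) =O[atTop] mon (-(e' N)))
    (M : ℕ) : PP (-(e M)) (fun n => f n - ∑ k ∈ Finset.range M, c k * mon (-(e k)) n) := by
  intro T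
  obtain ⟨N, hN1, hN2⟩ := ((he'.eventually_ge_atTop T).and (eventually_ge_atTop M)).exists
  refine ⟨∑ k ∈ Finset.Ico M N, c k • mon (-(e k)), ?_, ?_⟩
  · refine Submodule.sum_mem _ fun k hk => Submodule.smul_mem _ _ (mon_mem ?_)
    have := he.monotone (Finset.mem_Ico.1 hk).1
    linarith
  · refine ((h N).trans (mon_isBigO (by linarith))).congr_left fun n => ?_
    rw [← Finset.sum_range_add_sum_Ico _ hN2, Finset.sum_apply]
    simp only [Pi.smul_apply, smul_eq_mul]
    ring

/-- the sign-free part of `hyp_part` -/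
theorem hyp_part_aux {C : ℝ} (hC : 0 < C) {a : ℕ → ℝ} (ha : ∀ n, 0 < a (n + 1))
    (hexp : ∃ i j A B : ℕ → ℝ,
      StrictMono i ∧ i 0 = 0 ∧ A 0 = 1 ∧
      StrictMono j ∧ j 0 = 3 ∧
      Tendsto i atTop atTop ∧ Tendsto j atTop atTop ∧
      ∀ N : ℕ,
        (fun n : ℕ =>
          a n / ((n : ℝ) / C) ^ (1 / (3:ℝ))
            - ∑ k ∈ Finset.range N, A k * (n : ℝ) ^ (-(i k))
            - (-1 : ℝ) ^ n * ∑ k ∈ Finset.range N, B k * (n : ℝ) ^ (-(j k)))
        =O[atTop] (fun n : ℕ => (n : ℝ) ^ (-(min (i N) (j N)))))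
    {d : ℕ → ℝ} (hd : ∀ n, 0 < d n) (hda : ∀ n, d n * d (n + 1) * a (n + 1) ^ 2 = 1) :
    ∃ (c ε w H : ℝ) (δ ω : ℕ → ℝ), 0 < c ∧ 0 < ε ∧ ε ≤ 1 / 3 ∧
      PP (-(1 / 3) - ε) (fun n => δ n - c * mon (-(1 / 3)) n) ∧
      PP (-(7 / 3) - ε) (fun n => ω n - w * mon (-(7 / 3)) n) ∧
      ∀ n, d n * Real.exp (-((-1) ^ n * H)) = δ n + (-1) ^ n * ω n := by
  obtain ⟨i, j, A, B, hi, hi0, hA0, hj, hj0, hit, hjt, hN⟩ := hexp
  -- the shifted ratio
  set r : ℕ → ℝ := fun n => a (n + 1) / (xb n / C) ^ (1 / (3:ℝ)) with hr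
  have hrpos : ∀ n, 0 < r n := fun n =>
    div_pos (ha n) (Real.rpow_pos_of_pos (div_pos (xb_pos n) hC) _)
  have hN' : ∀ N : ℕ, (fun n => r n - ∑ k ∈ Finset.range N, A k * mon (-(i k)) n
      + (-1 : ℝ) ^ n * ∑ k ∈ Finset.range N, B k * mon (-(j k)) n) =O[atTop]
      mon (-(min (i N) (j N))) := by
    intro N
    have h1 := (hN N).comp_tendsto (tendsto_add_atTop_nat 1)
    refine (h1.congr_left fun n => ?_).congr_right fun n => ?_
    · simp only [Function.comp_def, Nat.cast_add, Nat.cast_one, pow_succ, hr, mon, xb]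
      ring
    · simp only [Function.comp_def, Nat.cast_add, Nat.cast_one, mon, xb]
  obtain ⟨Bh, hBh⟩ := realize_series (B := B) hj
  set Ah : ℕ → ℝ := fun n => r n + (-1) ^ n * Bh n with hAh
  have hAhexp : ∀ N : ℕ, (fun n => Ah n - ∑ k ∈ Finset.range N, A k * mon (-(i k)) n) =O[atTop]
      mon (-(min (i N) (j N))) := by
    intro N
    have h1 : (fun n => (-1 : ℝ) ^ n * (Bh n - ∑ k ∈ Finset.range N, B k * mon (-(j k)) n)) =O[atTop]
        mon (-(min (i N) (j N))) := by
      have h2 : (fun n : ℕ => (-1 : ℝ) ^ n) =O[atTop] (fun _ => (1 : ℝ)) := by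
        refine IsBigO.of_bound 1 (Eventually.of_forall fun n => ?_)
        simp
      have h3 := h2.mul (hBh N)
      refine (h3.congr_right fun n => one_mul _).trans (mon_isBigO ?_)
      have := min_le_right (i N) (j N)
      linarith
    refine ((hN' N).add h1).congr_left fun n => ?_
    simp only [hAh]; ring
  set ε : ℝ := min (i 1) (min (j 1 - 3) (1 / 3)) with hε
  have hi1 : 0 < i 1 := by have := hi (show 0 < 1 by norm_num); rwa [hi0] at this
  have hj1 : 3 < j 1 := by have := hj (show 0 < 1 by norm_num); rwa [hj0] at this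
  have hεpos : 0 < ε := lt_min hi1 (lt_min (by linarith) (by norm_num))
  have hε1 : ε ≤ i 1 := min_le_left _ _
  have hε2 : ε ≤ j 1 - 3 := (min_le_right _ _).trans (min_le_left _ _)
  have hε3 : ε ≤ 1 / 3 := (min_le_right _ _).trans (min_le_right _ _)
  have hmin : Tendsto (fun N => min (i N) (j N)) atTop atTop := by
    refine tendsto_atTop.2 fun b => ?_
    filter_upwards [hit.eventually_ge_atTop b, hjt.eventually_ge_atTop b] with n h1 h2
    exact le_min h1 h2
  -- X = Ah - 1
  set X : ℕ → ℝ := fun n => Ah n - 1 with hX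
  have hXP : PP (-ε) X := by
    have := PP_of_expansion (c := A) hi hmin hAhexp 1
    refine (this.congr fun n => ?_).mono (by linarith)
    simp [hX, hi0, hA0, mon]
  have hBP : PP (-3) Bh := by
    have := PP_of_expansion (c := B) hj hjt hBh 0
    refine (this.congr fun n => ?_).mono (by linarith)
    simp
  have hBP1 : PP (-3 - ε) (fun n => Bh n - B 0 * mon (-3) n) := by
    have := PP_of_expansion (c := B) hj hjt hBh 1
    refine (this.congr fun n => ?_).mono (by linarith)
    simp [hj0]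
  -- q = Bh / Ah
  set q : ℕ → ℝ := fun n => Bh n * (1 + X n)⁻¹ with hq
  have hinv : PP (-ε) (fun n => (1 + X n)⁻¹ - 1) := by
    have hF : AnalyticAt ℝ (fun y : ℝ => (1 + y)⁻¹) 0 :=
      (analyticAt_const.add analyticAt_id).inv (by simp)
    have := PP.comp_analytic1 hF hεpos hXP
    simpa using this
  have hqP : PP (-3) q := by
    have h1 := hBP.add ((hBP.mul hinv).mono (show -3 + -ε ≤ -3 by linarith))
    refine h1.congr fun n => ?_
    simp only [hq]; ring
  have hqP1 : PP (-3 - ε) (fun n => q n - B 0 * mon (-3) n) := by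
    have h1 := hBP1.add ((hBP.mul hinv).mono (show -3 + -ε ≤ -3 - ε by linarith))
    refine h1.congr fun n => ?_
    simp only [hq]; ring
  -- m
  set F : ℝ → ℝ := fun y => -(1 / 2) * (Real.log (1 + y) - Real.log (1 - y)) with hF
  have hFan : AnalyticAt ℝ F 0 := by
    have h1 : AnalyticAt ℝ (fun y : ℝ => Real.log (1 + y)) 0 := analytic_log_one_add
    have h2 : AnalyticAt ℝ (fun y : ℝ => Real.log (1 - y)) 0 := by
      have h3 : AnalyticAt ℝ (fun y : ℝ => 1 - y) 0 := analyticAt_const.sub analyticAt_id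
      exact h3.log (by simp)
    exact analyticAt_const.mul (h1.sub h2)
  have hF0 : F 0 = 0 := by simp [hF]
  have hF1 : deriv F 0 = -1 := by
    have h1 : HasDerivAt (fun y : ℝ => Real.log (1 + y)) 1 0 := by
      have h1 : HasDerivAt (fun y : ℝ => 1 + y) 1 0 := (hasDerivAt_id (0 : ℝ)).const_add 1
      have := h1.log (by simp)
      simpa using this
    have h2 : HasDerivAt (fun y : ℝ => Real.log (1 - y)) (-1) 0 := by
      have h1 : HasDerivAt (fun y : ℝ => 1 - y) (-1) 0 := (hasDerivAt_id (0 : ℝ)).const_sub 1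
      have := h1.log (by simp)
      simpa using this
    have h3 := (h1.sub h2).const_mul (-(1 / 2) : ℝ)
    have h4 : HasDerivAt F (-(1 / 2) * (1 - -1)) 0 := h3
    rw [h4.deriv]; norm_num
  set m : ℕ → ℝ := fun n => F (q n) with hm
  have hmP1 : PP (-3 - ε) (fun n => m n + B 0 * mon (-3) n) := by
    have h1 := PP.comp_analytic2 hFan (show (0 : ℝ) < 3 by norm_num) hqP
    rw [hF0, hF1] at h1
    have h2 := (h1.mono (show -(2 * 3) ≤ -3 - ε by linarith)).sub hqP1
    refine h2.congr fun n => ?_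
    simp only [hm]; ring
  have hmP : PP (-3) m := by
    have h1 := (hmP1.mono (show -3 - ε ≤ -3 by linarith)).sub
      ((PP.of_mon (le_refl (-3))).const_mul (B 0))
    refine h1.congr fun n => ?_
    ring
  -- P
  set P : ℕ → ℝ := fun n => Real.log (r n) - (-1) ^ n * m n with hP
  have hPP : PP (-ε) P := by
    have h1 : PP (-ε) (fun n => Real.log (1 + X n)) := by
      have := PP.comp_analytic1 analytic_log_one_add hεpos hXP
      simpa using this
    have h2 : PP (-ε) (fun n => Real.log (1 - q n ^ 2)) := by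
      have hG : AnalyticAt ℝ (fun y : ℝ => Real.log (1 - y ^ 2)) 0 := by
        have h3 : AnalyticAt ℝ (fun y : ℝ => 1 - y ^ 2) 0 :=
          analyticAt_const.sub (analyticAt_id.pow 2)
        exact h3.log (by simp)
      have := PP.comp_analytic1 hG hεpos (hqP.mono (show -3 ≤ -ε by linarith))
      simpa using this
    have h3 := h1.add (h2.const_mul (1 / 2))
    refine h3.congr' ?_
    have hX0 := hXP.tendsto_zero (by linarith)
    have hq0 := hqP.tendsto_zero (by norm_num)
    have hX1 : ∀ᶠ n in atTop, -1 < X n := hX0.eventually_const_lt (by norm_num)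
    have hq1 : ∀ᶠ n in atTop, -1 < q n := hq0.eventually_const_lt (by norm_num)
    have hq2 : ∀ᶠ n in atTop, q n < 1 := hq0.eventually_lt_const (by norm_num)
    filter_upwards [hX1, hq1, hq2] with n hn1 hn2 hn3
    have hXpos : 0 < 1 + X n := by linarith
    have e1 : r n = (1 + X n) * (1 - (-1) ^ n * q n) := by
      simp only [hq]
      have : (1 + X n) * (1 - (-1) ^ n * (Bh n * (1 + X n)⁻¹)) = (1 + X n) - (-1) ^ n * Bh n := by
        field_simp
      rw [this]
      simp only [hX, hAh]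
      ring
    have e2 : Real.log (1 - q n ^ 2) = Real.log (1 - q n) + Real.log (1 + q n) := by
      rw [← Real.log_mul (by linarith) (by linarith)]
      congr 1; ring
    simp only [hP, hm, hF]
    rcases neg_one_pow_eq_or ℝ n with h | h
    · rw [e1, h, e2, Real.log_mul hXpos.ne' (by linarith)]
      rw [one_mul]
      ring
    · rw [e1, h, e2, Real.log_mul hXpos.ne' (by linarith)]
      rw [show 1 - -1 * q n = 1 + q n by ring]
      ring
  -- p
  obtain ⟨p, hpP, hprec⟩ := exists_alt (G := -ε) (by linarith)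
    (f := fun n => -2 * P n + 1 / 3 * Real.log (1 + mon (-1) n)) (by
      have h1 : PP (-1) (fun n => Real.log (1 + mon (-1) n)) := by
        have := PP.comp_analytic1 analytic_log_one_add one_pos (PP.of_mon (le_refl (-1 : ℝ)))
        simpa using this
      exact (hPP.const_mul (-2)).add ((h1.mono (show -1 ≤ -ε by linarith)).const_mul (1 / 3)))
  -- v
  obtain ⟨v, hvP, hv0, hvrec, -⟩ := exists_tail (G := -3) (by norm_num)
    (f := fun n => -2 * m n) (hmP.const_mul (-2))
  have hvP2 : PP (-2) v := hvP.mono (by norm_num)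
  have hvP1 : PP (-2 - ε) (fun n => v n - B 0 * mon (-2) n) := by
    have h1 := PP_mon_diff2 (-2)
    have h2 : PP (-3 - ε) (fun n => (v n - B 0 * mon (-2) n) - (v (n + 1) - B 0 * mon (-2) (n + 1))) := by
      have h3 := (hmP1.const_mul (-2)).add ((h1.mono (show (-2 : ℝ) - 2 ≤ -3 - ε by linarith)).const_mul (B 0))
      refine h3.congr fun n => ?_
      have h4 := hvrec n
      have h5 : mon (-2 - 1) n = mon (-3) n := by congr 1; norm_num
      rw [h5]
      linear_combination -h4
    have h3 : Tendsto (fun n => v n - B 0 * mon (-2) n) atTop (𝓝 0) := by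
      have := hv0.sub ((mon_tendsto_zero (by norm_num : (-2 : ℝ) < 0)).const_mul (B 0))
      simpa using this
    have h4 := PP.tail (show -3 - ε < -1 by linarith) h2 h3 (fun n => rfl)
    exact h4.mono (by linarith)
  -- h and z
  set h : ℕ → ℝ := fun n => -(1 / 3) * Real.log (xb n) + 1 / 3 * Real.log C + p n with hh
  set z : ℕ → ℝ := fun n => Real.log (d n) - h n - (-1) ^ n * v n with hz
  have hzrec : ∀ n, z (n + 1) = -z n := by
    intro n
    have h1 : Real.log (d n) + Real.log (d (n + 1)) + 2 * Real.log (a (n + 1)) = 0 := by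
      have h2 := congrArg Real.log (hda n)
      rw [Real.log_one, Real.log_mul (mul_pos (hd n) (hd (n + 1))).ne' (pow_pos (ha n) 2).ne',
        Real.log_mul (hd n).ne' (hd (n + 1)).ne', Real.log_pow] at h2
      push_cast at h2
      exact h2
    have h2 : Real.log (a (n + 1)) = Real.log (r n) + 1 / 3 * (Real.log (xb n) - Real.log C) := by
      have hpos : 0 < (xb n / C) ^ (1 / (3:ℝ)) := Real.rpow_pos_of_pos (div_pos (xb_pos n) hC) _
      have h3 : a (n + 1) = r n * (xb n / C) ^ (1 / (3:ℝ)) := by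
        simp only [hr]; field_simp
      rw [h3, Real.log_mul (hrpos n).ne' hpos.ne', Real.log_rpow (div_pos (xb_pos n) hC),
        Real.log_div (xb_pos n).ne' hC.ne']
    have h3 : Real.log (xb (n + 1)) = Real.log (xb n) + Real.log (1 + mon (-1) n) := by
      rw [xb_succ, Real.log_mul (xb_pos n).ne' (by have := mon_pos (-1) n; positivity)]
    have h4 := hprec n
    have h5 := hvrec n
    have h6 : P n = Real.log (r n) - (-1) ^ n * m n := rfl
    simp only [hz, hh, pow_succ]
    rw [h3]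
    linear_combination h1 - 2 * h2 - h4 - (-1) ^ n * h5 + 2 * h6
  have hzn : ∀ n, z n = (-1) ^ n * z 0 := by
    intro n
    induction n with
    | zero => simp
    | succ n ih => rw [hzrec, ih, pow_succ]; ring
  set c : ℝ := Real.exp (1 / 3 * Real.log C) with hc
  have hexph : ∀ n, Real.exp (h n) = c * mon (-(1 / 3)) n * Real.exp (p n) := by
    intro n
    simp only [hh]
    rw [Real.exp_add, Real.exp_add, hc, mon, Real.rpow_def_of_pos (xb_pos n),
      mul_comm (Real.log (xb n))]
    ring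
  refine ⟨c, ε, c * B 0, z 0, fun n => Real.exp (h n) * Real.cosh (v n),
    fun n => Real.exp (h n) * Real.sinh (v n), Real.exp_pos _, hεpos, hε3, ?_, ?_, ?_⟩
  · -- δ
    have hE : PP (-ε) (fun n => Real.exp (p n) - 1) := by
      have := PP.comp_analytic1 (F := Real.exp) analyticAt_rexp hεpos hpP
      simpa using this
    have hcosh : AnalyticAt ℝ Real.cosh 0 := by
      have : AnalyticAt ℝ (fun y : ℝ => (Real.exp y + Real.exp (-y)) / 2) 0 := by
        exact (analyticAt_rexp.add (analyticAt_id.neg.rexp')).div analyticAt_const (by norm_num)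
      refine this.congr (Eventually.of_forall fun y => ?_)
      exact (Real.cosh_eq y).symm
    have hK : PP (-ε) (fun n => Real.cosh (v n) - 1) := by
      have := PP.comp_analytic1 hcosh hεpos (hvP2.mono (show -2 ≤ -ε by linarith))
      simpa using this
    have h1 := (hE.add hK).add ((hE.mul hK).mono (show -ε + -ε ≤ -ε by linarith))
    have h2 := ((PP.of_mon (le_refl (-(1 / 3)))).mul h1).const_mul c
    refine (h2.congr fun n => ?_).mono (by linarith)
    show _ = Real.exp (h n) * Real.cosh (v n) - c * mon (-(1 / 3)) n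
    rw [hexph]; ring
  · -- ω
    have hE : PP (-ε) (fun n => Real.exp (p n) - 1) := by
      have := PP.comp_analytic1 (F := Real.exp) analyticAt_rexp hεpos hpP
      simpa using this
    have hsinh : AnalyticAt ℝ Real.sinh 0 := by
      have : AnalyticAt ℝ (fun y : ℝ => (Real.exp y - Real.exp (-y)) / 2) 0 := by
        exact (analyticAt_rexp.sub (analyticAt_id.neg.rexp')).div analyticAt_const (by norm_num)
      refine this.congr (Eventually.of_forall fun y => ?_)
      exact (Real.sinh_eq y).symm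
    have hY : PP (-2 - ε) (fun n => Real.sinh (v n) - B 0 * mon (-2) n) := by
      have h1 := PP.comp_analytic2 hsinh (show (0 : ℝ) < 2 by norm_num) hvP2
      rw [Real.sinh_zero, Real.deriv_sinh, Real.cosh_zero] at h1
      refine ((h1.mono (show -(2 * 2) ≤ -2 - ε by linarith)).add hvP1).congr fun n => ?_
      ring
    have hS : PP (-2) (fun n => Real.sinh (v n)) := by
      have h1 := (hY.mono (show -2 - ε ≤ -2 by linarith)).add
        ((PP.of_mon (le_refl (-2))).const_mul (B 0))
      refine h1.congr fun n => ?_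
      ring
    have h1 := hY.add ((hE.mul hS).mono (show -ε + -2 ≤ -2 - ε by linarith))
    have h2 := ((PP.of_mon (le_refl (-(1 / 3)))).mul h1).const_mul c
    refine (h2.congr fun n => ?_).mono (by linarith)
    show _ = Real.exp (h n) * Real.sinh (v n) - c * B 0 * mon (-(7 / 3)) n
    rw [hexph]
    have h3 : mon (-(7 / 3)) n = mon (-(1 / 3)) n * mon (-2) n := by
      rw [mon_mul_apply]; congr 1; norm_num
    rw [h3]; ring
  · intro n
    have h1 : Real.log (d n) = h n + (-1) ^ n * v n + (-1) ^ n * z 0 := by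
      have := hzn n
      simp only [hz] at this ⊢
      linarith
    have h2 : d n = Real.exp (h n + (-1) ^ n * v n + (-1) ^ n * z 0) := by
      rw [← h1, Real.exp_log (hd n)]
    rw [h2, ← Real.exp_add,
      show h n + (-1) ^ n * v n + (-1) ^ n * z 0 + -((-1) ^ n * z 0) = h n + (-1) ^ n * v n by ring,
      Real.exp_add]
    rcases neg_one_pow_eq_or ℝ n with h3 | h3
    · rw [h3, one_mul, one_mul, ← mul_add, Real.cosh_add_sinh]
    · rw [h3, neg_one_mul, neg_one_mul, ← sub_eq_add_neg, ← mul_sub, Real.cosh_sub_sinh]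

theorem hyp_part {a : ℕ → ℝ} (ha : ∀ n, 0 < a (n + 1))
    (hexp : ∃ i j A B : ℕ → ℝ,
      StrictMono i ∧ i 0 = 0 ∧ A 0 = 1 ∧
      StrictMono j ∧ j 0 = 3 ∧
      Tendsto i atTop atTop ∧ Tendsto j atTop atTop ∧
      ∀ N : ℕ,
        (fun n : ℕ =>
          a n / ((n : ℝ) / (Real.Gamma ((3:ℝ) + 1) / (Real.Gamma ((3:ℝ) / 2) * Real.Gamma ((3:ℝ) / 2 + 1)))) ^ (1 / (3:ℝ))
            - ∑ k ∈ Finset.range N, A k * (n : ℝ) ^ (-(i k))
            - (-1 : ℝ) ^ n * ∑ k ∈ Finset.range N, B k * (n : ℝ) ^ (-(j k)))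
        =O[atTop] (fun n : ℕ => (n : ℝ) ^ (-(min (i N) (j N)))))
    {d : ℕ → ℝ} (hd : ∀ n, 0 < d n) (hda : ∀ n, d n * d (n + 1) * a (n + 1) ^ 2 = 1) :
    ∃ (c ε w H : ℝ) (δ ω : ℕ → ℝ), 0 < c ∧ 0 < ε ∧ ε ≤ 1 / 3 ∧
      PP (-(1 / 3) - ε) (fun n => δ n - c * mon (-(1 / 3)) n) ∧
      PP (-(7 / 3) - ε) (fun n => ω n - w * mon (-(7 / 3)) n) ∧
      ∀ n, d n * Real.exp (-((-1) ^ n * H)) = δ n + (-1) ^ n * ω n := by
  refine hyp_part_aux ?_ ha hexp hd hda
  have h1 := Real.Gamma_pos_of_pos (show (0 : ℝ) < 3 + 1 by norm_num)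
  have h2 := Real.Gamma_pos_of_pos (show (0 : ℝ) < 3 / 2 by norm_num)
  have h3 := Real.Gamma_pos_of_pos (show (0 : ℝ) < 3 / 2 + 1 by norm_num)
  positivity

end F526
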