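import Mathlib

set_option autoImplicit false
set_option linter.unusedSectionVars false

/-!
# Orthogonal polynomials for the weight `exp (-|x|^3)` and their Stieltjes functions
-/

open Filter Topology MeasureTheory Asymptotics Polynomial

namespace F526

/-! ### The algebra -/

/-- The monic orthogonal polynomials of an even functional. -/
noncomputable def opP (L : ℝ[X] →ₗ[ℝ] ℝ) : ℕ → ℝ[X]
  | 0 => 1
  | 1 => X
  | (n + 2) => X * opP L (n + 1) -
      C (L (opP L (n + 1) * opP L (n + 1)) / L (opP L n * opP L n)) * opP L n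

section Alg

variable (L : ℝ[X] →ₗ[ℝ] ℝ)

/-- squared norms -/
noncomputable def opH (n : ℕ) : ℝ := L (opP L n * opP L n)

/-- `opB n = β_{n+1}`. -/
noncomputable def opB (n : ℕ) : ℝ := opH L (n + 1) / opH L n

theorem opP_zero : opP L 0 = 1 := rfl

theorem opP_one : opP L 1 = X := rfl

theorem opP_succ_succ (n : ℕ) : opP L (n + 2) = X * opP L (n + 1) - C (opB L n) * opP L n := rfl

theorem opP_deg (n : ℕ) : (opP L n).Monic ∧ (opP L n).natDegree = n := by
  induction n using Nat.strong_induction_on with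
  | _ n ih =>
    rcases n with _ | _ | n
    · exact ⟨monic_one, natDegree_one⟩
    · exact ⟨monic_X, natDegree_X⟩
    · obtain ⟨h1, h2⟩ := ih (n + 1) (by omega)
      obtain ⟨h3, h4⟩ := ih n (by omega)
      have h5 : (X * opP L (n + 1)).Monic := monic_X.mul h1
      have h6 : (X * opP L (n + 1)).natDegree = n + 2 := by
        rw [monic_X.natDegree_mul h1, natDegree_X, h2]
        omega
      have h7 : (C (opB L n) * opP L n).natDegree < (X * opP L (n + 1)).natDegree := by
        rw [h6]
        refine lt_of_le_of_lt (natDegree_C_mul_le _ _) ?_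
        rw [h4]
        omega
      rw [opP_succ_succ]
      constructor
      · exact h5.sub_of_left (degree_lt_degree h7)
      · rw [natDegree_sub_eq_left_of_natDegree_lt h7, h6]

theorem opP_ne_zero (n : ℕ) : opP L n ≠ 0 := (opP_deg L n).1.ne_zero

theorem opP_comp (n : ℕ) : (opP L n).comp (-X) = (-1) ^ n * opP L n := by
  induction n using Nat.strong_induction_on with
  | _ n ih =>
    rcases n with _ | _ | n
    · simp [opP_zero]
    · simp [opP_one]
    · rw [opP_succ_succ, sub_comp, mul_comp, mul_comp, X_comp, C_comp, ih (n + 1) (by omega),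
        ih n (by omega)]
      ring

variable (hodd : ∀ p : ℝ[X], p.comp (-X) = -p → L p = 0)
  (hpos : ∀ p : ℝ[X], p ≠ 0 → 0 < L (p * p))

include hpos in
theorem opH_pos (n : ℕ) : 0 < opH L n := hpos _ (opP_ne_zero L n)

include hpos in
theorem opB_pos (n : ℕ) : 0 < opB L n := div_pos (opH_pos L hpos _) (opH_pos L hpos _)

theorem X_mul_opP_succ (n : ℕ) : X * opP L (n + 1) = opP L (n + 2) + C (opB L n) * opP L n := by
  rw [opP_succ_succ]
  ring

theorem L_C_mul (c : ℝ) (p : ℝ[X]) : L (C c * p) = c * L p := by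
  rw [← smul_eq_C_mul, map_smul, smul_eq_mul]

include hodd hpos

theorem op_orth (n : ℕ) : ∀ m < n, L (opP L n * opP L m) = 0 := by
  induction n using Nat.strong_induction_on with
  | _ n ih =>
    intro m hm
    rcases n with _ | _ | n
    · omega
    · have : m = 0 := by omega
      subst this
      apply hodd
      simp [opP_one, opP_zero]
    · have hsub : L (opP L (n + 2) * opP L m) = L (opP L (n + 1) * (X * opP L m)) -
          opB L n * L (opP L n * opP L m) := by
        rw [← L_C_mul, ← map_sub, opP_succ_succ]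
        congr 1
        ring
      rw [hsub]
      rcases (by omega : m = n + 1 ∨ m = n ∨ m < n) with h | h | h
      · subst h
        have h1 : L (opP L (n + 1) * (X * opP L (n + 1))) = 0 := by
          apply hodd
          rw [mul_comp, mul_comp, X_comp, opP_comp]
          have : ((-1 : ℝ[X]) ^ (n + 1)) * (-1) ^ (n + 1) = 1 := by
            rw [← mul_pow]
            simp
          calc (-1) ^ (n + 1) * opP L (n + 1) * (-X * ((-1) ^ (n + 1) * opP L (n + 1)))
              = ((-1 : ℝ[X]) ^ (n + 1) * (-1) ^ (n + 1)) *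
                -(opP L (n + 1) * (X * opP L (n + 1))) := by ring
            _ = _ := by rw [this, one_mul]
        have h2 : L (opP L n * opP L (n + 1)) = 0 := by
          rw [mul_comm]
          exact ih (n + 1) (by omega) n (by omega)
        rw [h1, h2]
        ring
      · subst h
        have h3 : L (opP L (m + 1) * (X * opP L m)) = opH L (m + 1) := by
          rcases m with _ | m
          · rw [opP_zero, mul_one, opH, opP_one]
          · rw [X_mul_opP_succ, mul_add, map_add]
            have h4 : L (opP L (m + 1 + 1) * (C (opB L m) * opP L m)) = 0 := by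
              have h5 : opP L (m + 1 + 1) * (C (opB L m) * opP L m) =
                  C (opB L m) * (opP L (m + 1 + 1) * opP L m) := by ring
              rw [h5, L_C_mul, ih (m + 1 + 1) (by omega) m (by omega), mul_zero]
            rw [h4, add_zero]
            rfl
        rw [h3]
        have h6 : opB L m * L (opP L m * opP L m) = opH L (m + 1) := by
          change opH L (m + 1) / opH L m * opH L m = _
          rw [div_mul_cancel₀ _ (opH_pos L hpos m).ne']
        rw [h6, sub_self]
      · have h1 : L (opP L n * opP L m) = 0 := ih n (by omega) m h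
        have h2 : L (opP L (n + 1) * (X * opP L m)) = 0 := by
          rcases m with _ | m
          · rw [opP_zero, mul_one]
            exact ih (n + 1) (by omega) 1 (by omega)
          · rw [X_mul_opP_succ, mul_add, map_add, ih (n + 1) (by omega) (m + 2) (by omega)]
            have h5 : opP L (n + 1) * (C (opB L m) * opP L m) =
                C (opB L m) * (opP L (n + 1) * opP L m) := by ring
            rw [h5, L_C_mul, ih (n + 1) (by omega) m (by omega), mul_zero, add_zero]
        rw [h1, h2]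
        ring

theorem op_orth_X_pow (k : ℕ) : ∀ n, k < n → L (opP L n * X ^ k) = 0 := by
  induction k with
  | zero =>
    intro n hn
    rw [pow_zero]
    exact op_orth L hodd hpos n 0 hn
  | succ k ih =>
    intro n hn
    obtain ⟨m, rfl⟩ : ∃ m, n = m + 1 := ⟨n - 1, by omega⟩
    have h1 : opP L (m + 1) * X ^ (k + 1) = opP L (m + 2) * X ^ k +
        C (opB L m) * (opP L m * X ^ k) := by
      rw [opP_succ_succ, pow_succ]
      ring
    rw [h1, map_add, L_C_mul, ih _ (by omega), ih _ (by omega)]
    ring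

theorem op_orth_poly (n : ℕ) (q : ℝ[X]) (hq : q.degree < n) : L (opP L n * q) = 0 := by
  rcases eq_or_ne q 0 with rfl | hq0
  · rw [mul_zero, map_zero]
  · have hq' : q.natDegree < n := (natDegree_lt_iff_degree_lt hq0).2 hq
    rw [q.as_sum_range' n hq', Finset.mul_sum, map_sum]
    refine Finset.sum_eq_zero fun k hk => ?_
    rw [← C_mul_X_pow_eq_monomial]
    have : opP L n * (C (q.coeff k) * X ^ k) = C (q.coeff k) * (opP L n * X ^ k) := by ring
    rw [this, L_C_mul, op_orth_X_pow L hodd hpos k n (Finset.mem_range.1 hk), mul_zero]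

/-- The Hankel determinants. -/
theorem op_det (m : ℕ) : (Matrix.of fun i j : Fin m => L (X ^ (i.val + j.val))).det =
    ∏ k ∈ Finset.range m, opH L k := by
  let A : Matrix (Fin m) (Fin m) ℝ := Matrix.of fun i j => (opP L i).coeff j
  let M : Matrix (Fin m) (Fin m) ℝ := Matrix.of fun i j : Fin m => L (X ^ (i.val + j.val))
  have hA : A.det = 1 := by
    rw [Matrix.det_of_isLowerTriangular]
    · refine Finset.prod_eq_one fun i _ => ?_
      have h := opP_deg L i
      change (opP L i).coeff i = 1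
      have h2 := h.1.coeff_natDegree
      rwa [h.2] at h2
    · intro i j hij
      have hij' : i < j := hij
      change (opP L i).coeff j = 0
      apply coeff_eq_zero_of_natDegree_lt
      rw [(opP_deg L i).2]
      exact hij'
  have hexp : ∀ i : Fin m, opP L i = ∑ k : Fin m, C ((opP L i).coeff k) * X ^ (k : ℕ) := by
    intro i
    have h := (opP L i).as_sum_range' m (by rw [(opP_deg L i).2]; exact i.2)
    conv_lhs => rw [h]
    rw [Finset.sum_range]
    refine Finset.sum_congr rfl fun k _ => ?_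
    rw [C_mul_X_pow_eq_monomial]
  have hprod : A * M * A.transpose = Matrix.diagonal fun i : Fin m => opH L i := by
    ext i j
    rw [Matrix.mul_apply]
    have h1 : ∑ l, (A * M) i l * A.transpose l j = L (opP L i * opP L j) := by
      conv_rhs => rw [hexp j, Finset.mul_sum, map_sum]
      refine Finset.sum_congr rfl fun l _ => ?_
      rw [Matrix.mul_apply, Matrix.transpose_apply]
      have h2 : opP L i * (C ((opP L j).coeff l) * X ^ (l : ℕ)) =
          C ((opP L j).coeff l) * (opP L i * X ^ (l : ℕ)) := by ring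
      rw [h2, L_C_mul, mul_comm]
      congr 1
      conv_rhs => rw [hexp i, Finset.sum_mul, map_sum]
      refine Finset.sum_congr rfl fun k _ => ?_
      rw [mul_assoc, ← pow_add, L_C_mul]
      rfl
    rw [h1, Matrix.diagonal_apply]
    by_cases hij : i = j
    · subst hij
      rw [if_pos rfl]
      rfl
    · rw [if_neg hij]
      rcases lt_or_gt_of_ne hij with h | h
      · rw [mul_comm]
        exact op_orth L hodd hpos j i h
      · exact op_orth L hodd hpos i j h
  have h2 := congrArg Matrix.det hprod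
  rw [Matrix.det_mul, Matrix.det_mul, Matrix.det_transpose, hA, one_mul, mul_one,
    Matrix.det_diagonal] at h2
  rw [← Finset.prod_range (fun k => opH L k)] at h2
  exact h2

/-! ### The second kind functions -/

omit hodd hpos in
/-- The polynomials on the imaginary axis. -/
noncomputable def opPi (L : ℝ[X] →ₗ[ℝ] ℝ) (t : ℝ) : ℕ → ℝ
  | 0 => 1
  | 1 => t
  | (n + 2) => t * opPi L t (n + 1) + opB L n * opPi L t n

omit hodd in
theorem opPi_pos {t : ℝ} (ht : 0 < t) (n : ℕ) : 0 < opPi L t n := by
  induction n using Nat.strong_induction_on with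
  | _ n ih =>
    rcases n with _ | _ | n
    · exact one_pos
    · exact ht
    · exact add_pos (mul_pos ht (ih _ (by omega)))
        (mul_pos (opB_pos L hpos n) (ih _ (by omega)))

omit hodd hpos in
theorem op_aeval (t : ℝ) (n : ℕ) : aeval (Complex.I * t) (opP L n) =
    Complex.I ^ n * (opPi L t n : ℂ) := by
  induction n using Nat.strong_induction_on with
  | _ n ih =>
    rcases n with _ | _ | n
    · simp [opP_zero, opPi]
    · simp [opP_one, opPi]
    · rw [opP_succ_succ, map_sub, map_mul, map_mul, aeval_X, aeval_C, ih _ (by omega),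
        ih _ (by omega)]
      have h1 : opPi L t (n + 2) = t * opPi L t (n + 1) + opB L n * opPi L t n := rfl
      rw [h1]
      have h2 : Complex.I ^ (n + 2) = - Complex.I ^ n := by
        rw [pow_add, Complex.I_sq]
        ring
      have h3 : Complex.I ^ (n + 1) = Complex.I ^ n * Complex.I := pow_succ _ _
      rw [h2, h3]
      push_cast
      simp only [Complex.coe_algebraMap]
      have h4 : Complex.I * Complex.I = -1 := Complex.I_mul_I
      linear_combination (t * Complex.I ^ n * (opPi L t (n + 1) : ℂ)) * h4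

variable (K : ℝ[X] →ₗ[ℝ] ℝ) {t : ℝ} (ht : 0 < t)
  (hK : ∀ p : ℝ[X], K ((X ^ 2 + C (t ^ 2)) * p) = L p)
  (hKodd : ∀ p : ℝ[X], p.comp (-X) = -p → K p = 0)
  (hKpos : ∀ p : ℝ[X], p ≠ 0 → 0 < K (p * p))

omit hodd hpos in
/-- The function of the second kind at `i t`. -/
noncomputable def opF (L K : ℝ[X] →ₗ[ℝ] ℝ) (t : ℝ) (n : ℕ) : ℂ :=
  (K (X * opP L n) : ℂ) + Complex.I * t * (K (opP L n) : ℂ)

omit hodd hpos in
theorem K_C_mul (c : ℝ) (p : ℝ[X]) : K (C c * p) = c * K p := by
  rw [← smul_eq_C_mul, map_smul, smul_eq_mul]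

omit hodd hpos in
include hK in
theorem K_X_sq (p : ℝ[X]) : K (X ^ 2 * p) = L p - t ^ 2 * K p := by
  have h := hK p
  rw [add_mul, map_add, K_C_mul] at h
  linarith

include hK in
theorem opF_succ_succ (n : ℕ) : opF L K t (n + 2) = Complex.I * t * opF L K t (n + 1) -
    opB L n * opF L K t n := by
  have h0 : L (opP L (n + 1)) = 0 := by
    have := op_orth L hodd hpos (n + 1) 0 (by omega)
    rwa [opP_zero, mul_one] at this
  have h1 : K (X * opP L (n + 2)) = - t ^ 2 * K (opP L (n + 1)) - opB L n * K (X * opP L n) := by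
    have : X * opP L (n + 2) = X ^ 2 * opP L (n + 1) - C (opB L n) * (X * opP L n) := by
      rw [opP_succ_succ]
      ring
    rw [this, map_sub, K_C_mul, K_X_sq L K hK, h0]
    ring
  have h2 : K (opP L (n + 2)) = K (X * opP L (n + 1)) - opB L n * K (opP L n) := by
    rw [opP_succ_succ, map_sub, K_C_mul]
  unfold opF
  rw [h1, h2]
  push_cast
  have h4 : Complex.I * Complex.I = -1 := Complex.I_mul_I
  linear_combination (-(t : ℂ) ^ 2 * (K (opP L (n + 1)) : ℂ)) * h4

omit hodd hpos in
include hK in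
theorem opF_one : opF L K t 1 = L 1 + Complex.I * t * opF L K t 0 := by
  have h1 : K (X * opP L 1) = L 1 - t ^ 2 * K 1 := by
    rw [opP_one, ← K_X_sq L K hK, mul_one]
    congr 1
    ring
  unfold opF
  rw [h1, opP_zero, opP_one, mul_one]
  push_cast
  have h4 : Complex.I * Complex.I = -1 := Complex.I_mul_I
  linear_combination (-(t : ℂ) ^ 2 * (K 1 : ℂ)) * h4

include hK hKodd in
theorem op_aeval_mul_opF (n : ℕ) : aeval (Complex.I * t) (opP L n) * opF L K t n =
    Complex.I * t * (K (opP L n * opP L n) : ℂ) := by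
  have hq : (X ^ 2 + C (t ^ 2) : ℝ[X]).Monic := monic_X_pow_add_C _ (by norm_num)
  have hqd : (X ^ 2 + C (t ^ 2) : ℝ[X]).natDegree = 2 := natDegree_X_pow_add_C
  obtain ⟨Q, hQ⟩ : ∃ Q, Q = opP L n /ₘ (X ^ 2 + C (t ^ 2)) := ⟨_, rfl⟩
  have hmod : (opP L n %ₘ (X ^ 2 + C (t ^ 2))).natDegree ≤ 1 := by
    have := natDegree_modByMonic_lt (opP L n) hq (by
      intro h
      have := congrArg natDegree h
      rw [hqd, natDegree_one] at this
      omega)
    rw [hqd] at this
    omega
  obtain ⟨α, γ, hαγ⟩ := exists_eq_X_add_C_of_natDegree_le_one hmod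
  have hdiv : opP L n = (X ^ 2 + C (t ^ 2)) * Q + (C α * X + C γ) := by
    have := modByMonic_add_div (opP L n) (X ^ 2 + C (t ^ 2))
    rw [hαγ, ← hQ] at this
    rw [← this]
    ring
  have hnd := (opP_deg L n).2
  have hXQ : (X * Q : ℝ[X]).degree < (n : WithBot ℕ) := by
    rcases eq_or_ne Q 0 with h0 | h0
    · rw [h0, mul_zero, degree_zero]
      exact WithBot.bot_lt_coe _
    · have h1 : Q.natDegree = n - 2 := by
        rw [hQ, natDegree_divByMonic _ hq, hqd, hnd]
      have h2 : 2 ≤ n := by
        by_contra hlt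
        apply h0
        rw [hQ]
        rw [divByMonic_eq_zero_iff hq]
        apply degree_lt_degree
        rw [hqd, hnd]
        omega
      rw [← natDegree_lt_iff_degree_lt (mul_ne_zero X_ne_zero h0), natDegree_X_mul h0, h1]
      omega
  have hQd : (Q : ℝ[X]).degree < (n : WithBot ℕ) := by
    rcases eq_or_ne Q 0 with h0 | h0
    · rw [h0, degree_zero]
      exact WithBot.bot_lt_coe _
    · refine lt_of_le_of_lt ?_ hXQ
      rw [degree_mul, degree_X]
      rw [degree_eq_natDegree h0]
      norm_cast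
      omega
  have hαL : α * L (opP L n) = 0 := by
    rcases n with _ | n
    · have h1 := congrArg (fun p => coeff p 1) hαγ
      have h2 : opP L 0 %ₘ (X ^ 2 + C (t ^ 2)) = 1 := by
        rw [opP_zero, (modByMonic_eq_self_iff hq)]
        apply degree_lt_degree
        rw [hqd, natDegree_one]
        omega
      simp only [h2] at h1
      have h3 : (1 : ℝ[X]).coeff 1 = 0 := by
        rw [coeff_one]
        simp
      rw [h3] at h1
      simp at h1
      rw [← h1, zero_mul]
    · have := op_orth L hodd hpos (n + 1) 0 (by omega)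
      rw [opP_zero, mul_one] at this
      rw [this, mul_zero]
  have e1 : K (opP L n * opP L n) = α * K (X * opP L n) + γ * K (opP L n) := by
    have h1 : opP L n * opP L n = (X ^ 2 + C (t ^ 2)) * (opP L n * Q) +
        (C α * (X * opP L n) + C γ * opP L n) := by
      conv_lhs => rw [hdiv]
      conv_rhs => rw [hdiv]
      ring
    rw [h1, map_add, hK, op_orth_poly L hodd hpos n Q hQd, map_add, K_C_mul, K_C_mul]
    ring
  have e2 : γ * K (X * opP L n) - α * t ^ 2 * K (opP L n) = 0 := by
    have h0 : K (X * (opP L n * opP L n)) = 0 := by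
      apply hKodd
      rw [mul_comp, mul_comp, X_comp, opP_comp]
      have : ((-1 : ℝ[X]) ^ n) * (-1) ^ n = 1 := by
        rw [← mul_pow]
        simp
      calc -X * ((-1) ^ n * opP L n * ((-1) ^ n * opP L n))
          = ((-1 : ℝ[X]) ^ n * (-1) ^ n) * -(X * (opP L n * opP L n)) := by ring
        _ = _ := by rw [this, one_mul]
    have h1 : X * (opP L n * opP L n) = (X ^ 2 + C (t ^ 2)) * (opP L n * (X * Q)) +
        (C α * (X ^ 2 * opP L n) + C γ * (X * opP L n)) := by
      conv_lhs => rw [hdiv]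
      conv_rhs => rw [hdiv]
      ring
    rw [h1, map_add, hK, op_orth_poly L hodd hpos n (X * Q) hXQ, map_add, K_C_mul, K_C_mul,
      K_X_sq L K hK] at h0
    linarith
  have e3 : aeval (Complex.I * (t : ℂ)) (opP L n) = α * (Complex.I * t) + γ := by
    rw [hdiv]
    simp only [map_add, map_mul, map_pow, aeval_X, aeval_C, Complex.coe_algebraMap]
    have : (Complex.I * (t : ℂ)) ^ 2 + (t : ℂ) ^ 2 = 0 := by
      rw [mul_pow, Complex.I_sq]
      ring
    rw [this]
    ring
  have e2' : (γ : ℂ) * (K (X * opP L n) : ℂ) - α * t ^ 2 * (K (opP L n) : ℂ) = 0 := by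
    exact_mod_cast e2
  rw [e3, e1]
  unfold opF
  push_cast
  have h4 : Complex.I * Complex.I = -1 := Complex.I_mul_I
  linear_combination e2' + (α * t ^ 2 * (K (opP L n) : ℂ)) * h4

omit hodd hpos in
/-- The modulus of the function of the second kind. -/
noncomputable def opS (L K : ℝ[X] →ₗ[ℝ] ℝ) (t : ℝ) (n : ℕ) : ℝ :=
  t * K (opP L n * opP L n) / opPi L t n

include ht hKpos in
omit hodd in
theorem opS_pos (n : ℕ) : 0 < opS L K t n :=
  div_pos (mul_pos ht (hKpos _ (opP_ne_zero L n))) (opPi_pos L hpos ht n)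

include ht hK hKodd in
theorem opF_eq (n : ℕ) : Complex.I ^ n * opF L K t n = Complex.I * (opS L K t n : ℂ) := by
  have h1 := op_aeval_mul_opF L hodd hpos K hK hKodd n
  rw [op_aeval] at h1
  have h2 : (opPi L t n : ℂ) ≠ 0 := by
    exact_mod_cast (opPi_pos L hpos ht n).ne'
  unfold opS
  push_cast
  field_simp
  linear_combination h1

include ht hK hKodd in
theorem opS_succ_succ (n : ℕ) : opS L K t (n + 2) = opB L n * opS L K t n -
    t * opS L K t (n + 1) := by
  have h1 := opF_eq L hodd hpos K ht hK hKodd (n + 2)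
  have h2 := opF_eq L hodd hpos K ht hK hKodd (n + 1)
  have h3 := opF_eq L hodd hpos K ht hK hKodd n
  rw [opF_succ_succ L hodd hpos K hK] at h1
  have hI : Complex.I ≠ 0 := Complex.I_ne_zero
  have h4 : Complex.I * Complex.I = -1 := Complex.I_mul_I
  have h5 : Complex.I * ((opS L K t (n + 2) : ℝ) : ℂ) =
      Complex.I * ((opB L n * opS L K t n - t * opS L K t (n + 1) : ℝ) : ℂ) := by
    rw [← h1]
    have e2 : Complex.I ^ (n + 2) = Complex.I ^ n * (Complex.I * Complex.I) := by ring
    have e1 : Complex.I ^ (n + 1) = Complex.I ^ n * Complex.I := pow_succ _ _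
    rw [e1] at h2
    rw [e2]
    push_cast
    linear_combination (Complex.I * Complex.I * t) * h2 - (Complex.I * Complex.I) * opB L n * h3 +
      (Complex.I * t * (opS L K t (n + 1) : ℂ) - Complex.I * opB L n * (opS L K t n : ℂ)) * h4
  have h6 := mul_left_cancel₀ hI h5
  exact_mod_cast h6

include ht hK hKodd in
theorem opS_one : opS L K t 1 = L 1 - t * opS L K t 0 := by
  have h1 := opF_eq L hodd hpos K ht hK hKodd 1
  have h2 := opF_eq L hodd hpos K ht hK hKodd 0
  rw [opF_one L K hK] at h1
  rw [pow_zero, one_mul] at h2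
  rw [pow_one, h2] at h1
  have hI : Complex.I ≠ 0 := Complex.I_ne_zero
  have h3 := mul_left_cancel₀ hI h1
  have h4 : Complex.I * Complex.I = -1 := Complex.I_mul_I
  have h5 : ((opS L K t 1 : ℝ) : ℂ) = ((L 1 - t * opS L K t 0 : ℝ) : ℂ) := by
    rw [← h3]
    push_cast
    linear_combination (t * (opS L K t 0 : ℂ)) * h4
  exact_mod_cast h5

end Alg

/-! ### The weight -/

/-- The weights considered here. -/
structure GoodWt (v : ℝ → ℝ) : Prop where
  cont : Continuous v
  pos : ∀ x, 0 < v x
  even : ∀ x, v (-x) = v x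
  int : ∀ p : ℝ[X], Integrable fun x => p.eval x * v x

/-- The functional of a weight. -/
noncomputable def fnl (v : ℝ → ℝ) (hv : GoodWt v) : ℝ[X] →ₗ[ℝ] ℝ where
  toFun p := ∫ x, p.eval x * v x
  map_add' p q := by
    rw [← integral_add (hv.int p) (hv.int q)]
    refine integral_congr_ae (Eventually.of_forall fun x => ?_)
    simp only [eval_add]
    ring
  map_smul' c p := by
    rw [RingHom.id_apply, smul_eq_mul, ← integral_const_mul]
    refine integral_congr_ae (Eventually.of_forall fun x => ?_)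
    simp only [eval_smul, smul_eq_mul]
    ring

theorem fnl_apply (v : ℝ → ℝ) (hv : GoodWt v) (p : ℝ[X]) :
    fnl v hv p = ∫ x, p.eval x * v x := rfl

theorem fnl_odd (v : ℝ → ℝ) (hv : GoodWt v) (p : ℝ[X]) (hp : p.comp (-X) = -p) :
    fnl v hv p = 0 := by
  have h1 : fnl v hv p = - fnl v hv p := by
    rw [fnl_apply]
    conv_lhs => rw [← integral_neg_eq_self]
    rw [← integral_neg]
    refine integral_congr_ae (Eventually.of_forall fun x => ?_)
    have h2 : (p.comp (-X)).eval x = (-p).eval x := by rw [hp]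
    rw [eval_comp, eval_neg, eval_X, eval_neg] at h2
    simp only [h2, hv.even]
    ring
  linarith

theorem fnl_pos (v : ℝ → ℝ) (hv : GoodWt v) (p : ℝ[X]) (hp : p ≠ 0) :
    0 < fnl v hv (p * p) := by
  rw [fnl_apply, integral_pos_iff_support_of_nonneg]
  · have hc : Continuous fun x => (p * p).eval x * v x := (p * p).continuous.mul hv.cont
    have hopen : IsOpen (Function.support fun x => (p * p).eval x * v x) := hc.isOpen_support
    refine hopen.measure_pos volume ?_
    obtain ⟨x, hx⟩ : ∃ x, p.eval x ≠ 0 := by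
      by_contra hcon
      push Not at hcon
      exact hp (funext fun x => by rw [hcon x, eval_zero])
    refine ⟨x, ?_⟩
    rw [Function.mem_support, eval_mul]
    exact mul_ne_zero (mul_ne_zero hx hx) (hv.pos x).ne'
  · intro x
    change 0 ≤ (p * p).eval x * v x
    rw [eval_mul]
    exact mul_nonneg (mul_self_nonneg _) (hv.pos x).le
  · exact hv.int _

/-- the weight -/
noncomputable def wt (x : ℝ) : ℝ := Real.exp (-(|x| ^ (3:ℝ)))

theorem wt_nonneg (x : ℝ) : 0 ≤ wt x := (Real.exp_pos _).le

theorem wt_cont : Continuous wt :=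
  Real.continuous_exp.comp (continuous_abs.rpow_const fun _ => Or.inr (by norm_num)).neg

theorem wt_le (x : ℝ) : wt x ≤ Real.exp 1 * Real.exp (-1 * x ^ 2) := by
  unfold wt
  rw [← Real.exp_add]
  apply Real.exp_le_exp.2
  have h1 : |x| ^ (3:ℝ) = |x| ^ 3 := by
    rw [show (3:ℝ) = ((3 : ℕ) : ℝ) by norm_num, Real.rpow_natCast]
  rw [h1, ← sq_abs x]
  have h2 := abs_nonneg x
  rcases le_total |x| 1 with h | h
  · nlinarith [pow_nonneg h2 3]
  · nlinarith [pow_nonneg h2 2]

theorem pow_wt_int (k : ℕ) : Integrable fun x : ℝ => x ^ k * wt x := by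
  have h1 : Integrable fun x : ℝ => x ^ (k : ℝ) * Real.exp (-1 * x ^ 2) :=
    integrable_rpow_mul_exp_neg_mul_sq one_pos (by
      have : (0:ℝ) ≤ k := Nat.cast_nonneg k
      linarith)
  have h2 := h1.const_mul (Real.exp 1)
  refine h2.mono ((continuous_pow k).mul wt_cont).aestronglyMeasurable ?_
  refine Eventually.of_forall fun x => ?_
  rw [Real.rpow_natCast]
  rw [norm_mul, norm_mul, norm_mul]
  rw [Real.norm_of_nonneg (Real.exp_pos _).le, Real.norm_of_nonneg (Real.exp_pos (-1 * x ^ 2)).le,
    Real.norm_of_nonneg (wt_nonneg x)]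
  have h3 := wt_le x
  calc ‖x ^ k‖ * wt x ≤ ‖x ^ k‖ * (Real.exp 1 * Real.exp (-1 * x ^ 2)) :=
        mul_le_mul_of_nonneg_left h3 (norm_nonneg _)
    _ = _ := by ring

theorem poly_int_of_pow (v : ℝ → ℝ) (h : ∀ k : ℕ, Integrable fun x : ℝ => x ^ k * v x)
    (p : ℝ[X]) : Integrable fun x => p.eval x * v x := by
  have h1 : (fun x => p.eval x * v x) =
      fun x => ∑ k ∈ Finset.range (p.natDegree + 1), p.coeff k * (x ^ k * v x) := by
    ext x
    rw [eval_eq_sum_range, Finset.sum_mul]
    refine Finset.sum_congr rfl fun k _ => ?_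
    ring
  rw [h1]
  exact integrable_finsetSum _ fun k _ => (h k).const_mul _

theorem good_wt : GoodWt wt where
  cont := wt_cont
  pos x := Real.exp_pos _
  even x := by
    unfold wt
    rw [abs_neg]
  int := poly_int_of_pow wt pow_wt_int

theorem good_wtK (t : ℝ) (ht : 0 < t) : GoodWt fun x => wt x / (x ^ 2 + t ^ 2) where
  cont := wt_cont.div (by fun_prop) fun x => by positivity
  pos x := div_pos (Real.exp_pos _) (by positivity)
  even x := by
    simp only [good_wt.even, neg_sq]
  int := by
    apply poly_int_of_pow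
    intro k
    have h2 := (pow_wt_int k).const_mul ((t ^ 2)⁻¹)
    refine h2.mono ?_ ?_
    · exact ((continuous_pow k).mul (wt_cont.div (by fun_prop)
        fun x => by positivity)).aestronglyMeasurable
    · refine Eventually.of_forall fun x => ?_
      rw [norm_mul, norm_mul, norm_mul, norm_div]
      have h3 : (0:ℝ) < x ^ 2 + t ^ 2 := by positivity
      rw [Real.norm_of_nonneg h3.le, Real.norm_of_nonneg (by positivity : (0:ℝ) ≤ (t ^ 2)⁻¹)]
      have h4 : ‖wt x‖ / (x ^ 2 + t ^ 2) ≤ (t ^ 2)⁻¹ * ‖wt x‖ := by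
        rw [div_eq_inv_mul]
        apply mul_le_mul_of_nonneg_right _ (norm_nonneg _)
        apply inv_anti₀ (by positivity)
        nlinarith [sq_nonneg x]
      calc ‖x ^ k‖ * (‖wt x‖ / (x ^ 2 + t ^ 2)) ≤ ‖x ^ k‖ * ((t ^ 2)⁻¹ * ‖wt x‖) :=
            mul_le_mul_of_nonneg_left h4 (norm_nonneg _)
        _ = _ := by ring

/-- The functional of the weight. -/
noncomputable def Lf : ℝ[X] →ₗ[ℝ] ℝ := fnl wt good_wt

open Classical in
/-- The functional of the weight divided by `x ^ 2 + t ^ 2`. -/
noncomputable def Kf (t : ℝ) : ℝ[X] →ₗ[ℝ] ℝ :=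
  if h : 0 < t then fnl (fun x => wt x / (x ^ 2 + t ^ 2)) (good_wtK t h) else 0

theorem Kf_of_pos {t : ℝ} (h : 0 < t) :
    Kf t = fnl (fun x => wt x / (x ^ 2 + t ^ 2)) (good_wtK t h) := dif_pos h

theorem Kf_mul {t : ℝ} (h : 0 < t) (p : ℝ[X]) : Kf t ((X ^ 2 + C (t ^ 2)) * p) = Lf p := by
  rw [Kf_of_pos h]
  unfold Lf
  rw [fnl_apply, fnl_apply]
  refine integral_congr_ae (Eventually.of_forall fun x => ?_)
  have h3 : (0:ℝ) < x ^ 2 + t ^ 2 := by positivity
  simp only [eval_mul, eval_add, eval_pow, eval_X, eval_C]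
  field_simp

theorem Lf_odd (p : ℝ[X]) (hp : p.comp (-X) = -p) : Lf p = 0 := fnl_odd _ _ p hp

theorem Lf_pos (p : ℝ[X]) (hp : p ≠ 0) : 0 < Lf (p * p) := fnl_pos _ _ p hp

theorem Kf_odd {t : ℝ} (h : 0 < t) (p : ℝ[X]) (hp : p.comp (-X) = -p) : Kf t p = 0 := by
  rw [Kf_of_pos h]
  exact fnl_odd _ _ p hp

theorem Kf_pos {t : ℝ} (h : 0 < t) (p : ℝ[X]) (hp : p ≠ 0) : 0 < Kf t (p * p) := by
  rw [Kf_of_pos h]
  exact fnl_pos _ _ p hp

/-- The normalizing constants. -/
noncomputable def opc : ℕ → ℝ
  | 0 => Real.pi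
  | 1 => Lf 1
  | (n + 2) => opB Lf n * opc n

theorem Lf_one_pos : 0 < Lf 1 := by
  have := Lf_pos 1 one_ne_zero
  rwa [mul_one] at this

theorem opc_pos (n : ℕ) : 0 < opc n := by
  induction n using Nat.strong_induction_on with
  | _ n ih =>
    rcases n with _ | _ | n
    · exact Real.pi_pos
    · exact Lf_one_pos
    · exact mul_pos (opB_pos Lf Lf_pos n) (ih n (by omega))

/-- The functions `Z k`. -/
noncomputable def opZ : ℕ → ℝ → ℝ
  | 0, _ => 1
  | (n + 1), t => opS Lf (Kf t) t n / opc n

theorem op_part (μ : ℕ → ℝ) (hμ : ∀ k : ℕ, μ k = ∫ x : ℝ, x ^ k * Real.exp (-(|x| ^ (3:ℝ))))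
    (D : ℕ → ℝ) (hD : ∀ m : ℕ, D m = (Matrix.of fun i j : Fin m => μ (i.val + j.val)).det)
    (a : ℕ → ℝ) (ha : ∀ n : ℕ, 1 ≤ n → a n = Real.sqrt (D (n + 1) * D (n - 1) / D n ^ 2)) :
    ∃ (d : ℕ → ℝ) (Z : ℕ → ℝ → ℝ), (∀ n, 0 < d n) ∧ (∀ n, 0 < a (n + 1)) ∧
      (∀ n, d n * d (n + 1) * (a (n + 1)) ^ 2 = 1) ∧ (∀ t, 0 < t → Z 0 t = 1) ∧
      (∀ t, 0 < t → Z 1 t = Real.pi⁻¹ * ∫ x : ℝ, t * Real.exp (-(|x| ^ (3:ℝ))) / (x ^ 2 + t ^ 2)) ∧
      (∀ t, 0 < t → ∀ k, 0 < Z k t) ∧
      (∀ t, 0 < t → ∀ k, Z k t - Z (k + 2) t = t * d k * Z (k + 1) t) := by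
  have hμL : ∀ k, μ k = Lf (X ^ k) := by
    intro k
    rw [hμ k]
    change _ = ∫ x, (X ^ k : ℝ[X]).eval x * wt x
    refine integral_congr_ae (Eventually.of_forall fun x => ?_)
    simp only [eval_pow, eval_X, wt]
  have hDL : ∀ m, D m = ∏ k ∈ Finset.range m, opH Lf k := by
    intro m
    rw [hD m, ← op_det Lf Lf_odd Lf_pos m]
    congr 2
    ext i j
    exact hμL _
  have haL : ∀ n, a (n + 1) = Real.sqrt (opB Lf n) := by
    intro n
    rw [ha (n + 1) (by omega), hDL, hDL, hDL]
    congr 1
    have h0 : 0 < ∏ k ∈ Finset.range n, opH Lf k :=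
      Finset.prod_pos fun k _ => opH_pos Lf Lf_pos k
    have h1 := opH_pos Lf Lf_pos n
    have h2 := opH_pos Lf Lf_pos (n + 1)
    rw [Nat.add_sub_cancel, Finset.prod_range_succ, Finset.prod_range_succ]
    unfold opB
    field_simp
  have hBp : ∀ n, 0 < opB Lf n := opB_pos Lf Lf_pos
  refine ⟨fun n => opc n / opc (n + 1), opZ, fun n => div_pos (opc_pos n) (opc_pos _),
    fun n => ?_, fun n => ?_, fun t _ => rfl, fun t ht => ?_, fun t ht k => ?_, fun t ht k => ?_⟩
  · rw [haL]
    exact Real.sqrt_pos.2 (hBp n)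
  · rw [haL, Real.sq_sqrt (hBp n).le]
    have h0 := opc_pos n
    have h1 := opc_pos (n + 1)
    have h2 := hBp n
    have h3 : opc (n + 1 + 1) = opB Lf n * opc n := rfl
    simp only [h3]
    field_simp
  · change opS Lf (Kf t) t 0 / opc 0 = _
    have h1 : opc 0 = Real.pi := rfl
    have h2 : opS Lf (Kf t) t 0 = t * Kf t 1 := by
      unfold opS
      rw [opP_zero, mul_one]
      change t * Kf t 1 / 1 = _
      rw [div_one]
    rw [h1, h2, Kf_of_pos ht, fnl_apply, div_eq_inv_mul]
    congr 1
    rw [← integral_const_mul]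
    refine integral_congr_ae (Eventually.of_forall fun x => ?_)
    simp only [eval_one, one_mul, wt]
    ring
  · rcases k with _ | k
    · exact one_pos
    · exact div_pos (opS_pos Lf Lf_pos (Kf t) ht (Kf_pos ht) k) (opc_pos k)
  · rcases k with _ | n
    · change 1 - opS Lf (Kf t) t 1 / opc 1 = t * (opc 0 / opc 1) * (opS Lf (Kf t) t 0 / opc 0)
      rw [opS_one Lf Lf_odd Lf_pos (Kf t) ht (Kf_mul ht) (Kf_odd ht)]
      have h1 : opc 1 = Lf 1 := rfl
      rw [h1]
      have h2 := Lf_one_pos
      have h3 := opc_pos 0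
      field_simp
      ring
    · change opS Lf (Kf t) t n / opc n - opS Lf (Kf t) t (n + 2) / opc (n + 2) =
        t * (opc (n + 1) / opc (n + 2)) * (opS Lf (Kf t) t (n + 1) / opc (n + 1))
      rw [opS_succ_succ Lf Lf_odd Lf_pos (Kf t) ht (Kf_mul ht) (Kf_odd ht)]
      have h1 : opc (n + 2) = opB Lf n * opc n := rfl
      rw [h1]
      have h2 := hBp n
      have h3 := opc_pos n
      have h4 := opc_pos (n + 1)
      field_simp
      ring

end F526
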