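import Pool.Agent.Lib.MP_f52611_an.Sum

open Filter Topology Asymptotics

namespace F526

/-- algebraic construction of the pure (non-alternating) Riccati coefficients -/
theorem pure_part {c ε : ℝ} {δ : ℕ → ℝ} (hε : 0 < ε) (hε1 : ε ≤ 1 / 3)
    (hδ : PP (-(1 / 3) - ε) (fun n => δ n - c * mon (-(1 / 3)) n)) :
    ∃ x : ℕ → ℕ → ℝ, (∀ k, x 0 k = 1) ∧ (∀ j : ℕ, j ≤ 6 → PP (-((j : ℝ) / 3)) (x j)) ∧
      (∀ j : ℕ, 1 ≤ j → j ≤ 6 → ∀ k,
        ∑ i ∈ Finset.range (j + 1), x i k * x (j - i) (k + 1) = δ k * x (j - 1) (k + 1)) ∧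
      PP (-(1 / 3) - ε) (fun n => x 1 n - c / 2 * mon (-(1 / 3)) n) ∧
      PP (-(5 / 3)) (fun n => x 2 n - x 1 n ^ 2 / 2) ∧ PP (-2) (x 3) := by
  have hδ1 : PP (-(1 / 3)) δ := by
    have h1 := hδ.mono (by linarith : -(1 / 3) - ε ≤ -(1 / 3))
    refine (h1.add ((PP.of_mon (le_refl (-(1 / 3 : ℝ)))).const_mul c)).congr fun n => ?_
    ring
  -- x1
  obtain ⟨x1, hx1, e1⟩ := exists_alt (by norm_num) hδ1
  -- x2
  have hf2 : PP (-(2 / 3)) (fun k => δ k * x1 (k + 1) - x1 k * x1 (k + 1)) :=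
    (hδ1.mul' (by norm_num) hx1.shift).sub (hx1.mul' (by norm_num) hx1.shift)
  obtain ⟨x2, hx2, e2⟩ := exists_alt (by norm_num) hf2
  -- x3
  have hf3 : PP (-1) (fun k => δ k * x2 (k + 1) - x1 k * x2 (k + 1) - x2 k * x1 (k + 1)) :=
    ((hδ1.mul' (by norm_num) hx2.shift).sub (hx1.mul' (by norm_num) hx2.shift)).sub
      (hx2.mul' (by norm_num) hx1.shift)
  obtain ⟨x3, hx3, e3⟩ := exists_alt (by norm_num) hf3
  have hf4 : PP (-(4 / 3)) (fun k => δ k * x3 (k + 1) - x1 k * x3 (k + 1) - x2 k * x2 (k + 1)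
      - x3 k * x1 (k + 1)) :=
    (((hδ1.mul' (by norm_num) hx3.shift).sub (hx1.mul' (by norm_num) hx3.shift)).sub
      (hx2.mul' (by norm_num) hx2.shift)).sub (hx3.mul' (by norm_num) hx1.shift)
  obtain ⟨x4, hx4, e4⟩ := exists_alt (by norm_num) hf4
  have hf5 : PP (-(5 / 3)) (fun k => δ k * x4 (k + 1) - x1 k * x4 (k + 1) - x2 k * x3 (k + 1)
      - x3 k * x2 (k + 1) - x4 k * x1 (k + 1)) :=
    ((((hδ1.mul' (by norm_num) hx4.shift).sub (hx1.mul' (by norm_num) hx4.shift)).sub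
      (hx2.mul' (by norm_num) hx3.shift)).sub (hx3.mul' (by norm_num) hx2.shift)).sub
      (hx4.mul' (by norm_num) hx1.shift)
  obtain ⟨x5, hx5, e5⟩ := exists_alt (by norm_num) hf5
  have hf6 : PP (-2) (fun k => δ k * x5 (k + 1) - x1 k * x5 (k + 1) - x2 k * x4 (k + 1)
      - x3 k * x3 (k + 1) - x4 k * x2 (k + 1) - x5 k * x1 (k + 1)) :=
    (((((hδ1.mul' (by norm_num) hx5.shift).sub (hx1.mul' (by norm_num) hx5.shift)).sub
      (hx2.mul' (by norm_num) hx4.shift)).sub (hx3.mul' (by norm_num) hx3.shift)).sub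
      (hx4.mul' (by norm_num) hx2.shift)).sub (hx5.mul' (by norm_num) hx1.shift)
  obtain ⟨x6, hx6, e6⟩ := exists_alt (by norm_num) hf6
  -- refined information
  have hx1' : PP (-(1 / 3) - ε) (fun n => x1 n - c / 2 * mon (-(1 / 3)) n) := by
    refine PP.alt (f := fun n => (δ n - c * mon (-(1 / 3)) n)
      - c / 2 * (mon (-(1 / 3)) (n + 1) - mon (-(1 / 3)) n)) (by linarith) ?_ ?_ ?_
    · exact hδ.sub (((PP_mon_diff (-(1 / 3))).mono (by linarith)).const_mul _)
    · have h1 := hx1.tendsto_zero (by norm_num)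
      have h2 := (mon_tendsto_zero (by norm_num : (-(1 / 3) : ℝ) < 0)).const_mul (c / 2)
      simpa using h1.sub h2
    · intro n
      have := e1 n
      linear_combination this
  have hx2' : PP (-(5 / 3)) (fun n => x2 n - x1 n ^ 2 / 2) := by
    refine PP.alt (f := fun n => (1 / 2) * ((fun k => x1 k * x1 k) (n + 1)
      - (fun k => x1 k * x1 k) n)) (by norm_num) ?_ ?_ ?_
    · have h1 : PP (-(2 / 3)) (fun k => x1 k * x1 k) := hx1.mul' (by norm_num) hx1
      exact (h1.shift_sub.mono (by norm_num)).const_mul _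
    · have h1 := hx1.tendsto_zero (by norm_num)
      have h2 := hx2.tendsto_zero (by norm_num)
      simpa using h2.sub ((h1.pow 2).div_const 2)
    · intro n
      have a1 := e1 n
      have a2 := e2 n
      simp only
      rw [← a1] at a2
      linear_combination a2
  have hx3' : PP (-2) x3 := by
    refine PP.alt (f := fun n => x1 (n + 1) * (x2 (n + 1) - x2 n)) (by norm_num) ?_
      (hx3.tendsto_zero (by norm_num)) ?_
    · exact hx1.shift.mul' (by norm_num) hx2.shift_sub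
    · intro n
      have a1 := e1 n
      have a3 := e3 n
      rw [← a1] at a3
      linear_combination a3
  refine ⟨fun j => match j with
    | 0 => fun _ => 1 | 1 => x1 | 2 => x2 | 3 => x3 | 4 => x4 | 5 => x5 | 6 => x6
    | _ => fun _ => 0, fun k => rfl, ?_, ?_, hx1', hx2', hx3'⟩
  · intro j hj
    interval_cases j
    · simpa using PP.const (le_refl (0 : ℝ)) 1
    · simpa using hx1
    · simpa using hx2
    · refine hx3.mono (by norm_num)
    · simpa using hx4
    · simpa using hx5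
    · refine hx6.mono (by norm_num)
  · intro j hj1 hj6 k
    have a1 := e1 k
    have a2 := e2 k
    have a3 := e3 k
    have a4 := e4 k
    have a5 := e5 k
    have a6 := e6 k
    interval_cases j <;> simp [Finset.sum_range_succ] <;> linarith

end F526
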