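import Pool.Agent.Lib.MP_f52611_an.Core1

open Filter Topology Asymptotics

namespace F526

/-- the polynomial part of the logarithm in four variables -/
lemma log_poly (C : ℝ) : ∃ B s0 : ℝ, 0 < s0 ∧ 0 ≤ B ∧ ∀ s : ℝ, |s| ≤ s0 → ∀ u : Fin 6 → ℝ,
    (∀ i, |u i| ≤ C) →
    0 < 1 + (s * u 0 + s ^ 2 * u 1 + s ^ 3 * u 2 + s ^ 4 * u 3 + s ^ 5 * u 4 + s ^ 6 * u 5) ∧
    |Real.log (1 + (s * u 0 + s ^ 2 * u 1 + s ^ 3 * u 2 + s ^ 4 * u 3 + s ^ 5 * u 4 + s ^ 6 * u 5))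
      - (s * u 0 + s ^ 2 * (u 1 - u 0 ^ 2 / 2) + s ^ 3 * (u 2 - u 0 * u 1 + u 0 ^ 3 / 3)
        + s ^ 4 * (u 3 - u 0 * u 2 - u 1 ^ 2 / 2 + u 0 ^ 2 * u 1 - u 0 ^ 4 / 4))| ≤ B * |s| ^ 5 := by
  -- all auxiliary quantities are continuous functions on a compact box
  have hb : ∀ Q : ℝ × (Fin 6 → ℝ) → ℝ, Continuous Q → ∃ K, 0 ≤ K ∧ ∀ s : ℝ, |s| ≤ 1 →
      ∀ u : Fin 6 → ℝ, (∀ i, |u i| ≤ C) → |Q (s, u)| ≤ K := by
    intro Q hQ
    have hK : IsCompact (Metric.closedBall (0 : ℝ) 1 ×ˢ Metric.closedBall (0 : Fin 6 → ℝ) |C|) :=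
      (isCompact_closedBall _ _).prod (isCompact_closedBall _ _)
    obtain ⟨K, hK⟩ := hK.exists_bound_of_continuousOn hQ.continuousOn
    refine ⟨|K|, abs_nonneg _, fun s hs u hu => (hK (s, u) ⟨?_, ?_⟩).trans (le_abs_self K)⟩
    · simpa using hs
    · rw [Metric.mem_closedBall, dist_zero_right]
      refine (pi_norm_le_iff_of_nonneg (abs_nonneg C)).mpr fun i => ?_
      exact (hu i).trans (le_abs_self C)
  obtain ⟨K1, hK1, h1⟩ := hb (fun z => z.2 0 + z.1 * z.2 1 + z.1 ^ 2 * z.2 2 + z.1 ^ 3 * z.2 3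
    + z.1 ^ 4 * z.2 4 + z.1 ^ 5 * z.2 5) (by fun_prop)
  -- remainder of the polynomial identity
  obtain ⟨K2, hK2, h2⟩ := hb (fun z =>
    let s := z.1
    let u := z.2
    let A := u 4 + s * u 5
    let p4 := u 3 + s * A
    let p3 := u 2 + s * p4
    let p2 := u 1 + s * p3
    A - (2 * u 0 * p4 + 2 * u 1 * p3 + s * p3 ^ 2) / 2
      + (3 * u 0 ^ 2 * p3 + 3 * u 0 * p2 ^ 2 + s * p2 ^ 3) / 3
      - (4 * u 0 ^ 3 * p2 + 6 * s * u 0 ^ 2 * p2 ^ 2 + 4 * s ^ 2 * u 0 * p2 ^ 3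
        + s ^ 3 * p2 ^ 4) / 4) (by fun_prop)
  refine ⟨K2 + 2 * K1 ^ 5, min 1 (1 / (2 * (K1 + 1))), by positivity, by positivity,
    fun s hs u hu => ?_⟩
  have hs1 : |s| ≤ 1 := hs.trans (min_le_left _ _)
  have hs2 : |s| ≤ 1 / (2 * (K1 + 1)) := hs.trans (min_le_right _ _)
  have a1 := h1 s hs1 u hu
  have a2 := h2 s hs1 u hu
  simp only at a1 a2
  set p := u 0 + s * u 1 + s ^ 2 * u 2 + s ^ 3 * u 3 + s ^ 4 * u 4 + s ^ 5 * u 5 with hp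
  set w := s * p with hw
  have hw1 : |w| ≤ K1 * |s| := by
    rw [hw, abs_mul, mul_comm]
    exact mul_le_mul_of_nonneg_right a1 (abs_nonneg s)
  have hw2 : |w| ≤ 1 / 2 := by
    refine hw1.trans ?_
    calc K1 * |s| ≤ (K1 + 1) * (1 / (2 * (K1 + 1))) :=
          mul_le_mul (by linarith) hs2 (abs_nonneg _) (by linarith)
      _ = 1 / 2 := by field_simp
  have hlog : |Real.log (1 + w) - (w - w ^ 2 / 2 + w ^ 3 / 3 - w ^ 4 / 4)|
      ≤ |w| ^ 5 / (1 - |w|) := by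
    have h := Real.abs_log_sub_add_sum_range_le (x := -w) (by rw [abs_neg]; linarith) 4
    simp only [Finset.sum_range_succ, Finset.sum_range_zero, abs_neg] at h
    refine le_trans (le_of_eq ?_) h
    congr 1
    rw [sub_neg_eq_add]
    push_cast
    ring
  have hlog2 : |w| ^ 5 / (1 - |w|) ≤ 2 * K1 ^ 5 * |s| ^ 5 := by
    have h3 : |w| ^ 5 / (1 - |w|) ≤ |w| ^ 5 / (1 / 2) :=
      div_le_div_of_nonneg_left (by positivity) (by norm_num) (by linarith)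
    have h4 : |w| ^ 5 ≤ (K1 * |s|) ^ 5 := pow_le_pow_left₀ (abs_nonneg _) hw1 5
    rw [mul_pow] at h4
    calc |w| ^ 5 / (1 - |w|) ≤ |w| ^ 5 / (1 / 2) := h3
      _ = 2 * |w| ^ 5 := by ring
      _ ≤ _ := by linarith
  have e1 : s * u 0 + s ^ 2 * u 1 + s ^ 3 * u 2 + s ^ 4 * u 3 + s ^ 5 * u 4 + s ^ 6 * u 5 = w := by
    rw [hw, hp]; ring
  rw [e1]
  refine ⟨by have := (abs_le.mp hw2).1; linarith, ?_⟩
  set q := s * u 0 + s ^ 2 * (u 1 - u 0 ^ 2 / 2) + s ^ 3 * (u 2 - u 0 * u 1 + u 0 ^ 3 / 3)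
        + s ^ 4 * (u 3 - u 0 * u 2 - u 1 ^ 2 / 2 + u 0 ^ 2 * u 1 - u 0 ^ 4 / 4) with hq
  set Q := u 4 + s * u 5 - (2 * u 0 * (u 3 + s * (u 4 + s * u 5)) + 2 * u 1 * (u 2 + s * (u 3 + s * (u 4 + s * u 5)))
    + s * (u 2 + s * (u 3 + s * (u 4 + s * u 5))) ^ 2) / 2
      + (3 * u 0 ^ 2 * (u 2 + s * (u 3 + s * (u 4 + s * u 5))) + 3 * u 0 * (u 1 + s * (u 2 + s * (u 3 + s * (u 4 + s * u 5)))) ^ 2
        + s * (u 1 + s * (u 2 + s * (u 3 + s * (u 4 + s * u 5)))) ^ 3) / 3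
      - (4 * u 0 ^ 3 * (u 1 + s * (u 2 + s * (u 3 + s * (u 4 + s * u 5)))) + 6 * s * u 0 ^ 2 * (u 1 + s * (u 2 + s * (u 3 + s * (u 4 + s * u 5)))) ^ 2
        + 4 * s ^ 2 * u 0 * (u 1 + s * (u 2 + s * (u 3 + s * (u 4 + s * u 5)))) ^ 3
        + s ^ 3 * (u 1 + s * (u 2 + s * (u 3 + s * (u 4 + s * u 5)))) ^ 4) / 4 with hQ
  have e2 : w - w ^ 2 / 2 + w ^ 3 / 3 - w ^ 4 / 4 - q = s ^ 5 * Q := by
    rw [hQ, hq, hw, hp]; ring
  have e3 : Real.log (1 + w) - q = (Real.log (1 + w) - (w - w ^ 2 / 2 + w ^ 3 / 3 - w ^ 4 / 4))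
      + s ^ 5 * Q := by rw [← e2]; ring
  rw [e3]
  refine (abs_add_le _ _).trans ?_
  rw [abs_mul, abs_pow]
  have h5 := mul_le_mul_of_nonneg_left a2 (pow_nonneg (abs_nonneg s) 5)
  have h6 := hlog.trans hlog2
  calc _ ≤ 2 * K1 ^ 5 * |s| ^ 5 + |s| ^ 5 * K2 := add_le_add h6 h5
    _ = _ := by ring

lemma PP.bdd {f : ℕ → ℝ} (hf : PP 0 f) : ∃ C, ∀ n, |f n| ≤ C := by
  obtain ⟨C, _, h⟩ := exists_bound hf.isBigO
  exact ⟨C, fun n => by simpa [mon_zero] using h n⟩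

lemma sum_range_succ_PP {G : ℝ} (hG : G < -1) {f : ℕ → ℝ} (hf : PP G f) :
    PP 0 (fun n => 2 * ∑ i ∈ Finset.range (n + 1), f i) := by
  have h1 := (PP.sum_range_of_lt hG hf).add (hf.mono (by linarith : G ≤ 0))
  refine (h1.const_mul 2).congr fun n => ?_
  rw [Finset.sum_range_succ]

lemma pure_log_bound {x : ℕ → ℕ → ℝ} (hx0 : ∀ k, x 0 k = 1)
    (hx : ∀ j : ℕ, j ≤ 6 → PP (-((j : ℝ) / 3)) (x j)) :
    ∃ B t0 : ℝ, 0 < t0 ∧ 0 ≤ B ∧ ∀ t, 0 < t → t ≤ t0 → ∀ k, 0 < Xo x k t ∧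
      |Real.log (Xo x k t) - (t * x 1 k + t ^ 2 * (x 2 k - x 1 k ^ 2 / 2)
        + t ^ 3 * (x 3 k - x 1 k * x 2 k + x 1 k ^ 3 / 3)
        + t ^ 4 * (x 4 k - x 1 k * x 3 k - x 2 k ^ 2 / 2 + x 1 k ^ 2 * x 2 k - x 1 k ^ 4 / 4))|
        ≤ B * (t ^ 5 * mon (-(5 / 3)) k) := by
  have hxb : ∀ j : ℕ, ∃ C, 0 < C ∧ (j ≤ 6 → ∀ k, |x j k| ≤ C * mon (-((j : ℝ) / 3)) k) := by
    intro j
    by_cases hj : j ≤ 6
    · obtain ⟨C, hC, h⟩ := exists_bound (hx j hj).isBigO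
      exact ⟨C, hC, fun _ => h⟩
    · exact ⟨1, one_pos, fun h => absurd h hj⟩
  choose Cj hCj hxj using hxb
  set C := ∑ j ∈ Finset.range 7, Cj j with hCdef
  have hCle : ∀ j, j ≤ 6 → Cj j ≤ C := fun j hj =>
    Finset.single_le_sum (f := Cj) (fun i _ => (hCj i).le) (Finset.mem_range.mpr (by omega))
  obtain ⟨B, s0, hs0, hB, hlog⟩ := log_poly C
  refine ⟨B, s0, hs0, hB, fun t ht hts k => ?_⟩
  set q := mon (-(1 / 3)) k with hq
  have hq0 : 0 < q := mon_pos _ _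
  have hq1 : q ≤ 1 := mon_le_one (by norm_num) k
  have hs : |t * q| ≤ s0 := by
    rw [abs_of_pos (mul_pos ht hq0)]
    nlinarith
  have hu : ∀ i : Fin 6, |x ((i : ℕ) + 1) k / q ^ ((i : ℕ) + 1)| ≤ C := by
    intro i
    have h1 := hxj (i + 1) (by have := i.2; omega) k
    have h2 : mon (-((((i : ℕ) + 1 : ℕ) : ℝ) / 3)) k = q ^ ((i : ℕ) + 1) := by
      rw [hq, mon_pow]; congr 1; push_cast; ring
    rw [h2] at h1
    rw [abs_div, abs_of_pos (pow_pos hq0 _), div_le_iff₀ (pow_pos hq0 _)]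
    refine h1.trans (mul_le_mul_of_nonneg_right (hCle _ (by have := i.2; omega)) (pow_pos hq0 _).le)
  have key := hlog (t * q) hs (fun i => x ((i : ℕ) + 1) k / q ^ ((i : ℕ) + 1)) hu
  have e1 : 1 + (t * q * (x 1 k / q ^ 1) + (t * q) ^ 2 * (x 2 k / q ^ 2)
      + (t * q) ^ 3 * (x 3 k / q ^ 3) + (t * q) ^ 4 * (x 4 k / q ^ 4)
      + (t * q) ^ 5 * (x 5 k / q ^ 5) + (t * q) ^ 6 * (x 6 k / q ^ 6)) = Xo x k t := by
    unfold Xo
    simp only [Finset.sum_range_succ, Finset.sum_range_zero]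
    rw [hx0]
    field_simp
    ring
  have e2 : t * q * (x 1 k / q ^ 1) + (t * q) ^ 2 * (x 2 k / q ^ 2 - (x 1 k / q ^ 1) ^ 2 / 2)
      + (t * q) ^ 3 * (x 3 k / q ^ 3 - x 1 k / q ^ 1 * (x 2 k / q ^ 2) + (x 1 k / q ^ 1) ^ 3 / 3)
      + (t * q) ^ 4 * (x 4 k / q ^ 4 - x 1 k / q ^ 1 * (x 3 k / q ^ 3) - (x 2 k / q ^ 2) ^ 2 / 2
        + (x 1 k / q ^ 1) ^ 2 * (x 2 k / q ^ 2) - (x 1 k / q ^ 1) ^ 4 / 4)
      = t * x 1 k + t ^ 2 * (x 2 k - x 1 k ^ 2 / 2)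
        + t ^ 3 * (x 3 k - x 1 k * x 2 k + x 1 k ^ 3 / 3)
        + t ^ 4 * (x 4 k - x 1 k * x 3 k - x 2 k ^ 2 / 2 + x 1 k ^ 2 * x 2 k - x 1 k ^ 4 / 4) := by
    field_simp
  have e3 : |t * q| ^ 5 = t ^ 5 * mon (-(5 / 3)) k := by
    rw [abs_of_pos (mul_pos ht hq0), mul_pow, hq, mon_pow]
    congr 2; norm_num
  have key' : 0 < 1 + (t * q * (x 1 k / q ^ 1) + (t * q) ^ 2 * (x 2 k / q ^ 2)
      + (t * q) ^ 3 * (x 3 k / q ^ 3) + (t * q) ^ 4 * (x 4 k / q ^ 4)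
      + (t * q) ^ 5 * (x 5 k / q ^ 5) + (t * q) ^ 6 * (x 6 k / q ^ 6)) ∧ _ := key
  rw [e1] at key'
  refine ⟨key'.1, ?_⟩
  have key2 : |Real.log (1 + (t * q * (x 1 k / q ^ 1) + (t * q) ^ 2 * (x 2 k / q ^ 2)
      + (t * q) ^ 3 * (x 3 k / q ^ 3) + (t * q) ^ 4 * (x 4 k / q ^ 4)
      + (t * q) ^ 5 * (x 5 k / q ^ 5) + (t * q) ^ 6 * (x 6 k / q ^ 6)))
      - (t * q * (x 1 k / q ^ 1) + (t * q) ^ 2 * (x 2 k / q ^ 2 - (x 1 k / q ^ 1) ^ 2 / 2)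
      + (t * q) ^ 3 * (x 3 k / q ^ 3 - x 1 k / q ^ 1 * (x 2 k / q ^ 2) + (x 1 k / q ^ 1) ^ 3 / 3)
      + (t * q) ^ 4 * (x 4 k / q ^ 4 - x 1 k / q ^ 1 * (x 3 k / q ^ 3) - (x 2 k / q ^ 2) ^ 2 / 2
        + (x 1 k / q ^ 1) ^ 2 * (x 2 k / q ^ 2) - (x 1 k / q ^ 1) ^ 4 / 4))| ≤ B * |t * q| ^ 5 :=
    key.2
  rw [e1, e2, e3] at key2
  exact key2

/-- file PureLogs.lean -/
theorem pure_logs {c ε : ℝ} (hc : 0 < c) (hε : 0 < ε) (hε1 : ε ≤ 1 / 3) {x : ℕ → ℕ → ℝ}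
    (hx0 : ∀ k, x 0 k = 1) (hx : ∀ j : ℕ, j ≤ 6 → PP (-((j : ℝ) / 3)) (x j))
    (hx1 : PP (-(1 / 3) - ε) (fun n => x 1 n - c / 2 * mon (-(1 / 3)) n))
    (hx2 : PP (-(5 / 3)) (fun n => x 2 n - x 1 n ^ 2 / 2)) (hx3 : PP (-2) (x 3)) :
    ∃ (V1 V2 V3 V4 : ℕ → ℝ) (κ r K3 : ℝ), 0 < κ ∧ 0 < K3 ∧
      PP (2 / 3 - ε) (fun n => V1 n - r * Real.log (xb n) - κ * mon (2 / 3) n) ∧ PP 0 V2 ∧
      (∃ C, ∀ n, |V3 n + K3 * Real.log (xb n)| ≤ C) ∧ (∃ C, ∀ n, |V4 n| ≤ C) ∧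
      ∃ R : ℕ → ℝ → ℝ, (∃ C, ∀ᶠ t in 𝓝[>] (0 : ℝ), ∀ n, |R n t| ≤ C * t ^ 5) ∧
        ∀ᶠ t in 𝓝[>] (0 : ℝ), ∀ n, Po x (n + 1) t ^ 2 = Real.exp (-t * V1 n - t ^ 2 * V2 n
          - t ^ 3 * V3 n - t ^ 4 * V4 n + R n t) := by
  obtain ⟨B, t0, ht0, hB, hlog⟩ := pure_log_bound hx0 hx
  have h1 : PP (-(1 / 3)) (x 1) := by simpa using hx 1 (by norm_num)
  have h2 : PP (-(2 / 3)) (x 2) := by simpa using hx 2 (by norm_num)
  have h3 : PP (-1) (x 3) := hx3.mono (by norm_num)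
  have h4 : PP (-(4 / 3)) (x 4) := by simpa using hx 4 (by norm_num)
  set y2 : ℕ → ℝ := fun k => x 2 k - x 1 k ^ 2 / 2 with hy2
  set y3 : ℕ → ℝ := fun k => x 3 k - x 1 k * x 2 k + x 1 k ^ 3 / 3 with hy3
  set y4 : ℕ → ℝ := fun k => x 4 k - x 1 k * x 3 k - x 2 k ^ 2 / 2 + x 1 k ^ 2 * x 2 k
    - x 1 k ^ 4 / 4 with hy4
  have p11 : PP (-(2 / 3)) (fun n => x 1 n ^ 2) := (h1.pow 2).mono (by norm_num)
  have p4 : PP (-(4 / 3)) y4 := by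
    have a1 := h1.mul' (by norm_num : -(1 / 3) + -1 ≤ (-(4 / 3) : ℝ)) h3
    have a2 := ((h2.pow 2).mono (by norm_num : ((2 : ℕ) : ℝ) * -(2 / 3) ≤ (-(4 / 3) : ℝ))).const_mul
      (1 / 2)
    have a3 := p11.mul' (by norm_num : -(2 / 3) + -(2 / 3) ≤ (-(4 / 3) : ℝ)) h2
    have a4 := ((h1.pow 4).mono (by norm_num : ((4 : ℕ) : ℝ) * -(1 / 3) ≤ (-(4 / 3) : ℝ))).const_mul
      (1 / 4)
    refine ((((h4.sub a1).sub a2).add a3).sub a4).congr fun n => ?_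
    simp only [hy4]; ring
  set m := mon (-(1 / 3)) with hm
  set z : ℕ → ℝ := fun n => x 1 n - c / 2 * m n with hz
  have hmP : PP (-(1 / 3)) m := PP.of_mon le_rfl
  have p3 : PP (-1 - ε) (fun n => y3 n + (c / 2) ^ 3 / 6 * mon (-1) n) := by
    have b1 : PP (-1 - ε) (x 3) := hx3.mono (by linarith)
    have b2 : PP (-1 - ε) (fun n => x 1 n * y2 n) := h1.mul' (by linarith) hx2
    have b3 : PP (-(2 / 3)) (fun n => x 1 n * (c / 2 * m n)) :=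
      h1.mul' (by norm_num) (hmP.const_mul _)
    have b4 : PP (-(2 / 3)) (fun n => (c / 2 * m n) ^ 2) :=
      ((hmP.const_mul (c / 2)).pow 2).mono (by norm_num)
    have b5 : PP (-1 - ε) (fun n => z n * (x 1 n ^ 2 + x 1 n * (c / 2 * m n)
        + (c / 2 * m n) ^ 2)) := hx1.mul' (by linarith) ((p11.add b3).add b4)
    refine ((b1.sub b2).sub (b5.const_mul (1 / 6))).congr fun n => ?_
    have e : mon (-1) n = m n ^ 3 := by rw [hm, mon_pow]; congr 1; norm_num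
    simp only [hy3, hy2, hz]
    rw [e]; ring
  refine ⟨fun n => 2 * ∑ i ∈ Finset.range (n + 1), x 1 i,
    fun n => 2 * ∑ i ∈ Finset.range (n + 1), y2 i,
    fun n => 2 * ∑ i ∈ Finset.range (n + 1), y3 i,
    fun n => 2 * ∑ i ∈ Finset.range (n + 1), y4 i, 3 * c / 2, ?_⟩
  obtain ⟨r0, hr0⟩ := PP.sum_range hx1
  rw [max_eq_left (by linarith)] at hr0
  have hexp : -(1 / 3) - ε + 1 = 2 / 3 - ε := by ring
  rw [hexp] at hr0
  refine ⟨2 * r0, (c / 2) ^ 3 / 3, by positivity, by positivity, ?_,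
    sum_range_succ_PP (by norm_num) hx2, ?_, (sum_range_succ_PP (by norm_num) p4).bdd, ?_⟩
  · -- V1
    have he := PP.sum_range_of_lt (by norm_num) (PP_mon_diff2 (2 / 3))
    have hc1 : PP (2 / 3 - ε) (fun _ => 3 * c / 2 * mon (2 / 3) 0) := PP.const (by linarith) _
    have hh := (((hr0.const_mul 2).sub hc1).sub
      ((he.mono (by linarith : (0 : ℝ) ≤ 2 / 3 - ε)).const_mul (3 * c / 2))).add
      ((h1.mono (by linarith : -(1 / 3) ≤ 2 / 3 - ε)).const_mul 2)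
    refine hh.congr fun n => ?_
    have e1 : ∑ i ∈ Finset.range n, (mon (2 / 3) (i + 1) - mon (2 / 3) i
        - 2 / 3 * mon (2 / 3 - 1) i) = mon (2 / 3) n - mon (2 / 3) 0
          - 2 / 3 * ∑ i ∈ Finset.range n, m i := by
      rw [Finset.sum_sub_distrib, Finset.sum_range_sub, Finset.mul_sum]
      have : (2 / 3 - 1 : ℝ) = -(1 / 3) := by norm_num
      rw [this]
    have e2 : ∑ i ∈ Finset.range n, (x 1 i - c / 2 * m i)
        = ∑ i ∈ Finset.range n, x 1 i - c / 2 * ∑ i ∈ Finset.range n, m i := by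
      rw [Finset.sum_sub_distrib, Finset.mul_sum]
    rw [e1, e2]
    beta_reduce
    rw [Finset.sum_range_succ]
    ring
  · -- V3
    have hs := PP.sum_range_of_lt (by linarith) p3
    have hh := ((hs.const_mul 2).sub (sum_mon_neg_one.const_mul ((c / 2) ^ 3 / 3))).add
      ((((h3.sub (h1.mul' (by norm_num : -(1 / 3) + -(2 / 3) ≤ (-1 : ℝ)) h2)).add
        (((h1.pow 3).mono (by norm_num : ((3 : ℕ) : ℝ) * -(1 / 3) ≤ (-1 : ℝ))).const_mul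
          (1 / 3))).mono (by norm_num : (-1 : ℝ) ≤ 0)).const_mul 2)
    refine (hh.congr fun n => ?_).bdd
    beta_reduce
    rw [Finset.sum_range_succ, Finset.sum_add_distrib, ← Finset.mul_sum]
    simp only [hy3]
    ring
  · -- R
    refine ⟨fun n t => t * (2 * ∑ i ∈ Finset.range (n + 1), x 1 i)
      + t ^ 2 * (2 * ∑ i ∈ Finset.range (n + 1), y2 i)
      + t ^ 3 * (2 * ∑ i ∈ Finset.range (n + 1), y3 i)
      + t ^ 4 * (2 * ∑ i ∈ Finset.range (n + 1), y4 i)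
      - 2 * ∑ i ∈ Finset.range (n + 1), Real.log (Xo x i t), ?_, ?_⟩
    · obtain ⟨S, hS, hSb⟩ := sum_mon_le_const (γ := -(5 / 3)) (by norm_num)
      refine ⟨2 * B * S, ?_⟩
      filter_upwards [eventually_pos', eventually_lt' ht0] with t ht ht1 n
      have e : t * (2 * ∑ i ∈ Finset.range (n + 1), x 1 i)
          + t ^ 2 * (2 * ∑ i ∈ Finset.range (n + 1), y2 i)
          + t ^ 3 * (2 * ∑ i ∈ Finset.range (n + 1), y3 i)
          + t ^ 4 * (2 * ∑ i ∈ Finset.range (n + 1), y4 i)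
          - 2 * ∑ i ∈ Finset.range (n + 1), Real.log (Xo x i t)
          = -(2 * ∑ i ∈ Finset.range (n + 1), (Real.log (Xo x i t)
            - (t * x 1 i + t ^ 2 * y2 i + t ^ 3 * y3 i + t ^ 4 * y4 i))) := by
        simp only [Finset.sum_sub_distrib, Finset.sum_add_distrib, ← Finset.mul_sum]
        ring
      rw [e, abs_neg, abs_mul, abs_of_pos (by norm_num : (0 : ℝ) < 2)]
      have ht5 := pow_pos ht 5
      calc 2 * |∑ i ∈ Finset.range (n + 1), (Real.log (Xo x i t)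
            - (t * x 1 i + t ^ 2 * y2 i + t ^ 3 * y3 i + t ^ 4 * y4 i))|
          ≤ 2 * ∑ i ∈ Finset.range (n + 1), |Real.log (Xo x i t)
            - (t * x 1 i + t ^ 2 * y2 i + t ^ 3 * y3 i + t ^ 4 * y4 i)| := by
            gcongr
            exact Finset.abs_sum_le_sum_abs _ _
        _ ≤ 2 * ∑ i ∈ Finset.range (n + 1), B * (t ^ 5 * mon (-(5 / 3)) i) := by
            gcongr with i _
            exact (hlog t ht ht1.le i).2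
        _ = 2 * (B * (t ^ 5 * ∑ i ∈ Finset.range (n + 1), mon (-(5 / 3)) i)) := by
            simp only [Finset.mul_sum]
        _ ≤ 2 * (B * (t ^ 5 * S)) := by
            have := hSb (n + 1)
            gcongr
        _ = _ := by ring
    · filter_upwards [eventually_pos', eventually_lt' ht0] with t ht ht1 n
      have e : -t * (2 * ∑ i ∈ Finset.range (n + 1), x 1 i)
          - t ^ 2 * (2 * ∑ i ∈ Finset.range (n + 1), y2 i)
          - t ^ 3 * (2 * ∑ i ∈ Finset.range (n + 1), y3 i)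
          - t ^ 4 * (2 * ∑ i ∈ Finset.range (n + 1), y4 i)
          + (t * (2 * ∑ i ∈ Finset.range (n + 1), x 1 i)
          + t ^ 2 * (2 * ∑ i ∈ Finset.range (n + 1), y2 i)
          + t ^ 3 * (2 * ∑ i ∈ Finset.range (n + 1), y3 i)
          + t ^ 4 * (2 * ∑ i ∈ Finset.range (n + 1), y4 i)
          - 2 * ∑ i ∈ Finset.range (n + 1), Real.log (Xo x i t))
          = ∑ i ∈ Finset.range (n + 1), (-2) * Real.log (Xo x i t) := by
        rw [← Finset.mul_sum]; ring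
      rw [e, Real.exp_sum]
      unfold Po
      rw [← Finset.prod_pow]
      refine Finset.prod_congr rfl fun i _ => ?_
      have hX := (hlog t ht ht1.le i).1
      have e2 : (-2) * Real.log (Xo x i t) = -(Real.log (Xo x i t) + Real.log (Xo x i t)) := by ring
      rw [e2, Real.exp_neg, Real.exp_add, Real.exp_log hX, inv_pow, pow_two]

end F526
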