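import Pool.Agent.Lib.MP_f52611_an.SSideAux

open Filter Topology Asymptotics

namespace F526

lemma Lsm_summable' {φ V : ℕ → ℝ} {C : ℝ} (hC : ∀ n, |φ n| ≤ C * mon (-(13 / 6)) n)
    {C' : ℝ} (hV : ∀ n, -C' ≤ V n) {t : ℝ} (ht : 0 < t) (ht1 : t < 1) :
    Summable fun n => φ n * Real.exp (-t * V n) := by
  refine Lsm_summable (C := |C|) (fun n => (hC n).trans ?_) hV ht ht1
  have h1 := mon_le (by norm_num : (-(13 / 6) : ℝ) ≤ -2) n
  have h2 := mon_pos (-(13 / 6)) n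
  calc C * mon (-(13 / 6)) n ≤ |C| * mon (-(13 / 6)) n :=
        mul_le_mul_of_nonneg_right (le_abs_self C) h2.le
    _ ≤ _ := mul_le_mul_of_nonneg_left h1 (abs_nonneg _)

/-- products with squares of logarithms -/
lemma bound_13_6 {ω : ℕ → ℝ} {Cw Cl : ℝ} (hCw : 0 < Cw) (hw : ∀ n, |ω n| ≤ Cw * mon (-(7 / 3)) n)
    (hl : ∀ n, (1 + Real.log (xb n)) ^ 3 ≤ Cl * mon (1 / 6) n) {f : ℕ → ℝ} {D : ℝ} (hD : 0 ≤ D)
    (hf : ∀ n, |f n| ≤ D * (1 + Real.log (xb n)) ^ 3) (n : ℕ) :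
    |ω n * f n| ≤ (Cw * D * Cl) * mon (-(13 / 6)) n := by
  rw [abs_mul]
  have h1 := mul_le_mul (hw n) ((hf n).trans (mul_le_mul_of_nonneg_left (hl n) hD))
    (abs_nonneg _) ((abs_nonneg _).trans (hw n))
  refine h1.trans (le_of_eq ?_)
  have e : mon (-(7 / 3)) n * mon (1 / 6) n = mon (-(13 / 6)) n := by
    rw [mon_mul_apply]; congr 1; norm_num
  rw [← e]; ring

/-- the error terms of the expansions -/
lemma err_bound {ω V : ℕ → ℝ} {Cw Cl CL B C : ℝ} (hCw : 0 < Cw)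
    (hw : ∀ n, |ω n| ≤ Cw * mon (-(7 / 3)) n)
    (hl : ∀ n, (1 + Real.log (xb n)) ^ 3 ≤ Cl * mon (1 / 6) n) (hVl : ∀ n, -CL ≤ V n)
    (hC : 0 ≤ C) (hB : 0 ≤ B) {t : ℝ} (ht : 0 < t) (ht1 : t < 1) {k : ℕ}
    (he : ∀ n, Real.exp (C * t * (1 + Real.log (xb n))) ≤ 2 * mon (1 / 6) n) {Δ : ℕ → ℝ}
    (hΔ : ∀ n, |Δ n| ≤ B * (t ^ k * ((1 + Real.log (xb n)) ^ 3
      * Real.exp (C * t * (1 + Real.log (xb n)))))) (n : ℕ) :
    |ω n * (Real.exp (-t * V n) * Δ n)| ≤ (Cw * Real.exp |CL| * B * Cl * 2) * (t ^ k * mon (-2) n) := by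
  have hexp : Real.exp (-t * V n) ≤ Real.exp |CL| := by
    refine Real.exp_le_exp.mpr ?_
    have h1 := hVl n
    have h2 := le_abs_self CL
    have h3 := abs_nonneg CL
    nlinarith
  have hlog := logxb0 n
  have h1 : (1 + Real.log (xb n)) ^ 3 * Real.exp (C * t * (1 + Real.log (xb n)))
      ≤ (Cl * mon (1 / 6) n) * (2 * mon (1 / 6) n) :=
    mul_le_mul (hl n) (he n) (Real.exp_pos _).le
      (le_trans (by positivity) (hl n))
  have h2 : |Δ n| ≤ B * (t ^ k * ((Cl * mon (1 / 6) n) * (2 * mon (1 / 6) n))) := by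
    refine (hΔ n).trans ?_
    exact mul_le_mul_of_nonneg_left (mul_le_mul_of_nonneg_left h1 (by positivity)) hB
  rw [abs_mul, abs_mul, abs_of_pos (Real.exp_pos _)]
  have h3 : |ω n| * (Real.exp (-t * V n) * |Δ n|) ≤ (Cw * mon (-(7 / 3)) n) * (Real.exp |CL| *
      (B * (t ^ k * ((Cl * mon (1 / 6) n) * (2 * mon (1 / 6) n))))) := by
    refine mul_le_mul (hw n) ?_ (by positivity) ((abs_nonneg _).trans (hw n))
    exact mul_le_mul hexp h2 (abs_nonneg _) (Real.exp_pos _).le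
  refine h3.trans (le_of_eq ?_)
  have e : mon (-(7 / 3)) n * (mon (1 / 6) n * mon (1 / 6) n) = mon (-2) n := by
    rw [mon_mul_apply, mon_mul_apply]; congr 1; norm_num
  rw [← e]; ring

theorem S_side {ω V1 V2 V3 V4 : ℕ → ℝ} {E : ℕ → ℝ → ℝ} {S : ℝ → ℝ} {κ ε w r K3 β c0 c1 : ℝ}
    (hκ : 0 < κ) (hε : 0 < ε) (hε1 : ε ≤ 1 / 3) (hK3 : 0 < K3) (hβ : 0 < β)
    (hω : PP (-(7 / 3) - ε) (fun n => ω n - w * mon (-(7 / 3)) n))
    (hV1 : PP (2 / 3 - ε) (fun n => V1 n - r * Real.log (xb n) - κ * mon (2 / 3) n))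
    (hV2 : PP 0 V2)
    (hV3 : ∃ C, ∀ n, |V3 n + K3 * Real.log (xb n)| ≤ C) (hV4 : ∃ C, ∀ n, |V4 n| ≤ C)
    (hE : ∃ R : ℕ → ℝ → ℝ, (∃ C, ∀ᶠ t in 𝓝[>] 0, ∀ n, |R n t| ≤ C * t ^ 5) ∧
      ∀ᶠ t in 𝓝[>] 0, ∀ n, E n t = Real.exp (-t * V1 n - t ^ 2 * V2 n - t ^ 3 * V3 n
        - t ^ 4 * V4 n + R n t))
    (hS : ∀ᶠ t in 𝓝[>] 0, S t = ∑' n, ω n * E n t)
    (h1 : (fun t => S t - (c0 + c1 * t - β * (t ^ 2 * Real.log (1 / t)))) =O[𝓝[>] 0]
      (fun t : ℝ => t ^ 2))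
    {s : ℝ → ℝ}
    (hs : s ∈ Submodule.span ℝ ({f | ∃ ρ : ℝ, f = fun t => t ^ ρ} ∪
      {f | ∃ ρ : ℝ, f = fun t : ℝ => t ^ ρ * Real.log (1 / t)} : Set (ℝ → ℝ)))
    (h2 : (fun t => S t - s t - β ^ 2 / 2 * (t ^ 5 * Real.log (1 / t) ^ 2)) =O[𝓝[>] 0]
      (fun t : ℝ => t ^ 5 * (1 + Real.log (1 / t)))) : False := by
  have hsSL : s ∈ SL := hs
  obtain ⟨Cw, hCw, hw⟩ := exists_bound (isBigO_of_lead hε hω)
  obtain ⟨Cl, hCl, hl⟩ := one_add_log_cube
  obtain ⟨⟨CV, hVb⟩, ⟨CL, hVl⟩⟩ := V_bounds hκ hε hV1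
  obtain ⟨C2, hC2, hv2⟩ := exists_bound hV2.isBigO
  simp only [mon_zero, Pi.one_apply, mul_one] at hv2
  obtain ⟨C3, hv3⟩ := hV3
  obtain ⟨C4, hv4⟩ := hV4
  obtain ⟨R, ⟨CR, hR⟩, hEeq⟩ := hE
  have hC3 : 0 ≤ C3 := (abs_nonneg _).trans (hv3 0)
  have hC4 : 0 ≤ C4 := (abs_nonneg _).trans (hv4 0)
  obtain ⟨C, hC, hrC, hv2C, hv4C, hv3C, hRC⟩ : ∃ C : ℝ, 0 ≤ C ∧ |r| ≤ C ∧ (∀ n, |V2 n| ≤ C) ∧
      (∀ n, |V4 n| ≤ C) ∧ (∀ n, |V3 n| ≤ C * (1 + Real.log (xb n))) ∧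
      ∀ᶠ t in 𝓝[>] (0 : ℝ), ∀ n, |R n t| ≤ C * t ^ 5 := by
    have hr0 := abs_nonneg r
    have hCR := abs_nonneg CR
    have hCR' := le_abs_self CR
    refine ⟨|r| + C2 + (C3 + K3) + C4 + |CR|, by positivity, by linarith,
      fun n => (hv2 n).trans (by linarith), fun n => (hv4 n).trans (by linarith), fun n => ?_, ?_⟩
    · have hl0 := logxb0 n
      have e : V3 n = (V3 n + K3 * Real.log (xb n)) - K3 * Real.log (xb n) := by ring
      have a1 : |V3 n| ≤ C3 + K3 * Real.log (xb n) := by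
        calc |V3 n| = |(V3 n + K3 * Real.log (xb n)) - K3 * Real.log (xb n)| := by rw [← e]
          _ ≤ |V3 n + K3 * Real.log (xb n)| + |K3 * Real.log (xb n)| := abs_sub _ _
          _ ≤ C3 + K3 * Real.log (xb n) := by
              rw [abs_of_nonneg (mul_nonneg hK3.le hl0)]
              have := hv3 n
              linarith
      have a2 : C3 + K3 * Real.log (xb n) ≤ (C3 + K3) * (1 + Real.log (xb n)) := by
        have b1 := mul_nonneg hC3 hl0
        have b2 := mul_nonneg hK3.le hl0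
        linarith
      refine (a1.trans a2).trans (mul_le_mul_of_nonneg_right (by linarith) (by linarith))
    · filter_upwards [hR, eventually_pos'] with t ht htp n
      exact (ht n).trans (mul_le_mul_of_nonneg_right (by linarith) (pow_pos htp 5).le)
  set y : ℕ → ℝ → ℝ := fun n t => -(t ^ 2 * V2 n) - t ^ 3 * V3 n - t ^ 4 * V4 n + R n t with hy
  have hE1 : ∀ᶠ t in 𝓝[>] (0 : ℝ), ∀ n, E n t = Real.exp (-t * V1 n) * Real.exp (y n t) := by
    filter_upwards [hEeq] with t ht n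
    rw [ht n, ← Real.exp_add]
    congr 1
    simp only [hy]; ring
  have hlog1 : ∀ n, (1 : ℝ) ≤ 1 + Real.log (xb n) := fun n => by
    have := logxb0 n; linarith
  have hω13 : ∀ n, |ω n| ≤ Cw * mon (-(13 / 6)) n := fun n =>
    (hw n).trans (mul_le_mul_of_nonneg_left (mon_le (by norm_num) n) hCw.le)
  -- Step A
  have hA : (fun t => S t - ∑' n, ω n * Real.exp (-t * V1 n)) =O[𝓝[>] (0 : ℝ)]
      (fun t : ℝ => t ^ 2) := by
    have hg : ∀ᶠ t in 𝓝[>] (0 : ℝ), ∀ n, |ω n * (Real.exp (-t * V1 n) * (Real.exp (y n t) - 1))|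
        ≤ (Cw * Real.exp |CL| * (4 * C) * Cl * 2) * (t ^ 2 * mon (-2) n) := by
      filter_upwards [hRC, ev01, exp_log_le (show 0 ≤ 4 * C by positivity)]
        with t hRt ⟨ht, ht1, _⟩ he n
      refine err_bound (B := 4 * C) (k := 2) (Δ := fun n => Real.exp (y n t) - 1) hCw hw hl hVl (show 0 ≤ 4 * C by positivity)
        (by positivity) ht ht1 he (fun n => ?_) n
      have b1 : |y n t| ≤ 4 * C * (t ^ 2 * (1 + Real.log (xb n))) :=
        pw_A hC ht ht1 (logxb0 n) (hv2C n) (hv3C n) (hv4C n) (hRt n)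
      have hl0 := logxb0 n
      have b2 : |y n t| ≤ 4 * C * t * (1 + Real.log (xb n)) := by
        refine b1.trans ?_
        have : t ^ 2 * (1 + Real.log (xb n)) ≤ t * (1 + Real.log (xb n)) :=
          mul_le_mul_of_nonneg_right (by nlinarith) (by linarith)
        nlinarith
      have b3 : 1 + Real.log (xb n) ≤ (1 + Real.log (xb n)) ^ 3 := by
        have := pow_le_pow_right₀ (hlog1 n) (show 1 ≤ 3 by norm_num)
        simpa using this
      refine (exp0_bound _).trans ?_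
      calc |y n t| * Real.exp |y n t| ≤ (4 * C * (t ^ 2 * (1 + Real.log (xb n))))
            * Real.exp (4 * C * t * (1 + Real.log (xb n))) :=
            mul_le_mul b1 (Real.exp_le_exp.mpr b2) (Real.exp_pos _).le (by positivity)
        _ ≤ (4 * C * (t ^ 2 * (1 + Real.log (xb n)) ^ 3))
            * Real.exp (4 * C * t * (1 + Real.log (xb n))) := by gcongr
        _ = _ := by ring
    obtain ⟨e1, e2⟩ := err_sum hg
    refine e1.congr' ?_ EventuallyEq.rfl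
    filter_upwards [e2, hS, hE1, ev01] with t hs1 hSt hEt ⟨ht, ht1, _⟩
    have hs0 := Lsm_summable' hω13 hVl ht ht1
    rw [hSt]
    have hs2 : Summable fun n => ω n * E n t := by
      refine (hs0.add hs1).congr fun n => ?_
      rw [hEt n]; ring
    rw [← hs2.tsum_sub hs0]
    refine tsum_congr fun n => ?_
    rw [hEt n]; ring
  obtain ⟨a0, a1, hlead⟩ := lead_sum hκ hε hε1 hω hV1
  have hσ1 : 3 / 4 * w * κ ^ 2 + β = 0 := by
    refine log_unique (p := a0 - c0) (q := a1 - c1) ?_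
    have := (h1.sub hA).sub hlead
    refine this.congr_left fun t => ?_
    ring
  have hwκ : w * κ ^ 2 < 0 := by nlinarith
  -- Step B
  set V' : ℕ → ℝ := fun n => V1 n - r * Real.log (xb n) with hV'
  have hV1' : PP (2 / 3 - ε) (fun n => V' n - κ * mon (2 / 3) n) := hV1
  have hV1'0 : PP (2 / 3 - ε) (fun n => V' n - 0 * Real.log (xb n) - κ * mon (2 / 3) n) :=
    hV1'.congr fun n => by ring
  obtain ⟨⟨CV', hVb'⟩, ⟨CL', hVl'⟩⟩ := V_bounds hκ hε hV1'0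
  have hωPP : PP (-(7 / 3)) ω := by
    have a1 := hω.mono (by linarith : -(7 / 3) - ε ≤ -(7 / 3))
    refine (a1.add ((PP.of_mon (le_refl (-(7 / 3 : ℝ)))).const_mul w)).congr fun n => ?_
    ring
  have hr0 : r = 0 := by
    obtain ⟨s3, hs3, he0⟩ := laplace_sum (K := 3) hκ hε (by linarith) hωPP hV1' (by norm_num)
    obtain ⟨b0, b1, hlogs⟩ := log_sum hκ hε hε1 hω hV1'
    set φ : ℕ → ℝ := fun n => ω n * (r ^ 2 * Real.log (xb n) ^ 2 / 2 - V2 n) with hφ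
    have hφb : ∀ n, |φ n| ≤ (Cw * (C ^ 2 + C) * Cl) * mon (-(13 / 6)) n := by
      refine bound_13_6 hCw hw hl (by positivity) fun n => ?_
      have hl0 := logxb0 n
      have a3 : |r ^ 2 * Real.log (xb n) ^ 2 / 2 - V2 n| ≤ C ^ 2 * (1 + Real.log (xb n)) ^ 2 + C := by
        refine (abs_sub _ _).trans (add_le_add ?_ (hv2C n))
        rw [abs_of_nonneg (by positivity)]
        have a4 : r ^ 2 ≤ C ^ 2 := by
          rw [← sq_abs r]; exact pow_le_pow_left₀ (abs_nonneg r) hrC 2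
        have a5 : Real.log (xb n) ^ 2 ≤ (1 + Real.log (xb n)) ^ 2 :=
          pow_le_pow_left₀ hl0 (by linarith) 2
        have a6 : r ^ 2 * Real.log (xb n) ^ 2 ≤ C ^ 2 * (1 + Real.log (xb n)) ^ 2 :=
          mul_le_mul a4 a5 (by positivity) (by positivity)
        have a7 : 0 ≤ C ^ 2 * (1 + Real.log (xb n)) ^ 2 := by positivity
        linarith
      refine a3.trans ?_
      have a8 : (1 + Real.log (xb n)) ^ 2 ≤ (1 + Real.log (xb n)) ^ 3 :=
        pow_le_pow_right₀ (hlog1 n) (by norm_num)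
      have a9 : 1 ≤ (1 + Real.log (xb n)) ^ 3 := one_le_pow₀ (hlog1 n)
      nlinarith [sq_nonneg C]
    obtain ⟨p0, hlin⟩ := lin_sum (φ := φ) (V := V') ⟨_, hφb⟩ ⟨_, hVb'⟩ ⟨_, hVl'⟩
    -- error
    have hg : ∀ᶠ t in 𝓝[>] (0 : ℝ), ∀ n, |ω n * (Real.exp (-t * V' n) *
        (Real.exp (-(t * (r * Real.log (xb n))) + y n t)
        - (1 - t * (r * Real.log (xb n)) + t ^ 2 * (r ^ 2 * Real.log (xb n) ^ 2 / 2 - V2 n))))|
        ≤ (Cw * Real.exp |CL'| * (125 * C ^ 3 + 12 * C ^ 2 + 3 * C) * Cl * 2)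
          * (t ^ 3 * mon (-2) n) := by
      filter_upwards [hRC, ev01, exp_log_le (show 0 ≤ 5 * C by positivity)]
        with t hRt ⟨ht, ht1, _⟩ he n
      refine err_bound (B := 125 * C ^ 3 + 12 * C ^ 2 + 3 * C) (k := 3)
        (Δ := fun n => Real.exp (-(t * (r * Real.log (xb n))) + y n t)
        - (1 - t * (r * Real.log (xb n)) + t ^ 2 * (r ^ 2 * Real.log (xb n) ^ 2 / 2 - V2 n))) hCw hw hl hVl'
        (show 0 ≤ 5 * C by positivity) (by positivity) ht ht1 he (fun n => ?_) n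
      exact pw_B hC ht ht1 (logxb0 n) hrC (hv2C n) (hv3C n) (hv4C n) (hRt n)
    obtain ⟨e1, e2⟩ := err_sum hg
    set G : ℝ → ℝ := fun t => ∑' n, ω n * (Real.exp (-t * V' n) *
        (Real.exp (-(t * (r * Real.log (xb n))) + y n t)
        - (1 - t * (r * Real.log (xb n)) + t ^ 2 * (r ^ 2 * Real.log (xb n) ^ 2 / 2 - V2 n))))
      with hG
    set F0 : ℝ → ℝ := fun t => ∑' n, ω n * Real.exp (-t * V' n) with hF0
    set F1 : ℝ → ℝ := fun t => ∑' n, ω n * Real.log (xb n) * Real.exp (-t * V' n) with hF1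
    set F2 : ℝ → ℝ := fun t => ∑' n, φ n * Real.exp (-t * V' n) with hF2
    have hlogb : ∀ n, |ω n * Real.log (xb n)| ≤ (Cw * 1 * Cl) * mon (-(13 / 6)) n := by
      refine bound_13_6 hCw hw hl zero_le_one fun n => ?_
      have hl0 := logxb0 n
      rw [abs_of_nonneg hl0, one_mul]
      have := pow_le_pow_right₀ (hlog1 n) (show 1 ≤ 3 by norm_num)
      rw [pow_one] at this
      linarith
    have hdec : ∀ᶠ t in 𝓝[>] (0 : ℝ), S t = F0 t - r * (t * F1 t) + t ^ 2 * F2 t + G t := by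
      filter_upwards [e2, hS, hE1, ev01] with t hs1 hSt hEt ⟨ht, ht1, _⟩
      have s0 := Lsm_summable' hω13 hVl' ht ht1
      have s1 := Lsm_summable' hlogb hVl' ht ht1
      have s2 := Lsm_summable' hφb hVl' ht ht1
      rw [hSt]
      simp only [hF0, hF1, hF2, hG]
      rw [← mul_assoc, ← tsum_mul_left, ← tsum_mul_left, ← s0.tsum_sub (s1.mul_left (r * t)),
        ← (s0.sub (s1.mul_left (r * t))).tsum_add (s2.mul_left (t ^ 2)),
        ← ((s0.sub (s1.mul_left (r * t))).add (s2.mul_left (t ^ 2))).tsum_add hs1]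
      refine tsum_congr fun n => ?_
      rw [hEt n]
      have e3 : Real.exp (-t * V1 n) * Real.exp (y n t) = Real.exp (-t * V' n) *
          Real.exp (-(t * (r * Real.log (xb n))) + y n t) := by
        rw [← Real.exp_add, ← Real.exp_add]
        congr 1
        simp only [hV']; ring
      rw [e3]
      simp only [hφ]
      ring
    -- the single logarithm part
    set sB : ℝ → ℝ := s3 - s - (r * b0) • (fun t : ℝ => t ^ 1) - (r * b1) • (fun t : ℝ => t ^ 2)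
      + p0 • (fun t : ℝ => t ^ 2) with hsB
    have hsBm : sB ∈ SL := by
      refine SL.add_mem (SL.sub_mem (SL.sub_mem (SL.sub_mem (Elem_le_SL hs3) hsSL) ?_) ?_) ?_
      · exact SL.smul_mem _ (SL_pow 1)
      · exact SL.smul_mem _ (SL_pow 2)
      · exact SL.smul_mem _ (SL_pow 2)
    have hfin : (fun t => sB t + (-(9 / 16 * r * w * κ ^ 2)) * (t ^ 3 * Real.log (1 / t) ^ 2))
        =O[𝓝[>] (0 : ℝ)] (fun t : ℝ => t ^ 3 * (1 + Real.log (1 / t))) := by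
      have q1 : G =O[𝓝[>] (0 : ℝ)] (fun t : ℝ => t ^ 3 * (1 + Real.log (1 / t))) :=
        e1.trans (isBigO_pow_log le_rfl)
      have q2 := isBigO_powlog_mul (j := 1) (k := 3) (m := 2) (by norm_num) hlogs
      have q3 := isBigO_pow_mul (j := 2) (k := 3) (m := 1) (by norm_num)
        (f := fun t => F2 t - p0) (by simpa only [pow_one] using hlin)
      have q4 : (fun t : ℝ => t ^ 5 * Real.log (1 / t) ^ 2) =O[𝓝[>] (0 : ℝ)]
          (fun t : ℝ => t ^ 3 * (1 + Real.log (1 / t))) := by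
        have := isBigO_powlog_mul (j := 0) (k := 3) (m := 4) (by norm_num)
          (isBigO_logsq (k := 4))
        simpa using this
      have q5 := isBigO_powlog_mul (j := 0) (k := 3) (m := 5) (by norm_num) h2
      simp only [pow_zero, one_mul] at q5
      have q6 : (fun t => -(G t) - (F0 t - s3 t) + r * (t ^ 1 * (F1 t
          - (b0 + b1 * t + 9 / 16 * w * κ ^ 2 * (t ^ 2 * Real.log (1 / t) ^ 2))))
          - t ^ 2 * (F2 t - p0) + β ^ 2 / 2 * (t ^ 5 * Real.log (1 / t) ^ 2)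
          + (S t - s t - β ^ 2 / 2 * (t ^ 5 * Real.log (1 / t) ^ 2))) =O[𝓝[>] (0 : ℝ)]
          (fun t : ℝ => t ^ 3 * (1 + Real.log (1 / t))) :=
        ((((q1.neg_left.sub he0).add (q2.const_mul_left r)).sub q3).add
          (q4.const_mul_left (β ^ 2 / 2))).add q5
      refine q6.congr' ?_ EventuallyEq.rfl
      filter_upwards [hdec] with t ht
      simp only [hsB, Pi.add_apply, Pi.sub_apply, Pi.smul_apply, smul_eq_mul]
      rw [ht]
      ring
    have hσ := log_sq_unique hsBm hfin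
    have h3 : r * (w * κ ^ 2) = 0 := by linarith
    rcases mul_eq_zero.mp h3 with h | h
    · exact h
    · exact absurd h hwκ.ne
  -- Step C
  subst hr0
  have hV1c : PP (2 / 3 - ε) (fun n => V1 n - κ * mon (2 / 3) n) := hV1.congr fun n => by ring
  obtain ⟨s5, hs5, he0⟩ := laplace_sum (K := 5) hκ hε (by linarith) hωPP hV1c (by norm_num)
  have hωV2 : PP (-(7 / 3)) (fun n => ω n * V2 n) := hωPP.mul' (by norm_num) hV2
  obtain ⟨s3, hs3, he2⟩ := laplace_sum (K := 3) hκ hε (by linarith) hωV2 hV1c (by norm_num)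
  obtain ⟨b0, b1, hlogs⟩ := log_sum hκ hε hε1 hω hV1c
  have hq : ∀ n, |ω n * (V3 n + K3 * Real.log (xb n))| ≤ (Cw * C3) * mon (-(7 / 3)) n := by
    intro n
    rw [abs_mul]
    have := mul_le_mul (hw n) (hv3 n) (abs_nonneg _) ((abs_nonneg _).trans (hw n))
    linarith
  obtain ⟨q0, q1, hquad⟩ := quad_sum (φ := fun n => ω n * (V3 n + K3 * Real.log (xb n))) (V := V1)
    ⟨_, hq⟩ ⟨_, hVb⟩ ⟨_, hVl⟩
  set φ : ℕ → ℝ := fun n => ω n * (V2 n ^ 2 / 2 - V4 n) with hφ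
  have hφb : ∀ n, |φ n| ≤ (Cw * (C ^ 2 + C) * Cl) * mon (-(13 / 6)) n := by
    refine bound_13_6 hCw hw hl (by positivity) fun n => ?_
    have a3 : |V2 n ^ 2 / 2 - V4 n| ≤ C ^ 2 + C := by
      refine (abs_sub _ _).trans (add_le_add ?_ (hv4C n))
      rw [abs_of_nonneg (by positivity)]
      have a4 : V2 n ^ 2 ≤ C ^ 2 := by
        rw [← sq_abs (V2 n)]; exact pow_le_pow_left₀ (abs_nonneg _) (hv2C n) 2
      nlinarith [sq_nonneg C]
    refine a3.trans ?_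
    have a9 : 1 ≤ (1 + Real.log (xb n)) ^ 3 := one_le_pow₀ (hlog1 n)
    nlinarith [sq_nonneg C]
  obtain ⟨p0, hlin⟩ := lin_sum (φ := φ) (V := V1) ⟨_, hφb⟩ ⟨_, hVb⟩ ⟨_, hVl⟩
  have hg : ∀ᶠ t in 𝓝[>] (0 : ℝ), ∀ n, |ω n * (Real.exp (-t * V1 n) * (Real.exp (y n t)
      - (1 - t ^ 2 * V2 n - t ^ 3 * V3 n + t ^ 4 * (V2 n ^ 2 / 2 - V4 n))))|
      ≤ (Cw * Real.exp |CL| * (64 * C ^ 3 + 8 * C ^ 2 + C) * Cl * 2) * (t ^ 5 * mon (-2) n) := by
    filter_upwards [hRC, ev01, exp_log_le (show 0 ≤ 4 * C by positivity)]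
      with t hRt ⟨ht, ht1, _⟩ he n
    refine err_bound (B := 64 * C ^ 3 + 8 * C ^ 2 + C) (k := 5)
      (Δ := fun n => Real.exp (y n t)
      - (1 - t ^ 2 * V2 n - t ^ 3 * V3 n + t ^ 4 * (V2 n ^ 2 / 2 - V4 n))) hCw hw hl hVl
      (show 0 ≤ 4 * C by positivity) (by positivity) ht ht1 he (fun n => ?_) n
    exact pw_C hC ht ht1 (logxb0 n) (hv2C n) (hv3C n) (hv4C n) (hRt n)
  obtain ⟨e1, e2⟩ := err_sum hg
  set G : ℝ → ℝ := fun t => ∑' n, ω n * (Real.exp (-t * V1 n) * (Real.exp (y n t)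
      - (1 - t ^ 2 * V2 n - t ^ 3 * V3 n + t ^ 4 * (V2 n ^ 2 / 2 - V4 n)))) with hG
  set F0 : ℝ → ℝ := fun t => ∑' n, ω n * Real.exp (-t * V1 n) with hF0
  set F1 : ℝ → ℝ := fun t => ∑' n, ω n * Real.log (xb n) * Real.exp (-t * V1 n) with hF1
  set F2 : ℝ → ℝ := fun t => ∑' n, ω n * V2 n * Real.exp (-t * V1 n) with hF2
  set Fq : ℝ → ℝ := fun t => ∑' n, ω n * (V3 n + K3 * Real.log (xb n)) * Real.exp (-t * V1 n)
    with hFq
  set F4 : ℝ → ℝ := fun t => ∑' n, φ n * Real.exp (-t * V1 n) with hF4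
  have hlogb : ∀ n, |ω n * Real.log (xb n)| ≤ (Cw * 1 * Cl) * mon (-(13 / 6)) n := by
    refine bound_13_6 hCw hw hl zero_le_one fun n => ?_
    have hl0 := logxb0 n
    rw [abs_of_nonneg hl0, one_mul]
    have := pow_le_pow_right₀ (hlog1 n) (show 1 ≤ 3 by norm_num)
    rw [pow_one] at this
    linarith
  have h2b : ∀ n, |ω n * V2 n| ≤ (Cw * C * Cl) * mon (-(13 / 6)) n := by
    refine bound_13_6 hCw hw hl hC fun n => (hv2C n).trans ?_
    have a9 : 1 ≤ (1 + Real.log (xb n)) ^ 3 := one_le_pow₀ (hlog1 n)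
    nlinarith
  have hqb : ∀ n, |ω n * (V3 n + K3 * Real.log (xb n))| ≤ (Cw * C3) * mon (-(13 / 6)) n := fun n =>
    (hq n).trans (mul_le_mul_of_nonneg_left (mon_le (by norm_num) n) (by positivity))
  have hdec : ∀ᶠ t in 𝓝[>] (0 : ℝ), S t = F0 t - t ^ 2 * F2 t - t ^ 3 * (-K3 * F1 t + Fq t)
      + t ^ 4 * F4 t + G t := by
    filter_upwards [e2, hS, hE1, ev01] with t hs1 hSt hEt ⟨ht, ht1, _⟩
    have s0 := Lsm_summable' hω13 hVl ht ht1
    have s1 := Lsm_summable' hlogb hVl ht ht1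
    have s2 := Lsm_summable' h2b hVl ht ht1
    have sq := Lsm_summable' hqb hVl ht ht1
    have s4 := Lsm_summable' hφb hVl ht ht1
    rw [hSt]
    simp only [hF0, hF1, hF2, hG, hFq, hF4]
    have t1 := s2.mul_left (t ^ 2)
    have t2 := ((s1.mul_left (-K3)).add sq).mul_left (t ^ 3)
    have t3 := s4.mul_left (t ^ 4)
    rw [← tsum_mul_left (a := -K3), ← (s1.mul_left (-K3)).tsum_add sq, ← tsum_mul_left,
      ← tsum_mul_left, ← tsum_mul_left, ← s0.tsum_sub t1, ← (s0.sub t1).tsum_sub t2,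
      ← ((s0.sub t1).sub t2).tsum_add t3, ← (((s0.sub t1).sub t2).add t3).tsum_add hs1]
    refine tsum_congr fun n => ?_
    rw [hEt n]
    simp only [hφ]
    ring
  obtain ⟨s3', hs3', hs3eq⟩ := SL_mul_pow 2 (Elem_le_SL hs3)
  set sC : ℝ → ℝ := s5 - s3' + (K3 * b0 - q0) • (fun t : ℝ => t ^ 3)
    + (K3 * b1 - q1) • (fun t : ℝ => t ^ 4) + p0 • (fun t : ℝ => t ^ 4) - s with hsC
  have hsCm : sC ∈ SL := by
    refine SL.sub_mem (SL.add_mem (SL.add_mem (SL.add_mem (SL.sub_mem (Elem_le_SL hs5) hs3')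
      ?_) ?_) ?_) hsSL
    · exact SL.smul_mem _ (SL_pow 3)
    · exact SL.smul_mem _ (SL_pow 4)
    · exact SL.smul_mem _ (SL_pow 4)
  have hfin : (fun t => sC t + (9 / 16 * K3 * w * κ ^ 2 - β ^ 2 / 2)
      * (t ^ 5 * Real.log (1 / t) ^ 2)) =O[𝓝[>] (0 : ℝ)]
      (fun t : ℝ => t ^ 5 * (1 + Real.log (1 / t))) := by
    have r1 : G =O[𝓝[>] (0 : ℝ)] (fun t : ℝ => t ^ 5 * (1 + Real.log (1 / t))) :=
      e1.trans (isBigO_pow_log le_rfl)
    have r2 := isBigO_powlog_mul (j := 2) (k := 5) (m := 3) (by norm_num) he2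
    have r3 := isBigO_powlog_mul (j := 3) (k := 5) (m := 2) (by norm_num) hlogs
    have r4 := isBigO_powlog_mul (j := 3) (k := 5) (m := 2) (by norm_num) hquad
    have r5 := isBigO_pow_mul (j := 4) (k := 5) (m := 1) (by norm_num)
      (f := fun t => F4 t - p0) (by simpa only [pow_one] using hlin)
    have r6 : (fun t => -(G t) - (F0 t - s5 t) + t ^ 2 * (F2 t - s3 t)
        - K3 * (t ^ 3 * (F1 t - (b0 + b1 * t + 9 / 16 * w * κ ^ 2 * (t ^ 2 * Real.log (1 / t) ^ 2))))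
        + t ^ 3 * (Fq t - (q0 + q1 * t)) - t ^ 4 * (F4 t - p0)
        + (S t - s t - β ^ 2 / 2 * (t ^ 5 * Real.log (1 / t) ^ 2))) =O[𝓝[>] (0 : ℝ)]
        (fun t : ℝ => t ^ 5 * (1 + Real.log (1 / t))) :=
      (((((r1.neg_left.sub he0).add r2).sub (r3.const_mul_left K3)).add r4).sub r5).add h2
    refine r6.congr' ?_ EventuallyEq.rfl
    filter_upwards [hdec, eventually_pos'] with t ht htp
    simp only [hsC, Pi.add_apply, Pi.sub_apply, Pi.smul_apply, smul_eq_mul]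
    rw [ht, hs3eq t htp]
    ring
  have hσ := log_sq_unique hsCm hfin
  have h3 : K3 * (9 / 16 * (w * κ ^ 2)) = β ^ 2 / 2 := by linarith
  have h4 : K3 * (9 / 16 * (w * κ ^ 2)) < 0 := mul_neg_of_pos_of_neg hK3 (by linarith)
  have h5 : 0 < β ^ 2 / 2 := by positivity
  linarith

end F526
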