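import Mathlib

/-!
The small `t` expansion of the Stieltjes type integral of `exp (-|x| ^ 3)`.
-/

open Filter Topology MeasureTheory Asymptotics Set

namespace F526

/-- Remainder of `exp (-x^3)` after removing `(1 - x^3)` on `(0,1]`. -/
noncomputable def RR (x : ℝ) : ℝ := Real.exp (-x ^ 3) - (Ioc (0 : ℝ) 1).indicator (fun x => 1 - x ^ 3) x

lemma abs_RR_le {x : ℝ} (hx : 0 < x) : |RR x| ≤ 16 * x ^ 6 / (1 + x ^ 2) ^ 4 := by
  have hpos : (0 : ℝ) < (1 + x ^ 2) ^ 4 := by positivity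
  rw [le_div_iff₀ hpos]
  unfold RR
  by_cases h1 : x ≤ 1
  · rw [indicator_of_mem (show x ∈ Ioc (0:ℝ) 1 from ⟨hx, h1⟩)]
    have hy : 0 ≤ x ^ 3 := by positivity
    have hl : 1 - x ^ 3 ≤ Real.exp (-x ^ 3) := by
      have := Real.add_one_le_exp (-x ^ 3); linarith
    have hu : Real.exp (-x ^ 3) ≤ 1 - x ^ 3 + (x ^ 3) ^ 2 := by
      have h2 : |Real.exp (-x ^ 3) - 1 - (-x ^ 3)| ≤ (-x ^ 3) ^ 2 := by
        apply Real.abs_exp_sub_one_sub_id_le
        rw [abs_neg, abs_of_nonneg hy]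
        exact pow_le_one₀ hx.le h1
      have := (abs_le.mp h2).2
      nlinarith
    rw [abs_of_nonneg (by linarith)]
    have h4 : (1 + x ^ 2) ^ 4 ≤ 16 := by
      have : 1 + x ^ 2 ≤ 2 := by nlinarith
      calc (1 + x ^ 2) ^ 4 ≤ 2 ^ 4 := pow_le_pow_left₀ (by positivity) this 4
        _ = 16 := by norm_num
    have h5 : Real.exp (-x ^ 3) - (1 - x ^ 3) ≤ x ^ 6 := by nlinarith
    have h6 : 0 ≤ Real.exp (-x ^ 3) - (1 - x ^ 3) := by linarith
    nlinarith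
  · rw [indicator_of_notMem (fun h => h1 h.2), sub_zero, abs_of_pos (Real.exp_pos _)]
    push Not at h1
    have h2 : Real.exp (-x ^ 3) * x ^ 3 ≤ 1 := by
      have h3 : x ^ 3 ≤ Real.exp (x ^ 3) := by
        have := Real.add_one_le_exp (x ^ 3); linarith
      calc Real.exp (-x ^ 3) * x ^ 3 ≤ Real.exp (-x ^ 3) * Real.exp (x ^ 3) := by
            gcongr
        _ = 1 := by rw [← Real.exp_add]; simp
    have h4 : (1 + x ^ 2) ^ 4 ≤ (2 * x ^ 2) ^ 4 := by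
      apply pow_le_pow_left₀ (by positivity)
      nlinarith
    calc Real.exp (-x ^ 3) * (1 + x ^ 2) ^ 4 ≤ Real.exp (-x ^ 3) * (2 * x ^ 2) ^ 4 := by
          gcongr
      _ = 16 * (Real.exp (-x ^ 3) * x ^ 3) * x ^ 5 := by ring
      _ ≤ 16 * 1 * x ^ 5 := by gcongr
      _ ≤ 16 * x ^ 6 := by
          have : x ^ 5 ≤ x ^ 6 := pow_le_pow_right₀ h1.le (by norm_num)
          linarith

lemma measurable_RR : Measurable RR := by
  unfold RR
  apply Measurable.sub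
  · fun_prop
  · exact Measurable.indicator (by fun_prop) measurableSet_Ioc

/-- bound for `RR x / x ^ k`. -/
lemma abs_RR_div_le {x : ℝ} (hx : 0 < x) {k : ℕ} (hk : k ≤ 6) :
    |RR x / x ^ k| ≤ 16 * (1 + x ^ 2)⁻¹ := by
  rw [abs_div, abs_of_pos (show 0 < x ^ k by positivity), div_le_iff₀ (by positivity)]
  refine (abs_RR_le hx).trans ?_
  rw [div_le_iff₀ (by positivity)]
  have h1 : x ^ 6 = x ^ k * x ^ (6 - k) := by rw [← pow_add]; congr 1; omega
  have h2 : x ^ (6 - k) ≤ (1 + x ^ 2) ^ 3 := by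
    by_cases h : x ≤ 1
    · calc x ^ (6 - k) ≤ 1 := pow_le_one₀ hx.le h
        _ ≤ (1 + x ^ 2) ^ 3 := one_le_pow₀ (by nlinarith)
    · push Not at h
      calc x ^ (6 - k) ≤ x ^ 6 := pow_le_pow_right₀ h.le (by omega)
        _ = (x ^ 2) ^ 3 := by ring
        _ ≤ (1 + x ^ 2) ^ 3 := pow_le_pow_left₀ (by positivity) (by linarith) 3
  have h3 : 16 * (1 + x ^ 2)⁻¹ * x ^ k * (1 + x ^ 2) ^ 4 = 16 * (x ^ k * (1 + x ^ 2) ^ 3) := by
    have : (1 + x ^ 2) ≠ 0 := by positivity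
    field_simp
  rw [h3, h1]
  gcongr

lemma integrable_inv : IntegrableOn (fun x : ℝ => (1 + x ^ 2)⁻¹) (Ioi 0) :=
  integrable_inv_one_add_sq.integrableOn

lemma integrable_RR_div {k : ℕ} (hk : k ≤ 6) : IntegrableOn (fun x => RR x / x ^ k) (Ioi 0) := by
  refine Integrable.mono' (integrable_inv.const_mul 16) ?_ ?_
  · exact (measurable_RR.div (by fun_prop)).aestronglyMeasurable
  · refine (ae_restrict_iff' measurableSet_Ioi).mpr (Eventually.of_forall fun x hx => ?_)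
    rw [Real.norm_eq_abs]
    exact abs_RR_div_le hx hk

lemma integral_cauchy {t : ℝ} (ht : 0 < t) :
    IntegrableOn (fun x : ℝ => t / (x ^ 2 + t ^ 2)) (Ioi 0) ∧
      ∫ x in Ioi (0 : ℝ), t / (x ^ 2 + t ^ 2) = Real.pi / 2 := by
  have h1 := integral_comp_mul_left_Ioi (fun x : ℝ => (1 + x ^ 2)⁻¹) 0 (b := t⁻¹) (by positivity)
  rw [mul_zero, inv_inv, integral_Ioi_inv_one_add_sq, Real.arctan_zero, sub_zero, smul_eq_mul] at h1
  have h2 : ∀ x : ℝ, t / (x ^ 2 + t ^ 2) = t⁻¹ * (1 + (t⁻¹ * x) ^ 2)⁻¹ := by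
    intro x
    have : x ^ 2 + t ^ 2 ≠ 0 := by positivity
    have h3 : 1 + (t⁻¹ * x) ^ 2 ≠ 0 := by positivity
    field_simp
    ring
  constructor
  · have h3 : IntegrableOn (fun x : ℝ => (1 + (t⁻¹ * x) ^ 2)⁻¹) (Ioi 0) := by
      have := (integrableOn_Ioi_comp_mul_left_iff (fun x : ℝ => (1 + x ^ 2)⁻¹) 0
        (show 0 < t⁻¹ by positivity)).mpr (by rw [mul_zero]; exact integrable_inv)
      exact this
    refine IntegrableOn.congr_fun (f := fun x : ℝ => t⁻¹ * (1 + (t⁻¹ * x) ^ 2)⁻¹)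
      (h3.const_mul t⁻¹) (fun x _ => (h2 x).symm) measurableSet_Ioi
  · simp_rw [h2]
    rw [integral_const_mul, h1]
    field_simp

/-- The explicit part. -/
lemma explicit_part {t : ℝ} (ht : 0 < t) :
    ∫ x in Ioc (0 : ℝ) 1, (1 - x ^ 3) * (t / (x ^ 2 + t ^ 2)) =
      Real.arctan t⁻¹ - t / 2 + t ^ 3 / 2 * Real.log (1 + t ^ 2) + t ^ 3 * Real.log (1 / t) := by
  rw [← intervalIntegral.integral_of_le zero_le_one]
  have hd : ∀ x : ℝ, HasDerivAt (fun x : ℝ => Real.arctan (x * t⁻¹) -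
      t * (x ^ 2 / 2 - t ^ 2 / 2 * Real.log (x ^ 2 + t ^ 2)))
      ((1 - x ^ 3) * (t / (x ^ 2 + t ^ 2))) x := by
    intro x
    have hne : x ^ 2 + t ^ 2 ≠ 0 := by positivity
    have hne' : 1 + (x * t⁻¹) ^ 2 ≠ 0 := by positivity
    have h1 : HasDerivAt (fun x : ℝ => x * t⁻¹) t⁻¹ x := by
      simpa using (hasDerivAt_id x).mul_const t⁻¹
    have h2 := h1.arctan
    have h3 : HasDerivAt (fun x : ℝ => x ^ 2) (2 * x) x := by simpa using hasDerivAt_pow 2 x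
    have h4 := (h3.add_const (t ^ 2)).log hne
    have h5 := h2.sub (((h3.div_const 2).sub (h4.const_mul (t ^ 2 / 2))).const_mul t)
    refine h5.congr_deriv ?_
    field_simp
    ring
  rw [intervalIntegral.integral_eq_sub_of_hasDerivAt (fun x _ => hd x)]
  · have h0 : Real.log (1 ^ 2 + t ^ 2) = Real.log (1 + t ^ 2) := by norm_num
    have h1 : Real.log (0 ^ 2 + t ^ 2) = 2 * Real.log t := by
      rw [zero_pow two_ne_zero, zero_add, Real.log_pow]; norm_num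
    have h2 : Real.log (1 / t) = - Real.log t := by rw [one_div, Real.log_inv]
    rw [h0, h1, h2]
    simp
    ring
  · apply Continuous.intervalIntegrable
    have : ∀ x : ℝ, x ^ 2 + t ^ 2 ≠ 0 := fun x => by positivity
    fun_prop (disch := exact this _)

lemma arctan_bound {t : ℝ} (ht : 0 ≤ t) :
    |Real.arctan t - (t - t ^ 3 / 3 + t ^ 5 / 5)| ≤ t ^ 7 := by
  have hd : ∀ x : ℝ, HasDerivAt (fun x : ℝ => (x - x ^ 3 / 3 + x ^ 5 / 5) - Real.arctan x)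
      (x ^ 6 / (1 + x ^ 2)) x := by
    intro x
    have h1 : HasDerivAt (fun x : ℝ => x ^ 3 / 3) (3 * x ^ 2 / 3) x := by
      simpa using (hasDerivAt_pow 3 x).div_const 3
    have h2 : HasDerivAt (fun x : ℝ => x ^ 5 / 5) (5 * x ^ 4 / 5) x := by
      simpa using (hasDerivAt_pow 5 x).div_const 5
    have h3 := (((hasDerivAt_id x).sub h1).add h2).sub (Real.hasDerivAt_arctan x)
    refine h3.congr_deriv ?_
    have : 1 + x ^ 2 ≠ 0 := by positivity
    field_simp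
    ring
  have hd2 : ∀ x : ℝ, HasDerivAt (fun x : ℝ => x ^ 7 - ((x - x ^ 3 / 3 + x ^ 5 / 5) - Real.arctan x))
      (7 * x ^ 6 - x ^ 6 / (1 + x ^ 2)) x := by
    intro x
    exact (by simpa using hasDerivAt_pow 7 x : HasDerivAt (fun x : ℝ => x ^ 7) (7 * x ^ 6) x).sub (hd x)
  have m1 : Monotone (fun x : ℝ => (x - x ^ 3 / 3 + x ^ 5 / 5) - Real.arctan x) := by
    apply monotone_of_deriv_nonneg (fun x => (hd x).differentiableAt)
    intro x
    rw [(hd x).deriv]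
    positivity
  have m2 : Monotone (fun x : ℝ => x ^ 7 - ((x - x ^ 3 / 3 + x ^ 5 / 5) - Real.arctan x)) := by
    apply monotone_of_deriv_nonneg (fun x => (hd2 x).differentiableAt)
    intro x
    rw [(hd2 x).deriv]
    have h1 : x ^ 6 / (1 + x ^ 2) ≤ x ^ 6 := div_le_self (by positivity) (by nlinarith)
    have h2 : 0 ≤ x ^ 6 := by positivity
    linarith
  have h1 := m1 ht
  have h2 := m2 ht
  simp only [Real.arctan_zero] at h1 h2
  rw [abs_sub_comm, abs_of_nonneg (by linarith)]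
  linarith

lemma log_bound (t : ℝ) : |Real.log (1 + t ^ 2) - t ^ 2| ≤ t ^ 4 := by
  have h1 : Real.log (1 + t ^ 2) ≤ t ^ 2 := by
    have := Real.log_le_sub_one_of_pos (show 0 < 1 + t ^ 2 by positivity)
    linarith
  have h2 := Real.le_log_one_add_of_nonneg (sq_nonneg t)
  rw [abs_sub_comm, abs_of_nonneg (by linarith)]
  have h3 : t ^ 2 - t ^ 4 ≤ 2 * t ^ 2 / (t ^ 2 + 2) := by
    rw [le_div_iff₀ (by positivity)]
    nlinarith [sq_nonneg t, sq_nonneg (t ^ 2), mul_nonneg (sq_nonneg t) (sq_nonneg (t ^ 2))]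
  linarith

/-- Splitting of the integral over the half line. -/
lemma split_integral {t : ℝ} (ht : 0 < t) :
    ∫ x in Ioi (0 : ℝ), t * Real.exp (-x ^ 3) / (x ^ 2 + t ^ 2) =
      (∫ x in Ioc (0 : ℝ) 1, (1 - x ^ 3) * (t / (x ^ 2 + t ^ 2))) +
      (t * (∫ x in Ioi (0 : ℝ), RR x / x ^ 2) - t ^ 3 * (∫ x in Ioi (0 : ℝ), RR x / x ^ 4)
        + t ^ 5 * (∫ x in Ioi (0 : ℝ), RR x / x ^ 6)
        - t ^ 6 * ∫ x in Ioi (0 : ℝ), RR x / x ^ 6 * (t / (x ^ 2 + t ^ 2))) := by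
  obtain ⟨hint, -⟩ := integral_cauchy ht
  have hcont : Continuous (fun x : ℝ => (1 - x ^ 3) * (t / (x ^ 2 + t ^ 2))) := by
    have : ∀ x : ℝ, x ^ 2 + t ^ 2 ≠ 0 := fun x => by positivity
    fun_prop (disch := exact this _)
  have hA : IntegrableOn (fun x : ℝ => (Ioc (0 : ℝ) 1).indicator
      (fun x => (1 - x ^ 3) * (t / (x ^ 2 + t ^ 2))) x) (Ioi 0) := by
    have h1 : IntegrableOn (fun x : ℝ => (1 - x ^ 3) * (t / (x ^ 2 + t ^ 2))) (Ioc 0 1) :=
      (hcont.integrableOn_Icc (a := 0) (b := 1)).mono_set Ioc_subset_Icc_self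
    exact ((integrable_indicator_iff measurableSet_Ioc).mpr h1).integrableOn
  have hJ : IntegrableOn (fun x : ℝ => RR x / x ^ 6 * (t / (x ^ 2 + t ^ 2))) (Ioi 0) := by
    refine Integrable.mono' (hint.const_mul 16) ?_ ?_
    · exact ((measurable_RR.div (by fun_prop)).mul (by fun_prop)).aestronglyMeasurable
    · refine (ae_restrict_iff' measurableSet_Ioi).mpr (Eventually.of_forall fun x hx => ?_)
      have hx : 0 < x := hx
      rw [Real.norm_eq_abs, abs_mul, abs_of_pos (show 0 < t / (x ^ 2 + t ^ 2) by positivity)]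
      apply mul_le_mul_of_nonneg_right _ (by positivity)
      refine (abs_RR_div_le hx le_rfl).trans ?_
      have : (1 + x ^ 2)⁻¹ ≤ 1 := inv_le_one_of_one_le₀ (by nlinarith)
      linarith
  have h2 := integrable_RR_div (k := 2) (by norm_num)
  have h4 := integrable_RR_div (k := 4) (by norm_num)
  have h6 := integrable_RR_div (k := 6) (by norm_num)
  have hind : ∫ x in Ioc (0 : ℝ) 1, (1 - x ^ 3) * (t / (x ^ 2 + t ^ 2)) =
      ∫ x in Ioi (0 : ℝ), (Ioc (0 : ℝ) 1).indicator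
        (fun x => (1 - x ^ 3) * (t / (x ^ 2 + t ^ 2))) x := by
    rw [setIntegral_indicator measurableSet_Ioc]
    congr 2
    ext x
    simp only [mem_inter_iff, mem_Ioc, mem_Ioi]
    tauto
  rw [hind]
  have hkey : ∀ x ∈ Ioi (0 : ℝ), t * Real.exp (-x ^ 3) / (x ^ 2 + t ^ 2) =
      (Ioc (0 : ℝ) 1).indicator (fun x => (1 - x ^ 3) * (t / (x ^ 2 + t ^ 2))) x +
      (t * (RR x / x ^ 2) - t ^ 3 * (RR x / x ^ 4) + t ^ 5 * (RR x / x ^ 6)
        - t ^ 6 * (RR x / x ^ 6 * (t / (x ^ 2 + t ^ 2)))) := by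
    intro x hx
    have hx : 0 < x := hx
    have hx' : x ≠ 0 := hx.ne'
    have hne : x ^ 2 + t ^ 2 ≠ 0 := by positivity
    have h1 : Real.exp (-x ^ 3) = RR x + (Ioc (0 : ℝ) 1).indicator (fun x => 1 - x ^ 3) x := by
      unfold RR; ring
    have h2 : (Ioc (0 : ℝ) 1).indicator (fun x => (1 - x ^ 3) * (t / (x ^ 2 + t ^ 2))) x =
        (Ioc (0 : ℝ) 1).indicator (fun x => 1 - x ^ 3) x * (t / (x ^ 2 + t ^ 2)) := by
      by_cases h : x ∈ Ioc (0 : ℝ) 1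
      · rw [indicator_of_mem h, indicator_of_mem h]
      · rw [indicator_of_notMem h, indicator_of_notMem h]; simp
    rw [h1, h2]
    field_simp
    ring
  rw [setIntegral_congr_fun measurableSet_Ioi hkey]
  have e1 : IntegrableOn (fun x => t * (RR x / x ^ 2) - t ^ 3 * (RR x / x ^ 4)) (Ioi 0) :=
    (h2.const_mul t).sub (h4.const_mul (t ^ 3))
  have e2 : IntegrableOn (fun x => t * (RR x / x ^ 2) - t ^ 3 * (RR x / x ^ 4)
      + t ^ 5 * (RR x / x ^ 6)) (Ioi 0) := e1.add (h6.const_mul (t ^ 5))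
  have e3 : IntegrableOn (fun x => t * (RR x / x ^ 2) - t ^ 3 * (RR x / x ^ 4)
      + t ^ 5 * (RR x / x ^ 6) - t ^ 6 * (RR x / x ^ 6 * (t / (x ^ 2 + t ^ 2)))) (Ioi 0) :=
    e2.sub (hJ.const_mul (t ^ 6))
  rw [integral_add hA e3, integral_sub e2 (hJ.const_mul (t ^ 6)),
    integral_add e1 (h6.const_mul (t ^ 5)), integral_sub (h2.const_mul t) (h4.const_mul (t ^ 3))]
  simp only [integral_const_mul]

lemma J_bound {t : ℝ} (ht : 0 < t) :
    |∫ x in Ioi (0 : ℝ), RR x / x ^ 6 * (t / (x ^ 2 + t ^ 2))| ≤ 8 * Real.pi := by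
  obtain ⟨hint, hval⟩ := integral_cauchy ht
  have h1 : ‖∫ x in Ioi (0 : ℝ), RR x / x ^ 6 * (t / (x ^ 2 + t ^ 2))‖ ≤
      ∫ x in Ioi (0 : ℝ), 16 * (t / (x ^ 2 + t ^ 2)) := by
    apply norm_integral_le_of_norm_le (hint.const_mul 16)
    refine (ae_restrict_iff' measurableSet_Ioi).mpr (Eventually.of_forall fun x hx => ?_)
    have hx : 0 < x := hx
    rw [Real.norm_eq_abs, abs_mul, abs_of_pos (show 0 < t / (x ^ 2 + t ^ 2) by positivity)]
    apply mul_le_mul_of_nonneg_right _ (by positivity)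
    refine (abs_RR_div_le hx le_rfl).trans ?_
    have : (1 + x ^ 2)⁻¹ ≤ 1 := inv_le_one_of_one_le₀ (by nlinarith)
    linarith
  rw [integral_const_mul, hval, Real.norm_eq_abs] at h1
  linarith

/-- The coefficients. -/
noncomputable def bb : ℕ → ℝ
  | 0 => 1
  | 1 => 2 / Real.pi * (∫ x in Ioi (0 : ℝ), RR x / x ^ 2) - 3 / Real.pi
  | 3 => 2 / (3 * Real.pi) - 2 / Real.pi * (∫ x in Ioi (0 : ℝ), RR x / x ^ 4)
  | 5 => 3 / (5 * Real.pi) + 2 / Real.pi * (∫ x in Ioi (0 : ℝ), RR x / x ^ 6)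
  | _ => 0

theorem truth_part : ∃ b : ℕ → ℝ, b 0 = 1 ∧
    (fun t : ℝ => Real.pi⁻¹ * (∫ x : ℝ, t * Real.exp (-(|x| ^ (3:ℝ))) / (x ^ 2 + t ^ 2))
      - ((∑ i ∈ Finset.range 6, b i * t ^ i) + (2 / Real.pi) * t ^ 3 * Real.log (1 / t)))
    =O[𝓝[>] 0] (fun t : ℝ => t ^ 6) := by
  refine ⟨bb, rfl, ?_⟩
  have hpi := Real.pi_pos
  apply IsBigO.of_bound ((2 / Real.pi) * (1 + 1 + 8 * Real.pi))
  have hev : ∀ᶠ t : ℝ in 𝓝[>] 0, t ∈ Ioo (0 : ℝ) 1 := Ioo_mem_nhdsGT one_pos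
  filter_upwards [hev] with t ht
  obtain ⟨ht0, ht1⟩ := ht
  have hI : ∫ x : ℝ, t * Real.exp (-(|x| ^ (3:ℝ))) / (x ^ 2 + t ^ 2) =
      2 * ∫ x in Ioi (0 : ℝ), t * Real.exp (-x ^ 3) / (x ^ 2 + t ^ 2) := by
    have h1 := integral_comp_abs (f := fun x : ℝ => t * Real.exp (-x ^ 3) / (x ^ 2 + t ^ 2))
    rw [← h1]
    apply integral_congr_ae
    refine Eventually.of_forall fun x => ?_
    simp only [sq_abs]
    have : |x| ^ (3 : ℝ) = |x| ^ 3 := by
      rw [← Real.rpow_natCast]; norm_num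
    rw [this]
  rw [hI, split_integral ht0, explicit_part ht0, Real.arctan_inv_of_pos ht0]
  set I2 := ∫ x in Ioi (0 : ℝ), RR x / x ^ 2 with hI2
  set I4 := ∫ x in Ioi (0 : ℝ), RR x / x ^ 4 with hI4
  set I6 := ∫ x in Ioi (0 : ℝ), RR x / x ^ 6 with hI6
  set J := ∫ x in Ioi (0 : ℝ), RR x / x ^ 6 * (t / (x ^ 2 + t ^ 2)) with hJ
  have hJb : |J| ≤ 8 * Real.pi := J_bound ht0
  have ha := arctan_bound ht0.le
  have hl := log_bound t
  set at' := Real.arctan t - (t - t ^ 3 / 3 + t ^ 5 / 5) with hat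
  set lt' := Real.log (1 + t ^ 2) - t ^ 2 with hlt
  have hat2 : Real.arctan t = at' + (t - t ^ 3 / 3 + t ^ 5 / 5) := by rw [hat]; ring
  have hlt2 : Real.log (1 + t ^ 2) = lt' + t ^ 2 := by rw [hlt]; ring
  have hmain : Real.pi⁻¹ * (2 * (Real.pi / 2 - Real.arctan t - t / 2 +
      t ^ 3 / 2 * Real.log (1 + t ^ 2) + t ^ 3 * Real.log (1 / t) +
      (t * I2 - t ^ 3 * I4 + t ^ 5 * I6 - t ^ 6 * J))) -
      (∑ i ∈ Finset.range 6, bb i * t ^ i + 2 / Real.pi * t ^ 3 * Real.log (1 / t)) =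
      (2 / Real.pi) * (-at' + t ^ 3 / 2 * lt' - t ^ 6 * J) := by
    rw [hat2, hlt2]
    simp only [Finset.sum_range_succ, Finset.sum_range_zero, bb]
    rw [← hI2, ← hI4, ← hI6]
    field_simp
    ring
  rw [hmain, norm_mul, Real.norm_of_nonneg (by positivity), Real.norm_eq_abs, Real.norm_eq_abs,
    abs_of_pos (show 0 < t ^ 6 by positivity), mul_assoc]
  apply mul_le_mul_of_nonneg_left _ (by positivity)
  have h1 : |at'| ≤ t ^ 6 := ha.trans (pow_le_pow_of_le_one ht0.le ht1.le (by norm_num))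
  have h2 : |t ^ 3 / 2 * lt'| ≤ t ^ 6 := by
    rw [abs_mul, abs_of_pos (show 0 < t ^ 3 / 2 by positivity)]
    calc t ^ 3 / 2 * |lt'| ≤ t ^ 3 / 2 * t ^ 4 := by gcongr
      _ = t ^ 7 / 2 := by ring
      _ ≤ t ^ 6 := by
        have : t ^ 7 ≤ t ^ 6 := pow_le_pow_of_le_one ht0.le ht1.le (by norm_num)
        have : 0 < t ^ 6 := by positivity
        linarith
  have h3 : |t ^ 6 * J| ≤ 8 * Real.pi * t ^ 6 := by
    rw [abs_mul, abs_of_pos (show 0 < t ^ 6 by positivity), mul_comm]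
    gcongr
  calc |-at' + t ^ 3 / 2 * lt' - t ^ 6 * J| ≤ |-at' + t ^ 3 / 2 * lt'| + |t ^ 6 * J| :=
        abs_sub _ _
    _ ≤ |-at'| + |t ^ 3 / 2 * lt'| + |t ^ 6 * J| := by gcongr; exact abs_add_le _ _
    _ ≤ t ^ 6 + t ^ 6 + 8 * Real.pi * t ^ 6 := by rw [abs_neg]; gcongr
    _ = (1 + 1 + 8 * Real.pi) * t ^ 6 := by ring

end F526
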