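import Pool.Agent.Lib.MP_f52611_an.Core8
import Pool.Agent.Lib.MP_f52611_an.Pure
import Pool.Agent.Lib.MP_f52611_an.PureLogs
import Pool.Agent.Lib.MP_f52611_an.SSide
import Pool.Agent.Lib.MP_f52611_an.HypPart
import Pool.Agent.Lib.MP_f52611_an.HZero
import Pool.Agent.Lib.MP_f52611_an.OpPart
import Pool.Agent.Lib.MP_f52611_an.TruthPart

open Filter Topology Asymptotics

namespace F526

lemma lead_lower {ρ ε c : ℝ} (hε : 0 < ε) (hc : 0 < c) {f : ℕ → ℝ}
    (hf : PP (ρ - ε) (fun n => f n - c * mon ρ n)) :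
    ∀ᶠ n in atTop, c / 2 * mon ρ n ≤ f n := by
  have h1 := hf.isBigO.trans_isLittleO (mon_isLittleO (by linarith : ρ - ε < ρ))
  have h2 := h1.bound (by linarith : 0 < c / 2)
  filter_upwards [h2] with n hn
  rw [Real.norm_of_nonneg (mon_pos ρ n).le, Real.norm_eq_abs] at hn
  have := (abs_le.mp hn).1
  linarith

lemma lead_ratio {ρ ε c : ℝ} (hε : 0 < ε) (hc : c ≠ 0) {f : ℕ → ℝ}
    (hf : PP (ρ - ε) (fun n => f n - c * mon ρ n)) :
    Tendsto (fun n => f n / mon ρ n) atTop (𝓝 c) := by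
  have h1 := hf.isBigO.trans_isLittleO (mon_isLittleO (by linarith : ρ - ε < ρ))
  have h2 := (isLittleO_iff_tendsto (fun n h => absurd h (mon_pos ρ n).ne')).mp h1
  have h3 := h2.add_const c
  rw [zero_add] at h3
  refine h3.congr fun n => ?_
  have := (mon_pos ρ n).ne'
  field_simp
  ring

lemma CD_of_pure {c ε w : ℝ} {δ ω : ℕ → ℝ} (hc : 0 < c) (hε : 0 < ε)
    (hδ : PP (-(1 / 3) - ε) (fun n => δ n - c * mon (-(1 / 3)) n))
    (hω : PP (-(7 / 3) - ε) (fun n => ω n - w * mon (-(7 / 3)) n)) {x : ℕ → ℕ → ℝ}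
    (hx0 : ∀ k, x 0 k = 1) (hx : ∀ j : ℕ, j ≤ 6 → PP (-((j : ℝ) / 3)) (x j))
    (hrc : ∀ j : ℕ, 1 ≤ j → j ≤ 6 → ∀ k,
        ∑ i ∈ Finset.range (j + 1), x i k * x (j - i) (k + 1) = δ k * x (j - 1) (k + 1))
    (hx1 : PP (-(1 / 3) - ε) (fun n => x 1 n - c / 2 * mon (-(1 / 3)) n)) : CD x δ ω where
  x0 := hx0
  xb := by
    have h1 : ∀ j : ℕ, ∃ C, 0 < C ∧ (j ≤ 6 → ∀ k, |x j k| ≤ C * mon (-((j : ℝ) / 3)) k) := by
      intro j
      by_cases hj : j ≤ 6
      · obtain ⟨C, hC, h⟩ := exists_bound (hx j hj).isBigO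
        exact ⟨C, hC, fun _ => h⟩
      · exact ⟨1, one_pos, fun h => absurd h hj⟩
    choose C hC h using h1
    refine ⟨∑ j ∈ Finset.range 7, C j, Finset.sum_pos (fun j _ => hC j) ⟨0, by simp⟩,
      fun j hj k => (h j hj k).trans ?_⟩
    refine mul_le_mul_of_nonneg_right ?_ (mon_pos _ _).le
    exact Finset.single_le_sum (f := C) (fun i _ => (hC i).le) (Finset.mem_range.mpr (by omega))
  rc := hrc
  x1 := ⟨c / 2 / 2, by positivity, lead_lower hε (by positivity) hx1⟩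
  δb := exists_bound (isBigO_of_lead hε hδ)
  ωb := exists_bound (isBigO_of_lead hε hω)

/-- the core contradiction -/
theorem core {c ε w : ℝ} {δ ω : ℕ → ℝ} (hc : 0 < c) (hε : 0 < ε) (hε1 : ε ≤ 1 / 3)
    (hδ : PP (-(1 / 3) - ε) (fun n => δ n - c * mon (-(1 / 3)) n))
    (hω : PP (-(7 / 3) - ε) (fun n => ω n - w * mon (-(7 / 3)) n))
    {Z : ℕ → ℝ → ℝ} (hZ : ZD δ ω Z) {b : ℕ → ℝ} {β : ℝ} (hβ : 0 < β) (hb0 : b 0 = 1)
    (htr : (fun t => Z 1 t - ((∑ i ∈ Finset.range 6, b i * t ^ i)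
      + β * (t ^ 3 * Real.log (1 / t)))) =O[𝓝[>] (0 : ℝ)] (fun t : ℝ => t ^ 6)) : False := by
  obtain ⟨x, hx0, hx, hrc, hx1, hx2, hx3⟩ := pure_part hε hε1 hδ
  have hCD := CD_of_pure hc hε hδ hω hx0 hx hrc hx1
  obtain ⟨⟨c0, c1, h1⟩, s, hs, h2⟩ := mod_side hCD hZ hb0 htr
  obtain ⟨V1, V2, V3, V4, κ, r, K3, hκ, hK3, hV1, hV2, hV3, hV4, R, hR, hE⟩ :=
    pure_logs hc hε hε1 hx0 hx hx1 hx2 hx3
  exact S_side (E := fun n t => Po x (n + 1) t ^ 2) (S := SSq x ω) hκ hε hε1 hK3 hβ hω hV1 hV2 hV3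
    hV4 ⟨R, hR, hE⟩ (Eventually.of_forall fun t => rfl) h1 hs h2

/-- the disproof at `α = 3` -/
theorem final (μ : ℕ → ℝ) (hμ : ∀ k : ℕ, μ k = ∫ x : ℝ, x ^ k * Real.exp (-(|x| ^ (3:ℝ))))
    (D : ℕ → ℝ) (hD : ∀ m : ℕ, D m = (Matrix.of fun i j : Fin m => μ (i.val + j.val)).det)
    (a : ℕ → ℝ) (ha : ∀ n : ℕ, 1 ≤ n → a n = Real.sqrt (D (n + 1) * D (n - 1) / D n ^ 2))
    (hexp : ∃ i j A B : ℕ → ℝ,
      StrictMono i ∧ i 0 = 0 ∧ A 0 = 1 ∧
      StrictMono j ∧ j 0 = 3 ∧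
      Tendsto i atTop atTop ∧ Tendsto j atTop atTop ∧
      ∀ N : ℕ,
        (fun n : ℕ =>
          a n / ((n : ℝ) / (Real.Gamma ((3:ℝ) + 1) / (Real.Gamma ((3:ℝ) / 2) * Real.Gamma ((3:ℝ) / 2 + 1)))) ^ (1 / (3:ℝ))
            - ∑ k ∈ Finset.range N, A k * (n : ℝ) ^ (-(i k))
            - (-1 : ℝ) ^ n * ∑ k ∈ Finset.range N, B k * (n : ℝ) ^ (-(j k)))
        =O[atTop] (fun n : ℕ => (n : ℝ) ^ (-(min (i N) (j N))))) : False := by
  obtain ⟨d, Z, hd, ha', hda, hZ0, hZ1, hZpos, hZrec⟩ := op_part μ hμ D hD a ha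
  obtain ⟨c, ε, w, H, δ, ω, hc, hε, hε1, hδ, hω, hdec⟩ := hyp_part ha' hexp hd hda
  obtain ⟨b, hb0, htruth⟩ := truth_part
  have htr : (fun t => Z 1 t - ((∑ i ∈ Finset.range 6, b i * t ^ i)
      + 2 / Real.pi * (t ^ 3 * Real.log (1 / t)))) =O[𝓝[>] (0 : ℝ)] (fun t : ℝ => t ^ 6) := by
    refine htruth.congr' ?_ EventuallyEq.rfl
    filter_upwards [eventually_pos'] with t ht
    rw [hZ1 t ht]
    ring
  -- limits
  have hlim1 : Tendsto (fun t => Z 1 t) (𝓝[>] (0 : ℝ)) (𝓝 1) := by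
    have h1 : Tendsto (fun t : ℝ => t ^ 6) (𝓝[>] 0) (𝓝 0) := by
      have : Tendsto (fun t : ℝ => t ^ 6) (𝓝 0) (𝓝 (0 ^ 6)) := (continuous_pow 6).tendsto 0
      rw [zero_pow (by norm_num)] at this
      exact this.mono_left nhdsWithin_le_nhds
    have h2 := htr.trans_tendsto h1
    have h3 : Tendsto (fun t : ℝ => ∑ i ∈ Finset.range 6, b i * t ^ i) (𝓝[>] 0) (𝓝 1) := by
      have hc : Continuous fun t : ℝ => ∑ i ∈ Finset.range 6, b i * t ^ i := by fun_prop
      have := hc.tendsto 0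
      have e : ∑ i ∈ Finset.range 6, b i * (0 : ℝ) ^ i = 1 := by
        rw [Finset.sum_eq_single 0]
        · simp [hb0]
        · intro i _ hi; simp [hi]
        · intro h; simp at h
      rw [e] at this
      exact this.mono_left nhdsWithin_le_nhds
    have h4 : Tendsto (fun t : ℝ => 2 / Real.pi * (t ^ 3 * Real.log (1 / t))) (𝓝[>] 0) (𝓝 0) := by
      have h5 : Tendsto (fun t : ℝ => Real.log t * t ^ 3) (𝓝[>] 0) (𝓝 0) := by
        have := tendsto_log_mul_rpow_nhdsGT_zero (r := 3) (by norm_num)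
        refine this.congr fun t => ?_
        norm_cast
      have h6 := h5.const_mul (-(2 / Real.pi))
      rw [mul_zero] at h6
      refine h6.congr fun t => ?_
      rw [one_div, Real.log_inv]
      ring
    have h7 := (h2.add (h3.add h4))
    rw [zero_add, add_zero] at h7
    exact h7.congr fun t => by ring
  have hlim2 : ∀ k, Tendsto (fun t => Z k t) (𝓝[>] (0 : ℝ)) (𝓝 1) ∧
      Tendsto (fun t => Z (k + 1) t) (𝓝[>] (0 : ℝ)) (𝓝 1) := by
    intro k
    induction k with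
    | zero =>
      refine ⟨?_, hlim1⟩
      refine tendsto_const_nhds.congr' ?_
      filter_upwards [eventually_pos'] with t ht
      exact (hZ0 t ht).symm
    | succ k ih =>
      refine ⟨ih.2, ?_⟩
      have ht : Tendsto (fun t : ℝ => t) (𝓝[>] 0) (𝓝 0) := tendsto_id.mono_left nhdsWithin_le_nhds
      have h1 := ih.1.sub ((ht.mul_const (d k)).mul ih.2)
      rw [zero_mul, zero_mul, sub_zero] at h1
      refine h1.congr' ?_
      filter_upwards [eventually_pos'] with t ht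
      have := hZrec t ht k
      have e : k + 1 + 1 = k + 2 := rfl
      rw [e]
      linarith
  -- the smooth positive sequence
  set g : ℕ → ℝ := fun n => δ n + (-1) ^ n * ω n with hg
  have hgd : ∀ n, g n = d n * Real.exp (-((-1) ^ n * H)) := fun n => (hdec n).symm
  have hgpos : ∀ n, 0 < g n := fun n => by
    rw [hgd n]; exact mul_pos (hd n) (Real.exp_pos _)
  have hglim : Tendsto (fun n => g n / mon (-(1 / 3)) n) atTop (𝓝 c) := by
    have h1 := lead_ratio hε hc.ne' hδ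
    have h2 : Tendsto (fun n => (-1) ^ n * ω n / mon (-(1 / 3)) n) atTop (𝓝 0) := by
      have h3 : ω =o[atTop] mon (-(1 / 3)) :=
        (isBigO_of_lead hε hω).trans_isLittleO (mon_isLittleO (by norm_num))
      have h4 := (isLittleO_iff_tendsto (fun n h => absurd h (mon_pos _ n).ne')).mp h3
      rw [tendsto_zero_iff_norm_tendsto_zero] at h4 ⊢
      refine h4.congr fun n => ?_
      rw [norm_div, norm_div, norm_mul, norm_pow, norm_neg, norm_one, one_pow, one_mul]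
    have h5 := h1.add h2
    rw [add_zero] at h5
    refine h5.congr fun n => ?_
    simp only [hg]
    rw [← add_div]
  have hmr : Tendsto (fun n => mon (-(1 / 3)) (n + 1) / mon (-(1 / 3)) n) atTop (𝓝 1) := by
    have h1 : Tendsto (fun n => (1 + mon (-1) n) ^ (-(1 / 3) : ℝ)) atTop (𝓝 1) := by
      have h2 := (mon_tendsto_zero (by norm_num : (-1 : ℝ) < 0)).const_add 1
      rw [add_zero] at h2
      have h3 := h2.rpow_const (p := (-(1 / 3) : ℝ)) (Or.inl one_ne_zero)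
      rwa [Real.one_rpow] at h3
    refine h1.congr fun n => ?_
    rw [mon_succ]
    have := (mon_pos (-(1 / 3)) n).ne'
    field_simp
  have hratio : Tendsto (fun n => g (n + 1) / g n) atTop (𝓝 1) := by
    have h1 := (((hglim.comp (tendsto_add_atTop_nat 1)).div hglim hc.ne').mul hmr)
    rw [div_self hc.ne', one_mul] at h1
    refine h1.congr fun n => ?_
    simp only [Function.comp_def, Pi.div_apply]
    have a1 := (mon_pos (-(1 / 3)) n).ne'
    have a2 := (mon_pos (-(1 / 3)) (n + 1)).ne'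
    have a3 := (hgpos n).ne'
    field_simp
  have hg0 : Tendsto g atTop (𝓝 0) := by
    have h1 := hglim.mul (mon_tendsto_zero (by norm_num : (-(1 / 3) : ℝ) < 0))
    rw [mul_zero] at h1
    refine h1.congr fun n => ?_
    have := (mon_pos (-(1 / 3)) n).ne'
    field_simp
  have hdiv : ¬ Summable g := by
    intro hs
    have h1 : ∀ᶠ n in atTop, c / 2 < g n / mon (-(1 / 3)) n :=
      hglim.eventually (lt_mem_nhds (by linarith))
    have h2 : (mon (-(1 / 3))) =O[atTop] g := by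
      refine IsBigO.of_bound (2 / c) ?_
      filter_upwards [h1] with n hn
      rw [Real.norm_of_nonneg (mon_pos _ _).le, Real.norm_of_nonneg (hgpos n).le]
      rw [lt_div_iff₀ (mon_pos _ _)] at hn
      rw [div_mul_eq_mul_div, le_div_iff₀ hc]
      linarith
    have h3 : Summable (mon (-(1 / 3))) := summable_of_isBigO_nat hs h2
    have h5 : Summable (fun n : ℕ => (n : ℝ) ^ (-(1 / 3) : ℝ)) := by
      refine (summable_nat_add_iff 1).mp (h3.congr fun n => ?_)
      simp [mon, xb]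
    have := Real.summable_nat_rpow.mp h5
    norm_num at this
  have hH : H = 0 := by
    refine h_zero (g := g) (H := H) (t1 := 1) (Z := Z) hgpos hratio hg0 hdiv one_pos
      (fun t ht _ k => hZpos t ht k) ?_ (fun k => (hlim2 k).1)
    intro t ht _ k
    have h1 : g k * Real.exp ((-1) ^ k * H) = d k := by
      rw [hgd k, mul_assoc, ← Real.exp_add]
      simp
    rw [h1]
    exact hZrec t ht k
  have hdg : ∀ n, d n = δ n + (-1) ^ n * ω n := by
    intro n
    have := hdec n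
    rw [hH] at this
    simpa using this
  have hZD : ZD δ ω Z :=
    { ev := by
        filter_upwards [eventually_pos'] with t ht
        refine ⟨hZ0 t ht, hZpos t ht, fun k => ?_⟩
        rw [← hdg k]; exact hZrec t ht k
      z1 := by
        filter_upwards [hlim1.eventually (gt_mem_nhds (by norm_num : (1 : ℝ) < 2))] with t ht
        exact ht.le }
  exact core hc hε hε1 hδ hω hZD (by have := Real.pi_pos; positivity) hb0 htr

end F526
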