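import Pool.Agent.Lib.MP_f52611_an.Core9

set_option autoImplicit false

/-!
# Enumerations of locally finite sets of exponents; orthonormal systems
-/

open Filter Topology MeasureTheory Asymptotics Polynomial

namespace F526

/-! ### Enumeration -/

section Enum

variable {I : Set ℝ} (hI : ∀ T : ℝ, (I ∩ Set.Iio T).Finite) (hu : ∀ x : ℝ, ∃ y ∈ I, x < y)

include hI hu in
theorem exists_next (x : ℝ) : ∃ y ∈ I, x < y ∧ ∀ z ∈ I, x < z → y ≤ z := by
  obtain ⟨y0, hy0, hxy0⟩ := hu x
  have hfin : (I ∩ Set.Iio (y0 + 1) ∩ Set.Ioi x).Finite := (hI (y0 + 1)).subset Set.inter_subset_left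
  have hne : (I ∩ Set.Iio (y0 + 1) ∩ Set.Ioi x).Nonempty :=
    ⟨y0, ⟨hy0, by simp⟩, hxy0⟩
  obtain ⟨y, hy, hmin⟩ := Set.exists_min_image _ id hfin hne
  refine ⟨y, hy.1.1, hy.2, fun z hz hxz => ?_⟩
  by_cases h : z < y0 + 1
  · exact hmin z ⟨⟨hz, h⟩, hxz⟩
  · have : y < y0 + 1 := hy.1.2
    linarith [not_lt.mp h]

/-- the next exponent -/
noncomputable def nextE (x : ℝ) : ℝ := (exists_next hI hu x).choose

theorem nextE_mem (x : ℝ) : nextE hI hu x ∈ I := (exists_next hI hu x).choose_spec.1

theorem lt_nextE (x : ℝ) : x < nextE hI hu x := (exists_next hI hu x).choose_spec.2.1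

theorem nextE_le (x : ℝ) {z : ℝ} (hz : z ∈ I) (h : x < z) : nextE hI hu x ≤ z :=
  (exists_next hI hu x).choose_spec.2.2 z hz h

include hI hu in
/-- the enumeration of a locally finite unbounded set with least element `m` -/
theorem exists_enum {m : ℝ} (hm : IsLeast I m) : ∃ i : ℕ → ℝ, StrictMono i ∧ i 0 = m ∧
    Tendsto i atTop atTop ∧ (∀ k, i k ∈ I) ∧ ∀ N, I ∩ Set.Iio (i N) = i '' (Set.Iio N) := by
  let i : ℕ → ℝ := fun k => Nat.rec m (fun _ x => nextE hI hu x) k
  have hi0 : i 0 = m := rfl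
  have his : ∀ k, i (k + 1) = nextE hI hu (i k) := fun k => rfl
  have hmono : StrictMono i := strictMono_nat_of_lt_succ fun k => by
    rw [his]; exact lt_nextE hI hu _
  have hmem : ∀ k, i k ∈ I := by
    intro k
    cases k with
    | zero => exact hm.1
    | succ k => rw [his]; exact nextE_mem hI hu _
  have hinit : ∀ N, I ∩ Set.Iio (i N) = i '' (Set.Iio N) := by
    intro N
    induction N with
    | zero =>
      ext x
      simp only [Set.mem_inter_iff, Set.mem_Iio, Set.mem_image, not_lt_zero, false_and,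
        exists_false, iff_false, not_and, not_lt]
      exact fun hx => hm.2 hx
    | succ N ih =>
      ext x
      constructor
      · rintro ⟨hx, hxN⟩
        rcases lt_trichotomy x (i N) with h | h | h
        · have : x ∈ i '' (Set.Iio N) := ih ▸ ⟨hx, h⟩
          obtain ⟨k, hk, rfl⟩ := this
          exact ⟨k, Nat.lt_succ_of_lt hk, rfl⟩
        · exact ⟨N, Nat.lt_succ_self N, h.symm⟩
        · have h1 := nextE_le hI hu (i N) hx h
          rw [← his] at h1
          exact absurd hxN (not_lt.mpr h1)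
      · rintro ⟨k, hk, rfl⟩
        exact ⟨hmem k, hmono hk⟩
  refine ⟨i, hmono, hi0, ?_, hmem, hinit⟩
  refine tendsto_atTop_atTop_of_monotone hmono.monotone fun T => ?_
  by_contra hcon
  push Not at hcon
  have hsub : Set.range i ⊆ I ∩ Set.Iio T := by
    rintro _ ⟨k, rfl⟩
    exact ⟨hmem k, hcon k⟩
  exact (Set.infinite_range_of_injective hmono.injective) ((hI T).subset hsub)

end Enum

end F526
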