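import Pool.Agent.Lib.MP_f52611_an.Alt
import Pool.Agent.Lib.MP_f52611_an.InE
import Pool.Agent.Lib.MP_f52611_an.BasicSum

open Filter Topology Asymptotics Set

namespace F526

/-! ### The class with real order -/

/-- `f` has an expansion in the single-logarithm class up to `O(t^R (1 + log(1/t)))`. -/
def InR (R : ℝ) (f : ℝ → ℝ) : Prop :=
  ∃ s ∈ Elem, (fun t => f t - s t) =O[𝓝[>] 0] (fun t : ℝ => t ^ R * (1 + Real.log (1 / t)))

lemma eventually_small {c : ℝ} (hc : 0 < c) : ∀ᶠ t : ℝ in 𝓝[>] 0, 0 < t ∧ t < c := by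
  have h1 : ∀ᶠ t : ℝ in 𝓝[>] 0, 0 < t := self_mem_nhdsWithin
  have h2 : ∀ᶠ t : ℝ in 𝓝[>] 0, t < c := mem_nhdsWithin_of_mem_nhds (Iio_mem_nhds hc)
  exact h1.and h2

lemma InR.toInE {K : ℕ} {f : ℝ → ℝ} (h : InR K f) : InE K f := by
  obtain ⟨s, hs, hO⟩ := h
  refine ⟨s, hs, hO.congr_right fun t => ?_⟩
  rw [Real.rpow_natCast]

lemma InR.congr {R : ℝ} {f g : ℝ → ℝ} (h : InR R f) (hfg : ∀ᶠ t in 𝓝[>] (0 : ℝ), f t = g t) :
    InR R g := by
  obtain ⟨s, hs, hO⟩ := h
  refine ⟨s, hs, hO.congr' ?_ EventuallyEq.rfl⟩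
  filter_upwards [hfg] with t ht
  rw [ht]

lemma InR.mono {R R' : ℝ} (hR : R' ≤ R) {f : ℝ → ℝ} (h : InR R f) : InR R' f := by
  obtain ⟨s, hs, hO⟩ := h
  refine ⟨s, hs, hO.trans (IsBigO.of_bound 1 ?_)⟩
  filter_upwards [eventually_small one_pos] with t ht
  have h1 := one_le_log_part ht.1 ht.2
  have h2 := Real.rpow_le_rpow_of_exponent_ge ht.1 ht.2.le hR
  have h3 := Real.rpow_pos_of_pos ht.1 R
  have h4 := Real.rpow_pos_of_pos ht.1 R'
  rw [Real.norm_of_nonneg (by positivity), Real.norm_of_nonneg (by positivity), one_mul]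
  gcongr

lemma InR.add {R : ℝ} {f g : ℝ → ℝ} (hf : InR R f) (hg : InR R g) : InR R (fun t => f t + g t) := by
  obtain ⟨s, hs, hO⟩ := hf
  obtain ⟨s', hs', hO'⟩ := hg
  refine ⟨s + s', Elem.add_mem hs hs', (hO.add hO').congr_left fun t => ?_⟩
  simp only [Pi.add_apply]; ring

lemma InR.const_mul {R : ℝ} {f : ℝ → ℝ} (hf : InR R f) (c : ℝ) : InR R (fun t => c * f t) := by
  obtain ⟨s, hs, hO⟩ := hf
  refine ⟨c • s, Elem.smul_mem c hs, (hO.const_mul_left c).congr_left fun t => ?_⟩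
  simp only [Pi.smul_apply, smul_eq_mul]; ring

lemma InR.of_isBigO {R : ℝ} {f : ℝ → ℝ}
    (h : f =O[𝓝[>] 0] (fun t : ℝ => t ^ R * (1 + Real.log (1 / t)))) : InR R f :=
  ⟨0, Elem.zero_mem, by simpa using h⟩

lemma InR.zero (R : ℝ) : InR R (fun _ => 0) := InR.of_isBigO (isBigO_zero _ _)

lemma InR.of_elem {R : ℝ} {s : ℝ → ℝ} (h : s ∈ Elem) : InR R s :=
  ⟨s, h, by simpa using isBigO_zero _ _⟩

lemma InR.sum {ι : Type*} (u : Finset ι) {R : ℝ} {f : ι → ℝ → ℝ} (hf : ∀ i ∈ u, InR R (f i)) :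
    InR R (fun t => ∑ i ∈ u, f i t) := by
  classical
  induction u using Finset.induction_on with
  | empty => simpa using InR.zero R
  | insert a u ha ih =>
    refine ((hf a (Finset.mem_insert_self a u)).add
      (ih fun i hi => hf i (Finset.mem_insert_of_mem hi))).congr (Eventually.of_forall fun t => ?_)
    simp only [Finset.sum_insert ha]

lemma rpow_mem_Elem (ρ : ℝ) : (fun t : ℝ => t ^ ρ) ∈ Elem :=
  Submodule.subset_span (Or.inl ⟨ρ, rfl⟩)

lemma pow_log_mem_Elem (n : ℕ) : (fun t : ℝ => t ^ n * Real.log (1 / t)) ∈ Elem :=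
  Submodule.subset_span (Or.inr ⟨n, rfl⟩)

/-- multiplication by `t ^ l` -/
lemma Elem_mul_pow (l : ℕ) {s : ℝ → ℝ} (hs : s ∈ Elem) :
    ∃ s' ∈ Elem, ∀ t : ℝ, 0 < t → s' t = t ^ l * s t := by
  induction hs using Submodule.span_induction with
  | mem f hf =>
    rcases hf with ⟨ρ, rfl⟩ | ⟨n, rfl⟩
    · refine ⟨_, rpow_mem_Elem (l + ρ), fun t ht => ?_⟩
      rw [Real.rpow_add ht, Real.rpow_natCast]
    · refine ⟨_, pow_log_mem_Elem (l + n), fun t ht => ?_⟩
      simp only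
      rw [pow_add]; ring
  | zero => exact ⟨0, Elem.zero_mem, fun t _ => by simp⟩
  | add f g _ _ hf hg =>
    obtain ⟨s, hs, h⟩ := hf
    obtain ⟨s', hs', h'⟩ := hg
    refine ⟨s + s', Elem.add_mem hs hs', fun t ht => ?_⟩
    simp only [Pi.add_apply]
    rw [h t ht, h' t ht]; ring
  | smul c f _ hf =>
    obtain ⟨s, hs, h⟩ := hf
    refine ⟨c • s, Elem.smul_mem c hs, fun t ht => ?_⟩
    simp only [Pi.smul_apply, smul_eq_mul]
    rw [h t ht]; ring

lemma InR.pow_mul {R : ℝ} {f : ℝ → ℝ} (hf : InR R f) (l : ℕ) :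
    InR (l + R) (fun t => t ^ l * f t) := by
  obtain ⟨s, hs, hO⟩ := hf
  obtain ⟨s', hs', h⟩ := Elem_mul_pow l hs
  refine ⟨s', hs', ?_⟩
  have h1 := (isBigO_refl (fun t : ℝ => t ^ l) (𝓝[>] 0)).mul hO
  refine h1.congr' ?_ ?_
  · filter_upwards [eventually_small one_pos] with t ht
    rw [h t ht.1]; ring
  · filter_upwards [eventually_small one_pos] with t ht
    rw [Real.rpow_add ht.1, Real.rpow_natCast]; ring

/-! ### Integration -/

/-- primitives of the elements -/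
lemma Elem_primitive {s : ℝ → ℝ} (hs : s ∈ Elem) :
    ∃ S ∈ Elem, ∀ t : ℝ, 0 < t → HasDerivAt S (s t) t := by
  induction hs using Submodule.span_induction with
  | mem f hf =>
    have hlog : ∀ t : ℝ, 0 < t → HasDerivAt (fun t : ℝ => Real.log (1 / t)) (-t⁻¹) t := by
      intro t ht
      have h1 : HasDerivAt (fun t : ℝ => -Real.log t) (-t⁻¹) t := (Real.hasDerivAt_log ht.ne').neg
      refine h1.congr_of_eventuallyEq (Eventually.of_forall fun u => ?_)
      simp
    rcases hf with ⟨ρ, rfl⟩ | ⟨n, rfl⟩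
    · by_cases hρ : ρ = -1
      · refine ⟨(-1 : ℝ) • fun t : ℝ => t ^ 0 * Real.log (1 / t),
          Elem.smul_mem _ (pow_log_mem_Elem 0), fun t ht => ?_⟩
        have h1 := (hlog t ht).const_mul (-1)
        simp only [hρ, Real.rpow_neg_one]
        refine (h1.congr_deriv (by ring)).congr_of_eventuallyEq (Eventually.of_forall fun u => ?_)
        simp
      · have hρ' : ρ + 1 ≠ 0 := fun h => hρ (by linarith)
        refine ⟨(ρ + 1)⁻¹ • fun t : ℝ => t ^ (ρ + 1), Elem.smul_mem _ (rpow_mem_Elem _),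
          fun t ht => ?_⟩
        have h1 := (Real.hasDerivAt_rpow_const (x := t) (p := ρ + 1) (Or.inl ht.ne')).const_mul
          (ρ + 1)⁻¹
        refine (h1.congr_deriv ?_).congr_of_eventuallyEq (Eventually.of_forall fun u => ?_)
        · rw [add_sub_cancel_right]; field_simp
        · simp
    · refine ⟨((n + 1 : ℝ))⁻¹ • (fun t : ℝ => t ^ (n + 1) * Real.log (1 / t)) +
        ((n + 1 : ℝ))⁻¹ ^ 2 • fun t : ℝ => t ^ ((n : ℝ) + 1), Elem.add_mem
          (Elem.smul_mem _ (pow_log_mem_Elem _)) (Elem.smul_mem _ (rpow_mem_Elem _)),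
          fun t ht => ?_⟩
      have h1 := (((hasDerivAt_pow (n + 1) t).mul (hlog t ht)).const_mul ((n + 1 : ℝ))⁻¹).add
        ((Real.hasDerivAt_rpow_const (x := t) (p := (n : ℝ) + 1) (Or.inl ht.ne')).const_mul
          (((n + 1 : ℝ))⁻¹ ^ 2))
      refine (h1.congr_deriv ?_).congr_of_eventuallyEq (Eventually.of_forall fun u => ?_)
      · have h2 : (n : ℝ) + 1 ≠ 0 := by positivity
        rw [add_sub_cancel_right, Real.rpow_natCast, Nat.add_sub_cancel, pow_succ]
        push_cast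
        field_simp
        ring
      · simp
  | zero => exact ⟨0, Elem.zero_mem, fun t _ => hasDerivAt_const t (0 : ℝ)⟩
  | add f g _ _ hf hg =>
    obtain ⟨s, hs, h⟩ := hf
    obtain ⟨s', hs', h'⟩ := hg
    exact ⟨s + s', Elem.add_mem hs hs', fun t ht => (h t ht).add (h' t ht)⟩
  | smul c f _ hf =>
    obtain ⟨s, hs, h⟩ := hf
    exact ⟨c • s, Elem.smul_mem c hs, fun t ht => (h t ht).const_smul c⟩

/-- A function with derivative dominated by the derivative of `B ≥ 0` is within `B` of a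
constant. -/
lemma exists_const_bound {h h' B B' : ℝ → ℝ} {t₀ : ℝ} (ht₀ : 0 < t₀)
    (hh : ∀ t, 0 < t → t < t₀ → HasDerivAt h (h' t) t)
    (hB : ∀ t, 0 < t → t < t₀ → HasDerivAt B (B' t) t)
    (hle : ∀ t, 0 < t → t < t₀ → |h' t| ≤ B' t) (hB0 : ∀ t, 0 < t → t < t₀ → 0 ≤ B t) :
    ∃ c, ∀ t, 0 < t → t < t₀ → |h t - c| ≤ B t := by
  have hconv : Convex ℝ (Ioo 0 t₀) := convex_Ioo 0 t₀
  have hmono : MonotoneOn (fun t => h t + B t) (Ioo 0 t₀) := by
    refine monotoneOn_of_deriv_nonneg hconv ?_ ?_ ?_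
    · exact fun t ht => ((hh t ht.1 ht.2).add (hB t ht.1 ht.2)).continuousAt.continuousWithinAt
    · rw [interior_Ioo]
      exact fun t ht =>
        ((hh t ht.1 ht.2).add (hB t ht.1 ht.2)).differentiableAt.differentiableWithinAt
    · rw [interior_Ioo]
      intro t ht
      have h1 : deriv (fun t => h t + B t) t = h' t + B' t :=
        ((hh t ht.1 ht.2).add (hB t ht.1 ht.2)).deriv
      rw [h1]
      have := neg_abs_le (h' t)
      have := hle t ht.1 ht.2
      linarith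
  have hanti : AntitoneOn (fun t => h t - B t) (Ioo 0 t₀) := by
    refine antitoneOn_of_deriv_nonpos hconv ?_ ?_ ?_
    · exact fun t ht => ((hh t ht.1 ht.2).sub (hB t ht.1 ht.2)).continuousAt.continuousWithinAt
    · rw [interior_Ioo]
      exact fun t ht =>
        ((hh t ht.1 ht.2).sub (hB t ht.1 ht.2)).differentiableAt.differentiableWithinAt
    · rw [interior_Ioo]
      intro t ht
      have h1 : deriv (fun t => h t - B t) t = h' t - B' t :=
        ((hh t ht.1 ht.2).sub (hB t ht.1 ht.2)).deriv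
      rw [h1]
      have := le_abs_self (h' t)
      have := hle t ht.1 ht.2
      linarith
  have key : ∀ u ∈ Ioo 0 t₀, ∀ t ∈ Ioo 0 t₀, h t - B t ≤ h u + B u := by
    intro u hu t ht
    have hBu := hB0 u hu.1 hu.2
    have hBt := hB0 t ht.1 ht.2
    rcases le_total u t with hut | hut
    · have := hanti hu ht hut
      simp only at this
      linarith
    · have := hmono ht hu hut
      simp only at this
      linarith
  refine ⟨sInf ((fun u => h u + B u) '' Ioo 0 t₀), fun t h1 h2 => ?_⟩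
  have hne : ((fun u => h u + B u) '' Ioo 0 t₀).Nonempty := ⟨_, t, ⟨h1, h2⟩, rfl⟩
  have hlow : h t - B t ≤ sInf ((fun u => h u + B u) '' Ioo 0 t₀) := by
    refine le_csInf hne ?_
    rintro _ ⟨u, hu, rfl⟩
    exact key u hu t ⟨h1, h2⟩
  have hup : sInf ((fun u => h u + B u) '' Ioo 0 t₀) ≤ h t + B t := by
    refine csInf_le ⟨h t - B t, ?_⟩ ⟨t, ⟨h1, h2⟩, rfl⟩
    rintro _ ⟨u, hu, rfl⟩
    exact key u hu t ⟨h1, h2⟩
  rw [abs_le]
  constructor <;> linarith

lemma InR.integrate {R : ℝ} (hR : 0 ≤ R) {f g : ℝ → ℝ} (hfg : ∀ t, 0 < t → HasDerivAt f (g t) t)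
    (hg : InR R g) : InR (R + 1) f := by
  obtain ⟨s, hs, hO⟩ := hg
  obtain ⟨S, hS, hS'⟩ := Elem_primitive hs
  obtain ⟨C, hC0, hC⟩ := hO.exists_pos
  obtain ⟨δ, hδ, hδ'⟩ := mem_nhdsGT_iff_exists_Ioo_subset.mp hC.bound
  have hδ0 : (0 : ℝ) < δ := hδ
  set t₀ : ℝ := min δ (Real.exp (-1))
  have ht₀0 : 0 < t₀ := lt_min hδ0 (Real.exp_pos _)
  obtain ⟨c, hc⟩ := exists_const_bound (h := fun t => f t - S t) (h' := fun t => g t - s t)
    (B := fun t => 2 * C * (t ^ (R + 1) * (1 + Real.log (1 / t))))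
    (B' := fun t => 2 * C * ((R + 1) * t ^ R * (1 + Real.log (1 / t)) + t ^ (R + 1) * (-t⁻¹)))
    ht₀0 (fun t h0 _ => (hfg t h0).sub (hS' t h0))
    (fun t h0 _ => by
      have hlog : HasDerivAt (fun t : ℝ => 1 + Real.log (1 / t)) (-t⁻¹) t := by
        have h1 : HasDerivAt (fun t : ℝ => 1 + -Real.log t) (-t⁻¹) t :=
          (Real.hasDerivAt_log h0.ne').neg.const_add 1
        refine h1.congr_of_eventuallyEq (Eventually.of_forall fun u => ?_)
        simp
      have h2 := ((Real.hasDerivAt_rpow_const (x := t) (p := R + 1)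
        (Or.inl h0.ne')).mul hlog).const_mul (2 * C)
      rw [add_sub_cancel_right] at h2
      exact h2)
    (fun t h0 h1 => by
      have h2 : t < δ := h1.trans_le (min_le_left _ _)
      have h3 : t < Real.exp (-1) := h1.trans_le (min_le_right _ _)
      have h4 := hδ' ⟨h0, h2⟩
      have hlog : 1 ≤ Real.log (1 / t) := by
        rw [one_div, Real.log_inv]
        have := Real.log_lt_log h0 h3
        rw [Real.log_exp] at this
        linarith
      have htR : 0 < t ^ R := Real.rpow_pos_of_pos h0 R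
      simp only [Set.mem_ofPred_eq] at h4
      rw [Real.norm_eq_abs, Real.norm_of_nonneg (by positivity)] at h4
      refine h4.trans ?_
      have h5 : t ^ (R + 1) * (-t⁻¹) = -t ^ R := by
        rw [Real.rpow_add h0, Real.rpow_one]
        field_simp
      rw [h5]
      have h6 : (1 + Real.log (1 / t)) ≤
          2 * ((R + 1) * (1 + Real.log (1 / t)) - 1) := by nlinarith
      calc C * (t ^ R * (1 + Real.log (1 / t)))
          ≤ C * (t ^ R * (2 * ((R + 1) * (1 + Real.log (1 / t)) - 1))) := by gcongr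
        _ = _ := by ring)
    (fun t h0 h1 => by
      have h3 : t < Real.exp (-1) := h1.trans_le (min_le_right _ _)
      have h4 : t < 1 := h3.trans (by rw [Real.exp_lt_one_iff]; norm_num)
      have h5 := one_le_log_part h0 h4
      have htR : 0 < t ^ (R + 1) := Real.rpow_pos_of_pos h0 _
      positivity)
  refine ⟨S + c • fun t : ℝ => t ^ (0 : ℝ), Elem.add_mem hS (Elem.smul_mem c (rpow_mem_Elem 0)),
    IsBigO.of_bound (2 * C) ?_⟩
  filter_upwards [eventually_small ht₀0] with t ht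
  have h3 : t < Real.exp (-1) := ht.2.trans_le (min_le_right _ _)
  have h4 : t < 1 := h3.trans (by rw [Real.exp_lt_one_iff]; norm_num)
  have h5 := one_le_log_part ht.1 h4
  have htR : 0 < t ^ (R + 1) := Real.rpow_pos_of_pos ht.1 _
  rw [Real.norm_eq_abs, Real.norm_of_nonneg (by positivity)]
  simp only [Pi.add_apply, Pi.smul_apply, smul_eq_mul, Real.rpow_zero, mul_one]
  have := hc t ht.1 ht.2
  rw [← sub_sub]
  exact this

/-! ### Laplace sums -/

/-- `∑ φ_n exp(-κ t (n+1)^{2/3})` -/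
noncomputable def LS (κ : ℝ) (φ : ℕ → ℝ) (t : ℝ) : ℝ :=
  ∑' n, φ n * Real.exp (-(κ * t) * mon (2 / 3) n)

lemma crude' (p : ℝ) : ∃ C : ℝ, 0 ≤ C ∧ ∀ τ : ℝ, 0 < τ → τ < 1 →
    Summable (fun n : ℕ => mon p n * Real.exp (-τ * mon (2 / 3) n)) ∧
    ∑' n : ℕ, mon p n * Real.exp (-τ * mon (2 / 3) n) ≤ C * sc (p + 1) τ := crude p

lemma summable_mon_exp (p : ℝ) {τ : ℝ} (hτ : 0 < τ) :
    Summable (fun n : ℕ => mon p n * Real.exp (-τ * mon (2 / 3) n)) := by
  obtain ⟨C, -, hC⟩ := crude' p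
  have h1 := (hC (min τ (1 / 2)) (lt_min hτ (by norm_num))
    ((min_le_right _ _).trans_lt (by norm_num))).1
  refine Summable.of_nonneg_of_le (fun n => ?_) (fun n => ?_) h1
  · have := mon_pos p n
    positivity
  · have h2 := mon_pos p n
    have h3 := mon_pos (2 / 3) n
    have h4 : min τ (1 / 2) ≤ τ := min_le_left _ _
    refine mul_le_mul_of_nonneg_left (Real.exp_le_exp.mpr ?_) h2.le
    nlinarith

lemma exists_le_mon {φ : ℕ → ℝ} {p : ℝ} (hφ : φ =O[atTop] mon p) :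
    ∃ C, 0 ≤ C ∧ ∀ n, |φ n| ≤ C * mon p n := by
  have h1 := (isBigO_nat_atTop_iff (fun n h => absurd h (mon_pos p n).ne')).mp hφ
  obtain ⟨C, hC⟩ := h1
  refine ⟨|C|, abs_nonneg C, fun n => ?_⟩
  have h2 := hC n
  rw [Real.norm_eq_abs, Real.norm_of_nonneg (mon_pos p n).le] at h2
  exact h2.trans (mul_le_mul_of_nonneg_right (le_abs_self C) (mon_pos p n).le)

lemma summable_LS {φ : ℕ → ℝ} {p : ℝ} (hφ : φ =O[atTop] mon p) {τ : ℝ} (hτ : 0 < τ) :
    Summable (fun n : ℕ => φ n * Real.exp (-τ * mon (2 / 3) n)) := by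
  obtain ⟨C, -, hC⟩ := exists_le_mon hφ
  refine Summable.of_norm_bounded ((summable_mon_exp p hτ).mul_left C) fun n => ?_
  rw [norm_mul, Real.norm_eq_abs, Real.norm_of_nonneg (Real.exp_pos _).le, ← mul_assoc]
  exact mul_le_mul_of_nonneg_right (hC n) (Real.exp_pos _).le

lemma hasDerivAt_LS {κ : ℝ} (hκ : 0 < κ) {φ : ℕ → ℝ} {p : ℝ} (hφ : φ =O[atTop] mon p) {t : ℝ}
    (ht : 0 < t) :
    HasDerivAt (LS κ φ) (-κ * LS κ (fun n => φ n * mon (2 / 3) n) t) t := by
  obtain ⟨C, hC0, hC⟩ := exists_le_mon hφ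
  have hφ' : (fun n => φ n * mon (2 / 3) n) =O[atTop] mon (p + 2 / 3) := by
    refine (hφ.mul (isBigO_refl (mon (2 / 3)) atTop)).trans ?_
    refine (isBigO_refl _ _).congr_left fun n => ?_
    exact (mon_mul_apply p (2 / 3) n).symm
  have hsum := summable_LS (hφ'.norm_left) (τ := κ * (t / 2)) (by positivity)
  have h1 := hasDerivAt_tsum_of_isPreconnected (𝕜 := ℝ) (F := ℝ)
    (g := fun n t => φ n * Real.exp (-(κ * t) * mon (2 / 3) n))
    (g' := fun n t => -κ * (φ n * mon (2 / 3) n * Real.exp (-(κ * t) * mon (2 / 3) n)))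
    (u := fun n => κ * (‖φ n * mon (2 / 3) n‖ * Real.exp (-(κ * (t / 2)) * mon (2 / 3) n)))
    (t := Ioi (t / 2)) (y₀ := t) (y := t) (hsum.mul_left κ) isOpen_Ioi isPreconnected_Ioi
    (fun n y _ => by
      have h2 : HasDerivAt (fun t => -(κ * t) * mon (2 / 3) n) (-κ * mon (2 / 3) n) y := by
        have := ((hasDerivAt_id y).const_mul κ).neg.mul_const (mon (2 / 3) n)
        simpa using this
      exact (h2.exp.const_mul (φ n)).congr_deriv (by ring))
    (fun n y hy => by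
      rw [norm_mul, norm_neg, Real.norm_of_nonneg hκ.le, norm_mul,
        Real.norm_of_nonneg (Real.exp_pos _).le]
      have h3 := mon_pos (2 / 3) n
      have h4 : t / 2 < y := hy
      gcongr)
    (by rw [Set.mem_Ioi]; linarith) (summable_LS hφ (by positivity))
    (by rw [Set.mem_Ioi]; linarith)
  refine h1.congr_deriv ?_
  rw [tsum_mul_left]
  rfl

lemma one_le_rpow_neg {t q : ℝ} (h0 : 0 < t) (h1 : t < 1) (hq : 0 ≤ q) : 1 ≤ t ^ (-q) :=
  Real.one_le_rpow_of_pos_of_le_one_of_nonpos h0 h1.le (by linarith)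

lemma InR_LS_mon {κ : ℝ} (hκ : 0 < κ) {p q : ℝ} (hq : 0 ≤ q) (hp : p ≤ 1 + 2 / 3 * q) :
    InR (-q) (LS κ (mon p)) := by
  obtain ⟨c, hc⟩ := basic_sum p
  have htend : Tendsto (fun t : ℝ => κ * t) (𝓝[>] 0) (𝓝[>] 0) := by
    refine tendsto_nhdsWithin_iff.mpr ⟨?_, ?_⟩
    · have : Tendsto (fun t : ℝ => κ * t) (𝓝 0) (𝓝 (κ * 0)) := tendsto_id.const_mul κ
      rw [mul_zero] at this
      exact this.mono_left nhdsWithin_le_nhds
    · filter_upwards [self_mem_nhdsWithin] with t ht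
      exact mul_pos hκ ht
  have h1 := hc.comp_tendsto htend
  refine ⟨(c * κ ^ (-(3 / 2) * (p + 1))) • fun t : ℝ => t ^ (-(3 / 2) * (p + 1)),
    Elem.smul_mem _ (rpow_mem_Elem _), ?_⟩
  refine (h1.congr' ?_ EventuallyEq.rfl).trans ?_
  · filter_upwards [eventually_small one_pos] with t ht
    simp only [Function.comp_apply, Pi.smul_apply, smul_eq_mul]
    rw [Real.mul_rpow hκ.le ht.1.le, ← mul_assoc]
    rfl
  · set e : ℝ := -(3 / 2) * max (p - 1) 0 with he
    have hqe : -q ≤ e := by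
      rw [he]
      have : max (p - 1) 0 ≤ 2 / 3 * q := max_le (by linarith) (by positivity)
      linarith
    refine IsBigO.of_bound ((1 + |Real.log (1 / κ)|) * κ ^ e) ?_
    filter_upwards [eventually_small (lt_min one_pos (inv_pos.mpr hκ))] with t ht
    have ht1 : t < 1 := ht.2.trans_le (min_le_left _ _)
    have hκt : κ * t < 1 := by
      have : t < κ⁻¹ := ht.2.trans_le (min_le_right _ _)
      calc κ * t < κ * κ⁻¹ := by gcongr
        _ = 1 := mul_inv_cancel₀ hκ.ne'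
    have hκt0 : 0 < κ * t := mul_pos hκ ht.1
    have h2 := one_le_log_part ht.1 ht1
    have h3 := one_le_log_part hκt0 hκt
    have h4 : 0 < κ ^ e := Real.rpow_pos_of_pos hκ e
    have h5 : 0 < t ^ e := Real.rpow_pos_of_pos ht.1 e
    have h6 : 0 < t ^ (-q) := Real.rpow_pos_of_pos ht.1 _
    have h7 : t ^ e ≤ t ^ (-q) := Real.rpow_le_rpow_of_exponent_ge ht.1 ht1.le hqe
    simp only [Function.comp_apply]
    rw [Real.mul_rpow hκ.le ht.1.le, Real.norm_of_nonneg (by positivity),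
      Real.norm_of_nonneg (by positivity)]
    have h8 : 1 + Real.log (1 / (κ * t)) ≤ (1 + |Real.log (1 / κ)|) * (1 + Real.log (1 / t)) := by
      have h9 : Real.log (1 / (κ * t)) = Real.log (1 / κ) + Real.log (1 / t) := by
        rw [← Real.log_mul (by positivity) (one_div_pos.mpr ht.1).ne']
        congr 1
        field_simp
      rw [h9]
      have := le_abs_self (Real.log (1 / κ))
      have := abs_nonneg (Real.log (1 / κ))
      nlinarith
    calc (1 + Real.log (1 / (κ * t))) * (κ ^ e * t ^ e)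
        ≤ ((1 + |Real.log (1 / κ)|) * (1 + Real.log (1 / t))) * (κ ^ e * t ^ (-q)) := by gcongr
      _ = _ := by ring

lemma LS_add {κ : ℝ} (hκ : 0 < κ) {φ φ' : ℕ → ℝ} {p : ℝ} (hφ : φ =O[atTop] mon p)
    (hφ' : φ' =O[atTop] mon p) {t : ℝ} (ht : 0 < t) :
    LS κ (fun n => φ n + φ' n) t = LS κ φ t + LS κ φ' t := by
  unfold LS
  rw [← (summable_LS hφ (mul_pos hκ ht)).tsum_add (summable_LS hφ' (mul_pos hκ ht))]
  exact tsum_congr fun n => by ring

lemma LS_const_mul (κ : ℝ) (c : ℝ) (φ : ℕ → ℝ) (t : ℝ) :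
    LS κ (fun n => c * φ n) t = c * LS κ φ t := by
  unfold LS
  rw [← tsum_mul_left]
  exact tsum_congr fun n => by ring

lemma InR_LS_PW {κ : ℝ} (hκ : 0 < κ) {G q : ℝ} (hq : 0 ≤ q) (hG : G ≤ 1 + 2 / 3 * q)
    {P : ℕ → ℝ} (hP : P ∈ PW G) : InR (-q) (LS κ P) := by
  induction hP using Submodule.span_induction with
  | mem f hf =>
    obtain ⟨ρ, hρ, rfl⟩ := hf
    exact InR_LS_mon hκ hq (hρ.trans hG)
  | zero =>
    refine (InR.zero (-q)).congr (Eventually.of_forall fun t => ?_)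
    simp [LS]
  | add f g hf' hg' hf hg =>
    refine (hf.add hg).congr ?_
    filter_upwards [eventually_small one_pos] with t ht
    exact (LS_add hκ (PW_isBigO hf') (PW_isBigO hg') ht.1).symm
  | smul c f _ hf =>
    refine (hf.const_mul c).congr (Eventually.of_forall fun t => ?_)
    exact (LS_const_mul κ c f t).symm

lemma InR_LS_bounded {κ : ℝ} (hκ : 0 < κ) {q : ℝ} (hq : 0 ≤ q) {φ : ℕ → ℝ}
    (hφ : φ =O[atTop] mon (-2)) : InR (-q) (LS κ φ) := by
  obtain ⟨C, hC0, hC⟩ := exists_le_mon hφ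
  have hsum : Summable (fun n => mon (-2) n) := by
    have h1 := (Real.summable_nat_rpow (p := -2)).mpr (by norm_num)
    have h2 := (summable_nat_add_iff 1).mpr h1
    refine h2.congr fun n => ?_
    unfold mon xb
    push_cast
    rfl
  refine InR.of_isBigO (IsBigO.of_bound (C * ∑' n, mon (-2) n) ?_)
  filter_upwards [eventually_small one_pos] with t ht
  have h2 := one_le_log_part ht.1 ht.2
  have h3 := one_le_rpow_neg ht.1 ht.2 hq
  have h4 : 0 ≤ ∑' n, mon (-2) n := tsum_nonneg fun n => (mon_pos _ n).le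
  have h5 : ‖LS κ φ t‖ ≤ C * ∑' n, mon (-2) n := by
    unfold LS
    rw [← tsum_mul_left]
    refine tsum_of_norm_bounded (hsum.mul_left C).hasSum fun n => ?_
    rw [norm_mul, Real.norm_eq_abs, Real.norm_of_nonneg (Real.exp_pos _).le]
    have h6 : Real.exp (-(κ * t) * mon (2 / 3) n) ≤ 1 := by
      rw [Real.exp_le_one_iff]
      have := mon_pos (2 / 3) n
      have := mul_pos (mul_pos hκ ht.1) this
      linarith
    calc |φ n| * Real.exp (-(κ * t) * mon (2 / 3) n) ≤ |φ n| * 1 := by gcongr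
      _ ≤ _ := by rw [mul_one]; exact hC n
  rw [Real.norm_of_nonneg (show 0 ≤ t ^ (-q) * (1 + Real.log (1 / t)) by positivity)]
  refine h5.trans ?_
  have h7 : 1 ≤ t ^ (-q) * (1 + Real.log (1 / t)) := by nlinarith
  exact le_mul_of_one_le_right (by positivity) h7

lemma InR_LS_base {κ : ℝ} (hκ : 0 < κ) {G q : ℝ} (hq : 0 ≤ q) (hG : G ≤ 1 + 2 / 3 * q)
    {φ : ℕ → ℝ} (hφ : PP G φ) : InR (-q) (LS κ φ) := by
  obtain ⟨P, hP, hO⟩ := hφ 2
  refine ((InR_LS_PW hκ hq hG hP).add (InR_LS_bounded hκ hq hO)).congr ?_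
  filter_upwards [eventually_small one_pos] with t ht
  have h1 := (PW_isBigO hP).trans (mon_isBigO (le_max_left G (-2)))
  have h2 := hO.trans (mon_isBigO (le_max_right G (-2)))
  rw [← LS_add hκ h1 h2 ht.1]
  congr 1
  ext n
  ring

lemma InR_LS_nat {κ : ℝ} (hκ : 0 < κ) (K : ℕ) : ∀ {G : ℝ}, G ≤ 1 - 2 / 3 * K →
    ∀ {φ : ℕ → ℝ}, PP G φ → InR K (LS κ φ) := by
  induction K with
  | zero =>
    intro G hG φ hφ
    have := InR_LS_base hκ le_rfl (by simpa using hG) hφ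
    simpa using this
  | succ K ih =>
    intro G hG φ hφ
    have h1 : PP (G + 2 / 3) (fun n => φ n * mon (2 / 3) n) := hφ.mul (PP.of_mon le_rfl)
    have h2 := (ih (by push_cast at hG; linarith) h1).const_mul (-κ)
    have h3 := InR.integrate (Nat.cast_nonneg K) (fun t ht => hasDerivAt_LS hκ hφ.isBigO ht) h2
    exact_mod_cast h3

lemma InR_pow_LS {κ : ℝ} (hκ : 0 < κ) (l : ℕ) {G : ℝ} (hG : G ≤ -(7 / 3) + 2 / 3 * l)
    {φ : ℕ → ℝ} (hφ : PP G φ) : InR 5 (fun t => t ^ l * LS κ φ t) := by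
  rcases le_or_gt l 5 with hl | hl
  · obtain ⟨k, hk⟩ := Nat.exists_eq_add_of_le hl
    have h5 : (5 : ℝ) = l + k := by exact_mod_cast hk
    have h1 := (InR_LS_nat hκ k (by linarith) hφ).pow_mul l
    rwa [← h5] at h1
  · have h5 : (5 : ℝ) < l := by exact_mod_cast hl
    have h1 := (InR_LS_base hκ (q := l - 5) (by linarith) (by linarith) hφ).pow_mul l
    have h2 : (l : ℝ) + -(l - 5) = 5 := by ring
    rwa [h2] at h1

/-! ### The theorem -/

lemma abs_exp_sub_sum_le (x : ℝ) (L : ℕ) :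
    |Real.exp x - ∑ m ∈ Finset.range L, x ^ m / m.factorial| ≤ |x| ^ L * Real.exp |x| := by
  have h := Complex.norm_exp_sub_sum_le_norm_mul_exp (x : ℂ) L
  have h1 : Complex.exp (x : ℂ) - ∑ m ∈ Finset.range L, (x : ℂ) ^ m / m.factorial =
      ((Real.exp x - ∑ m ∈ Finset.range L, x ^ m / m.factorial : ℝ) : ℂ) := by
    push_cast
    rfl
  rwa [h1, Complex.norm_real, Complex.norm_real, Real.norm_eq_abs, Real.norm_eq_abs] at h

theorem laplace_sum {ψ V : ℕ → ℝ} {κ ε : ℝ} (hκ : 0 < κ) (hε : 0 < ε) (hε1 : ε ≤ 1)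
    (hψ : PP (-(7 / 3)) ψ) (hV : PP (2 / 3 - ε) (fun n => V n - κ * mon (2 / 3) n))
    {K : ℕ} (hK : K ≤ 5) :
    InE K (fun t => ∑' n, ψ n * Real.exp (-t * V n)) := by
  apply InR.toInE
  refine InR.mono (R := 5) (by exact_mod_cast hK) ?_
  obtain ⟨Δ, hΔ⟩ : ∃ Δ : ℕ → ℝ, ∀ n, Δ n = V n - κ * mon (2 / 3) n := ⟨_, fun _ => rfl⟩
  have hΔPP : PP (2 / 3 - ε) Δ := hV.congr fun n => (hΔ n).symm
  obtain ⟨L, hL5, hLε⟩ : ∃ L : ℕ, 5 ≤ L ∧ 2 ≤ ε * L := by
    obtain ⟨L₀, hL₀⟩ := exists_nat_ge (2 / ε)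
    refine ⟨max 5 L₀, le_max_left _ _, ?_⟩
    have h1 : 2 / ε ≤ ((max 5 L₀ : ℕ) : ℝ) := hL₀.trans (by exact_mod_cast le_max_right _ _)
    rw [div_le_iff₀ hε] at h1
    linarith
  -- the main terms
  have hterm : ∀ l : ℕ, PP (-(7 / 3) + l * (2 / 3 - ε)) (fun n => ψ n * Δ n ^ l) := fun l =>
    hψ.mul (hΔPP.pow l)
  have hmain : InR 5 (fun t => ∑ l ∈ Finset.range L, ((-1) ^ l / l.factorial) *
      (t ^ l * LS κ (fun n => ψ n * Δ n ^ l) t)) := by
    refine InR.sum _ fun l _ => (InR_pow_LS hκ l ?_ (hterm l)).const_mul _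
    have : (0 : ℝ) ≤ l := Nat.cast_nonneg l
    nlinarith
  -- the remainder
  obtain ⟨E, hE⟩ : ∃ E : ℝ → ℕ → ℝ, ∀ t n, E t n = ψ n * Real.exp (-(κ * t) * mon (2 / 3) n) *
      (Real.exp (-t * Δ n) - ∑ l ∈ Finset.range L, (-t * Δ n) ^ l / l.factorial) :=
    ⟨_, fun _ _ => rfl⟩
  obtain ⟨C₁, hC₁0, hC₁⟩ := exists_le_mon hψ.isBigO
  obtain ⟨C₂, hC₂0, hC₂⟩ := exists_le_mon hΔPP.isBigO
  obtain ⟨C₃, hC₃⟩ : ∃ C₃ : ℝ, ∀ n, C₂ * mon (2 / 3 - ε) n - κ / 2 * mon (2 / 3) n ≤ C₃ := by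
    have h1 : ∀ᶠ n in atTop, C₂ * mon (2 / 3 - ε) n - κ / 2 * mon (2 / 3) n ≤ 0 := by
      have h2 := (mon_tendsto_zero (show -ε < 0 by linarith)).const_mul C₂
      rw [mul_zero] at h2
      filter_upwards [h2.eventually_le_const (show (0 : ℝ) < κ / 2 by positivity)] with n hn
      have h3 : mon (2 / 3 - ε) n = mon (-ε) n * mon (2 / 3) n := by
        rw [mon_mul_apply]; congr 1; ring
      rw [h3]
      have := mon_pos (2 / 3) n
      nlinarith
    have h4 : IsBoundedUnder (· ≤ ·) atTop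
        (fun n => C₂ * mon (2 / 3 - ε) n - κ / 2 * mon (2 / 3) n) := ⟨0, by simpa using h1⟩
    obtain ⟨C₃, hC₃⟩ := h4.bddAbove_range
    exact ⟨C₃, fun n => hC₃ ⟨n, rfl⟩⟩
  set p : ℝ := -(7 / 3) + L * (2 / 3 - ε) with hp
  set C₄ : ℝ := C₁ * C₂ ^ L * Real.exp |C₃| with hC₄
  have hC₄0 : 0 ≤ C₄ := by positivity
  have hEb : ∀ t, 0 < t → t < 1 → ∀ n, |E t n| ≤ C₄ * t ^ L *
      (mon p n * Real.exp (-(κ / 2 * t) * mon (2 / 3) n)) := by
    intro t h0 h1 n
    have h2 := abs_exp_sub_sum_le (-t * Δ n) L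
    have h3 : |-t * Δ n| = t * |Δ n| := by
      rw [abs_mul, abs_neg, abs_of_pos h0]
    rw [h3] at h2
    have h4 : t * |Δ n| ≤ κ / 2 * t * mon (2 / 3) n + |C₃| := by
      have h5 := hC₂ n
      have h6 := hC₃ n
      have h7 := le_abs_self C₃
      calc t * |Δ n| ≤ t * (κ / 2 * mon (2 / 3) n + |C₃|) := by
            gcongr; linarith
        _ ≤ _ := by
            have := abs_nonneg C₃
            nlinarith
    have h8 : (t * |Δ n|) ^ L ≤ t ^ L * (C₂ ^ L * mon (L * (2 / 3 - ε)) n) := by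
      rw [← mon_pow, ← mul_pow, ← mul_pow]
      gcongr
      exact hC₂ n
    rw [hE, abs_mul, abs_mul, abs_of_pos (Real.exp_pos _)]
    have hm1 := mon_pos (-(7 / 3)) n
    have hm2 := mon_pos (L * (2 / 3 - ε)) n
    calc |ψ n| * Real.exp (-(κ * t) * mon (2 / 3) n) *
          |Real.exp (-t * Δ n) - ∑ l ∈ Finset.range L, (-t * Δ n) ^ l / l.factorial|
        ≤ (C₁ * mon (-(7 / 3)) n) * Real.exp (-(κ * t) * mon (2 / 3) n) *
          ((t ^ L * (C₂ ^ L * mon (L * (2 / 3 - ε)) n)) *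
            Real.exp (κ / 2 * t * mon (2 / 3) n + |C₃|)) := by
          gcongr
          · exact hC₁ n
          · exact h2.trans (by gcongr)
      _ = _ := by
          rw [hC₄, hp, ← mon_mul_apply, Real.exp_add]
          have h9 : Real.exp (-(κ / 2 * t) * mon (2 / 3) n) =
              Real.exp (-(κ * t) * mon (2 / 3) n) * Real.exp (κ / 2 * t * mon (2 / 3) n) := by
            rw [← Real.exp_add]; congr 1; ring
          rw [h9]
          ring
  have hEsum : ∀ t, 0 < t → t < 1 → Summable (E t) := by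
    intro t h0 h1
    exact Summable.of_norm_bounded ((summable_mon_exp p (τ := κ / 2 * t) (by positivity)).mul_left
      (C₄ * t ^ L)) (hEb t h0 h1)
  have hEO : InR 5 (fun t => ∑' n, E t n) := by
    apply InR.of_isBigO
    obtain ⟨C₅, hC₅0, hC₅⟩ := crude' p
    set e : ℝ := -(3 / 2) * max (p + 1) 0 with he
    have hLe : (5 : ℝ) ≤ L + e := by
      rw [he]
      rcases le_total (p + 1) 0 with h | h
      · rw [max_eq_right h]
        have : (5 : ℝ) ≤ L := by exact_mod_cast hL5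
        linarith
      · rw [max_eq_left h, hp]
        nlinarith
    refine IsBigO.of_bound (C₄ * (C₅ * ((1 + |Real.log (1 / (κ / 2))|) * (κ / 2) ^ e))) ?_
    filter_upwards [eventually_small (lt_min one_pos (inv_pos.mpr (half_pos hκ)))] with t ht
    have ht1 : t < 1 := ht.2.trans_le (min_le_left _ _)
    have hκ2 : 0 < κ / 2 := half_pos hκ
    have hκt : κ / 2 * t < 1 := by
      have : t < (κ / 2)⁻¹ := ht.2.trans_le (min_le_right _ _)
      calc κ / 2 * t < κ / 2 * (κ / 2)⁻¹ := by gcongr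
        _ = 1 := mul_inv_cancel₀ hκ2.ne'
    have hκt0 : 0 < κ / 2 * t := mul_pos hκ2 ht.1
    have h2 := one_le_log_part ht.1 ht1
    have h4 : 0 < (κ / 2) ^ e := Real.rpow_pos_of_pos hκ2 e
    have h5 : 0 < t ^ e := Real.rpow_pos_of_pos ht.1 e
    have h0 := ht.1
    have h8 : 1 + Real.log (1 / (κ / 2 * t)) ≤
        (1 + |Real.log (1 / (κ / 2))|) * (1 + Real.log (1 / t)) := by
      have h9 : Real.log (1 / (κ / 2 * t)) = Real.log (1 / (κ / 2)) + Real.log (1 / t) := by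
        rw [← Real.log_mul (by positivity) (one_div_pos.mpr ht.1).ne']
        congr 1
        field_simp
      rw [h9]
      have := le_abs_self (Real.log (1 / (κ / 2)))
      have := abs_nonneg (Real.log (1 / (κ / 2)))
      nlinarith
    have h10 : ‖∑' n, E t n‖ ≤ C₄ * t ^ L *
        ∑' n, mon p n * Real.exp (-(κ / 2 * t) * mon (2 / 3) n) := by
      rw [← tsum_mul_left]
      exact tsum_of_norm_bounded ((summable_mon_exp p hκt0).mul_left (C₄ * t ^ L)).hasSum
        (hEb t ht.1 ht1)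
    have h11 : t ^ L * t ^ e ≤ t ^ (5 : ℝ) := by
      rw [← Real.rpow_natCast, ← Real.rpow_add ht.1]
      exact Real.rpow_le_rpow_of_exponent_ge ht.1 ht1.le hLe
    rw [Real.norm_of_nonneg (show 0 ≤ t ^ (5 : ℝ) * (1 + Real.log (1 / t)) by positivity)]
    refine h10.trans ?_
    calc C₄ * t ^ L * ∑' n, mon p n * Real.exp (-(κ / 2 * t) * mon (2 / 3) n)
        ≤ C₄ * t ^ L * (C₅ * sc (p + 1) (κ / 2 * t)) := by
          gcongr
          exact (hC₅ _ hκt0 hκt).2
      _ = C₄ * t ^ L * (C₅ * ((1 + Real.log (1 / (κ / 2 * t))) * ((κ / 2) ^ e * t ^ e))) := by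
          rw [sc, Real.mul_rpow hκ2.le ht.1.le]
      _ ≤ C₄ * t ^ L * (C₅ * (((1 + |Real.log (1 / (κ / 2))|) * (1 + Real.log (1 / t))) *
            ((κ / 2) ^ e * t ^ e))) := by gcongr
      _ = C₄ * (C₅ * ((1 + |Real.log (1 / (κ / 2))|) * (κ / 2) ^ e)) *
            ((t ^ L * t ^ e) * (1 + Real.log (1 / t))) := by ring
      _ ≤ _ := by gcongr
  -- the decomposition
  refine (hmain.add hEO).congr ?_
  filter_upwards [eventually_small one_pos] with t ht
  have hs : ∀ l ∈ Finset.range L, Summable fun n => ((-1) ^ l / l.factorial) *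
      (t ^ l * (ψ n * Δ n ^ l * Real.exp (-(κ * t) * mon (2 / 3) n))) := fun l _ =>
    ((summable_LS (hterm l).isBigO (mul_pos hκ ht.1)).mul_left _).mul_left _
  have h1 : ∑ l ∈ Finset.range L, ((-1) ^ l / l.factorial) *
      (t ^ l * LS κ (fun n => ψ n * Δ n ^ l) t) =
      ∑' n, ∑ l ∈ Finset.range L, ((-1) ^ l / l.factorial) *
      (t ^ l * (ψ n * Δ n ^ l * Real.exp (-(κ * t) * mon (2 / 3) n))) := by
    rw [Summable.tsum_finsetSum hs]
    refine Finset.sum_congr rfl fun l _ => ?_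
    rw [tsum_mul_left, tsum_mul_left]
    rfl
  rw [h1, ← (summable_sum hs).tsum_add (hEsum t ht.1 ht.2)]
  refine tsum_congr fun n => ?_
  have h2 : Real.exp (-t * V n) = Real.exp (-(κ * t) * mon (2 / 3) n) * Real.exp (-t * Δ n) := by
    rw [← Real.exp_add, hΔ]; congr 1; ring
  rw [hE, h2, mul_sub, Finset.mul_sum]
  have h3 : ∑ l ∈ Finset.range L, ((-1) ^ l / l.factorial) *
      (t ^ l * (ψ n * Δ n ^ l * Real.exp (-(κ * t) * mon (2 / 3) n))) =
      ∑ l ∈ Finset.range L, ψ n * Real.exp (-(κ * t) * mon (2 / 3) n) *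
        ((-t * Δ n) ^ l / l.factorial) := by
    refine Finset.sum_congr rfl fun l _ => ?_
    rw [mul_pow, neg_pow]
    ring
  rw [h3]
  ring

end F526
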