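import Pool.Agent.Lib.MP_f52611_an.TSum

open Filter Topology Asymptotics

namespace F526

lemma LS_exp1 {K x : ℝ} (hK : 0 ≤ K) (hx : x ≤ K) : |Real.exp x - 1| ≤ Real.exp K * |x| := by
  have hK1 : 1 ≤ Real.exp K := Real.one_le_exp hK
  rcases le_total 0 x with h | h
  · have h1 : 1 ≤ Real.exp x := Real.one_le_exp h
    rw [abs_of_nonneg (by linarith), abs_of_nonneg h]
    have h2 : 1 - x ≤ Real.exp (-x) := by
      have := Real.add_one_le_exp (-x); linarith
    have h3 : Real.exp x * Real.exp (-x) = 1 := by rw [← Real.exp_add]; simp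
    have h4 : Real.exp x ≤ Real.exp K := Real.exp_le_exp.mpr hx
    have h5 : 0 < Real.exp x := Real.exp_pos x
    nlinarith
  · have h1 : Real.exp x ≤ 1 := Real.exp_le_one_iff.mpr h
    rw [abs_of_nonpos (by linarith), abs_of_nonpos h]
    have h2 := Real.add_one_le_exp x
    nlinarith

lemma LS_exp2 {K x : ℝ} (hK : 0 ≤ K) (hx : x ≤ K) :
    |Real.exp x - 1 - x| ≤ Real.exp K * x ^ 2 := by
  have hK1 : 1 ≤ Real.exp K := Real.one_le_exp hK
  rcases le_total |x| 1 with h | h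
  · have h1 := Real.abs_exp_sub_one_sub_id_le h
    nlinarith [sq_nonneg x]
  · have h0 : 0 ≤ Real.exp x - 1 - x := by
      have := Real.add_one_le_exp x; linarith
    rw [abs_of_nonneg h0]
    have hx2 : |x| ≤ x ^ 2 := by
      rw [← sq_abs]; nlinarith [abs_nonneg x]
    rcases le_total 0 x with h2 | h2
    · rw [abs_of_nonneg h2] at h hx2
      have h4 : Real.exp x ≤ Real.exp K := Real.exp_le_exp.mpr hx
      nlinarith
    · rw [abs_of_nonpos h2] at h hx2
      have h1 : Real.exp x ≤ 1 := Real.exp_le_one_iff.mpr h2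
      nlinarith

lemma LS_exp3 {K x : ℝ} (hK : 0 ≤ K) (hx : x ≤ K) :
    |Real.exp x - 1 - x| ≤ 2 * Real.exp K * |x| := by
  have hK1 : 1 ≤ Real.exp K := Real.one_le_exp hK
  have h1 := LS_exp1 hK hx
  have h2 : |Real.exp x - 1 - x| ≤ |Real.exp x - 1| + |x| := abs_sub _ _
  have := abs_nonneg x
  nlinarith

/-- L2, file LinSum.lean -/
theorem lin_sum {φ V : ℕ → ℝ} (hφ : ∃ C, ∀ n, |φ n| ≤ C * mon (-(13 / 6)) n)
    (hV : ∃ C, ∀ n, |V n| ≤ C * mon (2 / 3) n) (hVl : ∃ C, ∀ n, -C ≤ V n) :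
    ∃ a0 : ℝ, (fun t => ∑' n, φ n * Real.exp (-t * V n) - a0) =O[𝓝[>] (0 : ℝ)]
      (fun t : ℝ => t) := by
  obtain ⟨C1, hφ⟩ := hφ
  obtain ⟨C2, hV⟩ := hV
  obtain ⟨C3, hVl⟩ := hVl
  have hC1 : 0 ≤ C1 := by
    have := (abs_nonneg _).trans (hφ 0)
    exact nonneg_of_mul_nonneg_left this (mon_pos _ _)
  have hC2 : 0 ≤ C2 := by
    have := (abs_nonneg _).trans (hV 0)
    exact nonneg_of_mul_nonneg_left this (mon_pos _ _)
  have hsφ : Summable φ := Summable.of_norm_bounded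
    ((summable_mon (by norm_num : (-(13 / 6) : ℝ) < -1)).mul_left C1) hφ
  refine ⟨∑' n, φ n, IsBigO.of_bound (Real.exp |C3| * C1 * C2 * ∑' n, mon (-(3 / 2)) n) ?_⟩
  filter_upwards [eventually_pos', eventually_lt' one_pos] with t ht ht1
  have hs32 := summable_mon (by norm_num : (-(3 / 2) : ℝ) < -1)
  have hb : ∀ n, |φ n * (Real.exp (-t * V n) - 1)|
      ≤ Real.exp |C3| * C1 * C2 * t * mon (-(3 / 2)) n := by
    intro n
    have h1 : -t * V n ≤ |C3| := by
      have h2 := hVl n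
      have h3 := le_abs_self C3
      have h4 := abs_nonneg C3
      nlinarith
    have h5 := LS_exp1 (abs_nonneg C3) h1
    rw [abs_mul]
    have h6 : |-t * V n| = t * |V n| := by rw [abs_mul, abs_neg, abs_of_pos ht]
    rw [h6] at h5
    have h7 : mon (-(3 / 2)) n = mon (-(13 / 6)) n * mon (2 / 3) n := by
      rw [mon_mul_apply]; norm_num
    calc |φ n| * |Real.exp (-t * V n) - 1|
        ≤ (C1 * mon (-(13 / 6)) n) * (Real.exp |C3| * (t * (C2 * mon (2 / 3) n))) := by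
          refine mul_le_mul (hφ n) (h5.trans ?_) (abs_nonneg _) ?_
          · exact mul_le_mul_of_nonneg_left (mul_le_mul_of_nonneg_left (hV n) ht.le)
              (Real.exp_pos _).le
          · exact mul_nonneg hC1 (mon_pos _ _).le
      _ = _ := by rw [h7]; ring
  have hsb : Summable fun n => Real.exp |C3| * C1 * C2 * t * mon (-(3 / 2)) n :=
    hs32.mul_left _
  have hsd : Summable fun n => φ n * (Real.exp (-t * V n) - 1) :=
    Summable.of_norm_bounded hsb hb
  have hse : Summable fun n => φ n * Real.exp (-t * V n) := by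
    refine (hsd.add hsφ).congr fun n => ?_
    ring
  have he : ∑' n, φ n * Real.exp (-t * V n) - ∑' n, φ n
      = ∑' n, φ n * (Real.exp (-t * V n) - 1) := by
    rw [← hse.tsum_sub hsφ]
    refine tsum_congr fun n => ?_
    ring
  rw [he, Real.norm_of_nonneg ht.le]
  calc ‖∑' n, φ n * (Real.exp (-t * V n) - 1)‖
      ≤ ∑' n, ‖φ n * (Real.exp (-t * V n) - 1)‖ := norm_tsum_le_tsum_norm hsd.norm
    _ ≤ ∑' n, Real.exp |C3| * C1 * C2 * t * mon (-(3 / 2)) n :=
        hsd.norm.tsum_le_tsum hb hsb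
    _ = _ := by rw [tsum_mul_left]; ring

/-- L3, file LinSum.lean -/
theorem quad_sum {φ V : ℕ → ℝ} (hφ : ∃ C, ∀ n, |φ n| ≤ C * mon (-(7 / 3)) n)
    (hV : ∃ C, ∀ n, |V n| ≤ C * mon (2 / 3) n) (hVl : ∃ C, ∀ n, -C ≤ V n) :
    ∃ a0 a1 : ℝ, (fun t => ∑' n, φ n * Real.exp (-t * V n) - (a0 + a1 * t)) =O[𝓝[>] (0 : ℝ)]
      (fun t : ℝ => t ^ 2 * (1 + Real.log (1 / t))) := by
  obtain ⟨C1, hφ⟩ := hφ
  obtain ⟨C2, hV⟩ := hV
  obtain ⟨C3, hVl⟩ := hVl
  have hC1 : 0 ≤ C1 := by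
    have := (abs_nonneg _).trans (hφ 0)
    exact nonneg_of_mul_nonneg_left this (mon_pos _ _)
  have hC2 : 0 ≤ C2 := by
    have := (abs_nonneg _).trans (hV 0)
    exact nonneg_of_mul_nonneg_left this (mon_pos _ _)
  have hsφ : Summable φ := Summable.of_norm_bounded
    ((summable_mon (by norm_num : (-(7 / 3) : ℝ) < -1)).mul_left C1) hφ
  have hs53 := summable_mon (by norm_num : (-(5 / 3) : ℝ) < -1)
  have h53 : ∀ n, mon (-(5 / 3)) n = mon (-(7 / 3)) n * mon (2 / 3) n := by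
    intro n; rw [mon_mul_apply]; norm_num
  have h1' : ∀ n, mon (-1) n = mon (-(7 / 3)) n * (mon (2 / 3) n) ^ 2 := by
    intro n; rw [sq, mon_mul_apply, mon_mul_apply]; norm_num
  have hφV : ∀ n, |φ n * V n| ≤ C1 * C2 * mon (-(5 / 3)) n := by
    intro n
    rw [abs_mul, h53]
    calc |φ n| * |V n| ≤ (C1 * mon (-(7 / 3)) n) * (C2 * mon (2 / 3) n) :=
          mul_le_mul (hφ n) (hV n) (abs_nonneg _) (mul_nonneg hC1 (mon_pos _ _).le)
      _ = _ := by ring
  have hsφV : Summable fun n => φ n * V n := Summable.of_norm_bounded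
    (hs53.mul_left (C1 * C2)) hφV
  obtain ⟨S, hS, htail⟩ := shift_tail (by norm_num : (-(5 / 3) : ℝ) < -1)
  set E := Real.exp |C3| with hE
  have hE0 : 0 < E := Real.exp_pos _
  refine ⟨∑' n, φ n, -∑' n, φ n * V n,
    IsBigO.of_bound (2 * E * C1 * C2 ^ 2 + 2 * E * C1 * C2 * S) ?_⟩
  filter_upwards [eventually_pos', eventually_lt' one_pos] with t ht ht1
  have hL : 0 ≤ Real.log (1 / t) := Real.log_nonneg (by rw [le_div_iff₀ ht]; linarith)
  set c : ℕ → ℝ := fun n => φ n * (Real.exp (-t * V n) - 1 - (-t * V n)) with hc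
  have hx : ∀ n, -t * V n ≤ |C3| := by
    intro n
    have h2 := hVl n
    have h3 := le_abs_self C3
    have h4 := abs_nonneg C3
    nlinarith
  have habs : ∀ n, |-t * V n| = t * |V n| := by
    intro n; rw [abs_mul, abs_neg, abs_of_pos ht]
  have hb1 : ∀ n, |c n| ≤ (2 * E * C1 * C2 * t) * mon (-(5 / 3)) n := by
    intro n
    have h5 := LS_exp3 (abs_nonneg C3) (hx n)
    rw [habs n] at h5
    rw [hc, abs_mul, h53]
    calc |φ n| * |Real.exp (-t * V n) - 1 - -t * V n|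
        ≤ (C1 * mon (-(7 / 3)) n) * (2 * E * (t * (C2 * mon (2 / 3) n))) := by
          refine mul_le_mul (hφ n) (h5.trans ?_) (abs_nonneg _) ?_
          · exact mul_le_mul_of_nonneg_left (mul_le_mul_of_nonneg_left (hV n) ht.le)
              (by positivity)
          · exact mul_nonneg hC1 (mon_pos _ _).le
      _ = _ := by ring
  have hb2 : ∀ n, |c n| ≤ (E * C1 * C2 ^ 2 * t ^ 2) * mon (-1) n := by
    intro n
    have h5 := LS_exp2 (abs_nonneg C3) (hx n)
    have h6 : (-t * V n) ^ 2 ≤ t ^ 2 * (C2 * mon (2 / 3) n) ^ 2 := by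
      have h7 : (-t * V n) ^ 2 = t ^ 2 * |V n| ^ 2 := by rw [sq_abs]; ring
      rw [h7]
      exact mul_le_mul_of_nonneg_left (pow_le_pow_left₀ (abs_nonneg _) (hV n) 2) (by positivity)
    rw [hc, abs_mul, h1']
    calc |φ n| * |Real.exp (-t * V n) - 1 - -t * V n|
        ≤ (C1 * mon (-(7 / 3)) n) * (E * (t ^ 2 * (C2 * mon (2 / 3) n) ^ 2)) := by
          refine mul_le_mul (hφ n) (h5.trans ?_) (abs_nonneg _) ?_
          · exact mul_le_mul_of_nonneg_left h6 hE0.le
          · exact mul_nonneg hC1 (mon_pos _ _).le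
      _ = _ := by ring
  have hsc : Summable c := Summable.of_norm_bounded (hs53.mul_left _) hb1
  have hse : Summable fun n => φ n * Real.exp (-t * V n) := by
    refine ((hsc.add hsφ).sub (hsφV.mul_left t)).congr fun n => ?_
    simp only [hc]; ring
  have he : ∑' n, φ n * Real.exp (-t * V n) - (∑' n, φ n + (-∑' n, φ n * V n) * t)
      = ∑' n, c n := by
    have e1 : (-∑' n, φ n * V n) * t = - ∑' n, t * (φ n * V n) := by
      rw [tsum_mul_left]; ring
    rw [e1, ← sub_eq_add_neg, ← hsφ.tsum_sub (hsφV.mul_left t),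
      ← hse.tsum_sub (hsφ.sub (hsφV.mul_left t))]
    refine tsum_congr fun n => ?_
    simp only [hc]; ring
  have hn : ‖t ^ 2 * (1 + Real.log (1 / t))‖ = t ^ 2 * (1 + Real.log (1 / t)) :=
    Real.norm_of_nonneg (by positivity)
  rw [he, hn, ← hsc.sum_add_tsum_nat_add (cut t)]
  have p1 : |∑ i ∈ Finset.range (cut t), c i|
      ≤ (E * C1 * C2 ^ 2 * t ^ 2) * (2 * (1 + Real.log (1 / t))) := by
    calc |∑ i ∈ Finset.range (cut t), c i| ≤ ∑ i ∈ Finset.range (cut t), |c i| :=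
          Finset.abs_sum_le_sum_abs _ _
      _ ≤ ∑ i ∈ Finset.range (cut t), (E * C1 * C2 ^ 2 * t ^ 2) * mon (-1) i :=
          Finset.sum_le_sum fun i _ => hb2 i
      _ = (E * C1 * C2 ^ 2 * t ^ 2) * ∑ i ∈ Finset.range (cut t), mon (-1) i := by
          rw [Finset.mul_sum]
      _ ≤ _ := mul_le_mul_of_nonneg_left (sum_mon_neg_one_le ht ht1) (by positivity)
  have p2 : |∑' i, c (i + cut t)| ≤ (2 * E * C1 * C2 * t) * (S * t) := by
    have h1 := (htail c (2 * E * C1 * C2 * t) (by positivity) (cut t) fun m _ => hb1 m).2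
    refine h1.trans (mul_le_mul_of_nonneg_left (mul_le_mul_of_nonneg_left ?_ hS.le)
      (by positivity))
    have h2 := mon_cut_le ht 1
    have h3 : (-(2 / 3) * ((1 : ℕ) : ℝ) : ℝ) = -(5 / 3) + 1 := by push_cast; ring
    rw [h3, pow_one] at h2
    exact h2
  have hL1 : 1 ≤ 1 + Real.log (1 / t) := by linarith
  calc ‖∑ i ∈ Finset.range (cut t), c i + ∑' i, c (i + cut t)‖
      ≤ |∑ i ∈ Finset.range (cut t), c i| + |∑' i, c (i + cut t)| := abs_add_le _ _
    _ ≤ (E * C1 * C2 ^ 2 * t ^ 2) * (2 * (1 + Real.log (1 / t)))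
        + (2 * E * C1 * C2 * t) * (S * t) := add_le_add p1 p2
    _ ≤ (E * C1 * C2 ^ 2 * t ^ 2) * (2 * (1 + Real.log (1 / t)))
        + (2 * E * C1 * C2 * t) * (S * t) * (1 + Real.log (1 / t)) := by
        refine add_le_add le_rfl ?_
        exact le_mul_of_one_le_right (by positivity) hL1
    _ = _ := by ring

end F526
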