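import Mathlib

set_option autoImplicit false

open Filter Topology Asymptotics

namespace F526

/-- exponential-linear sums plus a quadratic polynomial -/
private noncomputable def EL (S : Finset ℝ) (c d : ℝ → ℝ) (a b σ x : ℝ) : ℝ :=
  ∑ l ∈ S, (c l + d l * x) * Real.exp (l * x) + (a + b * x + σ * x ^ 2)

/-- one step of the difference operator -/
private lemma EL_step (S : Finset ℝ) (c d : ℝ → ℝ) (a b σ m x : ℝ) :
    EL S c d a b σ (x + 1) - Real.exp m * EL S c d a b σ x =
      EL S (fun l => Real.exp l * (c l + d l) - Real.exp m * c l)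
        (fun l => (Real.exp l - Real.exp m) * d l)
        (a + b + σ - Real.exp m * a) (b + 2 * σ - Real.exp m * b) ((1 - Real.exp m) * σ) x := by
  unfold EL
  rw [mul_add (Real.exp m), Finset.mul_sum]
  have : ∀ l, (c l + d l * (x + 1)) * Real.exp (l * (x + 1)) - Real.exp m * ((c l + d l * x) * Real.exp (l * x)) =
      (Real.exp l * (c l + d l) - Real.exp m * c l + (Real.exp l - Real.exp m) * d l * x) * Real.exp (l * x) := by
    intro l
    rw [show l * (x + 1) = l * x + l by ring, Real.exp_add]
    ring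
  rw [show ∀ A B C D : ℝ, A + B - (C + D) = (A - C) + (B - D) from fun A B C D => by ring]
  rw [← Finset.sum_sub_distrib, Finset.sum_congr rfl (fun l _ => this l)]
  congr 1
  ring

private lemma EL_unique (S : Finset ℝ) : (0 : ℝ) ∉ S → ∀ (c d : ℝ → ℝ) (a b σ : ℝ),
    (fun x => EL S c d a b σ x) =O[atTop] (fun x : ℝ => x) → σ = 0 := by
  induction S using Finset.induction_on with
  | empty =>
    intro _ c d a b σ h
    by_contra hσ
    have h1 : (fun x : ℝ => σ * x ^ 2) =O[atTop] (fun x : ℝ => x) := by
      have h2 : (fun x : ℝ => a + b * x) =O[atTop] (fun x : ℝ => x) := by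
        apply IsBigO.add
        · exact (isLittleO_const_id_atTop a).isBigO
        · exact (isBigO_refl _ _).const_mul_left b
      have h3 := h.sub h2
      refine h3.congr_left (fun x => ?_)
      simp [EL]
    have h4 : (fun x : ℝ => x ^ 2) =O[atTop] (fun x : ℝ => x) :=
      (isBigO_const_mul_left_iff hσ).1 h1
    obtain ⟨C, hC⟩ := h4.bound
    obtain ⟨x, hx1, hx2, hx3⟩ := (hC.and ((eventually_gt_atTop (|C| + 1)).and (eventually_gt_atTop 0))).exists
    rw [Real.norm_of_nonneg (by positivity), Real.norm_of_nonneg hx3.le] at hx1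
    have : C ≤ |C| := le_abs_self C
    nlinarith
  | insert m S hmS ih =>
    intro h0 c d a b σ h
    have hm0 : m ≠ 0 := by
      rintro rfl
      exact h0 (Finset.mem_insert_self _ _)
    have h0S : (0 : ℝ) ∉ S := fun h => h0 (Finset.mem_insert_of_mem h)
    -- the operator preserves the bound
    have hop : ∀ f : ℝ → ℝ, f =O[atTop] (fun x : ℝ => x) →
        (fun x => f (x + 1) - Real.exp m * f x) =O[atTop] (fun x : ℝ => x) := by
      intro f hf
      apply IsBigO.sub
      · have h1 : (fun x => f (x + 1)) =O[atTop] (fun x : ℝ => x + 1) :=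
          hf.comp_tendsto (tendsto_atTop_add_const_right atTop 1 tendsto_id)
        refine h1.trans ?_
        apply IsBigO.add (isBigO_refl _ _)
        exact (isLittleO_const_id_atTop (1 : ℝ)).isBigO
      · exact hf.const_mul_left _
    have h1 := hop _ h
    have h2 := h1.congr_left (EL_step (insert m S) c d a b σ m)
    have h3 := (hop _ h2).congr_left (EL_step (insert m S) _ _ _ _ _ m)
    have h4 : ∀ c' d' : ℝ → ℝ, c' m = 0 → d' m = 0 → ∀ a' b' σ' x,
        EL (insert m S) c' d' a' b' σ' x = EL S c' d' a' b' σ' x := by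
      intro c' d' hc' hd' a' b' σ' x
      unfold EL
      rw [Finset.sum_insert hmS, hc', hd']
      ring
    have h5 := h3.congr_left (fun x => h4 _ _ (by ring) (by ring) _ _ _ x)
    have h6 := ih h0S _ _ _ _ _ h5
    have h7 : 1 - Real.exp m ≠ 0 := by
      intro h8
      apply hm0
      have : Real.exp m = 1 := by linarith
      exact Real.exp_eq_one_iff _ |>.1 this
    rcases mul_eq_zero.1 h6 with h8 | h8
    · exact absurd h8 h7
    · rcases mul_eq_zero.1 h8 with h9 | h9
      · exact absurd h9 h7
      · exact h9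

private lemma span_form {s : ℝ → ℝ} (K : ℕ)
    (hs : s ∈ Submodule.span ℝ ({f | ∃ ρ : ℝ, f = fun t => t ^ ρ} ∪
      {f | ∃ ρ : ℝ, f = fun t : ℝ => t ^ ρ * Real.log (1 / t)} : Set (ℝ → ℝ))) :
    ∃ c d : ℝ →₀ ℝ, ∀ x : ℝ, s (Real.exp (-x)) * Real.exp (K * x) =
      (c.sum fun l r => r * Real.exp (l * x)) + (d.sum fun l r => r * x * Real.exp (l * x)) := by
  induction hs using Submodule.span_induction with
  | mem f hf =>
    rcases hf with ⟨ρ, rfl⟩ | ⟨ρ, rfl⟩
    · refine ⟨Finsupp.single (K - ρ) 1, 0, fun x => ?_⟩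
      simp only [Finsupp.sum_zero_index, add_zero]
      rw [Finsupp.sum_single_index (by simp), ← Real.exp_mul, ← Real.exp_add, one_mul]
      congr 1; ring
    · refine ⟨0, Finsupp.single (K - ρ) 1, fun x => ?_⟩
      simp only [Finsupp.sum_zero_index, zero_add]
      rw [Finsupp.sum_single_index (by simp), ← Real.exp_mul, one_mul, one_div, Real.log_inv,
        Real.log_exp, neg_neg, mul_right_comm, ← Real.exp_add, mul_comm]
      congr 2; ring
  | zero =>
    refine ⟨0, 0, fun x => ?_⟩
    simp
  | add f g _ _ hf hg =>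
    obtain ⟨c1, d1, h1⟩ := hf
    obtain ⟨c2, d2, h2⟩ := hg
    refine ⟨c1 + c2, d1 + d2, fun x => ?_⟩
    rw [Finsupp.sum_add_index' (by simp) (by intros; ring),
      Finsupp.sum_add_index' (by simp) (by intros; ring), Pi.add_apply, add_mul, h1, h2]
    ring
  | smul r f _ hf =>
    obtain ⟨c1, d1, h1⟩ := hf
    refine ⟨r • c1, r • d1, fun x => ?_⟩
    rw [Finsupp.sum_smul_index (by simp), Finsupp.sum_smul_index (by simp), Pi.smul_apply,
      smul_eq_mul, mul_assoc, h1, mul_add, Finsupp.mul_sum, Finsupp.mul_sum]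
    congr 1
    · apply Finsupp.sum_congr; intros; ring
    · apply Finsupp.sum_congr; intros; ring

theorem log_sq_unique {K : ℕ} {s : ℝ → ℝ}
    (hs : s ∈ Submodule.span ℝ ({f | ∃ ρ : ℝ, f = fun t => t ^ ρ} ∪
      {f | ∃ ρ : ℝ, f = fun t : ℝ => t ^ ρ * Real.log (1 / t)} : Set (ℝ → ℝ))) {σ : ℝ}
    (h : (fun t => s t + σ * (t ^ K * Real.log (1 / t) ^ 2)) =O[𝓝[>] 0]
      (fun t : ℝ => t ^ K * (1 + Real.log (1 / t)))) : σ = 0 := by
  classical
  obtain ⟨c, d, hcd⟩ := span_form K hs
  have htend : Tendsto (fun x : ℝ => Real.exp (-x)) atTop (𝓝[>] 0) := by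
    apply tendsto_nhdsWithin_iff.2
    refine ⟨?_, Eventually.of_forall fun x => Real.exp_pos _⟩
    exact Real.tendsto_exp_atBot.comp tendsto_neg_atTop_atBot
  have h1 := h.comp_tendsto htend
  have h2 : (fun x : ℝ => s (Real.exp (-x)) * Real.exp (K * x) + σ * x ^ 2) =O[atTop]
      (fun x : ℝ => 1 + x) := by
    have h3 := h1.mul (isBigO_refl (fun x : ℝ => Real.exp (K * x)) atTop)
    have hpow : ∀ x : ℝ, Real.exp (-x) ^ K * Real.exp (K * x) = 1 := by
      intro x
      rw [← Real.exp_nat_mul, ← Real.exp_add]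
      simp
    refine (h3.congr_left (fun x => ?_)).congr_right (fun x => ?_)
    · simp only [Function.comp]
      rw [one_div, Real.log_inv, Real.log_exp, neg_neg, add_mul]
      congr 1
      linear_combination σ * x ^ 2 * hpow x
    · simp only [Function.comp]
      rw [one_div, Real.log_inv, Real.log_exp, neg_neg]
      linear_combination (1 + x) * hpow x
  have h4 : (fun x : ℝ => s (Real.exp (-x)) * Real.exp (K * x) + σ * x ^ 2) =O[atTop]
      (fun x : ℝ => x) := by
    refine h2.trans ?_
    exact (isLittleO_const_id_atTop (1 : ℝ)).isBigO.add (isBigO_refl _ _)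
  set S : Finset ℝ := (c.support ∪ d.support).erase 0 with hS
  refine EL_unique S (Finset.notMem_erase _ _) c d (c 0) (d 0) σ (h4.congr_left fun x => ?_)
  rw [hcd x]
  unfold EL
  have e1 : (c.sum fun l r => r * Real.exp (l * x)) =
      ∑ l ∈ insert 0 (c.support ∪ d.support), c l * Real.exp (l * x) := by
    apply Finsupp.sum_of_support_subset
    · exact Finset.subset_union_left.trans (Finset.subset_insert _ _)
    · simp
  have e2 : (d.sum fun l r => r * x * Real.exp (l * x)) =
      ∑ l ∈ insert 0 (c.support ∪ d.support), d l * x * Real.exp (l * x) := by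
    apply Finsupp.sum_of_support_subset
    · exact Finset.subset_union_right.trans (Finset.subset_insert _ _)
    · simp
  have e3 : insert 0 (c.support ∪ d.support) = insert 0 S := by
    ext z; simp only [hS, Finset.mem_insert, Finset.mem_erase]; tauto
  rw [e1, e2, e3, Finset.sum_insert (Finset.notMem_erase _ _), Finset.sum_insert (Finset.notMem_erase _ _)]
  have e4 : ∑ l ∈ S, (c l + d l * x) * Real.exp (l * x) =
      ∑ l ∈ S, c l * Real.exp (l * x) + ∑ l ∈ S, d l * x * Real.exp (l * x) := by
    rw [← Finset.sum_add_distrib]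
    apply Finset.sum_congr rfl
    intro l _
    ring
  rw [e4]
  simp only [zero_mul, Real.exp_zero]
  ring

end F526
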