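import Pool.Agent.Lib.MP_f52611_an.TSum

open Filter Topology Asymptotics

namespace F526

lemma xb_cut {t : ℝ} (ht : 0 < t) (ht1 : t < 1) :
    t ^ (-(3 / 2) : ℝ) ≤ xb (cut t) ∧ xb (cut t) ≤ 2 * t ^ (-(3 / 2) : ℝ) := by
  have hy1 : 1 ≤ t ^ (-(3 / 2) : ℝ) :=
    Real.one_le_rpow_of_pos_of_le_one_of_nonpos ht ht1.le (by norm_num)
  constructor
  · exact (Nat.lt_floor_add_one (t ^ (-(3 / 2) : ℝ))).le
  · have := Nat.floor_le (show 0 ≤ t ^ (-(3 / 2) : ℝ) by linarith)
    unfold xb cut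
    linarith

/-- `log (xb (cut t)) = (3/2) log(1/t) + O(1)` -/
lemma log_cut {t : ℝ} (ht : 0 < t) (ht1 : t < 1) :
    0 ≤ Real.log (xb (cut t)) - 3 / 2 * Real.log (1 / t) ∧
      Real.log (xb (cut t)) - 3 / 2 * Real.log (1 / t) ≤ 1 := by
  have hy1 : 1 ≤ t ^ (-(3 / 2) : ℝ) :=
    Real.one_le_rpow_of_pos_of_le_one_of_nonpos ht ht1.le (by norm_num)
  obtain ⟨h1, h2⟩ := xb_cut ht ht1
  have h3 : Real.log (t ^ (-(3 / 2) : ℝ)) = 3 / 2 * Real.log (1 / t) := by
    rw [Real.log_rpow ht, one_div, Real.log_inv]; ring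
  rw [← h3]
  constructor
  · linarith [Real.log_le_log (by linarith) h1]
  · have h4 := Real.log_le_log (xb_pos _) h2
    rw [Real.log_mul (by norm_num) (by linarith)] at h4
    have := Real.log_two_lt_d9
    linarith

lemma mon_cut_upper {t : ℝ} (ht : 0 < t) (ht1 : t < 1) : mon (2 / 3) (cut t) ≤ 2 * t⁻¹ := by
  obtain ⟨h1, h2⟩ := xb_cut ht ht1
  have hy : 0 < t ^ (-(3 / 2) : ℝ) := Real.rpow_pos_of_pos ht _
  have h3 : mon (2 / 3) (cut t) ≤ (2 * t ^ (-(3 / 2) : ℝ)) ^ (2 / 3 : ℝ) :=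
    Real.rpow_le_rpow (xb_pos _).le h2 (by norm_num)
  rw [Real.mul_rpow (by norm_num) hy.le, rpow_aux ht] at h3
  have h4 : (2 : ℝ) ^ (2 / 3 : ℝ) ≤ 2 := by
    calc (2 : ℝ) ^ (2 / 3 : ℝ) ≤ (2 : ℝ) ^ (1 : ℝ) :=
          Real.rpow_le_rpow_of_exponent_le (by norm_num) (by norm_num)
      _ = 2 := Real.rpow_one 2
  exact h3.trans (mul_le_mul_of_nonneg_right h4 (inv_nonneg.mpr ht.le))

lemma log_xb_nonneg (n : ℕ) : 0 ≤ Real.log (xb n) := Real.log_nonneg (one_le_xb n)

lemma log_xb_mono {m n : ℕ} (h : m ≤ n) : Real.log (xb m) ≤ Real.log (xb n) := by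
  refine Real.log_le_log (xb_pos m) ?_
  unfold xb
  have : (m : ℝ) ≤ n := by exact_mod_cast h
  linarith

/-- tails with a logarithmic weight -/
lemma tail_log {γ : ℝ} (hγ : γ < -1) : ∃ S, 0 < S ∧ ∀ (b : ℝ), 0 ≤ b → b ≤ 1 →
    ∀ (c : ℕ → ℝ) (C : ℝ), 0 ≤ C →
    ∀ k : ℕ, (∀ m, k ≤ m → |c m| ≤ C * (mon γ m * (1 + b * Real.log (xb m)))) →
      Summable (fun i => c (i + k)) ∧
      |∑' i, c (i + k)| ≤ C * (S * (mon (γ + 1) k * (1 + b * Real.log (xb k)))) := by
  set δ : ℝ := (-1 - γ) / 2 with hδ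
  have hδ0 : 0 < δ := by rw [hδ]; linarith
  have hγ2 : γ + δ < -1 := by rw [hδ]; linarith
  obtain ⟨S1, hS1, h1⟩ := tsum_tail_mon_le hγ
  obtain ⟨S2, hS2, h2⟩ := tsum_tail_mon_le hγ2
  refine ⟨S1 + S2 / δ, by positivity, fun b hb hb1 c C hC k hc => ?_⟩
  have hs1 : Summable fun i => mon γ (i + k) := (summable_nat_add_iff k).mpr (summable_mon hγ)
  have hs2 : Summable fun i => mon (γ + δ) (i + k) :=
    (summable_nat_add_iff k).mpr (summable_mon hγ2)
  set W : ℝ := 1 + b * Real.log (xb k) with hW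
  have hW1 : 1 ≤ W := by
    have := mul_nonneg hb (log_xb_nonneg k)
    linarith
  have hbd : ∀ i, |c (i + k)| ≤ C * (W * mon γ (i + k)
      + (mon (-δ) k / δ) * mon (γ + δ) (i + k)) := by
    intro i
    refine (hc (i + k) (Nat.le_add_left _ _)).trans (mul_le_mul_of_nonneg_left ?_ hC)
    have hx := xb_pos (i + k)
    have hxk := xb_pos k
    have e1 : Real.log (xb (i + k)) = Real.log (xb k) + Real.log (xb (i + k) / xb k) := by
      rw [Real.log_div hx.ne' hxk.ne']; ring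
    have e2 : Real.log (xb (i + k) / xb k) ≤ (xb (i + k) / xb k) ^ δ / δ :=
      Real.log_le_rpow_div (by positivity) hδ0
    have e3 : (xb (i + k) / xb k) ^ δ = mon δ (i + k) * mon (-δ) k := by
      unfold mon
      rw [Real.div_rpow hx.le hxk.le, Real.rpow_neg hxk.le]
      rfl
    have e4 : b * Real.log (xb (i + k) / xb k) ≤ mon δ (i + k) * mon (-δ) k / δ := by
      have h0 : 0 ≤ mon δ (i + k) * mon (-δ) k / δ := by
        have := mon_pos δ (i + k); have := mon_pos (-δ) k; positivity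
      calc b * Real.log (xb (i + k) / xb k) ≤ b * (mon δ (i + k) * mon (-δ) k / δ) := by
            refine mul_le_mul_of_nonneg_left ?_ hb
            rw [← e3]; exact e2
        _ ≤ 1 * (mon δ (i + k) * mon (-δ) k / δ) := mul_le_mul_of_nonneg_right hb1 h0
        _ = _ := one_mul _
    have hm := mon_pos γ (i + k)
    calc mon γ (i + k) * (1 + b * Real.log (xb (i + k)))
        = mon γ (i + k) * (W + b * Real.log (xb (i + k) / xb k)) := by rw [e1, hW]; ring
      _ ≤ mon γ (i + k) * (W + mon δ (i + k) * mon (-δ) k / δ) := by gcongr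
      _ = W * mon γ (i + k) + (mon (-δ) k / δ) * (mon γ (i + k) * mon δ (i + k)) := by ring
      _ = _ := by rw [mon_mul_apply]
  have hsum : Summable fun i => C * (W * mon γ (i + k)
      + (mon (-δ) k / δ) * mon (γ + δ) (i + k)) :=
    ((hs1.mul_left W).add (hs2.mul_left _)).mul_left C
  have hs : Summable (fun i => c (i + k)) := Summable.of_norm_bounded hsum hbd
  refine ⟨hs, ?_⟩
  calc |∑' j, c (j + k)| ≤ ∑' j, |c (j + k)| := norm_tsum_le_tsum_norm hs.norm
    _ ≤ ∑' j, C * (W * mon γ (j + k) + (mon (-δ) k / δ) * mon (γ + δ) (j + k)) :=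
        Summable.tsum_le_tsum hbd hs.norm hsum
    _ = C * (W * ∑' j, mon γ (j + k) + (mon (-δ) k / δ) * ∑' j, mon (γ + δ) (j + k)) := by
        rw [tsum_mul_left, Summable.tsum_add (hs1.mul_left W) (hs2.mul_left _), tsum_mul_left,
          tsum_mul_left]
    _ ≤ C * (W * (S1 * mon (γ + 1) k) + (mon (-δ) k / δ) * (S2 * mon (γ + δ + 1) k)) := by
        have a1 := h1 k
        have a2 := h2 k
        have := mon_pos (-δ) k
        gcongr
    _ = C * (W * (S1 * mon (γ + 1) k) + (S2 / δ) * mon (γ + 1) k) := by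
        have : mon (-δ) k * mon (γ + δ + 1) k = mon (γ + 1) k := by
          rw [mon_mul_apply]; congr 1; ring
        rw [← this]; ring
    _ ≤ C * (W * (S1 * mon (γ + 1) k) + W * ((S2 / δ) * mon (γ + 1) k)) := by
        have hm := mon_pos (γ + 1) k
        have : (S2 / δ) * mon (γ + 1) k ≤ W * ((S2 / δ) * mon (γ + 1) k) :=
          le_mul_of_one_le_left (by positivity) hW1
        gcongr
    _ = _ := by ring

lemma gen_sum {φ V : ℕ → ℝ} {b C : ℝ} (hb : 0 ≤ b) (hb1 : b ≤ 1) (hC : 0 < C)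
    (hφ : ∀ n, |φ n| ≤ C * (mon (-(7 / 3)) n * (1 + b * Real.log (xb n))))
    (hV : ∀ n, |V n| ≤ C * mon (2 / 3) n) (hVl : ∀ n, -C ≤ V n) :
    ∃ D, ∀ t, 0 < t → t < 1 →
      |∑' n, φ n * Real.exp (-t * V n) - (∑' n, φ n + -(∑' n, φ n * V n) * t
        + t ^ 2 / 2 * ∑ n ∈ Finset.range (cut t), φ n * V n ^ 2)|
        ≤ D * (t ^ 2 * (1 + b * Real.log (1 / t))) := by
  obtain ⟨S1, hS1, H1⟩ := tail_log (γ := -(7 / 3)) (by norm_num)
  obtain ⟨S2, hS2, H2⟩ := tail_log (γ := -(5 / 3)) (by norm_num)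
  obtain ⟨S3, hS3, H3⟩ := sum_mon_le (γ := -(1 / 3)) (by norm_num)
  obtain ⟨B, hB⟩ := exp_taylor 3 C
  have hφV : ∀ n, |φ n * V n| ≤ C ^ 2 * (mon (-(5 / 3)) n * (1 + b * Real.log (xb n))) := by
    intro n
    rw [abs_mul]
    have hw : 0 ≤ 1 + b * Real.log (xb n) := by
      have := mul_nonneg hb (log_xb_nonneg n); linarith
    calc |φ n| * |V n| ≤ (C * (mon (-(7 / 3)) n * (1 + b * Real.log (xb n)))) * (C * mon (2 / 3) n) :=
          mul_le_mul (hφ n) (hV n) (abs_nonneg _) (by have := mon_pos (-(7 / 3)) n; positivity)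
      _ = C ^ 2 * ((mon (-(7 / 3)) n * mon (2 / 3) n) * (1 + b * Real.log (xb n))) := by ring
      _ = _ := by rw [mon_mul_apply]; norm_num
  refine ⟨2 * (Real.exp C * (C * S1)) + 2 * (C * S1) + 2 * (C ^ 2 * S2)
    + 2 * (|B| * C ^ 4 * (S3 * 2)), fun t ht ht1 => ?_⟩
  set L := Real.log (1 / t) with hL
  have hL0 : 0 ≤ L := Real.log_nonneg (by rw [le_div_iff₀ ht]; linarith)
  set k := cut t with hk
  have hwk : 1 + b * Real.log (xb k) ≤ 2 * (1 + b * L) := by
    have h1 := (log_cut ht ht1).2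
    have h2 : b * Real.log (xb k) ≤ b * (3 / 2 * L + 1) :=
      mul_le_mul_of_nonneg_left (by linarith) hb
    nlinarith [mul_nonneg hb hL0]
  have hw0 : ∀ n, 0 ≤ 1 + b * Real.log (xb n) := fun n => by
    have := mul_nonneg hb (log_xb_nonneg n); linarith
  have hwL : 0 ≤ 1 + b * L := by have := mul_nonneg hb hL0; linarith
  -- sums
  have m1 : mon (-(7 / 3) + 1) k ≤ t ^ 2 := by
    have := mon_cut_le ht 2
    rwa [show -(2 / 3) * (((2 : ℕ) : ℝ)) = -(7 / 3) + 1 by norm_num] at this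
  have m2 : mon (-(5 / 3) + 1) k ≤ t := by
    have := mon_cut_le ht 1
    rwa [show -(2 / 3) * (((1 : ℕ) : ℝ)) = -(5 / 3) + 1 by norm_num, pow_one] at this
  have hexp : ∀ n, |φ n * Real.exp (-t * V n)|
      ≤ (Real.exp C * C) * (mon (-(7 / 3)) n * (1 + b * Real.log (xb n))) := by
    intro n
    rw [abs_mul, abs_of_pos (Real.exp_pos _)]
    have h1 : Real.exp (-t * V n) ≤ Real.exp C := by
      refine Real.exp_le_exp.mpr ?_
      have := hVl n
      nlinarith
    calc |φ n| * Real.exp (-t * V n)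
        ≤ (C * (mon (-(7 / 3)) n * (1 + b * Real.log (xb n)))) * Real.exp C :=
          mul_le_mul (hφ n) h1 (Real.exp_pos _).le
            (by have := mon_pos (-(7 / 3)) n; have := hw0 n; positivity)
      _ = _ := by ring
  have sE : Summable fun n => φ n * Real.exp (-t * V n) := by
    simpa using (H1 b hb hb1 _ (Real.exp C * C) (by positivity) 0 fun m _ => hexp m).1
  have sφ : Summable φ := by
    simpa using (H1 b hb hb1 φ C hC.le 0 fun m _ => hφ m).1
  have sφV : Summable fun n => φ n * V n := by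
    simpa using (H2 b hb hb1 (fun n => φ n * V n) (C ^ 2) (by positivity) 0 fun m _ => hφV m).1
  have T1 := (H1 b hb hb1 _ (Real.exp C * C) (by positivity) k fun m _ => hexp m).2
  have T2 := (H1 b hb hb1 φ C hC.le k fun m _ => hφ m).2
  have T3 := (H2 b hb hb1 (fun n => φ n * V n) (C ^ 2) (by positivity) k fun m _ => hφV m).2
  have e1 := sE.sum_add_tsum_nat_add k
  have e2 := sφ.sum_add_tsum_nat_add k
  have e3 := sφV.sum_add_tsum_nat_add k
  have key : ∑' n, φ n * Real.exp (-t * V n) - (∑' n, φ n + -(∑' n, φ n * V n) * t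
        + t ^ 2 / 2 * ∑ n ∈ Finset.range k, φ n * V n ^ 2)
      = (∑' i, φ (i + k) * Real.exp (-t * V (i + k))) - (∑' i, φ (i + k))
        + t * (∑' i, φ (i + k) * V (i + k))
        + ∑ n ∈ Finset.range k, φ n * (Real.exp (-t * V n)
            - ∑ j ∈ Finset.range 3, (1 / (j.factorial : ℝ)) * (-t * V n) ^ j) := by
    rw [← e1, ← e2, ← e3]
    have e4 : ∑ n ∈ Finset.range k, φ n * (Real.exp (-t * V n)
            - ∑ j ∈ Finset.range 3, (1 / (j.factorial : ℝ)) * (-t * V n) ^ j)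
        = ∑ n ∈ Finset.range k, φ n * Real.exp (-t * V n) - ∑ n ∈ Finset.range k, φ n
          + t * ∑ n ∈ Finset.range k, φ n * V n
          - t ^ 2 / 2 * ∑ n ∈ Finset.range k, φ n * V n ^ 2 := by
      rw [Finset.mul_sum, Finset.mul_sum, ← Finset.sum_sub_distrib, ← Finset.sum_add_distrib,
        ← Finset.sum_sub_distrib]
      refine Finset.sum_congr rfl fun n _ => ?_
      simp only [Finset.sum_range_succ, Finset.sum_range_zero, Nat.factorial]
      push_cast
      ring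
    rw [e4]
    ring
  rw [key]
  have b1 : |∑' i, φ (i + k) * Real.exp (-t * V (i + k))|
      ≤ 2 * (Real.exp C * (C * S1)) * (t ^ 2 * (1 + b * L)) := by
    calc _ ≤ Real.exp C * C * (S1 * (mon (-(7 / 3) + 1) k * (1 + b * Real.log (xb k)))) := T1
      _ ≤ Real.exp C * C * (S1 * (t ^ 2 * (2 * (1 + b * L)))) := by
          have := hw0 k
          have hm := mon_pos (-(7 / 3) + 1) k
          gcongr
      _ = _ := by ring
  have b2 : |∑' i, φ (i + k)| ≤ 2 * (C * S1) * (t ^ 2 * (1 + b * L)) := by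
    calc _ ≤ C * (S1 * (mon (-(7 / 3) + 1) k * (1 + b * Real.log (xb k)))) := T2
      _ ≤ C * (S1 * (t ^ 2 * (2 * (1 + b * L)))) := by
          have := hw0 k
          have hm := mon_pos (-(7 / 3) + 1) k
          gcongr
      _ = _ := by ring
  have b3 : |t * ∑' i, φ (i + k) * V (i + k)| ≤ 2 * (C ^ 2 * S2) * (t ^ 2 * (1 + b * L)) := by
    rw [abs_mul, abs_of_pos ht]
    calc _ ≤ t * (C ^ 2 * (S2 * (mon (-(5 / 3) + 1) k * (1 + b * Real.log (xb k))))) :=
          mul_le_mul_of_nonneg_left T3 ht.le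
      _ ≤ t * (C ^ 2 * (S2 * (t * (2 * (1 + b * L))))) := by
          have := hw0 k
          have hm := mon_pos (-(5 / 3) + 1) k
          gcongr
      _ = _ := by ring
  have b4 : |∑ n ∈ Finset.range k, φ n * (Real.exp (-t * V n)
            - ∑ j ∈ Finset.range 3, (1 / (j.factorial : ℝ)) * (-t * V n) ^ j)|
      ≤ 2 * (|B| * C ^ 4 * (S3 * 2)) * (t ^ 2 * (1 + b * L)) := by
    refine (Finset.abs_sum_le_sum_abs _ _).trans ?_
    have hterm : ∀ n ∈ Finset.range k, |φ n * (Real.exp (-t * V n)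
            - ∑ j ∈ Finset.range 3, (1 / (j.factorial : ℝ)) * (-t * V n) ^ j)|
        ≤ (|B| * C ^ 4 * (t ^ 3 * (2 * (1 + b * L)))) * mon (-(1 / 3)) n := by
      intro n hn
      have hn' := Finset.mem_range.mp hn
      have hr := (lt_cut_iff ht n).mp hn'
      have hm := mon_pos (2 / 3) n
      have hy : |-t * V n| ≤ C * (t * mon (2 / 3) n) := by
        rw [abs_mul, abs_neg, abs_of_pos ht]
        calc t * |V n| ≤ t * (C * mon (2 / 3) n) := mul_le_mul_of_nonneg_left (hV n) ht.le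
          _ = _ := by ring
      have hy1 : |-t * V n| ≤ C := hy.trans (by nlinarith)
      have h3 := hB _ hy1
      have h4 : |-t * V n| ^ 3 ≤ (C * (t * mon (2 / 3) n)) ^ 3 :=
        pow_le_pow_left₀ (abs_nonneg _) hy 3
      have hwn : 1 + b * Real.log (xb n) ≤ 2 * (1 + b * L) := by
        refine le_trans ?_ hwk
        have := mul_le_mul_of_nonneg_left (log_xb_mono hn'.le) hb
        linarith
      have h7 := mon_pos (-(7 / 3)) n
      rw [abs_mul]
      calc |φ n| * |Real.exp (-t * V n)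
            - ∑ j ∈ Finset.range 3, (1 / (j.factorial : ℝ)) * (-t * V n) ^ j|
          ≤ (C * (mon (-(7 / 3)) n * (2 * (1 + b * L)))) * (|B| * (C * (t * mon (2 / 3) n)) ^ 3) := by
            refine mul_le_mul ((hφ n).trans ?_) (h3.trans ?_) (abs_nonneg _) (by positivity)
            · gcongr
            · exact mul_le_mul (le_abs_self B) h4 (by positivity) (abs_nonneg _)
        _ = |B| * C ^ 4 * (t ^ 3 * (2 * (1 + b * L))) * (mon (-(7 / 3)) n * mon (2 / 3) n ^ 3) := by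
            ring
        _ = _ := by
            rw [mon_pow, mon_mul_apply]
            norm_num
    refine (Finset.sum_le_sum hterm).trans ?_
    rw [← Finset.mul_sum]
    have h5 := H3 k
    have h6 : mon (-(1 / 3) + 1) k ≤ 2 * t⁻¹ := by
      have := mon_cut_upper ht ht1
      rwa [show (2 / 3 : ℝ) = -(1 / 3) + 1 by norm_num] at this
    calc _ ≤ (|B| * C ^ 4 * (t ^ 3 * (2 * (1 + b * L)))) * (S3 * (2 * t⁻¹)) := by
          refine mul_le_mul_of_nonneg_left (h5.trans ?_) (by positivity)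
          gcongr
      _ = _ := by
          field_simp
  have c1 := abs_add_le ((∑' i, φ (i + k) * Real.exp (-t * V (i + k))) - (∑' i, φ (i + k))
        + t * (∑' i, φ (i + k) * V (i + k))) (∑ n ∈ Finset.range k, φ n * (Real.exp (-t * V n)
            - ∑ j ∈ Finset.range 3, (1 / (j.factorial : ℝ)) * (-t * V n) ^ j))
  have c2 := abs_add_le ((∑' i, φ (i + k) * Real.exp (-t * V (i + k))) - (∑' i, φ (i + k)))
        (t * (∑' i, φ (i + k) * V (i + k)))
  have c3 := abs_sub (∑' i, φ (i + k) * Real.exp (-t * V (i + k))) (∑' i, φ (i + k))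
  rw [add_mul, add_mul, add_mul]
  linarith

/-- the leading term of `ψ V²` -/
lemma main_coeff {ψ V : ℕ → ℝ} {κ ε w : ℝ} (hε : 0 < ε)
    (hψ : (fun n => ψ n - w * mon (-(7 / 3)) n) =O[atTop] mon (-(7 / 3) - ε))
    (hV : (fun n => V n - κ * mon (2 / 3) n) =O[atTop] mon (2 / 3 - ε)) :
    (fun n => ψ n * V n ^ 2 - w * κ ^ 2 * mon (-1) n) =O[atTop] mon (-1 - ε) := by
  have hVb : V =O[atTop] mon (2 / 3) := by
    have h1 := (hV.trans (mon_isBigO (by linarith : 2 / 3 - ε ≤ 2 / 3))).add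
      ((isBigO_refl (mon (2 / 3)) atTop).const_mul_left κ)
    refine h1.congr_left fun n => ?_
    ring
  have h1 : (fun n => (ψ n - w * mon (-(7 / 3)) n) * (V n * V n)) =O[atTop] mon (-1 - ε) := by
    have := hψ.mul (hVb.mul hVb)
    refine this.congr_right fun n => ?_
    rw [mon_mul_apply, mon_mul_apply]; congr 1; ring
  have h2 : (fun n => w * (mon (-(7 / 3)) n * ((V n - κ * mon (2 / 3) n)
      * (V n + κ * mon (2 / 3) n)))) =O[atTop] mon (-1 - ε) := by
    have h3 := hVb.add ((isBigO_refl (mon (2 / 3)) atTop).const_mul_left κ)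
    have := ((isBigO_refl (mon (-(7 / 3))) atTop).mul (hV.mul h3)).const_mul_left w
    refine this.congr_right fun n => ?_
    rw [mon_mul_apply, mon_mul_apply]; congr 1; ring
  refine (h1.add h2).congr_left fun n => ?_
  have e : mon (-1) n = mon (-(7 / 3)) n * (mon (2 / 3) n * mon (2 / 3) n) := by
    rw [mon_mul_apply, mon_mul_apply]; congr 1; norm_num
  rw [e]
  ring

lemma bdd_below_V {V : ℕ → ℝ} {κ ε : ℝ} (hκ : 0 < κ) (hε : 0 < ε)
    (hV : (fun n => V n - κ * mon (2 / 3) n) =O[atTop] mon (2 / 3 - ε)) :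
    ∃ C, 0 < C ∧ (∀ n, |V n| ≤ C * mon (2 / 3) n) ∧ ∀ n, -C ≤ V n := by
  have hVb : V =O[atTop] mon (2 / 3) := by
    have h1 := (hV.trans (mon_isBigO (by linarith : 2 / 3 - ε ≤ 2 / 3))).add
      ((isBigO_refl (mon (2 / 3)) atTop).const_mul_left κ)
    refine h1.congr_left fun n => ?_
    ring
  obtain ⟨C, hC, hb⟩ := exists_bound hVb
  have ho := hV.trans_isLittleO (mon_isLittleO (by linarith : 2 / 3 - ε < 2 / 3))
  obtain ⟨N, hN⟩ := (ho.bound hκ).exists_forall_of_atTop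
  have hm0 : ∀ n, 1 ≤ mon (2 / 3) n := fun n => by
    have := mon_le (show (0 : ℝ) ≤ 2 / 3 by norm_num) n
    rwa [mon_zero] at this
  refine ⟨C * mon (2 / 3) N, by have := mon_pos (2 / 3) N; positivity, fun n => ?_, fun n => ?_⟩
  · refine (hb n).trans ?_
    have h1 := hm0 N
    have h2 := mon_pos (2 / 3) n
    have : C * mon (2 / 3) n ≤ (C * mon (2 / 3) N) * mon (2 / 3) n := by
      refine mul_le_mul_of_nonneg_right ?_ h2.le
      exact le_mul_of_one_le_right hC.le h1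
    exact this
  · rcases le_total N n with h | h
    · have h1 := hN n h
      rw [Real.norm_of_nonneg (mon_pos _ _).le, Real.norm_eq_abs] at h1
      have h2 := (abs_le.mp h1).1
      have h3 : 0 ≤ V n := by linarith
      have := mon_pos (2 / 3) N
      have : 0 ≤ C * mon (2 / 3) N := by positivity
      linarith
    · have h1 := (abs_le.mp (hb n)).1
      have h2 : mon (2 / 3) n ≤ mon (2 / 3) N := by
        unfold mon
        refine Real.rpow_le_rpow (xb_pos n).le ?_ (by norm_num)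
        unfold xb
        have : (n : ℝ) ≤ N := by exact_mod_cast h
        linarith
      nlinarith

lemma sum_bdd_of_isBigO {γ : ℝ} (hγ : γ < -1) {f : ℕ → ℝ} (hf : f =O[atTop] mon γ) :
    ∃ C, ∀ k, |∑ i ∈ Finset.range k, f i| ≤ C := by
  obtain ⟨C, hC, hb⟩ := exists_bound hf
  obtain ⟨S, hS, hs⟩ := sum_mon_le_const hγ
  refine ⟨C * S, fun k => ?_⟩
  calc |∑ i ∈ Finset.range k, f i| ≤ ∑ i ∈ Finset.range k, |f i| := Finset.abs_sum_le_sum_abs _ _
    _ ≤ ∑ i ∈ Finset.range k, C * mon γ i := Finset.sum_le_sum fun i _ => hb i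
    _ = C * ∑ i ∈ Finset.range k, mon γ i := by rw [Finset.mul_sum]
    _ ≤ _ := mul_le_mul_of_nonneg_left (hs k) hC.le

lemma sum_log_mon : ∃ C, ∀ k,
    |∑ i ∈ Finset.range k, Real.log (xb i) * mon (-1) i - Real.log (xb k) ^ 2 / 2| ≤ C := by
  set δ : ℕ → ℝ := fun i => Real.log (1 + mon (-1) i) with hδ
  have h1 : (fun n => δ n - mon (-1) n) =O[atTop] mon (-2) := by
    have h1 := PP.comp_analytic2 analytic_log_one_add one_pos (PP.of_mon (le_refl (-1 : ℝ)))
    have h2 : PP (-2) (fun n => δ n - mon (-1) n) := by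
      refine (h1.congr fun n => ?_).mono (by norm_num)
      rw [deriv_log_one_add]
      simp [hδ]
    exact h2.isBigO
  have h2 : δ =O[atTop] mon (-1) := by
    have := (h1.trans (mon_isBigO (by norm_num : (-2 : ℝ) ≤ -1))).add
      (isBigO_refl (mon (-1)) atTop)
    refine this.congr_left fun n => ?_
    ring
  have h3 : (fun n => (δ n - mon (-1) n) * Real.log (xb n)) =O[atTop] mon (-(3 / 2)) := by
    have := h1.mul (log_isBigO_mon (by norm_num : (0 : ℝ) < 1 / 2))
    refine this.congr_right fun n => ?_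
    rw [mon_mul_apply]; congr 1; norm_num
  have h4 : (fun n => (1 / 2 : ℝ) * (δ n * δ n)) =O[atTop] mon (-(3 / 2)) := by
    have := (h2.mul h2).const_mul_left (1 / 2 : ℝ)
    refine (this.congr_right fun n => ?_).trans (mon_isBigO (by norm_num : (-2 : ℝ) ≤ -(3 / 2)))
    rw [mon_mul_apply]; congr 1; norm_num
  obtain ⟨C, hC⟩ := sum_bdd_of_isBigO (by norm_num) (h3.add h4)
  refine ⟨C, fun k => ?_⟩
  have e1 : ∀ i, Real.log (xb (i + 1)) = Real.log (xb i) + δ i := by
    intro i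
    rw [xb_succ, Real.log_mul (xb_pos i).ne']
    have := mon_pos (-1) i
    positivity
  have e2 : ∑ i ∈ Finset.range k, ((δ i - mon (-1) i) * Real.log (xb i) + 1 / 2 * (δ i * δ i))
      = -(∑ i ∈ Finset.range k, Real.log (xb i) * mon (-1) i - Real.log (xb k) ^ 2 / 2) := by
    have e3 : ∀ i, (δ i - mon (-1) i) * Real.log (xb i) + 1 / 2 * (δ i * δ i)
        = (Real.log (xb (i + 1)) ^ 2 / 2 - Real.log (xb i) ^ 2 / 2)
          - Real.log (xb i) * mon (-1) i := by
      intro i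
      rw [e1]; ring
    simp only [e3]
    rw [Finset.sum_sub_distrib, Finset.sum_range_sub (fun i => Real.log (xb i) ^ 2 / 2)]
    simp [xb]
  have := hC k
  rw [e2, abs_neg] at this
  exact this


/-- L1, file LogSum.lean -/
theorem log_sum {ψ V : ℕ → ℝ} {κ ε w : ℝ} (hκ : 0 < κ) (hε : 0 < ε) (hε1 : ε ≤ 1 / 3)
    (hψ : PP (-(7 / 3) - ε) (fun n => ψ n - w * mon (-(7 / 3)) n))
    (hV : PP (2 / 3 - ε) (fun n => V n - κ * mon (2 / 3) n)) :
    ∃ a0 a1 : ℝ, (fun t => ∑' n, ψ n * Real.log (xb n) * Real.exp (-t * V n)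
      - (a0 + a1 * t + 9 / 16 * w * κ ^ 2 * (t ^ 2 * Real.log (1 / t) ^ 2))) =O[𝓝[>] (0 : ℝ)]
      (fun t : ℝ => t ^ 2 * (1 + Real.log (1 / t))) := by
  obtain ⟨C1, hC1, hVb, hVl⟩ := bdd_below_V hκ hε hV.isBigO
  have hψb : ψ =O[atTop] mon (-(7 / 3)) := by
    have h1 := (hψ.isBigO.trans (mon_isBigO (by linarith : -(7 / 3) - ε ≤ -(7 / 3)))).add
      ((isBigO_refl (mon (-(7 / 3))) atTop).const_mul_left w)
    refine h1.congr_left fun n => ?_
    ring
  obtain ⟨C2, hC2, hψC⟩ := exists_bound hψb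
  obtain ⟨D, hD⟩ := gen_sum (φ := fun n => ψ n * Real.log (xb n)) (V := V) (b := 1)
    (C := max C1 C2) zero_le_one le_rfl (lt_max_of_lt_left hC1) (fun n => by
      have hl := log_xb_nonneg n
      rw [abs_mul, abs_of_nonneg hl, one_mul]
      have hm := mon_pos (-(7 / 3)) n
      calc |ψ n| * Real.log (xb n) ≤ (C2 * mon (-(7 / 3)) n) * (1 + Real.log (xb n)) :=
            mul_le_mul (hψC n) (by linarith) hl (by positivity)
        _ ≤ (max C1 C2 * mon (-(7 / 3)) n) * (1 + Real.log (xb n)) := by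
            gcongr
            exact le_max_right _ _
        _ = _ := by ring)
    (fun n => (hVb n).trans (mul_le_mul_of_nonneg_right (le_max_left _ _) (mon_pos _ _).le))
    (fun n => (neg_le_neg (le_max_left _ _)).trans (hVl n))
  have hmc := main_coeff hε hψ.isBigO hV.isBigO
  have hmc2 : (fun n => (ψ n * V n ^ 2 - w * κ ^ 2 * mon (-1) n) * Real.log (xb n))
      =O[atTop] mon (-1 - ε / 2) := by
    have := hmc.mul (log_isBigO_mon (by linarith : 0 < ε / 2))
    refine this.congr_right fun n => ?_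
    rw [mon_mul_apply]; congr 1; ring
  obtain ⟨E, hE⟩ := sum_bdd_of_isBigO (by linarith) hmc2
  obtain ⟨F, hF⟩ := sum_log_mon
  refine ⟨∑' n, ψ n * Real.log (xb n), -(∑' n, ψ n * Real.log (xb n) * V n),
    IsBigO.of_bound (D + (E + |w * κ ^ 2| * (F + 2))) ?_⟩
  filter_upwards [eventually_pos', eventually_lt' one_pos] with t ht ht1
  have h1 := hD t ht ht1
  set L := Real.log (1 / t) with hL
  have hL0 : 0 ≤ L := Real.log_nonneg (by rw [le_div_iff₀ ht]; linarith)
  set k := cut t with hk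
  obtain ⟨l1, l2⟩ := log_cut ht ht1
  rw [← hL, ← hk] at l1 l2
  have hEk := hE k
  have hFk := hF k
  have e1 : ∑ n ∈ Finset.range k, ψ n * Real.log (xb n) * V n ^ 2
      = ∑ n ∈ Finset.range k, (ψ n * V n ^ 2 - w * κ ^ 2 * mon (-1) n) * Real.log (xb n)
        + w * κ ^ 2 * ∑ n ∈ Finset.range k, Real.log (xb n) * mon (-1) n := by
    rw [Finset.mul_sum, ← Finset.sum_add_distrib]
    refine Finset.sum_congr rfl fun n _ => ?_
    ring
  have e2 : |∑ n ∈ Finset.range k, ψ n * Real.log (xb n) * V n ^ 2 - w * κ ^ 2 * (9 / 8 * L ^ 2)|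
      ≤ (E + |w * κ ^ 2| * (F + 2)) * (1 + L) := by
    rw [e1]
    have e3 : |∑ n ∈ Finset.range k, Real.log (xb n) * mon (-1) n - 9 / 8 * L ^ 2|
        ≤ (F + 2) * (1 + L) := by
      have e4 : |Real.log (xb k) ^ 2 / 2 - 9 / 8 * L ^ 2| ≤ 2 * (1 + L) := by
        have e5 : Real.log (xb k) ^ 2 / 2 - 9 / 8 * L ^ 2
            = (Real.log (xb k) - 3 / 2 * L) * (Real.log (xb k) - 3 / 2 * L + 3 * L) / 2 := by ring
        rw [e5, abs_of_nonneg (by positivity)]
        nlinarith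
      have e6 := abs_add_le (∑ n ∈ Finset.range k, Real.log (xb n) * mon (-1) n
        - Real.log (xb k) ^ 2 / 2) (Real.log (xb k) ^ 2 / 2 - 9 / 8 * L ^ 2)
      rw [sub_add_sub_cancel] at e6
      have hF0 : 0 ≤ F := (abs_nonneg _).trans hFk
      nlinarith
    have e7 := abs_add_le (∑ n ∈ Finset.range k, (ψ n * V n ^ 2 - w * κ ^ 2 * mon (-1) n)
      * Real.log (xb n)) (w * κ ^ 2 * (∑ n ∈ Finset.range k, Real.log (xb n) * mon (-1) n
        - 9 / 8 * L ^ 2))
    rw [abs_mul (w * κ ^ 2)] at e7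
    have e8 := mul_le_mul_of_nonneg_left e3 (abs_nonneg (w * κ ^ 2))
    have hE0 : 0 ≤ E := (abs_nonneg _).trans hEk
    have e9 : E ≤ E * (1 + L) := le_mul_of_one_le_right hE0 (by linarith)
    calc _ = |∑ n ∈ Finset.range k, (ψ n * V n ^ 2 - w * κ ^ 2 * mon (-1) n)
      * Real.log (xb n) + (w * κ ^ 2 * (∑ n ∈ Finset.range k, Real.log (xb n) * mon (-1) n
        - 9 / 8 * L ^ 2))| := by congr 1; ring
      _ ≤ _ := e7
      _ ≤ E * (1 + L) + |w * κ ^ 2| * ((F + 2) * (1 + L)) := by linarith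
      _ = _ := by ring
  rw [Real.norm_eq_abs, Real.norm_of_nonneg (by positivity)]
  rw [one_mul] at h1
  have e10 : |t ^ 2 / 2 * (∑ n ∈ Finset.range k, ψ n * Real.log (xb n) * V n ^ 2
      - w * κ ^ 2 * (9 / 8 * L ^ 2))| ≤ (E + |w * κ ^ 2| * (F + 2)) * (t ^ 2 * (1 + L)) := by
    rw [abs_mul, abs_of_nonneg (by positivity)]
    calc _ ≤ t ^ 2 / 2 * ((E + |w * κ ^ 2| * (F + 2)) * (1 + L)) :=
          mul_le_mul_of_nonneg_left e2 (by positivity)
      _ ≤ t ^ 2 * ((E + |w * κ ^ 2| * (F + 2)) * (1 + L)) := by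
          have : 0 ≤ (E + |w * κ ^ 2| * (F + 2)) * (1 + L) := (abs_nonneg _).trans e2
          have ht2 := pow_pos ht 2
          nlinarith
      _ = _ := by ring
  have e11 := (abs_add_le _ _).trans (add_le_add h1 e10)
  rw [add_mul]
  refine le_trans (le_of_eq ?_) e11
  congr 1
  ring

/-- L4, file LogSum.lean -/
theorem lead_sum {ψ V : ℕ → ℝ} {κ ε w r : ℝ} (hκ : 0 < κ) (hε : 0 < ε) (hε1 : ε ≤ 1 / 3)
    (hψ : PP (-(7 / 3) - ε) (fun n => ψ n - w * mon (-(7 / 3)) n))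
    (hV : PP (2 / 3 - ε) (fun n => V n - r * Real.log (xb n) - κ * mon (2 / 3) n)) :
    ∃ a0 a1 : ℝ, (fun t => ∑' n, ψ n * Real.exp (-t * V n)
      - (a0 + a1 * t + 3 / 4 * w * κ ^ 2 * (t ^ 2 * Real.log (1 / t)))) =O[𝓝[>] (0 : ℝ)]
      (fun t : ℝ => t ^ 2) := by
  have hV' : (fun n => V n - κ * mon (2 / 3) n) =O[atTop] mon (2 / 3 - ε) := by
    have h1 := hV.isBigO.add ((log_isBigO_mon (by linarith : 0 < 2 / 3 - ε)).const_mul_left r)
    refine h1.congr_left fun n => ?_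
    ring
  obtain ⟨C1, hC1, hVb, hVl⟩ := bdd_below_V hκ hε hV'
  have hψb : ψ =O[atTop] mon (-(7 / 3)) := by
    have h1 := (hψ.isBigO.trans (mon_isBigO (by linarith : -(7 / 3) - ε ≤ -(7 / 3)))).add
      ((isBigO_refl (mon (-(7 / 3))) atTop).const_mul_left w)
    refine h1.congr_left fun n => ?_
    ring
  obtain ⟨C2, hC2, hψC⟩ := exists_bound hψb
  obtain ⟨D, hD⟩ := gen_sum (φ := ψ) (V := V) (b := 0)
    (C := max C1 C2) le_rfl zero_le_one (lt_max_of_lt_left hC1) (fun n => by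
      rw [zero_mul, add_zero, mul_one]
      exact (hψC n).trans (mul_le_mul_of_nonneg_right (le_max_right _ _) (mon_pos _ _).le))
    (fun n => (hVb n).trans (mul_le_mul_of_nonneg_right (le_max_left _ _) (mon_pos _ _).le))
    (fun n => (neg_le_neg (le_max_left _ _)).trans (hVl n))
  have hmc := main_coeff hε hψ.isBigO hV'
  obtain ⟨E, hE⟩ := sum_bdd_of_isBigO (by linarith) hmc
  obtain ⟨F, hF⟩ := exists_bound sum_mon_neg_one.isBigO
  refine ⟨∑' n, ψ n, -(∑' n, ψ n * V n), IsBigO.of_bound (D + (E + |w * κ ^ 2| * (F + 1))) ?_⟩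
  filter_upwards [eventually_pos', eventually_lt' one_pos] with t ht ht1
  have h1 := hD t ht ht1
  set L := Real.log (1 / t) with hL
  have hL0 : 0 ≤ L := Real.log_nonneg (by rw [le_div_iff₀ ht]; linarith)
  set k := cut t with hk
  obtain ⟨l1, l2⟩ := log_cut ht ht1
  rw [← hL, ← hk] at l1 l2
  have hEk := hE k
  have hFk := hF.2 k
  rw [mon_zero, Pi.one_apply, mul_one] at hFk
  have e1 : ∑ n ∈ Finset.range k, ψ n * V n ^ 2
      = ∑ n ∈ Finset.range k, (ψ n * V n ^ 2 - w * κ ^ 2 * mon (-1) n)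
        + w * κ ^ 2 * ∑ n ∈ Finset.range k, mon (-1) n := by
    rw [Finset.mul_sum, ← Finset.sum_add_distrib]
    refine Finset.sum_congr rfl fun n _ => ?_
    ring
  have e2 : |∑ n ∈ Finset.range k, ψ n * V n ^ 2 - w * κ ^ 2 * (3 / 2 * L)|
      ≤ E + |w * κ ^ 2| * (F + 1) := by
    rw [e1]
    have e3 : |∑ n ∈ Finset.range k, mon (-1) n - 3 / 2 * L| ≤ F + 1 := by
      have e4 : |Real.log (xb k) - 3 / 2 * L| ≤ 1 := by
        rw [abs_of_nonneg l1]; exact l2
      have e6 := abs_add_le (∑ n ∈ Finset.range k, mon (-1) n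
        - Real.log (xb k)) (Real.log (xb k) - 3 / 2 * L)
      rw [sub_add_sub_cancel] at e6
      linarith
    have e7 := abs_add_le (∑ n ∈ Finset.range k, (ψ n * V n ^ 2 - w * κ ^ 2 * mon (-1) n))
      (w * κ ^ 2 * (∑ n ∈ Finset.range k, mon (-1) n - 3 / 2 * L))
    rw [abs_mul (w * κ ^ 2)] at e7
    have e8 := mul_le_mul_of_nonneg_left e3 (abs_nonneg (w * κ ^ 2))
    calc _ = |∑ n ∈ Finset.range k, (ψ n * V n ^ 2 - w * κ ^ 2 * mon (-1) n)
      + (w * κ ^ 2 * (∑ n ∈ Finset.range k, mon (-1) n - 3 / 2 * L))| := by congr 1; ring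
      _ ≤ _ := e7
      _ ≤ _ := by linarith
  rw [Real.norm_eq_abs, Real.norm_of_nonneg (by positivity)]
  rw [zero_mul, add_zero, mul_one] at h1
  have e10 : |t ^ 2 / 2 * (∑ n ∈ Finset.range k, ψ n * V n ^ 2
      - w * κ ^ 2 * (3 / 2 * L))| ≤ (E + |w * κ ^ 2| * (F + 1)) * t ^ 2 := by
    rw [abs_mul, abs_of_nonneg (by positivity)]
    have : 0 ≤ E + |w * κ ^ 2| * (F + 1) := (abs_nonneg _).trans e2
    have ht2 := pow_pos ht 2
    calc _ ≤ t ^ 2 / 2 * (E + |w * κ ^ 2| * (F + 1)) :=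
          mul_le_mul_of_nonneg_left e2 (by positivity)
      _ ≤ _ := by nlinarith
  have e11 := (abs_add_le _ _).trans (add_le_add h1 e10)
  rw [add_mul]
  refine le_trans (le_of_eq ?_) e11
  congr 1
  ring

end F526
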