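import Pool.Agent.Lib.MP_f52611_an.PW

open Filter Topology Asymptotics

namespace F526

lemma mon_pow (ρ : ℝ) (k : ℕ) (n : ℕ) : mon ρ n ^ k = mon (k * ρ) n := by
  unfold mon
  rw [← Real.rpow_natCast, ← Real.rpow_mul (xb_pos n).le, mul_comm]

/-- composition with an analytic function, with the first `j` Taylor terms removed -/
lemma PP.comp_series {F : ℝ → ℝ} {p : FormalMultilinearSeries ℝ ℝ ℝ}
    (hF : HasFPowerSeriesAt F p 0) {ε : ℝ} (hε : 0 < ε) {f : ℕ → ℝ} (hf : PP (-ε) f) (j : ℕ) :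
    PP (-(j * ε)) (fun n => F (f n) - ∑ k ∈ Finset.range j, p.coeff k * f n ^ k) := by
  refine PP.of_approx fun T => ?_
  obtain ⟨K', hK'⟩ := exists_nat_ge (T / ε)
  set K := max K' j with hK
  have hKT : T ≤ K * ε := by
    have h1 : T / ε ≤ K := hK'.trans (by exact_mod_cast le_max_left _ _)
    rwa [div_le_iff₀ hε] at h1
  have hjK : j ≤ K := le_max_right _ _
  refine ⟨fun n => ∑ k ∈ Finset.Ico j K, p.coeff k * f n ^ k, ?_, ?_⟩
  · refine PP.sum _ fun k hk => ?_
    refine ((hf.pow k).const_mul _).mono ?_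
    have : (j : ℝ) ≤ k := by exact_mod_cast (Finset.mem_Ico.mp hk).1
    nlinarith
  · have h1 := (hF.isBigO_sub_partialSum_pow K).comp_tendsto (hf.tendsto_zero (by linarith))
    have h2 : (fun n => f n ^ K) =O[atTop] mon (-T) := by
      have h3 := (hf.isBigO).pow K
      refine h3.trans ?_
      have h4 : (fun n => mon (-ε) n ^ K) = mon (K * (-ε)) := by
        ext n; exact mon_pow _ _ _
      rw [h4]
      exact mon_isBigO (by linarith)
    refine IsBigO.trans ?_ h2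
    refine (h1.congr_left fun n => ?_).trans ?_
    · simp only [Function.comp_def]
      rw [zero_add, FormalMultilinearSeries.partialSum]
      have h5 : ∑ k ∈ Finset.range K, (p k) (fun _ => f n)
          = ∑ k ∈ Finset.range K, p.coeff k * f n ^ k := by
        refine Finset.sum_congr rfl fun k _ => ?_
        rw [FormalMultilinearSeries.apply_eq_pow_smul_coeff, smul_eq_mul, mul_comm]
      rw [h5, sub_sub, ← Finset.sum_range_add_sum_Ico _ hjK]
    · simp only [Function.comp_def]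
      refine IsBigO.of_bound 1 (Eventually.of_forall fun n => ?_)
      simp

lemma PP.comp_analytic {F : ℝ → ℝ} (hF : AnalyticAt ℝ F 0) {ε : ℝ} (hε : 0 < ε) {f : ℕ → ℝ}
    (hf : PP (-ε) f) : PP 0 (fun n => F (f n)) := by
  obtain ⟨p, hp⟩ := hF
  simpa using PP.comp_series hp hε hf 0

lemma PP.comp_analytic1 {F : ℝ → ℝ} (hF : AnalyticAt ℝ F 0) {ε : ℝ} (hε : 0 < ε) {f : ℕ → ℝ}
    (hf : PP (-ε) f) : PP (-ε) (fun n => F (f n) - F 0) := by
  obtain ⟨p, hp⟩ := hF
  have := PP.comp_series hp hε hf 1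
  have h0 : p.coeff 0 = F 0 := by
    rw [FormalMultilinearSeries.coeff]
    exact hp.coeff_zero _
  simpa [h0] using this

lemma PP.comp_analytic2 {F : ℝ → ℝ} (hF : AnalyticAt ℝ F 0) {ε : ℝ} (hε : 0 < ε) {f : ℕ → ℝ}
    (hf : PP (-ε) f) : PP (-(2 * ε)) (fun n => F (f n) - (F 0 + deriv F 0 * f n)) := by
  obtain ⟨p, hp⟩ := hF
  have := PP.comp_series hp hε hf 2
  have h0 : p.coeff 0 = F 0 := by
    rw [FormalMultilinearSeries.coeff]
    exact hp.coeff_zero _
  have h1 : p.coeff 1 = deriv F 0 := by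
    rw [hp.deriv]
    rfl
  simpa [h0, h1, Finset.sum_range_succ] using this

lemma PP.congr {G : ℝ} {f g : ℕ → ℝ} (hf : PP G f) (h : ∀ n, f n = g n) : PP G g :=
  hf.congr' (Eventually.of_forall h)

lemma xb_succ (n : ℕ) : xb (n + 1) = xb n * (1 + mon (-1) n) := by
  have := xb_pos n
  unfold mon
  rw [Real.rpow_neg_one]
  have h : xb (n + 1) = xb n + 1 := by unfold xb; push_cast; ring
  rw [h]
  field_simp

lemma mon_succ (ρ : ℝ) (n : ℕ) : mon ρ (n + 1) = mon ρ n * (1 + mon (-1) n) ^ ρ := by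
  unfold mon
  have h1 : 0 ≤ 1 + xb n ^ (-1 : ℝ) := by
    have := Real.rpow_pos_of_pos (xb_pos n) (-1 : ℝ)
    linarith
  rw [← Real.mul_rpow (xb_pos n).le h1]
  congr 1
  exact xb_succ n

lemma analytic_log_one_add : AnalyticAt ℝ (fun y : ℝ => Real.log (1 + y)) 0 := by
  have h1 : AnalyticAt ℝ (fun y : ℝ => 1 + y) 0 := analyticAt_const.add analyticAt_id
  exact h1.log (by simp)

lemma analytic_one_add_rpow (ρ : ℝ) : AnalyticAt ℝ (fun y : ℝ => (1 + y) ^ ρ) 0 := by
  have h1 : AnalyticAt ℝ (fun y : ℝ => Real.exp (Real.log (1 + y) * ρ)) 0 :=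
    (analytic_log_one_add.mul analyticAt_const).rexp'
  refine h1.congr ?_
  have : ∀ᶠ y : ℝ in 𝓝 0, (0 : ℝ) < 1 + y := by
    have hc : ContinuousAt (fun y : ℝ => 1 + y) 0 := by fun_prop
    exact hc.eventually_const_lt (by simp)
  filter_upwards [this] with y hy
  rw [Real.rpow_def_of_pos hy]

lemma deriv_one_add_rpow (ρ : ℝ) : deriv (fun y : ℝ => (1 + y) ^ ρ) 0 = ρ := by
  have h1 : HasDerivAt (fun y : ℝ => 1 + y) 1 0 := (hasDerivAt_id (0 : ℝ)).const_add 1
  have := h1.rpow_const (p := ρ) (Or.inl (by simp))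
  simpa using this.deriv

lemma deriv_log_one_add : deriv (fun y : ℝ => Real.log (1 + y)) 0 = 1 := by
  have h1 : HasDerivAt (fun y : ℝ => 1 + y) 1 0 := (hasDerivAt_id (0 : ℝ)).const_add 1
  have := h1.log (by simp)
  simpa using this.deriv

/-- `(x+1)^ρ - x^ρ - ρ x^{ρ-1}` has order `ρ - 2` -/
lemma PP_mon_diff2 (ρ : ℝ) :
    PP (ρ - 2) (fun n => mon ρ (n + 1) - mon ρ n - ρ * mon (ρ - 1) n) := by
  have h1 := PP.comp_analytic2 (analytic_one_add_rpow ρ) one_pos (PP.of_mon (le_refl (-1 : ℝ)))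
  have h2 := (PP.of_mon (le_refl ρ)).mul h1
  refine (h2.congr fun n => ?_).mono (by linarith)
  rw [deriv_one_add_rpow, mon_succ]
  have : mon (ρ - 1) n = mon ρ n * mon (-1) n := by
    rw [mon_mul_apply]; congr 1
  rw [this]
  simp only [add_zero, Real.one_rpow]
  ring

lemma PP_mon_diff (ρ : ℝ) : PP (ρ - 1) (fun n => mon ρ (n + 1) - mon ρ n) := by
  have h1 := (PP_mon_diff2 ρ).mono (by linarith : ρ - 2 ≤ ρ - 1)
  have h2 := (PP.of_mon (le_refl (ρ - 1))).const_mul ρ
  refine (h1.add h2).congr fun n => ?_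
  ring

lemma isBigO_shift {ρ : ℝ} {f : ℕ → ℝ} (hf : f =O[atTop] mon ρ) :
    (fun n => f (n + 1)) =O[atTop] mon ρ := by
  have h1 : (fun n => f (n + 1)) =O[atTop] fun n => mon ρ (n + 1) :=
    hf.comp_tendsto (tendsto_add_atTop_nat 1)
  refine h1.trans ?_
  have h2 : (fun n => mon ρ (n + 1)) = fun n => mon ρ n + (mon ρ (n + 1) - mon ρ n) := by
    ext n; ring
  rw [h2]
  exact (isBigO_refl _ _).add ((PP_mon_diff ρ).isBigO.trans (mon_isBigO (by linarith)))

lemma PW_shift_sub {G : ℝ} {P : ℕ → ℝ} (hP : P ∈ PW G) : PP (G - 1) (fun n => P (n + 1) - P n) := by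
  induction hP using Submodule.span_induction with
  | mem f hf =>
    obtain ⟨ρ, hρ, rfl⟩ := hf
    exact (PP_mon_diff ρ).mono (by linarith)
  | zero => simpa using PP.zero _
  | add f g _ _ hf hg =>
    refine (hf.add hg).congr fun n => ?_
    simp only [Pi.add_apply]; ring
  | smul c f _ hf =>
    refine (hf.const_mul c).congr fun n => ?_
    simp only [Pi.smul_apply, smul_eq_mul]; ring

lemma PP.shift_sub {G : ℝ} {f : ℕ → ℝ} (hf : PP G f) : PP (G - 1) (fun n => f (n + 1) - f n) := by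
  refine PP.of_approx fun T => ?_
  obtain ⟨P, hP, hO⟩ := hf T
  refine ⟨_, PW_shift_sub hP, ?_⟩
  refine ((isBigO_shift hO).sub hO).congr_left fun n => ?_
  ring

lemma PP.shift {G : ℝ} {f : ℕ → ℝ} (hf : PP G f) : PP G (fun n => f (n + 1)) := by
  refine (hf.add (hf.shift_sub.mono (by linarith : G - 1 ≤ G))).congr fun n => ?_
  ring

end F526
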