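import Mathlib

open Filter Topology Asymptotics

namespace F526

/-- the base `n + 1` of all power expansions -/
noncomputable def xb (n : ℕ) : ℝ := (n : ℝ) + 1

lemma xb_pos (n : ℕ) : 0 < xb n := by unfold xb; positivity

lemma one_le_xb (n : ℕ) : 1 ≤ xb n := by
  unfold xb; linarith [Nat.cast_nonneg (α := ℝ) n]

lemma tendsto_xb : Tendsto xb atTop atTop :=
  tendsto_atTop_add_const_right _ _ tendsto_natCast_atTop_atTop

/-- the monomials `(n+1)^ρ` -/
noncomputable def mon (ρ : ℝ) (n : ℕ) : ℝ := xb n ^ ρ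

lemma mon_pos (ρ : ℝ) (n : ℕ) : 0 < mon ρ n := Real.rpow_pos_of_pos (xb_pos n) ρ

lemma mon_mul (ρ σ : ℝ) : mon ρ * mon σ = mon (ρ + σ) := by
  ext n; exact (Real.rpow_add (xb_pos n) ρ σ).symm

lemma mon_mul_apply (ρ σ : ℝ) (n : ℕ) : mon ρ n * mon σ n = mon (ρ + σ) n :=
  (Real.rpow_add (xb_pos n) ρ σ).symm

lemma mon_zero : mon 0 = 1 := by ext n; simp [mon]

lemma mon_le {ρ σ : ℝ} (h : ρ ≤ σ) (n : ℕ) : mon ρ n ≤ mon σ n :=
  Real.rpow_le_rpow_of_exponent_le (one_le_xb n) h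

lemma mon_isBigO {ρ σ : ℝ} (h : ρ ≤ σ) : mon ρ =O[atTop] mon σ := by
  refine IsBigO.of_bound 1 (Eventually.of_forall fun n => ?_)
  rw [Real.norm_of_nonneg (mon_pos ρ n).le, Real.norm_of_nonneg (mon_pos σ n).le, one_mul]
  exact mon_le h n

/-- finite linear combinations of monomials with exponent at most `G` -/
def PW (G : ℝ) : Submodule ℝ (ℕ → ℝ) := Submodule.span ℝ {f | ∃ ρ, ρ ≤ G ∧ f = mon ρ}

lemma mon_mem {ρ G : ℝ} (h : ρ ≤ G) : mon ρ ∈ PW G := Submodule.subset_span ⟨ρ, h, rfl⟩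

lemma PW_mono {G H : ℝ} (h : G ≤ H) : PW G ≤ PW H := by
  refine Submodule.span_mono ?_
  rintro f ⟨ρ, hρ, rfl⟩
  exact ⟨ρ, hρ.trans h, rfl⟩

lemma PW_mul {G H : ℝ} {P Q : ℕ → ℝ} (hP : P ∈ PW G) (hQ : Q ∈ PW H) : P * Q ∈ PW (G + H) := by
  have h1 : P * Q ∈ PW G * PW H := Submodule.mul_mem_mul hP hQ
  rw [PW, PW, Submodule.span_mul_span] at h1
  refine Submodule.span_mono ?_ h1
  rintro f ⟨a, ⟨ρ, hρ, rfl⟩, b, ⟨σ, hσ, rfl⟩, rfl⟩
  exact ⟨ρ + σ, add_le_add hρ hσ, mon_mul ρ σ⟩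

lemma PW_isBigO {G : ℝ} {P : ℕ → ℝ} (hP : P ∈ PW G) : P =O[atTop] mon G := by
  induction hP using Submodule.span_induction with
  | mem f hf =>
    obtain ⟨ρ, hρ, rfl⟩ := hf
    exact mon_isBigO hρ
  | zero => exact isBigO_zero _ _
  | add f g _ _ hf hg => exact hf.add hg
  | smul c f _ hf => exact hf.const_mul_left c

/-- sequences with a full asymptotic expansion in real powers of `n+1` with exponents `≤ G` -/
def PP (G : ℝ) (f : ℕ → ℝ) : Prop :=
  ∀ T : ℝ, ∃ P ∈ PW G, (fun n => f n - P n) =O[atTop] mon (-T)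

lemma PP.of_mem {G : ℝ} {f : ℕ → ℝ} (hf : f ∈ PW G) : PP G f := fun T =>
  ⟨f, hf, by simpa using isBigO_zero _ _⟩

lemma PP.of_mon {ρ G : ℝ} (h : ρ ≤ G) : PP G (mon ρ) := PP.of_mem (mon_mem h)

lemma PP.mono {G H : ℝ} (h : G ≤ H) {f : ℕ → ℝ} (hf : PP G f) : PP H f := fun T => by
  obtain ⟨P, hP, hO⟩ := hf T
  exact ⟨P, PW_mono h hP, hO⟩

lemma PP.const {G : ℝ} (h : 0 ≤ G) (c : ℝ) : PP G (fun _ => c) := by
  refine PP.of_mem ?_
  have : (fun _ : ℕ => c) = c • mon 0 := by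
    ext n; simp [mon_zero]
  rw [this]
  exact Submodule.smul_mem _ _ (mon_mem h)

lemma PP.zero (G : ℝ) : PP G (fun _ => 0) := PP.of_mem (Submodule.zero_mem _)

lemma PP.add {G : ℝ} {f g : ℕ → ℝ} (hf : PP G f) (hg : PP G g) : PP G (fun n => f n + g n) := by
  intro T
  obtain ⟨P, hP, hO⟩ := hf T
  obtain ⟨Q, hQ, hO'⟩ := hg T
  refine ⟨P + Q, Submodule.add_mem _ hP hQ, ?_⟩
  refine (hO.add hO').congr_left fun n => ?_
  simp only [Pi.add_apply]; ring

lemma PP.const_mul {G : ℝ} {f : ℕ → ℝ} (hf : PP G f) (c : ℝ) : PP G (fun n => c * f n) := by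
  intro T
  obtain ⟨P, hP, hO⟩ := hf T
  refine ⟨c • P, Submodule.smul_mem _ _ hP, ?_⟩
  refine (hO.const_mul_left c).congr_left fun n => ?_
  simp only [Pi.smul_apply, smul_eq_mul]; ring

lemma PP.neg {G : ℝ} {f : ℕ → ℝ} (hf : PP G f) : PP G (fun n => - f n) := by
  simpa using hf.const_mul (-1)

lemma PP.sub {G : ℝ} {f g : ℕ → ℝ} (hf : PP G f) (hg : PP G g) : PP G (fun n => f n - g n) := by
  simpa [sub_eq_add_neg] using hf.add hg.neg

lemma PP.isBigO {G : ℝ} {f : ℕ → ℝ} (hf : PP G f) : f =O[atTop] F526.mon G := by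
  obtain ⟨P, hP, hO⟩ := hf (-G)
  rw [neg_neg] at hO
  have := hO.add (PW_isBigO hP)
  exact this.congr_left fun n => by ring

lemma PP.congr' {G : ℝ} {f g : ℕ → ℝ} (hf : PP G f) (h : f =ᶠ[atTop] g) : PP G g := by
  intro T
  obtain ⟨P, hP, hO⟩ := hf T
  refine ⟨P, hP, hO.congr' ?_ EventuallyEq.rfl⟩
  filter_upwards [h] with n hn
  rw [hn]

lemma PP.of_isBigO {G : ℝ} {f : ℕ → ℝ} (h : ∀ T : ℝ, f =O[atTop] F526.mon (-T)) : PP G f :=
  fun T => ⟨0, Submodule.zero_mem _, by simpa using h T⟩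

/-- if for each `T` the sequence `f` agrees with a member of the class up to `O(n^{-T})` -/
lemma PP.of_approx {G : ℝ} {f : ℕ → ℝ}
    (h : ∀ T : ℝ, ∃ g, PP G g ∧ (fun n => f n - g n) =O[atTop] F526.mon (-T)) : PP G f := by
  intro T
  obtain ⟨g, hg, hO⟩ := h T
  obtain ⟨P, hP, hO'⟩ := hg T
  refine ⟨P, hP, ?_⟩
  refine (hO.add hO').congr_left fun n => ?_
  ring

lemma PP.mul {G H : ℝ} {f g : ℕ → ℝ} (hf : PP G f) (hg : PP H g) :
    PP (G + H) (fun n => f n * g n) := by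
  intro T
  -- f = P + e, g = Q + e'
  obtain ⟨P, hP, hO⟩ := hf (T + |H|)
  obtain ⟨Q, hQ, hO'⟩ := hg (T + |G|)
  refine ⟨P * Q, PW_mul hP hQ, ?_⟩
  have h1 : (fun n => (f n - P n) * g n) =O[atTop] F526.mon (-T) := by
    have := hO.mul hg.isBigO
    refine this.trans ?_
    have h2 : (fun n => F526.mon (-(T + |H|)) n * F526.mon H n) = F526.mon (-(T + |H|) + H) := by
      ext n; exact mon_mul_apply _ _ n
    rw [h2]
    exact mon_isBigO (by linarith [le_abs_self H])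
  have h2 : (fun n => P n * (g n - Q n)) =O[atTop] F526.mon (-T) := by
    have := (PW_isBigO hP).mul hO'
    refine this.trans ?_
    have h2 : (fun n => F526.mon G n * F526.mon (-(T + |G|)) n) = F526.mon (G + -(T + |G|)) := by
      ext n; exact mon_mul_apply _ _ n
    rw [h2]
    exact mon_isBigO (by linarith [le_abs_self G])
  refine (h1.add h2).congr_left fun n => ?_
  simp only [Pi.mul_apply]; ring

lemma PP.mul' {G H K : ℝ} (hK : G + H ≤ K) {f g : ℕ → ℝ} (hf : PP G f) (hg : PP H g) :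
    PP K (fun n => f n * g n) := (hf.mul hg).mono hK

lemma PP.pow {G : ℝ} {f : ℕ → ℝ} (hf : PP G f) (k : ℕ) : PP (k * G) (fun n => f n ^ k) := by
  induction k with
  | zero => simpa using PP.const (G := 0) le_rfl 1
  | succ k ih =>
    have := ih.mul hf
    refine (this.congr' (Eventually.of_forall fun n => ?_)).mono (le_of_eq ?_)
    · simp only [pow_succ]
    · push_cast; ring

lemma PP.sum {ι : Type*} (s : Finset ι) {G : ℝ} {f : ι → ℕ → ℝ} (hf : ∀ i ∈ s, PP G (f i)) :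
    PP G (fun n => ∑ i ∈ s, f i n) := by
  classical
  induction s using Finset.induction_on with
  | empty => simpa using PP.zero G
  | insert a s ha ih =>
    have h1 := (hf a (Finset.mem_insert_self a s)).add
      (ih fun i hi => hf i (Finset.mem_insert_of_mem hi))
    refine h1.congr' (Eventually.of_forall fun n => ?_)
    simp only [Finset.sum_insert ha]

lemma mon_tendsto_zero {ρ : ℝ} (h : ρ < 0) : Tendsto (mon ρ) atTop (𝓝 0) := by
  have := (tendsto_rpow_neg_atTop (y := -ρ) (by linarith)).comp tendsto_xb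
  refine this.congr fun n => ?_
  simp [mon]

lemma PP.tendsto_zero {G : ℝ} (hG : G < 0) {f : ℕ → ℝ} (hf : PP G f) :
    Tendsto f atTop (𝓝 0) := hf.isBigO.trans_tendsto (mon_tendsto_zero hG)

end F526
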