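import Pool.Agent.Lib.MP_f52611_an.LinSum
import Pool.Agent.Lib.MP_f52611_an.LogSum
import Pool.Agent.Lib.MP_f52611_an.LaplaceSum
import Pool.Agent.Lib.MP_f52611_an.LogSq

open Filter Topology Asymptotics

namespace F526

/-! ### the span of the single-logarithm functions -/

/-- powers and powers times a logarithm -/
def SL : Submodule ℝ (ℝ → ℝ) := Submodule.span ℝ ({f | ∃ ρ : ℝ, f = fun t => t ^ ρ} ∪
      {f | ∃ ρ : ℝ, f = fun t : ℝ => t ^ ρ * Real.log (1 / t)} : Set (ℝ → ℝ))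

lemma SL_pow (k : ℕ) : (fun t : ℝ => t ^ k) ∈ SL := by
  refine Submodule.subset_span (Or.inl ⟨(k : ℝ), ?_⟩)
  ext t
  rw [Real.rpow_natCast]

lemma Elem_le_SL : Elem ≤ SL := by
  refine Submodule.span_mono ?_
  rintro f (⟨ρ, rfl⟩ | ⟨n, rfl⟩)
  · exact Or.inl ⟨ρ, rfl⟩
  · refine Or.inr ⟨(n : ℝ), ?_⟩
    ext t
    rw [Real.rpow_natCast]

lemma SL_mul_pow (k : ℕ) {s : ℝ → ℝ} (hs : s ∈ SL) :
    ∃ s' ∈ SL, ∀ t, 0 < t → s' t = t ^ k * s t := by
  induction hs using Submodule.span_induction with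
  | mem f hf =>
    rcases hf with ⟨ρ, rfl⟩ | ⟨ρ, rfl⟩
    · refine ⟨fun t => t ^ ((k : ℝ) + ρ), Submodule.subset_span (Or.inl ⟨_, rfl⟩), fun t ht => ?_⟩
      simp only
      rw [Real.rpow_add ht, Real.rpow_natCast]
    · refine ⟨fun t => t ^ ((k : ℝ) + ρ) * Real.log (1 / t),
        Submodule.subset_span (Or.inr ⟨_, rfl⟩), fun t ht => ?_⟩
      simp only
      rw [Real.rpow_add ht, Real.rpow_natCast]; ring
  | zero => exact ⟨0, Submodule.zero_mem _, fun t _ => by simp⟩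
  | add f g _ _ hf hg =>
    obtain ⟨f', hf', h1⟩ := hf
    obtain ⟨g', hg', h2⟩ := hg
    refine ⟨f' + g', Submodule.add_mem _ hf' hg', fun t ht => ?_⟩
    simp only [Pi.add_apply, h1 t ht, h2 t ht]; ring
  | smul c f _ hf =>
    obtain ⟨f', hf', h1⟩ := hf
    refine ⟨c • f', Submodule.smul_mem _ c hf', fun t ht => ?_⟩
    simp only [Pi.smul_apply, smul_eq_mul, h1 t ht]; ring

lemma ev01 : ∀ᶠ t in 𝓝[>] (0 : ℝ), 0 < t ∧ t < 1 ∧ 0 ≤ Real.log (1 / t) := by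
  filter_upwards [eventually_pos', eventually_lt' one_pos] with t ht ht1
  refine ⟨ht, ht1, Real.log_nonneg ?_⟩
  rw [le_div_iff₀ ht]; linarith

lemma isBigO_pow_log {m k : ℕ} (h : k ≤ m) : (fun t : ℝ => t ^ m) =O[𝓝[>] (0 : ℝ)]
    (fun t : ℝ => t ^ k * (1 + Real.log (1 / t))) := by
  refine IsBigO.of_bound 1 ?_
  filter_upwards [ev01] with t ⟨ht, ht1, hl⟩
  rw [one_mul, Real.norm_of_nonneg (pow_pos ht m).le, Real.norm_of_nonneg (by positivity)]
  calc t ^ m ≤ t ^ k := pow_le_pow_of_le_one ht.le ht1.le h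
    _ = t ^ k * 1 := by ring
    _ ≤ _ := mul_le_mul_of_nonneg_left (by linarith) (by positivity)

lemma isBigO_powlog_mul {m k j : ℕ} (h : k ≤ j + m) {f : ℝ → ℝ}
    (hf : f =O[𝓝[>] (0 : ℝ)] (fun t : ℝ => t ^ m * (1 + Real.log (1 / t)))) :
    (fun t => t ^ j * f t) =O[𝓝[>] (0 : ℝ)] (fun t : ℝ => t ^ k * (1 + Real.log (1 / t))) := by
  have h1 := (isBigO_refl (fun t : ℝ => t ^ j) (𝓝[>] (0 : ℝ))).mul hf
  refine h1.trans ?_
  refine IsBigO.of_bound 1 ?_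
  filter_upwards [ev01] with t ⟨ht, ht1, hl⟩
  rw [one_mul, Real.norm_of_nonneg (by positivity), Real.norm_of_nonneg (by positivity)]
  calc t ^ j * (t ^ m * (1 + Real.log (1 / t))) = t ^ (j + m) * (1 + Real.log (1 / t)) := by
        rw [pow_add]; ring
    _ ≤ t ^ k * (1 + Real.log (1 / t)) :=
        mul_le_mul_of_nonneg_right (pow_le_pow_of_le_one ht.le ht1.le h) (by linarith)

lemma isBigO_pow_mul {m k j : ℕ} (h : k ≤ j + m) {f : ℝ → ℝ}
    (hf : f =O[𝓝[>] (0 : ℝ)] (fun t : ℝ => t ^ m)) :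
    (fun t => t ^ j * f t) =O[𝓝[>] (0 : ℝ)] (fun t : ℝ => t ^ k * (1 + Real.log (1 / t))) :=
  ((isBigO_refl (fun t : ℝ => t ^ j) (𝓝[>] (0 : ℝ))).mul hf).trans (by
    simp only [← pow_add]; exact isBigO_pow_log h)

/-- terms with two logarithms and a higher power are negligible -/
lemma isBigO_logsq {k : ℕ} : (fun t : ℝ => t ^ (k + 1) * Real.log (1 / t) ^ 2) =O[𝓝[>] (0 : ℝ)]
    (fun t : ℝ => t ^ k * (1 + Real.log (1 / t))) := by
  have h1 : Tendsto (fun t : ℝ => Real.log t * t ^ (1 : ℝ)) (𝓝[>] 0) (𝓝 0) :=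
    tendsto_log_mul_rpow_nhdsGT_zero one_pos
  have h2 : ∀ᶠ t in 𝓝[>] (0 : ℝ), |Real.log t * t ^ (1 : ℝ)| < 1 := by
    have := h1.eventually (Metric.ball_mem_nhds 0 one_pos)
    filter_upwards [this] with t ht
    rwa [dist_zero_right, Real.norm_eq_abs] at ht
  refine IsBigO.of_bound 1 ?_
  filter_upwards [ev01, h2] with t ⟨ht, ht1, hl⟩ h3
  rw [one_mul, Real.norm_of_nonneg (by positivity), Real.norm_of_nonneg (by positivity)]
  have h4 : t * Real.log (1 / t) ≤ 1 := by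
    rw [one_div, Real.log_inv]
    rw [Real.rpow_one] at h3
    have := (abs_lt.mp h3).1
    linarith
  calc t ^ (k + 1) * Real.log (1 / t) ^ 2 = t ^ k * ((t * Real.log (1 / t)) * Real.log (1 / t)) := by
        ring
    _ ≤ t ^ k * (1 * Real.log (1 / t)) := by gcongr
    _ ≤ _ := mul_le_mul_of_nonneg_left (by linarith) (by positivity)

/-- uniqueness of the coefficients `1, t, t² log` modulo `O(t²)` -/
lemma log_unique {p q σ : ℝ} (h : (fun t => p + q * t + σ * (t ^ 2 * Real.log (1 / t)))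
    =O[𝓝[>] (0 : ℝ)] (fun t : ℝ => t ^ 2)) : σ = 0 := by
  have hlog0 : Tendsto (fun t : ℝ => t * Real.log (1 / t)) (𝓝[>] 0) (𝓝 0) := by
    have h1 : Tendsto (fun t : ℝ => Real.log t * t ^ (1 : ℝ)) (𝓝[>] 0) (𝓝 0) :=
      tendsto_log_mul_rpow_nhdsGT_zero one_pos
    have h2 := h1.neg
    rw [neg_zero] at h2
    refine h2.congr fun t => ?_
    rw [Real.rpow_one, one_div, Real.log_inv]; ring
  have ht0 : Tendsto (fun t : ℝ => t) (𝓝[>] 0) (𝓝 0) := tendsto_id.mono_left nhdsWithin_le_nhds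
  -- p = 0
  have hp : p = 0 := by
    have h1 : Tendsto (fun t : ℝ => t ^ 2) (𝓝[>] 0) (𝓝 0) := by simpa using ht0.pow 2
    have h2 := h.trans_tendsto h1
    have h3 : Tendsto (fun t => p + q * t + σ * (t ^ 2 * Real.log (1 / t))) (𝓝[>] 0) (𝓝 p) := by
      have h4 := ((ht0.const_mul q).const_add p).add ((ht0.mul hlog0).const_mul σ)
      simp only [mul_zero, add_zero] at h4
      refine h4.congr fun t => ?_
      ring
    exact tendsto_nhds_unique h3 h2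
  subst hp
  have hq : q = 0 := by
    have h1 : (fun t => q + σ * (t * Real.log (1 / t))) =O[𝓝[>] (0 : ℝ)] (fun t : ℝ => t) := by
      have h2 := (isBigO_refl (fun t : ℝ => t⁻¹) (𝓝[>] (0 : ℝ))).mul h
      refine (h2.congr' ?_ ?_)
      · filter_upwards [eventually_pos'] with t ht
        field_simp
        ring
      · filter_upwards [eventually_pos'] with t ht
        field_simp
    have h2 := h1.trans_tendsto ht0
    have h3 : Tendsto (fun t => q + σ * (t * Real.log (1 / t))) (𝓝[>] 0) (𝓝 q) := by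
      have h4 := (hlog0.const_mul σ).const_add q
      simpa using h4
    exact tendsto_nhds_unique h3 h2
  subst hq
  by_contra hσ
  obtain ⟨C, hC⟩ := h.bound
  have hinf : Tendsto (fun t : ℝ => Real.log (1 / t)) (𝓝[>] 0) atTop := by
    have h1 : Tendsto (fun t : ℝ => t⁻¹) (𝓝[>] 0) atTop := tendsto_inv_nhdsGT_zero
    refine (Real.tendsto_log_atTop.comp h1).congr fun t => ?_
    simp
  have h2 := hinf.eventually_gt_atTop (C / |σ|)
  obtain ⟨t, ⟨⟨ht, ht1, hl⟩, h3⟩, h4⟩ := ((ev01.and h2).and hC).exists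
  rw [Real.norm_eq_abs, Real.norm_eq_abs, abs_of_pos (pow_pos ht 2)] at h4
  have h5 : |0 + 0 * t + σ * (t ^ 2 * Real.log (1 / t))| = |σ| * Real.log (1 / t) * t ^ 2 := by
    rw [zero_mul, zero_add, zero_add, abs_mul, abs_of_nonneg (by positivity : 0 ≤ t ^ 2 * Real.log (1 / t))]
    ring
  rw [h5] at h4
  have h6 := le_of_mul_le_mul_right h4 (pow_pos ht 2)
  rw [div_lt_iff₀ (abs_pos.mpr hσ)] at h3
  linarith

/-! ### sums against `exp(-t V)` -/

/-- the Laplace type sum -/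
noncomputable def Lsm (φ V : ℕ → ℝ) (t : ℝ) : ℝ := ∑' n, φ n * Real.exp (-t * V n)

lemma Lsm_summable {φ V : ℕ → ℝ} {C C' : ℝ} (hφ : ∀ n, |φ n| ≤ C * mon (-2) n)
    (hV : ∀ n, -C' ≤ V n) {t : ℝ} (ht : 0 < t) (ht1 : t < 1) :
    Summable fun n => φ n * Real.exp (-t * V n) := by
  have hs := summable_mon (by norm_num : (-2 : ℝ) < -1)
  refine Summable.of_norm_bounded ((hs.mul_left C).mul_right (Real.exp |C'|)) fun n => ?_
  rw [norm_mul, Real.norm_eq_abs, Real.norm_of_nonneg (Real.exp_pos _).le]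
  refine mul_le_mul (hφ n) ?_ (Real.exp_pos _).le ((abs_nonneg _).trans (hφ n))
  refine Real.exp_le_exp.mpr ?_
  have h1 := hV n
  have h2 := le_abs_self C'
  have h3 := abs_nonneg C'
  nlinarith

/-- sums of error terms -/
lemma err_sum {g : ℕ → ℝ → ℝ} {k : ℕ} {C : ℝ}
    (hg : ∀ᶠ t in 𝓝[>] (0 : ℝ), ∀ n, |g n t| ≤ C * (t ^ k * mon (-2) n)) :
    (fun t => ∑' n, g n t) =O[𝓝[>] (0 : ℝ)] (fun t : ℝ => t ^ k) ∧
    ∀ᶠ t in 𝓝[>] (0 : ℝ), Summable fun n => g n t := by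
  have hs := summable_mon (by norm_num : (-2 : ℝ) < -1)
  constructor
  · refine IsBigO.of_bound (C * ∑' n, mon (-2) n) ?_
    filter_upwards [hg, eventually_pos'] with t h1 ht
    have hsum : Summable fun n => g n t :=
      Summable.of_norm_bounded ((hs.mul_left (t ^ k)).mul_left C) h1
    rw [Real.norm_of_nonneg (pow_pos ht k).le]
    refine (norm_tsum_le_tsum_norm hsum.norm).trans ?_
    refine (Summable.tsum_le_tsum h1 hsum.norm ((hs.mul_left (t ^ k)).mul_left C)).trans ?_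
    rw [tsum_mul_left, tsum_mul_left]
    exact le_of_eq (by ring)
  · filter_upwards [hg] with t h1
    exact Summable.of_norm_bounded ((hs.mul_left (t ^ k)).mul_left C) h1

/-! ### pointwise expansions -/

lemma exp2_bound (y : ℝ) : |Real.exp y - (1 + y + y ^ 2 / 2)| ≤ |y| ^ 3 * Real.exp |y| := by
  have h1 := Complex.norm_exp_sub_sum_le_norm_mul_exp (y : ℂ) 3
  have h2 : Complex.exp (y : ℂ) - ∑ m ∈ Finset.range 3, (y : ℂ) ^ m / (m.factorial : ℂ)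
      = ((Real.exp y - (1 + y + y ^ 2 / 2) : ℝ) : ℂ) := by
    push_cast
    simp [Finset.sum_range_succ]
  rw [h2, Complex.norm_real, Complex.norm_real, Real.norm_eq_abs, Real.norm_eq_abs] at h1
  exact h1

lemma exp0_bound (y : ℝ) : |Real.exp y - 1| ≤ |y| * Real.exp |y| := by
  have h1 := Complex.norm_exp_sub_sum_le_norm_mul_exp (y : ℂ) 1
  have h2 : Complex.exp (y : ℂ) - ∑ m ∈ Finset.range 1, (y : ℂ) ^ m / (m.factorial : ℂ)
      = ((Real.exp y - 1 : ℝ) : ℂ) := by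
    push_cast
    simp [Finset.sum_range_succ]
  rw [h2, Complex.norm_real, Complex.norm_real, Real.norm_eq_abs, Real.norm_eq_abs] at h1
  simpa using h1

lemma logxb0 (n : ℕ) : 0 ≤ Real.log (xb n) := Real.log_nonneg (one_le_xb n)

/-- cubes of logarithms -/
lemma one_add_log_cube : ∃ C, 0 < C ∧ ∀ n, (1 + Real.log (xb n)) ^ 3 ≤ C * mon (1 / 6) n := by
  have h1 : (fun n => 1 + Real.log (xb n)) =O[atTop] mon (1 / 18) := by
    have h2 : (fun _ : ℕ => (1 : ℝ)) =O[atTop] mon (1 / 18) := by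
      have := mon_isBigO (by norm_num : (0 : ℝ) ≤ 1 / 18)
      rwa [mon_zero] at this
    exact h2.add (log_isBigO_mon (by norm_num))
  obtain ⟨C, hC, hb⟩ := exists_bound h1
  refine ⟨C ^ 3, by positivity, fun n => ?_⟩
  have h2 := (le_abs_self _).trans (hb n)
  have h3 := pow_le_pow_left₀ (by have := logxb0 n; linarith) h2 3
  refine h3.trans (le_of_eq ?_)
  rw [mul_pow, mon_pow]
  congr 2
  norm_num

/-- exponentials of small multiples of the logarithm -/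
lemma exp_log_le {C : ℝ} (hC : 0 ≤ C) : ∀ᶠ t in 𝓝[>] (0 : ℝ), ∀ n,
    Real.exp (C * t * (1 + Real.log (xb n))) ≤ 2 * mon (1 / 6) n := by
  filter_upwards [eventually_pos', eventually_lt' (show 0 < 1 / (6 * (C + 1)) by positivity)]
    with t ht htC n
  rw [lt_div_iff₀ (by positivity)] at htC
  have h1 : C * t ≤ 1 / 6 := by nlinarith
  have h2 : Real.exp (C * t * (1 + Real.log (xb n)))
      = Real.exp (C * t) * Real.exp (C * t * Real.log (xb n)) := by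
    rw [← Real.exp_add]; congr 1; ring
  have h3 : Real.exp (C * t * Real.log (xb n)) = mon (C * t) n := by
    unfold mon
    rw [Real.rpow_def_of_pos (xb_pos n), mul_comm]
  rw [h2, h3]
  have h4 : Real.exp (C * t) ≤ 2 := by
    refine le_trans (Real.exp_le_exp.mpr (by linarith)) exp_half_le'
  exact mul_le_mul h4 (mon_le h1 n) (mon_pos _ _).le (by norm_num)
where
  exp_half_le' : Real.exp (1 / 2) ≤ 2 := by
    have h1 : Real.exp (1 / 2) ^ 2 ≤ 4 := by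
      rw [← Real.exp_nat_mul]
      norm_num
      have := Real.exp_one_lt_d9
      linarith
    have h2 := Real.exp_pos (1 / 2)
    nlinarith


/-- sequences with a dominant monomial are bounded by it -/
lemma isBigO_of_lead {ρ ε c : ℝ} (hε : 0 < ε) {f : ℕ → ℝ}
    (hf : PP (ρ - ε) (fun n => f n - c * mon ρ n)) : f =O[atTop] mon ρ := by
  have h1 := (hf.isBigO.trans (mon_isBigO (by linarith : ρ - ε ≤ ρ))).add
    ((isBigO_refl (mon ρ) atTop).const_mul_left c)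
  exact h1.congr_left fun n => by ring

lemma lower_of_eventually {V : ℕ → ℝ} (h : ∀ᶠ n in atTop, 0 ≤ V n) : ∃ C, ∀ n, -C ≤ V n := by
  have h1 : (fun n => min (V n) 0) =O[atTop] mon 0 := by
    refine (isBigO_zero (fun n => mon 0 n) atTop).congr' ?_ EventuallyEq.rfl
    filter_upwards [h] with n hn
    rw [min_eq_right hn]
  obtain ⟨C, hC, hb⟩ := exists_bound h1
  refine ⟨C, fun n => ?_⟩
  have h2 := (abs_le.mp (hb n)).1
  rw [mon_zero, Pi.one_apply, mul_one] at h2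
  exact h2.trans (min_le_left _ _)

lemma V_bounds {V : ℕ → ℝ} {κ ε r : ℝ} (hκ : 0 < κ) (hε : 0 < ε)
    (hV : PP (2 / 3 - ε) (fun n => V n - r * Real.log (xb n) - κ * mon (2 / 3) n)) :
    (∃ C, ∀ n, |V n| ≤ C * mon (2 / 3) n) ∧ ∃ C, ∀ n, -C ≤ V n := by
  have hlog : (fun n => r * Real.log (xb n)) =O[atTop] mon (1 / 3) :=
    (log_isBigO_mon (by norm_num)).const_mul_left r
  have h0 : (fun n => V n - κ * mon (2 / 3) n) =o[atTop] mon (2 / 3) := by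
    have h1 := hV.isBigO.trans_isLittleO (mon_isLittleO (by linarith : 2 / 3 - ε < 2 / 3))
    have h2 := hlog.trans_isLittleO (mon_isLittleO (by norm_num : (1 / 3 : ℝ) < 2 / 3))
    refine (h1.add h2).congr_left fun n => ?_
    ring
  constructor
  · have h1 := h0.isBigO.add ((isBigO_refl (mon (2 / 3)) atTop).const_mul_left κ)
    obtain ⟨C, _, hb⟩ := exists_bound (f := V) (h1.congr_left fun n => by ring)
    exact ⟨C, hb⟩
  · refine lower_of_eventually ?_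
    filter_upwards [h0.bound (show 0 < κ / 2 by positivity)] with n hn
    rw [Real.norm_of_nonneg (mon_pos _ n).le, Real.norm_eq_abs] at hn
    have h1 := (abs_le.mp hn).1
    have h2 := mul_pos hκ (mon_pos (2 / 3) n)
    nlinarith

/-! ### pointwise expansions -/

lemma pw_A {C t l v2 v3 v4 ρ : ℝ} (hC : 0 ≤ C) (ht : 0 < t) (ht1 : t < 1) (hl : 0 ≤ l)
    (h2 : |v2| ≤ C) (h3 : |v3| ≤ C * (1 + l)) (h4 : |v4| ≤ C) (hρ : |ρ| ≤ C * t ^ 5) :
    |-(t ^ 2 * v2) - t ^ 3 * v3 - t ^ 4 * v4 + ρ| ≤ 4 * C * (t ^ 2 * (1 + l)) := by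
  have e1 : |-(t ^ 2 * v2)| ≤ C * (t ^ 2 * (1 + l)) := by
    rw [abs_neg, abs_mul, abs_of_pos (pow_pos ht 2)]
    calc t ^ 2 * |v2| ≤ t ^ 2 * (C * (1 + l)) := by
          refine mul_le_mul_of_nonneg_left (h2.trans ?_) (pow_pos ht 2).le
          nlinarith
      _ = _ := by ring
  have t32 : t ^ 3 ≤ t ^ 2 := pow_le_pow_of_le_one ht.le ht1.le (by norm_num)
  have t42 : t ^ 4 ≤ t ^ 2 := pow_le_pow_of_le_one ht.le ht1.le (by norm_num)
  have t52 : t ^ 5 ≤ t ^ 2 := pow_le_pow_of_le_one ht.le ht1.le (by norm_num)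
  have e2 : |t ^ 3 * v3| ≤ C * (t ^ 2 * (1 + l)) := by
    rw [abs_mul, abs_of_pos (pow_pos ht 3)]
    calc t ^ 3 * |v3| ≤ t ^ 2 * (C * (1 + l)) :=
          mul_le_mul t32 h3 (abs_nonneg _) (by positivity)
      _ = _ := by ring
  have e3 : |t ^ 4 * v4| ≤ C * (t ^ 2 * (1 + l)) := by
    rw [abs_mul, abs_of_pos (pow_pos ht 4)]
    calc t ^ 4 * |v4| ≤ t ^ 2 * (C * (1 + l)) := by
          refine mul_le_mul t42 (h4.trans ?_) (abs_nonneg _) (by positivity)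
          nlinarith
      _ = _ := by ring
  have e4 : |ρ| ≤ C * (t ^ 2 * (1 + l)) := by
    refine hρ.trans ?_
    refine mul_le_mul_of_nonneg_left ?_ hC
    nlinarith [pow_pos ht 2]
  have a1 := abs_add_le (-(t ^ 2 * v2) - t ^ 3 * v3 - t ^ 4 * v4) ρ
  have a2 := abs_sub (-(t ^ 2 * v2) - t ^ 3 * v3) (t ^ 4 * v4)
  have a3 := abs_sub (-(t ^ 2 * v2)) (t ^ 3 * v3)
  linarith

lemma pw_A2 {C t l v3 v4 ρ : ℝ} (hC : 0 ≤ C) (ht : 0 < t) (ht1 : t < 1) (hl : 0 ≤ l)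
    (h3 : |v3| ≤ C * (1 + l)) (h4 : |v4| ≤ C) (hρ : |ρ| ≤ C * t ^ 5) :
    |-(t ^ 3 * v3) - t ^ 4 * v4 + ρ| ≤ 3 * C * (t ^ 3 * (1 + l)) := by
  have t43 : t ^ 4 ≤ t ^ 3 := pow_le_pow_of_le_one ht.le ht1.le (by norm_num)
  have t53 : t ^ 5 ≤ t ^ 3 := pow_le_pow_of_le_one ht.le ht1.le (by norm_num)
  have e2 : |-(t ^ 3 * v3)| ≤ C * (t ^ 3 * (1 + l)) := by
    rw [abs_neg, abs_mul, abs_of_pos (pow_pos ht 3)]
    calc t ^ 3 * |v3| ≤ t ^ 3 * (C * (1 + l)) :=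
          mul_le_mul_of_nonneg_left h3 (by positivity)
      _ = _ := by ring
  have e3 : |t ^ 4 * v4| ≤ C * (t ^ 3 * (1 + l)) := by
    rw [abs_mul, abs_of_pos (pow_pos ht 4)]
    calc t ^ 4 * |v4| ≤ t ^ 3 * (C * (1 + l)) := by
          refine mul_le_mul t43 (h4.trans ?_) (abs_nonneg _) (by positivity)
          nlinarith
      _ = _ := by ring
  have e4 : |ρ| ≤ C * (t ^ 3 * (1 + l)) := by
    refine hρ.trans ?_
    refine mul_le_mul_of_nonneg_left ?_ hC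
    nlinarith [pow_pos ht 3]
  have a1 := abs_add_le (-(t ^ 3 * v3) - t ^ 4 * v4) ρ
  have a2 := abs_sub (-(t ^ 3 * v3)) (t ^ 4 * v4)
  linarith

/-- expansion in step B -/
lemma pw_B {C t l r v2 v3 v4 ρ : ℝ} (hC : 0 ≤ C) (ht : 0 < t) (ht1 : t < 1) (hl : 0 ≤ l)
    (hr : |r| ≤ C) (h2 : |v2| ≤ C) (h3 : |v3| ≤ C * (1 + l)) (h4 : |v4| ≤ C)
    (hρ : |ρ| ≤ C * t ^ 5) :
    |Real.exp (-(t * (r * l)) + (-(t ^ 2 * v2) - t ^ 3 * v3 - t ^ 4 * v4 + ρ))
      - (1 - t * (r * l) + t ^ 2 * (r ^ 2 * l ^ 2 / 2 - v2))|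
      ≤ (125 * C ^ 3 + 12 * C ^ 2 + 3 * C) *
        (t ^ 3 * ((1 + l) ^ 3 * Real.exp (5 * C * t * (1 + l)))) := by
  set y := -(t ^ 2 * v2) - t ^ 3 * v3 - t ^ 4 * v4 + ρ with hy
  set z := t * (r * l) with hz
  have hyb : |y| ≤ 4 * C * (t ^ 2 * (1 + l)) := pw_A hC ht ht1 hl h2 h3 h4 hρ
  have hy3 : |y + t ^ 2 * v2| ≤ 3 * C * (t ^ 3 * (1 + l)) := by
    have := pw_A2 hC ht ht1 hl h3 h4 hρ
    have e : y + t ^ 2 * v2 = -(t ^ 3 * v3) - t ^ 4 * v4 + ρ := by rw [hy]; ring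
    rw [e]; exact this
  have hl1 : 1 ≤ 1 + l := by linarith
  have hzb : |z| ≤ C * (t * (1 + l)) := by
    rw [hz, abs_mul, abs_mul, abs_of_pos ht, abs_of_nonneg hl]
    calc t * (|r| * l) ≤ t * (C * (1 + l)) := by
          refine mul_le_mul_of_nonneg_left ?_ ht.le
          exact mul_le_mul hr (by linarith) hl hC
      _ = _ := by ring
  have ht2 : t ^ 2 ≤ t := by nlinarith
  have hyb' : |y| ≤ 4 * C * (t * (1 + l)) := by
    refine hyb.trans ?_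
    have : t ^ 2 * (1 + l) ≤ t * (1 + l) := mul_le_mul_of_nonneg_right ht2 (by linarith)
    nlinarith
  set Y := -z + y with hY
  have hYb : |Y| ≤ 5 * C * (t * (1 + l)) := by
    have := abs_add_le (-z) y
    rw [abs_neg] at this
    linarith
  have b1 := exp2_bound Y
  have b2 : |Y| ^ 3 * Real.exp |Y| ≤ 125 * C ^ 3 * (t ^ 3 * ((1 + l) ^ 3
      * Real.exp (5 * C * t * (1 + l)))) := by
    have c1 := pow_le_pow_left₀ (abs_nonneg Y) hYb 3
    have c2 : Real.exp |Y| ≤ Real.exp (5 * C * t * (1 + l)) :=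
      Real.exp_le_exp.mpr (hYb.trans (le_of_eq (by ring)))
    calc |Y| ^ 3 * Real.exp |Y| ≤ (5 * C * (t * (1 + l))) ^ 3 * Real.exp (5 * C * t * (1 + l)) :=
          mul_le_mul c1 c2 (Real.exp_pos _).le (by positivity)
      _ = _ := by ring
  have hexp1 : 1 ≤ Real.exp (5 * C * t * (1 + l)) := Real.one_le_exp (by positivity)
  have hpow : (1 + l) ^ 2 ≤ (1 + l) ^ 3 := pow_le_pow_right₀ hl1 (by norm_num)
  have hpow' : (1 + l) ≤ (1 + l) ^ 3 := by
    have := pow_le_pow_right₀ hl1 (show 1 ≤ 3 by norm_num)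
    simpa using this
  set M := (1 + l) ^ 3 * Real.exp (5 * C * t * (1 + l)) with hM
  have hM0 : 0 ≤ M := by positivity
  have hM1 : (1 + l) ^ 3 ≤ M := by
    rw [hM]; nlinarith [pow_pos (by linarith : 0 < 1 + l) 3]
  -- quadratic term
  have b3 : |Y ^ 2 / 2 - z ^ 2 / 2| ≤ 12 * C ^ 2 * (t ^ 3 * M) := by
    have e : Y ^ 2 / 2 - z ^ 2 / 2 = y * (Y - z) / 2 := by rw [hY]; ring
    rw [e, abs_div, abs_mul, abs_two]
    have c1 : |Y - z| ≤ 6 * C * (t * (1 + l)) := by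
      have := abs_sub Y z
      linarith
    have c2 : |y| * |Y - z| ≤ (4 * C * (t ^ 2 * (1 + l))) * (6 * C * (t * (1 + l))) :=
      mul_le_mul hyb c1 (abs_nonneg _) (by positivity)
    have c3 : (4 * C * (t ^ 2 * (1 + l))) * (6 * C * (t * (1 + l)))
        = 24 * C ^ 2 * (t ^ 3 * (1 + l) ^ 2) := by ring
    have c4 : t ^ 3 * (1 + l) ^ 2 ≤ t ^ 3 * M :=
      mul_le_mul_of_nonneg_left (hpow.trans hM1) (by positivity)
    rw [div_le_iff₀ (by norm_num)]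
    nlinarith [sq_nonneg C]
  have b4 : |y + t ^ 2 * v2| ≤ 3 * C * (t ^ 3 * M) := by
    refine hy3.trans ?_
    have : t ^ 3 * (1 + l) ≤ t ^ 3 * M :=
      mul_le_mul_of_nonneg_left (hpow'.trans hM1) (by positivity)
    nlinarith
  have e : Real.exp Y - (1 - t * (r * l) + t ^ 2 * (r ^ 2 * l ^ 2 / 2 - v2))
      = (Real.exp Y - (1 + Y + Y ^ 2 / 2)) + (Y ^ 2 / 2 - z ^ 2 / 2) + (y + t ^ 2 * v2) := by
    rw [hY, hz]; ring
  rw [e]
  have f1 := abs_add_le ((Real.exp Y - (1 + Y + Y ^ 2 / 2)) + (Y ^ 2 / 2 - z ^ 2 / 2))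
    (y + t ^ 2 * v2)
  have f2 := abs_add_le (Real.exp Y - (1 + Y + Y ^ 2 / 2)) (Y ^ 2 / 2 - z ^ 2 / 2)
  have f3 := b1.trans b2
  linarith

/-- expansion in step C -/
lemma pw_C {C t l v2 v3 v4 ρ : ℝ} (hC : 0 ≤ C) (ht : 0 < t) (ht1 : t < 1) (hl : 0 ≤ l)
    (h2 : |v2| ≤ C) (h3 : |v3| ≤ C * (1 + l)) (h4 : |v4| ≤ C) (hρ : |ρ| ≤ C * t ^ 5) :
    |Real.exp (-(t ^ 2 * v2) - t ^ 3 * v3 - t ^ 4 * v4 + ρ)
      - (1 - t ^ 2 * v2 - t ^ 3 * v3 + t ^ 4 * (v2 ^ 2 / 2 - v4))|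
      ≤ (64 * C ^ 3 + 8 * C ^ 2 + C) *
        (t ^ 5 * ((1 + l) ^ 3 * Real.exp (4 * C * t * (1 + l)))) := by
  set y := -(t ^ 2 * v2) - t ^ 3 * v3 - t ^ 4 * v4 + ρ with hy
  have hyb : |y| ≤ 4 * C * (t ^ 2 * (1 + l)) := pw_A hC ht ht1 hl h2 h3 h4 hρ
  have hy3 : |y + t ^ 2 * v2| ≤ 3 * C * (t ^ 3 * (1 + l)) := by
    have := pw_A2 hC ht ht1 hl h3 h4 hρ
    have e : y + t ^ 2 * v2 = -(t ^ 3 * v3) - t ^ 4 * v4 + ρ := by rw [hy]; ring
    rw [e]; exact this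
  have hl1 : 1 ≤ 1 + l := by linarith
  have ht2 : t ^ 2 ≤ t := by nlinarith
  have b1 := exp2_bound y
  have hexp1 : 1 ≤ Real.exp (4 * C * t * (1 + l)) := Real.one_le_exp (by positivity)
  have b2 : |y| ^ 3 * Real.exp |y| ≤ 64 * C ^ 3 * (t ^ 5 * ((1 + l) ^ 3
      * Real.exp (4 * C * t * (1 + l)))) := by
    have c1 := pow_le_pow_left₀ (abs_nonneg y) hyb 3
    have c2 : Real.exp |y| ≤ Real.exp (4 * C * t * (1 + l)) := by
      refine Real.exp_le_exp.mpr (hyb.trans ?_)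
      have : t ^ 2 * (1 + l) ≤ t * (1 + l) := mul_le_mul_of_nonneg_right ht2 (by linarith)
      nlinarith
    have c3 : t ^ 6 ≤ t ^ 5 := pow_le_pow_of_le_one ht.le ht1.le (by norm_num)
    calc |y| ^ 3 * Real.exp |y| ≤ (4 * C * (t ^ 2 * (1 + l))) ^ 3 * Real.exp (4 * C * t * (1 + l)) :=
          mul_le_mul c1 c2 (Real.exp_pos _).le (by positivity)
      _ = 64 * C ^ 3 * (t ^ 6 * ((1 + l) ^ 3 * Real.exp (4 * C * t * (1 + l)))) := by ring
      _ ≤ _ := by gcongr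
  have hpow : (1 + l) ^ 2 ≤ (1 + l) ^ 3 := pow_le_pow_right₀ hl1 (by norm_num)
  have hpow' : 1 ≤ (1 + l) ^ 3 := one_le_pow₀ hl1
  set M := (1 + l) ^ 3 * Real.exp (4 * C * t * (1 + l)) with hM
  have hM0 : 0 ≤ M := by positivity
  have hM1 : (1 + l) ^ 3 ≤ M := by
    rw [hM]; nlinarith [pow_pos (by linarith : 0 < 1 + l) 3]
  have b3 : |y ^ 2 / 2 - t ^ 4 * v2 ^ 2 / 2| ≤ 8 * C ^ 2 * (t ^ 5 * M) := by
    have e : y ^ 2 / 2 - t ^ 4 * v2 ^ 2 / 2 = (y + t ^ 2 * v2) * (y - t ^ 2 * v2) / 2 := by ring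
    rw [e, abs_div, abs_mul, abs_two]
    have c1 : |y - t ^ 2 * v2| ≤ 5 * C * (t ^ 2 * (1 + l)) := by
      have c2 := abs_sub y (t ^ 2 * v2)
      have c3 : |t ^ 2 * v2| ≤ C * (t ^ 2 * (1 + l)) := by
        rw [abs_mul, abs_of_pos (pow_pos ht 2)]
        calc t ^ 2 * |v2| ≤ t ^ 2 * (C * (1 + l)) := by
              refine mul_le_mul_of_nonneg_left (h2.trans ?_) (pow_pos ht 2).le
              nlinarith
          _ = _ := by ring
      linarith
    have c2 : |y + t ^ 2 * v2| * |y - t ^ 2 * v2|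
        ≤ (3 * C * (t ^ 3 * (1 + l))) * (5 * C * (t ^ 2 * (1 + l))) :=
      mul_le_mul hy3 c1 (abs_nonneg _) (by positivity)
    have c3 : (3 * C * (t ^ 3 * (1 + l))) * (5 * C * (t ^ 2 * (1 + l)))
        = 15 * C ^ 2 * (t ^ 5 * (1 + l) ^ 2) := by ring
    have c4 : t ^ 5 * (1 + l) ^ 2 ≤ t ^ 5 * M :=
      mul_le_mul_of_nonneg_left (hpow.trans hM1) (by positivity)
    rw [div_le_iff₀ (by norm_num)]
    have c5 : 0 ≤ t ^ 5 * M := by positivity
    nlinarith [sq_nonneg C]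
  have b4 : |ρ| ≤ C * (t ^ 5 * M) := by
    refine hρ.trans ?_
    have : t ^ 5 * 1 ≤ t ^ 5 * M :=
      mul_le_mul_of_nonneg_left (hpow'.trans hM1) (by positivity)
    nlinarith
  have e : Real.exp y - (1 - t ^ 2 * v2 - t ^ 3 * v3 + t ^ 4 * (v2 ^ 2 / 2 - v4))
      = (Real.exp y - (1 + y + y ^ 2 / 2)) + (y ^ 2 / 2 - t ^ 4 * v2 ^ 2 / 2) + ρ := by
    have : y = -(t ^ 2 * v2) - t ^ 3 * v3 - t ^ 4 * v4 + ρ := hy
    linear_combination this
  rw [e]
  have f1 := abs_add_le ((Real.exp y - (1 + y + y ^ 2 / 2)) + (y ^ 2 / 2 - t ^ 4 * v2 ^ 2 / 2)) ρ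
  have f2 := abs_add_le (Real.exp y - (1 + y + y ^ 2 / 2)) (y ^ 2 / 2 - t ^ 4 * v2 ^ 2 / 2)
  have f3 := b1.trans b2
  linarith

end F526
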