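import Pool.Agent.Lib.MP_f52611_an.Alt

open Filter Topology Asymptotics

namespace F526

/-! ### independence of the monomials -/

lemma mon_isLittleO {ρ σ : ℝ} (h : ρ < σ) : mon ρ =o[atTop] mon σ := by
  have h3 : mon ρ = fun n => mon (ρ - σ) n * mon σ n := by
    ext n; rw [mon_mul_apply]; congr 1; ring
  rw [h3]
  have h4 : (fun n => mon (ρ - σ) n) =o[atTop] (fun _ => (1 : ℝ)) :=
    (isLittleO_one_iff ℝ).mpr (mon_tendsto_zero (by linarith))
  simpa using h4.mul_isBigO (isBigO_refl (mon σ) atTop)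

lemma mon_not_isLittleO (ρ : ℝ) : ¬ (mon ρ =o[atTop] mon ρ) := by
  intro h
  have h1 := h.bound (by norm_num : (0 : ℝ) < 1 / 2)
  obtain ⟨n, hn⟩ := h1.exists
  have := mon_pos ρ n
  rw [Real.norm_of_nonneg this.le] at hn
  linarith

lemma lc_apply (c : ℝ →₀ ℝ) (n : ℕ) :
    Finsupp.linearCombination ℝ mon c n = ∑ ρ ∈ c.support, c ρ * mon ρ n := by
  rw [Finsupp.linearCombination_apply, Finsupp.sum, Finset.sum_apply]
  simp

lemma lc_support_le {c : ℝ →₀ ℝ} {σ : ℝ}
    (hO : Finsupp.linearCombination ℝ mon c =O[atTop] mon σ) : ∀ ρ ∈ c.support, ρ ≤ σ := by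
  classical
  by_contra hcon
  push Not at hcon
  obtain ⟨ρ0, hρ0, hlt⟩ := hcon
  have hne : c.support.Nonempty := ⟨ρ0, hρ0⟩
  set R := c.support.max' hne with hR
  have hRmem : R ∈ c.support := Finset.max'_mem _ _
  have hR0 : σ < R := lt_of_lt_of_le hlt (Finset.le_max' _ _ hρ0)
  have hcR : c R ≠ 0 := Finsupp.mem_support_iff.mp hRmem
  have h1 : (fun n => ∑ ρ ∈ c.support.erase R, c ρ * mon ρ n) =o[atTop] mon R := by
    refine IsLittleO.fun_sum (A := fun (ρ : ℝ) (n : ℕ) => c ρ * mon ρ n) (fun ρ hρ => ?_)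
    have h2 : ρ < R := lt_of_le_of_ne (Finset.le_max' _ _ (Finset.mem_of_mem_erase hρ))
      (Finset.ne_of_mem_erase hρ)
    exact (mon_isLittleO h2).const_mul_left _
  have h2 : (fun n => Finsupp.linearCombination ℝ mon c n) =o[atTop] mon R :=
    hO.trans_isLittleO (mon_isLittleO hR0)
  have h3 : (fun n => c R * mon R n) =o[atTop] mon R := by
    refine (h2.sub h1).congr_left fun n => ?_
    rw [lc_apply, ← Finset.add_sum_erase _ _ hRmem]
    ring
  have h4 : (mon R) =o[atTop] mon R := by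
    refine (h3.const_mul_left (c R)⁻¹).congr_left fun n => ?_
    field_simp
  exact mon_not_isLittleO R h4

lemma PW_eq_image (G : ℝ) : PW G = Submodule.span ℝ (mon '' {ρ | ρ ≤ G}) := by
  unfold PW
  congr 1
  ext f
  constructor
  · rintro ⟨ρ, h, rfl⟩; exact ⟨ρ, h, rfl⟩
  · rintro ⟨ρ, h, rfl⟩; exact ⟨ρ, h, rfl⟩

lemma PW_of_isBigO {G σ : ℝ} {P : ℕ → ℝ} (hP : P ∈ PW G) (hO : P =O[atTop] mon σ) : P ∈ PW σ := by
  rw [PW_eq_image, Finsupp.mem_span_image_iff_linearCombination] at hP
  obtain ⟨c, _, rfl⟩ := hP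
  rw [PW_eq_image, Finsupp.mem_span_image_iff_linearCombination]
  refine ⟨c, ?_, rfl⟩
  rw [Finsupp.mem_supported]
  intro ρ hρ
  exact lc_support_le hO ρ hρ

/-- a sequence of the class which is `O(n^σ)` has only exponents `≤ σ` -/
lemma PP.of_isBigO_mon {G σ : ℝ} {f : ℕ → ℝ} (hf : PP G f) (hO : f =O[atTop] F526.mon σ) :
    PP σ f := by
  intro T
  obtain ⟨P, hP, hP'⟩ := hf (max T (-σ))
  refine ⟨P, ?_, hP'.trans (mon_isBigO (by have := le_max_left T (-σ); linarith))⟩
  refine PW_of_isBigO hP ?_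
  have h1 := hO.sub (hP'.trans (mon_isBigO (show -(max T (-σ)) ≤ σ by
    have := le_max_right T (-σ); linarith)))
  refine h1.congr_left fun n => ?_
  ring

/-! ### tail sums -/

lemma PW_tail_aux (T : ℝ) : ∀ k : ℕ, ∀ G : ℝ, G < -1 → G ≤ -T + k → ∀ P ∈ PW G,
    ∃ q ∈ PW (G + 1), (fun n => P n - (q n - q (n + 1))) =O[atTop] mon (-T) := by
  intro k
  induction k with
  | zero =>
    intro G _ hG P hP
    refine ⟨0, Submodule.zero_mem _, ?_⟩
    simpa using (PW_isBigO hP).trans (mon_isBigO (by simpa using hG))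
  | succ k ih =>
    intro G hG1 hG P hP
    induction hP using Submodule.span_induction with
    | mem f hf =>
      obtain ⟨ρ, hρ, rfl⟩ := hf
      obtain ⟨P1, hP1, hO1⟩ := (PP_mon_diff2 (ρ + 1)) T
      have hP1' : P1 ∈ PW (G - 1) := PW_mono (by linarith) hP1
      obtain ⟨q1, hq1, hO2⟩ := ih (G - 1) (by linarith) (by push_cast at hG; linarith) P1 hP1'
      have hρ1 : ρ + 1 ≠ 0 := by linarith
      refine ⟨-(ρ + 1)⁻¹ • mon (ρ + 1) - (ρ + 1)⁻¹ • q1, ?_, ?_⟩
      · exact Submodule.sub_mem _ (Submodule.smul_mem _ _ (mon_mem (by linarith)))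
          (Submodule.smul_mem _ _ (PW_mono (by linarith) hq1))
      · refine (((hO1.add hO2).const_mul_left (-(ρ + 1)⁻¹)).congr_left fun n => ?_)
        simp only [Pi.sub_apply, Pi.smul_apply, smul_eq_mul, add_sub_cancel_right]
        field_simp
        ring
    | zero => exact ⟨0, Submodule.zero_mem _, by simpa using isBigO_zero _ _⟩
    | add f g _ _ hf hg =>
      obtain ⟨q, hq, hO⟩ := hf
      obtain ⟨q', hq', hO'⟩ := hg
      refine ⟨q + q', Submodule.add_mem _ hq hq', ?_⟩
      refine (hO.add hO').congr_left fun n => ?_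
      simp only [Pi.add_apply]; ring
    | smul c f _ hf =>
      obtain ⟨q, hq, hO⟩ := hf
      refine ⟨c • q, Submodule.smul_mem _ _ hq, ?_⟩
      refine (hO.const_mul_left c).congr_left fun n => ?_
      simp only [Pi.smul_apply, smul_eq_mul]; ring

/-- a null sequence whose difference is in the class is in the class -/
lemma PP.tail {G : ℝ} (hG : G < -1) {f v : ℕ → ℝ} (hf : PP G f) (hv0 : Tendsto v atTop (𝓝 0))
    (hv : ∀ n, v n - v (n + 1) = f n) : PP (G + 1) v := by
  intro T
  set T' := max T 1 + 1 with hT'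
  obtain ⟨P, hP, hO⟩ := hf T'
  obtain ⟨k, hk⟩ := exists_nat_ge (G + T')
  obtain ⟨q, hq, hO'⟩ := PW_tail_aux T' k G hG (by linarith) P hP
  refine ⟨q, hq, ?_⟩
  have hq0 : Tendsto q atTop (𝓝 0) :=
    (PW_isBigO hq).trans_tendsto (mon_tendsto_zero (by linarith))
  have h1 := decay_bound (w := fun n => v n - q n)
    (e := fun n => (f n - P n) + (P n - (q n - q (n + 1))))
    (T := T') (by have := le_max_right T 1; linarith) ?_ (by simpa using hv0.sub hq0)
    (hO.add hO')
  · refine h1.trans (mon_isBigO ?_)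
    have := le_max_left T 1
    linarith
  · refine Eventually.of_forall fun n => ?_
    have : v n - q n = ((f n - P n) + (P n - (q n - q (n + 1)))) + (v (n + 1) - q (n + 1)) := by
      rw [← hv n]; ring
    calc |v n - q n| = |((f n - P n) + (P n - (q n - q (n + 1)))) + (v (n + 1) - q (n + 1))| := by
          rw [← this]
      _ ≤ _ := abs_add_le _ _

/-- tail sums stay in the class -/
lemma exists_tail {G : ℝ} (hG : G < -1) {f : ℕ → ℝ} (hf : PP G f) :
    ∃ v, PP (G + 1) v ∧ Tendsto v atTop (𝓝 0) ∧ (∀ n, v n - v (n + 1) = f n) ∧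
      ∀ n, ∑ i ∈ Finset.range n, f i = v 0 - v n := by
  have hs : Summable f := summable_of_isBigO_mon hG hf.isBigO
  set v : ℕ → ℝ := fun n => (∑' i, f i) - ∑ i ∈ Finset.range n, f i with hv
  have hv0 : Tendsto v atTop (𝓝 0) := by
    have := (tendsto_const_nhds (x := ∑' i, f i)).sub hs.hasSum.tendsto_sum_nat
    simpa [hv] using this
  have hrec : ∀ n, v n - v (n + 1) = f n := by
    intro n
    simp only [hv, Finset.sum_range_succ]; ring
  refine ⟨v, PP.tail hG hf hv0 hrec, hv0, hrec, fun n => ?_⟩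
  simp [hv]

/-- partial sums of a class member of order `< -1` -/
lemma PP.sum_range_of_lt {G : ℝ} (hG : G < -1) {f : ℕ → ℝ} (hf : PP G f) :
    PP 0 (fun n => ∑ i ∈ Finset.range n, f i) := by
  obtain ⟨v, hv, _, _, h⟩ := exists_tail hG hf
  refine ((PP.const le_rfl (v 0)).sub (hv.mono (by linarith))).congr fun n => (h n).symm

lemma sum_mon_neg_one :
    PP 0 (fun n => ∑ i ∈ Finset.range n, mon (-1) i - Real.log (xb n)) := by
  have h1 := PP.comp_analytic2 analytic_log_one_add one_pos (PP.of_mon (le_refl (-1 : ℝ)))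
  have h2 : PP (-2) (fun n => mon (-1) n - Real.log (1 + mon (-1) n)) := by
    refine (h1.neg.congr fun n => ?_).mono (by norm_num)
    rw [deriv_log_one_add]
    simp
  have h3 := PP.sum_range_of_lt (by norm_num) h2
  refine h3.congr fun n => ?_
  rw [Finset.sum_sub_distrib]
  congr 1
  have h4 : ∀ i, Real.log (1 + mon (-1) i) = Real.log (xb (i + 1)) - Real.log (xb i) := by
    intro i
    rw [xb_succ, Real.log_mul (xb_pos i).ne']
    · ring
    · have := mon_pos (-1) i
      positivity
  simp only [h4]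
  rw [Finset.sum_range_sub (fun i => Real.log (xb i))]
  simp [xb]

/-- partial sums: `∑_{i<n} f i = r log (n+1) + PP (max (G+1) 0)` -/
lemma PP.sum_range_aux : ∀ k : ℕ, ∀ G : ℝ, G < -1 + k → ∀ f : ℕ → ℝ, PP G f →
    ∃ r : ℝ, PP (max (G + 1) 0) (fun n => ∑ i ∈ Finset.range n, f i - r * Real.log (xb n)) := by
  intro k
  induction k with
  | zero =>
    intro G hG f hf
    refine ⟨0, ?_⟩
    have := PP.sum_range_of_lt (by simpa using hG) hf
    refine (this.mono (le_max_right _ _)).congr fun n => ?_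
    ring
  | succ k ih =>
    intro G hG f hf
    by_cases hG1 : G < -1
    · refine ⟨0, ?_⟩
      have := PP.sum_range_of_lt hG1 hf
      refine (this.mono (le_max_right _ _)).congr fun n => ?_
      ring
    push Not at hG1
    obtain ⟨P, hP, hO⟩ := hf 2
    have he : PP (-2) (fun n => f n - P n) := by
      refine PP.of_isBigO_mon (hf.sub (PP.of_mem hP)) ?_
      simpa using hO
    have he' := (PP.sum_range_of_lt (by norm_num) he).mono (le_max_right (G + 1) 0)
    have hPs : ∃ r : ℝ, PP (max (G + 1) 0)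
        (fun n => ∑ i ∈ Finset.range n, P i - r * Real.log (xb n)) := by
      clear hO he he'
      induction hP using Submodule.span_induction with
      | mem g hg =>
        obtain ⟨ρ, hρ, rfl⟩ := hg
        by_cases hρ1 : ρ = -1
        · subst hρ1
          refine ⟨1, ?_⟩
          refine (sum_mon_neg_one.mono (le_max_right _ _)).congr fun n => ?_
          ring
        · have hρ1' : ρ + 1 ≠ 0 := fun h => hρ1 (by linarith)
          have hd := PP_mon_diff2 (ρ + 1)
          obtain ⟨r, hr⟩ := ih (ρ + 1 - 2) (by push_cast at hG; linarith) _ hd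
          refine ⟨-(ρ + 1)⁻¹ * r, ?_⟩
          have h1 : PP (max (G + 1) 0) (mon (ρ + 1)) :=
            PP.of_mon (le_max_of_le_left (by linarith))
          have h2 := ((h1.sub (PP.const (le_max_right (G + 1) 0) (mon (ρ + 1) 0))).const_mul
            (ρ + 1)⁻¹).sub ((hr.mono (max_le_max (by linarith) le_rfl)).const_mul (ρ + 1)⁻¹)
          refine h2.congr fun n => ?_
          have h3 : ∑ i ∈ Finset.range n, (mon (ρ + 1) (i + 1) - mon (ρ + 1) i
              - (ρ + 1) * mon (ρ + 1 - 1) i)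
              = mon (ρ + 1) n - mon (ρ + 1) 0 - (ρ + 1) * ∑ i ∈ Finset.range n, mon ρ i := by
            rw [Finset.sum_sub_distrib, Finset.sum_range_sub, Finset.mul_sum]
            simp
          rw [h3]
          field_simp
          ring
      | zero =>
        refine ⟨0, ?_⟩
        refine (PP.zero _).congr fun n => ?_
        simp
      | add g h _ _ hg hh =>
        obtain ⟨r, hr⟩ := hg
        obtain ⟨s, hs⟩ := hh
        refine ⟨r + s, (hr.add hs).congr fun n => ?_⟩
        simp only [Pi.add_apply, Finset.sum_add_distrib]; ring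
      | smul c g _ hg =>
        obtain ⟨r, hr⟩ := hg
        refine ⟨c * r, (hr.const_mul c).congr fun n => ?_⟩
        simp only [Pi.smul_apply, smul_eq_mul, ← Finset.mul_sum]; ring
    obtain ⟨r, hr⟩ := hPs
    refine ⟨r, (hr.add he').congr fun n => ?_⟩
    rw [Finset.sum_sub_distrib]; ring

lemma PP.sum_range {G : ℝ} {f : ℕ → ℝ} (hf : PP G f) :
    ∃ r : ℝ, PP (max (G + 1) 0) (fun n => ∑ i ∈ Finset.range n, f i - r * Real.log (xb n)) := by
  obtain ⟨k, hk⟩ := exists_nat_gt (G + 1)
  exact PP.sum_range_aux k G (by linarith) f hf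

end F526
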