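import Pool.Agent.Lib.MP_f52611_an.Enum

set_option autoImplicit false

/-!
# Orthonormal systems for the weight `exp (-|x|^3)` and the reduction of the expansion
-/

open Filter Topology MeasureTheory Asymptotics Polynomial

namespace F526

section Sys

variable {p : ℕ → ℝ[X]} {a : ℕ → ℝ} (hdeg : ∀ n, (p n).natDegree = n)
  (hlc : ∀ n, 0 < (p n).leadingCoeff)
  (hort : ∀ m n, Lf (p m * p n) = if m = n then 1 else 0)

include hdeg hlc hort in
theorem sys_orth_poly (n : ℕ) : ∀ (k : ℕ) (r : ℝ[X]), r.natDegree < k → k ≤ n → Lf (p n * r) = 0 := by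
  intro k
  induction k with
  | zero => intro r hr; omega
  | succ k ih =>
    intro r hr hk
    -- subtract a multiple of p k
    have hlk := hlc k
    set c : ℝ := r.coeff k / (p k).leadingCoeff with hc
    set r' : ℝ[X] := r - C c * p k with hr'
    have hdecomp : p n * r = p n * r' + C c * (p n * p k) := by
      rw [hr']; ring
    have h1 : Lf (p n * p k) = 0 := by
      rw [hort, if_neg (by omega)]
    rw [hdecomp, map_add, L_C_mul, h1, mul_zero, add_zero]
    rcases Nat.eq_zero_or_pos k with rfl | hkpos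
    · -- r' is zero
      have h2 : r' = 0 := by
        have h3 : r.natDegree = 0 := by omega
        have h4 : (p 0).natDegree = 0 := hdeg 0
        rw [hr', hc]
        rw [eq_C_of_natDegree_eq_zero h3, eq_C_of_natDegree_eq_zero h4]
        have h5 : (C ((p 0).coeff 0) : ℝ[X]).leadingCoeff = (p 0).coeff 0 := leadingCoeff_C _
        have h6 : (p 0).leadingCoeff = (p 0).coeff 0 := by
          rw [leadingCoeff, h4]
        rw [h5, coeff_C_zero, ← C_mul, div_mul_cancel₀ _ (h6 ▸ hlk.ne'), sub_self]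
      rw [h2, mul_zero, map_zero]
    · refine ih r' ?_ (by omega)
      have h2 : r'.natDegree ≤ k := by
        rw [hr']
        refine (natDegree_sub_le _ _).trans (max_le (by omega) ?_)
        exact (natDegree_C_mul_le _ _).trans (hdeg k).le
      refine lt_of_le_of_ne h2 fun h3 => ?_
      have h4 : r'.coeff k = 0 := by
        rw [hr', coeff_sub, coeff_C_mul, hc]
        have : (p k).coeff k = (p k).leadingCoeff := by rw [leadingCoeff, hdeg k]
        rw [this, div_mul_cancel₀ _ hlk.ne', sub_self]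
      have h5 : r' = 0 := by
        rw [← leadingCoeff_eq_zero, leadingCoeff, h3, h4]
      rw [h5, natDegree_zero] at h3
      omega

include hdeg hlc hort in
theorem sys_eq (n : ℕ) : p n = C (p n).leadingCoeff * opP Lf n := by
  set γ := (p n).leadingCoeff with hγ
  have hP := opP_deg Lf n
  set q : ℝ[X] := p n - C γ * opP Lf n with hq
  suffices q = 0 by
    rw [hq] at this
    exact sub_eq_zero.mp this
  by_contra hq0
  have hdq : q.natDegree ≤ n := by
    rw [hq]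
    refine (natDegree_sub_le _ _).trans (max_le (hdeg n).le ?_)
    exact (natDegree_C_mul_le _ _).trans hP.2.le
  have hcq : q.coeff n = 0 := by
    have h1 : (p n).coeff n = γ := by rw [hγ, leadingCoeff, hdeg n]
    have h2 : (opP Lf n).coeff n = 1 := by
      have := hP.1.coeff_natDegree
      rwa [hP.2] at this
    rw [hq, coeff_sub, coeff_C_mul, h1, h2, mul_one, sub_self]
  have hlt : q.natDegree < n := by
    refine lt_of_le_of_ne hdq fun h => ?_
    apply hq0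
    rw [← leadingCoeff_eq_zero, leadingCoeff, h, hcq]
  have h1 : Lf (p n * q) = 0 := sys_orth_poly hdeg hlc hort n n q hlt le_rfl
  have h2 : Lf (opP Lf n * q) = 0 :=
    op_orth_poly Lf Lf_odd Lf_pos n q ((natDegree_lt_iff_degree_lt hq0).1 hlt)
  have h3 : Lf (q * q) = 0 := by
    have : q * q = p n * q - C γ * (opP Lf n * q) := by
      conv_lhs => rw [hq]
      rw [← hq]; ring
    rw [this, map_sub, L_C_mul, h1, h2, mul_zero, sub_zero]
  exact (Lf_pos q hq0).ne' h3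

include hdeg hlc hort in
theorem sys_norm (n : ℕ) : (p n).leadingCoeff ^ 2 * opH Lf n = 1 := by
  have h1 := hort n n
  rw [if_pos rfl] at h1
  have h2 := sys_eq hdeg hlc hort n
  set γ := (p n).leadingCoeff with hγ
  rw [h2] at h1
  have h3 : C γ * opP Lf n * (C γ * opP Lf n) = C (γ ^ 2) * (opP Lf n * opP Lf n) := by
    rw [C_pow]; ring
  rw [h3, L_C_mul] at h1
  exact h1

include hdeg hlc hort in
theorem sys_a (hrec0 : X * p 0 = C (a 1) * p 1)
    (hrec : ∀ n, 1 ≤ n → X * p n = C (a (n + 1)) * p (n + 1) + C (a n) * p (n - 1)) (n : ℕ) :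
    a (n + 1) = Real.sqrt (opB Lf n) := by
  have hlead : (p n).leadingCoeff = a (n + 1) * (p (n + 1)).leadingCoeff := by
    have h1 : (X * p n).coeff (n + 1) = (p n).leadingCoeff := by
      rw [coeff_X_mul, leadingCoeff, hdeg n]
    have h2 : (p (n + 1)).coeff (n + 1) = (p (n + 1)).leadingCoeff := by
      rw [leadingCoeff, hdeg (n + 1)]
    rcases Nat.eq_zero_or_pos n with rfl | hn
    · rw [← h1, hrec0, coeff_C_mul, h2]
    · rw [← h1, hrec n hn, coeff_add, coeff_C_mul, coeff_C_mul, h2,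
        coeff_eq_zero_of_natDegree_lt (p := p (n - 1)) (by rw [hdeg]; omega), mul_zero, add_zero]
  have g0 := hlc n
  have g1 := hlc (n + 1)
  have n0 := sys_norm hdeg hlc hort n
  have n1 := sys_norm hdeg hlc hort (n + 1)
  have h0 := opH_pos Lf Lf_pos n
  have h1 := opH_pos Lf Lf_pos (n + 1)
  have ha : 0 < a (n + 1) := by
    by_contra hcon
    have := mul_nonpos_of_nonpos_of_nonneg (not_lt.mp hcon) g1.le
    rw [← hlead] at this
    linarith
  symm
  rw [Real.sqrt_eq_iff_mul_self_eq_of_pos ha, opB, eq_div_iff h0.ne']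
  have h2 : a (n + 1) = (p n).leadingCoeff / (p (n + 1)).leadingCoeff := by
    rw [eq_div_iff g1.ne', hlead]
  have h3 : opH Lf n = 1 / (p n).leadingCoeff ^ 2 := by
    rw [eq_div_iff (by positivity)]; linarith
  have h4 : opH Lf (n + 1) = 1 / (p (n + 1)).leadingCoeff ^ 2 := by
    rw [eq_div_iff (by positivity)]; linarith
  rw [h2, h3, h4]
  field_simp

end Sys

/-- existence of an orthonormal system -/
theorem exists_sys : ∃ (p : ℕ → ℝ[X]) (a : ℕ → ℝ), (∀ n, (p n).natDegree = n) ∧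
    (∀ n, 0 < (p n).leadingCoeff) ∧ (∀ m n, Lf (p m * p n) = if m = n then 1 else 0) ∧
    X * p 0 = C (a 1) * p 1 ∧
    ∀ n, 1 ≤ n → X * p n = C (a (n + 1)) * p (n + 1) + C (a n) * p (n - 1) := by
  have hh : ∀ n, 0 < opH Lf n := opH_pos Lf Lf_pos
  have hs : ∀ n, 0 < Real.sqrt (opH Lf n) := fun n => Real.sqrt_pos.2 (hh n)
  have hss : ∀ n, Real.sqrt (opH Lf n) * Real.sqrt (opH Lf n) = opH Lf n :=
    fun n => Real.mul_self_sqrt (hh n).le
  refine ⟨fun n => C (Real.sqrt (opH Lf n))⁻¹ * opP Lf n,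
    fun n => Real.sqrt (opH Lf n) / Real.sqrt (opH Lf (n - 1)), fun n => ?_, fun n => ?_,
    fun m n => ?_, ?_, fun n hn => ?_⟩
  · rw [natDegree_C_mul (inv_ne_zero (hs n).ne'), (opP_deg Lf n).2]
  · rw [leadingCoeff_mul, leadingCoeff_C, (opP_deg Lf n).1.leadingCoeff, mul_one]
    exact inv_pos.2 (hs n)
  · have h1 : C (Real.sqrt (opH Lf m))⁻¹ * opP Lf m * (C (Real.sqrt (opH Lf n))⁻¹ * opP Lf n) =
        C ((Real.sqrt (opH Lf m))⁻¹ * (Real.sqrt (opH Lf n))⁻¹) * (opP Lf m * opP Lf n) := by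
      rw [C_mul]; ring
    rw [h1, L_C_mul]
    by_cases hmn : m = n
    · subst hmn
      rw [if_pos rfl, ← mul_inv, hss]
      exact inv_mul_cancel₀ (hh m).ne'
    · rw [if_neg hmn]
      have : Lf (opP Lf m * opP Lf n) = 0 := by
        rcases lt_or_gt_of_ne hmn with h | h
        · rw [mul_comm]; exact op_orth Lf Lf_odd Lf_pos n m h
        · exact op_orth Lf Lf_odd Lf_pos m n h
      rw [this, mul_zero]
  · simp only [Nat.sub_self]
    rw [opP_zero, opP_one, mul_one, ← mul_assoc, ← C_mul]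
    have h0 := (hs 0).ne'
    have h1 := (hs 1).ne'
    have : Real.sqrt (opH Lf 1) / Real.sqrt (opH Lf 0) * (Real.sqrt (opH Lf 1))⁻¹ =
        (Real.sqrt (opH Lf 0))⁻¹ := by field_simp
    rw [this, mul_comm]
  · obtain ⟨k, rfl⟩ : ∃ k, n = k + 1 := ⟨n - 1, by omega⟩
    simp only [Nat.add_sub_cancel]
    have h0 := (hs k).ne'
    have h1 := (hs (k + 1)).ne'
    have h2 := (hs (k + 2)).ne'
    have e1 : X * (C (Real.sqrt (opH Lf (k + 1)))⁻¹ * opP Lf (k + 1)) =
        C (Real.sqrt (opH Lf (k + 1)))⁻¹ * (X * opP Lf (k + 1)) := by ring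
    rw [e1, X_mul_opP_succ, mul_add, ← mul_assoc, ← mul_assoc, ← mul_assoc, ← C_mul, ← C_mul,
      ← C_mul]
    congr 3
    · have e2 : k + 1 + 1 = k + 2 := rfl
      rw [e2]
      field_simp
    · have h4 : opH Lf (k + 1) / opH Lf k = (Real.sqrt (opH Lf (k + 1)) *
          Real.sqrt (opH Lf (k + 1))) / (Real.sqrt (opH Lf k) * Real.sqrt (opH Lf k)) := by
        rw [hss, hss]
      rw [opB, h4]
      field_simp

/-- the constants agree -/
theorem const_eq : (2 : ℝ) ^ (3 : ℝ) * Real.Gamma ((3 + 1) / 2) /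
    (Real.sqrt Real.pi * Real.Gamma (3 / 2)) =
    Real.Gamma ((3:ℝ) + 1) / (Real.Gamma ((3:ℝ) / 2) * Real.Gamma ((3:ℝ) / 2 + 1)) := by
  have h1 : Real.Gamma (3 / 2) = Real.sqrt Real.pi / 2 := by
    rw [show (3:ℝ) / 2 = 1 / 2 + 1 by norm_num, Real.Gamma_add_one (by norm_num),
      Real.Gamma_one_half_eq]
    ring
  have h2 : Real.Gamma ((3 + 1) / 2) = 1 := by
    rw [show ((3:ℝ) + 1) / 2 = 1 + 1 by norm_num, Real.Gamma_add_one (by norm_num), Real.Gamma_one,
      mul_one]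
  have h3 : Real.Gamma ((3:ℝ) + 1) = 6 := by
    rw [show (3:ℝ) = ((3 : ℕ) : ℝ) by norm_num, Real.Gamma_nat_eq_factorial]
    norm_num [Nat.factorial]
  have h4 : Real.Gamma ((3:ℝ) / 2 + 1) = 3 / 2 * (Real.sqrt Real.pi / 2) := by
    rw [Real.Gamma_add_one (by norm_num), h1]
  have h5 : (2 : ℝ) ^ (3 : ℝ) = 8 := by
    rw [show (3:ℝ) = ((3 : ℕ) : ℝ) by norm_num, Real.rpow_natCast]
    norm_num
  have h6 : Real.sqrt Real.pi ≠ 0 := (Real.sqrt_pos.2 Real.pi_pos).ne'
  rw [h1, h2, h3, h4, h5]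
  field_simp
  ring

/-- splitting a sum over a locally finite set -/
theorem sum_split {I I' : Set ℝ} (hII : I ⊆ I') (hI' : ∀ T : ℝ, (I' ∩ Set.Iio T).Finite)
    (A : ℝ → ℝ) {i : ℕ → ℝ} (hmono : StrictMono i)
    (hinit : ∀ N, I' ∩ Set.Iio (i N) = i '' (Set.Iio N)) {T : ℝ} (N : ℕ) (hT : i N ≤ T) :
    ∃ F : Finset ℝ, (∀ x ∈ F, i N ≤ x) ∧ ∀ n : ℕ,
      ∑ᶠ x ∈ I ∩ Set.Iio T, A x * (n : ℝ) ^ (-x) =
        ∑ k ∈ Finset.range N, I.indicator A (i k) * (n : ℝ) ^ (-(i k)) +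
          ∑ x ∈ F, I.indicator A x * (n : ℝ) ^ (-x) := by
  classical
  have hI : (I ∩ Set.Iio T).Finite := (hI' T).subset (Set.inter_subset_inter_left _ hII)
  refine ⟨(hI' T).toFinset.filter fun x => i N ≤ x, fun x hx => (Finset.mem_filter.mp hx).2,
    fun n => ?_⟩
  have h1 : ∑ᶠ x ∈ I ∩ Set.Iio T, A x * (n : ℝ) ^ (-x) =
      ∑ x ∈ (hI' T).toFinset, I.indicator A x * (n : ℝ) ^ (-x) := by
    rw [finsum_mem_eq_finite_toFinset_sum _ hI]
    have h2 : hI.toFinset ⊆ (hI' T).toFinset := by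
      intro x hx
      rw [Set.Finite.mem_toFinset] at hx ⊢
      exact ⟨hII hx.1, hx.2⟩
    rw [← Finset.sum_subset h2]
    · refine Finset.sum_congr rfl fun x hx => ?_
      rw [Set.Finite.mem_toFinset] at hx
      rw [Set.indicator_of_mem hx.1]
    · intro x hx hx'
      rw [Set.Finite.mem_toFinset] at hx hx'
      rw [Set.indicator_of_notMem (fun h => hx' ⟨h, hx.2⟩), zero_mul]
  rw [h1, ← Finset.sum_filter_add_sum_filter_not (hI' T).toFinset (fun x => i N ≤ x), add_comm]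
  congr 1
  have h3 : (hI' T).toFinset.filter (fun x => ¬ i N ≤ x) = (Finset.range N).image i := by
    ext x
    rw [Finset.mem_filter, Set.Finite.mem_toFinset, Finset.mem_image]
    have h4 : x ∈ I' ∩ Set.Iio (i N) ↔ x ∈ i '' (Set.Iio N) := by rw [hinit]
    constructor
    · rintro ⟨hx, hx2⟩
      obtain ⟨k, hk, rfl⟩ := h4.1 ⟨hx.1, not_le.mp hx2⟩
      exact ⟨k, Finset.mem_range.2 hk, rfl⟩
    · rintro ⟨k, hk, rfl⟩
      have := h4.2 ⟨k, Finset.mem_range.1 hk, rfl⟩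
      exact ⟨⟨this.1, lt_of_lt_of_le this.2 hT⟩, not_le.mpr this.2⟩
  rw [h3, Finset.sum_image fun x _ y _ h => hmono.injective h]

/-- a finite sum of small powers -/
theorem sum_isBigO (F : Finset ℝ) (A : ℝ → ℝ) {s : ℝ} (hF : ∀ x ∈ F, s ≤ x) :
    (fun n : ℕ => ∑ x ∈ F, A x * (n : ℝ) ^ (-x)) =O[atTop] fun n : ℕ => (n : ℝ) ^ (-s) := by
  have key : ∀ x ∈ F, (fun n : ℕ => A x * (n : ℝ) ^ (-x)) =O[atTop]
      fun n : ℕ => (n : ℝ) ^ (-s) := by
    intro x hx
    have h2 : (fun n : ℕ => (n : ℝ) ^ (-x)) =O[atTop] fun n : ℕ => (n : ℝ) ^ (-s) := by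
      refine IsBigO.of_bound 1 ?_
      filter_upwards [eventually_ge_atTop 1] with n hn
      have h1 : (1:ℝ) ≤ n := by exact_mod_cast hn
      rw [one_mul, Real.norm_of_nonneg (by positivity), Real.norm_of_nonneg (by positivity)]
      exact Real.rpow_le_rpow_of_exponent_le h1 (by linarith [hF x hx])
    exact h2.const_mul_left _
  refine (Asymptotics.IsBigO.sum key).congr_left fun n => ?_
  rw [Finset.sum_apply]

theorem pow_isBigO {s t : ℝ} (h : s ≤ t) :
    (fun n : ℕ => (n : ℝ) ^ (-t)) =O[atTop] fun n : ℕ => (n : ℝ) ^ (-s) := by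
  refine IsBigO.of_bound 1 ?_
  filter_upwards [eventually_ge_atTop 1] with n hn
  have h1 : (1:ℝ) ≤ n := by exact_mod_cast hn
  rw [one_mul, Real.norm_of_nonneg (by positivity), Real.norm_of_nonneg (by positivity)]
  exact Real.rpow_le_rpow_of_exponent_le h1 (by linarith)

/-- the reduction of the expansion with sets of exponents to sequences -/
theorem exp_reduce {a : ℕ → ℝ} {c : ℝ} (hc : 0 < c) {I J : Set ℝ} {A B : ℝ → ℝ}
    (hI : ∀ T : ℝ, (I ∩ Set.Iio T).Finite) (hJ : ∀ T : ℝ, (J ∩ Set.Iio T).Finite)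
    (h0 : IsLeast I 0) (hA : A 0 = 1) (h3 : ∀ j ∈ J, (3 : ℝ) ≤ j)
    (hexp : ∀ T : ℝ, 0 < T → (fun n : ℕ => a n - ((n : ℝ) / c) ^ (1 / (3:ℝ)) *
      (∑ᶠ i ∈ I ∩ Set.Iio T, A i * (n : ℝ) ^ (-i) +
        (-1 : ℝ) ^ n * ∑ᶠ j ∈ J ∩ Set.Iio T, B j * (n : ℝ) ^ (-j)))
      =O[atTop] fun n : ℕ => ((n : ℝ) / c) ^ (1 / (3:ℝ)) * (n : ℝ) ^ (-T)) :
    ∃ i j A B : ℕ → ℝ,
      StrictMono i ∧ i 0 = 0 ∧ A 0 = 1 ∧
      StrictMono j ∧ j 0 = 3 ∧
      Tendsto i atTop atTop ∧ Tendsto j atTop atTop ∧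
      ∀ N : ℕ,
        (fun n : ℕ =>
          a n / ((n : ℝ) / c) ^ (1 / (3:ℝ))
            - ∑ k ∈ Finset.range N, A k * (n : ℝ) ^ (-(i k))
            - (-1 : ℝ) ^ n * ∑ k ∈ Finset.range N, B k * (n : ℝ) ^ (-(j k)))
        =O[atTop] (fun n : ℕ => (n : ℝ) ^ (-(min (i N) (j N)))) := by
  -- enlarge the sets
  set Z : Set ℝ := Set.range fun n : ℕ => (n : ℝ) with hZ
  have hZfin : ∀ T : ℝ, (Z ∩ Set.Iio T).Finite := by
    intro T
    obtain ⟨m, hm⟩ := exists_nat_gt T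
    refine ((Set.finite_Iio m).image fun n : ℕ => (n : ℝ)).subset ?_
    rintro _ ⟨⟨n, rfl⟩, hn⟩
    refine ⟨n, ?_, rfl⟩
    have : (n : ℝ) < m := lt_trans hn hm
    exact_mod_cast this
  set I' : Set ℝ := I ∪ Z with hI'
  set J' : Set ℝ := J ∪ (Z ∩ Set.Ici 3) with hJ'
  have hI'f : ∀ T : ℝ, (I' ∩ Set.Iio T).Finite := by
    intro T
    rw [hI', Set.union_inter_distrib_right]
    exact (hI T).union (hZfin T)
  have hJ'f : ∀ T : ℝ, (J' ∩ Set.Iio T).Finite := by
    intro T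
    rw [hJ', Set.union_inter_distrib_right]
    exact (hJ T).union ((hZfin T).subset (Set.inter_subset_inter_left _ Set.inter_subset_left))
  have hI'u : ∀ x : ℝ, ∃ y ∈ I', x < y := by
    intro x
    obtain ⟨m, hm⟩ := exists_nat_gt x
    exact ⟨m, Or.inr ⟨m, rfl⟩, hm⟩
  have hJ'u : ∀ x : ℝ, ∃ y ∈ J', x < y := by
    intro x
    obtain ⟨m, hm⟩ := exists_nat_gt (max x 3)
    refine ⟨m, Or.inr ⟨⟨m, rfl⟩, ?_⟩, lt_of_le_of_lt (le_max_left _ _) hm⟩
    exact (le_max_right _ _).trans hm.le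
  have hI'0 : IsLeast I' 0 := by
    refine ⟨Or.inl h0.1, ?_⟩
    rintro x (hx | ⟨n, rfl⟩)
    · exact h0.2 hx
    · exact Nat.cast_nonneg n
  have hJ'0 : IsLeast J' 3 := by
    refine ⟨Or.inr ⟨⟨3, by norm_num⟩, by simp⟩, ?_⟩
    rintro x (hx | ⟨-, hx⟩)
    · exact h3 x hx
    · exact hx
  obtain ⟨i, i1, i2, i3, -, i5⟩ := exists_enum hI'f hI'u hI'0
  obtain ⟨j, j1, j2, j3, -, j5⟩ := exists_enum hJ'f hJ'u hJ'0
  refine ⟨i, j, fun k => I.indicator A (i k), fun k => J.indicator B (j k), i1, i2, ?_, j1, j2,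
    i3, j3, fun N => ?_⟩
  · change I.indicator A (i 0) = 1
    rw [i2, Set.indicator_of_mem h0.1, hA]
  set T : ℝ := max (i N) (j N) with hT
  have hT1 : i N ≤ T := le_max_left _ _
  have hT2 : j N ≤ T := le_max_right _ _
  have hTpos : 0 < T := by
    have : j 0 ≤ j N := j1.monotone (Nat.zero_le N)
    rw [j2] at this
    linarith
  obtain ⟨F, hF, hFs⟩ := sum_split (Set.subset_union_left : I ⊆ I') hI'f A i1 i5 N hT1
  obtain ⟨G, hG, hGs⟩ := sum_split (Set.subset_union_left : J ⊆ J') hJ'f B j1 j5 N hT2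
  have e1 := hexp T hTpos
  -- divide
  have e2 : (fun n : ℕ => a n / ((n : ℝ) / c) ^ (1 / (3:ℝ)) -
      (∑ᶠ i ∈ I ∩ Set.Iio T, A i * (n : ℝ) ^ (-i) +
        (-1 : ℝ) ^ n * ∑ᶠ j ∈ J ∩ Set.Iio T, B j * (n : ℝ) ^ (-j)))
      =O[atTop] fun n : ℕ => (n : ℝ) ^ (-T) := by
    have e3 := e1.mul (isBigO_refl (fun n : ℕ => (((n : ℝ) / c) ^ (1 / (3:ℝ)))⁻¹) atTop)
    refine (e3.congr' ?_ ?_)
    · filter_upwards [eventually_ge_atTop 1] with n hn
      have hn' : (0:ℝ) < n := by exact_mod_cast hn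
      have : ((n : ℝ) / c) ^ (1 / (3:ℝ)) ≠ 0 := (Real.rpow_pos_of_pos (div_pos hn' hc) _).ne'
      field_simp
    · filter_upwards [eventually_ge_atTop 1] with n hn
      have hn' : (0:ℝ) < n := by exact_mod_cast hn
      have : ((n : ℝ) / c) ^ (1 / (3:ℝ)) ≠ 0 := (Real.rpow_pos_of_pos (div_pos hn' hc) _).ne'
      field_simp
  have hmin1 : min (i N) (j N) ≤ T := (min_le_left _ _).trans hT1
  have e4 := e2.trans (pow_isBigO hmin1)
  have e5 := sum_isBigO F (I.indicator A) (s := min (i N) (j N))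
    fun x hx => (min_le_left _ _).trans (hF x hx)
  have e6 : (fun n : ℕ => (-1 : ℝ) ^ n * ∑ x ∈ G, J.indicator B x * (n : ℝ) ^ (-x)) =O[atTop]
      fun n : ℕ => (n : ℝ) ^ (-(min (i N) (j N))) := by
    have := sum_isBigO G (J.indicator B) (s := min (i N) (j N))
      fun x hx => (min_le_right _ _).trans (hG x hx)
    refine IsBigO.trans ?_ this
    refine IsBigO.of_bound 1 (Eventually.of_forall fun n => ?_)
    rw [norm_mul, norm_pow, norm_neg, norm_one, one_pow, one_mul]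
  refine ((e4.add e5).add e6).congr_left fun n => ?_
  rw [hFs n, hGs n]
  ring

end F526
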