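import Pool.Agent.Lib.MP_f52611_an.Sum

open Filter Topology Asymptotics

namespace F526

/-! ### uniform bounds and sums of monomials -/

lemma exists_bound {ρ : ℝ} {f : ℕ → ℝ} (hf : f =O[atTop] mon ρ) :
    ∃ C, 0 < C ∧ ∀ n, |f n| ≤ C * mon ρ n := by
  obtain ⟨C, hC, h⟩ := bound_of_isBigO_nat_atTop hf
  refine ⟨C, hC, fun n => ?_⟩
  have := h (mon_pos ρ n).ne'
  rwa [Real.norm_eq_abs, Real.norm_of_nonneg (mon_pos ρ n).le] at this

lemma sum_mon_le_const {γ : ℝ} (hγ : γ < -1) :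
    ∃ C, 0 < C ∧ ∀ k, ∑ i ∈ Finset.range k, mon γ i ≤ C := by
  have hs := summable_mon hγ
  refine ⟨(∑' i, mon γ i) + 1, ?_, fun k => ?_⟩
  · have : 0 ≤ ∑' i, mon γ i := tsum_nonneg fun i => (mon_pos γ i).le
    linarith
  · have := hs.sum_le_tsum (Finset.range k) fun i _ => (mon_pos γ i).le
    linarith

lemma tsum_tail_mon_le {γ : ℝ} (hγ : γ < -1) :
    ∃ C, 0 < C ∧ ∀ k, ∑' i, mon γ (i + k) ≤ C * mon (γ + 1) k := by
  obtain ⟨v, hv, hv0, _, hsum⟩ := exists_tail hγ (PP.of_mon (le_refl γ))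
  obtain ⟨C, hC, hb⟩ := exists_bound hv.isBigO
  refine ⟨C, hC, fun k => ?_⟩
  have hs := summable_mon hγ
  have h1 : ∑' i, mon γ (i + k) = v k := by
    have h2 := hs.sum_add_tsum_nat_add k
    have h3 : ∑' i, mon γ i = v 0 := by
      have h4 := hs.hasSum.tendsto_sum_nat
      simp only [hsum] at h4
      have h5 : Tendsto (fun n => v 0 - v n) atTop (𝓝 (v 0 - 0)) := tendsto_const_nhds.sub hv0
      rw [sub_zero] at h5
      exact tendsto_nhds_unique h4 h5
    rw [hsum k, h3] at h2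
    linarith
  rw [h1]
  exact (le_abs_self _).trans (hb k)

lemma log_isBigO_mon {γ : ℝ} (hγ : 0 < γ) : (fun n => Real.log (xb n)) =O[atTop] mon γ := by
  have := (isLittleO_log_rpow_atTop hγ).isBigO.comp_tendsto tendsto_xb
  exact this

lemma sum_mon_le {γ : ℝ} (hγ : -1 < γ) :
    ∃ C, 0 < C ∧ ∀ k, ∑ i ∈ Finset.range k, mon γ i ≤ C * mon (γ + 1) k := by
  obtain ⟨r, hr⟩ := PP.sum_range (PP.of_mon (le_refl γ))
  rw [max_eq_left (by linarith)] at hr
  have h1 := hr.isBigO.add ((log_isBigO_mon (by linarith : 0 < γ + 1)).const_mul_left r)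
  obtain ⟨C, hC, hb⟩ := exists_bound h1
  refine ⟨C, hC, fun k => ?_⟩
  have := (le_abs_self _).trans (hb k)
  simpa using this

/-! ### the class `T g N γ` -/

/-- polynomial sections: sums of `t^i c(m)` with `|c(m)| ≤ C (m+1)^(γ+g i)` -/
def TA (g γ : ℝ) : Submodule ℝ (ℕ → ℝ → ℝ) :=
  Submodule.span ℝ {F | ∃ (i : ℕ) (c : ℕ → ℝ), (∃ C, ∀ m, |c m| ≤ C * mon (γ + g * i) m) ∧
    F = fun m t => t ^ i * c m}

/-- uniform Taylor expansion of order `N` with growth rate `g` and weight `γ` on the region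
`t (m+1)^g ≤ 1` -/
def T (g : ℝ) (N : ℕ) (γ : ℝ) (f : ℕ → ℝ → ℝ) : Prop :=
  ∃ A ∈ TA g γ, ∃ C, ∀ᶠ t in 𝓝[>] (0 : ℝ), ∀ m, t * mon g m ≤ 1 →
    |f m t - A m t| ≤ C * (t ^ N * mon (γ + g * N) m)

lemma eventually_pos' : ∀ᶠ t in 𝓝[>] (0 : ℝ), 0 < t := eventually_mem_nhdsWithin

lemma eventually_lt' {a : ℝ} (ha : 0 < a) : ∀ᶠ t in 𝓝[>] (0 : ℝ), t < a :=
  nhdsWithin_le_nhds (gt_mem_nhds ha)

lemma mon_split (γ g : ℝ) (i m : ℕ) (t : ℝ) :
    t ^ i * mon (γ + g * i) m = mon γ m * (t * mon g m) ^ i := by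
  rw [← mon_mul_apply, mul_pow, mon_pow, mul_comm g]; ring

lemma pow_mon_le {γ g t : ℝ} {m : ℕ} (ht : 0 < t) (hr : t * mon g m ≤ 1) {i j : ℕ} (hij : i ≤ j) :
    t ^ j * mon (γ + g * j) m ≤ t ^ i * mon (γ + g * i) m := by
  rw [mon_split, mon_split]
  refine mul_le_mul_of_nonneg_left ?_ (mon_pos _ _).le
  exact pow_le_pow_of_le_one (mul_pos ht (mon_pos _ _)).le hr hij

lemma TA_gen {g γ : ℝ} (i : ℕ) {c : ℕ → ℝ} {C : ℝ} (hc : ∀ m, |c m| ≤ C * mon (γ + g * i) m) :
    (fun m t => t ^ i * c m) ∈ TA g γ := Submodule.subset_span ⟨i, c, ⟨C, hc⟩, rfl⟩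

lemma TA_mono {g γ γ' : ℝ} (h : γ ≤ γ') : TA g γ ≤ TA g γ' := by
  refine Submodule.span_mono ?_
  rintro F ⟨i, c, ⟨C, hC⟩, rfl⟩
  refine ⟨i, c, ⟨|C|, fun m => (hC m).trans ?_⟩, rfl⟩
  have h1 := mon_le (show γ + g * i ≤ γ' + g * i by linarith) m
  have h2 := (mon_pos (γ + g * i) m).le
  nlinarith [abs_nonneg C, le_abs_self C]

lemma TA_rate {g g' γ : ℝ} (h : g ≤ g') : TA g γ ≤ TA g' γ := by
  refine Submodule.span_mono ?_
  rintro F ⟨i, c, ⟨C, hC⟩, rfl⟩
  refine ⟨i, c, ⟨|C|, fun m => (hC m).trans ?_⟩, rfl⟩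
  have h0 : g * i ≤ g' * i := mul_le_mul_of_nonneg_right h (Nat.cast_nonneg i)
  have h1 := mon_le (show γ + g * i ≤ γ + g' * i by linarith) m
  have h2 := (mon_pos (γ + g * i) m).le
  nlinarith [abs_nonneg C, le_abs_self C]

lemma TA_mul {g γ γ' : ℝ} {A B : ℕ → ℝ → ℝ} (hA : A ∈ TA g γ) (hB : B ∈ TA g γ') :
    A * B ∈ TA g (γ + γ') := by
  have h1 : A * B ∈ TA g γ * TA g γ' := Submodule.mul_mem_mul hA hB
  rw [TA, TA, Submodule.span_mul_span] at h1
  refine Submodule.span_mono ?_ h1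
  rintro F ⟨a, ⟨i, c, ⟨C, hC⟩, rfl⟩, b, ⟨j, d, ⟨D, hD⟩, rfl⟩, rfl⟩
  refine ⟨i + j, fun m => c m * d m, ⟨C * D, fun m => ?_⟩, ?_⟩
  · rw [abs_mul]
    have h2 := mul_le_mul (hC m) (hD m) (abs_nonneg _) ((abs_nonneg _).trans (hC m))
    refine h2.trans (le_of_eq ?_)
    have h3 : mon (γ + g * i) m * mon (γ' + g * j) m = mon (γ + γ' + g * ((i + j : ℕ) : ℝ)) m := by
      rw [mon_mul_apply]; congr 1; push_cast; ring
    rw [← h3]; ring
  · ext m t
    simp only [Pi.mul_apply]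
    ring

lemma TA_bound {g γ : ℝ} {A : ℕ → ℝ → ℝ} (hA : A ∈ TA g γ) :
    ∃ C, 0 ≤ C ∧ ∀ t, 0 < t → ∀ m, t * mon g m ≤ 1 → |A m t| ≤ C * mon γ m := by
  induction hA using Submodule.span_induction with
  | mem F hF =>
    obtain ⟨i, c, ⟨C, hC⟩, rfl⟩ := hF
    refine ⟨|C|, abs_nonneg _, fun t ht m hm => ?_⟩
    have h1 : |t ^ i * c m| ≤ |C| * (t ^ i * mon (γ + g * i) m) := by
      rw [abs_mul, abs_of_pos (pow_pos ht i)]
      have h2 := mul_le_mul_of_nonneg_left ((hC m).trans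
        (mul_le_mul_of_nonneg_right (le_abs_self C) (mon_pos _ _).le)) (pow_pos ht i).le
      refine h2.trans (le_of_eq (by ring))
    refine h1.trans (mul_le_mul_of_nonneg_left ?_ (abs_nonneg _))
    have h3 := pow_mon_le (γ := γ) ht hm (Nat.zero_le i)
    simpa using h3
  | zero => exact ⟨0, le_rfl, fun t _ m _ => by simp⟩
  | add F G _ _ hF hG =>
    obtain ⟨C, hC0, hC⟩ := hF
    obtain ⟨D, hD0, hD⟩ := hG
    refine ⟨C + D, by linarith, fun t ht m hm => ?_⟩
    have := (abs_add_le (F m t) (G m t)).trans (add_le_add (hC t ht m hm) (hD t ht m hm))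
    simpa [add_mul] using this
  | smul a F _ hF =>
    obtain ⟨C, hC0, hC⟩ := hF
    refine ⟨|a| * C, by positivity, fun t ht m hm => ?_⟩
    simp only [Pi.smul_apply, smul_eq_mul, abs_mul, mul_assoc]
    exact mul_le_mul_of_nonneg_left (hC t ht m hm) (abs_nonneg a)

namespace T

variable {g γ γ' : ℝ} {N N' : ℕ} {f f' : ℕ → ℝ → ℝ}

lemma of_TA (hf : f ∈ TA g γ) : T g N γ f :=
  ⟨f, hf, 0, Eventually.of_forall fun t m _ => by simp⟩

lemma gen (i : ℕ) {c : ℕ → ℝ} {C : ℝ} (hc : ∀ m, |c m| ≤ C * mon (γ + g * i) m) :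
    T g N γ (fun m t => t ^ i * c m) := of_TA (TA_gen i hc)

lemma of_coeff {c : ℕ → ℝ} {C : ℝ} (hc : ∀ m, |c m| ≤ C * mon γ m) :
    T g N γ (fun m _ => c m) := by
  have := gen (g := g) (N := N) (γ := γ) (c := c) (C := C) 0 (by simpa using hc)
  simpa using this

lemma const (hγ : 0 ≤ γ) (c : ℝ) : T g N γ (fun _ _ => c) := by
  refine of_coeff (C := |c|) fun m => ?_
  have := mon_le hγ m
  rw [mon_zero, Pi.one_apply] at this
  nlinarith [abs_nonneg c]

/-- normal form of the bound with a nonnegative constant -/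
lemma exists_nonneg (hf : T g N γ f) : ∃ A ∈ TA g γ, ∃ C, 0 ≤ C ∧ ∀ᶠ t in 𝓝[>] (0 : ℝ), 0 < t ∧
    ∀ m, t * mon g m ≤ 1 → |f m t - A m t| ≤ C * (t ^ N * mon (γ + g * N) m) := by
  obtain ⟨A, hA, C, hC⟩ := hf
  refine ⟨A, hA, |C|, abs_nonneg _, ?_⟩
  filter_upwards [hC, eventually_pos'] with t h ht
  refine ⟨ht, fun m hm => (h m hm).trans ?_⟩
  exact mul_le_mul_of_nonneg_right (le_abs_self C) (mul_pos (pow_pos ht N) (mon_pos _ _)).le

lemma congr (hf : T g N γ f)
    (h : ∀ᶠ t in 𝓝[>] (0 : ℝ), ∀ m, t * mon g m ≤ 1 → f m t = f' m t) : T g N γ f' := by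
  obtain ⟨A, hA, C, hC⟩ := hf
  refine ⟨A, hA, C, ?_⟩
  filter_upwards [hC, h] with t h1 h2 m hm
  rw [← h2 m hm]; exact h1 m hm

lemma congr' (hf : T g N γ f) (h : ∀ m t, f m t = f' m t) : T g N γ f' :=
  hf.congr (Eventually.of_forall fun t m _ => h m t)

lemma mono (h : γ ≤ γ') (hf : T g N γ f) : T g N γ' f := by
  obtain ⟨A, hA, C, hC0, hC⟩ := hf.exists_nonneg
  refine ⟨A, TA_mono h hA, C, ?_⟩
  filter_upwards [hC] with t ⟨ht, h1⟩ m hm
  refine (h1 m hm).trans ?_
  gcongr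
  exact mon_le (by linarith) m

lemma mono_N (h : N' ≤ N) (hf : T g N γ f) : T g N' γ f := by
  obtain ⟨A, hA, C, hC0, hC⟩ := hf.exists_nonneg
  refine ⟨A, hA, C, ?_⟩
  filter_upwards [hC] with t ⟨ht, h1⟩ m hm
  refine (h1 m hm).trans ?_
  exact mul_le_mul_of_nonneg_left (pow_mon_le ht hm h) hC0

/-- change of rate -/
lemma rate {g' : ℝ} (h : g ≤ g') (hf : T g N γ f) : T g' N γ f := by
  obtain ⟨A, hA, C, hC0, hC⟩ := hf.exists_nonneg
  refine ⟨A, TA_rate h hA, C, ?_⟩
  filter_upwards [hC] with t ⟨ht, h1⟩ m hm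
  have h2 : t * mon g m ≤ 1 :=
    (mul_le_mul_of_nonneg_left (mon_le h m) ht.le).trans hm
  refine (h1 m h2).trans ?_
  gcongr
  refine mon_le ?_ m
  have : g * N ≤ g' * N := mul_le_mul_of_nonneg_right h (Nat.cast_nonneg N)
  linarith

lemma bound (hf : T g N γ f) : ∃ C, 0 ≤ C ∧ ∀ᶠ t in 𝓝[>] (0 : ℝ), ∀ m, t * mon g m ≤ 1 →
    |f m t| ≤ C * mon γ m := by
  obtain ⟨A, hA, C, hC0, hC⟩ := hf.exists_nonneg
  obtain ⟨D, hD0, hD⟩ := TA_bound hA
  refine ⟨C + D, by linarith, ?_⟩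
  filter_upwards [hC] with t ⟨ht, h1⟩ m hm
  have h2 := h1 m hm
  have h3 := hD t ht m hm
  have h4 : t ^ N * mon (γ + g * N) m ≤ mon γ m := by
    simpa using pow_mon_le (γ := γ) ht hm (Nat.zero_le N)
  have h5 : |f m t| ≤ |f m t - A m t| + |A m t| := by
    have := abs_add_le (f m t - A m t) (A m t)
    simpa using this
  nlinarith

lemma add (hf : T g N γ f) (hf' : T g N γ f') : T g N γ (fun m t => f m t + f' m t) := by
  obtain ⟨A, hA, C, hC0, hC⟩ := hf.exists_nonneg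
  obtain ⟨B, hB, D, hD0, hD⟩ := hf'.exists_nonneg
  refine ⟨A + B, Submodule.add_mem _ hA hB, C + D, ?_⟩
  filter_upwards [hC, hD] with t ⟨ht, h1⟩ ⟨_, h2⟩ m hm
  have h3 := (abs_add_le (f m t - A m t) (f' m t - B m t)).trans (add_le_add (h1 m hm) (h2 m hm))
  have e1 : f m t + f' m t - (A + B) m t = (f m t - A m t) + (f' m t - B m t) := by
    simp only [Pi.add_apply]; ring
  rw [e1]
  linarith

lemma const_mul (hf : T g N γ f) (a : ℝ) : T g N γ (fun m t => a * f m t) := by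
  obtain ⟨A, hA, C, hC0, hC⟩ := hf.exists_nonneg
  refine ⟨a • A, Submodule.smul_mem _ _ hA, |a| * C, ?_⟩
  filter_upwards [hC] with t ⟨ht, h1⟩ m hm
  have e1 : a * f m t - (a • A) m t = a * (f m t - A m t) := by
    simp only [Pi.smul_apply, smul_eq_mul]; ring
  rw [e1, abs_mul, mul_assoc]
  exact mul_le_mul_of_nonneg_left (h1 m hm) (abs_nonneg a)

lemma neg (hf : T g N γ f) : T g N γ (fun m t => - f m t) := by
  simpa using hf.const_mul (-1)

lemma sub (hf : T g N γ f) (hf' : T g N γ f') : T g N γ (fun m t => f m t - f' m t) := by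
  simpa [sub_eq_add_neg] using hf.add hf'.neg

lemma mul (hf : T g N γ f) (hf' : T g N γ' f') : T g N (γ + γ') (fun m t => f m t * f' m t) := by
  obtain ⟨E, hE0, hE⟩ := hf'.bound
  obtain ⟨A, hA, C, hC0, hC⟩ := hf.exists_nonneg
  obtain ⟨B, hB, D, hD0, hD⟩ := hf'.exists_nonneg
  obtain ⟨K, hK0, hK⟩ := TA_bound hA
  refine ⟨A * B, TA_mul hA hB, C * E + K * D, ?_⟩
  filter_upwards [hC, hD, hE] with t ⟨ht, h1⟩ ⟨_, h2⟩ h3 m hm
  have e1 : f m t * f' m t - (A * B) m t = (f m t - A m t) * f' m t + A m t * (f' m t - B m t) := by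
    simp only [Pi.mul_apply]; ring
  rw [e1]
  refine (abs_add_le _ _).trans ?_
  rw [abs_mul, abs_mul, add_mul]
  have a1 := mul_le_mul (h1 m hm) (h3 m hm) (abs_nonneg _) ((abs_nonneg _).trans (h1 m hm))
  have a2 := mul_le_mul (hK t ht m hm) (h2 m hm) (abs_nonneg _)
    ((abs_nonneg _).trans (hK t ht m hm))
  have m1 : mon (γ + g * N) m * mon γ' m = mon (γ + γ' + g * N) m := by
    rw [mon_mul_apply]; congr 1; ring
  have m2 : mon γ m * mon (γ' + g * N) m = mon (γ + γ' + g * N) m := by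
    rw [mon_mul_apply]; congr 1; ring
  refine add_le_add (a1.trans (le_of_eq ?_)) (a2.trans (le_of_eq ?_))
  · rw [← m1]; ring
  · rw [← m2]; ring

lemma mul' {γ'' : ℝ} (h : γ + γ' ≤ γ'') (hf : T g N γ f) (hf' : T g N γ' f') :
    T g N γ'' (fun m t => f m t * f' m t) := (hf.mul hf').mono h

lemma pow (hf : T g N 0 f) (k : ℕ) : T g N 0 (fun m t => f m t ^ k) := by
  induction k with
  | zero => simpa using T.const (g := g) (N := N) (γ := 0) le_rfl 1
  | succ k ih =>
    refine (ih.mul' (γ'' := 0) (by norm_num) hf).congr' fun m t => ?_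
    rw [pow_succ]

lemma sum {ι : Type*} (s : Finset ι) {F : ι → ℕ → ℝ → ℝ} (h : ∀ i ∈ s, T g N γ (F i)) :
    T g N γ (fun m t => ∑ i ∈ s, F i m t) := by
  classical
  induction s using Finset.induction_on with
  | empty =>
    refine (of_TA (Submodule.zero_mem (TA g γ))).congr' fun m t => ?_
    simp
  | insert a s ha ih =>
    have h1 := (h a (Finset.mem_insert_self a s)).add
      (ih fun i hi => h i (Finset.mem_insert_of_mem hi))
    refine h1.congr' fun m t => ?_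
    simp only [Finset.sum_insert ha]

/-- multiplication by `t` -/
lemma tmul (hf : T g N γ f) : T g (N + 1) (γ - g) (fun m t => t * f m t) := by
  obtain ⟨A, hA, C, hC0, hC⟩ := hf.exists_nonneg
  have hA' : (fun m t => t * A m t) ∈ TA g (γ - g) := by
    clear hC
    induction hA using Submodule.span_induction with
    | mem F hF =>
      obtain ⟨i, c, ⟨D, hD⟩, rfl⟩ := hF
      have h1 : ∀ m, |c m| ≤ D * mon (γ - g + g * ((i + 1 : ℕ) : ℝ)) m := by
        intro m
        have e : γ - g + g * ((i + 1 : ℕ) : ℝ) = γ + g * i := by push_cast; ring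
        rw [e]; exact hD m
      have h2 := TA_gen (g := g) (γ := γ - g) (i + 1) h1
      convert h2 using 1
      ext m t
      ring
    | zero =>
      convert Submodule.zero_mem (TA g (γ - g)) using 1
      ext m t
      simp
    | add F G _ _ hF hG =>
      have := Submodule.add_mem _ hF hG
      convert this using 1
      ext m t
      simp only [Pi.add_apply]; ring
    | smul a F _ hF =>
      have := Submodule.smul_mem _ a hF
      convert this using 1
      ext m t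
      simp only [Pi.smul_apply, smul_eq_mul]; ring
  refine ⟨_, hA', C, ?_⟩
  filter_upwards [hC] with t ⟨ht, h1⟩ m hm
  have e1 : t * f m t - t * A m t = t * (f m t - A m t) := by ring
  rw [e1, abs_mul, abs_of_pos ht]
  refine (mul_le_mul_of_nonneg_left (h1 m hm) ht.le).trans (le_of_eq ?_)
  have e2 : γ - g + g * ((N + 1 : ℕ) : ℝ) = γ + g * N := by push_cast; ring
  rw [e2]; ring

/-- composition -/
lemma comp (hf : T g N 0 f) {R K B : ℝ} {F : ℝ → ℝ} {a : ℕ → ℝ}
    (hR : ∀ᶠ t in 𝓝[>] (0 : ℝ), ∀ m, t * mon g m ≤ 1 → |f m t| ≤ R)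
    (hK : ∀ᶠ t in 𝓝[>] (0 : ℝ), ∀ m, t * mon g m ≤ 1 → |f m t| ≤ K * (t * mon g m))
    (hF : ∀ y, |y| ≤ R → |F y - ∑ j ∈ Finset.range N, a j * y ^ j| ≤ B * |y| ^ N) :
    T g N 0 (fun m t => F (f m t)) := by
  have h1 : T g N 0 (fun m t => ∑ j ∈ Finset.range N, a j * f m t ^ j) :=
    T.sum _ fun j _ => (hf.pow j).const_mul _
  obtain ⟨A, hA, C, hC0, hC⟩ := h1.exists_nonneg
  refine ⟨A, hA, |B| * |K| ^ N + C, ?_⟩
  filter_upwards [hC, hR, hK] with t ⟨ht, h1⟩ h2 h3 m hm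
  have e1 : F (f m t) - A m t = (F (f m t) - ∑ j ∈ Finset.range N, a j * f m t ^ j)
      + ((∑ j ∈ Finset.range N, a j * f m t ^ j) - A m t) := by ring
  rw [e1]
  refine (abs_add_le _ _).trans ?_
  rw [add_mul]
  refine add_le_add ?_ (h1 m hm)
  refine (hF _ (h2 m hm)).trans ?_
  have hpos : 0 < t * mon g m := mul_pos ht (mon_pos _ _)
  have h4 : |f m t| ≤ |K| * (t * mon g m) :=
    (h3 m hm).trans (mul_le_mul_of_nonneg_right (le_abs_self K) hpos.le)
  have h5 : |f m t| ^ N ≤ |K| ^ N * (t ^ N * mon (0 + g * N) m) := by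
    have h6 : t ^ N * mon (0 + g * N) m = (t * mon g m) ^ N := by
      rw [mon_split, mon_zero]; simp
    rw [h6, ← mul_pow]
    exact pow_le_pow_left₀ (abs_nonneg _) h4 N
  calc B * |f m t| ^ N ≤ |B| * |f m t| ^ N :=
        mul_le_mul_of_nonneg_right (le_abs_self B) (by positivity)
    _ ≤ |B| * (|K| ^ N * (t ^ N * mon (0 + g * N) m)) :=
        mul_le_mul_of_nonneg_left h5 (abs_nonneg _)
    _ = _ := by ring

end T

/-- Taylor data of an analytic function at zero -/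
lemma analytic_taylor {F : ℝ → ℝ} (hF : AnalyticAt ℝ F 0) (N : ℕ) :
    ∃ (a : ℕ → ℝ) (B R : ℝ), 0 < R ∧
      ∀ y, |y| ≤ R → |F y - ∑ j ∈ Finset.range N, a j * y ^ j| ≤ B * |y| ^ N := by
  obtain ⟨p, hp⟩ := hF
  have h1 := hp.isBigO_sub_partialSum_pow N
  obtain ⟨B, hB⟩ := h1.bound
  rw [Metric.eventually_nhds_iff] at hB
  obtain ⟨R, hR, hB⟩ := hB
  refine ⟨fun j => p.coeff j, B, R / 2, by positivity, fun y hy => ?_⟩
  have h2 := hB (y := y) (by rw [dist_zero_right, Real.norm_eq_abs]; linarith)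
  rw [zero_add, FormalMultilinearSeries.partialSum] at h2
  have h5 : ∑ k ∈ Finset.range N, (p k) (fun _ => y)
      = ∑ k ∈ Finset.range N, p.coeff k * y ^ k := by
    refine Finset.sum_congr rfl fun k _ => ?_
    rw [FormalMultilinearSeries.apply_eq_pow_smul_coeff, smul_eq_mul, mul_comm]
  rw [h5, Real.norm_eq_abs] at h2
  simpa using h2

/-- composition with an analytic function in the uniform class -/
lemma T.comp_analytic {N : ℕ} {γ : ℝ} (hγ : γ ≤ 0) {h : ℕ → ℝ → ℝ} {F : ℝ → ℝ}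
    (hF : AnalyticAt ℝ F 0) (hh : T 0 N γ h) : T 0 N 0 (fun m t => F (t * h m t)) := by
  obtain ⟨a, B, R, hR, hB⟩ := analytic_taylor hF N
  have h1 : T 0 N 0 (fun m t => t * h m t) :=
    ((hh.tmul).mono_N (Nat.le_succ N)).mono (by simpa using hγ)
  obtain ⟨C, hC0, hC⟩ := (hh.mono hγ).bound
  have h2 : ∀ᶠ t in 𝓝[>] (0 : ℝ), ∀ m, t * mon 0 m ≤ 1 → |t * h m t| ≤ C * (t * mon 0 m) := by
    filter_upwards [hC, eventually_pos'] with t h1 ht m hm
    rw [abs_mul, abs_of_pos ht]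
    have := mul_le_mul_of_nonneg_left (h1 m hm) ht.le
    linarith
  refine h1.comp (R := R) (K := C) (B := B) ?_ h2 hB
  filter_upwards [h2, eventually_pos', eventually_lt' (div_pos hR (by linarith : 0 < C + 1))]
    with t h3 ht ht2 m hm
  refine (h3 m hm).trans ?_
  rw [mon_zero, Pi.one_apply, mul_one]
  rw [lt_div_iff₀ (by linarith : 0 < C + 1)] at ht2
  nlinarith

lemma exp_taylor (N : ℕ) (R : ℝ) : ∃ B, ∀ y : ℝ, |y| ≤ R →
    |Real.exp y - ∑ j ∈ Finset.range N, (1 / (j.factorial : ℝ)) * y ^ j| ≤ B * |y| ^ N := by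
  refine ⟨Real.exp R, fun y hy => ?_⟩
  have h1 := Complex.norm_exp_sub_sum_le_norm_mul_exp (y : ℂ) N
  have h2 : Complex.exp (y : ℂ) - ∑ m ∈ Finset.range N, (y : ℂ) ^ m / (m.factorial : ℂ)
      = ((Real.exp y - ∑ j ∈ Finset.range N, (1 / (j.factorial : ℝ)) * y ^ j : ℝ) : ℂ) := by
    push_cast
    congr 1
    refine Finset.sum_congr rfl fun j _ => ?_
    ring
  rw [h2, Complex.norm_real, Complex.norm_real, Real.norm_eq_abs, Real.norm_eq_abs] at h1
  refine h1.trans ?_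
  rw [mul_comm]
  exact mul_le_mul_of_nonneg_right (Real.exp_le_exp.mpr hy) (by positivity)

/-- the exponential of a section that is `O(t (m+1)^g)` -/
lemma T.exp {g : ℝ} {N : ℕ} {f : ℕ → ℝ → ℝ} (hf : T g N 0 f) {K : ℝ}
    (hK : ∀ᶠ t in 𝓝[>] (0 : ℝ), ∀ m, t * mon g m ≤ 1 → |f m t| ≤ K * (t * mon g m)) :
    T g N 0 (fun m t => Real.exp (f m t)) := by
  obtain ⟨B, hB⟩ := exp_taylor N |K|
  refine hf.comp (R := |K|) (K := K) ?_ hK hB
  filter_upwards [hK, eventually_pos'] with t h1 ht m hm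
  refine (h1 m hm).trans ?_
  have hpos : 0 < t * mon g m := mul_pos ht (mon_pos _ _)
  nlinarith [abs_nonneg K, le_abs_self K]


/-! ### sums in the uniform class -/

lemma region_zero {t : ℝ} (h : t < 1) (m : ℕ) : t * mon 0 m ≤ 1 := by
  rw [mon_zero, Pi.one_apply, mul_one]; exact h.le

lemma T.sum_range {N : ℕ} {γ γ' : ℝ} (hS : ∃ C, 0 < C ∧ ∀ k, ∑ i ∈ Finset.range k, mon γ i ≤ C * mon γ' k)
    {f : ℕ → ℝ → ℝ} (hf : T 0 N γ f) :
    T 0 N γ' (fun k t => ∑ i ∈ Finset.range k, f i t) := by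
  obtain ⟨S, hS0, hS⟩ := hS
  obtain ⟨A, hA, C, hC0, hC⟩ := hf.exists_nonneg
  have hA' : (fun (k : ℕ) (t : ℝ) => ∑ i ∈ Finset.range k, A i t) ∈ TA 0 γ' := by
    clear hC
    induction hA using Submodule.span_induction with
    | mem F hF =>
      obtain ⟨i, c, ⟨D, hD⟩, rfl⟩ := hF
      have h1 : ∀ k, |∑ j ∈ Finset.range k, c j| ≤ (|D| * S) * mon (γ' + 0 * i) k := by
        intro k
        have e : γ' + 0 * (i : ℝ) = γ' := by ring
        have e' : γ + 0 * (i : ℝ) = γ := by ring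
        rw [e'] at hD
        rw [e]
        calc |∑ j ∈ Finset.range k, c j| ≤ ∑ j ∈ Finset.range k, |c j| :=
              Finset.abs_sum_le_sum_abs _ _
          _ ≤ ∑ j ∈ Finset.range k, |D| * mon γ j := by
              refine Finset.sum_le_sum fun j _ => (hD j).trans ?_
              exact mul_le_mul_of_nonneg_right (le_abs_self D) (mon_pos _ _).le
          _ = |D| * ∑ j ∈ Finset.range k, mon γ j := by rw [Finset.mul_sum]
          _ ≤ |D| * (S * mon γ' k) := mul_le_mul_of_nonneg_left (hS k) (abs_nonneg _)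
          _ = _ := by ring
      convert TA_gen (g := 0) (γ := γ') i h1 using 1
      ext k t
      rw [Finset.mul_sum]
    | zero =>
      convert Submodule.zero_mem (TA 0 γ') using 1
      ext m t
      simp
    | add F G _ _ hF hG =>
      convert Submodule.add_mem _ hF hG using 1
      ext m t
      simp only [Pi.add_apply, Finset.sum_add_distrib]
    | smul a F _ hF =>
      convert Submodule.smul_mem _ a hF using 1
      ext m t
      simp only [Pi.smul_apply, smul_eq_mul, Finset.mul_sum]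
  refine ⟨_, hA', C * S, ?_⟩
  filter_upwards [hC, eventually_lt' one_pos] with t ⟨ht, h1⟩ ht1 k hk
  rw [← Finset.sum_sub_distrib]
  have e : γ' + 0 * (N : ℝ) = γ' := by ring
  have e' : γ + 0 * (N : ℝ) = γ := by ring
  rw [e'] at h1
  rw [e]
  calc |∑ j ∈ Finset.range k, (f j t - A j t)| ≤ ∑ j ∈ Finset.range k, |f j t - A j t| :=
        Finset.abs_sum_le_sum_abs _ _
    _ ≤ ∑ j ∈ Finset.range k, C * (t ^ N * mon γ j) :=
        Finset.sum_le_sum fun j _ => h1 j (region_zero ht1 j)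
    _ = C * (t ^ N * ∑ j ∈ Finset.range k, mon γ j) := by
        rw [Finset.mul_sum, Finset.mul_sum]
    _ ≤ C * (t ^ N * (S * mon γ' k)) := by
        have := hS k
        gcongr
    _ = _ := by ring

lemma T.sum_range_of_lt {N : ℕ} {γ : ℝ} (hγ : γ < -1) {f : ℕ → ℝ → ℝ} (hf : T 0 N γ f) :
    T 0 N 0 (fun k t => ∑ i ∈ Finset.range k, f i t) := by
  obtain ⟨C, hC, h⟩ := sum_mon_le_const hγ
  refine hf.sum_range ⟨C, hC, fun k => ?_⟩
  rw [mon_zero, Pi.one_apply, mul_one]; exact h k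

lemma T.sum_range_of_gt {N : ℕ} {γ : ℝ} (hγ : -1 < γ) {f : ℕ → ℝ → ℝ} (hf : T 0 N γ f) :
    T 0 N (γ + 1) (fun k t => ∑ i ∈ Finset.range k, f i t) :=
  hf.sum_range (sum_mon_le hγ)

lemma T.summable {N : ℕ} {γ : ℝ} (hγ : γ < -1) {f : ℕ → ℝ → ℝ} (hf : T 0 N γ f) :
    ∀ᶠ t in 𝓝[>] (0 : ℝ), Summable fun m => f m t := by
  obtain ⟨C, hC0, hC⟩ := hf.bound
  filter_upwards [hC, eventually_lt' one_pos] with t h1 ht
  refine Summable.of_norm_bounded ((summable_mon hγ).mul_left C) fun m => ?_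
  exact h1 m (region_zero ht m)

lemma T.tail {N : ℕ} {γ : ℝ} (hγ : γ < -1) {f : ℕ → ℝ → ℝ} (hf : T 0 N γ f) :
    T 0 N (γ + 1) (fun k t => ∑' i, f (i + k) t) := by
  obtain ⟨S, hS0, hS⟩ := tsum_tail_mon_le hγ
  obtain ⟨A, hA, C, hC0, hC⟩ := hf.exists_nonneg
  have hshift : ∀ k : ℕ, Summable fun i => mon γ (i + k) := fun k =>
    (summable_nat_add_iff k).mpr (summable_mon hγ)
  have hAs : ∀ t : ℝ, ∀ k : ℕ, Summable fun i => A (i + k) t := by
    intro t k
    clear hC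
    induction hA using Submodule.span_induction with
    | mem F hF =>
      obtain ⟨i, c, ⟨D, hD⟩, rfl⟩ := hF
      refine Summable.mul_left _ ?_
      refine Summable.of_norm_bounded ((hshift k).mul_left D) fun m => ?_
      have := hD (m + k)
      simpa using this
    | zero => simpa using summable_zero
    | add F G _ _ hF hG => simpa using hF.add hG
    | smul a F _ hF => simpa using hF.mul_left a
  have hA' : (fun (k : ℕ) (t : ℝ) => ∑' i, A (i + k) t) ∈ TA 0 (γ + 1) := by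
    clear hC
    have hmain : (fun (k : ℕ) (t : ℝ) => ∑' i, A (i + k) t) ∈ TA 0 (γ + 1) ∧
        ∀ t : ℝ, ∀ k : ℕ, Summable fun i => A (i + k) t := by
      clear hAs
      induction hA using Submodule.span_induction with
      | mem F hF =>
        obtain ⟨i, c, ⟨D, hD⟩, rfl⟩ := hF
        have e' : γ + 0 * (i : ℝ) = γ := by ring
        rw [e'] at hD
        have hcs : ∀ k : ℕ, Summable fun i => c (i + k) := fun k =>
          Summable.of_norm_bounded ((hshift k).mul_left D) fun m => hD (m + k)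
        constructor
        · have h1 : ∀ k, |∑' j, c (j + k)| ≤ (|D| * S) * mon (γ + 1 + 0 * i) k := by
            intro k
            have e : γ + 1 + 0 * (i : ℝ) = γ + 1 := by ring
            rw [e]
            calc |∑' j, c (j + k)| ≤ ∑' j, |c (j + k)| :=
                  (norm_tsum_le_tsum_norm (hcs k).norm)
              _ ≤ ∑' j, |D| * mon γ (j + k) := by
                  refine Summable.tsum_le_tsum (fun j => (hD (j + k)).trans ?_) (hcs k).norm
                    ((hshift k).mul_left _)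
                  exact mul_le_mul_of_nonneg_right (le_abs_self D) (mon_pos _ _).le
              _ = |D| * ∑' j, mon γ (j + k) := tsum_mul_left
              _ ≤ |D| * (S * mon (γ + 1) k) := mul_le_mul_of_nonneg_left (hS k) (abs_nonneg _)
              _ = _ := by ring
          convert TA_gen (g := 0) (γ := γ + 1) i h1 using 1
          ext k t
          rw [tsum_mul_left]
        · intro t k
          exact (hcs k).mul_left _
      | zero =>
        constructor
        · convert Submodule.zero_mem (TA 0 (γ + 1)) using 1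
          ext m t
          simp
        · intro t k
          simpa using summable_zero
      | add F G _ _ hF hG =>
        constructor
        · convert Submodule.add_mem _ hF.1 hG.1 using 1
          ext m t
          simp only [Pi.add_apply]
          exact (hF.2 t m).tsum_add (hG.2 t m)
        · intro t k
          simpa using (hF.2 t k).add (hG.2 t k)
      | smul a F _ hF =>
        constructor
        · convert Submodule.smul_mem _ a hF.1 using 1
          ext m t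
          simp only [Pi.smul_apply, smul_eq_mul]
          exact tsum_mul_left
        · intro t k
          simpa using (hF.2 t k).mul_left a
    exact hmain.1
  have hfs := hf.summable hγ
  refine ⟨_, hA', C * S, ?_⟩
  filter_upwards [hC, hfs, eventually_lt' one_pos] with t ⟨ht, h1⟩ hfs ht1 k hk
  have hfk : Summable fun i => f (i + k) t := (summable_nat_add_iff k).mpr hfs
  rw [← hfk.tsum_sub (hAs t k)]
  have e : γ + 1 + 0 * (N : ℝ) = γ + 1 := by ring
  have e' : γ + 0 * (N : ℝ) = γ := by ring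
  rw [e'] at h1
  rw [e]
  calc |∑' j, (f (j + k) t - A (j + k) t)| ≤ ∑' j, |f (j + k) t - A (j + k) t| :=
        norm_tsum_le_tsum_norm (hfk.sub (hAs t k)).norm
    _ ≤ ∑' j, C * (t ^ N * mon γ (j + k)) :=
        Summable.tsum_le_tsum (fun j => h1 _ (region_zero ht1 _)) (hfk.sub (hAs t k)).norm
          (((hshift k).mul_left _).mul_left _)
    _ = C * (t ^ N * ∑' j, mon γ (j + k)) := by
        rw [tsum_mul_left, tsum_mul_left]
    _ ≤ C * (t ^ N * (S * mon (γ + 1) k)) := by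
        have := hS k
        gcongr
    _ = _ := by ring

end F526
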